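import Pool.Agent.W_5dd92e_ld.LsK

/-!
# Label stage: the recursion of priors
-/

set_option autoImplicit false

open Finset
open scoped Classical

namespace LD

variable {V : Type*} [Fintype V] {Lam : Type*} [Fintype Lam]

theorem pri_nonneg {ρ : ℕ → ℝ} {kap : ℕ → Finset V → (V → Option Lam) → V → Option Lam → ℝ}
    (h : KapOK ρ kap) (m i : ℕ) (R : Finset V) (τ : V → Option Lam) : 0 ≤ pri ρ kap m i R τ := by
  induction m generalizing i R τ with
  | zero =>
    exact ker_nonneg _ (fun _ _ => by positivity) R τ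
  | succ m ih =>
    exact EB_nonneg (h.r0 _) (h.r1 _) _ fun R' => Finset.sum_nonneg fun τ' _ =>
      mul_nonneg (ih _ _ _) (ker_nonneg _ (fun x Q => (h.pos i R' τ' x Q).le) R τ)

theorem pri_sum_le {ρ : ℕ → ℝ} {kap : ℕ → Finset V → (V → Option Lam) → V → Option Lam → ℝ}
    (h : KapOK ρ kap) (m i : ℕ) (R : Finset V) : ∑ τ : V → Option Lam, pri ρ kap m i R τ ≤ 1 := by
  induction m generalizing i R with
  | zero =>
    refine ker_sum_le _ (fun _ _ => by positivity) (fun x => le_of_eq ?_) R
    rw [Finset.sum_const, Finset.card_univ, Fintype.card_option, nsmul_eq_mul]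
    push_cast
    exact mul_one_div_cancel (by positivity)
  | succ m ih =>
    have e : ∑ τ : V → Option Lam, pri ρ kap (m + 1) i R τ = EB (ρ (i + 1)) (fun R' =>
        ∑ τ : V → Option Lam, ∑ τ' : V → Option Lam,
          pri ρ kap m (i + 1) R' τ' * ker (kap i R' τ') R τ) := by
      rw [EB_sum]
      rfl
    rw [e]
    refine (EB_mono (h.r0 _) (h.r1 _) _ (fun _ => 1) fun R' => ?_).trans (EB_one _).le
    rw [Finset.sum_comm]
    refine le_trans (Finset.sum_le_sum fun τ' _ => ?_) (ih (i + 1) R')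
    rw [← Finset.mul_sum]
    exact mul_le_of_le_one_right (pri_nonneg h _ _ _ _)
      (ker_sum_le _ (fun x Q => (h.pos i R' τ' x Q).le) (h.sum i R' τ') R)

/-- one term of the sum is positive -/
theorem pri_term_pos {ρ : ℕ → ℝ} {kap : ℕ → Finset V → (V → Option Lam) → V → Option Lam → ℝ}
    (h : KapOK ρ kap) (m i : ℕ) (R R' : Finset V) (l : V → Option Lam)
    (hp : 0 < pri ρ kap m (i + 1) R' (rst R' l)) :
    0 < pri ρ kap m (i + 1) R' (rst R' l) * ker (kap i R' (rst R' l)) R (rst R l) := by
  refine mul_pos hp ?_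
  rw [ker_rst]
  exact Finset.prod_pos fun x _ => h.pos _ _ _ _ _

/-- one term of the sum is at most the sum -/
theorem pri_term_le {ρ : ℕ → ℝ} {kap : ℕ → Finset V → (V → Option Lam) → V → Option Lam → ℝ}
    (h : KapOK ρ kap) (m i : ℕ) (R R' : Finset V) (l : V → Option Lam) :
    pri ρ kap m (i + 1) R' (rst R' l) * ker (kap i R' (rst R' l)) R (rst R l) ≤
      ∑ τ' : V → Option Lam, pri ρ kap m (i + 1) R' τ' * ker (kap i R' τ') R (rst R l) :=
  Finset.single_le_sum (f := fun τ' => pri ρ kap m (i + 1) R' τ' * ker (kap i R' τ') R (rst R l))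
    (fun τ' _ => mul_nonneg (pri_nonneg h _ _ _ _)
      (ker_nonneg _ (fun x Q => (h.pos i R' τ' x Q).le) R _)) (mem_univ _)

theorem pri_pos {ρ : ℕ → ℝ} {kap : ℕ → Finset V → (V → Option Lam) → V → Option Lam → ℝ}
    (h : KapOK ρ kap) (m i : ℕ) (R : Finset V) (l : V → Option Lam) : 0 < pri ρ kap m i R (rst R l) := by
  induction m generalizing i R with
  | zero =>
    change 0 < ker (fun _ _ => 1 / ((Fintype.card Lam : ℝ) + 1)) R (rst R l)
    rw [ker_rst]
    exact Finset.prod_pos fun x _ => by positivity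
  | succ m ih =>
    exact (EB_jensen (h.r0 (i + 1)) (h.r1 (i + 1)) (f := fun R' => ∑ τ' : V → Option Lam,
      pri ρ kap m (i + 1) R' τ' * ker (kap i R' τ') R (rst R l)) fun R' =>
        lt_of_lt_of_le (pri_term_pos h m i R R' l (ih (i + 1) R'))
          (pri_term_le h m i R R' l)).1

/-- the expected code length (induction on `m`; the step is Jensen `EB_jensen` for `R'`, dropping all `τ'` but
`rst R' l`, and `EB_linear` for the average over `R`) -/
theorem pri_cost {ρ : ℕ → ℝ} {kap : ℕ → Finset V → (V → Option Lam) → V → Option Lam → ℝ}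
    (h : KapOK ρ kap) (m i : ℕ) (l : V → Option Lam) :
    EB (ρ i) (fun R => -Real.log (pri ρ kap m i R (rst R l))) ≤
      ρ (i + m) * ((Fintype.card V : ℝ) * Real.log ((Fintype.card Lam : ℝ) + 1)) +
      ∑ t ∈ range m, ρ (i + t) * EB (ρ (i + t + 1))
        (fun R' => ∑ x, -Real.log (kap (i + t) R' (rst R' l) x (l x))) := by
  induction m generalizing i with
  | zero =>
    rw [Finset.sum_range_zero, add_zero, add_zero]
    have e : (fun R : Finset V => -Real.log (pri ρ kap 0 i R (rst R l))) =
        fun R => ∑ x ∈ R, Real.log ((Fintype.card Lam : ℝ) + 1) := by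
      funext R
      change -Real.log (ker (fun _ _ => 1 / ((Fintype.card Lam : ℝ) + 1)) R (rst R l)) = _
      rw [ker_rst, Finset.prod_const, Finset.sum_const, nsmul_eq_mul, Real.log_pow, one_div,
        Real.log_inv]
      ring
    rw [e, EB_linear, Finset.sum_const, Finset.card_univ, nsmul_eq_mul]
  | succ m ih =>
    have h1 : ∀ R : Finset V, -Real.log (pri ρ kap (m + 1) i R (rst R l)) ≤
        EB (ρ (i + 1)) (fun R' => -Real.log (pri ρ kap m (i + 1) R' (rst R' l))) +
        ∑ x ∈ R, EB (ρ (i + 1)) (fun R' => -Real.log (kap i R' (rst R' l) x (l x))) := by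
      intro R
      have h2 := (EB_jensen (h.r0 (i + 1)) (h.r1 (i + 1)) (f := fun R' => ∑ τ' : V → Option Lam,
        pri ρ kap m (i + 1) R' τ' * ker (kap i R' τ') R (rst R l)) fun R' =>
          lt_of_lt_of_le (pri_term_pos h m i R R' l (pri_pos h m (i + 1) R' l))
            (pri_term_le h m i R R' l)).2
      refine le_trans h2 ?_
      rw [← EB_sum, ← EB_add]
      refine EB_mono (h.r0 _) (h.r1 _) _ _ fun R' => ?_
      have h3 := Real.log_le_log (pri_term_pos h m i R R' l (pri_pos h m (i + 1) R' l))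
        (pri_term_le h m i R R' l)
      rw [ker_rst, Real.log_mul (pri_pos h m (i + 1) R' l).ne'
        (Finset.prod_pos fun x _ => h.pos _ _ _ _ _).ne',
        Real.log_prod (fun x _ => (h.pos _ _ _ _ _).ne')] at h3
      rw [Finset.sum_neg_distrib]
      linarith
    have h4 := EB_mono (h.r0 i) (h.r1 i) _ _ h1
    rw [EB_add, EB_const, EB_linear, ← EB_sum] at h4
    refine h4.trans ?_
    have h5 := ih (i + 1)
    have e : ∀ t, i + 1 + t = i + (t + 1) := fun t => by omega
    simp only [e] at h5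
    rw [Finset.sum_range_succ', add_zero, ← add_assoc]
    exact add_le_add h5 le_rfl

end LD
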