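import Pool.Agent.W_5dd92e_ld.LsK

/-!
# Label stage: the code of the last stage
-/

set_option autoImplicit false

open Finset
open scoped Classical

namespace LD

variable {V : Type*} [Fintype V] {Lam : Type*} [Fintype Lam]

theorem PLg_nonneg {P : Finset V → (V → Option Lam) → ℝ} (hP : ∀ R τ, 0 ≤ P R τ)
    (SS : Finset V → (V → Option Lam) → Finset V)
    {kf : Finset V → (V → Option Lam) → V → Option Lam → ℝ} (hk : ∀ R τ x Q, 0 < kf R τ x Q)
    (R : Finset V) (τ : V → Option Lam) : 0 ≤ PLg P SS kf R τ :=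
  Finset.sum_nonneg fun τ0 _ => mul_nonneg (hP _ _) (ker_nonneg _ (fun x Q => (hk _ _ x Q).le) _ _)

theorem PLg_sum_le {P : Finset V → (V → Option Lam) → ℝ} (hP : ∀ R τ, 0 ≤ P R τ)
    (hP1 : ∀ R, ∑ τ, P R τ ≤ 1) (SS : Finset V → (V → Option Lam) → Finset V)
    {kf : Finset V → (V → Option Lam) → V → Option Lam → ℝ} (hk : ∀ R τ x Q, 0 < kf R τ x Q)
    (hk1 : ∀ R τ x, ∑ Q, kf R τ x Q ≤ 1) (R : Finset V) : ∑ τ, PLg P SS kf R τ ≤ 1 := by
  unfold PLg
  rw [Finset.sum_comm]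
  refine le_trans (Finset.sum_le_sum fun τ' _ => ?_) (hP1 R)
  rw [← Finset.mul_sum]
  exact mul_le_of_le_one_right (hP _ _)
    (ker_sum_le _ (fun x Q => (hk _ _ x Q).le) (hk1 _ _) _)

theorem PLg_cost {P : Finset V → (V → Option Lam) → ℝ} (hP : ∀ R τ, 0 ≤ P R τ)
    (SS : Finset V → (V → Option Lam) → Finset V)
    {kf : Finset V → (V → Option Lam) → V → Option Lam → ℝ} (hk : ∀ R τ x Q, 0 < kf R τ x Q)
    (R : Finset V) (l : V → Option Lam) (hpos : 0 < P R (rst R l)) :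
    0 < PLg P SS kf R (rst (SS R (rst R l))ᶜ l) ∧
    -Real.log (PLg P SS kf R (rst (SS R (rst R l))ᶜ l)) ≤ -Real.log (P R (rst R l)) +
      ∑ x ∈ (SS R (rst R l))ᶜ, -Real.log (kf R (rst R l) x (l x)) := by
  have h1 : 0 < ker (kf R (rst R l)) (SS R (rst R l))ᶜ (rst (SS R (rst R l))ᶜ l) := by
    rw [ker_rst]
    exact Finset.prod_pos fun x _ => hk _ _ _ _
  have h2 : P R (rst R l) * ker (kf R (rst R l)) (SS R (rst R l))ᶜ (rst (SS R (rst R l))ᶜ l) ≤
      PLg P SS kf R (rst (SS R (rst R l))ᶜ l) :=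
    Finset.single_le_sum (f := fun τ0 => P R τ0 * ker (kf R τ0) (SS R τ0)ᶜ
      (rst (SS R (rst R l))ᶜ l)) (fun τ0 _ => mul_nonneg (hP _ _)
        (ker_nonneg _ (fun x Q => (hk _ _ x Q).le) _ _)) (mem_univ _)
  have h3 := mul_pos hpos h1
  refine ⟨h3.trans_le h2, ?_⟩
  have h4 := Real.log_le_log h3 h2
  rw [Real.log_mul hpos.ne' h1.ne', ker_rst,
    Real.log_prod (fun x _ => (hk _ _ _ _).ne')] at h4
  rw [Finset.sum_neg_distrib]
  linarith

end LD
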