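import Pool.Agent.W_5dd92e_ld.EBase

/-!
# Label stage: numerical inequalities

`ζ = cz / log d`, densities `rhoL d 0 = 4 (log d)^3 / d`, `rhoL d i = (d - 1)^(-i)` for `i ≥ 1`.
-/

set_option autoImplicit false

open Finset
open scoped Classical

namespace LD

/-- the densities of the levels -/
noncomputable def rhoL (d : ℕ) : ℕ → ℝ
  | 0 => 4 * (Real.log d) ^ 3 / d
  | i + 1 => 1 / ((d : ℝ) - 1) ^ (i + 1)

/-- powers of the logarithm are small -/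
theorem ev_pow_log (n : ℕ) {c : ℝ} (hc : 0 < c) : ∃ d0 : ℕ, ∀ d ≥ d0, (Real.log (d : ℕ)) ^ n ≤ c * d := by
  have h := (Real.isLittleO_pow_log_id_atTop (n := n)).def hc
  have h2 := (tendsto_natCast_atTop_atTop (R := ℝ)).eventually h
  obtain ⟨d0, hd0⟩ := Filter.eventually_atTop.mp h2
  refine ⟨d0, fun d hd => ?_⟩
  have h3 := hd0 d hd
  simp only [id, Real.norm_eq_abs] at h3
  rw [abs_of_nonneg (Nat.cast_nonneg d : (0 : ℝ) ≤ (d : ℝ))] at h3
  exact (le_abs_self _).trans h3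

theorem ev_log_ge (c : ℝ) : ∃ d0 : ℕ, ∀ d ≥ d0, c ≤ Real.log (d : ℕ) := by
  have h := (Real.tendsto_log_atTop.comp (tendsto_natCast_atTop_atTop (R := ℝ))).eventually_ge_atTop c
  obtain ⟨d0, hd0⟩ := Filter.eventually_atTop.mp h
  exact ⟨d0, fun d hd => hd0 d hd⟩

theorem rhoL_range : ∃ d0 : ℕ, ∀ d ≥ d0, ∀ i, 0 ≤ rhoL d i ∧ rhoL d i ≤ 1 := by
  obtain ⟨d1, h1⟩ := ev_pow_log 3 (c := 1 / 4) (by norm_num)
  refine ⟨d1 + 2, fun d hd i => ?_⟩
  have hd2 : (2 : ℝ) ≤ d := by exact_mod_cast (by omega : 2 ≤ d)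
  cases i with
  | zero =>
    show 0 ≤ 4 * (Real.log d) ^ 3 / (d : ℝ) ∧ 4 * (Real.log d) ^ 3 / (d : ℝ) ≤ 1
    have hl : 0 ≤ Real.log d := Real.log_nonneg (by linarith)
    refine ⟨by positivity, ?_⟩
    rw [div_le_one (by linarith)]
    have := h1 d (by omega)
    linarith
  | succ i =>
    show 0 ≤ 1 / ((d : ℝ) - 1) ^ (i + 1) ∧ 1 / ((d : ℝ) - 1) ^ (i + 1) ≤ 1
    have h : 1 ≤ ((d : ℝ) - 1) ^ (i + 1) := one_le_pow₀ (by linarith)
    refine ⟨by positivity, ?_⟩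
    rw [div_le_one (by linarith)]
    exact h

theorem num_zeta (cz : ℝ) (hcz : 0 < cz) : ∃ d0 : ℕ, ∀ d ≥ d0, 2 ≤ d ∧ 1 ≤ Real.log d ∧
    20 ≤ cz / Real.log d * d ∧ cz / Real.log d ≤ 1 ∧ 0 < cz / Real.log d := by
  obtain ⟨d1, h1⟩ := ev_pow_log 1 (c := cz / 20) (by positivity)
  obtain ⟨d2, h2⟩ := ev_log_ge 1
  obtain ⟨d3, h3⟩ := ev_log_ge cz
  refine ⟨d1 + d2 + d3 + 2, fun d hd => ?_⟩
  have hl := h2 d (by omega)
  have hl0 : 0 < Real.log d := by linarith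
  have hz := h3 d (by omega)
  have h4 := h1 d (by omega)
  rw [pow_one] at h4
  refine ⟨by omega, hl, ?_, ?_, by positivity⟩
  · rw [div_mul_eq_mul_div, le_div_iff₀ hl0]
    linarith
  · rw [div_le_one hl0]
    exact hz

theorem num_ss (cz : ℝ) (hcz : 0 < cz) : ∃ C : ℝ, ∃ d0 : ℕ, 0 < C ∧ ∀ d ≥ d0,
    64 / (cz / Real.log d * d) + (d : ℝ) * Real.exp (-(rhoL d 0 * (cz / Real.log d) * d / 32)) ≤
      C * Real.log d / d := by
  obtain ⟨d2, h2⟩ := ev_log_ge 1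
  obtain ⟨d3, h3⟩ := ev_log_ge (16 / cz)
  refine ⟨64 / cz + 1, d2 + d3 + 2, by positivity, fun d hd => ?_⟩
  have hd2 : (2 : ℝ) ≤ d := by exact_mod_cast (by omega : 2 ≤ d)
  have hd0 : (0 : ℝ) < d := by linarith
  have hl := h2 d (by omega)
  have hl0 : 0 < Real.log d := by linarith
  have hz := h3 d (by omega)
  have e1 : 64 / (cz / Real.log d * d) = 64 / cz * Real.log d / d := by
    field_simp
  have e2 : rhoL d 0 * (cz / Real.log d) * d / 32 = cz * (Real.log d) ^ 2 / 8 := by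
    show 4 * (Real.log d) ^ 3 / (d : ℝ) * (cz / Real.log d) * d / 32 = cz * (Real.log d) ^ 2 / 8
    field_simp
    ring
  rw [e1, e2]
  have h5 : 2 * Real.log d ≤ cz * (Real.log d) ^ 2 / 8 := by
    rw [div_le_iff₀ hcz] at hz
    nlinarith
  have h6 : Real.exp (-(cz * (Real.log d) ^ 2 / 8)) ≤ 1 / (d : ℝ) ^ 2 := by
    calc Real.exp (-(cz * (Real.log d) ^ 2 / 8)) ≤ Real.exp (-(2 * Real.log d)) :=
          Real.exp_le_exp.mpr (by linarith)
      _ = 1 / (d : ℝ) ^ 2 := by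
          rw [Real.exp_neg, two_mul, Real.exp_add, Real.exp_log hd0]
          field_simp
  have h7 : (d : ℝ) * Real.exp (-(cz * (Real.log d) ^ 2 / 8)) ≤ Real.log d / d := by
    calc (d : ℝ) * Real.exp (-(cz * (Real.log d) ^ 2 / 8)) ≤ d * (1 / (d : ℝ) ^ 2) :=
          mul_le_mul_of_nonneg_left h6 hd0.le
      _ = 1 / d := by field_simp
      _ ≤ Real.log d / d := div_le_div_of_nonneg_right hl hd0.le
  have e3 : (64 / cz + 1) * Real.log d / d = 64 / cz * Real.log d / d + Real.log d / d := by ring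
  rw [e3]
  linarith

theorem sum_sq_half (K : ℕ) : ∑ t ∈ range K, ((t : ℝ) + 1) ^ 2 * (1 / 2) ^ t =
    12 - 2 * ((K : ℝ) ^ 2 + 4 * K + 6) * (1 / 2) ^ K := by
  induction K with
  | zero => norm_num
  | succ K ih =>
    rw [sum_range_succ, ih]
    push_cast
    rw [pow_succ (1 / 2 : ℝ) K]
    ring

theorem rhoL_le {d : ℕ} (hd : 3 ≤ d) (hL : 1 ≤ Real.log d) (t : ℕ) :
    rhoL d t ≤ 8 * (Real.log d) ^ 3 / d * (1 / 2) ^ t := by
  have hd' : (3 : ℝ) ≤ d := by exact_mod_cast hd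
  have hL3 : 1 ≤ (Real.log d) ^ 3 := one_le_pow₀ hL
  cases t with
  | zero =>
    show 4 * (Real.log d) ^ 3 / (d : ℝ) ≤ 8 * (Real.log d) ^ 3 / d * (1 / 2) ^ 0
    rw [pow_zero, mul_one]
    exact div_le_div_of_nonneg_right (by linarith) (by linarith)
  | succ t =>
    show 1 / ((d : ℝ) - 1) ^ (t + 1) ≤ 8 * (Real.log d) ^ 3 / d * (1 / 2) ^ (t + 1)
    have h1 : (2 : ℝ) ^ t * (d / 2) ≤ ((d : ℝ) - 1) ^ (t + 1) := by
      rw [pow_succ]
      exact mul_le_mul (pow_le_pow_left₀ (by norm_num) (by linarith) t) (by linarith) (by linarith)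
        (pow_nonneg (by linarith) t)
    have h2 : 1 / ((d : ℝ) - 1) ^ (t + 1) ≤ 1 / ((2 : ℝ) ^ t * (d / 2)) :=
      one_div_le_one_div_of_le (by positivity) h1
    refine h2.trans ?_
    have e1 : 1 / ((2 : ℝ) ^ t * (d / 2)) = 4 / d * (1 / 2) ^ (t + 1) := by
      rw [pow_succ, one_div_pow]
      field_simp
      norm_num
    rw [e1]
    refine mul_le_mul_of_nonneg_right ?_ (by positivity)
    exact div_le_div_of_nonneg_right (by linarith) (by linarith)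

/-- the sum over the levels -/
theorem num_levels : ∃ C : ℝ, ∃ d0 : ℕ, 0 < C ∧ ∀ d ≥ d0, ∀ K : ℕ,
    ∑ t ∈ range K, rhoL d t * (((t : ℝ) + 1) ^ 2 * Real.log d / d) ≤
      C * (Real.log d) ^ 4 / (d : ℝ) ^ 2 := by
  obtain ⟨d2, h2⟩ := ev_log_ge 1
  refine ⟨96, d2 + 3, by norm_num, fun d hd K => ?_⟩
  have hL := h2 d (by omega)
  have hd0 : (0 : ℝ) < d := by exact_mod_cast (by omega : 0 < d)
  calc ∑ t ∈ range K, rhoL d t * (((t : ℝ) + 1) ^ 2 * Real.log d / d)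
      ≤ ∑ t ∈ range K, 8 * (Real.log d) ^ 4 / (d : ℝ) ^ 2 * (((t : ℝ) + 1) ^ 2 * (1 / 2) ^ t) := by
        refine sum_le_sum fun t _ => ?_
        have h := mul_le_mul_of_nonneg_right (rhoL_le (by omega) hL t)
          (by positivity : (0 : ℝ) ≤ ((t : ℝ) + 1) ^ 2 * Real.log d / d)
        refine h.trans (le_of_eq ?_)
        field_simp
    _ = 8 * (Real.log d) ^ 4 / (d : ℝ) ^ 2 *
        (12 - 2 * ((K : ℝ) ^ 2 + 4 * K + 6) * (1 / 2) ^ K) := by
        rw [← mul_sum, sum_sq_half]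
    _ ≤ 8 * (Real.log d) ^ 4 / (d : ℝ) ^ 2 * 12 := by
        refine mul_le_mul_of_nonneg_left ?_ (by positivity)
        have : (0 : ℝ) ≤ 2 * ((K : ℝ) ^ 2 + 4 * K + 6) * (1 / 2) ^ K := by positivity
        linarith
    _ = 96 * (Real.log d) ^ 4 / (d : ℝ) ^ 2 := by ring

/-- the top level is sparse -/
theorem num_top {d : ℕ} (hd : 3 ≤ d) : Filter.Tendsto (fun K => rhoL d K) Filter.atTop (nhds 0) := by
  rw [← Filter.tendsto_add_atTop_iff_nat 1]
  have hd' : (3 : ℝ) ≤ d := by exact_mod_cast hd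
  have e : (fun K => rhoL d (K + 1)) = fun K => (1 / ((d : ℝ) - 1)) ^ (K + 1) := by
    funext K
    show 1 / ((d : ℝ) - 1) ^ (K + 1) = _
    rw [one_div_pow]
  rw [e]
  have h0 : (0 : ℝ) ≤ 1 / ((d : ℝ) - 1) := by
    have : (0 : ℝ) < (d : ℝ) - 1 := by linarith
    positivity
  have h1 : 1 / ((d : ℝ) - 1) < 1 := by
    rw [div_lt_one (by linarith)]
    linarith
  exact (Filter.tendsto_add_atTop_iff_nat 1).mpr (tendsto_pow_atTop_nhds_zero_of_lt_one h0 h1)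

end LD
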