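import Pool.Agent.W_5dd92e_ld.LsF
import Pool.Agent.W_5dd92e_ld.LsN0

/-!
# Label stage: numerics of the last stage
-/

set_option autoImplicit false

open Finset
open scoped Classical

namespace LD

private theorem LsN2_geo (J a : ℕ) : ∑ j ∈ Ico a J, ((1 : ℝ) / 2) ^ j ≤ 2 := by
  refine le_trans ?_ (sum_geometric_two_le J)
  refine sum_le_sum_of_subset_of_nonneg ?_ fun _ _ _ => by positivity
  intro j hj
  exact mem_range.2 (mem_Ico.1 hj).2

private theorem LsN2_exp {N : ℕ} {x : ℝ} (h : 20 + ((N : ℝ) + 1) ≤ x) :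
    (N : ℝ) + 1 ≤ Real.exp x ∧ Real.log ((N : ℝ) + 1) + 9 * x ≤ Real.exp x := by
  have hN : (0 : ℝ) ≤ N := Nat.cast_nonneg N
  have h1 : x ^ 2 / 2 ≤ Real.exp x := by
    have := Real.quadratic_le_exp_of_nonneg (x := x) (by linarith)
    nlinarith
  have h2 : Real.log ((N : ℝ) + 1) ≤ N := by
    have := Real.log_le_sub_one_of_pos (x := (N : ℝ) + 1) (by linarith)
    linarith
  constructor
  · nlinarith
  · nlinarith

/-- the last stage: the exponents are `cz (log d)^2 / 4` and at least `(4 cz / 5) (log d)^2 2^(j-2)` -/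
theorem num_fin (N : ℕ) (cz : ℝ) (hcz : 0 < cz) : ∃ d0 : ℕ, ∀ d ≥ d0, ∀ J : ℕ,
    Bfi N d (cz / Real.log d) (rhoL d 0) J ≤ 1 / (d : ℝ) ^ 2 := by
  refine ⟨⌈Real.exp (20 + ((N : ℝ) + 1) + 24 / cz)⌉₊, fun d hd J => ?_⟩
  have hd1 : Real.exp (20 + ((N : ℝ) + 1) + 24 / cz) ≤ d :=
    (Nat.le_ceil _).trans (by exact_mod_cast hd)
  have hd0 : (0 : ℝ) < d := (Real.exp_pos _).trans_le hd1
  have hL0 : 20 + ((N : ℝ) + 1) + 24 / cz ≤ Real.log d := (Real.le_log_iff_exp_le hd0).2 hd1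
  have hexp : Real.exp (Real.log d) = d := Real.exp_log hd0
  obtain ⟨L, hL⟩ : ∃ L, L = Real.log (d : ℝ) := ⟨_, rfl⟩
  rw [← hL] at hL0 hexp
  have hN : (0 : ℝ) ≤ N := Nat.cast_nonneg N
  have hcz24 : 0 < 24 / cz := by positivity
  have hL20 : 20 ≤ L := by linarith
  have hLN : 20 + ((N : ℝ) + 1) ≤ L := by linarith
  have hLpos : 0 < L := by linarith
  have hczL : 24 ≤ cz * L := by
    have h1 : 24 / cz ≤ L := by linarith
    rw [div_le_iff₀ hcz] at h1
    linarith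
  have hdL : L ^ 2 / 2 ≤ d := by
    have := Real.quadratic_le_exp_of_nonneg (x := L) hLpos.le
    rw [hexp] at this
    nlinarith
  have hd12 : (12 : ℝ) ≤ d := by nlinarith
  have hd3 : 1 / (d : ℝ) ^ 3 ≤ 1 / 12 * (1 / (d : ℝ) ^ 2) := by
    rw [div_le_iff₀ (by positivity)]
    have e : 1 / 12 * (1 / (d : ℝ) ^ 2) * (d : ℝ) ^ 3 = d / 12 := by
      field_simp
    rw [e]
    linarith
  have hexpm : Real.exp (-L) = 1 / d := by
    rw [Real.exp_neg, hexp, one_div]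
  have hexp3 : Real.exp (-(3 * L)) = 1 / (d : ℝ) ^ 3 := by
    have e : -(3 * L) = ((3 : ℕ) : ℝ) * (-L) := by push_cast; ring
    rw [e, Real.exp_nat_mul, hexpm, div_pow, one_pow]
  have hrr : rhoL d 0 = 4 * L ^ 3 / d := by rw [rhoL, hL]
  have hz : cz / Real.log d = cz / L := by rw [hL]
  -- the three parts
  have p1 : (∑ j ∈ Ico 1 J, 2 * ee d j * (d : ℝ) ^ j) ≤ 1 / 3 * (1 / (d : ℝ) ^ 2) := by
    have h1 : ∀ j ∈ Ico 1 J, 2 * ee d j * (d : ℝ) ^ j ≤ 2 * (1 / (d : ℝ) ^ 3) * (1 / 2) ^ j := by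
      intro j hj
      have e1 : 2 * ee d j * (d : ℝ) ^ j = 2 * (1 / (d : ℝ) ^ 3) * ((1 / d : ℝ) ^ 2) ^ j := by
        have h3 : ((d : ℝ)⁻¹) ^ (3 * j + 3) = ((d : ℝ)⁻¹) ^ 3 * (((d : ℝ)⁻¹) ^ 2) ^ j * ((d : ℝ)⁻¹) ^ j := by
          rw [← pow_mul, ← pow_add, ← pow_add]
          congr 1
          ring
        have h4 : ((d : ℝ)⁻¹) ^ j * (d : ℝ) ^ j = 1 := by
          rw [← mul_pow, inv_mul_cancel₀ hd0.ne', one_pow]
        have h5 : ee d j = ((d : ℝ)⁻¹) ^ (3 * j + 3) := rfl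
        rw [h5, h3]
        have h6 : (1 : ℝ) / (d : ℝ) ^ 3 = ((d : ℝ)⁻¹) ^ 3 := by rw [inv_pow, one_div]
        rw [h6, one_div]
        calc 2 * (((d : ℝ)⁻¹) ^ 3 * (((d : ℝ)⁻¹) ^ 2) ^ j * ((d : ℝ)⁻¹) ^ j) * (d : ℝ) ^ j
            = 2 * (((d : ℝ)⁻¹) ^ 3 * (((d : ℝ)⁻¹) ^ 2) ^ j) * (((d : ℝ)⁻¹) ^ j * (d : ℝ) ^ j) := by ring
          _ = 2 * ((d : ℝ)⁻¹) ^ 3 * (((d : ℝ)⁻¹) ^ 2) ^ j := by rw [h4]; ring
      rw [e1]
      have h2 : ((1 / d : ℝ) ^ 2) ^ j ≤ (1 / 2 : ℝ) ^ j := by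
        refine pow_le_pow_left₀ (by positivity) ?_ j
        rw [div_pow, one_pow, div_le_div_iff₀ (by positivity) (by norm_num)]
        nlinarith
      exact mul_le_mul_of_nonneg_left h2 (by positivity)
    calc (∑ j ∈ Ico 1 J, 2 * ee d j * (d : ℝ) ^ j)
        ≤ ∑ j ∈ Ico 1 J, 2 * (1 / (d : ℝ) ^ 3) * (1 / 2) ^ j := sum_le_sum h1
      _ = 2 * (1 / (d : ℝ) ^ 3) * ∑ j ∈ Ico 1 J, (1 / 2 : ℝ) ^ j := by rw [mul_sum]
      _ ≤ 2 * (1 / (d : ℝ) ^ 3) * 2 :=
          mul_le_mul_of_nonneg_left (LsN2_geo J 1) (by positivity)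
      _ ≤ 1 / 3 * (1 / (d : ℝ) ^ 2) := by linarith
  have p2 : (d : ℝ) * (((N : ℝ) + 1) * Real.exp (-(rhoL d 0 * (cz / L) * d / 16)) * AA N d 1) ≤
      1 / 3 * (1 / (d : ℝ) ^ 2) := by
    have e1 : rhoL d 0 * (cz / L) * d / 16 = cz * L / 4 * L := by
      rw [hrr]
      field_simp
      ring
    obtain ⟨h2, h3⟩ := LsN2_exp hLN
    have h4 : AA N d 1 ≤ Real.exp L := by
      rw [AA, ← hL]
      push_cast
      linarith
    have h5 : 0 ≤ AA N d 1 := by
      rw [AA, ← hL]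
      have := Real.log_nonneg (x := (N : ℝ) + 1) (by linarith)
      push_cast
      linarith
    have h6 : Real.exp (-(rhoL d 0 * (cz / L) * d / 16)) ≤ Real.exp (-(6 * L)) := by
      apply Real.exp_le_exp.2
      rw [e1]
      nlinarith
    calc (d : ℝ) * (((N : ℝ) + 1) * Real.exp (-(rhoL d 0 * (cz / L) * d / 16)) * AA N d 1)
        ≤ Real.exp L * (Real.exp L * Real.exp (-(6 * L)) * Real.exp L) := by
          rw [← hexp] at *
          gcongr
      _ = Real.exp (-(3 * L)) := by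
          rw [← Real.exp_add, ← Real.exp_add, ← Real.exp_add]
          ring_nf
      _ = 1 / (d : ℝ) ^ 3 := hexp3
      _ ≤ 1 / 3 * (1 / (d : ℝ) ^ 2) := by
          have : 0 ≤ 1 / (d : ℝ) ^ 2 := by positivity
          linarith
  have p3 : ∑ j ∈ Ico 2 J, (d : ℝ) ^ j * (((N : ℝ) + 1) *
      Real.exp (-(rhoL d 0 * ((cz / L) * d / 5) ^ (j - 1))) * AA N d j) ≤
        1 / 3 * (1 / (d : ℝ) ^ 2) := by
    have hq : 2 ≤ (cz / L) * d / 5 := by
      rw [le_div_iff₀ (by norm_num), div_mul_eq_mul_div, le_div_iff₀ hLpos]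
      nlinarith
    have h1 : ∀ j ∈ Ico 2 J, (d : ℝ) ^ j * (((N : ℝ) + 1) *
        Real.exp (-(rhoL d 0 * ((cz / L) * d / 5) ^ (j - 1))) * AA N d j) ≤
          2 * (1 / (d : ℝ) ^ 3) * (1 / 2) ^ j := by
      intro j hj
      obtain ⟨m, rfl⟩ : ∃ m, j = m + 2 := ⟨j - 2, by have := (mem_Ico.1 hj).1; omega⟩
      have hm : (0 : ℝ) ≤ m := Nat.cast_nonneg m
      have hm1 : m + 2 - 1 = m + 1 := by omega
      rw [hm1]
      have hx : 20 + ((N : ℝ) + 1) ≤ L * ((m : ℝ) + 1) := by nlinarith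
      obtain ⟨h2, h3⟩ := LsN2_exp hx
      have h4 : AA N d (m + 2) ≤ Real.exp (L * ((m : ℝ) + 1)) := by
        rw [AA, ← hL]
        push_cast
        nlinarith
      have h5 : 0 ≤ AA N d (m + 2) := by
        rw [AA, ← hL]
        have := Real.log_nonneg (x := (N : ℝ) + 1) (by linarith)
        push_cast
        positivity
      have h6 : (m : ℝ) + 1 ≤ ((cz / L) * d / 5) ^ m := by
        have h7 : (m : ℝ) + 1 ≤ (2 : ℝ) ^ m := by
          have := one_add_mul_le_pow (a := (1 : ℝ)) (by norm_num) m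
          have e : (1 : ℝ) + 1 = 2 := by norm_num
          rw [e] at this
          linarith
        exact h7.trans (pow_le_pow_left₀ (by norm_num) hq m)
      have h8 : 8 * L * ((m : ℝ) + 1) ≤ rhoL d 0 * ((cz / L) * d / 5) ^ (m + 1) := by
        have e : rhoL d 0 * ((cz / L) * d / 5) ^ (m + 1) =
            4 / 5 * (cz * L) * L * ((cz / L) * d / 5) ^ m := by
          obtain ⟨Y, hY⟩ : ∃ Y, Y = ((cz / L) * d / 5) ^ m := ⟨_, rfl⟩
          rw [hrr, pow_succ (cz / L * d / 5) m, ← hY]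
          field_simp
        rw [e]
        have h9 : 8 * L ≤ 4 / 5 * (cz * L) * L := by nlinarith
        exact mul_le_mul h9 h6 (by positivity) (by positivity)
      have h10 : Real.exp (-(rhoL d 0 * ((cz / L) * d / 5) ^ (m + 1))) ≤
          Real.exp (-(8 * L * ((m : ℝ) + 1))) := Real.exp_le_exp.2 (by linarith)
      have h11 : (d : ℝ) ^ (m + 2) ≤ Real.exp (2 * L * ((m : ℝ) + 1)) := by
        have e : (d : ℝ) ^ (m + 2) = Real.exp (((m + 2 : ℕ) : ℝ) * L) := by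
          rw [Real.exp_nat_mul, hexp]
        rw [e]
        apply Real.exp_le_exp.2
        push_cast
        nlinarith
      have h12 : Real.exp (-(L * (m : ℝ))) ≤ 2 * (1 / 2) ^ (m + 2) * 2 := by
        have e : -(L * (m : ℝ)) = (m : ℝ) * (-L) := by ring
        rw [e, Real.exp_nat_mul, hexpm]
        have h13 : (1 / d : ℝ) ^ m ≤ (1 / 2 : ℝ) ^ m := by
          refine pow_le_pow_left₀ (by positivity) ?_ m
          rw [div_le_div_iff₀ (by positivity) (by norm_num)]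
          linarith
        refine h13.trans (le_of_eq ?_)
        rw [pow_add]
        ring
      calc (d : ℝ) ^ (m + 2) * (((N : ℝ) + 1) *
            Real.exp (-(rhoL d 0 * ((cz / L) * d / 5) ^ (m + 1))) * AA N d (m + 2))
          ≤ Real.exp (2 * L * ((m : ℝ) + 1)) * (Real.exp (L * ((m : ℝ) + 1)) *
              Real.exp (-(8 * L * ((m : ℝ) + 1))) * Real.exp (L * ((m : ℝ) + 1))) := by
            gcongr
        _ = Real.exp (-(4 * L)) * Real.exp (-(L * (m : ℝ))) * Real.exp (-(3 * L * m)) := by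
            rw [← Real.exp_add, ← Real.exp_add, ← Real.exp_add, ← Real.exp_add, ← Real.exp_add]
            ring_nf
        _ ≤ Real.exp (-(4 * L)) * Real.exp (-(L * (m : ℝ))) * 1 := by
            refine mul_le_mul_of_nonneg_left ?_ (by positivity)
            rw [Real.exp_le_one_iff]
            have : 0 ≤ 3 * L * m := by positivity
            linarith
        _ ≤ (1 / 2 * (1 / (d : ℝ) ^ 3)) * (2 * (1 / 2) ^ (m + 2) * 2) := by
            rw [mul_one]
            refine mul_le_mul ?_ h12 (by positivity) (by positivity)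
            have e : Real.exp (-(4 * L)) = Real.exp (-(3 * L)) * Real.exp (-L) := by
              rw [← Real.exp_add]
              ring_nf
            rw [e, hexp3, hexpm]
            have h14 : 1 / (d : ℝ) ≤ 1 / 2 := by
              rw [div_le_div_iff₀ (by positivity) (by norm_num)]
              linarith
            have h15 := mul_le_mul_of_nonneg_left h14 (show (0 : ℝ) ≤ 1 / (d : ℝ) ^ 3 by positivity)
            linarith
        _ = 2 * (1 / (d : ℝ) ^ 3) * (1 / 2) ^ (m + 2) := by ring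
    calc ∑ j ∈ Ico 2 J, (d : ℝ) ^ j * (((N : ℝ) + 1) *
          Real.exp (-(rhoL d 0 * ((cz / L) * d / 5) ^ (j - 1))) * AA N d j)
        ≤ ∑ j ∈ Ico 2 J, 2 * (1 / (d : ℝ) ^ 3) * (1 / 2) ^ j := sum_le_sum h1
      _ = 2 * (1 / (d : ℝ) ^ 3) * ∑ j ∈ Ico 2 J, (1 / 2 : ℝ) ^ j := by rw [mul_sum]
      _ ≤ 2 * (1 / (d : ℝ) ^ 3) * 2 :=
          mul_le_mul_of_nonneg_left (LsN2_geo J 2) (by positivity)
      _ ≤ 1 / 3 * (1 / (d : ℝ) ^ 2) := by linarith
  rw [Bfi, hz]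
  linarith

end LD
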