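import Pool.Agent.W_5dd92e_ld.LsS

/-!
# Label stage: numerics of the tail
-/

set_option autoImplicit false

open Finset
open scoped Classical

namespace LD

/-- the tail: for fixed `d` and `p > 0` the cost per vertex tends to `0` -/
theorem num_tail (N : ℕ) {d : ℕ} (hd : 2 ≤ d) {ζ p : ℝ} (hp : 0 < p) (hz : 20 ≤ ζ * d) :
    Filter.Tendsto (fun J => Est N d ζ p J) Filter.atTop (nhds 0) := by
  have hd' : (2 : ℝ) ≤ d := by exact_mod_cast hd
  have hL : 0 ≤ Real.log d := Real.log_nonneg (by linarith)
  have hN : 0 ≤ Real.log ((N : ℝ) + 1) := Real.log_nonneg (by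
    have : (0 : ℝ) ≤ N := Nat.cast_nonneg N
    linarith)
  rw [← Filter.tendsto_add_atTop_iff_nat 1]
  set x : ℝ := ζ * d / 5 with hx
  have hx4 : 4 ≤ x := by rw [hx]; linarith
  -- first part
  have h1 : Filter.Tendsto (fun J : ℕ => 2 * ee d (J + 1)) Filter.atTop (nhds 0) := by
    have h0 : (0 : ℝ) ≤ (d : ℝ)⁻¹ := by positivity
    have h1 : (d : ℝ)⁻¹ < 1 := inv_lt_one_of_one_lt₀ (by linarith)
    have h2 := (tendsto_pow_atTop_nhds_zero_of_lt_one h0 h1).comp
      (Filter.tendsto_atTop_mono (fun J : ℕ => (by show J ≤ 3 * (J + 1) + 3; omega)) Filter.tendsto_id)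
    have h3 := h2.const_mul 2
    rw [mul_zero] at h3
    exact h3
  -- second part
  set a : ℝ := Real.log ((N : ℝ) + 1) + 6 * Real.log d with ha
  set b : ℝ := 3 * Real.log d with hb
  have hg : Filter.Tendsto (fun J : ℕ => ((N : ℝ) + 1) * (1 / p) * (a * (1 / x) ^ J +
      b * ((J : ℝ) ^ 1 * (1 / x) ^ J))) Filter.atTop (nhds 0) := by
    have hr : |1 / x| < 1 := by
      rw [abs_of_nonneg (by positivity), div_lt_one (by linarith)]
      linarith
    have t1 := (tendsto_pow_atTop_nhds_zero_of_abs_lt_one hr).const_mul a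
    have t2 := (tendsto_pow_const_mul_const_pow_of_abs_lt_one 1 hr).const_mul b
    have t3 := (t1.add t2).const_mul (((N : ℝ) + 1) * (1 / p))
    simpa using t3
  have h2 : Filter.Tendsto (fun J : ℕ => ((N : ℝ) + 1) * Real.exp (-(p * x ^ J)) * AA N d (J + 1))
      Filter.atTop (nhds 0) := by
    refine squeeze_zero (fun J => ?_) (fun J => ?_) hg
    · unfold AA
      positivity
    · have hpx : 0 < p * x ^ J := by positivity
      have e1 : Real.exp (-(p * x ^ J)) ≤ 1 / (p * x ^ J) := by
        rw [Real.exp_neg, ← one_div]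
        refine one_div_le_one_div_of_le hpx ?_
        have := Real.add_one_le_exp (p * x ^ J)
        linarith
      have e2 : AA N d (J + 1) = a + b * J := by
        unfold AA
        rw [ha, hb]
        push_cast
        ring
      rw [e2]
      have e3 : 0 ≤ a + b * J := by rw [ha, hb]; positivity
      calc ((N : ℝ) + 1) * Real.exp (-(p * x ^ J)) * (a + b * J)
          ≤ ((N : ℝ) + 1) * (1 / (p * x ^ J)) * (a + b * J) :=
            mul_le_mul_of_nonneg_right (mul_le_mul_of_nonneg_left e1 (by positivity)) e3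
        _ = ((N : ℝ) + 1) * (1 / p) * (a * (1 / x) ^ J + b * ((J : ℝ) ^ 1 * (1 / x) ^ J)) := by
            rw [one_div_pow]
            field_simp
  have h3 := h1.add h2
  rw [add_zero] at h3
  refine h3.congr (fun J => ?_)
  unfold Est
  rw [Nat.add_sub_cancel]

end LD
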