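import Pool.Agent.W_5dd92e_ld.LsN1
import Pool.Agent.W_5dd92e_ld.LsN2
import Pool.Agent.W_5dd92e_ld.LsN3
import Pool.Agent.W_5dd92e_ld.LsK2
import Pool.Agent.W_5dd92e_ld.LsK3

/-!
# Label stage: the main statement
-/

set_option autoImplicit false

open Finset
open scoped Classical

namespace LD

universe u v

theorem rhoL_pos {d : ℕ} (hd : 2 ≤ d) (hL : 1 ≤ Real.log d) (i : ℕ) : 0 < rhoL d i := by
  have hd' : (2 : ℝ) ≤ d := by exact_mod_cast hd
  cases i with
  | zero =>
    show 0 < 4 * (Real.log d) ^ 3 / (d : ℝ)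
    have : 0 < (Real.log d) ^ 3 := pow_pos (by linarith) 3
    positivity
  | succ i =>
    show 0 < 1 / ((d : ℝ) - 1) ^ (i + 1)
    have : 0 < ((d : ℝ) - 1) ^ (i + 1) := pow_pos (by linarith) _
    positivity

/-- choice of the number of levels and of the radius -/
theorem choose_KJ (N : ℕ) {d : ℕ} (hd : 3 ≤ d) (hL : 1 ≤ Real.log d) {ζ : ℝ} (hz : 20 ≤ ζ * d)
    {ε : ℝ} (hε : 0 < ε) : ∃ K J : ℕ, 2 * K + 4 < J ∧
      rhoL d K * Real.log ((N : ℝ) + 1) ≤ ε / 3 ∧
      (∀ t < K, Est N d ζ (rhoL d (t + 1)) J ≤ ε / (3 * (K + 1))) ∧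
      Est N d ζ (rhoL d 0) J ≤ ε / 3 := by
  have h1 : Filter.Tendsto (fun K => rhoL d K * Real.log ((N : ℝ) + 1)) Filter.atTop (nhds 0) := by
    simpa using (num_top hd).mul_const (Real.log ((N : ℝ) + 1))
  have h2 : ∀ᶠ K in Filter.atTop, rhoL d K * Real.log ((N : ℝ) + 1) ≤ ε / 3 :=
    (h1.eventually (ge_mem_nhds (by positivity)))
  obtain ⟨K, hK⟩ := h2.exists
  have h3 : ∀ t ∈ range K, ∀ᶠ J in Filter.atTop, Est N d ζ (rhoL d (t + 1)) J ≤ ε / (3 * (K + 1)) := by
    intro t _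
    exact (num_tail N (by omega) (rhoL_pos (by omega) hL (t + 1)) hz).eventually
      (ge_mem_nhds (by positivity))
  have h4 : ∀ᶠ J in Filter.atTop, ∀ t ∈ range K, Est N d ζ (rhoL d (t + 1)) J ≤ ε / (3 * (K + 1)) :=
    (Filter.eventually_all_finset (range K)).mpr h3
  have h5 : ∀ᶠ J in Filter.atTop, Est N d ζ (rhoL d 0) J ≤ ε / 3 :=
    (num_tail N (by omega) (rhoL_pos (by omega) hL 0) hz).eventually (ge_mem_nhds (by positivity))
  obtain ⟨J, hJ1, hJ2, hJ3⟩ := (h4.and (h5.and (Filter.eventually_gt_atTop (2 * K + 4)))).exists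
  exact ⟨K, J, hJ3, hK, fun t ht => hJ1 t (mem_range.mpr ht), hJ2⟩

/-- the label stage -/
theorem lab_stage (N : ℕ) (cz : ℝ) (hcz : 0 < cz) : ∃ C : ℝ, ∃ d0 : ℕ, 0 < C ∧ ∀ d ≥ d0, ∀ ε : ℝ, 0 < ε →
    ∃ J : ℕ, ∀ (V : Type u) [Fintype V] (Lam : Type v) [Fintype Lam], Fintype.card Lam = N →
    ∀ G : SimpleGraph V, Rgl G d → TreeTo G J →
    0 ≤ 4 * (Real.log d) ^ 3 / (d : ℝ) ∧ 4 * (Real.log d) ^ 3 / (d : ℝ) ≤ 1 ∧
    ∃ (PL : Finset V → (V → Option Lam) → ℝ)
      (lam : Finset V → (V → Option Lam) → (V → Option Lam)),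
      (∀ R τ, 0 ≤ PL R τ) ∧ (∀ R, ∑ τ, PL R τ ≤ 1) ∧
      (∀ R l x P, lam R l x = some P → l x = some P) ∧
      ∀ l, F3P G (cz / Real.log d) d l →
        (∀ R, 0 < PL R (lam R l)) ∧
        EB (4 * (Real.log d) ^ 3 / (d : ℝ)) (fun R => -Real.log (PL R (lam R l))) ≤
          C * (Real.log d) ^ 4 / d * bb G d l + ε * (Fintype.card V : ℝ) ∧
        EB (4 * (Real.log d) ^ 3 / (d : ℝ))
          (fun R => ((univ.filter (fun x => l x ≠ none ∧ lam R l x = none)).card : ℝ)) ≤
          C * Real.log d * bb G d l := by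
  obtain ⟨C1, d1, hC1, H1⟩ := num_stage N cz hcz
  obtain ⟨d2, H2⟩ := num_fin N cz hcz
  obtain ⟨C3, d3, hC3, H3⟩ := num_ss cz hcz
  obtain ⟨C4, d4, hC4, H4⟩ := num_levels
  obtain ⟨d5, H5⟩ := rhoL_range
  obtain ⟨d6, H6⟩ := num_zeta cz hcz
  refine ⟨2 * (C1 * C4 + 1) + 2 * C3, d1 + d2 + d3 + d4 + d5 + d6 + 3, by positivity, ?_⟩
  intro d hd ε hε
  obtain ⟨hd2, hL, hz20, hz1, hz0⟩ := H6 d (by omega)
  have hd3 : 3 ≤ d := by omega
  have hdr : (3 : ℝ) ≤ d := by exact_mod_cast hd3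
  obtain ⟨K, J, hJ, hK1, hK2, hK3⟩ := choose_KJ N hd3 hL hz20 hε
  refine ⟨J, ?_⟩
  intro V _ Lam _ hN G hreg hT
  obtain ⟨h0, h1⟩ := H5 d (by omega) 0
  have e0 : rhoL d 0 = 4 * (Real.log d) ^ 3 / (d : ℝ) := rfl
  rw [← e0]
  refine ⟨h0, h1, ?_⟩
  set ζ := cz / Real.log d with hζ
  set kap : ℕ → Finset V → (V → Option Lam) → V → Option Lam → ℝ :=
    fun i R τ => kst G d J (2 * i + 4) R τ with hkap
  have hk : KapOK (rhoL d) kap := by
    refine ⟨fun i => (H5 d (by omega) i).1, fun i => (H5 d (by omega) i).2, ?_, ?_⟩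
    · intro i R' τ' x Q
      exact kst_pos G hd2 J _ R' τ' x Q
    · intro i R' τ' x
      exact kst_sum G hd2 J _ R' τ' x
  refine ⟨PLg (pri (rhoL d) kap K 0) (SSf G ζ) (fun R τ => kfi G d J ζ R τ),
    fun R l => rst (SSf G ζ R (rst R l))ᶜ l, ?_, ?_, ?_, ?_⟩
  · intro R τ
    exact PLg_nonneg (fun R τ => pri_nonneg hk K 0 R τ) _ (fun R τ x Q => kfi_pos G hd2 J ζ R τ x Q) R τ
  · intro R
    exact PLg_sum_le (fun R τ => pri_nonneg hk K 0 R τ) (fun R => pri_sum_le hk K 0 R) _
      (fun R τ x Q => kfi_pos G hd2 J ζ R τ x Q) (fun R τ x => kfi_sum G hd2 J ζ R τ x) R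
  · intro R l x P h
    simp only [rst] at h
    split at h
    · exact h
    · simp at h
  · intro l hl
    have hc := fun R => PLg_cost (P := pri (rhoL d) kap K 0) (fun R τ => pri_nonneg hk K 0 R τ) (SSf G ζ)
      (kf := fun R τ => kfi G d J ζ R τ) (fun R τ x Q => kfi_pos G hd2 J ζ R τ x Q) R l
      (pri_pos hk K 0 R l)
    have hbb : ((Dis G l).card : ℝ) = 2 * d * bb G d l := by
      unfold bb
      field_simp
    have hbb0 : 0 ≤ bb G d l := by unfold bb; positivity
    refine ⟨fun R => (hc R).1, ?_, ?_⟩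
    · -- the code length
      have hst : ∀ t < K, EB (rhoL d (t + 1)) (fun R' => ∑ x, -Real.log (kap t R' (rst R' l) x (l x))) ≤
          (Fintype.card V : ℝ) * (ε / (3 * (K + 1))) +
            ((Dis G l).card : ℝ) * (C1 * (((t : ℝ) + 1) ^ 2 * Real.log d / d)) := by
        intro t ht
        have h := stage_sum G (J := J) (r := 2 * t + 4) (H5 d (by omega) (t + 1)).1
          (H5 d (by omega) (t + 1)).2 hd2 hreg hT hz20 l hl (by omega) (by omega)
        refine h.trans ?_
        rw [hN]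
        have a1 := hK2 t ht
        have a2 := H1 d (by omega) t J
        have a3 : C1 * (((t : ℝ) + 1) ^ 2 * Real.log d / d) = C1 * ((t : ℝ) + 1) ^ 2 * Real.log d / d := by
          ring
        rw [a3]
        exact add_le_add (mul_le_mul_of_nonneg_left a1 (Nat.cast_nonneg _))
          (mul_le_mul_of_nonneg_left a2 (Nat.cast_nonneg _))
      have hfin := fin_sum G (J := J) (ζ := ζ) h0 h1 hd2 hreg hT hz20 hz0.le hz1 l hl (by omega)
      rw [hN] at hfin
      have hpri := pri_cost hk K 0 l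
      rw [hN] at hpri
      simp only [zero_add] at hpri
      have hsum : EB (rhoL d 0) (fun R => -Real.log (PLg (pri (rhoL d) kap K 0) (SSf G ζ)
          (fun R τ => kfi G d J ζ R τ) R (rst (SSf G ζ R (rst R l))ᶜ l))) ≤
          EB (rhoL d 0) (fun R => -Real.log (pri (rhoL d) kap K 0 R (rst R l)) +
            ∑ x ∈ (SSf G ζ R (rst R l))ᶜ, -Real.log (kfi G d J ζ R (rst R l) x (l x))) :=
        EB_mono h0 h1 _ _ (fun R => (hc R).2)
      rw [EB_add] at hsum
      have hlev := H4 d (by omega) K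
      have hD0 : (0 : ℝ) ≤ ((Dis G l).card : ℝ) := Nat.cast_nonneg _
      have hV0 : (0 : ℝ) ≤ (Fintype.card V : ℝ) := Nat.cast_nonneg _
      have hs2 : ∑ t ∈ range K, rhoL d t * EB (rhoL d (t + 1))
          (fun R' => ∑ x, -Real.log (kap t R' (rst R' l) x (l x))) ≤
          (Fintype.card V : ℝ) * (ε / 3) +
            ((Dis G l).card : ℝ) * (C1 * (C4 * (Real.log d) ^ 4 / (d : ℝ) ^ 2)) := by
        calc ∑ t ∈ range K, rhoL d t * EB (rhoL d (t + 1))
              (fun R' => ∑ x, -Real.log (kap t R' (rst R' l) x (l x)))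
            ≤ ∑ t ∈ range K, ((Fintype.card V : ℝ) * (ε / (3 * (K + 1))) +
                ((Dis G l).card : ℝ) * (C1 * (rhoL d t * (((t : ℝ) + 1) ^ 2 * Real.log d / d)))) := by
              refine sum_le_sum fun t ht => ?_
              have b1 := mul_le_mul_of_nonneg_left (hst t (mem_range.mp ht)) (H5 d (by omega) t).1
              refine b1.trans ?_
              have b2 : rhoL d t * ((Fintype.card V : ℝ) * (ε / (3 * (K + 1)))) ≤
                  1 * ((Fintype.card V : ℝ) * (ε / (3 * (K + 1)))) :=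
                mul_le_mul_of_nonneg_right (H5 d (by omega) t).2 (by positivity)
              rw [one_mul] at b2
              have b3 : rhoL d t * ((Fintype.card V : ℝ) * (ε / (3 * (K + 1))) +
                  ((Dis G l).card : ℝ) * (C1 * (((t : ℝ) + 1) ^ 2 * Real.log d / d))) =
                  rhoL d t * ((Fintype.card V : ℝ) * (ε / (3 * (K + 1)))) +
                  ((Dis G l).card : ℝ) * (C1 * (rhoL d t * (((t : ℝ) + 1) ^ 2 * Real.log d / d))) := by
                ring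
              rw [b3]
              linarith
          _ = (K : ℝ) * ((Fintype.card V : ℝ) * (ε / (3 * (K + 1)))) +
              ((Dis G l).card : ℝ) * (C1 * ∑ t ∈ range K, rhoL d t * (((t : ℝ) + 1) ^ 2 * Real.log d / d)) := by
              rw [sum_add_distrib, sum_const, card_range, nsmul_eq_mul, mul_sum, mul_sum]
          _ ≤ (Fintype.card V : ℝ) * (ε / 3) +
              ((Dis G l).card : ℝ) * (C1 * (C4 * (Real.log d) ^ 4 / (d : ℝ) ^ 2)) := by
              refine add_le_add ?_ ?_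
              · have b4 : (K : ℝ) * (ε / (3 * (K + 1))) ≤ ε / 3 := by
                  rw [mul_div_assoc', div_le_div_iff₀ (by positivity) (by norm_num)]
                  nlinarith [(Nat.cast_nonneg K : (0 : ℝ) ≤ K)]
                calc (K : ℝ) * ((Fintype.card V : ℝ) * (ε / (3 * (K + 1)))) =
                    (Fintype.card V : ℝ) * ((K : ℝ) * (ε / (3 * (K + 1)))) := by ring
                  _ ≤ _ := mul_le_mul_of_nonneg_left b4 hV0
              · exact mul_le_mul_of_nonneg_left (mul_le_mul_of_nonneg_left hlev hC1.le) hD0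
      have hs3 : (Fintype.card V : ℝ) * Est N d ζ (rhoL d 0) J + ((Dis G l).card : ℝ) * Bfi N d ζ (rhoL d 0) J ≤
          (Fintype.card V : ℝ) * (ε / 3) + ((Dis G l).card : ℝ) * (1 / (d : ℝ) ^ 2) :=
        add_le_add (mul_le_mul_of_nonneg_left hK3 hV0)
          (mul_le_mul_of_nonneg_left (H2 d (by omega) J) hD0)
      have hs1 : rhoL d K * ((Fintype.card V : ℝ) * Real.log ((N : ℝ) + 1)) ≤
          (Fintype.card V : ℝ) * (ε / 3) := by
        calc rhoL d K * ((Fintype.card V : ℝ) * Real.log ((N : ℝ) + 1)) =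
            (Fintype.card V : ℝ) * (rhoL d K * Real.log ((N : ℝ) + 1)) := by ring
          _ ≤ _ := mul_le_mul_of_nonneg_left hK1 hV0
      have hL4 : 1 ≤ (Real.log d) ^ 4 := one_le_pow₀ hL
      have hfinal : ((Dis G l).card : ℝ) * (C1 * (C4 * (Real.log d) ^ 4 / (d : ℝ) ^ 2)) +
          ((Dis G l).card : ℝ) * (1 / (d : ℝ) ^ 2) ≤
          (2 * (C1 * C4 + 1) + 2 * C3) * (Real.log d) ^ 4 / d * bb G d l := by
        have c1 : ((Dis G l).card : ℝ) * (C1 * (C4 * (Real.log d) ^ 4 / (d : ℝ) ^ 2)) +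
          ((Dis G l).card : ℝ) * (1 / (d : ℝ) ^ 2) =
          (2 * (C1 * C4 * (Real.log d) ^ 4 + 1)) / d * bb G d l := by
          rw [hbb]
          field_simp
        rw [c1]
        refine mul_le_mul_of_nonneg_right ?_ hbb0
        refine div_le_div_of_nonneg_right ?_ (by positivity)
        nlinarith [mul_nonneg hC3.le (by linarith : (0:ℝ) ≤ (Real.log d) ^ 4)]
      linarith [hsum, hpri, hfin, hs1, hs2, hs3, hfinal]
    · -- the vertices without label
      have hss := ss_sum G (ζ := ζ) h0 h1 hd2 hreg hz0 hz1 l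
      have h3' := H3 d (by omega)
      have hmono : EB (rhoL d 0) (fun R => ((univ.filter (fun x => l x ≠ none ∧
          rst (SSf G ζ R (rst R l))ᶜ l x = none)).card : ℝ)) ≤
          EB (rhoL d 0) (fun R => ((SSf G ζ R (rst R l)).card : ℝ)) := by
        refine EB_mono h0 h1 _ _ (fun R => ?_)
        have : univ.filter (fun x => l x ≠ none ∧ rst (SSf G ζ R (rst R l))ᶜ l x = none) ⊆
            SSf G ζ R (rst R l) := by
          intro x hx
          rw [mem_filter] at hx
          by_contra hx'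
          apply hx.2.1
          have := hx.2.2
          simp only [rst, mem_compl] at this
          rwa [if_pos hx'] at this
        exact_mod_cast card_le_card this
      refine hmono.trans (hss.trans ?_)
      have hD0 : (0 : ℝ) ≤ ((Dis G l).card : ℝ) := Nat.cast_nonneg _
      refine (mul_le_mul_of_nonneg_left h3' hD0).trans ?_
      have c2 : ((Dis G l).card : ℝ) * (C3 * Real.log d / d) = 2 * C3 * Real.log d * bb G d l := by
        rw [hbb]
        field_simp
      rw [c2]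
      refine mul_le_mul_of_nonneg_right ?_ hbb0
      refine mul_le_mul_of_nonneg_right ?_ (by linarith)
      nlinarith [mul_pos hC1 hC4]

end LD
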