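import Pool.Agent.W_5dd92e_ld.Defs

/-!
# Section 4 of row 484: the classes and their sizes

`lam : V → Option L` is the partial label known to the decoder: `lam x = some P` implies `l x = some P`.
`SS l lam` = vertices whose label is a phase but not known.
-/

set_option autoImplicit false

open Finset
open scoped Classical

namespace LD

variable {V : Type*} [Fintype V] {L : Type*}

/-- vertices whose label is a phase which is not known -/
noncomputable def SS (l lam : V → Option L) : Finset V :=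
  univ.filter (fun x => l x ≠ none ∧ lam x = none)

theorem mem_KK {lam : V → Option L} {x : V} : x ∈ KK lam ↔ lam x ≠ none := by simp [KK]

theorem mem_Hs {G : SimpleGraph V} {lam : V → Option L} {x y : V} :
    y ∈ Hs G lam x ↔ G.Adj x y ∧ lam y = lam x := by
  rw [Hs, mem_filter, mem_nb]

theorem mem_Khi {G : SimpleGraph V} {d : ℕ} {lam : V → Option L} {x : V} :
    x ∈ Khi G d lam ↔ lam x ≠ none ∧ 3 * (d : ℝ) / 4 ≤ (#(Hs G lam x) : ℝ) := by
  rw [Khi, mem_filter, mem_KK]

theorem mem_Sol {G : SimpleGraph V} {d : ℕ} {δ : ℝ} {lam : V → Option L} {x : V} :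
    x ∈ Sol G d δ lam ↔ x ∈ Khi G d lam ∧
      (1 - δ) * (d : ℝ) ≤ (#(Hs G lam x ∩ Khi G d lam) : ℝ) := by
  rw [Sol, mem_filter]

theorem mem_Soft {G : SimpleGraph V} {d : ℕ} {δ : ℝ} {lam : V → Option L} {x : V} :
    x ∈ Soft G d δ lam ↔ x ∉ Sol G d δ lam := by
  rw [Soft, mem_compl]

theorem mem_Dp {G : SimpleGraph V} {d : ℕ} {δ : ℝ} {lam : V → Option L} {x : V} :
    x ∈ Dp G d δ lam ↔ x ∈ Sol G d δ lam ∧
      ∀ y, G.Adj x y → y ∈ Sol G d δ lam ∧ lam y = lam x := by
  rw [Dp, mem_filter]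

theorem mem_DD {G : SimpleGraph V} {d : ℕ} {δ : ℝ} {lam : V → Option L} {x : V} :
    x ∈ DD G d δ lam ↔ x ∈ Dp G d δ lam ∧ ∀ y, G.Adj x y → y ∈ Dp G d δ lam := by
  rw [DD, mem_filter]

theorem Sol_sub_Khi {G : SimpleGraph V} {d : ℕ} {δ : ℝ} {lam : V → Option L} :
    Sol G d δ lam ⊆ Khi G d lam := filter_subset _ _

theorem Dp_sub_Sol {G : SimpleGraph V} {d : ℕ} {δ : ℝ} {lam : V → Option L} :
    Dp G d δ lam ⊆ Sol G d δ lam := filter_subset _ _

theorem DD_sub_Dp {G : SimpleGraph V} {d : ℕ} {δ : ℝ} {lam : V → Option L} :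
    DD G d δ lam ⊆ Dp G d δ lam := filter_subset _ _

theorem Sol_lam {G : SimpleGraph V} {d : ℕ} {δ : ℝ} {lam : V → Option L} {x : V}
    (hx : x ∈ Sol G d δ lam) : lam x ≠ none := (mem_Khi.mp (mem_Sol.mp hx).1).1

theorem mem_SS {l lam : V → Option L} {x : V} : x ∈ SS l lam ↔ l x ≠ none ∧ lam x = none := by
  simp [SS]

/-- double counting of bad neighbours: if every vertex of `A` has at least `c` neighbours `y` which are in
`B` or disagree (for `l`), then `c |A| ≤ d |B| + |Dis|`. -/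
theorem count_bad (G : SimpleGraph V) (d : ℕ) (hd : Rgl G d) (l : V → Option L) (A B : Finset V)
    (c : ℝ) (h : ∀ x ∈ A, c ≤ #((nb G x).filter (fun y => y ∈ B ∨ l x ≠ l y))) :
    c * #A ≤ d * #B + #(Dis G l) := by
  have h1 : c * #A ≤ ∑ x ∈ A, (#((nb G x).filter (fun y => y ∈ B ∨ l x ≠ l y)) : ℝ) := by
    calc c * #A = ∑ x ∈ A, c := by rw [sum_const, nsmul_eq_mul]; ring
      _ ≤ _ := sum_le_sum h
  have h2 : ∑ x ∈ A, #((nb G x).filter (fun y => y ∈ B ∨ l x ≠ l y)) ≤ d * #B + #(Dis G l) := by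
    have h3 : ∑ x ∈ A, #((nb G x).filter (fun y => y ∈ B ∨ l x ≠ l y)) ≤
        #((univ : Finset (V × V)).filter (fun p => G.Adj p.1 p.2 ∧ (p.2 ∈ B ∨ l p.1 ≠ l p.2))) := by
      rw [card_filter, Fintype.sum_prod_type]
      refine (sum_le_univ_sum_of_nonneg (fun x => Nat.zero_le _)).trans (sum_le_sum fun x _ => ?_)
      rw [← card_filter]
      apply card_le_card
      intro y hy
      rw [mem_filter, mem_nb] at hy
      rw [mem_filter]
      exact ⟨mem_univ _, hy⟩
    refine h3.trans ?_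
    have h4 : (univ : Finset (V × V)).filter (fun p => G.Adj p.1 p.2 ∧ (p.2 ∈ B ∨ l p.1 ≠ l p.2)) ⊆
        (univ : Finset (V × V)).filter (fun p => G.Adj p.1 p.2 ∧ p.2 ∈ B) ∪ Dis G l := by
      intro p hp
      rw [mem_filter] at hp
      rw [mem_union, mem_filter, mem_Dis]
      rcases hp.2.2 with h5 | h5
      · exact Or.inl ⟨mem_univ _, hp.2.1, h5⟩
      · exact Or.inr ⟨hp.2.1, h5⟩
    refine (card_le_card h4).trans ((card_union_le _ _).trans (Nat.add_le_add_right ?_ _))
    have h6 : #((univ : Finset (V × V)).filter (fun p => G.Adj p.1 p.2 ∧ p.2 ∈ B)) =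
        #((univ : Finset (V × V)).filter (fun p => G.Adj p.1 p.2 ∧ p.1 ∈ B)) := by
      refine card_bij (fun p _ => (p.2, p.1)) ?_ ?_ ?_
      · intro p hp
        rw [mem_filter] at hp ⊢
        exact ⟨mem_univ _, hp.2.1.symm, hp.2.2⟩
      · rintro ⟨a, b⟩ _ ⟨c, e⟩ _ h
        simp only [Prod.mk.injEq] at h
        exact Prod.ext h.2 h.1
      · intro p hp
        rw [mem_filter] at hp
        refine ⟨(p.2, p.1), ?_, rfl⟩
        rw [mem_filter]
        exact ⟨mem_univ _, hp.2.1.symm, hp.2.2⟩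
    rw [h6, card_fst G d hd B]
  have h2' : ∑ x ∈ A, (#((nb G x).filter (fun y => y ∈ B ∨ l x ≠ l y)) : ℝ) ≤
      d * #B + #(Dis G l) := by exact_mod_cast h2
  exact h1.trans h2'

/-- a neighbour with another partial label is in `SS` or disagrees -/
theorem lam_ne (l lam : V → Option L) (hl : ∀ x P, lam x = some P → l x = some P) (x y : V)
    (hx : lam x ≠ none) (hxy : lam y ≠ lam x) : y ∈ SS l lam ∨ l x ≠ l y := by
  obtain ⟨P, hP⟩ := Option.ne_none_iff_exists'.mp hx
  have hlx := hl x P hP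
  by_cases hy : lam y = none
  · by_cases hly : l y = none
    · right
      rw [hlx, hly]
      exact Option.some_ne_none P
    · left
      rw [mem_SS]
      exact ⟨hly, hy⟩
  · obtain ⟨Q, hQ⟩ := Option.ne_none_iff_exists'.mp hy
    right
    rw [hlx, hl y Q hQ]
    intro h
    apply hxy
    rw [hP, hQ, h]

theorem card_nb_not (G : SimpleGraph V) (d : ℕ) (hd : Rgl G d) (x : V) (T : Finset V)
    (hT : T ⊆ nb G x) (c : ℝ) (h : ¬ (1 - c) * d ≤ (#T : ℝ)) :
    c * d ≤ (#(nb G x \ T) : ℝ) := by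
  push Not at h
  have h3 : #(nb G x \ T) + #T = d := by
    rw [card_sdiff_add_card_eq_card hT]
    exact hd x
  have b : (#(nb G x \ T) : ℝ) + #T = d := by exact_mod_cast h3
  linarith

theorem card_KK_sdiff (G : SimpleGraph V) (d : ℕ) (hd0 : 0 < d) (hd : Rgl G d)
    (l lam : V → Option L) (hl : ∀ x P, lam x = some P → l x = some P) :
    (#(KK lam \ Khi G d lam) : ℝ) ≤ 4 * #(SS l lam) + 4 * #(Dis G l) / d := by
  have hd' : (0 : ℝ) < d := by exact_mod_cast hd0
  have h := count_bad G d hd l (KK lam \ Khi G d lam) (SS l lam) (1 / 4 * d) (by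
    intro x hx
    rw [mem_sdiff, mem_KK, mem_Khi] at hx
    have h1 : ¬ (1 - 1 / 4 : ℝ) * d ≤ (#(Hs G lam x) : ℝ) := by
      intro h2
      apply hx.2
      refine ⟨hx.1, ?_⟩
      linarith
    refine (card_nb_not G d hd x _ (filter_subset _ _) (1 / 4) h1).trans ?_
    have h2 : nb G x \ Hs G lam x ⊆ (nb G x).filter (fun y => y ∈ SS l lam ∨ l x ≠ l y) := by
      intro y hy
      rw [mem_sdiff, mem_Hs] at hy
      rw [mem_filter]
      exact ⟨hy.1, lam_ne l lam hl x y hx.1 fun h => hy.2 ⟨mem_nb.mp hy.1, h⟩⟩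
    exact_mod_cast card_le_card h2)
  generalize (#(KK lam \ Khi G d lam) : ℝ) = a at h ⊢
  generalize (#(SS l lam) : ℝ) = s at h ⊢
  generalize (#(Dis G l) : ℝ) = D at h ⊢
  have h4 : a = 4 / d * (1 / 4 * d * a) := by field_simp
  rw [h4]
  refine (mul_le_mul_of_nonneg_left h (by positivity)).trans (le_of_eq ?_)
  field_simp

theorem card_Khi_sdiff (G : SimpleGraph V) (d : ℕ) (hd0 : 0 < d) (hd : Rgl G d) (δ : ℝ)
    (hδ : 0 < δ) (l lam : V → Option L) (hl : ∀ x P, lam x = some P → l x = some P) :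
    (#(Khi G d lam \ Sol G d δ lam) : ℝ) ≤ (5 * #(SS l lam) + 5 * #(Dis G l) / d) / δ := by
  have hd' : (0 : ℝ) < d := by exact_mod_cast hd0
  have h := count_bad G d hd l (Khi G d lam \ Sol G d δ lam)
    (SS l lam ∪ (KK lam \ Khi G d lam)) (δ * d) (by
    intro x hx
    rw [mem_sdiff, mem_Sol] at hx
    have h1 : ¬ (1 - δ) * d ≤ (#(Hs G lam x ∩ Khi G d lam) : ℝ) :=
      fun h2 => hx.2 ⟨hx.1, h2⟩
    refine (card_nb_not G d hd x _ (inter_subset_left.trans (filter_subset _ _)) δ h1).trans ?_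
    have hx0 : lam x ≠ none := (mem_Khi.mp hx.1).1
    have h2 : nb G x \ (Hs G lam x ∩ Khi G d lam) ⊆
        (nb G x).filter (fun y => y ∈ SS l lam ∪ (KK lam \ Khi G d lam) ∨ l x ≠ l y) := by
      intro y hy
      rw [mem_sdiff, mem_inter, mem_Hs] at hy
      rw [mem_filter]
      refine ⟨hy.1, ?_⟩
      by_cases h3 : lam y = lam x
      · left
        rw [mem_union]
        right
        rw [mem_sdiff, mem_KK]
        exact ⟨h3 ▸ hx0, fun h4 => hy.2 ⟨⟨mem_nb.mp hy.1, h3⟩, h4⟩⟩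
      · rcases lam_ne l lam hl x y hx0 h3 with h5 | h5
        · exact Or.inl (mem_union_left _ h5)
        · exact Or.inr h5
    exact_mod_cast card_le_card h2)
  have h1 := card_KK_sdiff G d hd0 hd l lam hl
  have h2 : (#(SS l lam ∪ (KK lam \ Khi G d lam)) : ℝ) ≤ #(SS l lam) + #(KK lam \ Khi G d lam) := by
    exact_mod_cast card_union_le _ _
  generalize (#(Khi G d lam \ Sol G d δ lam) : ℝ) = a at h ⊢
  generalize (#(SS l lam ∪ (KK lam \ Khi G d lam)) : ℝ) = e at h h2
  generalize (#(KK lam \ Khi G d lam) : ℝ) = k at h1 h2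
  generalize (#(SS l lam) : ℝ) = s at h1 h2 ⊢
  generalize (#(Dis G l) : ℝ) = D at h h1 ⊢
  have h3 : (d : ℝ) * e ≤ d * (s + (4 * s + 4 * D / d)) :=
    mul_le_mul_of_nonneg_left (by linarith) hd'.le
  have h4 : a = 1 / (δ * d) * (δ * d * a) := by field_simp
  rw [h4]
  refine (mul_le_mul_of_nonneg_left (h.trans (add_le_add_left h3 _)) (by positivity)).trans
    (le_of_eq ?_)
  field_simp
  ring

/-- size of the soft set: with `b = |Dis| / (2 d)` this is `|Om| + (5 + 5/δ)|S| + (8 + 10/δ) b`. -/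
theorem card_Soft (G : SimpleGraph V) (d : ℕ) (hd0 : 0 < d) (hd : Rgl G d) (δ : ℝ)
    (hδ : 0 < δ) (l lam : V → Option L) (hl : ∀ x P, lam x = some P → l x = some P) :
    (#(Soft G d δ lam) : ℝ) ≤ #(Om l) + (5 + 5 / δ) * #(SS l lam) +
      (8 + 10 / δ) * (#(Dis G l) / (2 * d)) := by
  have hd' : (0 : ℝ) < d := by exact_mod_cast hd0
  have hsub : Soft G d δ lam ⊆ Om l ∪ (SS l lam ∪ ((KK lam \ Khi G d lam) ∪
      (Khi G d lam \ Sol G d δ lam))) := by
    intro x hx
    rw [mem_Soft] at hx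
    by_cases h1 : l x = none
    · exact mem_union_left _ (mem_Om.mpr h1)
    · apply mem_union_right
      by_cases h2 : lam x = none
      · exact mem_union_left _ (mem_SS.mpr ⟨h1, h2⟩)
      · apply mem_union_right
        by_cases h3 : x ∈ Khi G d lam
        · exact mem_union_right _ (mem_sdiff.mpr ⟨h3, hx⟩)
        · exact mem_union_left _ (mem_sdiff.mpr ⟨mem_KK.mpr h2, h3⟩)
  have h1 := card_le_card hsub
  have h2 := card_union_le (Om l) (SS l lam ∪ ((KK lam \ Khi G d lam) ∪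
      (Khi G d lam \ Sol G d δ lam)))
  have h3 := card_union_le (SS l lam) ((KK lam \ Khi G d lam) ∪
      (Khi G d lam \ Sol G d δ lam))
  have h4 := card_union_le (KK lam \ Khi G d lam) (Khi G d lam \ Sol G d δ lam)
  have h5 : (#(Soft G d δ lam) : ℝ) ≤ #(Om l) + (#(SS l lam) + (#(KK lam \ Khi G d lam) +
      #(Khi G d lam \ Sol G d δ lam))) := by
    exact_mod_cast h1.trans (h2.trans (by omega))
  have h6 := card_KK_sdiff G d hd0 hd l lam hl
  have h7 := card_Khi_sdiff G d hd0 hd δ hδ l lam hl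
  refine h5.trans ?_
  clear h1 h2 h3 h4 h5 hsub
  generalize (#(Khi G d lam \ Sol G d δ lam) : ℝ) = a at *
  generalize (#(KK lam \ Khi G d lam) : ℝ) = k at *
  generalize (#(SS l lam) : ℝ) = s at *
  generalize (#(Dis G l) : ℝ) = D at *
  generalize (#(Om l) : ℝ) = o at *
  have h8 : o + (s + ((4 * s + 4 * D / d) + (5 * s + 5 * D / d) / δ)) = o + (5 + 5 / δ) * s +
      (8 + 10 / δ) * (D / (2 * d)) := by
    field_simp
    ring
  rw [← h8]
  linarith

theorem card_biUnion_nb_le (G : SimpleGraph V) (d : ℕ) (hd : Rgl G d) (X : Finset V) :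
    #(univ.filter (fun x => ∃ y, G.Adj x y ∧ y ∈ X)) ≤ d * #X := by
  have hsub : univ.filter (fun x => ∃ y, G.Adj x y ∧ y ∈ X) ⊆ X.biUnion (fun y => nb G y) := by
    intro x hx
    rw [mem_filter] at hx
    obtain ⟨_, y, h1, h2⟩ := hx
    rw [mem_biUnion]
    exact ⟨y, h2, mem_nb.mpr h1.symm⟩
  refine (card_le_card hsub).trans (card_biUnion_le.trans ?_)
  rw [sum_congr rfl (fun x _ => hd x), sum_const, smul_eq_mul, mul_comm]

theorem card_not_Dp (G : SimpleGraph V) (d : ℕ) (hd : Rgl G d) (δ : ℝ)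
    (l lam : V → Option L) (hl : ∀ x P, lam x = some P → l x = some P) :
    #(univ.filter (fun x => x ∉ Dp G d δ lam)) ≤ (d + 1) * #(Soft G d δ lam) + #(Dis G l) := by
  have hsub : univ.filter (fun x => x ∉ Dp G d δ lam) ⊆ Soft G d δ lam ∪
      (univ.filter (fun x => ∃ y, G.Adj x y ∧ y ∈ Soft G d δ lam) ∪
        (Dis G l).image (fun p => p.1)) := by
    intro x hx
    rw [mem_filter, mem_Dp] at hx
    by_cases h1 : x ∈ Sol G d δ lam
    · apply mem_union_right
      have h2 : ∃ y, G.Adj x y ∧ ¬ (y ∈ Sol G d δ lam ∧ lam y = lam x) := by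
        by_contra h3
        push Not at h3
        exact hx.2 ⟨h1, fun y hy => h3 y hy⟩
      obtain ⟨y, hy1, hy2⟩ := h2
      by_cases h3 : y ∈ Sol G d δ lam
      · apply mem_union_right
        rw [mem_image]
        refine ⟨(x, y), ?_, rfl⟩
        rw [mem_Dis]
        refine ⟨hy1, ?_⟩
        have hx0 : lam x ≠ none := Sol_lam h1
        have hy0 : lam y ≠ none := Sol_lam h3
        have h4 : lam y ≠ lam x := fun h => hy2 ⟨h3, h⟩
        rcases lam_ne l lam hl x y hx0 h4 with h5 | h5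
        · exact absurd (mem_SS.mp h5).2 hy0
        · exact h5
      · apply mem_union_left
        rw [mem_filter]
        exact ⟨mem_univ _, y, hy1, mem_Soft.mpr h3⟩
    · exact mem_union_left _ (mem_Soft.mpr h1)
  refine (card_le_card hsub).trans ((card_union_le _ _).trans ?_)
  have h1 := card_union_le (univ.filter (fun x => ∃ y, G.Adj x y ∧ y ∈ Soft G d δ lam))
    ((Dis G l).image (fun p => p.1))
  have h2 := card_biUnion_nb_le G d hd (Soft G d δ lam)
  have h3 := card_image_le (s := Dis G l) (f := fun p => p.1)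
  calc #(Soft G d δ lam) + _ ≤ #(Soft G d δ lam) + (d * #(Soft G d δ lam) + #(Dis G l)) := by
        omega
    _ = _ := by ring

theorem card_not_DD (G : SimpleGraph V) (d : ℕ) (hd : Rgl G d) (δ : ℝ)
    (l lam : V → Option L) (hl : ∀ x P, lam x = some P → l x = some P) :
    #(univ.filter (fun x => x ∉ DD G d δ lam)) ≤
      (d + 1) * ((d + 1) * #(Soft G d δ lam) + #(Dis G l)) := by
  have hsub : univ.filter (fun x => x ∉ DD G d δ lam) ⊆ univ.filter (fun x => x ∉ Dp G d δ lam) ∪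
      univ.filter (fun x => ∃ y, G.Adj x y ∧ y ∈ univ.filter (fun x => x ∉ Dp G d δ lam)) := by
    intro x hx
    rw [mem_filter, mem_DD] at hx
    by_cases h1 : x ∈ Dp G d δ lam
    · apply mem_union_right
      have h2 : ∃ y, G.Adj x y ∧ ¬ y ∈ Dp G d δ lam := by
        by_contra h3
        push Not at h3
        exact hx.2 ⟨h1, h3⟩
      obtain ⟨y, hy1, hy2⟩ := h2
      rw [mem_filter]
      exact ⟨mem_univ _, y, hy1, mem_filter.mpr ⟨mem_univ _, hy2⟩⟩
    · exact mem_union_left _ (mem_filter.mpr ⟨mem_univ _, h1⟩)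
  refine (card_le_card hsub).trans ((card_union_le _ _).trans ?_)
  have h2 := card_biUnion_nb_le G d hd (univ.filter (fun x => x ∉ Dp G d δ lam))
  have h3 := card_not_Dp G d hd δ l lam hl
  calc _ ≤ #(univ.filter (fun x => x ∉ Dp G d δ lam)) +
        d * #(univ.filter (fun x => x ∉ Dp G d δ lam)) := by omega
    _ = (d + 1) * #(univ.filter (fun x => x ∉ Dp G d δ lam)) := by ring
    _ ≤ _ := Nat.mul_le_mul_left _ h3

/-- the regions of the phases -/
noncomputable def UU (G : SimpleGraph V) (d : ℕ) (δ : ℝ) (lam : V → Option L) (P : L) : Finset V :=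
  (DD G d δ lam).filter (fun x => lam x = some P)

theorem mem_UU {G : SimpleGraph V} {d : ℕ} {δ : ℝ} {lam : V → Option L} {P : L} {x : V} :
    x ∈ UU G d δ lam P ↔ x ∈ DD G d δ lam ∧ lam x = some P := by simp [UU]

/-- the inner boundaries of the regions of the phases -/
theorem card_UU_bdry (G : SimpleGraph V) (d : ℕ) (hd : Rgl G d) (δ : ℝ) (lam : V → Option L)
    [Fintype L] :
    ∑ P : L, #((UU G d δ lam P).filter (fun x => ∃ y, G.Adj x y ∧ y ∉ UU G d δ lam P)) ≤
      d * #(univ.filter (fun x => x ∉ DD G d δ lam)) := by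
  rw [← card_biUnion]
  · refine (card_le_card ?_).trans (card_biUnion_nb_le G d hd _)
    intro x hx
    rw [mem_biUnion] at hx
    obtain ⟨P, _, hx⟩ := hx
    rw [mem_filter, mem_UU] at hx
    obtain ⟨⟨h1, h2⟩, y, h3, h4⟩ := hx
    rw [mem_filter]
    refine ⟨mem_univ _, y, h3, ?_⟩
    rw [mem_filter]
    refine ⟨mem_univ _, fun h5 => h4 ?_⟩
    rw [mem_UU]
    exact ⟨h5, (((mem_Dp.mp (mem_DD.mp h1).1).2 y h3).2).trans h2⟩
  · intro P _ Q _ hPQ
    refine disjoint_left.mpr ?_
    intro x hx hx'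
    rw [mem_filter, mem_UU] at hx hx'
    exact hPQ (Option.some_injective _ (hx.1.2.symm.trans hx'.1.2))

/-- imbalance of a set in a bipartite regular graph -/
theorem imbalance (G : SimpleGraph V) (c : V → Bool) (hc : ∀ u v, G.Adj u v → c u ≠ c v) (d : ℕ)
    (hd0 : 0 < d) (hd : Rgl G d) (U : Finset V) (s : Bool) :
    #(U.filter (fun x => c x = s)) ≤ #(U.filter (fun x => c x ≠ s)) +
      #(U.filter (fun x => ∃ y, G.Adj x y ∧ y ∉ U)) := by
  set A := U.filter (fun x => c x = s) with hA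
  set B := U.filter (fun x => c x ≠ s) with hB
  set W := U.filter (fun x => ∃ y, G.Adj x y ∧ y ∉ U) with hW
  have h1 : ∑ x ∈ A, #((nb G x).filter (fun y => y ∈ B)) ≤ d * #B := by
    have h := sum_card_bipartiteAbove_eq_sum_card_bipartiteBelow (s := A) (t := B)
      (fun a b => G.Adj a b)
    have e1 : ∀ x, (nb G x).filter (fun y => y ∈ B) = B.bipartiteAbove (fun a b => G.Adj a b) x := by
      intro x
      ext y
      rw [mem_filter, mem_nb, mem_bipartiteAbove]
      tauto
    rw [sum_congr rfl (fun x _ => congrArg card (e1 x)), h]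
    refine (sum_le_card_nsmul _ _ d fun y _ => ?_).trans ?_
    · rw [← hd y]
      apply card_le_card
      intro x hx
      rw [mem_bipartiteBelow] at hx
      exact mem_nb.mpr hx.2.symm
    · rw [smul_eq_mul, mul_comm]
  have h2 : d * #A ≤ ∑ x ∈ A, #((nb G x).filter (fun y => y ∈ B)) + d * #W := by
    have h3 : ∀ x ∈ A, d ≤ #((nb G x).filter (fun y => y ∈ B)) + (if x ∈ W then d else 0) := by
      intro x hx
      have hxA := mem_filter.mp hx
      by_cases hxW : x ∈ W
      · rw [if_pos hxW]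
        omega
      · rw [if_neg hxW, add_zero]
        have h4 : ∀ y, G.Adj x y → y ∈ U := by
          intro y hy
          by_contra h5
          exact hxW (mem_filter.mpr ⟨hxA.1, y, hy, h5⟩)
        rw [← hd x]
        apply card_le_card
        intro y hy
        have hy' := mem_nb.mp hy
        refine mem_filter.mpr ⟨hy, mem_filter.mpr ⟨h4 y hy', ?_⟩⟩
        rw [← hxA.2]
        exact (hc x y hy').symm
    calc d * #A = ∑ x ∈ A, d := by rw [sum_const, smul_eq_mul, mul_comm]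
      _ ≤ ∑ x ∈ A, (#((nb G x).filter (fun y => y ∈ B)) + (if x ∈ W then d else 0)) :=
        sum_le_sum h3
      _ = ∑ x ∈ A, #((nb G x).filter (fun y => y ∈ B)) + ∑ x ∈ A, (if x ∈ W then d else 0) :=
        sum_add_distrib
      _ ≤ _ := by
        refine Nat.add_le_add_left ?_ _
        rw [← sum_filter, sum_const, smul_eq_mul, mul_comm]
        refine Nat.mul_le_mul_left _ (card_le_card ?_)
        intro x hx
        exact (mem_filter.mp hx).2
  have h3 : d * #A ≤ d * (#B + #W) := by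
    rw [mul_add]
    omega
  exact Nat.le_of_mul_le_mul_left h3 hd0

end LD
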