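import Pool.Agent.W_5dd92e_ld.GasS
import Pool.Agent.W_5dd92e_ld.Cls

/-!
# The lower bound (PL3): factorisation over the set of wrong vertices
-/

set_option autoImplicit false
set_option linter.unusedSectionVars false

namespace LD

open Finset
open scoped Classical

section fac
variable {V : Type*} [Fintype V] {q : ℕ} {A : Fin q → Fin q → ℝ}

/-- components are closed under link steps inside `D` -/
theorem gl_closed {G : SimpleGraph V} {D g : Finset V} (hg : g ∈ comps (lkG G) D) {x y : V}
    (hx : x ∈ g) (hy : y ∈ D) (h : y ∈ lkG G x) : y ∈ g := by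
  by_contra hn
  have hg' : compOf (lkG G) D y ∈ comps (lkG G) D := mem_comps.2 ⟨y, hy, rfl⟩
  have hne : g ≠ compOf (lkG G) D y := fun e => hn (e ▸ self_mem_compOf hy)
  exact Finset.disjoint_left.1 (comps_disj (lkG_ok G) hg hg' hne) (mem_nbS.2 ⟨x, hx, h⟩)
    (self_mem_compOf hy)

/-- products over `D` are products over the components -/
theorem gl_prod {lk : V → Finset V} (hlk : LkOk lk) (D : Finset V) (f : V → ℝ) :
    ∏ x ∈ D, f x = ∏ g ∈ comps lk D, ∏ x ∈ g, f x := by
  conv_lhs => rw [← biUnion_comps lk D]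
  rw [prod_biUnion]
  · rfl
  · intro g hg g' hg' hne
    exact (comps_disj hlk hg hg' hne).mono_left (subset_nbS hlk g)

theorem gl_nb {G : SimpleGraph V} {D g : Finset V} (hg : g ∈ comps (lkG G) D) {x : V}
    (hx : x ∈ g) : nb G x ∩ D = nb G x ∩ g := by
  ext y
  rw [mem_inter, mem_inter]
  constructor
  · rintro ⟨h1, h2⟩
    exact ⟨h1, gl_closed hg hx h2 (mem_lkG.2 (Or.inr (Or.inl (mem_nb.1 h1))))⟩
  · rintro ⟨h1, h2⟩
    exact ⟨h1, comps_sub hg h2⟩

theorem gl_nb_out {G : SimpleGraph V} {D g : Finset V} (hg : g ∈ comps (lkG G) D) {y : V}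
    (hy : y ∈ Nout G g) : nb G y ∩ D = nb G y ∩ g := by
  obtain ⟨⟨x, hx, hxy⟩, _⟩ := mem_Nout.1 hy
  ext z
  rw [mem_inter, mem_inter]
  constructor
  · rintro ⟨h1, h2⟩
    exact ⟨h1, gl_closed hg hx h2 (mem_lkG.2 (Or.inr (Or.inr ⟨y, hxy, mem_nb.1 h1⟩)))⟩
  · rintro ⟨h1, h2⟩
    exact ⟨h1, comps_sub hg h2⟩

/-- the outer boundary is the disjoint union of the outer boundaries of the components -/
theorem gl_Nout {G : SimpleGraph V} (D : Finset V) :
    Nout G D = (comps (lkG G) D).biUnion (Nout G) := by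
  ext y
  rw [mem_Nout, mem_biUnion]
  constructor
  · rintro ⟨⟨x, hx, hxy⟩, hy⟩
    refine ⟨_, mem_comps.2 ⟨x, hx, rfl⟩, mem_Nout.2 ⟨⟨x, self_mem_compOf hx, hxy⟩, fun h => hy ?_⟩⟩
    exact (mem_compOf.1 h).1
  · rintro ⟨g, hg, hy⟩
    obtain ⟨⟨x, hx, hxy⟩, hyg⟩ := mem_Nout.1 hy
    refine ⟨⟨x, comps_sub hg hx, hxy⟩, fun h => hyg ?_⟩
    exact gl_closed hg hx h (mem_lkG.2 (Or.inr (Or.inl hxy)))

theorem gl_Nout_disj {G : SimpleGraph V} (D : Finset V) :
    ((comps (lkG G) D : Finset (Finset V)) : Set (Finset V)).PairwiseDisjoint (Nout G) := by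
  intro g hg g' hg' hne
  simp only [Function.onFun]
  rw [Finset.disjoint_left]
  intro y hy hy'
  obtain ⟨⟨x, hx, hxy⟩, _⟩ := mem_Nout.1 hy
  obtain ⟨⟨x', hx', hxy'⟩, _⟩ := mem_Nout.1 hy'
  exact Finset.disjoint_left.1 (comps_disj (lkG_ok G) hg hg' hne)
    (mem_nbS.2 ⟨x, hx, mem_lkG.2 (Or.inr (Or.inr ⟨y, hxy, hxy'.symm⟩))⟩) hx'

theorem gl_rr {G : SimpleGraph V} (c : V → Bool) (P : Ph A) {D g : Finset V}
    (hg : g ∈ comps (lkG G) D) (s : V → Fin q) {y : V} (hy : y ∈ Nout G g) :
    rr G c P D s y = rr G c P g s y := by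
  unfold rr
  rw [gl_nb_out hg hy]

/-- the coloured weight factorises over the components -/
theorem w1P_comps (G : SimpleGraph V) (c : V → Bool) (P : Ph A) (D : Finset V) (s : V → Fin q) :
    w1P G c P D s = ∏ g ∈ comps (lkG G) D, w1P G c P g s := by
  unfold w1P
  rw [prod_mul_distrib, prod_mul_distrib]
  congr 1
  · congr 1
    · exact gl_prod (lkG_ok G) D _
    · rw [prod_filter, gl_prod (lkG_ok G) D]
      refine prod_congr rfl fun g hg => ?_
      rw [prod_filter]
      refine prod_congr rfl fun x hx => ?_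
      rw [gl_nb hg hx]
  · rw [gl_Nout D, prod_biUnion (gl_Nout_disj D)]
    exact prod_congr rfl fun g hg => prod_congr rfl fun y hy => gl_rr c P hg s hy

/-- coloured sums over disjoint families -/
theorem gl_Colr_prod {C : Type*} (pt : V → Finset C) (q0 : C)
    (w1 : Finset V → (V → C) → ℝ) (hw : ∀ g s s', (∀ x ∈ g, s x = s' x) → w1 g s = w1 g s')
    (F : Finset (Finset V)) (hF : (F : Set (Finset V)).PairwiseDisjoint id) :
    ∑ s ∈ Colr pt q0 (F.biUnion id), ∏ g ∈ F, w1 g s = ∏ g ∈ F, Wc pt q0 w1 g := by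
  induction F using Finset.induction_on with
  | empty =>
    have h0 : Colr pt q0 (∅ : Finset V) = {fun _ => q0} := by
      ext s
      rw [mem_Colr, mem_singleton]
      constructor
      · rintro ⟨_, h⟩
        funext x
        exact h x (by simp)
      · rintro rfl
        exact ⟨by simp, fun _ _ => rfl⟩
    simp [h0]
  | insert g F hg ih =>
    have hF' : (F : Set (Finset V)).PairwiseDisjoint id := by
      intro a ha b hb hne
      exact hF (by simp [mem_coe.1 ha]) (by simp [mem_coe.1 hb]) hne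
    have hdis : Disjoint g (F.biUnion id) := by
      rw [disjoint_biUnion_right]
      intro g' hg'
      exact hF (by simp) (by simp [hg']) (fun e => hg (e ▸ hg'))
    rw [prod_insert hg, ← ih hF']
    unfold Wc
    rw [sum_mul_sum, ← sum_product']
    have hD : (insert g F).biUnion id = g ∪ F.biUnion id := by
      rw [biUnion_insert]; rfl
    rw [hD]
    refine sum_bij' (fun s _ => (fun x => if x ∈ g then s x else q0,
        fun x => if x ∈ F.biUnion id then s x else q0))
      (fun p _ => fun x => if x ∈ g then p.1 x else p.2 x) ?_ ?_ ?_ ?_ ?_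
    · intro s hs
      obtain ⟨h1, h2⟩ := mem_Colr.1 hs
      rw [mem_product, mem_Colr, mem_Colr]
      refine ⟨⟨fun x hx => ?_, fun x hx => ?_⟩, ⟨fun x hx => ?_, fun x hx => ?_⟩⟩
      · simp only [hx, if_true]; exact h1 x (mem_union_left _ hx)
      · simp only [hx, if_false]
      · simp only [hx, if_true]; exact h1 x (mem_union_right _ hx)
      · simp only [hx, if_false]
    · intro p hp
      obtain ⟨ha, hb⟩ := mem_product.1 hp
      obtain ⟨h1, h2⟩ := mem_Colr.1 ha
      obtain ⟨h3, h4⟩ := mem_Colr.1 hb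
      rw [mem_Colr]
      refine ⟨fun x hx => ?_, fun x hx => ?_⟩
      · by_cases hxg : x ∈ g
        · simp only [hxg, if_true]; exact h1 x hxg
        · simp only [hxg, if_false]
          rcases mem_union.1 hx with h | h
          · exact absurd h hxg
          · exact h3 x h
      · rw [mem_union, not_or] at hx
        simp only [hx.1, if_false]
        exact h4 x hx.2
    · intro s hs
      obtain ⟨h1, h2⟩ := mem_Colr.1 hs
      funext x
      by_cases hxg : x ∈ g
      · simp only [hxg, if_true]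
      · by_cases hxF : x ∈ F.biUnion id
        · simp only [hxg, hxF, if_true, if_false]
        · simp only [hxg, hxF, if_false]
          exact (h2 x (by rw [mem_union, not_or]; exact ⟨hxg, hxF⟩)).symm
    · intro p hp
      obtain ⟨ha, hb⟩ := mem_product.1 hp
      obtain ⟨h1, h2⟩ := mem_Colr.1 ha
      obtain ⟨h3, h4⟩ := mem_Colr.1 hb
      refine Prod.ext ?_ ?_
      · funext x
        by_cases hxg : x ∈ g
        · simp only [hxg, if_true]
        · simp only [hxg, if_false]
          exact (h2 x hxg).symm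
      · funext x
        by_cases hxF : x ∈ F.biUnion id
        · have hxg : x ∉ g := fun h => Finset.disjoint_left.1 hdis h hxF
          simp only [hxF, hxg, if_true, if_false]
        · simp only [hxF, if_false]
          exact (h4 x hxF).symm
    · intro s _
      rw [prod_insert hg]
      congr 1
      · refine hw g _ _ fun x hx => ?_
        simp only [hx, if_true]
      · refine prod_congr rfl fun g' hg' => hw g' _ _ fun x hx => ?_
        have : x ∈ F.biUnion id := mem_biUnion.2 ⟨g', hg', hx⟩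
        simp only [this, if_true]

theorem gl_w1P_congr (G : SimpleGraph V) (c : V → Bool) (P : Ph A) (g : Finset V)
    (s s' : V → Fin q) (h : ∀ x ∈ g, s x = s' x) : w1P G c P g s = w1P G c P g s' := by
  unfold w1P
  congr 1
  · congr 1
    refine Finset.prod_congr rfl fun x hx => Finset.prod_congr rfl fun y hy => ?_
    rw [h x (Finset.mem_filter.mp hx).1, h y (Finset.mem_inter.mp hy).2]
  · refine Finset.prod_congr rfl fun y _ => ?_
    unfold rr
    congr 1
    refine Finset.sum_congr rfl fun t _ => Finset.prod_congr rfl fun x hx => ?_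
    rw [h x (Finset.mem_inter.mp hx).2]

end fac

section part
variable {V : Type*} [Fintype V] {q : ℕ} {A : Fin q → Fin q → ℝ}

/-- split of the weight of a configuration with wrong set `D` -/
theorem gl_wt_split {κ : ℝ} (hA : Tgt A κ) {G : SimpleGraph V} {c : V → Bool}
    (hc : TPB.Prp G c) (P : Ph A) (D : Finset V) (s σ : V → Fin q)
    (h1 : ∀ x ∈ D, σ x = s x) (h2 : ∀ x, x ∉ D → σ x ∈ pat c P x) :
    TPB.wt G c A σ = (∏ x ∈ D.filter (fun x => c x = true), ∏ y ∈ nb G x ∩ D, A (s x) (s y)) *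
      ∏ y, (if y ∈ D then 1 else ∏ x ∈ nb G y ∩ D, A (s x) (σ y)) := by
  have hL : TPB.wt G c A σ = ∏ x, ∏ y, (if G.Adj x y ∧ c x = true then A (σ x) (σ y) else 1) := by
    unfold TPB.wt TPB.ed
    rw [prod_filter, ← univ_product_univ, prod_product]
  have hR1 : (∏ x ∈ D.filter (fun x => c x = true), ∏ y ∈ nb G x ∩ D, A (s x) (s y)) =
      ∏ x, ∏ y, (if (x ∈ D ∧ c x = true) ∧ (G.Adj x y ∧ y ∈ D) then A (s x) (s y) else 1) := by
    have : D.filter (fun x => c x = true) = univ.filter (fun x => x ∈ D ∧ c x = true) := by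
      ext x; simp
    rw [this, prod_filter]
    refine prod_congr rfl fun x _ => ?_
    by_cases hx : x ∈ D ∧ c x = true
    · rw [if_pos hx]
      have h3 : nb G x ∩ D = univ.filter (fun y => G.Adj x y ∧ y ∈ D) := by
        ext y; rw [mem_inter, mem_nb]; simp
      rw [h3, prod_filter]
      exact prod_congr rfl fun y _ => by simp only [hx, true_and]
    · rw [if_neg hx]
      symm
      exact prod_eq_one fun y _ => if_neg fun h => hx h.1
  have hR2 : (∏ y, (if y ∈ D then (1 : ℝ) else ∏ x ∈ nb G y ∩ D, A (s x) (σ y))) =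
      (∏ x, ∏ y, (if (x ∉ D ∧ c x = true) ∧ (G.Adj x y ∧ y ∈ D) then A (s y) (σ x) else 1)) *
      ∏ x, ∏ y, (if (y ∉ D ∧ c y = false) ∧ (G.Adj y x ∧ x ∈ D) then A (s x) (σ y) else 1) := by
    rw [prod_comm (s := (univ : Finset V)) (t := (univ : Finset V)) (f := fun x y =>
      (if (y ∉ D ∧ c y = false) ∧ (G.Adj y x ∧ x ∈ D) then A (s x) (σ y) else 1)),
      ← prod_mul_distrib]
    refine prod_congr rfl fun y _ => ?_
    rw [← prod_mul_distrib]
    by_cases hy : y ∈ D
    · rw [if_pos hy]
      symm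
      exact prod_eq_one fun x _ => by simp [hy]
    · rw [if_neg hy]
      have h3 : nb G y ∩ D = univ.filter (fun x => G.Adj y x ∧ x ∈ D) := by
        ext x; rw [mem_inter, mem_nb]; simp
      rw [h3, prod_filter]
      refine prod_congr rfl fun x _ => ?_
      rcases hcy : c y with _ | _ <;> simp [hy]
  rw [hL, hR1, hR2, ← prod_mul_distrib, ← prod_mul_distrib]
  refine prod_congr rfl fun x _ => ?_
  rw [← prod_mul_distrib, ← prod_mul_distrib]
  refine prod_congr rfl fun y _ => ?_
  by_cases ha : G.Adj x y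
  · have hcc := hc x y ha
    have ha' := ha.symm
    rcases hcx : c x with _ | _
    · simp [hcx] at hcc
      simp [hcc]
    · have hcy : c y = false := by
        rcases hcy : c y with _ | _
        · rfl
        · exact absurd (hcx.trans hcy.symm) hcc
      by_cases hx : x ∈ D
      · by_cases hy : y ∈ D
        · simp [ha, ha', hx, hy, h1 x hx, h1 y hy]
        · simp [ha, ha', hx, hy, hcy, h1 x hx]
      · by_cases hy : y ∈ D
        · simp [ha, ha', hx, hy, h1 y hy, hA.symm]
        · have e1 : A (σ x) (σ y) = 1 := by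
            have hx' := h2 x hx
            have hy' := h2 y hy
            unfold pat at hx' hy'
            rw [if_pos hcx] at hx'
            rw [if_neg (by rw [hcy]; simp)] at hy'
            exact P.2.1 _ hx' _ hy'
          simp [ha, hx, hy, e1]
  · have ha' : ¬ G.Adj y x := fun h => ha h.symm
    simp [ha, ha']

/-- the configurations with colours `s` on `D` and pattern colours elsewhere -/
noncomputable def Fb (c : V → Bool) (P : Ph A) (D : Finset V) (s : V → Fin q) :
    Finset (V → Fin q) :=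
  Fintype.piFinset (fun x => if x ∈ D then {s x} else pat c P x)

theorem mem_Fb {c : V → Bool} {P : Ph A} {D : Finset V} {s σ : V → Fin q} :
    σ ∈ Fb c P D s ↔ (∀ x ∈ D, σ x = s x) ∧ ∀ x, x ∉ D → σ x ∈ pat c P x := by
  unfold Fb
  rw [Fintype.mem_piFinset]
  constructor
  · intro h
    refine ⟨fun x hx => ?_, fun x hx => ?_⟩
    · have := h x; rwa [if_pos hx, mem_singleton] at this
    · have := h x; rwa [if_neg hx] at this
  · rintro ⟨h1, h2⟩ x
    split_ifs with hx
    · rw [mem_singleton]; exact h1 x hx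
    · exact h2 x hx

/-- the sum over a fibre -/
theorem gl_fibre {κ : ℝ} (hA : Tgt A κ) {G : SimpleGraph V} {c : V → Bool}
    (hc : TPB.Prp G c) (P : Ph A) (D : Finset V) (s : V → Fin q) :
    ∑ σ ∈ Fb c P D s, TPB.wt G c A σ = (∏ x, (#(pat c P x) : ℝ)) * w1P G c P D s := by
  have h1 : ∑ σ ∈ Fb c P D s, TPB.wt G c A σ = ∑ σ ∈ Fb c P D s,
      (∏ x ∈ D.filter (fun x => c x = true), ∏ y ∈ nb G x ∩ D, A (s x) (s y)) *
      ∏ y, (if y ∈ D then 1 else ∏ x ∈ nb G y ∩ D, A (s x) (σ y)) := by
    refine sum_congr rfl fun σ hσ => ?_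
    obtain ⟨h2, h3⟩ := mem_Fb.1 hσ
    exact gl_wt_split hA hc P D s σ h2 h3
  rw [h1, ← mul_sum]
  have h2 : ∑ σ ∈ Fb c P D s, ∏ y, (if y ∈ D then (1 : ℝ) else ∏ x ∈ nb G y ∩ D, A (s x) (σ y)) =
      ∏ y, (if y ∈ D then (1 : ℝ) else #(pat c P y) * rr G c P D s y) := by
    unfold Fb
    rw [← prod_univ_sum (fun x => if x ∈ D then {s x} else pat c P x)
      (fun y t => if y ∈ D then (1 : ℝ) else ∏ x ∈ nb G y ∩ D, A (s x) t)]
    refine prod_congr rfl fun y _ => ?_
    by_cases hy : y ∈ D
    · simp [hy]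
    · simp only [hy, if_false]
      unfold rr
      have : (#(pat c P y) : ℝ) ≠ 0 := by exact_mod_cast (gs_pat_pos hA c P y).ne'
      field_simp
  rw [h2]
  have h3 : ∏ y, (if y ∈ D then (1 : ℝ) else #(pat c P y) * rr G c P D s y) =
      (∏ x, (#(pat c P x) : ℝ)) * ((∏ x ∈ D, ((#(pat c P x) : ℝ))⁻¹) * ∏ y ∈ Nout G D, rr G c P D s y) := by
    have e1 : ∏ x ∈ D, ((#(pat c P x) : ℝ))⁻¹ = ∏ x, (if x ∈ D then ((#(pat c P x) : ℝ))⁻¹ else 1) := by
      rw [prod_ite_mem]; simp
    have e2 : ∏ y ∈ Nout G D, rr G c P D s y = ∏ y, (if y ∈ D then 1 else rr G c P D s y) := by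
      have e3 : ∏ y ∈ Nout G D, rr G c P D s y =
          ∏ y, (if y ∈ Nout G D then rr G c P D s y else 1) := by
        rw [prod_ite_mem]; simp
      rw [e3]
      refine prod_congr rfl fun y _ => ?_
      by_cases hy : y ∈ D
      · have : y ∉ Nout G D := fun h => (mem_Nout.1 h).2 hy
        simp [hy, this]
      · by_cases hn : y ∈ Nout G D
        · simp [hy, hn]
        · simp only [hn, hy, if_false]
          unfold rr
          have h4 : nb G y ∩ D = ∅ := by
            rw [Finset.eq_empty_iff_forall_notMem]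
            intro x hx
            obtain ⟨h5, h6⟩ := mem_inter.1 hx
            exact hn (mem_Nout.2 ⟨⟨x, h6, (mem_nb.1 h5).symm⟩, hy⟩)
          rw [h4]
          have : (#(pat c P y) : ℝ) ≠ 0 := by exact_mod_cast (gs_pat_pos hA c P y).ne'
          simp [this]
    rw [e1, e2, ← prod_mul_distrib, ← prod_mul_distrib]
    refine prod_congr rfl fun y _ => ?_
    have : (#(pat c P y) : ℝ) ≠ 0 := by exact_mod_cast (gs_pat_pos hA c P y).ne'
    by_cases hy : y ∈ D
    · simp [hy, this]
    · simp [hy]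
  rw [h3]
  unfold w1P
  ring

/-- partition of the configurations according to the wrong set -/
theorem gl_partition {G : SimpleGraph V} {c : V → Bool} (P : Ph A) (q0 : Fin q)
    (hA0 : ∀ i j, 0 ≤ A i j) (S : Finset (Finset V)) :
    ∑ D ∈ S, ∑ s ∈ Colr (fun x => (pat c P x)ᶜ) q0 D, ∑ σ ∈ Fb c P D s, TPB.wt G c A σ ≤
      TPB.ZB G c A := by
  have hw0 : ∀ σ, 0 ≤ TPB.wt G c A σ := fun σ => prod_nonneg fun e _ => hA0 _ _
  have h1 : ∑ D ∈ S, ∑ s ∈ Colr (fun x => (pat c P x)ᶜ) q0 D, ∑ σ ∈ Fb c P D s, TPB.wt G c A σ =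
      ∑ σ, ∑ D ∈ S, ∑ s ∈ Colr (fun x => (pat c P x)ᶜ) q0 D,
        (if σ ∈ Fb c P D s then TPB.wt G c A σ else 0) := by
    rw [sum_comm]
    refine sum_congr rfl fun D _ => ?_
    rw [sum_comm]
    refine sum_congr rfl fun s _ => ?_
    rw [sum_ite_mem, univ_inter]
  rw [h1]
  unfold TPB.ZB
  refine sum_le_sum fun σ _ => ?_
  set D0 : Finset V := univ.filter (fun x => σ x ∉ pat c P x) with hD0
  have hkey : ∀ D s, s ∈ Colr (fun x => (pat c P x)ᶜ) q0 D → σ ∈ Fb c P D s →
      D = D0 ∧ s = fun x => if x ∈ D0 then σ x else q0 := by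
    intro D s hs hσ
    obtain ⟨h2, h3⟩ := mem_Fb.1 hσ
    obtain ⟨h4, h5⟩ := mem_Colr.1 hs
    have hD : D = D0 := by
      ext x
      rw [hD0, mem_filter]
      constructor
      · intro hx
        refine ⟨mem_univ x, ?_⟩
        rw [h2 x hx]
        exact mem_compl.1 (h4 x hx)
      · rintro ⟨_, hx⟩
        by_contra hn
        exact hx (h3 x hn)
    refine ⟨hD, ?_⟩
    funext x
    by_cases hx : x ∈ D0
    · rw [if_pos hx, h2 x (hD ▸ hx)]
    · rw [if_neg hx]
      exact h5 x (hD ▸ hx)
  have h2 : ∀ D ∈ S, ∑ s ∈ Colr (fun x => (pat c P x)ᶜ) q0 D,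
      (if σ ∈ Fb c P D s then TPB.wt G c A σ else 0) ≤ if D = D0 then TPB.wt G c A σ else 0 := by
    intro D _
    split_ifs with hD
    · calc ∑ s ∈ Colr (fun x => (pat c P x)ᶜ) q0 D,
          (if σ ∈ Fb c P D s then TPB.wt G c A σ else 0) ≤
          ∑ s ∈ Colr (fun x => (pat c P x)ᶜ) q0 D,
            (if s = (fun x => if x ∈ D0 then σ x else q0) then TPB.wt G c A σ else 0) := by
            refine sum_le_sum fun s hs => ?_
            split_ifs with h3 h4 h4
            · exact le_refl _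
            · exact absurd (hkey D s hs h3).2 h4
            · exact hw0 σ
            · exact le_refl _
        _ ≤ TPB.wt G c A σ := by
            rw [sum_ite_eq']
            split_ifs
            · exact le_refl _
            · exact hw0 σ
    · refine le_of_eq (sum_eq_zero fun s hs => ?_)
      rw [if_neg]
      intro h3
      exact hD (hkey D s hs h3).1
  refine (sum_le_sum h2).trans ?_
  rw [sum_ite_eq']
  split_ifs
  · exact le_refl _
  · exact hw0 σ

/-- (PL3) lower bound for the partition function -/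
theorem ZB_ge {κ : ℝ} (hA : Tgt A κ) {G : SimpleGraph V} {c : V → Bool}
    (hc : TPB.Prp G c) (q0 : Fin q) (ζ : ℝ) (P : Ph A) :
    (∏ x, (#(pat c P x) : ℝ)) * XiP G c q0 ζ P univ ≤ TPB.ZB G c A := by
  have hM : (0 : ℝ) ≤ ∏ x, (#(pat c P x) : ℝ) := prod_nonneg fun x _ => Nat.cast_nonneg _
  refine le_trans ?_ (gl_partition (G := G) (c := c) P q0 hA.nn univ)
  have h1 : ∀ D : Finset V, ∑ s ∈ Colr (fun x => (pat c P x)ᶜ) q0 D, ∑ σ ∈ Fb c P D s, TPB.wt G c A σ =
      (∏ x, (#(pat c P x) : ℝ)) * ∏ g ∈ comps (lkG G) D, Wc (fun x => (pat c P x)ᶜ) q0 (w1P G c P) g := by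
    intro D
    rw [sum_congr rfl fun s _ => gl_fibre hA hc P D s, ← mul_sum]
    congr 1
    have h2 := gl_Colr_prod (fun x => (pat c P x)ᶜ) q0 (w1P G c P)
      (fun g s s' h => gl_w1P_congr G c P g s s' h) (comps (lkG G) D)
      (fun g hg g' hg' hne => (comps_disj (lkG_ok G) hg hg' hne).mono_left
        (subset_nbS (lkG_ok G) g))
    rw [biUnion_comps] at h2
    rw [← h2]
    exact sum_congr rfl fun s _ => w1P_comps G c P D s
  rw [sum_congr rfl fun D _ => h1 D, ← mul_sum]
  refine mul_le_mul_of_nonneg_left ?_ hM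
  unfold XiP
  rw [← sum_comps_eq (lkG_ok G) (wP G c q0 ζ P) univ (fun g _ _ hl => by
    unfold wP; rw [if_neg fun h => hl h.1])]
  rw [powerset_univ]
  refine sum_le_sum fun D _ => ?_
  refine prod_le_prod (fun g _ => wP_nonneg hA G c q0 ζ P g) fun g _ => ?_
  unfold wP
  split_ifs
  · exact le_refl _
  · exact sum_nonneg fun s _ => gs_w1P_nonneg hA G c P g s

/-- the two sides of a regular graph have the same size -/
theorem gl_sides {G : SimpleGraph V} {c : V → Bool} (hc : TPB.Prp G c) {d : ℕ} (hd0 : 0 < d)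
    (hd : Rgl G d) : #(univ.filter (fun x => c x = true)) = #(univ.filter (fun x => c x = false)) := by
  have h1 := imbalance G c hc d hd0 hd univ true
  have h2 := imbalance G c hc d hd0 hd univ false
  have e : ∀ x : V, (∃ y, G.Adj x y ∧ y ∉ (univ : Finset V)) ↔ False := by
    intro x; simp
  simp only [e, filter_false, card_empty, add_zero] at h1 h2
  have e1 : (univ.filter (fun x => c x ≠ true)) = univ.filter (fun x => c x = false) := by
    ext x; simp
  have e2 : (univ.filter (fun x => c x ≠ false)) = univ.filter (fun x => c x = true) := by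
    ext x; simp
  rw [e1] at h1
  rw [e2] at h2
  omega

theorem gl_card_half {G : SimpleGraph V} {c : V → Bool} (hc : TPB.Prp G c) {d : ℕ} (hd0 : 0 < d)
    (hd : Rgl G d) (s : Bool) : (#(univ.filter (fun x => c x = s)) : ℝ) = (Fintype.card V : ℝ) / 2 := by
  have h1 := gl_sides hc hd0 hd
  have h2 : #(univ.filter (fun x => c x = true)) + #(univ.filter (fun x => c x = false)) =
      Fintype.card V := by
    have h3 := card_filter_add_card_filter_not (s := (univ : Finset V)) (fun x => c x = true)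
    have e1 : (univ.filter (fun x => ¬ c x = true)) = univ.filter (fun x => c x = false) := by
      ext x; simp
    rw [e1, card_univ] at h3
    exact h3
  have h4 : (#(univ.filter (fun x => c x = true)) : ℝ) + #(univ.filter (fun x => c x = false)) =
      Fintype.card V := by exact_mod_cast h2
  have h5 : (#(univ.filter (fun x => c x = true)) : ℝ) = #(univ.filter (fun x => c x = false)) := by
    exact_mod_cast h1
  cases s <;> linarith

/-- sums of a function of the side -/
theorem gl_sum_side {G : SimpleGraph V} {c : V → Bool} (hc : TPB.Prp G c) {d : ℕ} (hd0 : 0 < d)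
    (hd : Rgl G d) (f : Bool → ℝ) :
    ∑ x, f (c x) = (Fintype.card V : ℝ) / 2 * (f true + f false) := by
  have h1 : ∑ x, f (c x) = ∑ x ∈ univ.filter (fun x => c x = true), f (c x) +
      ∑ x ∈ univ.filter (fun x => ¬ c x = true), f (c x) :=
    (sum_filter_add_sum_filter_not _ _ _).symm
  have e1 : (univ.filter (fun x => ¬ c x = true)) = univ.filter (fun x => c x = false) := by
    ext x; simp
  have h2 : ∑ x ∈ univ.filter (fun x => c x = true), f (c x) =
      #(univ.filter (fun x => c x = true)) * f true := by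
    rw [← nsmul_eq_mul, ← sum_const]
    exact sum_congr rfl fun x hx => by rw [(mem_filter.1 hx).2]
  have h3 : ∑ x ∈ univ.filter (fun x => c x = false), f (c x) =
      #(univ.filter (fun x => c x = false)) * f false := by
    rw [← nsmul_eq_mul, ← sum_const]
    exact sum_congr rfl fun x hx => by rw [(mem_filter.1 hx).2]
  rw [h1, e1, h2, h3, gl_card_half hc hd0 hd, gl_card_half hc hd0 hd]
  ring

/-- (PL3) logarithmic form -/
theorem log_ZB_ge {κ : ℝ} (hA : Tgt A κ) {G : SimpleGraph V} {c : V → Bool}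
    (hc : TPB.Prp G c) {d : ℕ} (hd0 : 0 < d) (hd : Rgl G d) (q0 : Fin q) (ζ : ℝ) (P : Ph A) :
    (Fintype.card V : ℝ) / 2 * Real.log (mm A) + Real.log (XiP G c q0 ζ P univ) ≤
      Real.log (TPB.ZB G c A) := by
  have h1 := ZB_ge hA hc q0 ζ P
  have hX : 0 < XiP G c q0 ζ P univ := Xi_pos (wP_nonneg hA G c q0 ζ P) _
  have hpos : ∀ x, (0 : ℝ) < #(pat c P x) := fun x => by exact_mod_cast gs_pat_pos hA c P x
  have hM : 0 < ∏ x, (#(pat c P x) : ℝ) := prod_pos fun x _ => hpos x
  have h2 := Real.log_le_log (mul_pos hM hX) h1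
  rw [Real.log_mul hM.ne' hX.ne', Real.log_prod fun x _ => (hpos x).ne'] at h2
  have h3 : ∑ x, Real.log (#(pat c P x) : ℝ) = (Fintype.card V : ℝ) / 2 * Real.log (mm A) := by
    have h4 := gl_sum_side hc hd0 hd (fun b => if b = true then Real.log (#P.1.1 : ℝ)
      else Real.log (#P.1.2 : ℝ))
    have h5 : ∀ x, Real.log (#(pat c P x) : ℝ) = (fun b => if b = true then Real.log (#P.1.1 : ℝ)
      else Real.log (#P.1.2 : ℝ)) (c x) := by
      intro x
      unfold pat
      by_cases hx : c x = true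
      · simp [hx]
      · simp [hx]
    rw [sum_congr rfl fun x _ => h5 x, h4]
    congr 1
    simp only [if_true, Bool.false_eq_true, if_false]
    have hm := P.2.2
    have hm0 := gs_mm_pos hA
    have h6 : 0 < #P.1.1 * #P.1.2 := by omega
    have h7 : (#P.1.1 : ℝ) ≠ 0 := by
      exact_mod_cast (Nat.pos_of_mul_pos_right h6).ne'
    have h8 : (#P.1.2 : ℝ) ≠ 0 := by
      exact_mod_cast (Nat.pos_of_mul_pos_left h6).ne'
    have h9 : (#P.1.1 : ℝ) * (#P.1.2 : ℝ) = (mm A : ℝ) := by exact_mod_cast hm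
    rw [← Real.log_mul h7 h8, h9]
  linarith

end part

end LD
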