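import Pool.Agent.W_5dd92e_ld.Ev

/-!
# MP_5dd92e_co, large degree theorem: the choice of the parameters (numerics for large `d`)
-/

set_option autoImplicit false

namespace LD

/-- the numerical part: all conditions on the parameters for large `d` -/
theorem params (q : ℕ) (κ ca cv CL cz C : ℝ) (hκ : 0 < κ) (hκ1 : κ ≤ 1) (hca : 0 < ca)
    (hcv : 0 < cv) (hCL : 0 < CL) (hcz : 0 < cz) (hC : 0 < C) :
    ∃ d0 : ℕ, ∀ d : ℕ, d0 ≤ d → 1 ≤ d ∧ 1 ≤ Real.log d ∧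
      ∃ (δ τF cp ε0 e3 t0 ρ : ℝ), 0 < cz / Real.log d ∧ cz / Real.log d ≤ 1 / 5 ∧ 0 < δ ∧
        0 < ε0 ∧ 0 < cp ∧ 0 < τF ∧ cp * δ * d ≤ ca ∧ cp * ε0 * d ≤ ca ∧ 0 < e3 ∧ e3 ≤ ca ∧
        (q : ℝ) * Real.exp (-(cp * d)) + q * (1 - κ) ^ τF ≤ e3 ∧
        0 ≤ t0 ∧ t0 ≤ 1 ∧ 2 * τF ≤ ε0 * d * t0 ∧
        1 / (d : ℝ) ^ 2 + CL * ((1 / (d : ℝ) + cp) * (t0 * (2 * d)) + e3 + cp * d *
          (q * Real.exp (-(τF / 4)))) ≤ ρ ∧
        ρ ≤ cv * (cz / Real.log d) ∧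
        C * (Real.log d) ^ 4 / d + ρ * ((5 + 5 / δ) * (C * Real.log d) + (8 + 10 / δ) + 1)
          ≤ cv := by
  obtain ⟨Ct, hCt⟩ : ∃ Ct : ℝ, Ct = 128 / (κ * ca) := ⟨_, rfl⟩
  have hCt0 : 0 < Ct := by rw [hCt]; positivity
  obtain ⟨K2, hK2⟩ : ∃ K2 : ℝ, K2 = 1 + CL * (10 * Ct + 1 + 4 * q) := ⟨_, rfl⟩
  have hq0 : (0 : ℝ) ≤ q := Nat.cast_nonneg q
  have hK20 : 0 < K2 := by rw [hK2]; positivity
  obtain ⟨K3, hK3⟩ : ∃ K3 : ℝ, K3 = 5 * C + 20 * C / ca + 9 + 40 / ca := ⟨_, rfl⟩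
  have hK30 : 0 < K3 := by rw [hK3]; positivity
  obtain ⟨d1, h1⟩ := ev_log (1 + 5 * cz)
  obtain ⟨d2, h2⟩ := ev_nat (1 + 2 * q + 1 / ca)
  obtain ⟨d3, h3⟩ := ev_pow 2 (1 / Ct) (by positivity)
  obtain ⟨d4, h4⟩ := ev_pow 4 (cv * cz / K2) (by positivity)
  obtain ⟨d5, h5⟩ := ev_pow 5 (cv / (C + K2 * K3)) (by positivity)
  refine ⟨d1 + d2 + d3 + d4 + d5, fun d hd => ?_⟩
  have h1 := h1 d (by omega)
  have h2 := h2 d (by omega)
  have h3 := h3 d (by omega)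
  have h4 := h4 d (by omega)
  have h5 := h5 d (by omega)
  obtain ⟨L, hL⟩ : ∃ L : ℝ, L = Real.log d := ⟨_, rfl⟩
  rw [← hL] at h1 h3 h4 h5 ⊢
  have hca' : 0 < 1 / ca := by positivity
  have hd1 : (1 : ℝ) ≤ d := by linarith
  have hd0 : (0 : ℝ) < d := by linarith
  have hL1 : 1 ≤ L := by linarith
  have hL0 : 0 < L := by linarith
  have hexp : Real.exp L = d := by rw [hL, Real.exp_log hd0]
  have hexp4 : Real.exp (-(4 * L)) = 1 / (d : ℝ) ^ 4 := by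
    rw [Real.exp_neg, show (4 : ℝ) * L = ((4 : ℕ) : ℝ) * L by norm_num, Real.exp_nat_mul, hexp,
      one_div]
  have hL2 : L ≤ L ^ 3 := le_self_pow₀ hL1 (by norm_num)
  have hL3 : 1 ≤ L ^ 3 := one_le_pow₀ hL1
  have hd2 : (1 : ℝ) ≤ (d : ℝ) ^ 2 := one_le_pow₀ hd1
  have hd3 : (1 : ℝ) ≤ (d : ℝ) ^ 3 := one_le_pow₀ hd1
  refine ⟨by exact_mod_cast hd1, hL1, ca / 4 / L, 16 * L / κ, 4 * L / d, ca / 4 / L,
    1 / (d : ℝ) ^ 3, Ct * L ^ 2 / d, K2 * L ^ 3 / d, by positivity, ?_, by positivity,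
    by positivity, by positivity, by positivity, ?_, ?_, by positivity, ?_, ?_, by positivity,
    ?_, ?_, ?_, ?_, ?_⟩
  · rw [div_le_div_iff₀ hL0 (by norm_num)]
    linarith
  · refine le_of_eq ?_
    field_simp
  · refine le_of_eq ?_
    field_simp
  · -- e3 ≤ ca
    rw [div_le_iff₀ (by positivity)]
    have h6 : 1 / ca ≤ (d : ℝ) ^ 3 := by
      have : (d : ℝ) ≤ (d : ℝ) ^ 3 := le_self_pow₀ hd1 (by norm_num)
      linarith
    rw [div_le_iff₀ hca] at h6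
    linarith
  · -- the two exponentials
    have e1 : 4 * L / d * d = 4 * L := by field_simp
    have e2 : (1 - κ) ^ (16 * L / κ) ≤ Real.exp (-(4 * L)) := by
      have h6 : (1 - κ) ≤ Real.exp (-κ) := by
        have := Real.add_one_le_exp (-κ)
        linarith
      have h7 : (1 - κ) ^ (16 * L / κ) ≤ (Real.exp (-κ)) ^ (16 * L / κ) :=
        Real.rpow_le_rpow (by linarith) h6 (by positivity)
      rw [← Real.exp_mul] at h7
      refine h7.trans (Real.exp_le_exp.2 ?_)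
      have h8 : -κ * (16 * L / κ) = -(16 * L) := by field_simp
      rw [h8]
      linarith
    rw [e1, hexp4]
    rw [hexp4] at e2
    have h9 : (q : ℝ) * (1 - κ) ^ (16 * L / κ) ≤ q * (1 / (d : ℝ) ^ 4) :=
      mul_le_mul_of_nonneg_left e2 hq0
    have h10 : (q : ℝ) * (1 / (d : ℝ) ^ 4) + q * (1 / (d : ℝ) ^ 4) ≤ 1 / (d : ℝ) ^ 3 := by
      have h11 : (q : ℝ) * (1 / (d : ℝ) ^ 4) + q * (1 / (d : ℝ) ^ 4) =
          (2 * q / d) * (1 / (d : ℝ) ^ 3) := by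
        field_simp
        ring
      rw [h11]
      have h12 : 2 * (q : ℝ) / d ≤ 1 := by
        rw [div_le_one hd0]
        linarith
      calc 2 * (q : ℝ) / d * (1 / (d : ℝ) ^ 3) ≤ 1 * (1 / (d : ℝ) ^ 3) :=
            mul_le_mul_of_nonneg_right h12 (by positivity)
        _ = 1 / (d : ℝ) ^ 3 := one_mul _
    linarith
  · -- t0 ≤ 1
    rw [div_le_one hd0]
    have h6 : Ct * L ^ 2 ≤ Ct * (1 / Ct * d) := mul_le_mul_of_nonneg_left h3 hCt0.le
    have h7 : Ct * (1 / Ct * d) = d := by field_simp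
    linarith
  · refine le_of_eq ?_
    rw [hCt]
    field_simp
    ring
  · -- the bound by ρ
    have e1 : (1 / (d : ℝ) + 4 * L / d) * (Ct * L ^ 2 / d * (2 * d)) =
        2 * Ct * (L ^ 2 + 4 * L ^ 3) / d := by
      field_simp
    have e2 : 2 * Ct * (L ^ 2 + 4 * L ^ 3) / d ≤ 10 * Ct * L ^ 3 / d := by
      refine div_le_div_of_nonneg_right ?_ hd0.le
      have h6 : L ^ 2 ≤ L ^ 3 := pow_le_pow_right₀ hL1 (by norm_num)
      nlinarith
    have e3 : 1 / (d : ℝ) ^ 2 ≤ L ^ 3 / d := by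
      rw [div_le_div_iff₀ (by positivity) hd0, one_mul]
      have : (d : ℝ) ≤ (d : ℝ) ^ 2 := le_self_pow₀ hd1 (by norm_num)
      nlinarith [mul_le_mul_of_nonneg_right hL3 (by positivity : (0 : ℝ) ≤ (d : ℝ) ^ 2)]
    have e4 : 1 / (d : ℝ) ^ 3 ≤ L ^ 3 / d := by
      rw [div_le_div_iff₀ (by positivity) hd0, one_mul]
      have : (d : ℝ) ≤ (d : ℝ) ^ 3 := le_self_pow₀ hd1 (by norm_num)
      nlinarith [mul_le_mul_of_nonneg_right hL3 (by positivity : (0 : ℝ) ≤ (d : ℝ) ^ 3)]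
    have e5 : Real.exp (-(16 * L / κ / 4)) ≤ 1 / (d : ℝ) ^ 4 := by
      rw [← hexp4]
      refine Real.exp_le_exp.2 (neg_le_neg ?_)
      rw [div_div, le_div_iff₀ (by positivity)]
      nlinarith
    have e6 : 4 * L / d * d * (q * Real.exp (-(16 * L / κ / 4))) ≤ 4 * q * (L ^ 3 / d) := by
      have e7 : 4 * L / d * d = 4 * L := by field_simp
      rw [e7]
      have h8 : (q : ℝ) * Real.exp (-(16 * L / κ / 4)) ≤ q * (1 / (d : ℝ) ^ 4) :=
        mul_le_mul_of_nonneg_left e5 hq0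
      have h9 : 4 * L * ((q : ℝ) * Real.exp (-(16 * L / κ / 4))) ≤
          4 * L * (q * (1 / (d : ℝ) ^ 4)) := mul_le_mul_of_nonneg_left h8 (by positivity)
      refine h9.trans ?_
      have h10 : 1 / (d : ℝ) ^ 4 ≤ 1 / d :=
        one_div_le_one_div_of_le hd0 (le_self_pow₀ hd1 (by norm_num))
      have h11 : L * (1 / (d : ℝ) ^ 4) ≤ L ^ 3 * (1 / d) :=
        mul_le_mul hL2 h10 (by positivity) (by positivity)
      have h12 : 4 * (q : ℝ) * (L * (1 / (d : ℝ) ^ 4)) ≤ 4 * q * (L ^ 3 * (1 / d)) :=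
        mul_le_mul_of_nonneg_left h11 (by positivity)
      calc 4 * L * (q * (1 / (d : ℝ) ^ 4)) = 4 * q * (L * (1 / (d : ℝ) ^ 4)) := by ring
        _ ≤ 4 * q * (L ^ 3 * (1 / d)) := h12
        _ = 4 * q * (L ^ 3 / d) := by ring
    rw [e1]
    have e8 : 2 * Ct * (L ^ 2 + 4 * L ^ 3) / d + 1 / (d : ℝ) ^ 3 +
        4 * L / d * d * (q * Real.exp (-(16 * L / κ / 4))) ≤
        (10 * Ct + 1 + 4 * q) * (L ^ 3 / d) := by
      have : 10 * Ct * L ^ 3 / d = 10 * Ct * (L ^ 3 / d) := by ring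
      rw [this] at e2
      linarith
    have e9 := mul_le_mul_of_nonneg_left e8 hCL.le
    rw [hK2]
    calc _ ≤ L ^ 3 / d + CL * ((10 * Ct + 1 + 4 * q) * (L ^ 3 / d)) := add_le_add e3 e9
      _ = (1 + CL * (10 * Ct + 1 + 4 * q)) * L ^ 3 / d := by ring
  · -- ρ ≤ cv ζ
    rw [← mul_div_assoc, div_le_div_iff₀ hd0 hL0]
    have h6 : K2 * L ^ 4 ≤ K2 * (cv * cz / K2 * d) := mul_le_mul_of_nonneg_left h4 hK20.le
    have h7 : K2 * (cv * cz / K2 * d) = cv * cz * d := by field_simp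
    calc K2 * L ^ 3 * L = K2 * L ^ 4 := by ring
      _ ≤ cv * cz * d := by linarith
  · -- the last condition
    have e1 : 5 / (ca / 4 / L) = 20 / ca * L := by
      field_simp
      ring
    have e2 : 10 / (ca / 4 / L) = 40 / ca * L := by
      field_simp
      ring
    rw [e1, e2]
    have hca1 : 0 < 20 / ca := by positivity
    have hca2 : 0 < 40 / ca := by positivity
    have e3 : (5 + 20 / ca * L) * (C * L) + (8 + 40 / ca * L) + 1 ≤ K3 * L ^ 2 := by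
      rw [hK3]
      have h6 : L ≤ L ^ 2 := le_self_pow₀ hL1 (by norm_num)
      have h7 : 1 ≤ L ^ 2 := one_le_pow₀ hL1
      have h8 : 20 * C / ca = 20 / ca * C := by ring
      rw [h8]
      have h9 := mul_le_mul_of_nonneg_left h6 hC.le
      have h10 := mul_le_mul_of_nonneg_left h6 hca2.le
      calc (5 + 20 / ca * L) * (C * L) + (8 + 40 / ca * L) + 1
          = 5 * (C * L) + 20 / ca * C * L ^ 2 + 9 + 40 / ca * L := by ring
        _ ≤ 5 * (C * L ^ 2) + 20 / ca * C * L ^ 2 + 9 * L ^ 2 + 40 / ca * L ^ 2 := by linarith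
        _ = (5 * C + 20 / ca * C + 9 + 40 / ca) * L ^ 2 := by ring
    have e4 : K2 * L ^ 3 / d * ((5 + 20 / ca * L) * (C * L) + (8 + 40 / ca * L) + 1) ≤
        K2 * L ^ 3 / d * (K3 * L ^ 2) := mul_le_mul_of_nonneg_left e3 (by positivity)
    have e5 : C * L ^ 4 / d ≤ C * L ^ 5 / d := by
      refine div_le_div_of_nonneg_right (mul_le_mul_of_nonneg_left ?_ hC.le) hd0.le
      exact pow_le_pow_right₀ hL1 (by norm_num)
    have e6 : C * L ^ 5 / d + K2 * L ^ 3 / d * (K3 * L ^ 2) = (C + K2 * K3) * L ^ 5 / d := by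
      field_simp
    have hK : 0 < C + K2 * K3 := by positivity
    have e7 : (C + K2 * K3) * L ^ 5 / d ≤ cv := by
      rw [div_le_iff₀ hd0]
      have h6 : (C + K2 * K3) * L ^ 5 ≤ (C + K2 * K3) * (cv / (C + K2 * K3) * d) :=
        mul_le_mul_of_nonneg_left h5 hK.le
      have h7 : (C + K2 * K3) * (cv / (C + K2 * K3) * d) = cv * d := by field_simp
      linarith
    linarith

end LD
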