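import Pool.Agent.W_5dd92e_ld.CoreU
import Pool.Agent.W_5dd92e_ld.Par

/-!
# MP_5dd92e_co, large degree theorem: choice of the parameters
-/

set_option autoImplicit false

open Finset
open scoped Classical

namespace LD

universe u

/-- statement of the label stage -/
def LabStmt : Prop := ∀ (N : ℕ) (cz : ℝ), 0 < cz → ∃ C : ℝ, ∃ d0 : ℕ, 0 < C ∧ ∀ d ≥ d0,
    ∀ ε : ℝ, 0 < ε →
    ∃ J : ℕ, ∀ (V : Type u) [Fintype V] (Lam : Type) [Fintype Lam], Fintype.card Lam = N →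
    ∀ G : SimpleGraph V, Rgl G d → TreeTo G J →
    0 ≤ 4 * (Real.log d) ^ 3 / (d : ℝ) ∧ 4 * (Real.log d) ^ 3 / (d : ℝ) ≤ 1 ∧
    ∃ (PL : Finset V → (V → Option Lam) → ℝ)
      (lam : Finset V → (V → Option Lam) → (V → Option Lam)),
      (∀ R τ, 0 ≤ PL R τ) ∧ (∀ R, ∑ τ, PL R τ ≤ 1) ∧
      (∀ R l x P, lam R l x = some P → l x = some P) ∧
      ∀ l, F3P G (cz / Real.log d) d l →
        (∀ R, 0 < PL R (lam R l)) ∧
        EB (4 * (Real.log d) ^ 3 / (d : ℝ)) (fun R => -Real.log (PL R (lam R l))) ≤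
          C * (Real.log d) ^ 4 / d * bb G d l + ε * (Fintype.card V : ℝ) ∧
        EB (4 * (Real.log d) ^ 3 / (d : ℝ))
          (fun R => ((univ.filter (fun x => l x ≠ none ∧ lam R l x = none)).card : ℝ)) ≤
          C * Real.log d * bb G d l

/-- statement of the polymer part -/
def PolStmt : Prop := ∀ (q : ℕ) (A : Fin q → Fin q → ℝ) (κ : ℝ), Tgt A κ → ∀ (q0 : Fin q)
    (C1 c5 : ℝ), 0 < c5 → ∃ cz0 : ℝ, 0 < cz0 ∧ ∀ cz : ℝ, 0 < cz → cz ≤ cz0 →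
    ∃ d0 : ℕ, ∀ d ≥ d0, ∃ Θ : ℝ, ∀ ε : ℝ, 0 < ε → ∃ J : ℕ,
    ∀ (V : Type u) [Fintype V] (G : SimpleGraph V) (c : V → Bool), TPB.Prp G c → Rgl G d →
    TreeTo G J →
    (∀ (δ : ℝ) (lam l : V → Option (Ph A)), (∀ x P, lam x = some P → l x = some P) →
      Real.log (XiC G d c q0 δ (cz / Real.log d) C1 c5 lam) ≤ (Fintype.card V : ℝ) / 2 * Θ
        + ((#(Soft G d δ lam) : ℝ) + bb G d l) / (d : ℝ) ^ 2 + ε * (Fintype.card V : ℝ)) ∧
    (Fintype.card V : ℝ) / 2 * (Real.log (mm A) + Θ) - ε * (Fintype.card V : ℝ) ≤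
      Real.log (TPB.ZB G c A)

/-- statement of the two expectations over `R+` -/
def PenStmt : Prop := ∀ (V : Type u) [Fintype V] (q : ℕ) (A : Fin q → Fin q → ℝ)
    (G : SimpleGraph V) (d : ℕ) (δ τF ε0 t0 : ℝ), Rgl G d → 0 ≤ t0 → t0 ≤ 1 →
    2 * τF ≤ ε0 * d * t0 →
    (∀ lam l : V → Option (Ph A), EB t0 (fun Rp => ((WW G d δ lam l Rp).card : ℝ)) ≤
      t0 * (2 * d * (#(Soft G d δ lam) : ℝ) + (#(Dis G l) : ℝ))) ∧
    (∀ (lam : V → Option (Ph A)) (σ : V → Fin q),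
      EB t0 (fun Rp => ((Bad G d δ τF ε0 lam Rp σ).card : ℝ)) ≤
        q * Real.exp (-(τF / 4)) * (#(Soft G d δ lam) : ℝ))

/-- the partition function of a normalised target is positive -/
theorem ZB_pos {V : Type u} [Fintype V] {q : ℕ} {A : Fin q → Fin q → ℝ} {κ : ℝ}
    (hA : Tgt A κ) (G : SimpleGraph V) (c : V → Bool) (hc : TPB.Prp G c) :
    0 < TPB.ZB G c A := by
  obtain ⟨i, j, hij⟩ := hA.one
  have h1 : TPB.wt G c A (fun x => if c x = true then i else j) = 1 := by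
    unfold TPB.wt
    refine Finset.prod_eq_one fun e he => ?_
    unfold TPB.ed at he
    obtain ⟨_, h2, h3⟩ := Finset.mem_filter.mp he
    have h4 := hc _ _ h2
    have h5 : ¬ c e.2 = true := fun h => h4 (by rw [h3, h])
    simp only [h3, if_true, if_neg h5]
    exact hij
  unfold TPB.ZB
  have h2 : TPB.wt G c A (fun x => if c x = true then i else j) ≤ ∑ σ, TPB.wt G c A σ :=
    Finset.single_le_sum (f := fun σ => TPB.wt G c A σ)
      (fun σ _ => Finset.prod_nonneg fun e _ => hA.nn _ _) (mem_univ _)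
  rw [h1] at h2
  linarith

/-- the two bounds together -/
theorem main_norm (hLab : LabStmt.{u}) (hPol : PolStmt.{u}) (hPen : PenStmt.{u})
    (q : ℕ) (A : Fin q → Fin q → ℝ) (κ : ℝ) (hA : Tgt A κ) :
    ∃ d0 : ℕ, ∀ d ≥ d0, ∃ Lam : ℝ, ∀ ε : ℝ, 0 < ε → ∃ J : ℕ,
    ∀ (V : Type u) [Fintype V] (G : SimpleGraph V) (c : V → Bool), TPB.Prp G c → Rgl G d →
    TreeTo G J → |Real.log (TPB.ZB G c A) - Lam * (Fintype.card V : ℝ)| ≤
      ε * (Fintype.card V : ℝ) := by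
  obtain ⟨C1, c5, ca, cv, CL, hC1, hc5, hca, hcv, hCL, hAcc⟩ := account.{u} q A κ hA
  obtain ⟨i0, _, _⟩ := hA.one
  obtain ⟨cz, hcz, hPol1⟩ := hPol q A κ hA i0 C1 c5 hc5
  obtain ⟨d1, hPol2⟩ := hPol1 cz hcz le_rfl
  obtain ⟨C, d2, hC, hLab1⟩ := hLab (Fintype.card (Ph A)) cz hcz
  obtain ⟨d3, hpar⟩ := params q κ ca cv CL cz C hA.kpos hA.kle hca hcv hCL hcz hC
  refine ⟨max d1 (max d2 d3), fun d hd => ?_⟩
  obtain ⟨Θ, hΘ⟩ := hPol2 d (le_trans (le_max_left _ _) hd)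
  have hLab2 := hLab1 d (le_trans (le_trans (le_max_left _ _) (le_max_right _ _)) hd)
  obtain ⟨hd1, hL1, δ, τF, cp, ε0, e3, t0, ρ, hζ0, hζ1, hδ, hε0, hcp, hτF, hca1, hca2, he3,
    he3', hexp, ht0, ht1, hτ2, hρ, hρ2, hN2⟩ :=
    hpar d (le_trans (le_trans (le_max_right _ _) (le_max_right _ _)) hd)
  refine ⟨(Real.log (mm A) + Θ) / 2, fun ε hε => ?_⟩
  obtain ⟨J1, hJ1⟩ := hΘ (ε / 2) (half_pos hε)
  obtain ⟨J2, hJ2⟩ := hLab2 (ε / 2) (half_pos hε)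
  refine ⟨max J1 J2, fun V _ G c hc hreg hT => ?_⟩
  have hT1 : TreeTo G J1 := fun x y j hj hy => hT x y j (hj.trans (le_max_left _ _)) hy
  have hT2 : TreeTo G J2 := fun x y j hj hy => hT x y j (hj.trans (le_max_right _ _)) hy
  obtain ⟨hP1, hP2⟩ := hJ1 V G c hc hreg hT1
  obtain ⟨hη0, hη1, PL, lm, hPL0, hPL1, hlm, hPL2⟩ := hJ2 V (Ph A) rfl G hreg hT2
  obtain ⟨hW, hB⟩ := hPen V q A G d δ τF ε0 t0 hreg ht0 ht1 hτ2
  have hup : TPB.ZB G c A ≤ Real.exp ((Fintype.card V : ℝ) / 2 * (Real.log (mm A) + Θ)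
      + (ε / 2 + ε / 2) * (Fintype.card V : ℝ)) := by
    refine core_upper hA G c hc d hd1 hreg i0 C1 c5 cv CL (cz / Real.log d) δ τF cp ε0 e3 t0
      (4 * (Real.log d) ^ 3 / (d : ℝ)) Θ (C * (Real.log d) ^ 4 / d) (C * Real.log d) (ε / 2)
      (ε / 2) ρ hc5.le hζ0 hζ1 hδ hcp.le he3.le hCL.le ht0 ht1 hη0 hη1 PL lm hPL0 hPL1 hlm
      (fun l hl => (hPL2 l hl).1) (fun l hl => (hPL2 l hl).2.1)
      (fun l hl => (hPL2 l hl).2.2) (fun lam l h => hP1 δ lam l h) ?_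
      (q * Real.exp (-(τF / 4))) hW hB hρ (by positivity) hρ2 hN2
    intro lam l Rp σ hpos hmin hlam
    obtain ⟨s1, s2, s3⟩ := deepP_sep G d δ lam (DF G d c lam σ)
    exact hAcc V G c d (cz / Real.log d) δ ε0 τF cp e3 lam l Rp (DF G d c lam σ)
      (deepP G d δ lam (DF G d c lam σ)) σ hc hreg hd1 hζ0 hζ1 hδ hε0 hcp hτF hca1 hca2 he3
      he3' hexp hpos hmin hlam rfl s1 s2 s3
  have hZ := ZB_pos hA G c hc
  have hlog := Real.log_le_log hZ hup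
  rw [Real.log_exp] at hlog
  have hn : (0 : ℝ) ≤ (Fintype.card V : ℝ) := Nat.cast_nonneg _
  rw [abs_le]
  constructor
  · nlinarith [hP2]
  · nlinarith [hlog]

end LD
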