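import Pool.Agent.W_5dd92e_ld.GasM
import Pool.Agent.W_5dd92e_ld.GasL
import Pool.Agent.W_5dd92e_ld.Main

/-!
# The polymer part
-/

set_option autoImplicit false

namespace LD

open Finset
open scoped Classical

universe u

theorem pol_stmt : PolStmt.{u} := by
  intro q A κ hA q0 C1 c5 hc5
  have hq1 : 1 ≤ q := Nat.succ_le_of_lt (Nat.lt_of_le_of_lt (Nat.zero_le _) q0.isLt)
  have hq : (0 : ℝ) < q := by exact_mod_cast hq1
  have hκ := hA.kpos
  refine ⟨min (κ / (100 * q)) (c5 / 60), lt_min (by positivity) (by positivity), ?_⟩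
  intro cz hz0 hz
  have hz1 : cz ≤ κ / (100 * q) := hz.trans (min_le_left _ _)
  have hz2 : cz ≤ c5 / 60 := hz.trans (min_le_right _ _)
  refine ⟨max (4096 * q) ⌈2 * (q : ℝ) * Real.exp C1⌉₊, ?_⟩
  intro d hd
  have hd1 : 4096 * q ≤ d := (le_max_left _ _).trans hd
  have hd2 : 2 * (q : ℝ) * Real.exp C1 ≤ d :=
    (Nat.le_ceil _).trans (by exact_mod_cast (le_max_right _ _).trans hd)
  have hd4 : 4096 ≤ d := by nlinarith
  have hd' : (4096 : ℝ) ≤ d := by exact_mod_cast hd4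
  have hd0 : (0 : ℝ) < d := by linarith
  refine ⟨Thet A d q0 (cz / Real.log d), ?_⟩
  intro ε hε
  obtain ⟨k, hk⟩ : ∃ k : ℕ, 1 / (d : ℝ) ^ 12 / (((d : ℝ) + 1) ^ 4) ^ k ≤ ε := by
    obtain ⟨k, hk⟩ := pow_unbounded_of_one_lt (1 / (d : ℝ) ^ 12 / ε) (one_lt_kap (d := d) (by omega))
    refine ⟨k, ?_⟩
    rw [div_lt_iff₀ hε] at hk
    rw [div_le_iff₀ (by positivity)]
    linarith
  refine ⟨2 * k, ?_⟩
  intro V _ G c hc hr hT
  have hV : (0 : ℝ) ≤ Fintype.card V := Nat.cast_nonneg _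
  have hkV := mul_le_mul_of_nonneg_right hk hV
  refine ⟨?_, ?_⟩
  · intro δ lam l hl
    have h1 := pol_upper hA q0 hz0 hz1 hz2 hd1 hd2 (le_refl (2 * k)) G c hc hr hT δ lam l hl
    have h2 : 1 / (d : ℝ) ^ 2 * ((#(Soft G d δ lam) : ℝ) + bb G d l) =
        ((#(Soft G d δ lam) : ℝ) + bb G d l) / (d : ℝ) ^ 2 := by ring
    rw [h2] at h1
    linarith
  · obtain ⟨P, hP⟩ := exists_Thet (A := A) d q0 (cz / Real.log d)
    have h1 := log_XiP_le hA P q0 hz0 hz1 hd1 (le_refl (2 * k)) G c hc hr hT univ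
    have hB : Bdy G (univ : Finset V) = ∅ := by
      rw [Bdy_eq, Finset.filter_eq_empty_iff]
      rintro x _ ⟨y, _, hy⟩
      exact hy (mem_univ y)
    rw [hB, card_empty, Nat.cast_zero, mul_zero, add_zero, hP, card_univ] at h1
    have h2 := log_ZB_ge hA hc (d := d) (by omega) hr q0 (cz / Real.log d) P
    rw [abs_le] at h1
    have h3 := h1.1
    have h4 : (Fintype.card V : ℝ) / 2 *
        (Real.log (mm A) + Thet A d q0 (cz / Real.log d)) =
        (Fintype.card V : ℝ) / 2 * Real.log (mm A) +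
          Thet A d q0 (cz / Real.log d) * ((Fintype.card V : ℝ) / 2) := by ring
    rw [h4]
    linarith

end LD
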