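import Pool.Agent.W_5dd92e_ld.Pen2
import Pool.Agent.W_5dd92e_ld.LsM
import Pool.Agent.W_5dd92e_ld.Pol

/-!
# MP_5dd92e_co, large degree theorem: collection of the blocks
-/

set_option autoImplicit false

namespace LD

universe u

theorem labStmt : LabStmt.{u} := fun N cz hcz => lab_stage.{u, 0} N cz hcz

/-- the statement for normalised targets -/
theorem allMain : MainStmt.{u} := main_stmt labStmt pol_stmt

end LD
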