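import Pool.Agent.W_5dd92e_ld.AccG

/-!
# MP_5dd92e_co, large degree theorem: the deterministic accounting inequality (sections 6 (c), 7, 8)
-/

set_option autoImplicit false
set_option linter.unusedSectionVars false
set_option linter.unusedVariables false

open Finset
open scoped Classical

namespace LD

universe u

section acc
variable {V : Type*} [Fintype V] {q : ℕ} {A : Fin q → Fin q → ℝ}

section ok
variable {X : Ctx V q A} {σ : V → Fin q} {Dd : Finset V} {κ e3 : ℝ}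

lemma w1_le (X : Ctx V q A) {l : V → Option (Ph A)}
    (hl : ∀ x P, X.lam x = some P → l x = some P) :
    ∑ s ∈ (X.Rp \ X.D).filter (fun s => s ∈ X.sol), w1 X s
      ≤ ((WW X.G X.d X.δ X.lam l X.Rp).card : ℝ) := by
  have h1 : ∑ s ∈ (X.Rp \ X.D).filter (fun s => s ∈ X.sol), w1 X s
      = ((((X.Rp \ X.D).filter (fun s => s ∈ X.sol)).sigma (fun s => (nb X.G s).filter
        (fun y => y ∉ X.sol ∨ X.lam y ≠ X.lam s))).card : ℝ) := by
    rw [card_sigma]
    push_cast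
    rfl
  rw [h1]
  norm_cast
  refine card_le_card_of_injOn (fun e => (e.1, e.2)) ?_ ?_
  · intro e he
    rw [mem_coe, mem_sigma] at he
    obtain ⟨h2, h3⟩ := he
    obtain ⟨h4, h5⟩ := mem_filter.mp h3
    obtain ⟨h6, h7⟩ := mem_filter.mp h2
    obtain ⟨h8, h9⟩ := mem_sdiff.mp h6
    have hadj := mem_nb.mp h4
    rw [mem_coe]
    unfold WW
    refine mem_filter.mpr ⟨mem_univ _, h8, hadj, ?_⟩
    rcases h5 with h5 | h5
    · right; left
      unfold Soft
      exact mem_compl.mpr h5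
    · by_cases hy : e.2 ∈ X.sol
      · right; right
        obtain ⟨P, hP⟩ := sol_lam (X := X) h7
        obtain ⟨P', hP'⟩ := sol_lam (X := X) hy
        have e1 := hl _ _ hP
        have e2 := hl _ _ hP'
        simp only
        rw [e1, e2]
        rw [hP, hP'] at h5
        exact fun hc => h5 hc.symm
      · right; left
        unfold Soft
        exact mem_compl.mpr hy
  · intro e _ e' _ hee
    simp only [Prod.mk.injEq] at hee
    obtain ⟨a, b⟩ := e
    obtain ⟨a', b'⟩ := e'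
    simp only at hee
    obtain ⟨rfl, rfl⟩ := hee
    rfl

lemma AOk.rs_le (h : AOk X σ Dd κ e3) (l : V → Option (Ph A)) :
    (X.d : ℝ) * (((X.Rp \ X.D).filter (fun s => s ∉ X.sol)).card : ℝ)
      ≤ ((WW X.G X.d X.δ X.lam l X.Rp).card : ℝ) := by
  have h1 : (X.d : ℝ) * (((X.Rp \ X.D).filter (fun s => s ∉ X.sol)).card : ℝ)
      = ((((X.Rp \ X.D).filter (fun s => s ∉ X.sol)).sigma (fun s => nb X.G s)).card : ℝ) := by
    rw [card_sigma]
    push_cast
    rw [sum_congr rfl fun s _ => by rw [h.reg s], sum_const, nsmul_eq_mul]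
    ring
  rw [h1]
  norm_cast
  refine card_le_card_of_injOn (fun e => (e.1, e.2)) ?_ ?_
  · intro e he
    rw [mem_coe, mem_sigma] at he
    obtain ⟨h2, h3⟩ := he
    obtain ⟨h6, h7⟩ := mem_filter.mp h2
    obtain ⟨h8, h9⟩ := mem_sdiff.mp h6
    have hadj := mem_nb.mp h3
    rw [mem_coe]
    unfold WW
    refine mem_filter.mpr ⟨mem_univ _, h8, hadj, ?_⟩
    left
    unfold Soft
    exact mem_compl.mpr h7
  · intro e _ e' _ hee
    simp only [Prod.mk.injEq] at hee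
    obtain ⟨a, b⟩ := e
    obtain ⟨a', b'⟩ := e'
    simp only at hee
    obtain ⟨rfl, rfl⟩ := hee
    rfl

end ok

/-- the arithmetic of the assembly -/
lemma acc_num (TTt TTf M q e3 Sf k2M dn gt gf gR L Rs d W1 c5 NN cp KNs Df W B CV g zOm bb lq Se : ℝ)
    (hT : TTt ≤ M + 3 * q * e3 * Sf - k2M - ((2 * lq + 8) - 2 * lq) * dn - gt - gR + L * Rs
      + L / d * W1 + c5 * NN + cp * KNs)
    (hF : TTf ≤ M + 3 * q * e3 * Sf - k2M - ((2 * lq + 8) - 2 * lq) * dn - gf - gR + L * Rs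
      + L / d * W1 + c5 * NN + cp * KNs)
    (hDef : Df = k2M + 8 * dn + (gt + gf) / 2 + gR)
    (hduty : cp * KNs ≤ cp * W + cp * d * B + Df / 8)
    (hrel : Se + zOm + bb ≤ CV * Df + Rs) (hns : NN ≤ Df / g + Se)
    (hw1 : W1 ≤ W) (hrs : d * Rs ≤ W) (hdef0 : 0 ≤ Df)
    (hg : 0 < g) (hg1 : g ≤ 1 / 4) (hCV : 1 ≤ CV) (hc50 : 0 < c5) (hc5a : c5 ≤ g / 16)
    (hc5b : c5 ≤ 1 / (8 * CV)) (hd : 0 < d) (hcp : 0 < cp) (hq : 1 ≤ q) (he0 : 0 < e3)
    (hL0 : 0 ≤ L) (hW0 : 0 ≤ W) (hB0 : 0 ≤ B) (hSf0 : 0 ≤ Sf) (hRs0 : 0 ≤ Rs) (hSe0 : 0 ≤ Se)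
    (hOm0 : 0 ≤ zOm) (hbb0 : 0 ≤ bb) :
    (TTt + TTf) / 2 ≤ M - 1 / (2 * CV) * (zOm + bb)
      + (3 * q + 2 * L + 3) * ((1 / d + cp) * W + e3 * Sf + cp * d * B) := by
  have hCV0 : 0 < CV := by linarith
  have hN1 : c5 * NN ≤ Df / 16 + Df / 8 + Rs := by
    have a1 : c5 * NN ≤ c5 * (Df / g) + c5 * Se := by
      have := mul_le_mul_of_nonneg_left hns hc50.le
      linarith
    have a2 : c5 * (Df / g) ≤ Df / 16 := by
      have h1 : 0 ≤ Df / g := div_nonneg hdef0 hg.le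
      have h2 := mul_le_mul_of_nonneg_right hc5a h1
      have h3 : g / 16 * (Df / g) = Df / 16 := by field_simp
      linarith
    have a3 : c5 * Se ≤ Df / 8 + Rs := by
      have h1 : Se ≤ CV * Df + Rs := by linarith
      have h2 := mul_le_mul_of_nonneg_left h1 hc50.le
      have h3 : c5 * (CV * Df) ≤ Df / 8 := by
        have h4 : 0 ≤ CV * Df := mul_nonneg hCV0.le hdef0
        have h5 := mul_le_mul_of_nonneg_right hc5b h4
        have h6 : 1 / (8 * CV) * (CV * Df) = Df / 8 := by field_simp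
        linarith
      have h7 : c5 * Rs ≤ 1 * Rs := mul_le_mul_of_nonneg_right (by linarith) hRs0
      linarith
    linarith
  have hN2 : 1 / (2 * CV) * (zOm + bb) ≤ Df / 2 + Rs := by
    have h1 : zOm + bb ≤ CV * Df + Rs := by linarith
    have h2 := mul_le_mul_of_nonneg_left h1 (show 0 ≤ 1 / (2 * CV) by positivity)
    have h3 : 1 / (2 * CV) * (CV * Df + Rs) = Df / 2 + Rs / (2 * CV) := by
      field_simp
    have h4 : Rs / (2 * CV) ≤ Rs := div_le_self hRs0 (by linarith)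
    linarith
  have hN3 : Rs ≤ 1 / d * W := by
    rw [one_div, inv_mul_eq_div, le_div_iff₀ hd]; linarith
  have hN4 : L / d * W1 ≤ L * (1 / d * W) := by
    have : L / d * W1 ≤ L / d * W := mul_le_mul_of_nonneg_left hw1 (by positivity)
    have e : L / d * W = L * (1 / d * W) := by ring
    linarith
  have hN5 : L * Rs ≤ L * (1 / d * W) := mul_le_mul_of_nonneg_left hN3 hL0
  have hDW : 0 ≤ 1 / d * W := by positivity
  have hcW : 0 ≤ cp * W := by positivity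
  have hcB : 0 ≤ cp * d * B := by positivity
  have heS : 0 ≤ e3 * Sf := by positivity
  have e1 : (3 * q + 2 * L + 3) * ((1 / d + cp) * W + e3 * Sf + cp * d * B)
      = (3 * q + 2 * L + 3) * (1 / d * W) + (3 * q + 2 * L + 3) * (cp * W)
        + (3 * q + 2 * L + 3) * (e3 * Sf) + (3 * q + 2 * L + 3) * (cp * d * B) := by ring
  rw [e1]
  have f1 : (2 * L + 3) * (1 / d * W) ≤ (3 * q + 2 * L + 3) * (1 / d * W) :=
    mul_le_mul_of_nonneg_right (by linarith) hDW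
  have f2 : 1 * (cp * W) ≤ (3 * q + 2 * L + 3) * (cp * W) :=
    mul_le_mul_of_nonneg_right (by linarith) hcW
  have f3 : 3 * q * (e3 * Sf) ≤ (3 * q + 2 * L + 3) * (e3 * Sf) :=
    mul_le_mul_of_nonneg_right (by linarith) heS
  have f4 : 1 * (cp * d * B) ≤ (3 * q + 2 * L + 3) * (cp * d * B) :=
    mul_le_mul_of_nonneg_right (by linarith) hcB
  have e2 : (2 * lq + 8) - 2 * lq = 8 := by ring
  rw [e2] at hT hF
  have e3' : (TTt + TTf) / 2 ≤ M + 3 * q * e3 * Sf - Df + L * Rs + L / d * W1 + c5 * NN + cp * KNs := by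
    linarith
  have e4 : (2 * L + 3) * (1 / d * W) = 2 * (L * (1 / d * W)) + 3 * (1 / d * W) := by ring
  have e5 : 3 * q * e3 * Sf = 3 * q * (e3 * Sf) := by ring
  linarith

/-- ACCOUNT.  The average over the first side `o` of the total vertex cost.  All constants depend only on
the target. -/
theorem account (q : ℕ) (A : Fin q → Fin q → ℝ) (κ : ℝ) (hA : Tgt A κ) :
    ∃ C1 c5 ca cv CL : ℝ, 0 < C1 ∧ 0 < c5 ∧ 0 < ca ∧ 0 < cv ∧ 0 < CL ∧
    ∀ (V : Type u) [Fintype V] (G : SimpleGraph V) (c : V → Bool) (d : ℕ) (ζ δ ε0 τF cp e3 : ℝ)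
      (lam l : V → Option (Ph A)) (Rp D Dd : Finset V) (σ : V → Fin q),
      TPB.Prp G c → TPB.Rgl G d → 1 ≤ d →
      0 < ζ → ζ ≤ 1 / 5 → 0 < δ → 0 < ε0 → 0 < cp → 0 < τF →
      cp * δ * d ≤ ca → cp * ε0 * d ≤ ca → 0 < e3 → e3 ≤ ca →
      (q : ℝ) * Real.exp (-(cp * d)) + q * (1 - κ) ^ τF ≤ e3 →
      (∀ u v, G.Adj u v → 0 < A (σ u) (σ v)) →
      IsMin G (Wr c σ) ζ d l →
      (∀ x P, lam x = some P → l x = some P) →
      D = DF G d c lam σ → Dd ⊆ D → Dd ⊆ DD G d δ lam →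
      (∀ x ∈ Dd, ∀ x' ∈ D \ Dd, ¬ G.Adj x x' ∧ ∀ y, ¬ (G.Adj x y ∧ G.Adj y x')) →
      (TT (A := A) ⟨G, d, c, δ, τF, cp, lam, Rp, true, D⟩ C1 c5 Dd σ
        + TT (A := A) ⟨G, d, c, δ, τF, cp, lam, Rp, false, D⟩ C1 c5 Dd σ) / 2
      ≤ (Fintype.card V : ℝ) / 2 * Real.log (mm A)
        - cv * (ζ * ((Om l).card : ℝ) + bb G d l)
        + CL * ((1 / (d : ℝ) + cp) * ((WW G d δ lam l Rp).card : ℝ)
          + e3 * ((Soft G d δ lam).card : ℝ)
          + cp * d * ((Bad G d δ τF ε0 lam Rp σ).card : ℝ)) := by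
  have hg := g0_pos hA
  obtain ⟨hk, hk1, _⟩ := k0_facts hA
  obtain ⟨hC0, hC1, hC2⟩ := Cq_pos hA
  have hq1 : (1 : ℝ) ≤ q := by exact_mod_cast q_pos hA
  have hlq : 0 ≤ Real.log ((q : ℝ) + 1) := le_trans hC2 hC1
  have hg4 : g0 A κ ≤ 1 / 4 := by
    have : g0 A κ ≤ k0 A / 4 := min_le_left _ _
    linarith
  have hCV : 1 ≤ CV A κ := by
    unfold CV
    have h1 : 0 ≤ 3 / g0 A κ := by positivity
    have h2 : 0 ≤ 4 / k0 A := by positivity
    linarith
  have hCV0 : 0 < CV A κ := by linarith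
  refine ⟨2 * Real.log ((q : ℝ) + 1) + 8, min (g0 A κ / 16) (1 / (8 * CV A κ)),
    min (g0 A κ / (16 * q)) (min (Real.exp (-Cq q)) (1 / (2 * (2 * q + 1)))), 1 / (2 * CV A κ),
    3 * q + 2 * (Real.log (q : ℝ) + Cq q) + 3, by linarith, ?_, ?_, by positivity, by linarith, ?_⟩
  · exact lt_min (by positivity) (by positivity)
  · exact lt_min (by positivity) (lt_min (Real.exp_pos _) (by positivity))
  intro V _ G c d ζ δ ε0 τF cp e3 lam l Rp D Dd σ hprp hreg hd1 hz0 hz1 hδ hε hcp hτ hcd hce he0 he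
    hnum hpos hmin hlam hD hDd1 hDd2 hsep
  set c5 := min (g0 A κ / 16) (1 / (8 * CV A κ)) with hc5
  have hc50 : 0 < c5 := lt_min (by positivity) (by positivity)
  have hc5a : c5 ≤ g0 A κ / 16 := min_le_left _ _
  have hc5b : c5 ≤ 1 / (8 * CV A κ) := min_le_right _ _
  set ca := min (g0 A κ / (16 * q)) (min (Real.exp (-Cq q)) (1 / (2 * (2 * (q : ℝ) + 1)))) with hca
  have hca1 : ca ≤ g0 A κ / (16 * q) := min_le_left _ _
  have hca2 : ca ≤ Real.exp (-Cq q) := (min_le_right _ _).trans (min_le_left _ _)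
  have hca3 : ca ≤ 1 / (2 * (2 * (q : ℝ) + 1)) := (min_le_right _ _).trans (min_le_right _ _)
  have hqca : q * ca ≤ g0 A κ / 16 := by
    have := mul_le_mul_of_nonneg_left hca1 (show (0 : ℝ) ≤ q by linarith)
    have e : (q : ℝ) * (g0 A κ / (16 * q)) = g0 A κ / 16 := by field_simp
    linarith
  set X : Ctx V q A := ⟨G, d, c, δ, τF, cp, lam, Rp, true, D⟩ with hX
  have hd : (0 : ℝ) < d := by exact_mod_cast hd1
  have h : AOk X σ Dd κ e3 := by
    refine ⟨hA, hprp, hreg, hd1, hcp, hτ, he0, hnum, he.trans hca2, ?_, hpos, hD, hDd1, hDd2, hsep⟩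
    have h1 := he.trans hca3
    have h2 : (0 : ℝ) < 2 * q + 1 := by linarith
    rw [le_div_iff₀ (by positivity)] at h1
    linarith
  have hT := (h.o true).sumTT (2 * Real.log ((q : ℝ) + 1) + 8) c5
  have hF := (h.o false).sumTT (2 * Real.log ((q : ℝ) + 1) + 8) c5
  have hrel := h.relab hz0 hz1 hlam hmin
  have hns := h.ns hlam
  have hduty := h.duty (ε0 := ε0) (ca := ca) hε hδ hlam hcd hce hqca
  obtain ⟨hdef1, hdef2, hdef3, hdef0⟩ := h.def_ge
  have hw1 := w1_le X hlam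
  have hrs := h.rs_le l
  have hsum : Def X σ Dd κ = k0 A / (2 * X.d) * M2 X σ + 8 * ((X.D \ Dd).card : ℝ)
      + (∑ s ∈ X.rest, gs (Xo X true) σ Dd κ s + ∑ s ∈ X.rest, gs (Xo X false) σ Dd κ s) / 2
      + ∑ s ∈ (X.Rp \ X.D).filter (fun s => s ∈ X.sol), X.gR Dd κ s := by
    unfold Def gA
    rw [← sum_div, sum_add_distrib]
  exact acc_num _ _ _ _ _ _ _ _ _ _ _ _ _ _ _ _ _ _ _ _ _ _ _ _ _ _ _ _ hT hF hsum hduty hrel hns hw1 hrs
    hdef0 hg hg4 hCV hc50 hc5a hc5b hd hcp hq1 he0 (by linarith) (Nat.cast_nonneg _)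
    (Nat.cast_nonneg _) (Nat.cast_nonneg _) (Nat.cast_nonneg _) (Nat.cast_nonneg _)
    (by positivity) (by unfold bb; exact div_nonneg (Nat.cast_nonneg _) (by linarith))

end acc

end LD
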