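import Pool.Agent.W_5dd92e_ld.Ctx

/-!
# MP_5dd92e_co, large degree theorem, ACCOUNT block (helper7): definitions and standing facts

Paper proof: proofs row 484, sections 6 (c), 7, 8.
-/

set_option autoImplicit false
set_option linter.unusedSectionVars false

open Finset
open scoped Classical

namespace LD

/-! ### Constants -/

/-- `C_q` -/
noncomputable def Cq (q : ℕ) : ℝ := 2 + Real.log ((q : ℝ) + 1)

/-- `kap0` -/
noncomputable def k0 {q : ℕ} (A : Fin q → Fin q → ℝ) : ℝ := -Real.log (1 - 1 / (2 * (mm A : ℝ)))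

/-- `c1` -/
noncomputable def cc1 (q : ℕ) (κ : ℝ) : ℝ := κ / (2 * q)

/-- `g0` -/
noncomputable def g0 {q : ℕ} (A : Fin q → Fin q → ℝ) (κ : ℝ) : ℝ := min (k0 A / 4) (cc1 q κ)

/-- `C_V` -/
noncomputable def CV {q : ℕ} (A : Fin q → Fin q → ℝ) (κ : ℝ) : ℝ := 3 / g0 A κ + 4 / k0 A + 1

/-- `log (k + e3)`, or `-C_q` for `k = 0` -/
noncomputable def lk (q : ℕ) (e3 : ℝ) (k : ℕ) : ℝ := if k = 0 then -Cq q else Real.log ((k : ℝ) + e3)

section acc
variable {V : Type*} [Fintype V] {q : ℕ} {A : Fin q → Fin q → ℝ}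

namespace Ctx

/-- the pattern of the label -/
noncomputable def pS (X : Ctx V q A) (s : V) : Finset (Fin q) :=
  match X.lam s with
    | some P => pat X.c P s
    | none => univ

/-- the share of the edge `sy` in the cost of `s` -/
noncomputable def ell (X : Ctx V q A) (σ : V → Fin q) (e3 : ℝ) (s y : V) : ℝ :=
  if s ∈ X.D ∨ (s ∈ X.sol ∧ (y ∈ X.D ∨ X.pS s ⊆ X.Phi σ y)) then Real.log ((X.pS s).card : ℝ)
  else lk q e3 (if y ∈ X.D then (X.Psi σ s).card else (X.Psi σ s ∩ X.Phi σ y).card)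

/-- the edges of `M` -/
def MM (X : Ctx V q A) (σ : V → Fin q) (s y : V) : Prop :=
  s ∉ X.D ∧ y ∉ X.D ∧ ¬ ∃ P, X.HasPh σ s P ∧ X.HasPh σ y P

/-- the gain (A') of the vertex `s` at its neighbour `y` -/
noncomputable def gn (X : Ctx V q A) (σ : V → Fin q) (Dd : Finset V) (κ : ℝ) (s y : V) : ℝ :=
  if s ∉ X.Nb Dd ∧ (∃ x ∈ X.Rev s, σ x ∉ X.Phi σ s) ∧
    (∃ P, X.HasPh σ s P ∧ (y ∈ X.D ∨ X.HasPh σ y P)) then cc1 q κ else 0

/-- the gain of the vertex `s` of `R+` -/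
noncomputable def gR (X : Ctx V q A) (Dd : Finset V) (κ : ℝ) (s : V) : ℝ :=
  if s ∉ X.Nb Dd ∧ (∃ x ∈ nb X.G s ∩ X.D, X.lam x = X.lam s) then cc1 q κ else 0

end Ctx

/-- the standing facts of the accounting block -/
structure AOk (X : Ctx V q A) (σ : V → Fin q) (Dd : Finset V) (κ e3 : ℝ) : Prop where
  tgt : Tgt A κ
  prp : TPB.Prp X.G X.c
  reg : ∀ x, (nb X.G x).card = X.d
  dpos : 1 ≤ X.d
  cpos : 0 < X.cp
  tpos : 0 < X.τF
  e3pos : 0 < e3
  e3a : (q : ℝ) * Real.exp (-(X.cp * X.d)) + q * (1 - κ) ^ X.τF ≤ e3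
  e3b : e3 ≤ Real.exp (-Cq q)
  e3c : e3 * (2 * q + 1) ≤ 1 / 2
  pos : ∀ u v, X.G.Adj u v → 0 < A (σ u) (σ v)
  dD : X.D = DF X.G X.d X.c X.lam σ
  dsub : Dd ⊆ X.D
  dDD : Dd ⊆ DD X.G X.d X.δ X.lam
  sep : ∀ x ∈ Dd, ∀ x' ∈ X.D \ Dd, ¬ X.G.Adj x x' ∧ ∀ y, ¬ (X.G.Adj x y ∧ X.G.Adj y x')

/-! ### Target facts -/

lemma bic_le {S T : Finset (Fin q)} (h : Bic A S T) : S.card * T.card ≤ mm A := by
  unfold mm
  exact Finset.le_sup (f := fun p : Finset (Fin q) × Finset (Fin q) => p.1.card * p.2.card)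
    (s := univ.filter (fun p : Finset (Fin q) × Finset (Fin q) => Bic A p.1 p.2))
    (b := (S, T)) (by simp [h])

lemma mm_pos {κ : ℝ} (hA : Tgt A κ) : 1 ≤ mm A := by
  obtain ⟨i, j, hij⟩ := hA.one
  have h : Bic A {i} {j} := by
    intro a ha b hb
    simp only [mem_singleton] at ha hb
    subst ha; subst hb; exact hij
  simpa using bic_le h

lemma q_pos {κ : ℝ} (hA : Tgt A κ) : 1 ≤ q := by
  obtain ⟨i, j, hij⟩ := hA.one
  have := i.2
  omega

lemma pat_bic {κ : ℝ} (hA : Tgt A κ) (c : V → Bool) (P : Ph A) (x : V) :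
    Bic A (pat c P x) (patN c P x) := by
  unfold pat patN
  split_ifs
  · exact P.2.1
  · intro i hi j hj
    rw [hA.symm]
    exact P.2.1 j hj i hi

lemma pat_card (c : V → Bool) (P : Ph A) (x : V) :
    (pat c P x).card * (patN c P x).card = mm A := by
  unfold pat patN
  split_ifs
  · exact P.2.2
  · rw [mul_comm]; exact P.2.2

lemma pat_pos {κ : ℝ} (hA : Tgt A κ) (c : V → Bool) (P : Ph A) (x : V) :
    1 ≤ (pat c P x).card ∧ 1 ≤ (patN c P x).card := by
  have h := pat_card c P x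
  have h1 := mm_pos hA
  constructor
  · rcases Nat.eq_zero_or_pos (pat c P x).card with h0 | h0
    · rw [h0] at h; omega
    · exact h0
  · rcases Nat.eq_zero_or_pos (patN c P x).card with h0 | h0
    · rw [h0] at h; omega
    · exact h0

lemma patN_eq {G : SimpleGraph V} {c : V → Bool} (hc : TPB.Prp G c) (P : Ph A) {x y : V}
    (h : G.Adj x y) : patN c P x = pat c P y := by
  have := hc x y h
  unfold pat patN
  cases hx : c x <;> cases hy : c y <;> simp_all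

/-- MAX -/
lemma max_ph {κ : ℝ} (hA : Tgt A κ) (c : V → Bool) (P : Ph A) (x : V) (a : Fin q)
    (ha : a ∉ patN c P x) : ∃ b ∈ pat c P x, A a b ≤ 1 - κ := by
  by_contra hcon
  push Not at hcon
  have h1 : ∀ b ∈ pat c P x, A a b = 1 := by
    intro b hb
    by_contra hne
    exact absurd (hA.gap a b hne) (not_le.mpr (hcon b hb))
  have hb : Bic A (pat c P x) (insert a (patN c P x)) := by
    intro i hi j hj
    rcases mem_insert.mp hj with rfl | hj
    · rw [hA.symm]; exact h1 i hi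
    · exact pat_bic hA c P x i hi j hj
  have h2 := bic_le hb
  rw [card_insert_of_notMem ha] at h2
  have h3 := pat_card c P x
  have h4 := (pat_pos hA c P x).1
  nlinarith

/-- two phases with the same patterns are equal -/
lemma ph_ext (c : V → Bool) (P P' : Ph A) (x : V) (h1 : pat c P x = pat c P' x)
    (h2 : patN c P x = patN c P' x) : P = P' := by
  unfold pat at h1
  unfold patN at h2
  apply Subtype.ext
  split_ifs at h1 h2
  · exact Prod.ext h1 h2
  · exact Prod.ext h2 h1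

/-! ### Standing facts -/

section ok
variable {X : Ctx V q A} {σ : V → Fin q} {Dd : Finset V} {κ e3 : ℝ}

lemma sol_lam {X : Ctx V q A} {y : V} (hy : y ∈ X.sol) : ∃ P, X.lam y = some P := by
  unfold Ctx.sol Sol Khi KK at hy
  simp only [mem_filter, mem_univ, true_and] at hy
  exact Option.ne_none_iff_exists'.mp hy.1.1

lemma sol_khi {X : Ctx V q A} {y : V} (hy : y ∈ X.sol) : y ∈ Khi X.G X.d X.lam := by
  unfold Ctx.sol Sol at hy
  exact (mem_filter.mp hy).1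

lemma AOk.good (h : AOk X σ Dd κ e3) {y : V} {P : Ph A} (hy : y ∈ X.sol) (hD : y ∉ X.D)
    (hP : X.lam y = some P) : σ y ∈ pat X.c P y := by
  by_contra hcon
  apply hD
  rw [h.dD]
  unfold DF
  exact mem_filter.mpr ⟨sol_khi hy, P, hP, hcon⟩

lemma AOk.wrong (h : AOk X σ Dd κ e3) {x : V} (hx : x ∈ X.D) :
    ∃ P, X.lam x = some P ∧ σ x ∉ pat X.c P x := by
  rw [h.dD] at hx
  unfold DF at hx
  obtain ⟨_, P, hP, hw⟩ := mem_filter.mp hx
  exact ⟨P, hP, hw⟩

lemma Phi_sol {X : Ctx V q A} {σ : V → Fin q} {y : V} {P : Ph A} (hy : y ∈ X.sol)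
    (hP : X.lam y = some P) : X.Phi σ y = patN X.c P y := by
  unfold Ctx.Phi; rw [if_pos hy, hP]

lemma Psi_sol {X : Ctx V q A} {σ : V → Fin q} {y : V} {P : Ph A} (hy : y ∈ X.sol)
    (hP : X.lam y = some P) : X.Psi σ y = pat X.c P y := by
  unfold Ctx.Psi; rw [if_pos hy, hP]

lemma base_sol {X : Ctx V q A} {y : V} {P : Ph A} (hy : y ∈ X.sol)
    (hP : X.lam y = some P) : X.base y = pat X.c P y := by
  unfold Ctx.base; rw [if_pos hy, hP]

lemma pS_eq {X : Ctx V q A} {y : V} {P : Ph A} (hP : X.lam y = some P) :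
    X.pS y = pat X.c P y := by
  unfold Ctx.pS; rw [hP]

lemma Phi_soft {X : Ctx V q A} {σ : V → Fin q} {y : V} (hy : y ∉ X.sol) :
    X.Phi σ y = X.F σ y := by
  unfold Ctx.Phi; rw [if_neg hy]

lemma Psi_soft {X : Ctx V q A} {σ : V → Fin q} {y : V} (hy : y ∉ X.sol) :
    X.Psi σ y = perp A (X.F σ y) := by
  unfold Ctx.Psi; rw [if_neg hy]

lemma base_soft {X : Ctx V q A} {y : V} (hy : y ∉ X.sol) : X.base y = univ := by
  unfold Ctx.base; rw [if_neg hy]

/-- the declared patterns form a biclique -/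
lemma Psi_bic (hA : Tgt A κ) (X : Ctx V q A) (σ : V → Fin q) (y : V) :
    Bic A (X.Psi σ y) (X.Phi σ y) := by
  by_cases hy : y ∈ X.sol
  · obtain ⟨P, hP⟩ := sol_lam hy
    rw [Psi_sol hy hP, Phi_sol hy hP]
    exact pat_bic hA _ _ _
  · rw [Psi_soft hy, Phi_soft hy]
    intro i hi j hj
    unfold perp at hi
    exact (mem_filter.mp hi).2 j hj

/-- a vertex of `Sol` has the phase given by its label -/
lemma hasPh_sol {X : Ctx V q A} {σ : V → Fin q} {y : V} {P : Ph A} (hy : y ∈ X.sol)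
    (hP : X.lam y = some P) : X.HasPh σ y P := ⟨Psi_sol hy hP, Phi_sol hy hP⟩

/-- the phase is unique -/
lemma hasPh_uniq {X : Ctx V q A} {σ : V → Fin q} {y : V} {P P' : Ph A} (h : X.HasPh σ y P)
    (h' : X.HasPh σ y P') : P = P' :=
  ph_ext X.c P P' y (h.1.symm.trans h'.1) (h.2.symm.trans h'.2)

/-- facts about the neighbours of deep defects -/
lemma AOk.deep (h : AOk X σ Dd κ e3) {x : V} (hx : x ∈ Dd) :
    x ∈ X.sol ∧ ∀ y, X.G.Adj x y → y ∈ X.sol ∧ X.lam y = X.lam x ∧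
      ∀ z, X.G.Adj y z → z ∈ X.sol ∧ X.lam z = X.lam x := by
  have h1 := h.dDD hx
  unfold DD at h1
  obtain ⟨h2, h3⟩ := mem_filter.mp h1
  unfold Dp at h2
  obtain ⟨h4, h5⟩ := mem_filter.mp h2
  refine ⟨h4, fun y hy => ?_⟩
  have h6 := h5 y hy
  refine ⟨h6.1, h6.2, fun z hz => ?_⟩
  have h7 := h3 y hy
  unfold Dp at h7
  have h8 := (mem_filter.mp h7).2 z hz
  exact ⟨h8.1, h8.2.trans h6.2⟩

/-- the defects next to a neighbour of a deep defect are deep -/
lemma AOk.nbdeep (h : AOk X σ Dd κ e3) {y x' : V} (hy : y ∈ X.Nb Dd) (hx' : x' ∈ X.D)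
    (hadj : X.G.Adj y x') : x' ∈ Dd := by
  by_contra hcon
  unfold Ctx.Nb at hy
  obtain ⟨x, hx, hxy⟩ := mem_biUnion.mp hy
  exact (h.sep x hx x' (mem_sdiff.mpr ⟨hx', hcon⟩)).2 y ⟨mem_nb.mp hxy, hadj⟩

/-- neighbours of deep defects are in `Sol`, with all their neighbours in `Sol` with the same label -/
lemma AOk.nbsol (h : AOk X σ Dd κ e3) {y : V} (hy : y ∈ X.Nb Dd) :
    y ∈ X.sol ∧ ∀ z, X.G.Adj y z → z ∈ X.sol ∧ X.lam z = X.lam y := by
  unfold Ctx.Nb at hy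
  obtain ⟨x, hx, hxy⟩ := mem_biUnion.mp hy
  have h1 := (h.deep hx).2 y (mem_nb.mp hxy)
  refine ⟨h1.1, fun z hz => ?_⟩
  have h2 := h1.2.2 z hz
  exact ⟨h2.1, h2.2.trans h1.2.1.symm⟩

end ok
end acc

end LD
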