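import Pool.Agent.W_5dd92e_ld.AccA

/-!
# MP_5dd92e_co, large degree theorem, ACCOUNT block (helper7): Hölder, (A), (A'), (A'')
-/

set_option autoImplicit false
set_option linter.unusedSectionVars false
set_option linter.unusedVariables false

open Finset
open scoped Classical

namespace LD

/-- Hölder in the form of a weighted geometric mean -/
lemma holder_aux {α : Type*} {V : Type*} (T : Finset α) (N : Finset V) (d : ℕ) (hd : N.card = d)
    (h1 : 1 ≤ d) (g : α → ℝ) (hg : ∀ a ∈ T, 0 ≤ g a) (cp : ℝ) (B : V → α → Prop) (e : V → ℝ)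
    (he : ∀ y ∈ N, ∑ a ∈ T, g a * Real.exp (-(cp * d * (if B y a then 1 else 0)))
      ≤ Real.exp (e y)) :
    ∑ a ∈ T, g a * Real.exp (-(cp * ((N.filter (fun y => B y a)).card : ℝ)))
      ≤ Real.exp ((∑ y ∈ N, e y) / d) := by
  have hd0 : (0 : ℝ) < d := by exact_mod_cast h1
  have key : ∀ a, Real.exp (-(cp * ((N.filter (fun y => B y a)).card : ℝ)) - (∑ y ∈ N, e y) / d)
      ≤ ∑ y ∈ N, (1 / (d : ℝ)) * (Real.exp (-(cp * d * (if B y a then 1 else 0))) * Real.exp (-e y)) := by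
    intro a
    have hj := convexOn_exp.map_sum_le (t := N) (w := fun _ => 1 / (d : ℝ))
      (p := fun y => -(cp * d * (if B y a then 1 else 0)) - e y)
      (by intro i _; positivity)
      (by rw [sum_const, hd, nsmul_eq_mul]; field_simp)
      (by intro i _; exact Set.mem_univ _)
    simp only [smul_eq_mul] at hj
    have e1 : ∑ y ∈ N, 1 / (d : ℝ) * (-(cp * d * (if B y a then 1 else 0)) - e y)
        = -(cp * ((N.filter (fun y => B y a)).card : ℝ)) - (∑ y ∈ N, e y) / d := by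
      rw [← mul_sum, sum_sub_distrib, sum_neg_distrib, ← mul_sum, sum_boole]
      field_simp
    rw [e1] at hj
    refine hj.trans (le_of_eq ?_)
    refine sum_congr rfl fun y _ => ?_
    rw [sub_eq_add_neg, Real.exp_add]
  have h2 : ∑ a ∈ T, g a * Real.exp (-(cp * ((N.filter (fun y => B y a)).card : ℝ))
      - (∑ y ∈ N, e y) / d) ≤ 1 := by
    calc ∑ a ∈ T, g a * Real.exp (-(cp * ((N.filter (fun y => B y a)).card : ℝ))
          - (∑ y ∈ N, e y) / d)
        ≤ ∑ a ∈ T, g a * ∑ y ∈ N, (1 / (d : ℝ)) *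
            (Real.exp (-(cp * d * (if B y a then 1 else 0))) * Real.exp (-e y)) := by
          refine sum_le_sum fun a ha => ?_
          exact mul_le_mul_of_nonneg_left (key a) (hg a ha)
      _ = ∑ y ∈ N, (1 / (d : ℝ)) * Real.exp (-e y) *
            ∑ a ∈ T, g a * Real.exp (-(cp * d * (if B y a then 1 else 0))) := by
          simp only [mul_sum]
          rw [sum_comm]
          refine sum_congr rfl fun y _ => sum_congr rfl fun a _ => ?_
          ring
      _ ≤ ∑ y ∈ N, (1 / (d : ℝ)) * Real.exp (-e y) * Real.exp (e y) := by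
          refine sum_le_sum fun y hy => ?_
          exact mul_le_mul_of_nonneg_left (he y hy) (by positivity)
      _ = 1 := by
          have : ∀ y ∈ N, (1 / (d : ℝ)) * Real.exp (-e y) * Real.exp (e y) = 1 / d := by
            intro y _
            rw [mul_assoc, ← Real.exp_add]
            simp
          rw [sum_congr rfl this, sum_const, hd, nsmul_eq_mul]
          field_simp
  have h3 : ∑ a ∈ T, g a * Real.exp (-(cp * ((N.filter (fun y => B y a)).card : ℝ)))
      = Real.exp ((∑ y ∈ N, e y) / d) * ∑ a ∈ T, g a *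
        Real.exp (-(cp * ((N.filter (fun y => B y a)).card : ℝ)) - (∑ y ∈ N, e y) / d) := by
    rw [mul_sum]
    refine sum_congr rfl fun a _ => ?_
    rw [sub_eq_add_neg, Real.exp_add, Real.exp_neg ((∑ y ∈ N, e y) / d)]
    have := Real.exp_pos ((∑ y ∈ N, e y) / d)
    field_simp
  rw [h3]
  have := Real.exp_pos ((∑ y ∈ N, e y) / d)
  nlinarith

/-- products of numbers in `[0, 1]` over larger sets are smaller -/
lemma prod_anti {V : Type*} {S T : Finset V} (hST : S ⊆ T) (f : V → ℝ) (h0 : ∀ x, 0 ≤ f x)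
    (h1 : ∀ x, f x ≤ 1) : ∏ x ∈ T, f x ≤ ∏ x ∈ S, f x := by
  rw [← prod_sdiff hST]
  have a1 : ∏ x ∈ T \ S, f x ≤ 1 := prod_le_one (fun x _ => h0 x) (fun x _ => h1 x)
  have a2 : 0 ≤ ∏ x ∈ S, f x := prod_nonneg (fun x _ => h0 x)
  nlinarith

section acc
variable {V : Type*} [Fintype V] {q : ℕ} {A : Fin q → Fin q → ℝ}

section ok
variable {X : Ctx V q A} {σ : V → Fin q} {Dd : Finset V} {κ e3 : ℝ}

lemma rev_sub {X : Ctx V q A} {s : V} : nb X.G s ∩ (X.D ∪ X.Rp) ⊆ X.Rev s := by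
  unfold Ctx.Rev
  split_ifs
  · exact subset_rfl
  · exact inter_subset_left

lemma rev_nb {X : Ctx V q A} {s : V} : X.Rev s ⊆ nb X.G s := by
  unfold Ctx.Rev
  split_ifs
  · exact inter_subset_left
  · exact subset_rfl

/-- the weight of the known edges -/
noncomputable def gq (X : Ctx V q A) (σ : V → Fin q) (s : V) (a : Fin q) : ℝ :=
  ∏ x ∈ X.Rev s, A (σ x) a

lemma gq_nn (hA : Tgt A κ) (s : V) (a : Fin q) : 0 ≤ gq X σ s a :=
  prod_nonneg (fun x _ => hA.nn _ _)

lemma gq_le1 (hA : Tgt A κ) (s : V) (a : Fin q) : gq X σ s a ≤ 1 :=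
  prod_le_one (fun x _ => hA.nn _ _) (fun x _ => hA.le1 _ _)

lemma gq_le (hA : Tgt A κ) {s x : V} (hx : x ∈ X.Rev s) (a : Fin q) : gq X σ s a ≤ A (σ x) a := by
  have := prod_anti (S := {x}) (T := X.Rev s) (by simpa using hx) (fun x => A (σ x) a)
    (fun x => hA.nn _ _) (fun x => hA.le1 _ _)
  simpa [gq] using this

/-- colours outside `Psi` have a small weight at a soft vertex -/
lemma AOk.gq_soft (h : AOk X σ Dd κ e3) {s : V} {a : Fin q} (ha : a ∉ perp A (X.F σ s)) :
    gq X σ s a ≤ (1 - κ) ^ X.τF := by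
  have hA := h.tgt
  unfold perp at ha
  simp only [mem_filter, mem_univ, true_and] at ha
  push Not at ha
  obtain ⟨j, hj, hne⟩ := ha
  have hle : A j a ≤ 1 - κ := by
    rw [hA.symm]; exact hA.gap a j hne
  unfold Ctx.F at hj
  have hj' := (mem_filter.mp hj).2
  have hsub : (nb X.G s ∩ X.Rp).filter (fun x => σ x = j) ⊆ X.Rev s := by
    intro x hx
    have hx1 := (mem_filter.mp hx).1
    apply rev_sub
    rw [mem_inter] at hx1 ⊢
    exact ⟨hx1.1, mem_union_right _ hx1.2⟩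
  have h1 := prod_anti hsub (fun x => A (σ x) a) (fun x => hA.nn _ _) (fun x => hA.le1 _ _)
  have h2 : ∏ x ∈ (nb X.G s ∩ X.Rp).filter (fun x => σ x = j), A (σ x) a
      = (A j a) ^ ((nb X.G s ∩ X.Rp).filter (fun x => σ x = j)).card := by
    rw [← prod_const]
    refine prod_congr rfl fun x hx => ?_
    rw [(mem_filter.mp hx).2]
  have h3 : (A j a) ^ ((nb X.G s ∩ X.Rp).filter (fun x => σ x = j)).card
      ≤ (1 - κ) ^ ((nb X.G s ∩ X.Rp).filter (fun x => σ x = j)).card :=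
    pow_le_pow_left₀ (hA.nn _ _) hle _
  have h4 : (1 - κ) ^ ((nb X.G s ∩ X.Rp).filter (fun x => σ x = j)).card ≤ (1 - κ) ^ X.τF := by
    rw [← Real.rpow_natCast]
    apply Real.rpow_le_rpow_of_exponent_ge'
    · linarith [hA.kle]
    · linarith [hA.kpos]
    · exact h.tpos.le
    · exact hj'
  calc gq X σ s a = ∏ x ∈ X.Rev s, A (σ x) a := rfl
    _ ≤ _ := h1
    _ = _ := h2
    _ ≤ _ := h3
    _ ≤ _ := h4

lemma AOk.sol_notmem_rest (_h : AOk X σ Dd κ e3) {s : V} (hs : s ∈ X.rest) :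
    s ∉ X.D ∧ s ∉ X.Rp := by
  unfold Ctx.rest at hs
  simp only [mem_sdiff, mem_univ, mem_union, not_or, true_and] at hs
  exact hs

/-- the gain -/
lemma AOk.gain (h : AOk X σ Dd κ e3) {s x : V} {P : Ph A} {W : Finset (Fin q)}
    (hx : x ∈ X.Rev s) (hxs : σ x ∉ patN X.c P s) (hW : W = pat X.c P s) :
    ∑ a ∈ W, gq X σ s a ≤ (W.card : ℝ) - κ := by
  have hA := h.tgt
  obtain ⟨b, hb, hb2⟩ := max_ph hA X.c P s (σ x) hxs
  rw [← hW] at hb
  rw [← add_sum_erase W _ hb]
  have h1 : gq X σ s b ≤ 1 - κ := (gq_le hA hx b).trans hb2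
  have h2 : ∑ a ∈ W.erase b, gq X σ s a ≤ ((W.erase b).card : ℝ) := by
    calc ∑ a ∈ W.erase b, gq X σ s a ≤ ∑ _a ∈ W.erase b, (1 : ℝ) :=
          sum_le_sum fun a _ => gq_le1 hA s a
      _ = ((W.erase b).card : ℝ) := by simp
  have h3 : (((W.erase b).card : ℕ) : ℝ) = (W.card : ℝ) - 1 := by
    rw [card_erase_of_mem hb, Nat.cast_sub (card_pos.mpr ⟨b, hb⟩)]
    simp
  linarith

lemma AOk.nogain (h : AOk X σ Dd κ e3) (s : V) (W : Finset (Fin q)) :
    ∑ a ∈ W, gq X σ s a ≤ (W.card : ℝ) := by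
  calc ∑ a ∈ W, gq X σ s a ≤ ∑ _a ∈ W, (1 : ℝ) :=
        sum_le_sum fun a _ => gq_le1 h.tgt s a
    _ = (W.card : ℝ) := by simp

/-- the set of good colours for the pair `s, y` -/
noncomputable def WS (X : Ctx V q A) (σ : V → Fin q) (s y : V) : Finset (Fin q) :=
  if y ∈ X.D then X.Psi σ s else X.Psi σ s ∩ X.Phi σ y

/-- sum over the good colours, with the gain -/
lemma AOk.wsum (h : AOk X σ Dd κ e3) {s y : V} (hy : X.G.Adj s y) :
    (∑ a ∈ WS X σ s y, gq X σ s a ≤ ((WS X σ s y).card : ℝ)) ∧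
    (X.gn σ Dd κ s y ≠ 0 → 1 ≤ (WS X σ s y).card ∧
      ∑ a ∈ WS X σ s y, gq X σ s a ≤ ((WS X σ s y).card : ℝ) - κ) := by
  refine ⟨h.nogain s _, fun hg => ?_⟩
  have hA := h.tgt
  unfold Ctx.gn at hg
  have hc : s ∉ X.Nb Dd ∧ (∃ x ∈ X.Rev s, σ x ∉ X.Phi σ s) ∧
    (∃ P, X.HasPh σ s P ∧ (y ∈ X.D ∨ X.HasPh σ y P)) := by
    by_contra hcon
    rw [if_neg hcon] at hg
    exact hg rfl
  obtain ⟨_, ⟨x, hx, hxs⟩, P, hP, hyP⟩ := hc
  have hW : WS X σ s y = pat X.c P s := by
    unfold WS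
    rcases hyP with hyD | hyP
    · rw [if_pos hyD]; exact hP.1
    · have e1 : X.Phi σ y = pat X.c P s := by
        rw [hyP.2]; exact patN_eq h.prp P hy.symm
      rw [e1, hP.1]
      split_ifs
      · rfl
      · exact inter_self _
  rw [hP.2] at hxs
  refine ⟨?_, h.gain hx hxs hW⟩
  rw [hW]; exact (pat_pos hA X.c P s).1

lemma gn_cases (X : Ctx V q A) (σ : V → Fin q) (Dd : Finset V) (κ : ℝ) (s y : V) :
    X.gn σ Dd κ s y = 0 ∨ X.gn σ Dd κ s y = cc1 q κ := by
  unfold Ctx.gn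
  split_ifs
  · right; rfl
  · left; rfl

lemma cc1_pos {κ : ℝ} (hA : Tgt A κ) : 0 < cc1 q κ := by
  have h1 := q_pos hA
  have h2 : (0 : ℝ) < q := by exact_mod_cast h1
  unfold cc1
  have := hA.kpos
  positivity

/-- numerical end of (A), (A') without `e3` -/
lemma AOk.num1 (h : AOk X σ Dd κ e3) {k : ℕ} {S g : ℝ} (hk : 1 ≤ k) (hkq : k ≤ q)
    (hg : g = 0 ∨ g = cc1 q κ) (h1 : S ≤ k) (h2 : g ≠ 0 → S ≤ k - κ) :
    S ≤ Real.exp (Real.log (k : ℝ) - g) := by
  have hk' : (1 : ℝ) ≤ k := by exact_mod_cast hk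
  have hkq' : (k : ℝ) ≤ q := by exact_mod_cast hkq
  have hA := h.tgt
  have hq : (0 : ℝ) < q := by linarith
  rw [Real.exp_sub, Real.exp_log (by linarith), div_eq_mul_inv, ← Real.exp_neg]
  rcases hg with h0 | hc
  · rw [h0]; simpa using h1
  · have hne : g ≠ 0 := by rw [hc]; exact (cc1_pos hA).ne'
    have h3 := h2 hne
    have h4 := Real.add_one_le_exp (-g)
    have h5 : (k : ℝ) * g ≤ κ / 2 := by
      rw [hc]; unfold cc1
      rw [mul_div_assoc', div_le_iff₀ (by positivity)]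
      have := hA.kpos
      nlinarith
    have := hA.kpos
    nlinarith

/-- numerical end of (A), (A') with `e3` -/
lemma AOk.num2 (h : AOk X σ Dd κ e3) {k : ℕ} {S g : ℝ} (hkq : k ≤ q)
    (hg : g = 0 ∨ g = cc1 q κ) (h1 : S ≤ k + e3) (h2 : g ≠ 0 → 1 ≤ k ∧ S ≤ k - κ + e3) :
    S ≤ Real.exp (lk q e3 k - g) := by
  have hkq' : (k : ℝ) ≤ q := by exact_mod_cast hkq
  have hA := h.tgt
  have hq1 : (1 : ℝ) ≤ q := by exact_mod_cast q_pos hA
  have he := h.e3pos
  have hκ := hA.kpos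
  unfold lk
  by_cases hk : k = 0
  · rw [if_pos hk]
    rcases hg with h0 | hc
    · rw [h0, sub_zero]
      rw [hk] at h1
      have := h.e3b
      simp at h1
      linarith
    · have hne : g ≠ 0 := by rw [hc]; exact (cc1_pos hA).ne'
      have := (h2 hne).1
      omega
  · rw [if_neg hk]
    have hk' : (1 : ℝ) ≤ k := by exact_mod_cast Nat.one_le_iff_ne_zero.mpr hk
    rw [Real.exp_sub, Real.exp_log (by linarith), div_eq_mul_inv, ← Real.exp_neg]
    rcases hg with h0 | hc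
    · rw [h0]; simpa using h1
    · have hne : g ≠ 0 := by rw [hc]; exact (cc1_pos hA).ne'
      have h3 := (h2 hne).2
      have h4 := Real.add_one_le_exp (-g)
      have he2 : e3 ≤ 1 / 2 := by
        have := h.e3c
        nlinarith
      have h5 : ((k : ℝ) + e3) * g ≤ κ := by
        rw [hc]; unfold cc1
        rw [mul_div_assoc', div_le_iff₀ (by positivity)]
        nlinarith
      nlinarith

/-- the factor of the neighbour `y` -/
lemma AOk.fac (h : AOk X σ Dd κ e3) {s y : V} (hs : s ∈ X.rest) (hy : X.G.Adj s y) :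
    ∑ a ∈ X.base s, gq X σ s a *
      Real.exp (-(X.cp * X.d * (if y ∉ X.D ∧ a ∉ X.Phi σ y then 1 else 0)))
      ≤ Real.exp (X.ell σ e3 s y - X.gn σ Dd κ s y) := by
  have hA := h.tgt
  have hcp := h.cpos
  obtain ⟨hsD, hsR⟩ := h.sol_notmem_rest hs
  obtain ⟨w1, w2⟩ := h.wsum hy
  have hq1 : (1 : ℝ) ≤ q := by exact_mod_cast q_pos hA
  have hkq : ∀ S : Finset (Fin q), S.card ≤ q := fun S => by
    simpa using card_le_univ S
  have hκ1 := hA.kle
  have hexp1 : ∀ a, Real.exp (-(X.cp * X.d * (if y ∉ X.D ∧ a ∉ X.Phi σ y then 1 else 0))) ≤ 1 := by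
    intro a
    rw [Real.exp_le_one_iff]
    have : (0 : ℝ) ≤ (if y ∉ X.D ∧ a ∉ X.Phi σ y then 1 else 0) := by split_ifs <;> norm_num
    have h2 : 0 ≤ X.cp * X.d * (if y ∉ X.D ∧ a ∉ X.Phi σ y then 1 else 0) := by positivity
    linarith
  -- splitting of the sum over the base
  have split : ∀ B : Finset (Fin q), ∀ t : ℝ, 0 ≤ t → WS X σ s y ⊆ B →
      (∀ a ∈ B, a ∉ X.Psi σ s → gq X σ s a ≤ t) →
      ∑ a ∈ B, gq X σ s a *
        Real.exp (-(X.cp * X.d * (if y ∉ X.D ∧ a ∉ X.Phi σ y then 1 else 0)))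
      ≤ ∑ a ∈ WS X σ s y, gq X σ s a + (q * Real.exp (-(X.cp * X.d)) + q * t) := by
    intro B t ht hWB hBt
    rw [← sum_sdiff hWB]
    have e1 : ∑ a ∈ WS X σ s y, gq X σ s a *
        Real.exp (-(X.cp * X.d * (if y ∉ X.D ∧ a ∉ X.Phi σ y then 1 else 0)))
        ≤ ∑ a ∈ WS X σ s y, gq X σ s a := by
      refine sum_le_sum fun a _ => ?_
      have := gq_nn (X := X) (σ := σ) hA s a
      have := hexp1 a
      nlinarith
    have e2 : ∑ a ∈ B \ WS X σ s y, gq X σ s a *
        Real.exp (-(X.cp * X.d * (if y ∉ X.D ∧ a ∉ X.Phi σ y then 1 else 0)))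
        ≤ ∑ _a ∈ B \ WS X σ s y, (Real.exp (-(X.cp * X.d)) + t) := by
      refine sum_le_sum fun a ha => ?_
      rw [mem_sdiff] at ha
      have g1 := gq_nn (X := X) (σ := σ) hA s a
      have g2 := gq_le1 (X := X) (σ := σ) hA s a
      by_cases haP : a ∈ X.Psi σ s
      · have hyD : y ∉ X.D := by
          intro hyD
          apply ha.2
          unfold WS; rw [if_pos hyD]; exact haP
        have haPhi : a ∉ X.Phi σ y := by
          intro haPhi
          apply ha.2
          unfold WS; rw [if_neg hyD]; exact mem_inter.mpr ⟨haP, haPhi⟩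
        rw [if_pos ⟨hyD, haPhi⟩, mul_one]
        have := Real.exp_pos (-(X.cp * X.d))
        nlinarith
      · have h3 := hBt a ha.1 haP
        have h4 := hexp1 a
        have h5 := Real.exp_pos (-(X.cp * X.d))
        have h6 := Real.exp_pos (-(X.cp * X.d * (if y ∉ X.D ∧ a ∉ X.Phi σ y then (1 : ℝ) else 0)))
        nlinarith
    have e3' : ∑ _a ∈ B \ WS X σ s y, (Real.exp (-(X.cp * X.d)) + t)
        ≤ q * Real.exp (-(X.cp * X.d)) + q * t := by
      rw [sum_const, nsmul_eq_mul, ← mul_add]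
      have : (((B \ WS X σ s y).card : ℕ) : ℝ) ≤ q := by exact_mod_cast hkq _
      have := Real.exp_pos (-(X.cp * X.d))
      apply mul_le_mul_of_nonneg_right ‹_›
      linarith
    linarith
  have hgc := gn_cases X σ Dd κ s y
  by_cases hsol : s ∈ X.sol
  · obtain ⟨P, hP⟩ := sol_lam hsol
    have hPsi : X.Psi σ s = pat X.c P s := Psi_sol hsol hP
    have hbase : X.base s = pat X.c P s := base_sol hsol hP
    by_cases hfull : y ∈ X.D ∨ X.pS s ⊆ X.Phi σ y
    · have hW : WS X σ s y = pat X.c P s := by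
        unfold WS
        by_cases hyD : y ∈ X.D
        · rw [if_pos hyD, hPsi]
        · rw [if_neg hyD, hPsi]
          rcases hfull with h1 | h1
          · exact absurd h1 hyD
          · rw [pS_eq hP] at h1
            exact inter_eq_left.mpr h1
      have hell : X.ell σ e3 s y = Real.log ((pat X.c P s).card : ℝ) := by
        unfold Ctx.ell
        rw [if_pos (Or.inr ⟨hsol, hfull⟩), pS_eq hP]
      rw [hell, hbase, ← hW]
      refine h.num1 (by rw [hW]; exact (pat_pos hA _ _ _).1) (hkq _) hgc ?_ ?_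
      · refine le_trans ?_ w1
        refine sum_le_sum fun a _ => ?_
        have := gq_nn (X := X) (σ := σ) hA s a
        have := hexp1 a
        nlinarith
      · intro hg
        refine le_trans ?_ (w2 hg).2
        refine sum_le_sum fun a _ => ?_
        have := gq_nn (X := X) (σ := σ) hA s a
        have := hexp1 a
        nlinarith
    · push Not at hfull
      obtain ⟨hyD, hns⟩ := hfull
      have hW : (X.Psi σ s ∩ X.Phi σ y) = WS X σ s y := by
        unfold WS; rw [if_neg hyD]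
      have hell : X.ell σ e3 s y = lk q e3 (WS X σ s y).card := by
        unfold Ctx.ell
        rw [if_neg, if_neg hyD, hW]
        rintro (h1 | ⟨_, h1 | h1⟩)
        · exact hsD h1
        · exact hyD h1
        · exact hns h1
      rw [hell, hbase]
      have hsp := split (pat X.c P s) 0 le_rfl
        (by rw [← hW, hPsi]; exact inter_subset_left)
        (by intro a ha ha2; rw [hPsi] at ha2; exact absurd ha ha2)
      have hk0 : 0 ≤ (q : ℝ) * (1 - κ) ^ X.τF := by
        have : 0 ≤ (1 - κ) ^ X.τF := Real.rpow_nonneg (by linarith) _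
        positivity
      have := h.e3a
      refine h.num2 (hkq _) hgc ?_ ?_
      · linarith
      · intro hg
        refine ⟨(w2 hg).1, ?_⟩
        have := (w2 hg).2
        linarith
  · have hPsi : X.Psi σ s = perp A (X.F σ s) := Psi_soft hsol
    have hbase : X.base s = univ := base_soft hsol
    have hell : X.ell σ e3 s y = lk q e3 (WS X σ s y).card := by
      unfold Ctx.ell
      rw [if_neg]
      · unfold WS
        split_ifs <;> rfl
      · rintro (h1 | ⟨h1, _⟩)
        · exact hsD h1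
        · exact hsol h1
    rw [hell, hbase]
    have hsp := split univ ((1 - κ) ^ X.τF) (Real.rpow_nonneg (by linarith) _)
      (subset_univ _)
      (by intro a _ ha2; rw [hPsi] at ha2; exact h.gq_soft ha2)
    have := h.e3a
    refine h.num2 (hkq _) hgc ?_ ?_
    · linarith
    · intro hg
      refine ⟨(w2 hg).1, ?_⟩
      have := (w2 hg).2
      linarith

/-- the normalising sum as a sum over the base -/
lemma ZZ_eq (X : Ctx V q A) (σ : V → Fin q) (s : V) :
    X.ZZ σ s = ∑ a ∈ X.base s, gq X σ s a * Real.exp (-(X.cp * (X.KN σ s a : ℝ))) := by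
  unfold Ctx.ZZ Ctx.fw gq
  rw [← sum_filter]
  refine sum_congr ?_ fun a _ => rfl
  ext a; simp

lemma AOk.ZZ_pos (h : AOk X σ Dd κ e3) {s : V} (hs : s ∈ X.rest) : 0 < X.ZZ σ s := by
  obtain ⟨hsD, hsR⟩ := h.sol_notmem_rest hs
  have hA := h.tgt
  rw [ZZ_eq]
  have hmem : σ s ∈ X.base s := by
    by_cases hsol : s ∈ X.sol
    · obtain ⟨P, hP⟩ := sol_lam hsol
      rw [base_sol hsol hP]
      exact h.good hsol hsD hP
    · rw [base_soft hsol]; exact mem_univ _
  refine sum_pos' (fun a _ => mul_nonneg (gq_nn hA s a) (Real.exp_pos _).le) ⟨σ s, hmem, ?_⟩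
  apply mul_pos _ (Real.exp_pos _)
  unfold gq
  refine prod_pos fun x hx => ?_
  have := mem_nb.mp (rev_nb hx)
  exact h.pos x s this.symm

/-- (A) and (A') -/
lemma AOk.A1 (h : AOk X σ Dd κ e3) {s : V} (hs : s ∈ X.rest) :
    Real.log (X.ZZ σ s) ≤ (∑ y ∈ nb X.G s, (X.ell σ e3 s y - X.gn σ Dd κ s y)) / X.d := by
  have hpos := h.ZZ_pos hs
  rw [← Real.log_exp ((∑ y ∈ nb X.G s, (X.ell σ e3 s y - X.gn σ Dd κ s y)) / X.d)]
  apply Real.log_le_log hpos
  rw [ZZ_eq]
  have hh := holder_aux (X.base s) (nb X.G s) X.d (h.reg s) h.dpos (gq X σ s)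
    (fun a _ => gq_nn h.tgt s a) X.cp (fun y a => y ∉ X.D ∧ a ∉ X.Phi σ y)
    (fun y => X.ell σ e3 s y - X.gn σ Dd κ s y)
    (fun y hy => by convert h.fac hs (mem_nb.mp hy))
  refine le_trans (le_of_eq ?_) hh
  refine sum_congr rfl fun a _ => ?_
  have : X.KN σ s a = ((nb X.G s).filter (fun y => y ∉ X.D ∧ a ∉ X.Phi σ y)).card := by
    unfold Ctx.KN
    congr 1
    ext y
    simp only [mem_filter, mem_sdiff]
    tauto
  rw [this]
  congr

/-- (A'') -/
lemma AOk.A3 (h : AOk X σ Dd κ e3) {s : V} (hs : s ∈ X.rest) (hN : s ∈ X.Nb Dd) :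
    X.ZZ σ s = ((X.base s).card : ℝ) * X.r σ s := by
  obtain ⟨hsD, hsR⟩ := h.sol_notmem_rest hs
  have hA := h.tgt
  obtain ⟨hsol, hnb⟩ := h.nbsol hN
  obtain ⟨P, hP⟩ := sol_lam hsol
  have hbase : X.base s = pat X.c P s := base_sol hsol hP
  have hc : ((X.base s).card : ℝ) ≠ 0 := by
    rw [hbase]
    have := (pat_pos hA X.c P s).1
    positivity
  unfold Ctx.r
  rw [mul_div_cancel₀ _ hc, ZZ_eq]
  refine sum_congr rfl fun a ha => ?_
  rw [hbase] at ha
  have hK : X.KN σ s a = 0 := by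
    unfold Ctx.KN
    rw [card_eq_zero, filter_eq_empty_iff]
    intro y hy
    rw [mem_sdiff] at hy
    have hadj := mem_nb.mp hy.1
    obtain ⟨h1, h2⟩ := hnb y hadj
    rw [hP] at h2
    rw [Phi_sol h1 h2, patN_eq h.prp P hadj.symm]
    simpa using ha
  rw [hK]
  simp only [Nat.cast_zero, mul_zero, neg_zero, Real.exp_zero, mul_one]
  unfold gq
  have hsub : nb X.G s ∩ X.D ⊆ X.Rev s := by
    intro x hx
    apply rev_sub
    rw [mem_inter] at hx ⊢
    exact ⟨hx.1, mem_union_left _ hx.2⟩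
  symm
  refine prod_subset hsub fun x hx hxn => ?_
  have hadj := mem_nb.mp (rev_nb hx)
  have hxD : x ∉ X.D := by
    intro hxD
    exact hxn (mem_inter.mpr ⟨rev_nb hx, hxD⟩)
  obtain ⟨h1, h2⟩ := hnb x hadj
  rw [hP] at h2
  have h3 := h.good h1 hxD h2
  rw [← patN_eq h.prp P hadj] at h3
  rw [hA.symm]
  exact pat_bic hA X.c P s a ha _ h3

/-- `r` is positive and at most `1` at the vertices of `Sol` outside `D` -/
lemma AOk.r_pos (h : AOk X σ Dd κ e3) {s : V} (hsol : s ∈ X.sol) (hsD : s ∉ X.D) :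
    0 < X.r σ s ∧ X.r σ s ≤ 1 := by
  have hA := h.tgt
  obtain ⟨P, hP⟩ := sol_lam hsol
  have hbase : X.base s = pat X.c P s := base_sol hsol hP
  have hc : (0 : ℝ) < ((X.base s).card : ℝ) := by
    rw [hbase]
    have := (pat_pos hA X.c P s).1
    positivity
  unfold Ctx.r
  constructor
  · apply div_pos _ hc
    refine sum_pos' (fun a _ => prod_nonneg fun x _ => hA.nn _ _) ⟨σ s, ?_, ?_⟩
    · rw [hbase]; exact h.good hsol hsD hP
    · refine prod_pos fun x hx => ?_
      exact h.pos x s (mem_nb.mp (mem_inter.mp hx).1).symm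
  · rw [div_le_one hc]
    calc ∑ a ∈ X.base s, ∏ x ∈ nb X.G s ∩ X.D, A (σ x) a ≤ ∑ _a ∈ X.base s, (1 : ℝ) :=
          sum_le_sum fun a _ => prod_le_one (fun x _ => hA.nn _ _) (fun x _ => hA.le1 _ _)
      _ = ((X.base s).card : ℝ) := by simp

/-- the gain of a defect with the same label -/
lemma AOk.r_gain (h : AOk X σ Dd κ e3) {s x : V} (hsol : s ∈ X.sol) (hsD : s ∉ X.D)
    (hx : x ∈ nb X.G s ∩ X.D) (hl : X.lam x = X.lam s) :
    Real.log (X.r σ s) ≤ -cc1 q κ := by
  have hA := h.tgt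
  obtain ⟨P, hP⟩ := sol_lam hsol
  have hbase : X.base s = pat X.c P s := base_sol hsol hP
  have hc : (0 : ℝ) < ((X.base s).card : ℝ) := by
    rw [hbase]
    have := (pat_pos hA X.c P s).1
    positivity
  obtain ⟨hr0, hr1⟩ := h.r_pos hsol hsD
  obtain ⟨hx1, hx2⟩ := mem_inter.mp hx
  obtain ⟨P', hP', hw⟩ := h.wrong hx2
  have hPP : P' = P := by
    rw [hl, hP] at hP'
    exact (Option.some_injective _ hP').symm
  subst hPP
  rw [← patN_eq h.prp P' (mem_nb.mp hx1)] at hw
  obtain ⟨b, hb, hb2⟩ := max_ph hA X.c P' s (σ x) hw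
  have hsum : ∑ a ∈ X.base s, ∏ x ∈ nb X.G s ∩ X.D, A (σ x) a ≤ ((X.base s).card : ℝ) - κ := by
    rw [← hbase] at hb
    rw [← add_sum_erase _ _ hb]
    have h1 : ∏ x ∈ nb X.G s ∩ X.D, A (σ x) b ≤ 1 - κ := by
      refine le_trans ?_ hb2
      have := prod_anti (S := {x}) (T := nb X.G s ∩ X.D) (by simpa using hx)
        (fun x => A (σ x) b) (fun x => hA.nn _ _) (fun x => hA.le1 _ _)
      simpa using this
    have h2 : ∑ a ∈ (X.base s).erase b, ∏ x ∈ nb X.G s ∩ X.D, A (σ x) a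
        ≤ (((X.base s).erase b).card : ℝ) := by
      calc _ ≤ ∑ _a ∈ (X.base s).erase b, (1 : ℝ) :=
            sum_le_sum fun a _ => prod_le_one (fun x _ => hA.nn _ _) (fun x _ => hA.le1 _ _)
        _ = _ := by simp
    have h3 : ((((X.base s).erase b).card : ℕ) : ℝ) = ((X.base s).card : ℝ) - 1 := by
      rw [card_erase_of_mem hb, Nat.cast_sub (card_pos.mpr ⟨b, hb⟩)]
      simp
    linarith
  have hq1 : (1 : ℝ) ≤ q := by exact_mod_cast q_pos hA
  have hcq : ((X.base s).card : ℝ) ≤ q := by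
    have := card_le_univ (X.base s)
    rw [Fintype.card_fin] at this
    exact_mod_cast this
  have hr : X.r σ s ≤ 1 - κ / q := by
    unfold Ctx.r
    rw [div_le_iff₀ hc]
    have : κ / q * ((X.base s).card : ℝ) ≤ κ := by
      rw [div_mul_eq_mul_div, div_le_iff₀ (by linarith)]
      exact mul_le_mul_of_nonneg_left hcq hA.kpos.le
    linarith
  have h4 := Real.log_le_sub_one_of_pos hr0
  have h5 : cc1 q κ ≤ κ / q := by
    unfold cc1
    apply div_le_div_of_nonneg_left hA.kpos.le (by linarith)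
    linarith
  linarith

end ok
end acc

end LD
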