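import Pool.Agent.W_5dd92e_ld.AccB

/-!
# MP_5dd92e_co, large degree theorem, ACCOUNT block (helper7): (B) and the costs of the vertices
-/

set_option autoImplicit false
set_option linter.unusedSectionVars false
set_option linter.unusedVariables false

open Finset
open scoped Classical

namespace LD

section acc
variable {V : Type*} [Fintype V] {q : ℕ} {A : Fin q → Fin q → ℝ}

section ok
variable {X : Ctx V q A} {σ : V → Fin q} {Dd : Finset V} {κ e3 : ℝ}

lemma k0_facts {κ : ℝ} (hA : Tgt A κ) :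
    0 < k0 A ∧ k0 A ≤ 1 ∧ Real.log ((mm A : ℝ) - 1 / 2) = Real.log (mm A : ℝ) - k0 A := by
  have hm : (1 : ℝ) ≤ mm A := by exact_mod_cast mm_pos hA
  have h1 : 1 / (2 * (mm A : ℝ)) ≤ 1 / 2 := by
    apply div_le_div_of_nonneg_left (by norm_num) (by norm_num); linarith
  have h2 : 0 < 1 / (2 * (mm A : ℝ)) := by positivity
  have h3 : (0 : ℝ) < 1 - 1 / (2 * (mm A : ℝ)) := by linarith
  refine ⟨?_, ?_, ?_⟩
  · unfold k0
    have := Real.log_neg h3 (by linarith)
    linarith
  · unfold k0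
    have e1 : Real.log (1 / 2) ≤ Real.log (1 - 1 / (2 * (mm A : ℝ))) :=
      Real.log_le_log (by norm_num) (by linarith)
    have e2 : Real.log (1 / 2 : ℝ) = -Real.log 2 := by
      rw [one_div, Real.log_inv]
    have e3 := Real.log_two_lt_d9
    linarith
  · unfold k0
    have : (mm A : ℝ) - 1 / 2 = (mm A : ℝ) * (1 - 1 / (2 * (mm A : ℝ))) := by
      field_simp
    rw [this, Real.log_mul (by linarith) h3.ne']
    ring

lemma g0_pos {κ : ℝ} (hA : Tgt A κ) : 0 < g0 A κ := by
  unfold g0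
  exact lt_min (by linarith [(k0_facts hA).1]) (cc1_pos hA)

lemma AOk.e3le (h : AOk X σ Dd κ e3) : e3 ≤ 1 / 2 := by
  have hq1 : (1 : ℝ) ≤ q := by exact_mod_cast q_pos h.tgt
  have := h.e3c
  have := h.e3pos
  nlinarith

lemma AOk.pS_pos (h : AOk X σ Dd κ e3) (s : V) : 1 ≤ (X.pS s).card ∧ (X.pS s).card ≤ q := by
  constructor
  · unfold Ctx.pS
    cases hl : X.lam s with
    | some P => exact (pat_pos h.tgt X.c P s).1
    | none => simpa using q_pos h.tgt
  · simpa using card_le_univ (X.pS s)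

lemma AOk.logpS (h : AOk X σ Dd κ e3) (s : V) :
    0 ≤ Real.log ((X.pS s).card : ℝ) ∧ Real.log ((X.pS s).card : ℝ) ≤ Real.log (q : ℝ) := by
  obtain ⟨h1, h2⟩ := h.pS_pos s
  have h1' : (1 : ℝ) ≤ ((X.pS s).card : ℝ) := by exact_mod_cast h1
  have h2' : ((X.pS s).card : ℝ) ≤ q := by exact_mod_cast h2
  exact ⟨Real.log_nonneg h1', Real.log_le_log (by linarith) h2'⟩

lemma Cq_pos (hA : Tgt A κ) : 0 ≤ Cq q ∧ Real.log (q : ℝ) ≤ Real.log ((q : ℝ) + 1) ∧
    0 ≤ Real.log (q : ℝ) := by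
  have hq1 : (1 : ℝ) ≤ q := by exact_mod_cast q_pos hA
  have h1 := Real.log_nonneg hq1
  have h2 : Real.log (q : ℝ) ≤ Real.log ((q : ℝ) + 1) := Real.log_le_log (by linarith) (by linarith)
  refine ⟨?_, h2, h1⟩
  unfold Cq
  linarith

lemma AOk.lk_le (h : AOk X σ Dd κ e3) {k : ℕ} (hk : k ≤ q) :
    lk q e3 k ≤ Real.log ((q : ℝ) + 1) ∧ -Cq q ≤ lk q e3 k := by
  have h0 := Cq_pos h.tgt
  have hk' : (k : ℝ) ≤ q := by exact_mod_cast hk
  have he := h.e3le
  have he0 := h.e3pos
  unfold lk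
  split_ifs with h1
  · refine ⟨by linarith [h0.1, h0.2.1, h0.2.2], le_rfl⟩
  · have h2 : (1 : ℝ) ≤ k := by exact_mod_cast Nat.one_le_iff_ne_zero.mpr h1
    refine ⟨Real.log_le_log (by linarith) (by linarith), ?_⟩
    have := Real.log_nonneg (show (1 : ℝ) ≤ (k : ℝ) + e3 by linarith)
    linarith [h0.1]

lemma AOk.ell_le (h : AOk X σ Dd κ e3) (s y : V) :
    X.ell σ e3 s y ≤ Real.log ((q : ℝ) + 1) ∧ -Cq q ≤ X.ell σ e3 s y := by
  have h0 := Cq_pos h.tgt
  have hc : ∀ S : Finset (Fin q), S.card ≤ q := fun S => by simpa using card_le_univ S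
  have hp := h.logpS s
  unfold Ctx.ell
  split_ifs
  · exact ⟨by linarith [h0.2.1], by linarith [h0.1]⟩
  · exact h.lk_le (hc _)
  · exact h.lk_le (hc _)

/-- the product of the two numbers of compatible colours -/
lemma AOk.kk (h : AOk X σ Dd κ e3) {s y : V} (hy : X.G.Adj s y)
    (hn : ¬ ∃ P, X.HasPh σ s P ∧ X.HasPh σ y P) :
    (X.Psi σ s ∩ X.Phi σ y).card * (X.Psi σ y ∩ X.Phi σ s).card + 1 ≤ mm A := by
  have hA := h.tgt
  set W1 := X.Psi σ s ∩ X.Phi σ y with hW1
  set W2 := X.Psi σ y ∩ X.Phi σ s with hW2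
  have hs := Psi_bic hA X σ s
  have hyb := Psi_bic hA X σ y
  have hB : Bic A W1 W2 := by
    intro i hi j hj
    exact hs i (mem_inter.mp hi).1 j (mem_inter.mp hj).2
  have hle := bic_le hB
  rcases Nat.lt_or_ge (W1.card * W2.card) (mm A) with hlt | hge
  · omega
  exfalso
  have heq : W1.card * W2.card = mm A := le_antisymm hle hge
  have hm := mm_pos hA
  have a1 : W1.card ≤ (X.Psi σ s).card := card_le_card inter_subset_left
  have a2 : W1.card ≤ (X.Phi σ y).card := card_le_card inter_subset_right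
  have a3 : W2.card ≤ (X.Psi σ y).card := card_le_card inter_subset_left
  have a4 : W2.card ≤ (X.Phi σ s).card := card_le_card inter_subset_right
  have p1 : 1 ≤ W1.card := by
    rcases Nat.eq_zero_or_pos W1.card with h0 | h0
    · rw [h0] at heq; omega
    · exact h0
  have p2 : 1 ≤ W2.card := by
    rcases Nat.eq_zero_or_pos W2.card with h0 | h0
    · rw [h0] at heq; omega
    · exact h0
  have b1 := bic_le hs
  have b2 := bic_le hyb
  have c1 : (X.Psi σ s).card ≤ W1.card := by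
    by_contra hcon
    have : W1.card + 1 ≤ (X.Psi σ s).card := by omega
    nlinarith
  have c2 : (X.Phi σ s).card ≤ W2.card := by
    by_contra hcon
    have : W2.card + 1 ≤ (X.Phi σ s).card := by omega
    nlinarith
  have c3 : (X.Psi σ y).card ≤ W2.card := by
    by_contra hcon
    have : W2.card + 1 ≤ (X.Psi σ y).card := by omega
    nlinarith
  have c4 : (X.Phi σ y).card ≤ W1.card := by
    by_contra hcon
    have : W1.card + 1 ≤ (X.Phi σ y).card := by omega
    nlinarith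
  have d1 : W1 = X.Psi σ s := eq_of_subset_of_card_le inter_subset_left c1
  have d2 : W2 = X.Phi σ s := eq_of_subset_of_card_le inter_subset_right c2
  have d3 : W2 = X.Psi σ y := eq_of_subset_of_card_le inter_subset_left c3
  have d4 : W1 = X.Phi σ y := eq_of_subset_of_card_le inter_subset_right c4
  have hB' : Bic A W2 W1 := by
    intro i hi j hj
    rw [hA.symm]; exact hB j hj i hi
  apply hn
  have hc := h.prp s y hy
  cases hcs : X.c s with
  | true =>
    have hcy : X.c y = false := by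
      cases hcy : X.c y with
      | true => rw [hcs, hcy] at hc; exact absurd rfl hc
      | false => rfl
    refine ⟨⟨(W1, W2), hB, heq⟩, ⟨?_, ?_⟩, ⟨?_, ?_⟩⟩
    · unfold pat; rw [if_pos hcs]; exact d1.symm
    · unfold patN; rw [if_pos hcs]; exact d2.symm
    · unfold pat; rw [if_neg (by rw [hcy]; simp)]; exact d3.symm
    · unfold patN; rw [if_neg (by rw [hcy]; simp)]; exact d4.symm
  | false =>
    have hcy : X.c y = true := by
      cases hcy : X.c y with
      | false => rw [hcs, hcy] at hc; exact absurd rfl hc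
      | true => rfl
    refine ⟨⟨(W2, W1), hB', by simpa [mul_comm] using heq⟩, ⟨?_, ?_⟩, ⟨?_, ?_⟩⟩
    · unfold pat; rw [if_neg (by rw [hcs]; simp)]; exact d1.symm
    · unfold patN; rw [if_neg (by rw [hcs]; simp)]; exact d2.symm
    · unfold pat; rw [if_pos hcy]; exact d3.symm
    · unfold patN; rw [if_pos hcy]; exact d4.symm

/-- `ell` is at most `lk` of the number of compatible colours -/
lemma AOk.ell_lk (h : AOk X σ Dd κ e3) {s y : V} (hs : s ∉ X.D) (hyD : y ∉ X.D) :
    X.ell σ e3 s y ≤ lk q e3 (X.Psi σ s ∩ X.Phi σ y).card := by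
  have he0 := h.e3pos
  unfold Ctx.ell
  split_ifs with h1
  · rcases h1 with h1 | ⟨h1, h2⟩
    · exact absurd h1 hs
    rcases h2 with h2 | h2
    · exact absurd h2 hyD
    obtain ⟨P, hP⟩ := sol_lam h1
    have e1 : X.Psi σ s ∩ X.Phi σ y = X.pS s := by
      rw [Psi_sol h1 hP, pS_eq hP]
      rw [pS_eq hP] at h2
      exact inter_eq_left.mpr h2
    rw [e1]
    have h3 := (h.pS_pos s).1
    unfold lk
    rw [if_neg (by omega)]
    have h4 : (1 : ℝ) ≤ ((X.pS s).card : ℝ) := by exact_mod_cast h3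
    exact Real.log_le_log (by linarith) (by linarith)
  · exact le_rfl

/-- `ell` for equal phases -/
lemma AOk.ell_eq (h : AOk X σ Dd κ e3) {s y : V} {P : Ph A} (hadj : X.G.Adj s y) (hs : s ∉ X.D)
    (hyD : y ∉ X.D) (h1 : X.HasPh σ s P) (h2 : X.HasPh σ y P) :
    X.ell σ e3 s y ≤ Real.log ((pat X.c P s).card : ℝ) + (if s ∉ X.sol then e3 else 0) := by
  have he0 := h.e3pos
  have hpat := (pat_pos h.tgt X.c P s).1
  have hpat' : (1 : ℝ) ≤ ((pat X.c P s).card : ℝ) := by exact_mod_cast hpat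
  have hPhi : X.Phi σ y = pat X.c P s := by rw [h2.2]; exact patN_eq h.prp P hadj.symm
  by_cases hsol : s ∈ X.sol
  · obtain ⟨P', hP'⟩ := sol_lam hsol
    have hPP := hasPh_uniq (hasPh_sol (σ := σ) hsol hP') h1
    subst hPP
    unfold Ctx.ell
    rw [if_pos (Or.inr ⟨hsol, Or.inr (by rw [pS_eq hP', hPhi])⟩), pS_eq hP', if_neg (by simpa using hsol)]
    simp
  · have h3 := h.ell_lk (σ := σ) hs hyD
    rw [h1.1, hPhi, inter_self] at h3
    rw [if_pos hsol]
    refine h3.trans ?_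
    unfold lk
    rw [if_neg (by omega)]
    have h4 : Real.log (((pat X.c P s).card : ℝ) + e3) ≤ Real.log ((pat X.c P s).card : ℝ) + e3 := by
      have h5 : ((pat X.c P s).card : ℝ) + e3 = ((pat X.c P s).card : ℝ) * (1 + e3 / ((pat X.c P s).card : ℝ)) := by
        field_simp
      rw [h5, Real.log_mul (by linarith) (by positivity)]
      have h6 := Real.log_le_sub_one_of_pos (show (0 : ℝ) < 1 + e3 / ((pat X.c P s).card : ℝ) by positivity)
      have h7 : e3 / ((pat X.c P s).card : ℝ) ≤ e3 := div_le_self he0.le hpat'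
      linarith
    exact h4

/-- (B): the edge inequality -/
lemma AOk.edge (h : AOk X σ Dd κ e3) {s y : V} (hadj : X.G.Adj s y) :
    X.ell σ e3 s y + X.ell σ e3 y s ≤ Real.log (mm A : ℝ)
      + 3 * q * e3 * (if s ∉ X.sol ∨ y ∉ X.sol then 1 else 0)
      - k0 A * (if X.MM σ s y then 1 else 0)
      + 2 * Real.log ((q : ℝ) + 1) * (if s ∈ X.D \ Dd ∨ y ∈ X.D \ Dd then 1 else 0) := by
  have hA := h.tgt
  have hm : (1 : ℝ) ≤ mm A := by exact_mod_cast mm_pos hA
  have hlm := Real.log_nonneg hm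
  have he0 := h.e3pos
  have hq1 : (1 : ℝ) ≤ q := by exact_mod_cast q_pos hA
  obtain ⟨hC0, hC1, hC2⟩ := Cq_pos hA
  obtain ⟨hk1, hk2, hk3⟩ := k0_facts hA
  have hi1 : (0 : ℝ) ≤ 3 * q * e3 * (if s ∉ X.sol ∨ y ∉ X.sol then 1 else 0) := by
    split_ifs <;> positivity
  have hi2 : (0 : ℝ) ≤ 2 * Real.log ((q : ℝ) + 1) * (if s ∈ X.D \ Dd ∨ y ∈ X.D \ Dd then 1 else 0) := by
    split_ifs
    · linarith
    · simp
  have hdeep : ∀ s y : V, X.G.Adj s y → s ∈ Dd →
      X.ell σ e3 s y + X.ell σ e3 y s ≤ Real.log (mm A : ℝ) := by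
    intro s y hadj hs
    obtain ⟨h1, h2⟩ := h.deep hs
    obtain ⟨h3, h4, _⟩ := h2 y hadj
    obtain ⟨P, hP⟩ := sol_lam h1
    rw [hP] at h4
    have hsD := h.dsub hs
    have e1 : X.ell σ e3 s y = Real.log ((pat X.c P s).card : ℝ) := by
      unfold Ctx.ell
      rw [if_pos (Or.inl hsD), pS_eq hP]
    have e2 : X.ell σ e3 y s = Real.log ((pat X.c P y).card : ℝ) := by
      unfold Ctx.ell
      rw [if_pos (Or.inr ⟨h3, Or.inl hsD⟩), pS_eq h4]
    rw [e1, e2, ← Real.log_mul, ← pat_card X.c P s, patN_eq h.prp P hadj]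
    · push_cast; exact le_rfl
    · have := (pat_pos hA X.c P s).1; positivity
    · have := (pat_pos hA X.c P y).1; positivity
  by_cases hc1 : s ∈ X.D \ Dd ∨ y ∈ X.D \ Dd
  · have hM : ¬ X.MM σ s y := by
      rintro ⟨h1, h2, _⟩
      rcases hc1 with h3 | h3
      · exact h1 (mem_sdiff.mp h3).1
      · exact h2 (mem_sdiff.mp h3).1
    rw [if_neg hM, if_pos hc1]
    have e1 := (h.ell_le s y).1
    have e2 := (h.ell_le y s).1
    linarith
  · by_cases hsD : s ∈ X.D
    · have hs : s ∈ Dd := by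
        by_contra hcon
        exact hc1 (Or.inl (mem_sdiff.mpr ⟨hsD, hcon⟩))
      have hM : ¬ X.MM σ s y := fun h1 => h1.1 hsD
      rw [if_neg hM]
      have := hdeep s y hadj hs
      linarith
    · by_cases hyD : y ∈ X.D
      · have hy : y ∈ Dd := by
          by_contra hcon
          exact hc1 (Or.inr (mem_sdiff.mpr ⟨hyD, hcon⟩))
        have hM : ¬ X.MM σ s y := fun h1 => h1.2.1 hyD
        rw [if_neg hM]
        have := hdeep y s hadj.symm hy
        linarith
      · by_cases hph : ∃ P, X.HasPh σ s P ∧ X.HasPh σ y P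
        · have hM : ¬ X.MM σ s y := fun h1 => h1.2.2 hph
          obtain ⟨P, hP1, hP2⟩ := hph
          have e1 := h.ell_eq hadj hsD hyD hP1 hP2
          have e2 := h.ell_eq hadj.symm hyD hsD hP2 hP1
          have e4 : Real.log ((pat X.c P s).card : ℝ) + Real.log ((pat X.c P y).card : ℝ)
              = Real.log (mm A : ℝ) := by
            rw [← Real.log_mul, ← pat_card X.c P s, patN_eq h.prp P hadj]
            · push_cast; rfl
            · have := (pat_pos hA X.c P s).1; positivity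
            · have := (pat_pos hA X.c P y).1; positivity
          have e5 : (if s ∉ X.sol then e3 else 0) + (if y ∉ X.sol then e3 else 0)
              ≤ 3 * q * e3 * (if s ∉ X.sol ∨ y ∉ X.sol then 1 else 0) := by
            have e6 : e3 ≤ q * e3 := by nlinarith
            by_cases q1 : s ∈ X.sol <;> by_cases q2 : y ∈ X.sol <;> simp [q1, q2] <;> nlinarith
          rw [if_neg hM]
          linarith
        · have hM : X.MM σ s y := ⟨hsD, hyD, hph⟩
          rw [if_pos hM]
          have e1 := h.ell_lk (σ := σ) hsD hyD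
          have e2 := h.ell_lk (σ := σ) hyD hsD
          have hkk := h.kk hadj hph
          set k1 := (X.Psi σ s ∩ X.Phi σ y).card with hk1'
          set k2 := (X.Psi σ y ∩ X.Phi σ s).card with hk2'
          have c1 : k1 ≤ q := by simpa using card_le_univ (X.Psi σ s ∩ X.Phi σ y)
          have c2 : k2 ≤ q := by simpa using card_le_univ (X.Psi σ y ∩ X.Phi σ s)
          have l1 := h.lk_le c1
          have l2 := h.lk_le c2
          have hlog2 : Cq q = 2 + Real.log ((q : ℝ) + 1) := rfl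
          by_cases z1 : k1 = 0
          · have : lk q e3 k1 = -Cq q := by unfold lk; rw [if_pos z1]
            linarith [l2.1]
          · by_cases z2 : k2 = 0
            · have : lk q e3 k2 = -Cq q := by unfold lk; rw [if_pos z2]
              linarith [l1.1]
            · have f1 : lk q e3 k1 = Real.log ((k1 : ℝ) + e3) := by unfold lk; rw [if_neg z1]
              have f2 : lk q e3 k2 = Real.log ((k2 : ℝ) + e3) := by unfold lk; rw [if_neg z2]
              have r1 : (1 : ℝ) ≤ k1 := by exact_mod_cast Nat.one_le_iff_ne_zero.mpr z1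
              have r2 : (1 : ℝ) ≤ k2 := by exact_mod_cast Nat.one_le_iff_ne_zero.mpr z2
              have r3 : (k1 : ℝ) ≤ q := by exact_mod_cast c1
              have r4 : (k2 : ℝ) ≤ q := by exact_mod_cast c2
              have r5 : (k1 : ℝ) * k2 + 1 ≤ mm A := by exact_mod_cast hkk
              have r6 := h.e3le
              have r7 := h.e3c
              have r8 : ((k1 : ℝ) + e3) * ((k2 : ℝ) + e3) ≤ (mm A : ℝ) - 1 / 2 := by nlinarith
              have r9 : Real.log (((k1 : ℝ) + e3) * ((k2 : ℝ) + e3)) ≤ Real.log ((mm A : ℝ) - 1 / 2) :=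
                Real.log_le_log (by positivity) r8
              rw [Real.log_mul (by positivity) (by positivity), hk3] at r9
              linarith

/-! ### Costs of the vertices -/

lemma AOk.sumconst (h : AOk X σ Dd κ e3) (s : V) (t : ℝ) : (∑ _y ∈ nb X.G s, t) / X.d = t := by
  have hd : (0 : ℝ) < X.d := by exact_mod_cast h.dpos
  rw [sum_const, h.reg, nsmul_eq_mul]
  field_simp

lemma AOk.vDeep (h : AOk X σ Dd κ e3) {x : V} (hx : x ∈ Dd) :
    Real.log ((X.base x).card : ℝ) = (∑ y ∈ nb X.G x, X.ell σ e3 x y) / X.d := by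
  obtain ⟨h1, h2⟩ := h.deep hx
  obtain ⟨P, hP⟩ := sol_lam h1
  rw [base_sol h1 hP, ← pS_eq hP]
  rw [← h.sumconst x (Real.log ((X.pS x).card : ℝ))]
  congr 1
  refine sum_congr rfl fun y _ => ?_
  unfold Ctx.ell
  rw [if_pos (Or.inl (h.dsub hx))]

lemma AOk.vD (h : AOk X σ Dd κ e3) {x : V} (hx : x ∈ X.D) :
    0 ≤ (∑ y ∈ nb X.G x, X.ell σ e3 x y) / X.d := by
  have hd : (0 : ℝ) < X.d := by exact_mod_cast h.dpos
  apply div_nonneg _ hd.le
  refine sum_nonneg fun y _ => ?_
  unfold Ctx.ell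
  rw [if_pos (Or.inl hx)]
  exact (h.logpS x).1

lemma AOk.vSoft (h : AOk X σ Dd κ e3) {s : V} (hs : s ∉ X.sol) :
    Real.log (X.ZP σ s) ≤ (∑ y ∈ nb X.G s, X.ell σ e3 s y) / X.d + (Real.log (q : ℝ) + Cq q) := by
  have hd : (0 : ℝ) < X.d := by exact_mod_cast h.dpos
  have h1 : X.ZP σ s = q := by
    unfold Ctx.ZP Ctx.fp
    simp [hs]
  rw [h1]
  have h2 : -Cq q ≤ (∑ y ∈ nb X.G s, X.ell σ e3 s y) / X.d := by
    rw [← h.sumconst s (-Cq q)]
    apply div_le_div_of_nonneg_right _ hd.le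
    exact sum_le_sum fun y _ => (h.ell_le s y).2
  linarith

lemma ZP_sol {X : Ctx V q A} {s : V} (hs : s ∈ X.sol) (hc : ((X.base s).card : ℝ) ≠ 0) :
    X.ZP σ s = ((X.base s).card : ℝ) * X.r σ s := by
  unfold Ctx.ZP Ctx.fp Ctx.r
  rw [mul_div_cancel₀ _ hc]
  simp only [if_pos hs]
  rw [← sum_filter]
  refine sum_congr ?_ fun a _ => rfl
  ext a; simp

lemma AOk.ell_same (h : AOk X σ Dd κ e3) {s y : V} (hs : s ∈ X.sol) (hadj : X.G.Adj s y)
    (hy : y ∈ X.sol) (hl : X.lam y = X.lam s) : X.ell σ e3 s y = Real.log ((X.pS s).card : ℝ) := by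
  obtain ⟨P, hP⟩ := sol_lam hs
  rw [hP] at hl
  unfold Ctx.ell
  rw [if_pos]
  right
  refine ⟨hs, Or.inr ?_⟩
  rw [pS_eq hP, Phi_sol hy hl, patN_eq h.prp P hadj.symm]

lemma AOk.vRsol (h : AOk X σ Dd κ e3) {s : V} (hs : s ∈ X.sol) (hsD : s ∉ X.D) :
    Real.log (X.ZP σ s) - (if s ∈ X.Nb Dd then Real.log (X.r σ s) else 0)
      ≤ (∑ y ∈ nb X.G s, X.ell σ e3 s y) / X.d
        + (Real.log (q : ℝ) + Cq q) / X.d *
          (((nb X.G s).filter (fun y => y ∉ X.sol ∨ X.lam y ≠ X.lam s)).card : ℝ)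
        - X.gR Dd κ s := by
  have hd : (0 : ℝ) < X.d := by exact_mod_cast h.dpos
  have hA := h.tgt
  obtain ⟨hC0, hC1, hC2⟩ := Cq_pos hA
  obtain ⟨P, hP⟩ := sol_lam hs
  have hb : X.base s = X.pS s := by rw [base_sol hs hP, pS_eq hP]
  have hcpos := (h.pS_pos s).1
  have hcpos' : (0 : ℝ) < ((X.pS s).card : ℝ) := by exact_mod_cast hcpos
  have hz := ZP_sol (σ := σ) hs (by rw [hb]; exact hcpos'.ne')
  obtain ⟨hr0, hr1⟩ := h.r_pos hs hsD
  rw [hz, hb, Real.log_mul hcpos'.ne' hr0.ne']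
  have hlr : Real.log (X.r σ s) ≤ 0 := Real.log_nonpos hr0.le hr1
  have e1 : Real.log (X.r σ s) - (if s ∈ X.Nb Dd then Real.log (X.r σ s) else 0)
      ≤ -X.gR Dd κ s := by
    unfold Ctx.gR
    by_cases hN : s ∈ X.Nb Dd
    · simp [hN]
    · rw [if_neg hN]
      split_ifs with h1
      · obtain ⟨_, x, hx, hl⟩ := h1
        have := h.r_gain hs hsD hx hl
        linarith
      · linarith
  have e2 : Real.log ((X.pS s).card : ℝ) ≤ (∑ y ∈ nb X.G s, X.ell σ e3 s y) / X.d
        + (Real.log (q : ℝ) + Cq q) / X.d *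
          (((nb X.G s).filter (fun y => y ∉ X.sol ∨ X.lam y ≠ X.lam s)).card : ℝ) := by
    have h5 : (((nb X.G s).filter (fun y => y ∉ X.sol ∨ X.lam y ≠ X.lam s)).card : ℝ)
        = ∑ y ∈ nb X.G s, (if y ∉ X.sol ∨ X.lam y ≠ X.lam s then (1 : ℝ) else 0) := by
      rw [sum_boole]
    rw [h5, div_mul_eq_mul_div, ← add_div, mul_sum, ← sum_add_distrib,
      ← h.sumconst s (Real.log ((X.pS s).card : ℝ))]
    apply div_le_div_of_nonneg_right _ hd.le
    refine sum_le_sum fun y hy => ?_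
    have hlog := h.logpS s
    by_cases hc : y ∉ X.sol ∨ X.lam y ≠ X.lam s
    · rw [if_pos hc]
      have := (h.ell_le s y).2
      linarith
    · rw [if_neg hc]
      push Not at hc
      rw [h.ell_same hs (mem_nb.mp hy) hc.1 hc.2]
      simp
  linarith

lemma AOk.vRest (h : AOk X σ Dd κ e3) {s : V} (hs : s ∈ X.rest) :
    Real.log (X.ZZ σ s) - (if s ∈ X.Nb Dd then Real.log (X.r σ s) else 0)
      ≤ (∑ y ∈ nb X.G s, (X.ell σ e3 s y - X.gn σ Dd κ s y)) / X.d := by
  by_cases hN : s ∈ X.Nb Dd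
  · obtain ⟨hsD, hsR⟩ := h.sol_notmem_rest hs
    obtain ⟨hsol, hnb⟩ := h.nbsol hN
    obtain ⟨P, hP⟩ := sol_lam hsol
    have hb : X.base s = X.pS s := by rw [base_sol hsol hP, pS_eq hP]
    have hcpos := (h.pS_pos s).1
    have hcpos' : (0 : ℝ) < ((X.pS s).card : ℝ) := by exact_mod_cast hcpos
    obtain ⟨hr0, hr1⟩ := h.r_pos hsol hsD
    rw [if_pos hN, h.A3 hs hN, hb, Real.log_mul hcpos'.ne' hr0.ne']
    have : (∑ y ∈ nb X.G s, (X.ell σ e3 s y - X.gn σ Dd κ s y))
        = ∑ y ∈ nb X.G s, Real.log ((X.pS s).card : ℝ) := by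
      refine sum_congr rfl fun y hy => ?_
      have hadj := mem_nb.mp hy
      obtain ⟨h1, h2⟩ := hnb y hadj
      rw [h.ell_same hsol hadj h1 h2]
      have : X.gn σ Dd κ s y = 0 := by
        unfold Ctx.gn
        rw [if_neg]
        rintro ⟨h3, _⟩
        exact h3 hN
      rw [this, sub_zero]
    rw [this, h.sumconst]
    linarith
  · rw [if_neg hN, sub_zero]
    exact h.A1 hs

end ok
end acc

end LD
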