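import Pool.Agent.W_5dd92e_ld.AccC

/-!
# MP_5dd92e_co, large degree theorem, ACCOUNT block (helper7): the sum over all vertices
-/

set_option autoImplicit false
set_option linter.unusedSectionVars false
set_option linter.unusedVariables false

open Finset
open scoped Classical

namespace LD

section acc
variable {V : Type*} [Fintype V] {q : ℕ} {A : Fin q → Fin q → ℝ}

/-- number of ordered pairs of `M` -/
noncomputable def M2 (X : Ctx V q A) (σ : V → Fin q) : ℝ :=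
  ∑ s, ∑ y ∈ nb X.G s, (if X.MM σ s y then (1 : ℝ) else 0)

/-- the gains (A') of one vertex -/
noncomputable def gs (X : Ctx V q A) (σ : V → Fin q) (Dd : Finset V) (κ : ℝ) (s : V) : ℝ :=
  (∑ y ∈ nb X.G s, X.gn σ Dd κ s y) / X.d

/-- the number of neighbours which are soft or have another label -/
noncomputable def w1 (X : Ctx V q A) (s : V) : ℝ :=
  (((nb X.G s).filter (fun y => y ∉ X.sol ∨ X.lam y ≠ X.lam s)).card : ℝ)

lemma nb_symm_sum (G : SimpleGraph V) (f : V → V → ℝ) :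
    ∑ s, ∑ y ∈ nb G s, f s y = ∑ s, ∑ y ∈ nb G s, f y s := by
  rw [sum_comm' (s' := fun y => nb G y) (t' := univ)]
  intro x y
  simp only [mem_univ, true_and, and_true, mem_nb]
  exact ⟨fun h => h.symm, fun h => h.symm⟩

lemma pairs_left (G : SimpleGraph V) (d : ℕ) (hreg : ∀ x, (nb G x).card = d) (S : Finset V) :
    ∑ s, ∑ _y ∈ nb G s, (if s ∈ S then (1 : ℝ) else 0) = d * S.card := by
  have : ∀ s, ∑ _y ∈ nb G s, (if s ∈ S then (1 : ℝ) else 0) = d * (if s ∈ S then (1 : ℝ) else 0) := by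
    intro s
    rw [sum_const, hreg, nsmul_eq_mul]
  rw [sum_congr rfl fun s _ => this s, ← mul_sum]
  congr 1
  simp

lemma pairs_or (G : SimpleGraph V) (d : ℕ) (hreg : ∀ x, (nb G x).card = d) (S : Finset V) :
    ∑ s, ∑ y ∈ nb G s, (if s ∈ S ∨ y ∈ S then (1 : ℝ) else 0) ≤ 2 * (d * S.card) := by
  have h1 := pairs_left G d hreg S
  have h2 : ∑ s, ∑ y ∈ nb G s, (if y ∈ S then (1 : ℝ) else 0) = d * S.card := by
    rw [← h1]; exact nb_symm_sum G (fun s y => if y ∈ S then (1 : ℝ) else 0)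
  calc ∑ s, ∑ y ∈ nb G s, (if s ∈ S ∨ y ∈ S then (1 : ℝ) else 0)
      ≤ ∑ s, ∑ y ∈ nb G s, ((if s ∈ S then (1 : ℝ) else 0) + (if y ∈ S then (1 : ℝ) else 0)) := by
        refine sum_le_sum fun s _ => sum_le_sum fun y _ => ?_
        by_cases a : s ∈ S <;> by_cases b : y ∈ S <;> simp [a, b]
    _ = 2 * (d * S.card) := by
        simp only [sum_add_distrib]
        rw [h1, h2]; ring

section ok
variable {X : Ctx V q A} {σ : V → Fin q} {Dd : Finset V} {κ e3 : ℝ}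

/-- the sum of the shares -/
lemma AOk.sumE (h : AOk X σ Dd κ e3) :
    ∑ s, (∑ y ∈ nb X.G s, X.ell σ e3 s y) / X.d
      ≤ (Fintype.card V : ℝ) / 2 * Real.log (mm A : ℝ)
        + 3 * q * e3 * ((X.sol)ᶜ.card : ℝ) - k0 A / (2 * X.d) * M2 X σ
        + 2 * Real.log ((q : ℝ) + 1) * ((X.D \ Dd).card : ℝ) := by
  have hd : (0 : ℝ) < X.d := by exact_mod_cast h.dpos
  have hA := h.tgt
  have he0 := h.e3pos
  have hq0 : (0 : ℝ) ≤ q := Nat.cast_nonneg q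
  obtain ⟨hC0, hC1, hC2⟩ := Cq_pos hA
  have hlq : 0 ≤ Real.log ((q : ℝ) + 1) := le_trans hC2 hC1
  rw [← sum_div]
  have h1 : ∑ s, ∑ y ∈ nb X.G s, X.ell σ e3 s y
      = (∑ s, ∑ y ∈ nb X.G s, (X.ell σ e3 s y + X.ell σ e3 y s)) / 2 := by
    simp only [sum_add_distrib]
    rw [nb_symm_sum X.G (fun s y => X.ell σ e3 y s)]
    ring
  have h2 : ∑ s, ∑ y ∈ nb X.G s, (X.ell σ e3 s y + X.ell σ e3 y s)
      ≤ ∑ s, ∑ y ∈ nb X.G s, (Real.log (mm A : ℝ)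
      + 3 * q * e3 * (if s ∈ (X.sol)ᶜ ∨ y ∈ (X.sol)ᶜ then 1 else 0)
      - k0 A * (if X.MM σ s y then 1 else 0)
      + 2 * Real.log ((q : ℝ) + 1) * (if s ∈ X.D \ Dd ∨ y ∈ X.D \ Dd then 1 else 0)) := by
    refine sum_le_sum fun s _ => sum_le_sum fun y hy => ?_
    have := h.edge (mem_nb.mp hy)
    simpa only [mem_compl] using this
  have h3 : ∑ s, ∑ y ∈ nb X.G s, (Real.log (mm A : ℝ)
      + 3 * q * e3 * (if s ∈ (X.sol)ᶜ ∨ y ∈ (X.sol)ᶜ then 1 else 0)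
      - k0 A * (if X.MM σ s y then 1 else 0)
      + 2 * Real.log ((q : ℝ) + 1) * (if s ∈ X.D \ Dd ∨ y ∈ X.D \ Dd then 1 else 0))
      = (Fintype.card V : ℝ) * X.d * Real.log (mm A : ℝ)
      + 3 * q * e3 * (∑ s, ∑ y ∈ nb X.G s, (if s ∈ (X.sol)ᶜ ∨ y ∈ (X.sol)ᶜ then (1 : ℝ) else 0))
      - k0 A * M2 X σ
      + 2 * Real.log ((q : ℝ) + 1) *
        (∑ s, ∑ y ∈ nb X.G s, (if s ∈ X.D \ Dd ∨ y ∈ X.D \ Dd then (1 : ℝ) else 0)) := by
    simp only [sum_add_distrib, sum_sub_distrib, ← mul_sum]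
    congr 3
    rw [sum_congr rfl fun s _ => by rw [sum_const, h.reg, nsmul_eq_mul]]
    rw [sum_const, nsmul_eq_mul, card_univ]
    ring
  have h4 := pairs_or X.G X.d h.reg (X.sol)ᶜ
  have h5 := pairs_or X.G X.d h.reg (X.D \ Dd)
  have h6 : 3 * q * e3 * (∑ s, ∑ y ∈ nb X.G s, (if s ∈ (X.sol)ᶜ ∨ y ∈ (X.sol)ᶜ then (1 : ℝ) else 0))
      ≤ 3 * q * e3 * (2 * (X.d * ((X.sol)ᶜ.card : ℝ))) :=
    mul_le_mul_of_nonneg_left h4 (by positivity)
  have h7 : 2 * Real.log ((q : ℝ) + 1) *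
        (∑ s, ∑ y ∈ nb X.G s, (if s ∈ X.D \ Dd ∨ y ∈ X.D \ Dd then (1 : ℝ) else 0))
      ≤ 2 * Real.log ((q : ℝ) + 1) * (2 * (X.d * ((X.D \ Dd).card : ℝ))) :=
    mul_le_mul_of_nonneg_left h5 (by linarith)
  rw [h1, div_div, div_le_iff₀ (by positivity)]
  have h8 : ((Fintype.card V : ℝ) / 2 * Real.log (mm A : ℝ)
        + 3 * q * e3 * ((X.sol)ᶜ.card : ℝ) - k0 A / (2 * X.d) * M2 X σ
        + 2 * Real.log ((q : ℝ) + 1) * ((X.D \ Dd).card : ℝ)) * (2 * X.d)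
      = (Fintype.card V : ℝ) * X.d * Real.log (mm A : ℝ)
      + 3 * q * e3 * (2 * (X.d * ((X.sol)ᶜ.card : ℝ))) - k0 A * M2 X σ
      + 2 * Real.log ((q : ℝ) + 1) * (2 * (X.d * ((X.D \ Dd).card : ℝ))) := by
    field_simp
  rw [h8]
  linarith

/-- the total -/
lemma AOk.sumTT (h : AOk X σ Dd κ e3) (C1 c5 : ℝ) :
    TT X C1 c5 Dd σ
      ≤ (Fintype.card V : ℝ) / 2 * Real.log (mm A : ℝ)
        + 3 * q * e3 * ((X.sol)ᶜ.card : ℝ) - k0 A / (2 * X.d) * M2 X σ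
        - (C1 - 2 * Real.log ((q : ℝ) + 1)) * ((X.D \ Dd).card : ℝ)
        - ∑ s ∈ X.rest, gs X σ Dd κ s
        - ∑ s ∈ (X.Rp \ X.D).filter (fun s => s ∈ X.sol), X.gR Dd κ s
        + (Real.log (q : ℝ) + Cq q) * (((X.Rp \ X.D).filter (fun s => s ∉ X.sol)).card : ℝ)
        + (Real.log (q : ℝ) + Cq q) / X.d *
          ∑ s ∈ (X.Rp \ X.D).filter (fun s => s ∈ X.sol), w1 X s
        + c5 * ((X.Ns (X.D \ Dd) \ X.D).card : ℝ)
        + X.cp * ∑ s ∈ X.rest, (X.KN σ s (σ s) : ℝ) := by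
  set E : V → ℝ := fun s => (∑ y ∈ nb X.G s, X.ell σ e3 s y) / X.d with hE
  have hsum := h.sumE
  -- decomposition of the sum of E
  have hu : ∑ s, E s = ∑ s ∈ Dd, E s + ∑ s ∈ X.D \ Dd, E s
      + ∑ s ∈ (X.Rp \ X.D).filter (fun s => s ∈ X.sol), E s
      + ∑ s ∈ (X.Rp \ X.D).filter (fun s => s ∉ X.sol), E s + ∑ s ∈ X.rest, E s := by
    have e1 : ∑ s ∈ Dd, E s + ∑ s ∈ X.D \ Dd, E s = ∑ s ∈ X.D, E s := by
      rw [add_comm]; exact sum_sdiff h.dsub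
    have e2 : ∑ s ∈ (X.Rp \ X.D).filter (fun s => s ∈ X.sol), E s
        + ∑ s ∈ (X.Rp \ X.D).filter (fun s => s ∉ X.sol), E s = ∑ s ∈ X.Rp \ X.D, E s :=
      sum_filter_add_sum_filter_not _ _ _
    have e4 : ∑ s ∈ X.D, E s + ∑ s ∈ X.Rp \ X.D, E s = ∑ s ∈ X.D ∪ X.Rp, E s := by
      rw [← sum_union disjoint_sdiff, union_sdiff_self_eq_union]
    have e5 : ∑ s ∈ X.rest, E s + ∑ s ∈ X.D ∪ X.Rp, E s = ∑ s, E s := by
      unfold Ctx.rest
      exact sum_sdiff (subset_univ _)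
    linarith
  -- the defect factors
  have hr : ∑ y ∈ X.Nb Dd \ X.D, Real.log (X.r σ y)
      = ∑ s ∈ (X.Rp \ X.D).filter (fun s => s ∈ X.sol),
          (if s ∈ X.Nb Dd then Real.log (X.r σ s) else 0)
        + ∑ s ∈ X.rest, (if s ∈ X.Nb Dd then Real.log (X.r σ s) else 0) := by
    rw [← sum_filter, ← sum_filter, ← sum_union]
    · refine sum_congr ?_ fun s _ => rfl
      ext s
      unfold Ctx.rest
      simp only [mem_sdiff, mem_union, mem_filter, mem_univ, true_and, not_or]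
      constructor
      · rintro ⟨h1, h2⟩
        by_cases h3 : s ∈ X.Rp
        · left; exact ⟨⟨⟨h3, h2⟩, (h.nbsol h1).1⟩, h1⟩
        · right; exact ⟨⟨h2, h3⟩, h1⟩
      · rintro (⟨⟨⟨h1, h2⟩, h3⟩, h4⟩ | ⟨⟨h1, h2⟩, h3⟩)
        · exact ⟨h4, h2⟩
        · exact ⟨h3, h1⟩
    · rw [disjoint_left]
      intro s hs hs'
      unfold Ctx.rest at hs'
      simp only [mem_sdiff, mem_union, mem_filter, mem_univ, true_and, not_or] at hs hs'
      exact hs'.1.2 hs.1.1.1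
  have hZP : ∑ s ∈ X.Rp \ X.D, Real.log (X.ZP σ s)
      = ∑ s ∈ (X.Rp \ X.D).filter (fun s => s ∈ X.sol), Real.log (X.ZP σ s)
        + ∑ s ∈ (X.Rp \ X.D).filter (fun s => s ∉ X.sol), Real.log (X.ZP σ s) :=
    (sum_filter_add_sum_filter_not _ _ _).symm
  have b1 : ∑ x ∈ Dd, Real.log ((X.base x).card : ℝ) = ∑ x ∈ Dd, E x :=
    sum_congr rfl fun x hx => h.vDeep hx
  have b2 : 0 ≤ ∑ x ∈ X.D \ Dd, E x :=
    sum_nonneg fun x hx => h.vD (mem_sdiff.mp hx).1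
  have b3 : ∑ s ∈ (X.Rp \ X.D).filter (fun s => s ∉ X.sol), Real.log (X.ZP σ s)
      ≤ ∑ s ∈ (X.Rp \ X.D).filter (fun s => s ∉ X.sol), E s
        + (Real.log (q : ℝ) + Cq q) * (((X.Rp \ X.D).filter (fun s => s ∉ X.sol)).card : ℝ) := by
    have : (Real.log (q : ℝ) + Cq q) * (((X.Rp \ X.D).filter (fun s => s ∉ X.sol)).card : ℝ)
        = ∑ _s ∈ (X.Rp \ X.D).filter (fun s => s ∉ X.sol), (Real.log (q : ℝ) + Cq q) := by
      rw [sum_const, nsmul_eq_mul]; ring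
    rw [this, ← sum_add_distrib]
    exact sum_le_sum fun s hs => h.vSoft (mem_filter.mp hs).2
  have b4 : ∑ s ∈ (X.Rp \ X.D).filter (fun s => s ∈ X.sol), Real.log (X.ZP σ s)
      - ∑ s ∈ (X.Rp \ X.D).filter (fun s => s ∈ X.sol),
          (if s ∈ X.Nb Dd then Real.log (X.r σ s) else 0)
      ≤ ∑ s ∈ (X.Rp \ X.D).filter (fun s => s ∈ X.sol), E s
        + (Real.log (q : ℝ) + Cq q) / X.d *
          ∑ s ∈ (X.Rp \ X.D).filter (fun s => s ∈ X.sol), w1 X s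
        - ∑ s ∈ (X.Rp \ X.D).filter (fun s => s ∈ X.sol), X.gR Dd κ s := by
    rw [mul_sum, ← sum_sub_distrib, ← sum_add_distrib, ← sum_sub_distrib]
    refine sum_le_sum fun s hs => ?_
    obtain ⟨h1, h2⟩ := mem_filter.mp hs
    exact h.vRsol h2 (mem_sdiff.mp h1).2
  have b5 : ∑ s ∈ X.rest, Real.log (X.ZZ σ s)
      - ∑ s ∈ X.rest, (if s ∈ X.Nb Dd then Real.log (X.r σ s) else 0)
      ≤ ∑ s ∈ X.rest, E s - ∑ s ∈ X.rest, gs X σ Dd κ s := by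
    rw [← sum_sub_distrib, ← sum_sub_distrib]
    refine sum_le_sum fun s hs => ?_
    have := h.vRest hs
    rw [sum_sub_distrib, sub_div] at this
    exact this
  have b6 : ∑ s ∈ X.rest, (X.cp * (X.KN σ s (σ s) : ℝ) + Real.log (X.ZZ σ s))
      = X.cp * ∑ s ∈ X.rest, (X.KN σ s (σ s) : ℝ) + ∑ s ∈ X.rest, Real.log (X.ZZ σ s) := by
    rw [sum_add_distrib, mul_sum]
  unfold TT
  rw [b6, hr, hZP, b1]
  have hsum' : ∑ s, E s ≤ (Fintype.card V : ℝ) / 2 * Real.log (mm A : ℝ)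
        + 3 * q * e3 * ((X.sol)ᶜ.card : ℝ) - k0 A / (2 * X.d) * M2 X σ
        + 2 * Real.log ((q : ℝ) + 1) * ((X.D \ Dd).card : ℝ) := hsum
  rw [hu] at hsum'
  linarith

end ok
end acc

end LD
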