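import Pool.Agent.W_5dd92e_ld.AccD

/-!
# MP_5dd92e_co, large degree theorem, ACCOUNT block (helper7): the local gains `v(y)`
-/

set_option autoImplicit false
set_option linter.unusedSectionVars false
set_option linter.unusedVariables false

open Finset
open scoped Classical

namespace LD

section acc
variable {V : Type*} [Fintype V] {q : ℕ} {A : Fin q → Fin q → ℝ}

/-- the context with another first side -/
noncomputable def Xo (X : Ctx V q A) (b : Bool) : Ctx V q A := { X with o := b }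

/-- number of neighbours of `y` in `M` -/
noncomputable def m1 (X : Ctx V q A) (σ : V → Fin q) (y : V) : ℝ :=
  ∑ s ∈ nb X.G y, (if X.MM σ y s then (1 : ℝ) else 0)

/-- the averaged gain (A') of `y` -/
noncomputable def gA (X : Ctx V q A) (σ : V → Fin q) (Dd : Finset V) (κ : ℝ) (y : V) : ℝ :=
  (gs (Xo X true) σ Dd κ y + gs (Xo X false) σ Dd κ y) / 2

/-- the local gain -/
noncomputable def vv (X : Ctx V q A) (σ : V → Fin q) (Dd : Finset V) (κ : ℝ) (y : V) : ℝ :=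
  k0 A / (4 * X.d) * m1 X σ y + ((nb X.G y ∩ (X.D \ Dd)).card : ℝ) / X.d
    + (if y ∈ X.rest then gA X σ Dd κ y else 0)
    + (if y ∈ (X.Rp \ X.D).filter (fun s => s ∈ X.sol) then X.gR Dd κ y else 0)

/-- the deficit -/
noncomputable def Def (X : Ctx V q A) (σ : V → Fin q) (Dd : Finset V) (κ : ℝ) : ℝ :=
  k0 A / (2 * X.d) * M2 X σ + 8 * ((X.D \ Dd).card : ℝ) + ∑ s ∈ X.rest, gA X σ Dd κ s
    + ∑ s ∈ (X.Rp \ X.D).filter (fun s => s ∈ X.sol), X.gR Dd κ s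

section ok
variable {X : Ctx V q A} {σ : V → Fin q} {Dd : Finset V} {κ e3 : ℝ}

lemma AOk.o (h : AOk X σ Dd κ e3) (b : Bool) : AOk (Xo X b) σ Dd κ e3 :=
  ⟨h.tgt, h.prp, h.reg, h.dpos, h.cpos, h.tpos, h.e3pos, h.e3a, h.e3b, h.e3c, h.pos, h.dD, h.dsub,
    h.dDD, h.sep⟩

lemma gn_nn (hA : Tgt A κ) (s y : V) : 0 ≤ X.gn σ Dd κ s y := by
  rcases gn_cases X σ Dd κ s y with h | h
  · rw [h]
  · rw [h]; exact (cc1_pos hA).le

lemma gs_nn (hA : Tgt A κ) (s : V) : 0 ≤ gs X σ Dd κ s := by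
  unfold gs
  apply div_nonneg (sum_nonneg fun y _ => gn_nn hA s y) (Nat.cast_nonneg _)

lemma gA_nn (hA : Tgt A κ) (s : V) : 0 ≤ gA X σ Dd κ s := by
  unfold gA
  have h1 := gs_nn (X := Xo X true) (σ := σ) (Dd := Dd) hA s
  have h2 := gs_nn (X := Xo X false) (σ := σ) (Dd := Dd) hA s
  linarith

lemma gR_nn (hA : Tgt A κ) (s : V) : 0 ≤ X.gR Dd κ s := by
  unfold Ctx.gR
  split_ifs
  · exact (cc1_pos hA).le
  · exact le_rfl

lemma m1_nn (y : V) : 0 ≤ m1 X σ y := sum_nonneg fun s _ => by split_ifs <;> norm_num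

lemma M2_nn : 0 ≤ M2 X σ := sum_nonneg fun y _ => m1_nn y

lemma vv_nn (h : AOk X σ Dd κ e3) (y : V) : 0 ≤ vv X σ Dd κ y := by
  have hA := h.tgt
  have hk := (k0_facts hA).1
  unfold vv
  have h1 : 0 ≤ k0 A / (4 * X.d) * m1 X σ y := by
    have := m1_nn (X := X) (σ := σ) y
    positivity
  have h2 : 0 ≤ ((nb X.G y ∩ (X.D \ Dd)).card : ℝ) / X.d := by positivity
  have h3 : 0 ≤ (if y ∈ X.rest then gA X σ Dd κ y else 0) := by
    split_ifs
    · exact gA_nn hA y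
    · exact le_rfl
  have h4 : 0 ≤ (if y ∈ (X.Rp \ X.D).filter (fun s => s ∈ X.sol) then X.gR Dd κ y else 0) := by
    split_ifs
    · exact gR_nn hA y
    · exact le_rfl
  linarith

/-- the sum of the local gains -/
lemma AOk.vsum (h : AOk X σ Dd κ e3) :
    ∑ y ∈ (X.D)ᶜ, vv X σ Dd κ y ≤ Def X σ Dd κ - k0 A / (4 * X.d) * M2 X σ
      - 7 * ((X.D \ Dd).card : ℝ) := by
  have hd : (0 : ℝ) < X.d := by exact_mod_cast h.dpos
  have hA := h.tgt
  have hk := (k0_facts hA).1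
  have e1 : ∑ y ∈ (X.D)ᶜ, k0 A / (4 * X.d) * m1 X σ y ≤ k0 A / (4 * X.d) * M2 X σ := by
    rw [← mul_sum]
    apply mul_le_mul_of_nonneg_left _ (by positivity)
    unfold M2
    exact sum_le_sum_of_subset_of_nonneg (subset_univ _) fun y _ _ => m1_nn y
  have e2 : ∑ y ∈ (X.D)ᶜ, ((nb X.G y ∩ (X.D \ Dd)).card : ℝ) / X.d ≤ ((X.D \ Dd).card : ℝ) := by
    rw [← sum_div, div_le_iff₀ hd]
    have a1 : ∑ y ∈ (X.D)ᶜ, ((nb X.G y ∩ (X.D \ Dd)).card : ℝ)
        ≤ ∑ y, ((nb X.G y ∩ (X.D \ Dd)).card : ℝ) :=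
      sum_le_sum_of_subset_of_nonneg (subset_univ _) fun y _ _ => Nat.cast_nonneg _
    have a2 : ∑ y, ((nb X.G y ∩ (X.D \ Dd)).card : ℝ)
        = ∑ y, ∑ s ∈ nb X.G y, (if s ∈ X.D \ Dd then (1 : ℝ) else 0) := by
      refine sum_congr rfl fun y _ => ?_
      rw [sum_boole, ← filter_mem_eq_inter]
    have a3 : ∑ y, ∑ s ∈ nb X.G y, (if s ∈ X.D \ Dd then (1 : ℝ) else 0)
        = X.d * ((X.D \ Dd).card : ℝ) := by
      rw [← pairs_left X.G X.d h.reg (X.D \ Dd)]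
      exact nb_symm_sum X.G (fun y s => if s ∈ X.D \ Dd then (1 : ℝ) else 0)
    rw [a2, a3] at a1
    linarith
  have e3 : ∑ y ∈ (X.D)ᶜ, (if y ∈ X.rest then gA X σ Dd κ y else 0)
      ≤ ∑ y ∈ X.rest, gA X σ Dd κ y := by
    rw [← sum_filter]
    apply sum_le_sum_of_subset_of_nonneg
    · intro y hy; exact (mem_filter.mp hy).2
    · intro y _ _; exact gA_nn hA y
  have e4 : ∑ y ∈ (X.D)ᶜ, (if y ∈ (X.Rp \ X.D).filter (fun s => s ∈ X.sol) then X.gR Dd κ y else 0)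
      ≤ ∑ y ∈ (X.Rp \ X.D).filter (fun s => s ∈ X.sol), X.gR Dd κ y := by
    rw [← sum_filter]
    apply sum_le_sum_of_subset_of_nonneg
    · intro y hy; exact (mem_filter.mp hy).2
    · intro y _ _; exact gR_nn hA y
  unfold vv Def
  rw [sum_add_distrib, sum_add_distrib, sum_add_distrib]
  have e5 : k0 A / (2 * X.d) * M2 X σ - k0 A / (4 * X.d) * M2 X σ = k0 A / (4 * X.d) * M2 X σ := by
    field_simp; ring
  linarith

lemma AOk.def_ge (h : AOk X σ Dd κ e3) :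
    ∑ y ∈ (X.D)ᶜ, vv X σ Dd κ y ≤ Def X σ Dd κ ∧ 8 * ((X.D \ Dd).card : ℝ) ≤ Def X σ Dd κ ∧
    k0 A / (2 * X.d) * M2 X σ ≤ Def X σ Dd κ ∧ 0 ≤ Def X σ Dd κ := by
  have hd : (0 : ℝ) < X.d := by exact_mod_cast h.dpos
  have hA := h.tgt
  have hk := (k0_facts hA).1
  have h1 := h.vsum
  have h2 := M2_nn (X := X) (σ := σ)
  have h3 : 0 ≤ k0 A / (4 * X.d) * M2 X σ := by positivity
  have h4 : (0 : ℝ) ≤ ((X.D \ Dd).card : ℝ) := Nat.cast_nonneg _
  have h5 : 0 ≤ k0 A / (2 * X.d) * M2 X σ := by positivity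
  have h6 : 0 ≤ ∑ s ∈ X.rest, gA X σ Dd κ s := sum_nonneg fun s _ => gA_nn hA s
  have h7 : 0 ≤ ∑ s ∈ (X.Rp \ X.D).filter (fun s => s ∈ X.sol), X.gR Dd κ s :=
    sum_nonneg fun s _ => gR_nn hA s
  refine ⟨by linarith, ?_, ?_, ?_⟩ <;> unfold Def <;> linarith

/-- vertices without phase -/
lemma AOk.v1 (h : AOk X σ Dd κ e3) {y : V} (hy : y ∉ X.D) (hn : ¬ ∃ P, X.HasPh σ y P) :
    g0 A κ ≤ vv X σ Dd κ y := by
  have hd : (0 : ℝ) < X.d := by exact_mod_cast h.dpos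
  have hA := h.tgt
  obtain ⟨hk, hk1, _⟩ := k0_facts hA
  have hg : g0 A κ ≤ k0 A / 4 := min_le_left _ _
  have e1 : k0 A / 4 ≤ k0 A / (4 * X.d) * m1 X σ y + ((nb X.G y ∩ (X.D \ Dd)).card : ℝ) / X.d := by
    have a2 : ((nb X.G y ∩ (X.D \ Dd)).card : ℝ)
        = ∑ s ∈ nb X.G y, (if s ∈ X.D \ Dd then (1 : ℝ) else 0) := by
      rw [sum_boole, ← filter_mem_eq_inter]
    rw [← h.sumconst y (k0 A / 4), a2]
    have a3 : k0 A / (4 * X.d) * m1 X σ y = (k0 A / 4 * m1 X σ y) / X.d := by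
      field_simp
    rw [a3, ← add_div]
    apply div_le_div_of_nonneg_right _ hd.le
    unfold m1
    rw [mul_sum, ← sum_add_distrib]
    refine sum_le_sum fun s hs => ?_
    have hadj := mem_nb.mp hs
    by_cases hsD : s ∈ X.D
    · have hsn : s ∈ X.D \ Dd := by
        rw [mem_sdiff]
        refine ⟨hsD, fun hsd => hn ?_⟩
        obtain ⟨h1, h2⟩ := h.deep hsd
        obtain ⟨h3, _⟩ := h2 y hadj.symm
        obtain ⟨P, hP⟩ := sol_lam h3
        exact ⟨P, hasPh_sol h3 hP⟩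
      rw [if_pos hsn]
      have : 0 ≤ k0 A / 4 * (if X.MM σ y s then (1 : ℝ) else 0) := by
        split_ifs <;> simp; linarith
      linarith
    · have hM : X.MM σ y s := ⟨hy, hsD, fun ⟨P, hP, _⟩ => hn ⟨P, hP⟩⟩
      rw [if_pos hM]
      have : (0 : ℝ) ≤ (if s ∈ X.D \ Dd then (1 : ℝ) else 0) := by split_ifs <;> norm_num
      linarith
  have h3 : 0 ≤ (if y ∈ X.rest then gA X σ Dd κ y else 0) := by
    split_ifs
    · exact gA_nn hA y
    · exact le_rfl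
  have h4 : 0 ≤ (if y ∈ (X.Rp \ X.D).filter (fun s => s ∈ X.sol) then X.gR Dd κ y else 0) := by
    split_ifs
    · exact gR_nn hA y
    · exact le_rfl
  unfold vv
  linarith

/-- a sensing vertex, one order -/
lemma AOk.vo (h : AOk X σ Dd κ e3) {y x : V} {P : Ph A} (hy : y ∉ X.D) (hN : y ∉ X.Nb Dd)
    (hP : X.HasPh σ y P) (hx : x ∈ X.Rev y) (hxs : σ x ∉ X.Phi σ y) :
    g0 A κ ≤ k0 A / (4 * X.d) * m1 X σ y + gs X σ Dd κ y := by
  have hd : (0 : ℝ) < X.d := by exact_mod_cast h.dpos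
  have hA := h.tgt
  obtain ⟨hk, hk1, _⟩ := k0_facts hA
  have hg : g0 A κ ≤ k0 A / 4 := min_le_left _ _
  have hg' : g0 A κ ≤ cc1 q κ := min_le_right _ _
  have hcc := cc1_pos hA
  rw [← h.sumconst y (g0 A κ)]
  have a3 : k0 A / (4 * X.d) * m1 X σ y = (k0 A / 4 * m1 X σ y) / X.d := by
    field_simp
  unfold gs
  rw [a3, ← add_div]
  apply div_le_div_of_nonneg_right _ hd.le
  unfold m1
  rw [mul_sum, ← sum_add_distrib]
  refine sum_le_sum fun s hs => ?_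
  by_cases hc : s ∈ X.D ∨ X.HasPh σ s P
  · have h1 : X.gn σ Dd κ y s = cc1 q κ := by
      unfold Ctx.gn
      rw [if_pos ⟨hN, ⟨x, hx, hxs⟩, P, hP, hc⟩]
    rw [h1]
    have : 0 ≤ k0 A / 4 * (if X.MM σ y s then (1 : ℝ) else 0) := by
      split_ifs <;> simp; linarith
    linarith
  · push Not at hc
    have hM : X.MM σ y s := by
      refine ⟨hy, hc.1, ?_⟩
      rintro ⟨P', h1, h2⟩
      have := hasPh_uniq h1 hP
      subst this
      exact hc.2 h2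
    rw [if_pos hM]
    have := gn_nn (X := X) (σ := σ) (Dd := Dd) hA y s
    linarith

/-- a vertex which senses a defect -/
lemma AOk.v3 (h : AOk X σ Dd κ e3) {y x : V} {P : Ph A} (hr : y ∈ X.rest) (hN : y ∉ X.Nb Dd)
    (hP : X.HasPh σ y P) (hx : x ∈ nb X.G y ∩ X.D) (hxs : σ x ∉ X.Phi σ y) :
    g0 A κ ≤ vv X σ Dd κ y := by
  have hA := h.tgt
  obtain ⟨hyD, _⟩ := h.sol_notmem_rest hr
  have hrev : ∀ b, x ∈ (Xo X b).Rev y := fun b => by
    apply rev_sub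
    obtain ⟨h1, h2⟩ := mem_inter.mp hx
    exact mem_inter.mpr ⟨h1, mem_union_left _ h2⟩
  have h1 := (h.o true).vo (y := y) (x := x) (P := P) hyD hN hP (hrev true) hxs
  have h2 := (h.o false).vo (y := y) (x := x) (P := P) hyD hN hP (hrev false) hxs
  have h1' : g0 A κ ≤ k0 A / (4 * X.d) * m1 X σ y + gs (Xo X true) σ Dd κ y := h1
  have h2' : g0 A κ ≤ k0 A / (4 * X.d) * m1 X σ y + gs (Xo X false) σ Dd κ y := h2
  have h3 : (0 : ℝ) ≤ ((nb X.G y ∩ (X.D \ Dd)).card : ℝ) / X.d := by positivity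
  have h4 : 0 ≤ (if y ∈ (X.Rp \ X.D).filter (fun s => s ∈ X.sol) then X.gR Dd κ y else 0) := by
    split_ifs
    · exact gR_nn hA y
    · exact le_rfl
  unfold vv
  rw [if_pos hr]
  unfold gA
  linarith

/-- a vertex which senses something -/
lemma AOk.v2 (h : AOk X σ Dd κ e3) {y x : V} {P : Ph A} (hr : y ∈ X.rest) (hN : y ∉ X.Nb Dd)
    (hP : X.HasPh σ y P) (hx : x ∈ nb X.G y) (hxs : σ x ∉ X.Phi σ y) :
    g0 A κ / 2 ≤ vv X σ Dd κ y := by
  have hA := h.tgt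
  obtain ⟨hk, hk1, _⟩ := k0_facts hA
  obtain ⟨hyD, _⟩ := h.sol_notmem_rest hr
  have hrev : x ∈ (Xo X (!X.c y)).Rev y := by
    unfold Ctx.Rev
    have : ¬ (Xo X (!X.c y)).c y = (Xo X (!X.c y)).o := by
      show ¬ X.c y = !X.c y
      cases X.c y <;> simp
    rw [if_neg this]
    exact hx
  have h1 := (h.o (!X.c y)).vo (y := y) (x := x) (P := P) hyD hN hP hrev hxs
  have h1' : g0 A κ ≤ k0 A / (4 * X.d) * m1 X σ y + gs (Xo X (!X.c y)) σ Dd κ y := h1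
  have h3 : (0 : ℝ) ≤ ((nb X.G y ∩ (X.D \ Dd)).card : ℝ) / X.d := by positivity
  have h4 : 0 ≤ (if y ∈ (X.Rp \ X.D).filter (fun s => s ∈ X.sol) then X.gR Dd κ y else 0) := by
    split_ifs
    · exact gR_nn hA y
    · exact le_rfl
  have h5 : 0 ≤ k0 A / (4 * X.d) * m1 X σ y := by
    have := m1_nn (X := X) (σ := σ) y
    positivity
  have t1 := gs_nn (X := Xo X true) (σ := σ) (Dd := Dd) hA y
  have t2 := gs_nn (X := Xo X false) (σ := σ) (Dd := Dd) hA y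
  unfold vv
  rw [if_pos hr]
  unfold gA
  cases hc : X.c y with
  | true =>
    rw [hc] at h1'
    simp only [Bool.not_true] at h1'
    linarith
  | false =>
    rw [hc] at h1'
    simp only [Bool.not_false] at h1'
    linarith

/-- a vertex of `R+` next to a defect with the same label -/
lemma AOk.v4 (h : AOk X σ Dd κ e3) {y x : V} (hR : y ∈ X.Rp) (hD : y ∉ X.D) (hsol : y ∈ X.sol)
    (hN : y ∉ X.Nb Dd) (hx : x ∈ nb X.G y ∩ X.D) (hl : X.lam x = X.lam y) :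
    g0 A κ ≤ vv X σ Dd κ y := by
  have hA := h.tgt
  obtain ⟨hk, hk1, _⟩ := k0_facts hA
  have hg' : g0 A κ ≤ cc1 q κ := min_le_right _ _
  have h3 : (0 : ℝ) ≤ ((nb X.G y ∩ (X.D \ Dd)).card : ℝ) / X.d := by positivity
  have h5 : 0 ≤ k0 A / (4 * X.d) * m1 X σ y := by
    have := m1_nn (X := X) (σ := σ) y
    positivity
  have h6 : 0 ≤ (if y ∈ X.rest then gA X σ Dd κ y else 0) := by
    split_ifs
    · exact gA_nn hA y
    · exact le_rfl
  unfold vv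
  rw [if_pos (mem_filter.mpr ⟨mem_sdiff.mpr ⟨hR, hD⟩, hsol⟩)]
  have : X.gR Dd κ y = cc1 q κ := by
    unfold Ctx.gR
    rw [if_pos ⟨hN, x, hx, hl⟩]
  rw [this]
  linarith

end ok
end acc

end LD
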