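import Pool.Agent.W_5dd92e_ld.AccE

/-!
# MP_5dd92e_co, large degree theorem, ACCOUNT block (helper7): the relabelling (8.1)
-/

set_option autoImplicit false
set_option linter.unusedSectionVars false
set_option linter.unusedVariables false

open Finset
open scoped Classical

namespace LD

section acc
variable {V : Type*} [Fintype V] {q : ℕ} {A : Fin q → Fin q → ℝ}

/-- the new label -/
noncomputable def lnew (X : Ctx V q A) (σ : V → Fin q) (l : V → Option (Ph A)) (x : V) :
    Option (Ph A) :=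
  if x ∈ X.sol ∨ x ∈ X.D then l x
  else if h : ∃ P, X.HasPh σ x P then some h.choose else none

lemma dis_card (G : SimpleGraph V) {Lam : Type*} (l : V → Option Lam) :
    ((Dis G l).card : ℝ) = ∑ x, ∑ y ∈ nb G x, (if l x ≠ l y then (1 : ℝ) else 0) := by
  unfold Dis nb
  rw [card_eq_sum_ones]
  push_cast
  rw [sum_filter, ← univ_product_univ, sum_product]
  refine sum_congr rfl fun x _ => ?_
  rw [sum_filter]
  refine sum_congr rfl fun y _ => ?_
  by_cases h1 : G.Adj x y <;> by_cases h2 : l x = l y <;> simp [h1, h2]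

section ok
variable {X : Ctx V q A} {σ : V → Fin q} {Dd : Finset V} {κ e3 : ℝ}

/-- Markov bound for the local gains -/
lemma AOk.markov (h : AOk X σ Dd κ e3) (S : Finset V) (hS : ∀ y ∈ S, y ∉ X.D) (t : ℝ)
    (ht : ∀ y ∈ S, t ≤ vv X σ Dd κ y) : t * S.card ≤ Def X σ Dd κ := by
  have h1 : t * S.card = ∑ _y ∈ S, t := by rw [sum_const, nsmul_eq_mul]; ring
  rw [h1]
  calc ∑ _y ∈ S, t ≤ ∑ y ∈ S, vv X σ Dd κ y := sum_le_sum ht
    _ ≤ ∑ y ∈ (X.D)ᶜ, vv X σ Dd κ y :=
        sum_le_sum_of_subset_of_nonneg (fun y hy => mem_compl.mpr (hS y hy)) fun y _ _ => vv_nn h y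
    _ ≤ _ := h.def_ge.1

/-- (8.1) -/
lemma AOk.relab (h : AOk X σ Dd κ e3) {l : V → Option (Ph A)} {ζ : ℝ} (hz0 : 0 < ζ)
    (hz1 : ζ ≤ 1 / 5) (hl : ∀ x P, X.lam x = some P → l x = some P)
    (hmin : IsMin X.G (Wr X.c σ) ζ X.d l) :
    ((Sens X.G (Wr X.c σ) l ∩ (X.sol)ᶜ).card : ℝ) + ζ * ((Om l).card : ℝ) + bb X.G X.d l
      ≤ CV A κ * Def X σ Dd κ + (((X.Rp \ X.D).filter (fun s => s ∉ X.sol)).card : ℝ) := by
  have hd : (0 : ℝ) < X.d := by exact_mod_cast h.dpos
  have hA := h.tgt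
  obtain ⟨hk, hk1, _⟩ := k0_facts hA
  have hg := g0_pos hA
  obtain ⟨hdef1, hdef2, hdef3, hdef0⟩ := h.def_ge
  set l' := lnew X σ l with hl'
  have hKl : ∀ x, x ∈ X.sol ∨ x ∈ X.D → ∃ P, X.lam x = some P ∧ l x = some P ∧ l' x = some P := by
    intro x hx
    have h1 : ∃ P, X.lam x = some P := by
      rcases hx with h1 | h1
      · exact sol_lam h1
      · obtain ⟨P, hP, _⟩ := h.wrong h1
        exact ⟨P, hP⟩
    obtain ⟨P, hP⟩ := h1
    refine ⟨P, hP, hl x P hP, ?_⟩
    rw [hl']; unfold lnew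
    rw [if_pos hx, hl x P hP]
  have hnew : ∀ x, ¬ (x ∈ X.sol ∨ x ∈ X.D) → ∀ P, (l' x = some P ↔ X.HasPh σ x P) := by
    intro x hx P
    rw [hl']; unfold lnew
    rw [if_neg hx]
    constructor
    · intro h1
      split_ifs at h1 with h2
      have h3 := h2.choose_spec
      have h4 : h2.choose = P := Option.some_injective _ h1
      rw [h4] at h3; exact h3
    · intro h1
      have h2 : ∃ P, X.HasPh σ x P := ⟨P, h1⟩
      rw [dif_pos h2]
      rw [hasPh_uniq h2.choose_spec h1]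
  -- comparison of the energies
  have hJ := hmin l'
  have hJJ : ∀ l'' : V → Option (Ph A), JJ X.G (Wr X.c σ) ζ X.d l'' =
      ((Sens X.G (Wr X.c σ) l'').card : ℝ) + ζ * ((Om l'').card : ℝ)
        + (1 + ζ) * bb X.G X.d l'' := by
    intro l''
    unfold JJ bb
    ring
  rw [hJJ, hJJ] at hJ
  have hS1 : Sens X.G (Wr X.c σ) l ∩ X.sol = Sens X.G (Wr X.c σ) l' ∩ X.sol := by
    ext x
    simp only [mem_inter]
    constructor
    · rintro ⟨h1, h2⟩
      refine ⟨?_, h2⟩
      obtain ⟨P, hP, hlP, hlP'⟩ := hKl x (Or.inl h2)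
      unfold Sens at h1 ⊢
      simp only [mem_filter, mem_univ, true_and] at h1 ⊢
      obtain ⟨P', h3, h4⟩ := h1
      rw [hlP] at h3
      have : P = P' := Option.some_injective _ h3
      subst this
      exact ⟨P, hlP', h4⟩
    · rintro ⟨h1, h2⟩
      refine ⟨?_, h2⟩
      obtain ⟨P, hP, hlP, hlP'⟩ := hKl x (Or.inl h2)
      unfold Sens at h1 ⊢
      simp only [mem_filter, mem_univ, true_and] at h1 ⊢
      obtain ⟨P', h3, h4⟩ := h1
      rw [hlP'] at h3
      have : P = P' := Option.some_injective _ h3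
      subst this
      exact ⟨P, hlP, h4⟩
  have hsplit : ∀ S : Finset V, (S.card : ℝ) = ((S ∩ X.sol).card : ℝ) + ((S ∩ (X.sol)ᶜ).card : ℝ) := by
    intro S
    rw [← Nat.cast_add, ← card_union_of_disjoint]
    · congr 2
      ext x; simp only [mem_union, mem_inter, mem_compl]; tauto
    · rw [disjoint_left]; intro x h1 h2
      exact (mem_compl.mp (mem_inter.mp h2).2) (mem_inter.mp h1).2
  rw [hsplit (Sens X.G (Wr X.c σ) l), hsplit (Sens X.G (Wr X.c σ) l'), hS1] at hJ
  -- bound of the soft sensing vertices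
  set Rs := (X.Rp \ X.D).filter (fun s => s ∉ X.sol) with hRs
  set S2 := (Sens X.G (Wr X.c σ) l' ∩ (X.sol)ᶜ).filter (fun y => y ∈ X.rest) with hS2
  have hB1 : ((Sens X.G (Wr X.c σ) l' ∩ (X.sol)ᶜ).card : ℝ)
      ≤ ((X.D \ Dd).card : ℝ) + (Rs.card : ℝ) + (S2.card : ℝ) := by
    have hsub : Sens X.G (Wr X.c σ) l' ∩ (X.sol)ᶜ ⊆ (X.D \ Dd) ∪ Rs ∪ S2 := by
      intro x hx
      have hx2 : x ∉ X.sol := mem_compl.mp (mem_inter.mp hx).2
      simp only [mem_union]
      by_cases hD : x ∈ X.D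
      · left; left
        rw [mem_sdiff]
        exact ⟨hD, fun hc => hx2 (h.deep hc).1⟩
      · by_cases hR : x ∈ X.Rp
        · left; right
          rw [hRs]
          exact mem_filter.mpr ⟨mem_sdiff.mpr ⟨hR, hD⟩, hx2⟩
        · right
          rw [hS2]
          refine mem_filter.mpr ⟨hx, ?_⟩
          unfold Ctx.rest
          simp [hD, hR]
    have := card_le_card hsub
    have h2 := card_union_le ((X.D \ Dd) ∪ Rs) S2
    have h3 := card_union_le (X.D \ Dd) Rs
    have h4 : (Sens X.G (Wr X.c σ) l' ∩ (X.sol)ᶜ).card ≤ (X.D \ Dd).card + Rs.card + S2.card := by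
      omega
    exact_mod_cast h4
  have hB2 : g0 A κ / 2 * S2.card ≤ Def X σ Dd κ := by
    refine h.markov S2 ?_ _ ?_
    · intro y hy
      have := (mem_filter.mp hy).2
      exact (h.sol_notmem_rest this).1
    · intro y hy
      obtain ⟨h1, h2⟩ := mem_filter.mp hy
      obtain ⟨h3, h4⟩ := mem_inter.mp h1
      have h4' : y ∉ X.sol := mem_compl.mp h4
      have hyD := (h.sol_notmem_rest h2).1
      unfold Sens at h3
      simp only [mem_filter, mem_univ, true_and] at h3
      obtain ⟨P, hP, z, hz, hw⟩ := h3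
      have hph := (hnew y (by tauto) P).mp hP
      refine h.v2 (x := z) h2 ?_ hph (mem_nb.mpr hz) ?_
      · intro hc; exact h4' (h.nbsol hc).1
      · rw [hph.2, patN_eq h.prp P hz]; exact hw
  -- bound of Om l'
  have hB3 : g0 A κ * (Om l').card ≤ Def X σ Dd κ := by
    refine h.markov (Om l') ?_ _ ?_
    · intro y hy hD
      obtain ⟨P, _, _, h3⟩ := hKl y (Or.inr hD)
      unfold Om at hy
      rw [mem_filter] at hy
      rw [hy.2] at h3
      exact absurd h3 (by simp)
    · intro y hy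
      unfold Om at hy
      have hy' := (mem_filter.mp hy).2
      have hns : ¬ (y ∈ X.sol ∨ y ∈ X.D) := by
        intro hc
        obtain ⟨P, _, _, h3⟩ := hKl y hc
        rw [hy'] at h3
        exact absurd h3 (by simp)
      refine h.v1 (by tauto) ?_
      rintro ⟨P, hP⟩
      have := (hnew y hns P).mpr hP
      rw [hy'] at this
      exact absurd this (by simp)
  -- bound of bb l'
  have hB4 : ((Dis X.G l').card : ℝ) ≤ 2 * (X.d * ((X.D \ Dd).card : ℝ)) + M2 X σ := by
    rw [dis_card]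
    have hpo := pairs_or X.G X.d h.reg (X.D \ Dd)
    have : ∑ x, ∑ y ∈ nb X.G x, (if l' x ≠ l' y then (1 : ℝ) else 0)
        ≤ ∑ x, ∑ y ∈ nb X.G x, ((if x ∈ X.D \ Dd ∨ y ∈ X.D \ Dd then (1 : ℝ) else 0)
          + (if X.MM σ x y then (1 : ℝ) else 0)) := by
      refine sum_le_sum fun x _ => sum_le_sum fun y hy => ?_
      have hadj := mem_nb.mp hy
      by_cases hne : l' x ≠ l' y
      · rw [if_pos hne]
        by_cases hc : x ∈ X.D \ Dd ∨ y ∈ X.D \ Dd
        · rw [if_pos hc]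
          have : (0 : ℝ) ≤ (if X.MM σ x y then (1 : ℝ) else 0) := by split_ifs <;> norm_num
          linarith
        · have hxD : x ∉ X.D := by
            intro hxD
            have hxd : x ∈ Dd := by
              by_contra hcon; exact hc (Or.inl (mem_sdiff.mpr ⟨hxD, hcon⟩))
            obtain ⟨h1, h2⟩ := h.deep hxd
            obtain ⟨h3, h4, _⟩ := h2 y hadj
            obtain ⟨P, e1, _, e2⟩ := hKl x (Or.inl h1)
            obtain ⟨P', e1', _, e2'⟩ := hKl y (Or.inl h3)
            apply hne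
            rw [e2, e2']
            rw [e1, e1'] at h4
            exact h4.symm
          have hyD : y ∉ X.D := by
            intro hyD
            have hyd : y ∈ Dd := by
              by_contra hcon; exact hc (Or.inr (mem_sdiff.mpr ⟨hyD, hcon⟩))
            obtain ⟨h1, h2⟩ := h.deep hyd
            obtain ⟨h3, h4, _⟩ := h2 x hadj.symm
            obtain ⟨P, e1, _, e2⟩ := hKl y (Or.inl h1)
            obtain ⟨P', e1', _, e2'⟩ := hKl x (Or.inl h3)
            apply hne
            rw [e2, e2']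
            rw [e1, e1'] at h4
            exact h4
          have hM : X.MM σ x y := by
            refine ⟨hxD, hyD, ?_⟩
            rintro ⟨P, hP1, hP2⟩
            have hl1 : ∀ z, z ∉ X.D → X.HasPh σ z P → l' z = some P := by
              intro z hz hPz
              by_cases hzs : z ∈ X.sol
              · obtain ⟨P', e1, _, e2⟩ := hKl z (Or.inl hzs)
                rw [e2, hasPh_uniq (hasPh_sol hzs e1) hPz]
              · exact (hnew z (by tauto) P).mpr hPz
            apply hne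
            rw [hl1 x hxD hP1, hl1 y hyD hP2]
          rw [if_pos hM]
          have : (0 : ℝ) ≤ (if x ∈ X.D \ Dd ∨ y ∈ X.D \ Dd then (1 : ℝ) else 0) := by
            split_ifs <;> norm_num
          linarith
      · rw [if_neg hne]
        have a1 : (0 : ℝ) ≤ (if X.MM σ x y then (1 : ℝ) else 0) := by split_ifs <;> norm_num
        have a2 : (0 : ℝ) ≤ (if x ∈ X.D \ Dd ∨ y ∈ X.D \ Dd then (1 : ℝ) else 0) := by
          split_ifs <;> norm_num
        linarith
    have e5 : ∑ x, ∑ y ∈ nb X.G x, ((if x ∈ X.D \ Dd ∨ y ∈ X.D \ Dd then (1 : ℝ) else 0)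
          + (if X.MM σ x y then (1 : ℝ) else 0))
        = ∑ x, ∑ y ∈ nb X.G x, (if x ∈ X.D \ Dd ∨ y ∈ X.D \ Dd then (1 : ℝ) else 0)
          + M2 X σ := by
      unfold M2
      simp only [sum_add_distrib]
    rw [e5] at this
    linarith
  have h2d : (0 : ℝ) < 2 * X.d := by linarith
  have hB5 : bb X.G X.d l' ≤ ((X.D \ Dd).card : ℝ) + M2 X σ / (2 * X.d) := by
    unfold bb
    rw [div_le_iff₀ h2d]
    have : (((X.D \ Dd).card : ℝ) + M2 X σ / (2 * X.d)) * (2 * X.d)
        = 2 * (X.d * ((X.D \ Dd).card : ℝ)) + M2 X σ := by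
      rw [add_mul, div_mul_cancel₀ _ h2d.ne']; ring
    rw [this]; exact hB4
  -- numbers
  have n1 : ((X.D \ Dd).card : ℝ) ≤ Def X σ Dd κ / 8 := by linarith
  have n2 : M2 X σ / (2 * X.d) ≤ Def X σ Dd κ / k0 A := by
    rw [le_div_iff₀ hk]
    have : M2 X σ / (2 * X.d) * k0 A = k0 A / (2 * X.d) * M2 X σ := by ring
    rw [this]; exact hdef3
  have n3 : (S2.card : ℝ) ≤ 2 * (Def X σ Dd κ / g0 A κ) := by
    have : (S2.card : ℝ) ≤ 2 * Def X σ Dd κ / g0 A κ := by
      rw [le_div_iff₀ hg]; linarith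
    linarith [this, mul_div_assoc (2 : ℝ) (Def X σ Dd κ) (g0 A κ)]
  have n4 : ((Om l').card : ℝ) ≤ Def X σ Dd κ / g0 A κ := by
    rw [le_div_iff₀ hg]; linarith
  have n5 : 0 ≤ bb X.G X.d l := by unfold bb; exact div_nonneg (Nat.cast_nonneg _) h2d.le
  have n6 : 0 ≤ Def X σ Dd κ / g0 A κ := div_nonneg hdef0 hg.le
  have n7 : 0 ≤ Def X σ Dd κ / k0 A := div_nonneg hdef0 hk.le
  have n8 : (0 : ℝ) ≤ ((Om l').card : ℝ) := Nat.cast_nonneg _
  have n9 : 0 ≤ bb X.G X.d l' := by unfold bb; exact div_nonneg (Nat.cast_nonneg _) h2d.le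
  have hCV : CV A κ * Def X σ Dd κ = 3 * (Def X σ Dd κ / g0 A κ) + 4 * (Def X σ Dd κ / k0 A)
      + Def X σ Dd κ := by
    unfold CV; ring
  rw [hCV]
  have m1' : ζ * ((Om l').card : ℝ) ≤ 1 / 5 * (Def X σ Dd κ / g0 A κ) := by nlinarith
  have m2' : (1 + ζ) * bb X.G X.d l' ≤ 6 / 5 * (Def X σ Dd κ / 8 + Def X σ Dd κ / k0 A) := by
    have : bb X.G X.d l' ≤ Def X σ Dd κ / 8 + Def X σ Dd κ / k0 A := by linarith
    nlinarith
  have m3' : bb X.G X.d l ≤ (1 + ζ) * bb X.G X.d l := by nlinarith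
  linarith

end ok
end acc

end LD
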