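import Pool.Agent.W_5dd92e_ld.AccF

/-!
# MP_5dd92e_co, large degree theorem, ACCOUNT block (helper7): the duties (8.2)
-/

set_option autoImplicit false
set_option linter.unusedSectionVars false
set_option linter.unusedVariables false

open Finset
open scoped Classical

namespace LD

section acc
variable {V : Type*} [Fintype V] {q : ℕ} {A : Fin q → Fin q → ℝ}

/-- pairs `(y, s)` with `y ∈ R+`, `s ∈ N(y)`, where `y` or `s` is soft or the labels disagree -/
noncomputable def WW (G : SimpleGraph V) (d : ℕ) (δ : ℝ) (lam l : V → Option (Ph A))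
    (Rp : Finset V) : Finset (V × V) :=
  univ.filter (fun e => e.1 ∈ Rp ∧ G.Adj e.1 e.2 ∧
    (e.1 ∈ Soft G d δ lam ∨ e.2 ∈ Soft G d δ lam ∨ l e.1 ≠ l e.2))

/-- vertices with a bad sample: some colour is frequent on `N(y)` but not on `N(y) ∩ R+` -/
noncomputable def Bad (G : SimpleGraph V) (d : ℕ) (δ τF ε0 : ℝ) (lam : V → Option (Ph A))
    (Rp : Finset V) (σ : V → Fin q) : Finset V :=
  (Soft G d δ lam).filter (fun y => ∃ a : Fin q,
    ε0 * d ≤ (((nb G y).filter (fun x => σ x = a)).card : ℝ) ∧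
    (((nb G y ∩ Rp).filter (fun x => σ x = a)).card : ℝ) < τF)

/-- the duties at `y` -/
noncomputable def du (X : Ctx V q A) (σ : V → Fin q) (y : V) : ℝ :=
  (((nb X.G y).filter (fun s => s ∈ X.rest ∧ σ s ∉ X.Phi σ y)).card : ℝ)

lemma du_swap (X : Ctx V q A) (σ : V → Fin q) :
    ∑ s ∈ X.rest, (X.KN σ s (σ s) : ℝ) = ∑ y ∈ (X.D)ᶜ, du X σ y := by
  have h1 : ∀ s, (if s ∈ X.rest then (X.KN σ s (σ s) : ℝ) else 0)
      = ∑ y ∈ nb X.G s, (if s ∈ X.rest ∧ y ∉ X.D ∧ σ s ∉ X.Phi σ y then (1 : ℝ) else 0) := by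
    intro s
    by_cases hs : s ∈ X.rest
    · rw [if_pos hs]
      unfold Ctx.KN
      rw [sum_boole]
      congr 2
      ext y
      simp only [mem_filter, mem_sdiff]
      tauto
    · rw [if_neg hs]
      symm
      apply sum_eq_zero
      intro y _
      rw [if_neg (fun h => hs h.1)]
  have h2 : ∀ y, (if y ∈ (X.D)ᶜ then du X σ y else 0)
      = ∑ s ∈ nb X.G y, (if s ∈ X.rest ∧ y ∉ X.D ∧ σ s ∉ X.Phi σ y then (1 : ℝ) else 0) := by
    intro y
    by_cases hy : y ∈ (X.D)ᶜ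
    · rw [if_pos hy]
      unfold du
      rw [sum_boole]
      congr 2
      ext s
      simp only [mem_filter]
      have := mem_compl.mp hy
      tauto
    · rw [if_neg hy]
      symm
      apply sum_eq_zero
      intro s _
      rw [if_neg (fun h => hy (mem_compl.mpr h.2.1))]
  rw [← sum_filter_univ_rest X.rest, ← sum_filter_univ_rest (X.D)ᶜ]
  rw [sum_congr rfl fun s _ => h1 s, sum_congr rfl fun y _ => h2 y]
  exact nb_symm_sum X.G
    (fun s y => if s ∈ X.rest ∧ y ∉ X.D ∧ σ s ∉ X.Phi σ y then (1 : ℝ) else 0)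
where
  sum_filter_univ_rest (S : Finset V) {f : V → ℝ} :
      ∑ s, (if s ∈ S then f s else 0) = ∑ s ∈ S, f s := by
    rw [← sum_filter]
    congr 1
    ext s; simp

section ok
variable {X : Ctx V q A} {σ : V → Fin q} {Dd : Finset V} {κ e3 : ℝ}

/-- a vertex with a duty is not next to a deep defect -/
lemma AOk.du_nb (h : AOk X σ Dd κ e3) {y s : V} (hadj : X.G.Adj y s) (hs : s ∈ X.rest)
    (hn : σ s ∉ X.Phi σ y) : y ∉ X.Nb Dd := by
  intro hN
  obtain ⟨h1, h2⟩ := h.nbsol hN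
  obtain ⟨h3, h4⟩ := h2 s hadj
  obtain ⟨P, hP⟩ := sol_lam h1
  rw [hP] at h4
  apply hn
  rw [Phi_sol h1 hP, patN_eq h.prp P hadj]
  exact h.good h3 (h.sol_notmem_rest hs).1 h4

/-- if there is a duty at `y`, the gain is at least `g0/2` -/
lemma AOk.du_v (h : AOk X σ Dd κ e3) {y : V} (hy : y ∈ X.rest) (hne : du X σ y ≠ 0) :
    g0 A κ / 2 ≤ vv X σ Dd κ y := by
  have hg := g0_pos h.tgt
  unfold du at hne
  have hne' : ((nb X.G y).filter (fun s => s ∈ X.rest ∧ σ s ∉ X.Phi σ y)).card ≠ 0 := by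
    intro hc; rw [hc] at hne; simp at hne
  obtain ⟨s, hs⟩ := card_pos.mp (Nat.pos_of_ne_zero hne')
  obtain ⟨h1, h2, h3⟩ := mem_filter.mp hs
  have hN := h.du_nb (mem_nb.mp h1) h2 h3
  by_cases hph : ∃ P, X.HasPh σ y P
  · obtain ⟨P, hP⟩ := hph
    exact h.v2 hy hN hP h1 h3
  · have := h.v1 (h.sol_notmem_rest hy).1 hph
    linarith

/-- duties at a vertex of `Sol` -/
lemma AOk.du_sol (h : AOk X σ Dd κ e3) {y : V} (hsol : y ∈ X.sol) : du X σ y ≤ X.δ * X.d := by
  obtain ⟨P, hP⟩ := sol_lam hsol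
  have h1 : (1 - X.δ) * (X.d : ℝ) ≤ ((Hs X.G X.lam y ∩ Khi X.G X.d X.lam).card : ℝ) := by
    have : y ∈ Sol X.G X.d X.δ X.lam := hsol
    unfold Sol at this
    exact (mem_filter.mp this).2
  have hdisj : Disjoint ((nb X.G y).filter (fun s => s ∈ X.rest ∧ σ s ∉ X.Phi σ y))
      (Hs X.G X.lam y ∩ Khi X.G X.d X.lam) := by
    rw [disjoint_left]
    intro s hs hs'
    obtain ⟨h2, h3, h4⟩ := mem_filter.mp hs
    obtain ⟨h5, h6⟩ := mem_inter.mp hs'
    unfold Hs at h5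
    have h7 := (mem_filter.mp h5).2
    rw [hP] at h7
    have hsD := (h.sol_notmem_rest h3).1
    apply h4
    rw [Phi_sol hsol hP, patN_eq h.prp P (mem_nb.mp h2)]
    by_contra hcon
    apply hsD
    rw [h.dD]
    unfold DF
    exact mem_filter.mpr ⟨h6, P, h7, hcon⟩
  have hsub : (nb X.G y).filter (fun s => s ∈ X.rest ∧ σ s ∉ X.Phi σ y) ∪
      (Hs X.G X.lam y ∩ Khi X.G X.d X.lam) ⊆ nb X.G y := by
    intro s hs
    rcases mem_union.mp hs with h2 | h2
    · exact (mem_filter.mp h2).1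
    · have := (mem_inter.mp h2).1
      unfold Hs at this
      exact (mem_filter.mp this).1
  have hc := card_le_card hsub
  rw [card_union_of_disjoint hdisj, h.reg] at hc
  have hc' : (((nb X.G y).filter (fun s => s ∈ X.rest ∧ σ s ∉ X.Phi σ y)).card : ℝ)
      + ((Hs X.G X.lam y ∩ Khi X.G X.d X.lam).card : ℝ) ≤ X.d := by exact_mod_cast hc
  unfold du
  linarith

/-- duties at a soft vertex with a good sample -/
lemma AOk.du_soft (h : AOk X σ Dd κ e3) {y : V} {ε0 : ℝ} (hε : 0 < ε0) (hsol : y ∉ X.sol)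
    (hb : y ∉ Bad X.G X.d X.δ X.τF ε0 X.lam X.Rp σ) : du X σ y ≤ q * (ε0 * X.d) := by
  have hcnt : ∀ a, a ∉ X.F σ y → (((nb X.G y).filter (fun x => σ x = a)).card : ℝ) ≤ ε0 * X.d := by
    intro a ha
    by_contra hcon
    apply hb
    unfold Bad
    refine mem_filter.mpr ⟨?_, a, (not_le.mp hcon).le, ?_⟩
    · unfold Soft
      exact mem_compl.mpr hsol
    · by_contra hcon2
      apply ha
      unfold Ctx.F
      exact mem_filter.mpr ⟨mem_univ _, not_lt.mp hcon2⟩
  have hsub : (nb X.G y).filter (fun s => s ∈ X.rest ∧ σ s ∉ X.Phi σ y)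
      ⊆ (X.F σ y)ᶜ.biUnion (fun a => (nb X.G y).filter (fun x => σ x = a)) := by
    intro s hs
    obtain ⟨h2, h3, h4⟩ := mem_filter.mp hs
    rw [Phi_soft hsol] at h4
    rw [mem_biUnion]
    exact ⟨σ s, mem_compl.mpr h4, mem_filter.mpr ⟨h2, rfl⟩⟩
  have h1 := (card_le_card hsub).trans card_biUnion_le
  have h2 : du X σ y ≤ ∑ a ∈ (X.F σ y)ᶜ, (((nb X.G y).filter (fun x => σ x = a)).card : ℝ) := by
    unfold du
    exact_mod_cast h1
  refine h2.trans ?_
  calc ∑ a ∈ (X.F σ y)ᶜ, (((nb X.G y).filter (fun x => σ x = a)).card : ℝ)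
      ≤ ∑ a ∈ (X.F σ y)ᶜ, ε0 * X.d := by
        refine sum_le_sum fun a ha => hcnt a (mem_compl.mp ha)
    _ = (((X.F σ y)ᶜ.card : ℕ) : ℝ) * (ε0 * X.d) := by rw [sum_const, nsmul_eq_mul]
    _ ≤ q * (ε0 * X.d) := by
        apply mul_le_mul_of_nonneg_right _ (by positivity)
        have := card_le_univ (X.F σ y)ᶜ
        rw [Fintype.card_fin] at this
        exact_mod_cast this

lemma AOk.du_le_d (h : AOk X σ Dd κ e3) (y : V) : du X σ y ≤ X.d := by
  unfold du
  rw [← h.reg y]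
  exact_mod_cast card_le_card (filter_subset _ _)

lemma du_nn (X : Ctx V q A) (σ : V → Fin q) (y : V) : 0 ≤ du X σ y := by
  unfold du; positivity

/-- duties at the vertices of `R+` -/
lemma AOk.du_R (h : AOk X σ Dd κ e3) {l : V → Option (Ph A)}
    (hl : ∀ x P, X.lam x = some P → l x = some P) :
    ∑ y ∈ X.Rp \ X.D, du X σ y ≤ ((WW X.G X.d X.δ X.lam l X.Rp).card : ℝ) := by
  have h1 : ∑ y ∈ X.Rp \ X.D, du X σ y
      = (((X.Rp \ X.D).sigma (fun y => (nb X.G y).filter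
        (fun s => s ∈ X.rest ∧ σ s ∉ X.Phi σ y))).card : ℝ) := by
    rw [card_sigma]
    push_cast
    rfl
  rw [h1]
  norm_cast
  refine card_le_card_of_injOn (fun e => (e.1, e.2)) ?_ ?_
  · intro e he
    rw [mem_coe, mem_sigma] at he
    obtain ⟨h2, h3⟩ := he
    obtain ⟨h4, h5, h6⟩ := mem_filter.mp h3
    obtain ⟨h7, h8⟩ := mem_sdiff.mp h2
    have hadj := mem_nb.mp h4
    rw [mem_coe]
    unfold WW
    refine mem_filter.mpr ⟨mem_univ _, h7, hadj, ?_⟩
    by_contra hcon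
    push Not at hcon
    obtain ⟨c1, c2, c3⟩ := hcon
    unfold Soft at c1 c2
    rw [mem_compl, not_not] at c1 c2
    obtain ⟨P, hP⟩ := sol_lam (X := X) c1
    obtain ⟨P', hP'⟩ := sol_lam (X := X) c2
    have e1 := hl _ _ hP
    have e2 := hl _ _ hP'
    simp only at c3
    rw [e1, e2] at c3
    have : P = P' := Option.some_injective _ c3
    subst this
    apply h6
    rw [Phi_sol (X := X) c1 hP, patN_eq h.prp P hadj]
    exact h.good c2 (h.sol_notmem_rest h5).1 hP'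
  · intro e _ e' _ hee
    simp only [Prod.mk.injEq] at hee
    obtain ⟨a, b⟩ := e
    obtain ⟨a', b'⟩ := e'
    simp only at hee
    obtain ⟨rfl, rfl⟩ := hee
    rfl

/-- (8.2), the duties `c'` -/
lemma AOk.duty (h : AOk X σ Dd κ e3) {l : V → Option (Ph A)} {ε0 ca : ℝ} (hε : 0 < ε0)
    (hδ : 0 < X.δ)
    (hl : ∀ x P, X.lam x = some P → l x = some P) (h1 : X.cp * X.δ * X.d ≤ ca)
    (h2 : X.cp * ε0 * X.d ≤ ca) (h3 : q * ca ≤ g0 A κ / 16) :
    X.cp * ∑ s ∈ X.rest, (X.KN σ s (σ s) : ℝ)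
      ≤ X.cp * ((WW X.G X.d X.δ X.lam l X.Rp).card : ℝ)
        + X.cp * X.d * ((Bad X.G X.d X.δ X.τF ε0 X.lam X.Rp σ).card : ℝ)
        + Def X σ Dd κ / 8 := by
  have hcp := h.cpos
  have hd : (0 : ℝ) < X.d := by exact_mod_cast h.dpos
  have hg := g0_pos h.tgt
  have hq1 : (1 : ℝ) ≤ q := by exact_mod_cast q_pos h.tgt
  have hca0 : 0 ≤ ca := by
    have : 0 ≤ X.cp * X.δ * X.d := by positivity
    linarith
  have hca : ca ≤ g0 A κ / 16 := by nlinarith
  rw [du_swap]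
  have hsplit : ∑ y ∈ (X.D)ᶜ, du X σ y = ∑ y ∈ X.Rp \ X.D, du X σ y + ∑ y ∈ X.rest, du X σ y := by
    rw [← sum_union]
    · refine sum_congr ?_ fun _ _ => rfl
      ext y
      unfold Ctx.rest
      simp only [mem_compl, mem_union, mem_sdiff, mem_univ, true_and]
      tauto
    · rw [disjoint_left]
      intro y h4 h5
      exact (h.sol_notmem_rest h5).2 (mem_sdiff.mp h4).1
  rw [hsplit, mul_add]
  have hR := mul_le_mul_of_nonneg_left (h.du_R hl) hcp.le
  have hrest : X.cp * ∑ y ∈ X.rest, du X σ y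
      ≤ X.cp * X.d * ((Bad X.G X.d X.δ X.τF ε0 X.lam X.Rp σ).card : ℝ)
        + Def X σ Dd κ / 8 := by
    have hterm : ∀ y ∈ X.rest, X.cp * du X σ y ≤
        X.cp * X.d * (if y ∈ Bad X.G X.d X.δ X.τF ε0 X.lam X.Rp σ then 1 else 0)
          + vv X σ Dd κ y / 8 := by
      intro y hy
      have hv := vv_nn h y
      by_cases hb : y ∈ Bad X.G X.d X.δ X.τF ε0 X.lam X.Rp σ
      · rw [if_pos hb]
        have := mul_le_mul_of_nonneg_left (h.du_le_d y) hcp.le
        linarith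
      · rw [if_neg hb]
        by_cases hz : du X σ y = 0
        · rw [hz]; simp; linarith
        · have hv2 := h.du_v hy hz
          have : X.cp * du X σ y ≤ g0 A κ / 16 := by
            by_cases hsol : y ∈ X.sol
            · have h5 := mul_le_mul_of_nonneg_left (h.du_sol hsol) hcp.le
              have h6 : X.cp * (X.δ * X.d) = X.cp * X.δ * X.d := by ring
              linarith
            · have h5 := mul_le_mul_of_nonneg_left (h.du_soft hε hsol hb) hcp.le
              have h6 : X.cp * (q * (ε0 * X.d)) = q * (X.cp * ε0 * X.d) := by ring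
              have h7 : (q : ℝ) * (X.cp * ε0 * X.d) ≤ q * ca :=
                mul_le_mul_of_nonneg_left h2 (by linarith)
              linarith
          linarith
    have h8 := sum_le_sum hterm
    rw [← mul_sum, sum_add_distrib, ← mul_sum] at h8
    have h9 : ∑ y ∈ X.rest, (if y ∈ Bad X.G X.d X.δ X.τF ε0 X.lam X.Rp σ then (1 : ℝ) else 0)
        ≤ ((Bad X.G X.d X.δ X.τF ε0 X.lam X.Rp σ).card : ℝ) := by
      rw [sum_boole]
      exact_mod_cast card_le_card (fun y hy => (mem_filter.mp hy).2)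
    have h10 : ∑ y ∈ X.rest, vv X σ Dd κ y / 8 ≤ Def X σ Dd κ / 8 := by
      rw [← sum_div]
      apply div_le_div_of_nonneg_right _ (by norm_num)
      refine le_trans ?_ h.def_ge.1
      refine sum_le_sum_of_subset_of_nonneg ?_ fun y _ _ => vv_nn h y
      intro y hy
      exact mem_compl.mpr (h.sol_notmem_rest hy).1
    have h11 := mul_le_mul_of_nonneg_left h9 (show 0 ≤ X.cp * X.d by positivity)
    linarith
  linarith

/-- (8.2), the neighbours of the other defects -/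
lemma AOk.ns (h : AOk X σ Dd κ e3) {l : V → Option (Ph A)}
    (hl : ∀ x P, X.lam x = some P → l x = some P) :
    ((X.Ns (X.D \ Dd) \ X.D).card : ℝ) ≤ Def X σ Dd κ / g0 A κ
      + ((Sens X.G (Wr X.c σ) l ∩ (X.sol)ᶜ).card : ℝ) := by
  have hg := g0_pos h.tgt
  set N1 := (X.Ns (X.D \ Dd) \ X.D).filter (fun y => y ∈ X.sol) with hN1
  set N2 := (X.Ns (X.D \ Dd) \ X.D).filter (fun y => ¬ y ∈ X.sol) with hN2
  have hcard : ((X.Ns (X.D \ Dd) \ X.D).card : ℝ) = (N1.card : ℝ) + (N2.card : ℝ) := by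
    rw [hN1, hN2]
    exact_mod_cast (card_filter_add_card_filter_not (s := X.Ns (X.D \ Dd) \ X.D)
      (fun y => y ∈ X.sol)).symm
  have key : ∀ y ∈ X.Ns (X.D \ Dd) \ X.D, y ∉ X.D ∧ ∃ x ∈ X.D \ Dd, X.G.Adj y x ∧
      X.lam x = X.lam y := by
    intro y hy
    obtain ⟨h1, h2⟩ := mem_sdiff.mp hy
    refine ⟨h2, ?_⟩
    unfold Ctx.Ns at h1
    obtain ⟨x, hx, hyx⟩ := mem_biUnion.mp h1
    unfold Hs at hyx
    obtain ⟨h3, h4⟩ := mem_filter.mp hyx
    exact ⟨x, hx, (mem_nb.mp h3).symm, h4.symm⟩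
  have hb1 : g0 A κ * N1.card ≤ Def X σ Dd κ := by
    refine h.markov N1 ?_ _ ?_
    · intro y hy
      exact (key y (mem_filter.mp hy).1).1
    · intro y hy
      obtain ⟨h1, hsol⟩ := mem_filter.mp hy
      obtain ⟨hD, x, hx, hadj, hlam⟩ := key y h1
      obtain ⟨hxD, hxd⟩ := mem_sdiff.mp hx
      have hN : y ∉ X.Nb Dd := fun hc => hxd (h.nbdeep hc hxD hadj)
      have hxm : x ∈ nb X.G y ∩ X.D := mem_inter.mpr ⟨mem_nb.mpr hadj, hxD⟩
      by_cases hR : y ∈ X.Rp
      · exact h.v4 hR hD hsol hN hxm hlam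
      · have hr : y ∈ X.rest := by
          unfold Ctx.rest
          simp [hD, hR]
        obtain ⟨P, hP, hw⟩ := h.wrong hxD
        have hP' : X.lam y = some P := by rw [← hlam]; exact hP
        refine h.v3 hr hN (hasPh_sol hsol hP') hxm ?_
        rw [Phi_sol hsol hP', patN_eq h.prp P hadj]
        exact hw
  have hb2 : (N2.card : ℝ) ≤ ((Sens X.G (Wr X.c σ) l ∩ (X.sol)ᶜ).card : ℝ) := by
    norm_cast
    apply card_le_card
    intro y hy
    obtain ⟨h1, hsol⟩ := mem_filter.mp hy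
    obtain ⟨hD, x, hx, hadj, hlam⟩ := key y h1
    obtain ⟨hxD, hxd⟩ := mem_sdiff.mp hx
    obtain ⟨P, hP, hw⟩ := h.wrong hxD
    have hP' : X.lam y = some P := by rw [← hlam]; exact hP
    refine mem_inter.mpr ⟨?_, mem_compl.mpr hsol⟩
    unfold Sens
    exact mem_filter.mpr ⟨mem_univ _, P, hl y P hP', x, hadj, hw⟩
  have hb3 : (N1.card : ℝ) ≤ Def X σ Dd κ / g0 A κ := by
    rw [le_div_iff₀ hg]; linarith
  linarith

end ok
end acc

end LD
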