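import Pool.Agent.W_5dd92e_ld.Defs

/-!
# MP_5dd92e_co, large degree theorem: the context of the code

`Ctx` collects the data known to the colour stages: the graph, its 2-colouring, the partial label `lam`, the
random set `Rp` (called R+ in the paper proof), the first side `o`, the set `D` of defects, and the numerical
parameters.  All functions of a configuration `σ` below only read `σ` on the vertices which are already coded.
-/

set_option autoImplicit false

open Finset
open scoped Classical

namespace LD

/-- the data of the colour stages -/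
structure Ctx (V : Type*) (q : ℕ) (A : Fin q → Fin q → ℝ) where
  /-- the graph -/
  G : SimpleGraph V
  /-- the degree -/
  d : ℕ
  /-- the 2-colouring -/
  c : V → Bool
  /-- threshold of `Sol` -/
  δ : ℝ
  /-- threshold of `F_y` -/
  τF : ℝ
  /-- the penalty `c'` -/
  cp : ℝ
  /-- the partial label -/
  lam : V → Option (Ph A)
  /-- the random set R+ -/
  Rp : Finset V
  /-- the first side -/
  o : Bool
  /-- the defects -/
  D : Finset V

section ctx
variable {V : Type*} [Fintype V] {q : ℕ} {A : Fin q → Fin q → ℝ}

namespace Ctx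

/-- the set `Sol` -/
noncomputable def sol (X : Ctx V q A) : Finset V := Sol X.G X.d X.δ X.lam

/-- `F_y`: colours which occur at least `τF` times on `N(y) ∩ R+` -/
noncomputable def F (X : Ctx V q A) (σ : V → Fin q) (y : V) : Finset (Fin q) :=
  univ.filter (fun a => X.τF ≤ (((nb X.G y ∩ X.Rp).filter (fun x => σ x = a)).card : ℝ))

/-- the pattern predicted by `y` for its neighbours -/
noncomputable def Phi (X : Ctx V q A) (σ : V → Fin q) (y : V) : Finset (Fin q) :=
  if y ∈ X.sol then (match X.lam y with
    | some P => patN X.c P y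
    | none => X.F σ y) else X.F σ y

/-- the pattern of `y` itself -/
noncomputable def Psi (X : Ctx V q A) (σ : V → Fin q) (y : V) : Finset (Fin q) :=
  if y ∈ X.sol then (match X.lam y with
    | some P => pat X.c P y
    | none => perp A (X.F σ y)) else perp A (X.F σ y)

/-- the allowed colours: the pattern on `Sol`, all colours on `Soft` -/
noncomputable def base (X : Ctx V q A) (s : V) : Finset (Fin q) :=
  if s ∈ X.sol then (match X.lam s with
    | some P => pat X.c P s
    | none => univ) else univ

/-- `phase(y) = P` -/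
def HasPh (X : Ctx V q A) (σ : V → Fin q) (y : V) (P : Ph A) : Prop :=
  X.Psi σ y = pat X.c P y ∧ X.Phi σ y = patN X.c P y

/-- the neighbours of `s` whose colour is known when `s` is coded in the last two stages -/
noncomputable def Rev (X : Ctx V q A) (s : V) : Finset V :=
  if X.c s = X.o then nb X.G s ∩ (X.D ∪ X.Rp) else nb X.G s

/-- the number of neighbours `y ∉ D` of `s` with `a ∉ Phi y` -/
noncomputable def KN (X : Ctx V q A) (σ : V → Fin q) (s : V) (a : Fin q) : ℕ :=
  ((nb X.G s \ X.D).filter (fun y => a ∉ X.Phi σ y)).card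

/-- unnormalised weight of the colour `a` at the vertex `s` in the last two stages -/
noncomputable def fw (X : Ctx V q A) (σ : V → Fin q) (s : V) (a : Fin q) : ℝ :=
  if a ∈ X.base s then (∏ y ∈ X.Rev s, A (σ y) a) * Real.exp (-(X.cp * (X.KN σ s a : ℝ))) else 0

/-- its normalisation -/
noncomputable def ZZ (X : Ctx V q A) (σ : V → Fin q) (s : V) : ℝ := ∑ a, X.fw σ s a

/-- unnormalised weight of the colour `a` at the vertex `s` of `R+ - D` -/
noncomputable def fp (X : Ctx V q A) (σ : V → Fin q) (s : V) (a : Fin q) : ℝ :=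
  if s ∈ X.sol then (if a ∈ X.base s then ∏ x ∈ nb X.G s ∩ X.D, A (σ x) a else 0) else 1

/-- its normalisation -/
noncomputable def ZP (X : Ctx V q A) (σ : V → Fin q) (s : V) : ℝ := ∑ a, X.fp σ s a

/-- `r_y`, for `y ∈ Sol - D` -/
noncomputable def r (X : Ctx V q A) (σ : V → Fin q) (y : V) : ℝ :=
  (∑ a ∈ X.base y, ∏ x ∈ nb X.G y ∩ X.D, A (σ x) a) / ((X.base y).card : ℝ)

/-- the rest: vertices not in `D` and not in `R+` -/
noncomputable def rest (X : Ctx V q A) : Finset V := univ \ (X.D ∪ X.Rp)

/-- the conditional probability of the colours outside `D` given those on `D` -/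
noncomputable def KC (X : Ctx V q A) (σ : V → Fin q) : ℝ :=
  (∏ s ∈ X.Rp \ X.D, X.fp σ s (σ s) / X.ZP σ s) * ∏ s ∈ X.rest, X.fw σ s (σ s) / X.ZZ σ s

/-- neighbourhood of a set through edges inside a phase -/
noncomputable def Ns (X : Ctx V q A) (γ : Finset V) : Finset V :=
  γ.biUnion (fun x => Hs X.G X.lam x)

/-- neighbourhood of a set -/
noncomputable def Nb (X : Ctx V q A) (γ : Finset V) : Finset V := γ.biUnion (fun x => nb X.G x)

end Ctx

/-- the defects of `σ` with respect to the partial label `lam` -/
noncomputable def DF (G : SimpleGraph V) (d : ℕ) (c : V → Bool) (lam : V → Option (Ph A))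
    (σ : V → Fin q) : Finset V :=
  (Khi G d lam).filter (fun x => ∃ P, lam x = some P ∧ Wr c σ P x)

/-- the total of the vertex costs; `Dd` is the union of the deep components of `D` -/
noncomputable def TT (X : Ctx V q A) (C1 c5 : ℝ) (Dd : Finset V) (σ : V → Fin q) : ℝ :=
  (∑ x ∈ Dd, Real.log ((X.base x).card : ℝ)) - (∑ y ∈ X.Nb Dd \ X.D, Real.log (X.r σ y))
  + (-(C1 * ((X.D \ Dd).card : ℝ)) + c5 * ((X.Ns (X.D \ Dd) \ X.D).card : ℝ))
  + (∑ s ∈ X.Rp \ X.D, Real.log (X.ZP σ s))
  + ∑ s ∈ X.rest, (X.cp * (X.KN σ s (σ s) : ℝ) + Real.log (X.ZZ σ s))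

end ctx

end LD
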