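import Pool.Agent.W_5dd92e_ld.Fld

/-!
# Section 2 of row 484: (F0), (F2), (F3)
-/

set_option autoImplicit false

open Finset
open scoped Classical

namespace LD

variable {V : Type*} [Fintype V] {L : Type*}

/-- (F0): compare with `X → *`. -/
theorem F0 (G : SimpleGraph V) (wr : L → V → Prop) (ζ : ℝ) (d : ℕ) (hd : 0 < d)
    (hreg : Rgl G d) (hζ0 : 0 ≤ ζ) (l : V → Option L)
    (hl : IsMin G wr ζ d l) (X : Finset V) (hX : ∀ x ∈ X, l x ≠ none) :
    (#(Sens G wr l ∩ X) : ℝ) + (1 + ζ) / d * #(EE G X) ≤ (1 + 2 * ζ) * #X := by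
  have hd' : (0 : ℝ) < d := by exact_mod_cast hd
  have h0 := hl (rel l X none)
  have h1 : ((#(Dis G (rel l X none)) : ℝ)) + 2 * #(Cut G X l) ≤
      #(Dis G l) + 2 * #(Cut G X (rel l X none)) := by exact_mod_cast dis_rel G X l none
  have h2 : (#(Sens G wr (rel l X none)) : ℝ) + #(Sens G wr l ∩ X) ≤ #(Sens G wr l) := by
    exact_mod_cast sens_none G wr X l
  have h3 : (#(Om (rel l X none)) : ℝ) ≤ #(Om l) + #X := by exact_mod_cast om_none X l
  have h4 : (#(Cut G X (rel l X none)) : ℝ) + #(EE G X) ≤ d * #X := by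
    exact_mod_cast cut_le G d hreg X (rel l X none)
  unfold JJ at h0
  have h3' := mul_le_mul_of_nonneg_left h3 hζ0
  have hc : (0 : ℝ) ≤ (1 + ζ) / (2 * d) := by positivity
  have h5 : (#(Dis G (rel l X none)) : ℝ) ≤ #(Dis G l) + 2 * (d * #X - #(EE G X)) := by
    have : (0 : ℝ) ≤ #(Cut G X l) := Nat.cast_nonneg _
    linarith
  have h6 := mul_le_mul_of_nonneg_left h5 hc
  have h7 : (1 + ζ) / (2 * d) * (#(Dis G l) + 2 * (d * #X - #(EE G X)) : ℝ) =
      (1 + ζ) / (2 * d) * #(Dis G l) + (1 + ζ) * #X - (1 + ζ) / d * #(EE G X) := by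
    field_simp
    ring
  rw [h7] at h6
  linarith

/-- the neighbours in `K` with the label of `x` -/
noncomputable def HH (G : SimpleGraph V) (l : V → Option L) (K : Finset V) (x : V) : Finset V :=
  (nb G x).filter (fun y => y ∈ K ∧ l y = l x)

theorem mem_HH {G : SimpleGraph V} {l : V → Option L} {K : Finset V} {x y : V} :
    y ∈ HH G l K x ↔ G.Adj x y ∧ y ∈ K ∧ l y = l x := by
  simp [HH, mem_nb]

/-- (F2): the deficient set of a phase expands. -/
theorem F2 (G : SimpleGraph V) (wr : L → V → Prop) (ζ : ℝ) (d : ℕ) (hd : 0 < d)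
    (hreg : Rgl G d) (hζ0 : 0 < ζ) (hζ1 : ζ ≤ 1 / 5) (l : V → Option L)
    (hl : IsMin G wr ζ d l) (K D : Finset V) (hK : ∀ x ∈ K, l x ≠ none) (hDK : D ⊆ K)
    (hH : ∀ x ∈ D, (3 / 4 : ℝ) * d ≤ #(HH G l K x))
    (hw : ∀ x ∈ D, ∀ P, l x = some P → wr P x) :
    (#D : ℝ) ≤ 5 * ζ * #((D.biUnion (HH G l K)) \ D) := by
  have hd' : (0 : ℝ) < d := by exact_mod_cast hd
  set N : Finset V := D.biUnion (HH G l K) with hN
  set X : Finset V := D ∪ N with hXdef
  have hNK : ∀ y ∈ N, y ∈ K := by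
    intro y hy
    rw [hN, mem_biUnion] at hy
    obtain ⟨x, _, hy⟩ := hy
    exact (mem_HH.mp hy).2.1
  have hX : ∀ x ∈ X, l x ≠ none := by
    intro x hx
    rw [hXdef, mem_union] at hx
    rcases hx with hx | hx
    · exact hK x (hDK hx)
    · exact hK x (hNK x hx)
  -- N is sensing
  have hNS : N ⊆ Sens G wr l ∩ X := by
    intro y hy
    rw [mem_inter]
    refine ⟨?_, mem_union_right _ hy⟩
    rw [mem_Sens]
    have hy' := hy
    rw [hN, mem_biUnion] at hy'
    obtain ⟨x, hx, hxy⟩ := hy'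
    rw [mem_HH] at hxy
    obtain ⟨P, hP⟩ := Option.ne_none_iff_exists'.mp (hK x (hDK hx))
    exact ⟨P, by rw [hxy.2.2, hP], x, hxy.1.symm, hw x hx P hP⟩
  have hcN : (#N : ℝ) ≤ #(Sens G wr l ∩ X) := by exact_mod_cast card_le_card hNS
  -- lower bound for the number of pairs in X
  have hE : (3 / 4 : ℝ) * d * (2 * #D - #(N ∩ D)) ≤ #(EE G X) := by
    -- pairs with first component in D \ N, second in H x ; pairs (y, x), x in D, y in H x
    set A1 : Finset (V × V) := univ.filter (fun p => p.1 ∈ D \ N ∧ p.2 ∈ HH G l K p.1) with hA1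
    set A2 : Finset (V × V) := univ.filter (fun p => p.2 ∈ D ∧ p.1 ∈ HH G l K p.2) with hA2
    have hdisj : Disjoint A1 A2 := by
      rw [disjoint_left]
      intro p hp hp'
      rw [hA1, mem_filter, mem_sdiff] at hp
      rw [hA2, mem_filter] at hp'
      apply hp.2.1.2
      rw [hN, mem_biUnion]
      exact ⟨p.2, hp'.2.1, hp'.2.2⟩
    have hsub : A1 ∪ A2 ⊆ EE G X := by
      intro p hp
      rw [mem_union] at hp
      rw [mem_EE]
      rcases hp with hp | hp
      · rw [hA1, mem_filter, mem_sdiff] at hp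
        have h1 := mem_HH.mp hp.2.2
        refine ⟨h1.1, mem_union_left _ hp.2.1.1, mem_union_right _ ?_⟩
        rw [hN, mem_biUnion]
        exact ⟨p.1, hp.2.1.1, hp.2.2⟩
      · rw [hA2, mem_filter] at hp
        have h1 := mem_HH.mp hp.2.2
        refine ⟨h1.1.symm, mem_union_right _ ?_, mem_union_left _ hp.2.1⟩
        rw [hN, mem_biUnion]
        exact ⟨p.2, hp.2.1, hp.2.2⟩
    have hc1 : #A1 = ∑ x ∈ D \ N, #(HH G l K x) := by
      rw [hA1, card_filter, Fintype.sum_prod_type]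
      rw [← sum_filter_add_sum_filter_not univ (fun x => x ∈ D \ N)]
      rw [sum_eq_zero (s := univ.filter (fun x => ¬ x ∈ D \ N)), add_zero]
      · have : univ.filter (fun x => x ∈ D \ N) = D \ N := by ext; simp
        rw [this]
        refine sum_congr rfl fun x hx => ?_
        rw [← card_filter]
        congr 1
        ext y
        simp only [mem_filter, mem_univ, true_and]
        exact and_iff_right hx
      · intro x hx
        rw [mem_filter] at hx
        exact sum_eq_zero fun y _ => if_neg fun h => hx.2 h.1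
    have hc2 : #A2 = ∑ x ∈ D, #(HH G l K x) := by
      rw [hA2, card_filter, Fintype.sum_prod_type_right]
      rw [← sum_filter_add_sum_filter_not univ (fun x => x ∈ D)]
      rw [sum_eq_zero (s := univ.filter (fun x => ¬ x ∈ D)), add_zero]
      · have : univ.filter (fun x => x ∈ D) = D := by ext; simp
        rw [this]
        refine sum_congr rfl fun x hx => ?_
        rw [← card_filter]
        congr 1
        ext y
        simp only [mem_filter, mem_univ, true_and]
        exact and_iff_right hx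
      · intro x hx
        rw [mem_filter] at hx
        exact sum_eq_zero fun y _ => if_neg fun h => hx.2 h.1
    have hc3 : #A1 + #A2 ≤ #(EE G X) := by
      rw [← card_union_of_disjoint hdisj]
      exact card_le_card hsub
    have hc4 : (3 / 4 : ℝ) * d * #(D \ N) ≤ #A1 := by
      rw [hc1, Nat.cast_sum]
      calc (3 / 4 : ℝ) * d * #(D \ N) = ∑ x ∈ D \ N, (3 / 4 : ℝ) * d := by
            rw [sum_const, nsmul_eq_mul]; ring
        _ ≤ _ := sum_le_sum fun x hx => hH x (mem_sdiff.mp hx).1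
    have hc5 : (3 / 4 : ℝ) * d * #D ≤ #A2 := by
      rw [hc2, Nat.cast_sum]
      calc (3 / 4 : ℝ) * d * #D = ∑ x ∈ D, (3 / 4 : ℝ) * d := by
            rw [sum_const, nsmul_eq_mul]; ring
        _ ≤ _ := sum_le_sum fun x hx => hH x hx
    have hc6 : (#(D \ N) : ℝ) = #D - #(N ∩ D) := by
      have := card_sdiff_add_card_inter D N
      rw [inter_comm] at this
      have h : (#(D \ N) : ℝ) + #(N ∩ D) = #D := by exact_mod_cast this
      linarith
    have hc3' : (#A1 : ℝ) + #A2 ≤ #(EE G X) := by exact_mod_cast hc3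
    rw [hc6] at hc4
    nlinarith
  have h0 := F0 G wr ζ d hd hreg hζ0.le l hl X hX
  -- cardinalities
  have hX1 : (#X : ℝ) = #D + #(N \ D) := by
    have : #(D ∪ N) = #D + #(N \ D) := by
      rw [← card_union_of_disjoint disjoint_sdiff, union_sdiff_self_eq_union]
    exact_mod_cast this
  have hN1 : (#N : ℝ) = #(N \ D) + #(N ∩ D) := by
    exact_mod_cast (card_sdiff_add_card_inter N D).symm
  have h8 : (1 + ζ) / d * ((3 / 4 : ℝ) * d * (2 * #D - #(N ∩ D))) ≤ (1 + ζ) / d * #(EE G X) :=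
    mul_le_mul_of_nonneg_left hE (by positivity)
  have h9 : (1 + ζ) / d * ((3 / 4 : ℝ) * d * (2 * #D - #(N ∩ D))) =
      (1 + ζ) * (3 / 4) * (2 * #D - #(N ∩ D)) := by
    field_simp
  rw [h9] at h8
  rw [hX1] at h0
  have hi : (0 : ℝ) ≤ #(N ∩ D) := Nat.cast_nonneg _
  have hs : (0 : ℝ) ≤ #(N \ D) := Nat.cast_nonneg _
  have hg : (0 : ℝ) ≤ #D := Nat.cast_nonneg _
  -- s + i + 3/4 a (2g - i) ≤ (1 + 2ζ)(g + s)
  have key : (1 - ζ) / 2 * #D ≤ 2 * ζ * #(N \ D) := by
    have h10 : (#(N \ D) : ℝ) + #(N ∩ D) + (1 + ζ) * (3 / 4) * (2 * #D - #(N ∩ D)) ≤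
        (1 + 2 * ζ) * (#D + #(N \ D)) := by linarith
    have h11 : (0 : ℝ) ≤ (1 - 3 / 4 * (1 + ζ)) * #(N ∩ D) :=
      mul_nonneg (by linarith) hi
    nlinarith
  have h12 : (2 / 5 : ℝ) * #D ≤ (1 - ζ) / 2 * #D :=
    mul_le_mul_of_nonneg_right (by linarith) hg
  linarith

/-- (F3): a label of more than `(1 - ζ/4) d` neighbours is the label of the vertex. -/
theorem F3 (G : SimpleGraph V) (wr : L → V → Prop) (ζ : ℝ) (d : ℕ) (hd : 0 < d)
    (hreg : Rgl G d) (hζ0 : 0 < ζ) (hζ1 : ζ < 1) (l : V → Option L)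
    (hl : IsMin G wr ζ d l) (x : V) (Q : Option L)
    (hQ : (1 - ζ / 4) * d ≤ #((nb G x).filter (fun y => l y = Q))) : l x = Q := by
  by_contra hne
  have hd' : (0 : ℝ) < d := by exact_mod_cast hd
  have h0 := rel_ineq G wr ζ d hd hζ0.le hζ1.le l hl {x} Q
  have hloop : ¬ G.Adj x x := G.loopless.irrefl x
  have h1 : #((nb G x).filter (fun y => l y = Q)) ≤ #(Cut G {x} l) := by
    refine card_le_card_of_injOn (fun y => (x, y)) ?_ ?_
    · intro y hy
      have hy := (mem_filter.mp (mem_coe.mp hy))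
      rw [mem_nb] at hy
      rw [mem_coe, mem_Cut]
      refine ⟨hy.1, mem_singleton_self x, ?_, ?_⟩
      · show y ∉ ({x} : Finset V)
        rw [mem_singleton]
        rintro rfl
        exact hloop hy.1
      · show l x ≠ l y
        rw [hy.2]
        exact hne
    · intro a _ b _ h
      exact (Prod.mk.inj h).2
  have h2 : #(Cut G {x} (rel l {x} Q)) ≤ #((nb G x).filter (fun y => ¬ l y = Q)) := by
    refine card_le_card_of_injOn (fun p => p.2) ?_ ?_
    · intro p hp
      have hp := (mem_Cut.mp (mem_coe.mp hp))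
      have hx : p.1 = x := mem_singleton.mp hp.2.1
      rw [mem_coe, mem_filter, mem_nb]
      refine ⟨hx ▸ hp.1, ?_⟩
      intro h
      apply hp.2.2.2
      have h3 : p.2 ∉ ({x} : Finset V) := hp.2.2.1
      simp only [rel, hp.2.1, h3, if_true, if_false]
      exact h.symm
    · intro a ha b hb h
      have ha := (mem_Cut.mp (mem_coe.mp ha))
      have hb := (mem_Cut.mp (mem_coe.mp hb))
      exact Prod.ext ((mem_singleton.mp ha.2.1).trans (mem_singleton.mp hb.2.1).symm) h
  have h3 : #((nb G x).filter (fun y => l y = Q)) + #((nb G x).filter (fun y => ¬ l y = Q)) = d := by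
    rw [card_filter_add_card_filter_not]
    exact hreg x
  have h1' : ((1 - ζ / 4) * d : ℝ) ≤ #(Cut G {x} l) := hQ.trans (by exact_mod_cast h1)
  have h2' : (#(Cut G {x} (rel l {x} Q)) : ℝ) ≤ ζ / 4 * d := by
    have a : (#(Cut G {x} (rel l {x} Q)) : ℝ) ≤ #((nb G x).filter (fun y => ¬ l y = Q)) := by
      exact_mod_cast h2
    have b : (#((nb G x).filter (fun y => l y = Q)) : ℝ) +
        #((nb G x).filter (fun y => ¬ l y = Q)) = d := by exact_mod_cast h3
    linarith
  have hc : (0 : ℝ) ≤ (1 + ζ) / d := by positivity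
  have h4 := mul_le_mul_of_nonneg_left h1' hc
  have h5 := mul_le_mul_of_nonneg_left h2' hc
  have h6 : (1 + ζ) / d * ((1 - ζ / 4) * d) = (1 + ζ) * (1 - ζ / 4) := by field_simp
  have h7 : (1 + ζ) / d * (ζ / 4 * d) = (1 + ζ) * (ζ / 4) := by field_simp
  rw [h6] at h4
  rw [h7] at h5
  have h8 : (#({x} : Finset V) : ℝ) = 1 := by simp
  rw [h8] at h0
  nlinarith

end LD
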