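import Pool.Agent.W_5dd92e_ld.Cls
import Pool.Agent.W_5dd92e_ld.Ctx
import Pool.Agent.W_5dd92e_ld.F0

/-!
# Section 4 of row 484: the defects expand, deep sets
-/

set_option autoImplicit false

open Finset
open scoped Classical

namespace LD

variable {V : Type*} [Fintype V]

theorem HH_eq_Hs {L : Type*} (G : SimpleGraph V) (l lam : V → Option L)
    (hl : ∀ x P, lam x = some P → l x = some P) (x : V) (hx : lam x ≠ none) :
    HH G l (KK lam) x = Hs G lam x := by
  obtain ⟨P, hP⟩ := Option.ne_none_iff_exists'.mp hx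
  ext y
  rw [mem_HH, mem_Hs, mem_KK]
  constructor
  · rintro ⟨h1, h2, h3⟩
    obtain ⟨Q, hQ⟩ := Option.ne_none_iff_exists'.mp h2
    refine ⟨h1, ?_⟩
    rw [hl y Q hQ, hl x P hP] at h3
    rw [hQ, hP, h3]
  · rintro ⟨h1, h2⟩
    refine ⟨h1, h2 ▸ hx, ?_⟩
    rw [hl x P hP, hl y P (h2.trans hP)]

section df
variable {q : ℕ} {A : Fin q → Fin q → ℝ}

theorem mem_DF {G : SimpleGraph V} {d : ℕ} {c : V → Bool} {lam : V → Option (Ph A)}
    {σ : V → Fin q} {x : V} :
    x ∈ DF G d c lam σ ↔ x ∈ Khi G d lam ∧ ∃ P, lam x = some P ∧ Wr c σ P x := by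
  rw [DF, mem_filter]

/-- (F2) for the defects with respect to the partial label -/
theorem DF_expand (G : SimpleGraph V) (c : V → Bool) (ζ : ℝ) (d : ℕ) (hd : 0 < d)
    (hreg : Rgl G d) (hζ0 : 0 < ζ) (hζ1 : ζ ≤ 1 / 5) (l lam : V → Option (Ph A))
    (σ : V → Fin q) (hl : IsMin G (Wr c σ) ζ d l)
    (hlam : ∀ x P, lam x = some P → l x = some P) (D : Finset V)
    (hD : D ⊆ DF G d c lam σ) : (#D : ℝ) ≤ 5 * ζ * #((D.biUnion (Hs G lam)) \ D) := by
  have hx : ∀ x ∈ D, lam x ≠ none := fun x hx => (mem_Khi.mp (mem_DF.mp (hD hx)).1).1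
  have h := F2 G (Wr c σ) ζ d hd hreg hζ0 hζ1 l hl (KK lam) D
    (fun x hx => by
      obtain ⟨P, hP⟩ := Option.ne_none_iff_exists'.mp (mem_KK.mp hx)
      rw [hlam x P hP]
      exact Option.some_ne_none P)
    (fun x h => mem_KK.mpr (hx x h))
    (fun x h => by
      rw [HH_eq_Hs G l lam hlam x (hx x h)]
      have := (mem_Khi.mp (mem_DF.mp (hD h)).1).2
      linarith)
    (fun x h P hP => by
      obtain ⟨Q, hQ, hw⟩ := (mem_DF.mp (hD h)).2
      have h1 := hlam x Q hQ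
      rw [hP] at h1
      rw [Option.some_injective _ h1]
      exact hw)
  have e : D.biUnion (HH G l (KK lam)) = D.biUnion (Hs G lam) :=
    biUnion_congr rfl fun x h => HH_eq_Hs G l lam hlam x (hx x h)
  rw [e] at h
  exact h

end df

/-- neighbours of a vertex of `DD` have its label and are in `Dp` -/
theorem DD_nb {L : Type*} {G : SimpleGraph V} {d : ℕ} {δ : ℝ} {lam : V → Option L} {x y : V}
    (hx : x ∈ DD G d δ lam) (hxy : G.Adj x y) : y ∈ Dp G d δ lam ∧ lam y = lam x :=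
  ⟨(mem_DD.mp hx).2 y hxy, ((mem_Dp.mp (mem_DD.mp hx).1).2 y hxy).2⟩

/-- vertices of `DD` at distance two have the same label -/
theorem DD_two {L : Type*} {G : SimpleGraph V} {d : ℕ} {δ : ℝ} {lam : V → Option L} {x y z : V}
    (hx : x ∈ DD G d δ lam) (hxy : G.Adj x y) (hyz : G.Adj y z) : lam z = lam x :=
  ((mem_Dp.mp (DD_nb hx hxy).1).2 z hyz).2.trans (DD_nb hx hxy).2

/-- all neighbours of a vertex of `Dp` have its label -/
theorem Hs_eq_nb {L : Type*} {G : SimpleGraph V} {d : ℕ} {δ : ℝ} {lam : V → Option L} {x : V}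
    (hx : x ∈ Dp G d δ lam) : Hs G lam x = nb G x := by
  rw [Hs, filter_eq_self]
  intro y hy
  exact ((mem_Dp.mp hx).2 y (mem_nb.mp hy)).2

end LD
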