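import Pool.Agent.W_5dd92e_ld.GasB

/-!
# Link components
-/

set_option autoImplicit false

namespace LD

open Finset
open scoped Classical

variable {α : Type*}

/-- One link step inside `D`. -/
def stp (lk : α → Finset α) (D : Finset α) (a b : α) : Prop := a ∈ D ∧ b ∈ D ∧ b ∈ lk a

/-- Being linked inside `D`. -/
def lkR (lk : α → Finset α) (D : Finset α) : α → α → Prop := Relation.ReflTransGen (stp lk D)

/-- A linked set. -/
def Linked (lk : α → Finset α) (g : Finset α) : Prop := ∀ x ∈ g, ∀ y ∈ g, lkR lk g x y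

/-- The link component of `x` in `D`. -/
noncomputable def compOf (lk : α → Finset α) (D : Finset α) (x : α) : Finset α :=
  D.filter (fun y => lkR lk D x y)

/-- The link components of `D`. -/
noncomputable def comps (lk : α → Finset α) (D : Finset α) : Finset (Finset α) :=
  D.image (compOf lk D)

lemma lkR_symm {lk : α → Finset α} (hlk : LkOk lk) {D : Finset α} {x y : α}
    (h : lkR lk D x y) : lkR lk D y x := by
  induction h with
  | refl => exact Relation.ReflTransGen.refl
  | tail h1 h2 ih =>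
    exact Relation.ReflTransGen.head ⟨h2.2.1, h2.1, hlk.symm _ _ h2.2.2⟩ ih

lemma lkR_mono {lk : α → Finset α} {D D' : Finset α} (hD : D ⊆ D') {x y : α}
    (h : lkR lk D x y) : lkR lk D' x y := by
  induction h with
  | refl => exact Relation.ReflTransGen.refl
  | tail h1 h2 ih =>
    exact Relation.ReflTransGen.tail ih ⟨hD h2.1, hD h2.2.1, h2.2.2⟩

lemma mem_compOf {lk : α → Finset α} {D : Finset α} {x y : α} :
    y ∈ compOf lk D x ↔ y ∈ D ∧ lkR lk D x y := by
  unfold compOf; rw [mem_filter]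

lemma self_mem_compOf {lk : α → Finset α} {D : Finset α} {x : α} (hx : x ∈ D) :
    x ∈ compOf lk D x := mem_compOf.2 ⟨hx, Relation.ReflTransGen.refl⟩

lemma compOf_eq {lk : α → Finset α} (hlk : LkOk lk) {D : Finset α} {x y : α}
    (h : lkR lk D x y) : compOf lk D x = compOf lk D y := by
  ext z
  rw [mem_compOf, mem_compOf]
  constructor
  · rintro ⟨h1, h2⟩; exact ⟨h1, (lkR_symm hlk h).trans h2⟩
  · rintro ⟨h1, h2⟩; exact ⟨h1, h.trans h2⟩

/-- If a step from a point of a component stays in `D`, it stays in the component. -/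
lemma compOf_linked {lk : α → Finset α} (hlk : LkOk lk) (D : Finset α) (x : α) :
    Linked lk (compOf lk D x) := by
  have key : ∀ y, lkR lk D x y → x ∈ D → lkR lk (compOf lk D x) x y := by
    intro y h hx
    induction h with
    | refl => exact Relation.ReflTransGen.refl
    | tail h1 h2 ih =>
      refine Relation.ReflTransGen.tail ih ⟨mem_compOf.2 ⟨h2.1, h1⟩, mem_compOf.2 ⟨h2.2.1, ?_⟩,
        h2.2.2⟩
      exact Relation.ReflTransGen.tail h1 h2
  intro a ha b hb
  obtain ⟨haD, ha⟩ := mem_compOf.1 ha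
  obtain ⟨hbD, hb⟩ := mem_compOf.1 hb
  by_cases hx : x ∈ D
  · exact (lkR_symm hlk (key a ha hx)).trans (key b hb hx)
  · have : ∀ z, lkR lk D x z → z = x := by
      intro z hz
      rcases Relation.ReflTransGen.cases_head hz with h | ⟨w, h1, -⟩
      · exact h.symm
      · exact absurd h1.1 hx
    exact absurd (this a ha ▸ haD) hx

lemma mem_comps {lk : α → Finset α} {D g : Finset α} :
    g ∈ comps lk D ↔ ∃ x ∈ D, compOf lk D x = g := by
  unfold comps; rw [mem_image]

lemma comps_linked {lk : α → Finset α} (hlk : LkOk lk) {D g : Finset α} (hg : g ∈ comps lk D) :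
    Linked lk g := by
  obtain ⟨x, -, rfl⟩ := mem_comps.1 hg
  exact compOf_linked hlk D x

lemma comps_sub {lk : α → Finset α} {D g : Finset α} (hg : g ∈ comps lk D) : g ⊆ D := by
  obtain ⟨x, -, rfl⟩ := mem_comps.1 hg
  exact filter_subset _ _

lemma comps_ne {lk : α → Finset α} {D g : Finset α} (hg : g ∈ comps lk D) : g.Nonempty := by
  obtain ⟨x, hx, rfl⟩ := mem_comps.1 hg
  exact ⟨x, self_mem_compOf hx⟩

lemma comps_disj {lk : α → Finset α} (hlk : LkOk lk) {D g g' : Finset α} (hg : g ∈ comps lk D)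
    (hg' : g' ∈ comps lk D) (hne : g ≠ g') : Disjoint (nbS lk g) g' := by
  obtain ⟨x, hx, rfl⟩ := mem_comps.1 hg
  obtain ⟨x', hx', rfl⟩ := mem_comps.1 hg'
  rw [Finset.disjoint_left]
  intro z hz hz'
  obtain ⟨y, hy, hyz⟩ := mem_nbS.1 hz
  obtain ⟨hyD, hy⟩ := mem_compOf.1 hy
  obtain ⟨hzD, hz'⟩ := mem_compOf.1 hz'
  apply hne
  have h1 : lkR lk D x z := Relation.ReflTransGen.tail hy ⟨hyD, hzD, hyz⟩
  rw [compOf_eq hlk h1, ← compOf_eq hlk hz']

lemma comps_mem_Fam {lk : α → Finset α} (hlk : LkOk lk) {D U : Finset α} (h : D ⊆ U) :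
    comps lk D ∈ Fam lk U := by
  rw [mem_Fam]
  exact ⟨fun g hg => (comps_sub hg).trans h, fun g hg => comps_ne hg,
    fun g hg g' hg' hne => comps_disj hlk hg hg' hne⟩

lemma biUnion_comps (lk : α → Finset α) (D : Finset α) : (comps lk D).biUnion id = D := by
  ext x
  rw [mem_biUnion]
  constructor
  · rintro ⟨g, hg, hx⟩
    exact comps_sub hg hx
  · intro hx
    exact ⟨_, mem_comps.2 ⟨x, hx, rfl⟩, self_mem_compOf hx⟩

/-- The components of the union of a compatible family of linked sets. -/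
lemma comps_biUnion {lk : α → Finset α} {U : Finset α} {F : Finset (Finset α)}
    (hF : F ∈ Fam lk U) (hl : ∀ g ∈ F, Linked lk g) : comps lk (F.biUnion id) = F := by
  obtain ⟨-, hne, hc⟩ := mem_Fam.1 hF
  set D := F.biUnion id with hD
  have hsub : ∀ g ∈ F, g ⊆ D := fun g hg x hx => mem_biUnion.2 ⟨g, hg, hx⟩
  have stay : ∀ g ∈ F, ∀ x ∈ g, ∀ y, lkR lk D x y → y ∈ g := by
    intro g hg x hx y h
    induction h with
    | refl => exact hx
    | tail h1 h2 ih =>
      obtain ⟨-, h3, h4⟩ := h2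
      obtain ⟨g', hg', hy⟩ := mem_biUnion.1 h3
      by_contra hn
      have hgg : g ≠ g' := fun h => hn (h ▸ hy)
      exact Finset.disjoint_left.1 (hc g hg g' hg' hgg) (mem_nbS.2 ⟨_, ih, h4⟩) hy
  have comp_eq : ∀ g ∈ F, ∀ x ∈ g, compOf lk D x = g := by
    intro g hg x hx
    ext y
    rw [mem_compOf]
    constructor
    · rintro ⟨-, h⟩; exact stay g hg x hx y h
    · intro hy; exact ⟨hsub g hg hy, lkR_mono (hsub g hg) (hl g hg x hx y hy)⟩
  ext g
  rw [mem_comps]
  constructor
  · rintro ⟨x, hx, rfl⟩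
    obtain ⟨g', hg', hx'⟩ := mem_biUnion.1 hx
    rw [comp_eq g' hg' x hx']; exact hg'
  · intro hg
    obtain ⟨x, hx⟩ := hne g hg
    exact ⟨x, hsub g hg hx, comp_eq g hg x hx⟩

/-- Sums over sets `D` are sums over families. -/
lemma sum_comps_eq {lk : α → Finset α} (hlk : LkOk lk) (W : Finset α → ℝ) (U : Finset α)
    (hW : ∀ g, g ⊆ U → g.Nonempty → ¬ Linked lk g → W g = 0) :
    ∑ D ∈ U.powerset, ∏ g ∈ comps lk D, W g = Xi lk W U := by
  unfold Xi
  have h1 : ∑ F ∈ Fam lk U, ∏ g ∈ F, W g =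
      ∑ F ∈ (Fam lk U).filter (fun F => ∀ g ∈ F, Linked lk g), ∏ g ∈ F, W g := by
    rw [sum_filter]
    refine sum_congr rfl (fun F hF => ?_)
    split_ifs with h
    · rfl
    · push Not at h
      obtain ⟨g, hg, hl⟩ := h
      exact prod_eq_zero hg (hW g ((mem_Fam.1 hF).1 g hg) ((mem_Fam.1 hF).2.1 g hg) hl)
  rw [h1]
  refine sum_bij' (fun D _ => comps lk D) (fun F _ => F.biUnion id) ?_ ?_ ?_ ?_ ?_
  · intro D hD
    exact mem_filter.2 ⟨comps_mem_Fam hlk (mem_powerset.1 hD), fun g hg => comps_linked hlk hg⟩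
  · intro F hF
    rw [mem_powerset]
    intro x hx
    obtain ⟨g, hg, hx⟩ := mem_biUnion.1 hx
    exact (mem_Fam.1 (mem_filter.1 hF).1).1 g hg hx
  · intro D _
    exact biUnion_comps lk D
  · intro F hF
    exact comps_biUnion (mem_filter.1 hF).1 (mem_filter.1 hF).2
  · intro D _
    rfl

/-- In general the sum over sets is at most the sum over families. -/
lemma sum_comps_le {lk : α → Finset α} (hlk : LkOk lk) {W : Finset α → ℝ} (h0 : ∀ g, 0 ≤ W g)
    (U : Finset α) (S : Finset (Finset α)) (hS : ∀ D ∈ S, D ⊆ U) :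
    ∑ D ∈ S, ∏ g ∈ comps lk D, W g ≤ Xi lk W U := by
  unfold Xi
  have hinj : Set.InjOn (comps lk) (S : Set (Finset α)) := by
    intro D _ D' _ h
    rw [← biUnion_comps lk D, ← biUnion_comps lk D', h]
  rw [← sum_image (f := fun F => ∏ g ∈ F, W g) hinj]
  refine sum_le_sum_of_subset_of_nonneg ?_ (fun F _ _ => prod_nonneg (fun g _ => h0 g))
  intro F hF
  obtain ⟨D, hD, rfl⟩ := mem_image.1 hF
  exact comps_mem_Fam hlk (hS D hD)

end LD
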