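import Pool.Agent.W_5dd92e_ld.Defs
import Pool.Agent.W_5dd92e_ld.GasC

/-!
# The polymer weights of a phase

Everything is generic in the finite graph `G` (also used for the canonical tree).
-/

set_option autoImplicit false

namespace LD

open Finset
open scoped Classical

section graph
variable {V : Type*} [Fintype V]

/-- closed link neighbourhood: distance at most two -/
noncomputable def lkG (G : SimpleGraph V) (x : V) : Finset V :=
  univ.filter (fun y => y = x ∨ G.Adj x y ∨ ∃ z, G.Adj x z ∧ G.Adj z y)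

lemma mem_lkG {G : SimpleGraph V} {x y : V} :
    y ∈ lkG G x ↔ y = x ∨ G.Adj x y ∨ ∃ z, G.Adj x z ∧ G.Adj z y := by
  simp [lkG]

lemma lkG_ok (G : SimpleGraph V) : LkOk (lkG G) where
  refl x := mem_lkG.2 (Or.inl rfl)
  symm x y h := by
    rw [mem_lkG] at h ⊢
    rcases h with h | h | ⟨z, h1, h2⟩
    · exact Or.inl h.symm
    · exact Or.inr (Or.inl h.symm)
    · exact Or.inr (Or.inr ⟨z, h2.symm, h1.symm⟩)

/-- outer boundary of `g` -/
noncomputable def Nout (G : SimpleGraph V) (g : Finset V) : Finset V := (g.biUnion (nb G)) \ g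

lemma mem_Nout {G : SimpleGraph V} {g : Finset V} {y : V} :
    y ∈ Nout G g ↔ (∃ x ∈ g, G.Adj x y) ∧ y ∉ g := by
  unfold Nout
  rw [mem_sdiff, mem_biUnion]
  simp only [mem_nb]

/-- the size condition of polymers -/
def Alw (G : SimpleGraph V) (ζ : ℝ) (g : Finset V) : Prop :=
  (#g : ℝ) ≤ 5 * ζ * #(Nout G g)

end graph

section colours
variable {V C : Type*} [Fintype V]

/-- colourings with colours `pt x` on `D` and the colour `q0` elsewhere -/
noncomputable def Colr (pt : V → Finset C) (q0 : C) (D : Finset V) : Finset (V → C) :=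
  Fintype.piFinset (fun x => if x ∈ D then pt x else {q0})

lemma mem_Colr {pt : V → Finset C} {q0 : C} {D : Finset V} {s : V → C} :
    s ∈ Colr pt q0 D ↔ (∀ x ∈ D, s x ∈ pt x) ∧ ∀ x, x ∉ D → s x = q0 := by
  unfold Colr
  rw [Fintype.mem_piFinset]
  constructor
  · intro h
    refine ⟨fun x hx => ?_, fun x hx => ?_⟩
    · have := h x; rwa [if_pos hx] at this
    · have := h x; rw [if_neg hx, mem_singleton] at this; exact this
  · rintro ⟨h1, h2⟩ x
    split_ifs with hx
    · exact h1 x hx
    · rw [mem_singleton]; exact h2 x hx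

/-- sum of a coloured weight over the colours of `g` -/
noncomputable def Wc (pt : V → Finset C) (q0 : C) (w1 : Finset V → (V → C) → ℝ)
    (g : Finset V) : ℝ := ∑ s ∈ Colr pt q0 g, w1 g s

/-- a coloured weight which only depends on the colours on `g` -/
def Lcl (w1 : Finset V → (V → C) → ℝ) : Prop :=
  ∀ g s s', (∀ x ∈ g, s x = s' x) → w1 g s = w1 g s'

end colours

section phase
variable {V : Type*} [Fintype V] {q : ℕ}

/-- the factor of a vertex `y` of the outer boundary -/
noncomputable def rr (G : SimpleGraph V) (c : V → Bool) {A : Fin q → Fin q → ℝ} (P : Ph A)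
    (g : Finset V) (s : V → Fin q) (y : V) : ℝ :=
  (∑ t ∈ pat c P y, ∏ x ∈ nb G y ∩ g, A (s x) t) / #(pat c P y)

/-- the coloured weight of a polymer in the phase `P` -/
noncomputable def w1P (G : SimpleGraph V) (c : V → Bool) {A : Fin q → Fin q → ℝ} (P : Ph A)
    (g : Finset V) (s : V → Fin q) : ℝ :=
  (∏ x ∈ g, ((#(pat c P x) : ℝ))⁻¹) *
    (∏ x ∈ g.filter (fun x => c x = true), ∏ y ∈ nb G x ∩ g, A (s x) (s y)) *
    ∏ y ∈ Nout G g, rr G c P g s y

/-- the weight of a polymer in the phase `P` -/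
noncomputable def wP (G : SimpleGraph V) (c : V → Bool) {A : Fin q → Fin q → ℝ} (q0 : Fin q)
    (ζ : ℝ) (P : Ph A) (g : Finset V) : ℝ :=
  if Linked (lkG G) g ∧ Alw G ζ g then Wc (fun x => (pat c P x)ᶜ) q0 (w1P G c P) g else 0

/-- partition function of the polymers of phase `P` inside `U` -/
noncomputable def XiP (G : SimpleGraph V) (c : V → Bool) {A : Fin q → Fin q → ℝ} (q0 : Fin q)
    (ζ : ℝ) (P : Ph A) (U : Finset V) : ℝ :=
  Xi (lkG G) (wP G c q0 ζ P) U

end phase

end LD
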