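import Pool.Agent.W_5dd92e_ld.Seq
import Pool.Agent.W_5dd92e_ld.GasP

/-!
# MP_5dd92e_co, large degree theorem: the code (sections 5 and 6)

For one partial label `lam` the code distribution is `gas / XiC * KC`; the total mass is at most one, and
the code length is computed exactly.
-/

set_option autoImplicit false

open Finset
open scoped Classical

namespace LD

section code
variable {V : Type*} [Fintype V] {q : ℕ} {A : Fin q → Fin q → ℝ}

/-- the wrong colours of the partial label (none outside `K`) -/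
noncomputable def wrL (c : V → Bool) (lam : V → Option (Ph A)) (x : V) : Finset (Fin q) :=
  match lam x with
  | some P => (pat c P x)ᶜ
  | none => ∅

/-- neighbourhood through edges inside a phase, minus the set itself -/
noncomputable def NsO (G : SimpleGraph V) (lam : V → Option (Ph A)) (g : Finset V) : Finset V :=
  (g.biUnion (fun x => Hs G lam x)) \ g

/-- coloured weight of a component in the code -/
noncomputable def w1c (G : SimpleGraph V) (d : ℕ) (c : V → Bool) (δ ζ C1 c5 : ℝ)
    (lam : V → Option (Ph A)) (g : Finset V) (s : V → Fin q) : ℝ :=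
  if (#g : ℝ) ≤ 5 * ζ * #(NsO G lam g) then
    (if g ⊆ DD G d δ lam then
      ∑ P : Ph A, (if ∀ x ∈ g, lam x = some P then w1P G c P g s else 0)
    else Real.exp (C1 * #g - c5 * #(NsO G lam g)))
  else 0

/-- weight of the whole defect set -/
noncomputable def gas (G : SimpleGraph V) (d : ℕ) (c : V → Bool) (δ ζ C1 c5 : ℝ)
    (lam : V → Option (Ph A)) (D : Finset V) (s : V → Fin q) : ℝ :=
  ∏ g ∈ comps (lkG G) D, w1c G d c δ ζ C1 c5 lam g s

/-- the partition function of the gas stage -/
noncomputable def XiC (G : SimpleGraph V) (d : ℕ) (c : V → Bool) (q0 : Fin q) (δ ζ C1 c5 : ℝ)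
    (lam : V → Option (Ph A)) : ℝ :=
  ∑ D : Finset V, ∑ s ∈ Colr (wrL c lam) q0 D, gas G d c δ ζ C1 c5 lam D s

theorem w1P_nonneg (hA : ∀ i j, 0 ≤ A i j) (G : SimpleGraph V) (c : V → Bool) (P : Ph A)
    (g : Finset V) (s : V → Fin q) : 0 ≤ w1P G c P g s := by
  unfold w1P
  refine mul_nonneg (mul_nonneg ?_ ?_) ?_
  · exact Finset.prod_nonneg fun x _ => inv_nonneg.mpr (Nat.cast_nonneg _)
  · exact Finset.prod_nonneg fun x _ => Finset.prod_nonneg fun y _ => hA _ _
  · refine Finset.prod_nonneg fun y _ => ?_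
    unfold rr
    exact div_nonneg (Finset.sum_nonneg fun t _ => Finset.prod_nonneg fun x _ => hA _ _)
      (Nat.cast_nonneg _)

theorem w1c_nonneg (hA : ∀ i j, 0 ≤ A i j) (G : SimpleGraph V) (d : ℕ) (c : V → Bool)
    (δ ζ C1 c5 : ℝ) (lam : V → Option (Ph A)) (g : Finset V) (s : V → Fin q) :
    0 ≤ w1c G d c δ ζ C1 c5 lam g s := by
  unfold w1c
  split_ifs
  · refine Finset.sum_nonneg fun P _ => ?_
    split_ifs
    · exact w1P_nonneg hA G c P g s
    · exact le_refl _
  · exact (Real.exp_pos _).le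
  · exact le_refl _

theorem gas_nonneg (hA : ∀ i j, 0 ≤ A i j) (G : SimpleGraph V) (d : ℕ) (c : V → Bool)
    (δ ζ C1 c5 : ℝ) (lam : V → Option (Ph A)) (D : Finset V) (s : V → Fin q) :
    0 ≤ gas G d c δ ζ C1 c5 lam D s :=
  Finset.prod_nonneg fun g _ => w1c_nonneg hA G d c δ ζ C1 c5 lam g s

/-- the weights only read the colours on the component -/
theorem w1P_congr (G : SimpleGraph V) (c : V → Bool) (P : Ph A) (g : Finset V)
    (s s' : V → Fin q) (h : ∀ x ∈ g, s x = s' x) : w1P G c P g s = w1P G c P g s' := by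
  unfold w1P
  congr 1
  · congr 1
    refine Finset.prod_congr rfl fun x hx => Finset.prod_congr rfl fun y hy => ?_
    rw [h x (Finset.mem_filter.mp hx).1, h y (Finset.mem_inter.mp hy).2]
  · refine Finset.prod_congr rfl fun y _ => ?_
    unfold rr
    congr 1
    refine Finset.sum_congr rfl fun t _ => Finset.prod_congr rfl fun x hx => ?_
    rw [h x (Finset.mem_inter.mp hx).2]

theorem w1c_congr (G : SimpleGraph V) (d : ℕ) (c : V → Bool) (δ ζ C1 c5 : ℝ)
    (lam : V → Option (Ph A)) (g : Finset V) (s s' : V → Fin q) (h : ∀ x ∈ g, s x = s' x) :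
    w1c G d c δ ζ C1 c5 lam g s = w1c G d c δ ζ C1 c5 lam g s' := by
  unfold w1c
  have : ∀ P : Ph A, w1P G c P g s = w1P G c P g s' := fun P => w1P_congr G c P g s s' h
  simp only [this]

theorem gas_congr (G : SimpleGraph V) (d : ℕ) (c : V → Bool) (δ ζ C1 c5 : ℝ)
    (lam : V → Option (Ph A)) (D : Finset V) (s s' : V → Fin q) (h : ∀ x ∈ D, s x = s' x) :
    gas G d c δ ζ C1 c5 lam D s = gas G d c δ ζ C1 c5 lam D s' :=
  Finset.prod_congr rfl fun g hg =>
    w1c_congr G d c δ ζ C1 c5 lam g s s' fun x hx => h x (comps_sub hg hx)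

theorem one_le_XiC (hA : ∀ i j, 0 ≤ A i j) (G : SimpleGraph V) (d : ℕ) (c : V → Bool)
    (q0 : Fin q) (δ ζ C1 c5 : ℝ) (lam : V → Option (Ph A)) :
    1 ≤ XiC G d c q0 δ ζ C1 c5 lam := by
  unfold XiC
  have h1 : (∑ s ∈ Colr (wrL c lam) q0 ∅, gas G d c δ ζ C1 c5 lam ∅ s) = 1 := by
    have h2 : Colr (wrL c lam) q0 (∅ : Finset V) = {fun _ => q0} := by
      ext s
      rw [mem_Colr, mem_singleton]
      constructor
      · rintro ⟨_, h⟩
        funext x
        exact h x (by simp)
      · rintro rfl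
        exact ⟨by simp, fun _ _ => rfl⟩
    rw [h2, Finset.sum_singleton]
    unfold gas
    have h3 : comps (lkG G) (∅ : Finset V) = ∅ := by
      rw [Finset.eq_empty_iff_forall_notMem]
      intro g hg
      obtain ⟨x, hx⟩ := comps_ne hg
      exact absurd (comps_sub hg hx) (by simp)
    rw [h3, Finset.prod_empty]
  rw [← h1]
  exact Finset.single_le_sum (f := fun D : Finset V =>
    ∑ s ∈ Colr (wrL c lam) q0 D, gas G d c δ ζ C1 c5 lam D s)
    (fun D _ => Finset.sum_nonneg fun s _ => gas_nonneg hA G d c δ ζ C1 c5 lam D s) (mem_univ ∅)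

/-- the code distribution for a given partial label -/
noncomputable def QL (G : SimpleGraph V) (d : ℕ) (c : V → Bool) (q0 : Fin q)
    (δ ζ C1 c5 τF cp : ℝ) (Rp : Finset V) (o : Bool) (lam : V → Option (Ph A))
    (σ : V → Fin q) : ℝ :=
  gas G d c δ ζ C1 c5 lam (DF G d c lam σ) σ / XiC G d c q0 δ ζ C1 c5 lam *
    Ctx.KC ⟨G, d, c, δ, τF, cp, lam, Rp, o, DF G d c lam σ⟩ σ

theorem QL_nonneg (hA : ∀ i j, 0 ≤ A i j) (G : SimpleGraph V) (d : ℕ) (c : V → Bool)
    (q0 : Fin q) (δ ζ C1 c5 τF cp : ℝ) (Rp : Finset V) (o : Bool) (lam : V → Option (Ph A))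
    (σ : V → Fin q) : 0 ≤ QL G d c q0 δ ζ C1 c5 τF cp Rp o lam σ := by
  unfold QL
  refine mul_nonneg (div_nonneg (gas_nonneg hA _ _ _ _ _ _ _ _ _ _) ?_) (Ctx.KC_nonneg hA _ _)
  exact zero_le_one.trans (one_le_XiC hA G d c q0 δ ζ C1 c5 lam)

/-- total mass at most one -/
theorem QL_sum (hA : ∀ i j, 0 ≤ A i j) (G : SimpleGraph V) (d : ℕ) (c : V → Bool)
    (hc : TPB.Prp G c) (q0 : Fin q) (δ ζ C1 c5 τF cp : ℝ) (Rp : Finset V) (o : Bool)
    (lam : V → Option (Ph A)) : ∑ σ, QL G d c q0 δ ζ C1 c5 τF cp Rp o lam σ ≤ 1 := by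
  have hX : 0 < XiC G d c q0 δ ζ C1 c5 lam :=
    lt_of_lt_of_le zero_lt_one (one_le_XiC hA G d c q0 δ ζ C1 c5 lam)
  set K : Finset V → (V → Fin q) → ℝ := fun D σ =>
    Ctx.KC ⟨G, d, c, δ, τF, cp, lam, Rp, o, D⟩ σ with hK
  have hK0 : ∀ D σ, 0 ≤ K D σ := fun D σ => Ctx.KC_nonneg hA _ _
  have hK1 : ∀ D s, ∑ σ ∈ Ag (univ \ D) s, K D σ ≤ 1 := fun D s =>
    Ctx.KC_sum hA ⟨G, d, c, δ, τF, cp, lam, Rp, o, D⟩ hc s
  have h1 : ∑ σ, gas G d c δ ζ C1 c5 lam (DF G d c lam σ) σ * K (DF G d c lam σ) σ ≤
      XiC G d c q0 δ ζ C1 c5 lam := by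
    calc ∑ σ, gas G d c δ ζ C1 c5 lam (DF G d c lam σ) σ * K (DF G d c lam σ) σ
        ≤ ∑ σ, ∑ D : Finset V, ∑ s ∈ Colr (wrL c lam) q0 D,
            (if σ ∈ Ag (univ \ D) s then gas G d c δ ζ C1 c5 lam D s * K D σ else 0) := by
          refine Finset.sum_le_sum fun σ _ => ?_
          set D := DF G d c lam σ with hD
          set s : V → Fin q := fun x => if x ∈ D then σ x else q0 with hs
          have hsC : s ∈ Colr (wrL c lam) q0 D := by
            rw [mem_Colr]
            constructor
            · intro x hx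
              have hx' := hx
              rw [hD] at hx'
              unfold DF at hx'
              obtain ⟨_, P, hP, hw⟩ := Finset.mem_filter.mp hx'
              simp only [hs, if_pos hx]
              unfold wrL
              rw [hP]
              simp only [mem_compl]
              exact hw
            · intro x hx
              simp only [hs, if_neg hx]
          have hσA : σ ∈ Ag (univ \ D) s := by
            rw [mem_Ag]
            intro x hx
            have hx' : x ∈ D := by
              by_contra hcon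
              exact hx (by simp [hcon])
            simp only [hs, if_pos hx']
          have hg : gas G d c δ ζ C1 c5 lam D σ = gas G d c δ ζ C1 c5 lam D s :=
            gas_congr G d c δ ζ C1 c5 lam D σ s fun x hx => by simp only [hs, if_pos hx]
          have hnn : ∀ (D : Finset V) (s : V → Fin q),
              0 ≤ (if σ ∈ Ag (univ \ D) s then gas G d c δ ζ C1 c5 lam D s * K D σ else 0) := by
            intro D s
            split_ifs
            · exact mul_nonneg (gas_nonneg hA _ _ _ _ _ _ _ _ _ _) (hK0 _ _)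
            · exact le_refl _
          calc gas G d c δ ζ C1 c5 lam D σ * K D σ
              = (if σ ∈ Ag (univ \ D) s then gas G d c δ ζ C1 c5 lam D s * K D σ else 0) := by
                rw [if_pos hσA, hg]
            _ ≤ ∑ s ∈ Colr (wrL c lam) q0 D,
                (if σ ∈ Ag (univ \ D) s then gas G d c δ ζ C1 c5 lam D s * K D σ else 0) :=
                Finset.single_le_sum (f := fun s =>
                  (if σ ∈ Ag (univ \ D) s then gas G d c δ ζ C1 c5 lam D s * K D σ else 0))
                  (fun s _ => hnn D s) hsC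
            _ ≤ _ :=
                Finset.single_le_sum (f := fun D : Finset V => ∑ s ∈ Colr (wrL c lam) q0 D,
                  (if σ ∈ Ag (univ \ D) s then gas G d c δ ζ C1 c5 lam D s * K D σ else 0))
                  (fun D _ => Finset.sum_nonneg fun s _ => hnn D s) (mem_univ D)
      _ = ∑ D : Finset V, ∑ s ∈ Colr (wrL c lam) q0 D,
            gas G d c δ ζ C1 c5 lam D s * ∑ σ ∈ Ag (univ \ D) s, K D σ := by
          rw [Finset.sum_comm]
          refine Finset.sum_congr rfl fun D _ => ?_
          rw [Finset.sum_comm]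
          refine Finset.sum_congr rfl fun s _ => ?_
          rw [← Finset.sum_filter, Finset.mul_sum]
          refine Finset.sum_congr ?_ fun _ _ => rfl
          ext σ
          simp
      _ ≤ ∑ D : Finset V, ∑ s ∈ Colr (wrL c lam) q0 D, gas G d c δ ζ C1 c5 lam D s * 1 := by
          refine Finset.sum_le_sum fun D _ => Finset.sum_le_sum fun s _ => ?_
          exact mul_le_mul_of_nonneg_left (hK1 D s) (gas_nonneg hA _ _ _ _ _ _ _ _ _ _)
      _ = XiC G d c q0 δ ζ C1 c5 lam := by
          unfold XiC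
          simp only [mul_one]
  have h2 : ∑ σ, QL G d c q0 δ ζ C1 c5 τF cp Rp o lam σ =
      (∑ σ, gas G d c δ ζ C1 c5 lam (DF G d c lam σ) σ * K (DF G d c lam σ) σ) /
        XiC G d c q0 δ ζ C1 c5 lam := by
    rw [Finset.sum_div]
    refine Finset.sum_congr rfl fun σ _ => ?_
    unfold QL
    simp only [hK]
    ring
  rw [h2, div_le_one hX]
  exact h1

end code

end LD
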