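import Pool.Agent.W_5dd92e_ld.GasF
import Pool.Agent.W_5dd92e_ld.Code
import Pool.Agent.W_5dd92e_ld.Cls

/-!
# The partition function of the gas stage
-/

set_option autoImplicit false
set_option linter.unusedSectionVars false

namespace LD

open Finset
open scoped Classical

variable {V : Type*} [Fintype V] {q : ℕ} {A : Fin q → Fin q → ℝ}

lemma card_Colr_le (pt : V → Finset (Fin q)) (q0 : Fin q) (g : Finset V) :
    #(Colr pt q0 g) ≤ q ^ #g := by
  unfold Colr
  rw [Fintype.card_piFinset]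
  have h1 : ∏ x : V, #(if x ∈ g then pt x else {q0}) ≤ ∏ x : V, (if x ∈ g then q else 1) := by
    refine prod_le_prod' (fun x _ => ?_)
    split_ifs
    · calc #(pt x) ≤ #(univ : Finset (Fin q)) := card_le_univ _
        _ = q := by simp
    · simp
  refine h1.trans ?_
  rw [prod_ite, prod_const_one, mul_one, prod_const]
  have : (univ : Finset V).filter (fun x => x ∈ g) = g := by ext x; simp
  rw [this]

lemma gh_DD_nb {G : SimpleGraph V} {d : ℕ} {δ : ℝ} {lam : V → Option (Ph A)} {x : V}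
    (hx : x ∈ DD G d δ lam) {y : V} (h : G.Adj x y) : lam y = lam x :=
  ((mem_Dp.1 (mem_DD.1 hx).1).2 y h).2

lemma gh_DD_label {G : SimpleGraph V} {d : ℕ} {δ : ℝ} {lam : V → Option (Ph A)} {x y : V}
    (hx : x ∈ DD G d δ lam) (h : y ∈ lkG G x) : lam y = lam x := by
  rcases mem_lkG.1 h with h | h | ⟨z, h1, h2⟩
  · rw [h]
  · exact gh_DD_nb hx h
  · have hz := (mem_DD.1 hx).2 z h1
    rw [((mem_Dp.1 hz).2 y h2).2, gh_DD_nb hx h1]

lemma gh_DD_linked {G : SimpleGraph V} {d : ℕ} {δ : ℝ} {lam : V → Option (Ph A)} {g : Finset V}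
    (hg : g ⊆ DD G d δ lam) (hl : Linked (lkG G) g) {x y : V} (hx : x ∈ g) (hy : y ∈ g) :
    lam y = lam x := by
  have h := hl x hx y hy
  clear hy
  induction h with
  | refl => rfl
  | tail _ h2 ih =>
    obtain ⟨h3, _, h5⟩ := h2
    rw [gh_DD_label (hg h3) h5, ih]

lemma NsO_eq {G : SimpleGraph V} {d : ℕ} {δ : ℝ} {lam : V → Option (Ph A)} {g : Finset V}
    (hg : g ⊆ DD G d δ lam) : NsO G lam g = Nout G g := by
  unfold NsO Nout
  congr 1
  ext y
  rw [mem_biUnion, mem_biUnion]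
  constructor
  · rintro ⟨x, hx, hy⟩
    exact ⟨x, hx, mem_nb.2 (mem_Hs.1 hy).1⟩
  · rintro ⟨x, hx, hy⟩
    exact ⟨x, hx, mem_Hs.2 ⟨mem_nb.1 hy, gh_DD_nb (hg hx) (mem_nb.1 hy)⟩⟩

/-- total weight of the components which are not deep -/
noncomputable def Wn (G : SimpleGraph V) (d : ℕ) (δ ζ C1 c5 : ℝ)
    (lam : V → Option (Ph A)) (g : Finset V) : ℝ :=
  if Linked (lkG G) g ∧ ¬ g ⊆ DD G d δ lam ∧ (#g : ℝ) ≤ 5 * ζ * #(NsO G lam g) then
    (q : ℝ) ^ #g * Real.exp (C1 * #g - c5 * #(NsO G lam g)) else 0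

lemma Wn_nonneg (G : SimpleGraph V) (d : ℕ) (δ ζ C1 c5 : ℝ)
    (lam : V → Option (Ph A)) (g : Finset V) : 0 ≤ Wn G d δ ζ C1 c5 lam g := by
  unfold Wn
  split_ifs
  · positivity
  · exact le_rfl

theorem XiC_eq (G : SimpleGraph V) (d : ℕ) (c : V → Bool) (q0 : Fin q) (δ ζ C1 c5 : ℝ)
    (lam : V → Option (Ph A)) : XiC G d c q0 δ ζ C1 c5 lam =
      Xi (lkG G) (fun g => if Linked (lkG G) g then
        Wc (wrL c lam) q0 (w1c G d c δ ζ C1 c5 lam) g else 0) univ := by
  unfold XiC gas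
  exact sum_Colr_comps (lkG_ok G) (wrL c lam) q0
    (fun g s s' h => w1c_congr G d c δ ζ C1 c5 lam g s s' h)

lemma Wc_w1c_le (hA : ∀ i j, 0 ≤ A i j) (G : SimpleGraph V) (d : ℕ) (c : V → Bool)
    (q0 : Fin q) (δ ζ C1 c5 : ℝ) (lam : V → Option (Ph A)) {g : Finset V} (hg : g.Nonempty)
    (hl : Linked (lkG G) g) :
    Wc (wrL c lam) q0 (w1c G d c δ ζ C1 c5 lam) g ≤
      (∑ P : Ph A, if g ⊆ UU G d δ lam P then wP G c q0 ζ P g else 0) +
        Wn G d δ ζ C1 c5 lam g := by
  have hnn : 0 ≤ ∑ P : Ph A, if g ⊆ UU G d δ lam P then wP G c q0 ζ P g else 0 := by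
    refine sum_nonneg (fun P _ => ?_)
    split_ifs
    · unfold wP
      split_ifs
      · exact sum_nonneg (fun s _ => w1P_nonneg hA G c P g s)
      · exact le_rfl
    · exact le_rfl
  by_cases hD : g ⊆ DD G d δ lam
  · refine le_trans ?_ (le_add_of_nonneg_right (Wn_nonneg G d δ ζ C1 c5 lam g))
    obtain ⟨x, hx⟩ := hg
    have hxS := Sol_lam (Dp_sub_Sol (DD_sub_Dp (hD hx)))
    obtain ⟨P, hP⟩ := Option.ne_none_iff_exists'.mp hxS
    have hall : ∀ y ∈ g, lam y = some P := fun y hy => by rw [gh_DD_linked hD hl hx hy, hP]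
    have hU : g ⊆ UU G d δ lam P := fun y hy => mem_UU.2 ⟨hD hy, hall y hy⟩
    have h1 : wP G c q0 ζ P g ≤ ∑ P : Ph A, if g ⊆ UU G d δ lam P then wP G c q0 ζ P g else 0 := by
      have h2 := single_le_sum (f := fun P : Ph A =>
        if g ⊆ UU G d δ lam P then wP G c q0 ζ P g else 0) (s := univ) (by
          intro P _
          show 0 ≤ if g ⊆ UU G d δ lam P then wP G c q0 ζ P g else 0
          split_ifs
          · unfold wP
            split_ifs
            · exact sum_nonneg (fun s _ => w1P_nonneg hA G c P g s)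
            · exact le_rfl
          · exact le_rfl) (mem_univ P)
      have h3 : (if g ⊆ UU G d δ lam P then wP G c q0 ζ P g else 0) = wP G c q0 ζ P g := if_pos hU
      rw [← h3]
      exact h2
    refine le_trans ?_ h1
    have hcol : Colr (wrL c lam) q0 g = Colr (fun x => (pat c P x)ᶜ) q0 g := by
      ext s
      rw [mem_Colr, mem_Colr]
      have : ∀ x ∈ g, wrL c lam x = (pat c P x)ᶜ := by
        intro x hx
        unfold wrL
        rw [hall x hx]
      constructor
      · rintro ⟨a, b⟩; exact ⟨fun x hx => by rw [← this x hx]; exact a x hx, b⟩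
      · rintro ⟨a, b⟩; exact ⟨fun x hx => by rw [this x hx]; exact a x hx, b⟩
    unfold Wc wP Wc
    rw [hcol]
    unfold w1c Alw
    rw [NsO_eq hD]
    by_cases hs : (#g : ℝ) ≤ 5 * ζ * #(Nout G g)
    · rw [if_pos ⟨hl, hs⟩]
      refine sum_le_sum (fun s _ => ?_)
      rw [if_pos hs, if_pos hD]
      have h4 : ∀ P' : Ph A, (if ∀ x ∈ g, lam x = some P' then w1P G c P' g s else 0) =
          if P' = P then w1P G c P g s else 0 := by
        intro P'
        by_cases hPP : P' = P
        · rw [hPP, if_pos hall, if_pos rfl]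
        · rw [if_neg hPP, if_neg]
          intro h5
          have h6 := h5 x hx
          rw [hP] at h6
          exact hPP (Option.some_injective _ h6).symm
      rw [sum_congr rfl (fun P' _ => h4 P'), sum_ite_eq' univ P, if_pos (mem_univ P)]
    · rw [if_neg (fun h => hs h.2)]
      refine le_of_eq (sum_eq_zero (fun s _ => if_neg hs))
  · refine le_trans ?_ (le_add_of_nonneg_left hnn)
    unfold Wc w1c Wn
    by_cases hs : (#g : ℝ) ≤ 5 * ζ * #(NsO G lam g)
    · rw [if_pos ⟨hl, hD, hs⟩]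
      have h4 : ∀ s ∈ Colr (wrL c lam) q0 g, (if (#g : ℝ) ≤ 5 * ζ * #(NsO G lam g) then
          (if g ⊆ DD G d δ lam then
            ∑ P : Ph A, (if ∀ x ∈ g, lam x = some P then w1P G c P g s else 0)
          else Real.exp (C1 * #g - c5 * #(NsO G lam g))) else 0) =
          Real.exp (C1 * #g - c5 * #(NsO G lam g)) := by
        intro s _
        rw [if_pos hs, if_neg hD]
      rw [sum_congr rfl h4, sum_const, nsmul_eq_mul]
      refine mul_le_mul_of_nonneg_right ?_ (Real.exp_pos _).le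
      exact_mod_cast card_Colr_le _ _ _
    · rw [if_neg (fun h => hs h.2.2)]
      refine le_of_eq (sum_eq_zero (fun s _ => if_neg hs))

/-- the partition function of the code -/
theorem XiC_le (hA : ∀ i j, 0 ≤ A i j) (G : SimpleGraph V) (d : ℕ) (c : V → Bool)
    (q0 : Fin q) (δ ζ C1 c5 δ' : ℝ) (lam : V → Option (Ph A))
    (hδ : ∀ x (U : Finset V), ∑ g ∈ U.powerset.filter (fun g => x ∈ g),
      Wn G d δ ζ C1 c5 lam g ≤ δ') :
    XiC G d c q0 δ ζ C1 c5 lam ≤
      (∏ P : Ph A, XiP G c q0 ζ P (UU G d δ lam P)) *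
        (1 + δ') ^ #(univ.filter (fun x => x ∉ DD G d δ lam)) := by
  have hwP : ∀ (P : Ph A) (g : Finset V), 0 ≤ wP G c q0 ζ P g := by
    intro P g
    unfold wP
    split_ifs
    · exact sum_nonneg (fun s _ => w1P_nonneg hA G c P g s)
    · exact le_rfl
  rw [XiC_eq]
  set Wi : Option (Ph A) → Finset V → ℝ := fun o g =>
    match o with
    | none => Wn G d δ ζ C1 c5 lam g
    | some P => if g ⊆ UU G d δ lam P then wP G c q0 ζ P g else 0 with hWi
  have h1 := Xi_sum_le_prod (lkG_ok G) (univ : Finset (Option (Ph A)))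
    (fun g => if Linked (lkG G) g then Wc (wrL c lam) q0 (w1c G d c δ ζ C1 c5 lam) g else 0)
    Wi (by
      intro g
      show 0 ≤ if Linked (lkG G) g then Wc (wrL c lam) q0 (w1c G d c δ ζ C1 c5 lam) g else 0
      split_ifs
      · exact sum_nonneg (fun s _ => w1c_nonneg hA G d c δ ζ C1 c5 lam g s)
      · exact le_rfl) (by
      intro o g
      rcases o with _ | P
      · exact Wn_nonneg G d δ ζ C1 c5 lam g
      · show 0 ≤ if g ⊆ UU G d δ lam P then wP G c q0 ζ P g else 0
        split_ifs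
        · exact hwP P g
        · exact le_rfl) univ (by
      intro g _ hg
      rw [Fintype.sum_option]
      show (if Linked (lkG G) g then Wc (wrL c lam) q0 (w1c G d c δ ζ C1 c5 lam) g else 0) ≤
        Wn G d δ ζ C1 c5 lam g + ∑ P : Ph A, (if g ⊆ UU G d δ lam P then wP G c q0 ζ P g else 0)
      split_ifs with hl
      · rw [add_comm]
        exact Wc_w1c_le hA G d c q0 δ ζ C1 c5 lam hg hl
      · refine add_nonneg (Wn_nonneg G d δ ζ C1 c5 lam g) (sum_nonneg (fun P _ => ?_))
        split_ifs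
        · exact hwP P g
        · exact le_rfl)
  refine h1.trans ?_
  rw [Fintype.prod_option, mul_comm]
  have h2 : ∀ P : Ph A, Xi (lkG G) (Wi (some P)) univ = XiP G c q0 ζ P (UU G d δ lam P) := by
    intro P
    show Xi (lkG G) (fun g => if g ⊆ UU G d δ lam P then wP G c q0 ζ P g else 0) univ = _
    rw [Xi_restrict, univ_inter]
    rfl
  rw [prod_congr rfl (fun P _ => h2 P)]
  have h3 : Xi (lkG G) (Wi none) univ ≤ (1 + δ') ^ #(univ.filter (fun x => x ∉ DD G d δ lam)) := by
    have h4 := Xi_le_pow_cover (lkG_ok G) (W := Wn G d δ ζ C1 c5 lam)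
      (Wn_nonneg G d δ ζ C1 c5 lam) (univ.filter (fun x => x ∉ DD G d δ lam)) δ' univ (by
        intro g _ _ hW
        unfold Wn at hW
        have h5 : ¬ g ⊆ DD G d δ lam := by
          intro h6
          exact hW (if_neg (fun h7 => h7.2.1 h6))
        rw [Finset.not_subset] at h5
        obtain ⟨x, hx, hxD⟩ := h5
        exact ⟨x, hx, mem_filter.2 ⟨mem_univ _, hxD⟩⟩) (fun x _ U' _ => hδ x U')
    rwa [univ_inter] at h4
  refine mul_le_mul_of_nonneg_left h3 (prod_nonneg (fun P _ => ?_))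
  exact Xi_nonneg (hwP P) _

end LD
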