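import Pool.Agent.W_5dd92e_ld.Code
import Pool.Agent.W_5dd92e_ld.GasH

/-!
# MP_5dd92e_co, large degree theorem: the exact code length (end of section 6)
-/

set_option autoImplicit false

open Finset
open scoped Classical

namespace LD

section log
variable {V : Type*} [Fintype V] {q : ℕ} {A : Fin q → Fin q → ℝ}

/-- union of the deep components of `D` -/
noncomputable def deepP (G : SimpleGraph V) (d : ℕ) (δ : ℝ) (lam : V → Option (Ph A))
    (D : Finset V) : Finset V :=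
  ((comps (lkG G) D).filter (fun g => g ⊆ DD G d δ lam)).biUnion id

/-- sums over adjacent pairs -/
theorem cl_pairs (G : SimpleGraph V) (c : V → Bool) (hc : TPB.Prp G c) (h : V → V → ℝ) :
    ∑ s, ∑ y ∈ nb G s, h s y = ∑ e ∈ TPB.ed G c, (h e.1 e.2 + h e.2 e.1) := by
  have h1 : ∑ e ∈ TPB.ed G c, h e.1 e.2 =
      ∑ s, ∑ y, (if G.Adj s y ∧ c s = true then h s y else 0) := by
    unfold TPB.ed
    rw [Finset.sum_filter, Fintype.sum_prod_type]
  have h2 : ∑ e ∈ TPB.ed G c, h e.2 e.1 =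
      ∑ s, ∑ y, (if G.Adj y s ∧ c y = true then h s y else 0) := by
    unfold TPB.ed
    rw [Finset.sum_filter, Fintype.sum_prod_type, Finset.sum_comm]
  rw [Finset.sum_add_distrib, h1, h2, ← Finset.sum_add_distrib]
  refine Finset.sum_congr rfl fun s _ => ?_
  rw [← Finset.sum_add_distrib]
  unfold nb
  rw [Finset.sum_filter]
  refine Finset.sum_congr rfl fun y _ => ?_
  by_cases hsy : G.Adj s y
  · have h3 := hc s y hsy
    have hys := hsy.symm
    rcases hs : c s with _ | _ <;> rcases hy : c y with _ | _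
    · exact absurd (hs.trans hy.symm) h3
    · simp [hsy, hys]
    · simp [hsy, hys]
    · exact absurd (hs.trans hy.symm) h3
  · have hys : ¬ G.Adj y s := fun h => hsy h.symm
    simp [hsy, hys]

/-- a double sum as a sum over all adjacent pairs -/
theorem cl_conv (G : SimpleGraph V) (F : Finset V) (T : V → Finset V)
    (hT : ∀ s ∈ F, T s ⊆ nb G s) (f : V → V → ℝ) :
    ∑ s ∈ F, ∑ y ∈ T s, f s y =
      ∑ s, ∑ y ∈ nb G s, (if s ∈ F ∧ y ∈ T s then f s y else 0) := by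
  rw [← Finset.sum_subset (Finset.subset_univ F)]
  · refine Finset.sum_congr rfl fun s hs => ?_
    rw [← Finset.sum_filter]
    refine Finset.sum_congr ?_ fun _ _ => rfl
    ext y
    rw [mem_filter]
    constructor
    · intro hy
      exact ⟨hT s hs hy, hs, hy⟩
    · rintro ⟨_, _, hy⟩
      exact hy
  · intro s _ hs
    refine Finset.sum_eq_zero fun y _ => ?_
    rw [if_neg]
    exact fun h => hs h.1

/-- EDGE.  Every edge weight is used at most once. -/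
theorem edge_use (G : SimpleGraph V) (c : V → Bool) (hc : TPB.Prp G c) (D Dd Rp sol : Finset V)
    (o : Bool) (hDd : Dd ⊆ D) (Le : V → V → ℝ) (hsym : ∀ u v, Le u v = Le v u)
    (hneg : ∀ u v, G.Adj u v → Le u v ≤ 0) :
    ∑ e ∈ TPB.ed G c, Le e.1 e.2 ≤
      (∑ x ∈ Dd.filter (fun x => c x = true), ∑ y ∈ nb G x ∩ Dd, Le x y)
      + (∑ s ∈ (Rp \ D).filter (fun s => s ∈ sol), ∑ x ∈ nb G s ∩ D, Le x s)
      + ∑ s ∈ univ \ (D ∪ Rp),
          ∑ y ∈ (if c s = o then nb G s ∩ (D ∪ Rp) else nb G s), Le y s := by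
  rw [cl_conv G (Dd.filter (fun x => c x = true)) (fun x => nb G x ∩ Dd)
      (fun s _ => Finset.inter_subset_left) (fun x y => Le x y),
    cl_conv G ((Rp \ D).filter (fun s => s ∈ sol)) (fun s => nb G s ∩ D)
      (fun s _ => Finset.inter_subset_left) (fun s x => Le x s),
    cl_conv G (univ \ (D ∪ Rp)) (fun s => if c s = o then nb G s ∩ (D ∪ Rp) else nb G s)
      (fun s _ => by
        by_cases h : c s = o
        · simp only [h, if_true]
          exact Finset.inter_subset_left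
        · simp only [h, if_false]
          exact Finset.Subset.refl _) (fun s y => Le y s),
    cl_pairs G c hc, cl_pairs G c hc, cl_pairs G c hc, ← Finset.sum_add_distrib,
    ← Finset.sum_add_distrib]
  refine Finset.sum_le_sum ?_
  rintro ⟨u, v⟩ he
  unfold TPB.ed at he
  obtain ⟨_, huv, hcu⟩ := Finset.mem_filter.mp he
  simp only at huv hcu
  have hvu := huv.symm
  have hcv : c v = false := by
    have h3 := hc u v huv
    rw [hcu] at h3
    cases h : c v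
    · rfl
    · rw [h] at h3
      exact absurd rfl h3
  have hL := hneg u v huv
  have hs : Le v u = Le u v := hsym v u
  simp only [mem_filter, mem_inter, mem_nb, mem_sdiff, mem_union, mem_univ, true_and, hs, hcu,
    hcv]
  have hd1 : u ∈ Dd → u ∈ D := fun h => hDd h
  have hd2 : v ∈ Dd → v ∈ D := fun h => hDd h
  by_cases huD : u ∈ D <;> by_cases hvD : v ∈ D
  · simp only [huD, hvD, huv, hvu, not_true_eq_false, and_false, false_and, or_true, true_or,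
      if_false, add_zero, not_or]
    have hf : (false = true) = False := by simp
    simp only [hf, and_false, false_and, if_false, add_zero]
    split_ifs <;> simp <;> linarith
  · have hvd : v ∉ Dd := fun h => hvD (hd2 h)
    simp only [huD, hvD, hvd, huv, hvu, not_true_eq_false, and_false, false_and, or_true, true_or,
      if_false, add_zero, zero_add, not_or, not_false_eq_true, true_and, and_true]
    by_cases hvR : v ∈ Rp
    · simp only [hvR, not_true_eq_false, false_and, if_false, add_zero]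
      split_ifs <;> linarith
    · simp only [hvR, false_and, if_false, zero_add]
      split_ifs <;> linarith
  · have hud : u ∉ Dd := fun h => huD (hd1 h)
    simp only [huD, hvD, hud, huv, hvu, not_true_eq_false, and_false, false_and, or_true, true_or,
      if_false, add_zero, zero_add, not_or, not_false_eq_true, true_and, and_true]
    by_cases huR : u ∈ Rp
    · simp only [huR, not_true_eq_false, false_and, if_false, add_zero]
      split_ifs <;> linarith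
    · simp only [huR, false_and, if_false, zero_add]
      split_ifs <;> linarith
  · have hvd : v ∉ Dd := fun h => hvD (hd2 h)
    have hud : u ∉ Dd := fun h => huD (hd1 h)
    simp only [huD, hvD, hvd, hud, huv, hvu, and_false, false_and,
      if_false, add_zero, zero_add, not_or, not_false_eq_true, true_and, and_true, false_or]
    by_cases huR : u ∈ Rp <;> by_cases hvR : v ∈ Rp <;> rcases o with _ | _ <;>
      simp [huR, hvR, huD, hvD, huv, hvu, hL, mem_nb]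

/-- a component is closed under links inside `D` -/
theorem comps_closed (G : SimpleGraph V) {D g : Finset V} (hg : g ∈ comps (lkG G) D) {x y : V}
    (hx : x ∈ g) (hy : y ∈ D) (hxy : y ∈ lkG G x) : y ∈ g := by
  obtain ⟨x0, hx0, rfl⟩ := mem_comps.1 hg
  obtain ⟨hxD, h1⟩ := mem_compOf.1 hx
  exact mem_compOf.2 ⟨hy, Relation.ReflTransGen.tail h1 ⟨hxD, hy, hxy⟩⟩

/-- a deep component has one phase, and so have its neighbours, which are in `Dp` -/
theorem deep_phase (G : SimpleGraph V) (d : ℕ) (δ : ℝ) (lam : V → Option (Ph A))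
    {D g : Finset V} (hg : g ∈ comps (lkG G) D) (hgD : g ⊆ DD G d δ lam) :
    ∃ P, ∀ x ∈ g, lam x = some P ∧ ∀ y, G.Adj x y → lam y = some P ∧ y ∈ Dp G d δ lam := by
  obtain ⟨x0, hx0⟩ := comps_ne hg
  have hl := comps_linked (lkG_ok G) hg
  have h0 := (mem_Dp.1 (mem_DD.1 (hgD hx0)).1).1
  have h1 : lam x0 ≠ none := (mem_Khi.1 (mem_Sol.1 h0).1).1
  obtain ⟨P, hP⟩ := Option.ne_none_iff_exists'.1 h1
  refine ⟨P, fun x hx => ?_⟩
  have h2 : lam x = some P := by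
    rw [gh_DD_linked hgD hl hx0 hx, hP]
  refine ⟨h2, fun y hy => ⟨?_, (mem_DD.1 (hgD hx)).2 y hy⟩⟩
  rw [gh_DD_nb (hgD hx) hy, h2]

theorem cl_mm_pos {κ : ℝ} (hA : Tgt A κ) : 1 ≤ mm A := by
  obtain ⟨i, j, hij⟩ := hA.one
  have h : Bic A {i} {j} := by
    intro a ha b hb
    rw [mem_singleton] at ha hb
    rw [ha, hb, hij]
  have h2 : #({i} : Finset (Fin q)) * #({j} : Finset (Fin q)) ≤ mm A := by
    unfold mm
    exact le_sup (f := fun p : Finset (Fin q) × Finset (Fin q) => #p.1 * #p.2)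
      (mem_filter.2 ⟨mem_univ (({i} : Finset (Fin q)), ({j} : Finset (Fin q))), h⟩)
  simpa using h2

omit [Fintype V] in
theorem cl_pat_pos {κ : ℝ} (hA : Tgt A κ) (c : V → Bool) (P : Ph A) (x : V) :
    0 < #(pat c P x) := by
  have h1 := cl_mm_pos hA
  have h2 := P.2.2
  have h3 : 0 < #P.1.1 * #P.1.2 := by omega
  unfold pat
  split_ifs
  · exact Nat.pos_of_mul_pos_right h3
  · exact Nat.pos_of_mul_pos_left h3

/-- the colour of a vertex outside `D` is allowed -/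
theorem cl_base_mem (X : Ctx V q A) (σ : V → Fin q) (hD : X.D = DF X.G X.d X.c X.lam σ) {s : V}
    (hs : s ∉ X.D) : σ s ∈ X.base s := by
  unfold Ctx.base
  by_cases h : s ∈ X.sol
  · rw [if_pos h]
    have h1 : s ∈ Khi X.G X.d X.lam := (mem_Sol.mp h).1
    rcases hl : X.lam s with _ | P
    · exact mem_univ _
    · show σ s ∈ pat X.c P s
      by_contra hcon
      apply hs
      rw [hD]
      unfold DF
      exact mem_filter.mpr ⟨h1, P, hl, hcon⟩
  · rw [if_neg h]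
    exact mem_univ _

/-- `base` on the vertices of phase `P` of `Sol` -/
theorem cl_base_eq (X : Ctx V q A) {s : V} (hs : s ∈ X.sol) {P : Ph A} (hP : X.lam s = some P) :
    X.base s = pat X.c P s := by
  unfold Ctx.base
  rw [if_pos hs, hP]

/-- positivity of the weight used in `R+` -/
theorem cl_fp_pos (X : Ctx V q A) (σ : V → Fin q) (hD : X.D = DF X.G X.d X.c X.lam σ)
    (hσ : ∀ u v, X.G.Adj u v → 0 < A (σ u) (σ v)) {s : V} (hs : s ∉ X.D) :
    0 < X.fp σ s (σ s) := by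
  unfold Ctx.fp
  rw [if_pos (cl_base_mem X σ hD hs)]
  split_ifs
  · refine Finset.prod_pos fun x hx => ?_
    exact hσ x s (mem_nb.1 (mem_inter.1 hx).1).symm
  · exact zero_lt_one

/-- the neighbours in `Rev` are neighbours -/
theorem cl_rev (X : Ctx V q A) {s y : V} (hy : y ∈ X.Rev s) : X.G.Adj s y := by
  unfold Ctx.Rev at hy
  split_ifs at hy
  · exact mem_nb.1 (mem_inter.1 hy).1
  · exact mem_nb.1 hy

/-- positivity of the weight used in the last stages -/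
theorem cl_fw_pos (X : Ctx V q A) (σ : V → Fin q) (hD : X.D = DF X.G X.d X.c X.lam σ)
    (hσ : ∀ u v, X.G.Adj u v → 0 < A (σ u) (σ v)) {s : V} (hs : s ∉ X.D) :
    0 < X.fw σ s (σ s) := by
  unfold Ctx.fw
  rw [if_pos (cl_base_mem X σ hD hs)]
  refine mul_pos (Finset.prod_pos fun y hy => ?_) (Real.exp_pos _)
  exact hσ y s (cl_rev X hy).symm

theorem cl_ZP_pos {κ : ℝ} (hA : Tgt A κ) (X : Ctx V q A) (σ : V → Fin q)
    (hD : X.D = DF X.G X.d X.c X.lam σ)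
    (hσ : ∀ u v, X.G.Adj u v → 0 < A (σ u) (σ v)) {s : V} (hs : s ∉ X.D) : 0 < X.ZP σ s := by
  unfold Ctx.ZP
  exact lt_of_lt_of_le (cl_fp_pos X σ hD hσ hs)
    (Finset.single_le_sum (f := fun a => X.fp σ s a)
      (fun a _ => Ctx.fp_nonneg hA.nn X σ s a) (mem_univ (σ s)))

theorem cl_ZZ_pos {κ : ℝ} (hA : Tgt A κ) (X : Ctx V q A) (σ : V → Fin q)
    (hD : X.D = DF X.G X.d X.c X.lam σ)
    (hσ : ∀ u v, X.G.Adj u v → 0 < A (σ u) (σ v)) {s : V} (hs : s ∉ X.D) : 0 < X.ZZ σ s := by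
  unfold Ctx.ZZ
  exact lt_of_lt_of_le (cl_fw_pos X σ hD hσ hs)
    (Finset.single_le_sum (f := fun a => X.fw σ s a)
      (fun a _ => Ctx.fw_nonneg hA.nn X σ s a) (mem_univ (σ s)))

theorem cl_KC_pos {κ : ℝ} (hA : Tgt A κ) (X : Ctx V q A) (σ : V → Fin q)
    (hD : X.D = DF X.G X.d X.c X.lam σ)
    (hσ : ∀ u v, X.G.Adj u v → 0 < A (σ u) (σ v)) : 0 < X.KC σ := by
  unfold Ctx.KC
  refine mul_pos (Finset.prod_pos fun s hs => ?_) (Finset.prod_pos fun s hs => ?_)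
  · have h := (mem_sdiff.1 hs).2
    exact div_pos (cl_fp_pos X σ hD hσ h) (cl_ZP_pos hA X σ hD hσ h)
  · have h : s ∉ X.D := by
      unfold Ctx.rest at hs
      exact fun h' => (mem_sdiff.1 hs).2 (mem_union_left _ h')
    exact div_pos (cl_fw_pos X σ hD hσ h) (cl_ZZ_pos hA X σ hD hσ h)

/-- the logarithm of `KC` -/
theorem cl_KC_log {κ : ℝ} (hA : Tgt A κ) (X : Ctx V q A) (σ : V → Fin q)
    (hD : X.D = DF X.G X.d X.c X.lam σ)
    (hσ : ∀ u v, X.G.Adj u v → 0 < A (σ u) (σ v)) :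
    Real.log (X.KC σ) + (∑ s ∈ X.Rp \ X.D, Real.log (X.ZP σ s))
      + ∑ s ∈ X.rest, (X.cp * (X.KN σ s (σ s) : ℝ) + Real.log (X.ZZ σ s)) =
    (∑ s ∈ (X.Rp \ X.D).filter (fun s => s ∈ X.sol), ∑ x ∈ nb X.G s ∩ X.D,
        Real.log (A (σ x) (σ s)))
      + ∑ s ∈ X.rest, ∑ y ∈ X.Rev s, Real.log (A (σ y) (σ s)) := by
  have hrest : ∀ s ∈ X.rest, s ∉ X.D := by
    intro s hs
    unfold Ctx.rest at hs
    exact fun h' => (mem_sdiff.1 hs).2 (mem_union_left _ h')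
  have h1 : ∀ s ∈ X.Rp \ X.D, 0 < X.fp σ s (σ s) / X.ZP σ s := fun s hs =>
    div_pos (cl_fp_pos X σ hD hσ (mem_sdiff.1 hs).2) (cl_ZP_pos hA X σ hD hσ (mem_sdiff.1 hs).2)
  have h2 : ∀ s ∈ X.rest, 0 < X.fw σ s (σ s) / X.ZZ σ s := fun s hs =>
    div_pos (cl_fw_pos X σ hD hσ (hrest s hs)) (cl_ZZ_pos hA X σ hD hσ (hrest s hs))
  have h3 : ∀ s ∈ X.Rp \ X.D, Real.log (X.fp σ s (σ s) / X.ZP σ s) =
      (if s ∈ X.sol then ∑ x ∈ nb X.G s ∩ X.D, Real.log (A (σ x) (σ s)) else 0)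
        - Real.log (X.ZP σ s) := by
    intro s hs
    have hsD := (mem_sdiff.1 hs).2
    rw [Real.log_div (cl_fp_pos X σ hD hσ hsD).ne' (cl_ZP_pos hA X σ hD hσ hsD).ne']
    congr 1
    unfold Ctx.fp
    rw [if_pos (cl_base_mem X σ hD hsD)]
    by_cases hsol : s ∈ X.sol
    · rw [if_pos hsol, if_pos hsol, Real.log_prod]
      intro x hx
      exact (hσ x s (mem_nb.1 (mem_inter.1 hx).1).symm).ne'
    · rw [if_neg hsol, if_neg hsol, Real.log_one]
  have h4 : ∀ s ∈ X.rest, Real.log (X.fw σ s (σ s) / X.ZZ σ s) =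
      (∑ y ∈ X.Rev s, Real.log (A (σ y) (σ s))) - X.cp * (X.KN σ s (σ s) : ℝ)
        - Real.log (X.ZZ σ s) := by
    intro s hs
    have hsD := hrest s hs
    rw [Real.log_div (cl_fw_pos X σ hD hσ hsD).ne' (cl_ZZ_pos hA X σ hD hσ hsD).ne']
    congr 1
    unfold Ctx.fw
    have hne : ∀ y ∈ X.Rev s, A (σ y) (σ s) ≠ 0 := fun y hy => (hσ y s (cl_rev X hy).symm).ne'
    rw [if_pos (cl_base_mem X σ hD hsD), Real.log_mul (Finset.prod_ne_zero_iff.2 hne)
      (Real.exp_pos _).ne', Real.log_exp, Real.log_prod hne]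
    ring
  unfold Ctx.KC
  rw [Real.log_mul (Finset.prod_ne_zero_iff.2 fun s hs => (h1 s hs).ne')
    (Finset.prod_ne_zero_iff.2 fun s hs => (h2 s hs).ne'),
    Real.log_prod (fun s hs => (h1 s hs).ne'), Real.log_prod (fun s hs => (h2 s hs).ne'),
    Finset.sum_congr rfl h3, Finset.sum_congr rfl h4, Finset.sum_sub_distrib,
    Finset.sum_sub_distrib, Finset.sum_sub_distrib, Finset.sum_add_distrib, Finset.sum_filter]
  ring

/-- a vertex of the outer boundary of a component is not in `D` -/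
theorem cl_Nout_D {G : SimpleGraph V} {D g : Finset V} (hg : g ∈ comps (lkG G) D) {y : V}
    (hy : y ∈ Nout G g) : y ∉ D := by
  intro hyD
  obtain ⟨⟨x, hx, hxy⟩, hyg⟩ := mem_Nout.1 hy
  exact hyg (comps_closed G hg hx hyD (mem_lkG.2 (Or.inr (Or.inl hxy))))

/-- the neighbours in `D` of a boundary vertex of `g` are in `g` -/
theorem cl_nb_D {G : SimpleGraph V} {D g : Finset V} (hg : g ∈ comps (lkG G) D) {y : V}
    (hy : y ∈ Nout G g) : nb G y ∩ g = nb G y ∩ D := by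
  obtain ⟨⟨x, hx, hxy⟩, hyg⟩ := mem_Nout.1 hy
  ext z
  rw [mem_inter, mem_inter]
  constructor
  · rintro ⟨h1, h2⟩
    exact ⟨h1, comps_sub hg h2⟩
  · rintro ⟨h1, h2⟩
    exact ⟨h1, comps_closed G hg hx h2 (mem_lkG.2 (Or.inr (Or.inr ⟨y, hxy, mem_nb.1 h1⟩)))⟩

/-- two components with a common boundary vertex are equal -/
theorem cl_Nout_inj {G : SimpleGraph V} {D g g' : Finset V} (hg : g ∈ comps (lkG G) D)
    (hg' : g' ∈ comps (lkG G) D) {x x' y : V} (hx : x ∈ g) (hx' : x' ∈ g') (hxy : G.Adj x y)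
    (hxy' : G.Adj x' y) : g = g' := by
  by_contra hne
  have h1 := comps_disj (lkG_ok G) hg hg' hne
  rw [Finset.disjoint_left] at h1
  exact h1 (mem_nbS.2 ⟨x, hx, mem_lkG.2 (Or.inr (Or.inr ⟨y, hxy, hxy'.symm⟩))⟩) hx'

theorem cl_comps_pd (G : SimpleGraph V) (D : Finset V) (S : Finset (Finset V))
    (hS : S ⊆ comps (lkG G) D) : Set.PairwiseDisjoint (S : Set (Finset V)) id := by
  intro g hg g' hg' hne
  have h1 := comps_disj (lkG_ok G) (hS (mem_coe.1 hg)) (hS (mem_coe.1 hg')) hne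
  rw [Function.onFun, id, id, Finset.disjoint_left]
  intro x hx hx'
  rw [Finset.disjoint_left] at h1
  exact h1 (mem_nbS.2 ⟨x, hx, (lkG_ok G).refl x⟩) hx'

theorem cl_Nout_pd (G : SimpleGraph V) (D : Finset V) (S : Finset (Finset V))
    (hS : S ⊆ comps (lkG G) D) : Set.PairwiseDisjoint (S : Set (Finset V)) (Nout G) := by
  intro g hg g' hg' hne
  rw [Function.onFun, Finset.disjoint_left]
  intro y hy hy'
  obtain ⟨⟨x, hx, hxy⟩, _⟩ := mem_Nout.1 hy
  obtain ⟨⟨x', hx', hxy'⟩, _⟩ := mem_Nout.1 hy'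
  exact hne (cl_Nout_inj (hS (mem_coe.1 hg)) (hS (mem_coe.1 hg')) hx hx' hxy hxy')

theorem cl_NsO_sub (G : SimpleGraph V) (lam : V → Option (Ph A)) (g : Finset V) :
    NsO G lam g ⊆ Nout G g := by
  intro y hy
  unfold NsO at hy
  obtain ⟨h1, h2⟩ := mem_sdiff.1 hy
  obtain ⟨x, hx, hxy⟩ := mem_biUnion.1 h1
  exact mem_Nout.2 ⟨⟨x, hx, (mem_Hs.1 hxy).1⟩, h2⟩

/-- facts about a deep component -/
theorem cl_deep {κ : ℝ} (hA : Tgt A κ) (X : Ctx V q A) (σ : V → Fin q)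
    (hD : X.D = DF X.G X.d X.c X.lam σ)
    (hσ : ∀ u v, X.G.Adj u v → 0 < A (σ u) (σ v)) (ζ C1 c5 : ℝ) {g : Finset V}
    (hg : g ∈ comps (lkG X.G) X.D) (hgD : g ⊆ DD X.G X.d X.δ X.lam)
    (hF2 : (#g : ℝ) ≤ 5 * ζ * #(NsO X.G X.lam g)) :
    0 < w1c X.G X.d X.c X.δ ζ C1 c5 X.lam g σ ∧
    Real.log (w1c X.G X.d X.c X.δ ζ C1 c5 X.lam g σ) =
      -(∑ x ∈ g, Real.log ((X.base x).card : ℝ))
      + (∑ x ∈ g, if X.c x = true then ∑ y ∈ nb X.G x ∩ deepP X.G X.d X.δ X.lam X.D,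
          Real.log (A (σ x) (σ y)) else 0)
      + ∑ y ∈ Nout X.G g, Real.log (X.r σ y) := by
  obtain ⟨P, hP⟩ := deep_phase X.G X.d X.δ X.lam hg hgD
  obtain ⟨x0, hx0⟩ := comps_ne hg
  have hsolg : ∀ x ∈ g, x ∈ X.sol := fun x hx => (mem_Dp.1 (mem_DD.1 (hgD hx)).1).1
  have hN : ∀ y ∈ Nout X.G g, X.lam y = some P ∧ y ∈ X.sol ∧ y ∉ X.D := by
    intro y hy
    obtain ⟨⟨x, hx, hxy⟩, _⟩ := mem_Nout.1 hy
    have h1 := (hP x hx).2 y hxy
    exact ⟨h1.1, (mem_Dp.1 h1.2).1, cl_Nout_D hg hy⟩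
  have hw : w1c X.G X.d X.c X.δ ζ C1 c5 X.lam g σ = w1P X.G X.c P g σ := by
    unfold w1c
    rw [if_pos hF2, if_pos hgD, Finset.sum_eq_single P]
    · rw [if_pos fun x hx => (hP x hx).1]
    · intro P' _ hne
      rw [if_neg]
      intro h
      have h1 := h x0 hx0
      rw [(hP x0 hx0).1] at h1
      exact hne (Option.some.inj h1).symm
    · intro h
      exact absurd (mem_univ P) h
  have hr : ∀ y ∈ Nout X.G g, rr X.G X.c P g σ y = X.r σ y := by
    intro y hy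
    obtain ⟨h1, h2, _⟩ := hN y hy
    unfold rr Ctx.r
    rw [cl_base_eq X h2 h1, cl_nb_D hg hy]
  have hrpos : ∀ y ∈ Nout X.G g, 0 < rr X.G X.c P g σ y := by
    intro y hy
    obtain ⟨h1, h2, h3⟩ := hN y hy
    unfold rr
    refine div_pos ?_ (Nat.cast_pos.2 (cl_pat_pos hA X.c P y))
    have h4 : σ y ∈ pat X.c P y := by
      rw [← cl_base_eq X h2 h1]
      exact cl_base_mem X σ hD h3
    refine lt_of_lt_of_le ?_ (Finset.single_le_sum
      (f := fun t => ∏ x ∈ nb X.G y ∩ g, A (σ x) t)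
      (fun t _ => Finset.prod_nonneg fun x _ => hA.nn _ _) h4)
    exact Finset.prod_pos fun x hx => hσ x y (mem_nb.1 (mem_inter.1 hx).1).symm
  have hedge : ∀ x ∈ g, nb X.G x ∩ g = nb X.G x ∩ deepP X.G X.d X.δ X.lam X.D := by
    intro x hx
    ext y
    rw [mem_inter, mem_inter]
    constructor
    · rintro ⟨h1, h2⟩
      refine ⟨h1, ?_⟩
      unfold deepP
      exact mem_biUnion.2 ⟨g, mem_filter.2 ⟨hg, hgD⟩, h2⟩
    · rintro ⟨h1, h2⟩
      refine ⟨h1, ?_⟩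
      unfold deepP at h2
      obtain ⟨g', hg', hy⟩ := mem_biUnion.1 h2
      exact comps_closed X.G hg hx (comps_sub (mem_filter.1 hg').1 hy)
        (mem_lkG.2 (Or.inr (Or.inl (mem_nb.1 h1))))
  have hpc : ∀ x ∈ g, (0 : ℝ) < (#(pat X.c P x) : ℝ) := fun x _ =>
    Nat.cast_pos.2 (cl_pat_pos hA X.c P x)
  have ha : ∀ x ∈ g.filter (fun x => X.c x = true), ∀ y ∈ nb X.G x ∩ g,
      0 < A (σ x) (σ y) := fun x _ y hy => hσ x y (mem_nb.1 (mem_inter.1 hy).1)
  have p1 : 0 < ∏ x ∈ g, ((#(pat X.c P x) : ℝ))⁻¹ :=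
    Finset.prod_pos fun x hx => inv_pos.2 (hpc x hx)
  have p2 : 0 < ∏ x ∈ g.filter (fun x => X.c x = true), ∏ y ∈ nb X.G x ∩ g, A (σ x) (σ y) :=
    Finset.prod_pos fun x hx => Finset.prod_pos fun y hy => ha x hx y hy
  have p3 : 0 < ∏ y ∈ Nout X.G g, rr X.G X.c P g σ y := Finset.prod_pos hrpos
  rw [hw]
  unfold w1P
  refine ⟨mul_pos (mul_pos p1 p2) p3, ?_⟩
  rw [Real.log_mul (mul_pos p1 p2).ne' p3.ne', Real.log_mul p1.ne' p2.ne',
    Real.log_prod (fun x hx => (inv_pos.2 (hpc x hx)).ne'),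
    Real.log_prod (fun x hx => (Finset.prod_pos fun y hy => ha x hx y hy).ne'),
    Real.log_prod (fun y hy => (hrpos y hy).ne')]
  congr 1
  · congr 1
    · rw [← Finset.sum_neg_distrib]
      refine Finset.sum_congr rfl fun x hx => ?_
      rw [Real.log_inv, cl_base_eq X (hsolg x hx) (hP x hx).1]
    · rw [← Finset.sum_filter]
      refine Finset.sum_congr rfl fun x hx => ?_
      rw [Real.log_prod (fun y hy => (ha x hx y hy).ne'), hedge x (mem_filter.1 hx).1]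
  · exact Finset.sum_congr rfl fun y hy => by rw [hr y hy]

/-- facts about a component which is not deep -/
theorem cl_ndeep (X : Ctx V q A) (σ : V → Fin q) (ζ C1 c5 : ℝ) {g : Finset V}
    (hgD : ¬ g ⊆ DD X.G X.d X.δ X.lam)
    (hF2 : (#g : ℝ) ≤ 5 * ζ * #(NsO X.G X.lam g)) :
    0 < w1c X.G X.d X.c X.δ ζ C1 c5 X.lam g σ ∧
    Real.log (w1c X.G X.d X.c X.δ ζ C1 c5 X.lam g σ) =
      C1 * #g - c5 * #(NsO X.G X.lam g) := by
  have hw : w1c X.G X.d X.c X.δ ζ C1 c5 X.lam g σ =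
      Real.exp (C1 * #g - c5 * #(NsO X.G X.lam g)) := by
    unfold w1c
    rw [if_pos hF2, if_neg hgD]
  rw [hw]
  exact ⟨Real.exp_pos _, Real.log_exp _⟩

/-- the gas weight is positive -/
theorem cl_gas_pos {κ : ℝ} (hA : Tgt A κ) (X : Ctx V q A) (σ : V → Fin q)
    (hD : X.D = DF X.G X.d X.c X.lam σ)
    (hσ : ∀ u v, X.G.Adj u v → 0 < A (σ u) (σ v)) (ζ C1 c5 : ℝ)
    (hF2 : ∀ g ∈ comps (lkG X.G) X.D, (#g : ℝ) ≤ 5 * ζ * #(NsO X.G X.lam g)) :
    ∀ g ∈ comps (lkG X.G) X.D, 0 < w1c X.G X.d X.c X.δ ζ C1 c5 X.lam g σ := by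
  intro g hg
  by_cases hgD : g ⊆ DD X.G X.d X.δ X.lam
  · exact (cl_deep hA X σ hD hσ ζ C1 c5 hg hgD (hF2 g hg)).1
  · exact (cl_ndeep X σ ζ C1 c5 hgD (hF2 g hg)).1

/-- the weights are positive -/
theorem QL_pos {κ : ℝ} (hA : Tgt A κ) (G : SimpleGraph V) (d : ℕ) (c : V → Bool)
    (hc : TPB.Prp G c) (q0 : Fin q) (δ ζ C1 c5 τF cp : ℝ) (Rp : Finset V) (o : Bool)
    (lam : V → Option (Ph A)) (σ : V → Fin q)
    (hσ : ∀ u v, G.Adj u v → 0 < A (σ u) (σ v))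
    (hF2 : ∀ g ∈ comps (lkG G) (DF G d c lam σ), (#g : ℝ) ≤ 5 * ζ * #(NsO G lam g)) :
    0 < QL G d c q0 δ ζ C1 c5 τF cp Rp o lam σ := by
  unfold QL
  have h1 := cl_gas_pos hA ⟨G, d, c, δ, τF, cp, lam, Rp, o, DF G d c lam σ⟩ σ rfl hσ ζ C1 c5 hF2
  have h2 : 0 < gas G d c δ ζ C1 c5 lam (DF G d c lam σ) σ := Finset.prod_pos h1
  have h3 : 0 < XiC G d c q0 δ ζ C1 c5 lam :=
    lt_of_lt_of_le zero_lt_one (one_le_XiC hA.nn G d c q0 δ ζ C1 c5 lam)
  exact mul_pos (div_pos h2 h3)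
    (cl_KC_pos hA ⟨G, d, c, δ, τF, cp, lam, Rp, o, DF G d c lam σ⟩ σ rfl hσ)

/-- the logarithm of the gas weight -/
theorem cl_gas_log {κ : ℝ} (hA : Tgt A κ) (X : Ctx V q A) (σ : V → Fin q)
    (hD : X.D = DF X.G X.d X.c X.lam σ)
    (hσ : ∀ u v, X.G.Adj u v → 0 < A (σ u) (σ v)) (ζ C1 c5 : ℝ) (hc5 : 0 ≤ c5)
    (hF2 : ∀ g ∈ comps (lkG X.G) X.D, (#g : ℝ) ≤ 5 * ζ * #(NsO X.G X.lam g)) :
    -(∑ x ∈ deepP X.G X.d X.δ X.lam X.D, Real.log ((X.base x).card : ℝ))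
      + (∑ x ∈ (deepP X.G X.d X.δ X.lam X.D).filter (fun x => X.c x = true),
          ∑ y ∈ nb X.G x ∩ deepP X.G X.d X.δ X.lam X.D, Real.log (A (σ x) (σ y)))
      + (∑ y ∈ X.Nb (deepP X.G X.d X.δ X.lam X.D) \ X.D, Real.log (X.r σ y))
      + (C1 * ((X.D \ deepP X.G X.d X.δ X.lam X.D).card : ℝ)
        - c5 * ((X.Ns (X.D \ deepP X.G X.d X.δ X.lam X.D) \ X.D).card : ℝ)) ≤
    Real.log (gas X.G X.d X.c X.δ ζ C1 c5 X.lam X.D σ) := by
  set Dd := deepP X.G X.d X.δ X.lam X.D with hDd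
  set deep := (comps (lkG X.G) X.D).filter (fun g => g ⊆ DD X.G X.d X.δ X.lam) with hdeep
  set nd := (comps (lkG X.G) X.D).filter (fun g => ¬ g ⊆ DD X.G X.d X.δ X.lam) with hnd
  have hlog : Real.log (gas X.G X.d X.c X.δ ζ C1 c5 X.lam X.D σ) =
      (∑ g ∈ deep, Real.log (w1c X.G X.d X.c X.δ ζ C1 c5 X.lam g σ)) +
        ∑ g ∈ nd, Real.log (w1c X.G X.d X.c X.δ ζ C1 c5 X.lam g σ) := by
    unfold gas
    rw [Real.log_prod (fun g hg => (cl_gas_pos hA X σ hD hσ ζ C1 c5 hF2 g hg).ne'),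
      ← Finset.sum_filter_add_sum_filter_not (comps (lkG X.G) X.D)
        (fun g => g ⊆ DD X.G X.d X.δ X.lam)]
  have hd1 : ∑ g ∈ deep, Real.log (w1c X.G X.d X.c X.δ ζ C1 c5 X.lam g σ) =
      ∑ g ∈ deep, (-(∑ x ∈ g, Real.log ((X.base x).card : ℝ))
      + (∑ x ∈ g, if X.c x = true then ∑ y ∈ nb X.G x ∩ Dd,
          Real.log (A (σ x) (σ y)) else 0)
      + ∑ y ∈ Nout X.G g, Real.log (X.r σ y)) := by
    refine Finset.sum_congr rfl fun g hg => ?_
    obtain ⟨hg1, hg2⟩ := mem_filter.1 hg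
    exact (cl_deep hA X σ hD hσ ζ C1 c5 hg1 hg2 (hF2 g hg1)).2
  have hd2 : ∀ f : V → ℝ, ∑ g ∈ deep, ∑ x ∈ g, f x = ∑ x ∈ Dd, f x := by
    intro f
    rw [hDd]
    unfold deepP
    exact (Finset.sum_biUnion (cl_comps_pd X.G X.D _ (Finset.filter_subset _ _))).symm
  have hd3 : ∑ g ∈ deep, ∑ y ∈ Nout X.G g, Real.log (X.r σ y) =
      ∑ y ∈ X.Nb Dd \ X.D, Real.log (X.r σ y) := by
    rw [← Finset.sum_biUnion (cl_Nout_pd X.G X.D deep (Finset.filter_subset _ _))]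
    refine Finset.sum_congr ?_ fun _ _ => rfl
    ext y
    rw [mem_biUnion, mem_sdiff]
    constructor
    · rintro ⟨g, hg, hy⟩
      obtain ⟨hg1, hg2⟩ := mem_filter.1 hg
      refine ⟨?_, cl_Nout_D hg1 hy⟩
      obtain ⟨⟨x, hx, hxy⟩, _⟩ := mem_Nout.1 hy
      unfold Ctx.Nb
      refine mem_biUnion.2 ⟨x, ?_, mem_nb.2 hxy⟩
      rw [hDd]
      unfold deepP
      exact mem_biUnion.2 ⟨g, hg, hx⟩
    · rintro ⟨hy, hyD⟩
      unfold Ctx.Nb at hy
      obtain ⟨x, hx, hxy⟩ := mem_biUnion.1 hy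
      rw [hDd] at hx
      unfold deepP at hx
      obtain ⟨g, hg, hxg⟩ := mem_biUnion.1 hx
      obtain ⟨hg1, hg2⟩ := mem_filter.1 hg
      exact ⟨g, hg, mem_Nout.2 ⟨⟨x, hxg, mem_nb.1 hxy⟩, fun h => hyD (comps_sub hg1 h)⟩⟩
  have hn1 : ∑ g ∈ nd, Real.log (w1c X.G X.d X.c X.δ ζ C1 c5 X.lam g σ) =
      C1 * (∑ g ∈ nd, (#g : ℝ)) - c5 * ∑ g ∈ nd, (#(NsO X.G X.lam g) : ℝ) := by
    rw [Finset.mul_sum, Finset.mul_sum, ← Finset.sum_sub_distrib]
    refine Finset.sum_congr rfl fun g hg => ?_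
    obtain ⟨hg1, hg2⟩ := mem_filter.1 hg
    exact (cl_ndeep X σ ζ C1 c5 hg2 (hF2 g hg1)).2
  have hn0 : X.D \ Dd = nd.biUnion id := by
    ext x
    rw [mem_sdiff, mem_biUnion]
    constructor
    · rintro ⟨h1, h2⟩
      rw [← biUnion_comps (lkG X.G) X.D] at h1
      obtain ⟨g, hg, hx⟩ := mem_biUnion.1 h1
      refine ⟨g, mem_filter.2 ⟨hg, fun h => h2 ?_⟩, hx⟩
      rw [hDd]
      unfold deepP
      exact mem_biUnion.2 ⟨g, mem_filter.2 ⟨hg, h⟩, hx⟩
    · rintro ⟨g, hg, hx⟩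
      obtain ⟨hg1, hg2⟩ := mem_filter.1 hg
      refine ⟨comps_sub hg1 hx, fun h => hg2 ?_⟩
      rw [hDd] at h
      unfold deepP at h
      obtain ⟨g', hg', hx'⟩ := mem_biUnion.1 h
      obtain ⟨hg1', hg2'⟩ := mem_filter.1 hg'
      have : g = g' := by
        by_contra hne
        have h1 := comps_disj (lkG_ok X.G) hg1 hg1' hne
        rw [Finset.disjoint_left] at h1
        exact h1 (mem_nbS.2 ⟨x, hx, (lkG_ok X.G).refl x⟩) hx'
      rw [this]
      exact hg2'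
  have hn2 : (∑ g ∈ nd, (#g : ℝ)) = ((X.D \ Dd).card : ℝ) := by
    rw [hn0, Finset.card_biUnion
      (fun g hg g' hg' hne => cl_comps_pd X.G X.D nd (Finset.filter_subset _ _) hg hg' hne)]
    push_cast
    rfl
  have hn3 : (∑ g ∈ nd, (#(NsO X.G X.lam g) : ℝ)) ≤ ((X.Ns (X.D \ Dd) \ X.D).card : ℝ) := by
    have h1 : (∑ g ∈ nd, #(NsO X.G X.lam g)) = #(nd.biUnion (NsO X.G X.lam)) := by
      rw [Finset.card_biUnion]
      intro g hg g' hg' hne
      have h2 := cl_Nout_pd X.G X.D nd (Finset.filter_subset _ _) hg hg' hne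
      exact Finset.disjoint_of_subset_left (cl_NsO_sub X.G X.lam g)
        (Finset.disjoint_of_subset_right (cl_NsO_sub X.G X.lam g') h2)
    have h3 : nd.biUnion (NsO X.G X.lam) ⊆ X.Ns (X.D \ Dd) \ X.D := by
      intro y hy
      obtain ⟨g, hg, hyg⟩ := mem_biUnion.1 hy
      obtain ⟨hg1, hg2⟩ := mem_filter.1 hg
      rw [mem_sdiff]
      refine ⟨?_, cl_Nout_D hg1 (cl_NsO_sub X.G X.lam g hyg)⟩
      unfold NsO at hyg
      obtain ⟨x, hx, hxy⟩ := mem_biUnion.1 (mem_sdiff.1 hyg).1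
      unfold Ctx.Ns
      refine mem_biUnion.2 ⟨x, ?_, hxy⟩
      rw [hn0]
      exact mem_biUnion.2 ⟨g, hg, hx⟩
    rw [← Nat.cast_sum, h1]
    exact Nat.cast_le.2 (Finset.card_le_card h3)
  rw [hlog, hd1, Finset.sum_add_distrib, Finset.sum_add_distrib, Finset.sum_neg_distrib, hd2, hd2,
    hd3, hn1, hn2, Finset.sum_filter]
  have h4 := mul_le_mul_of_nonneg_left hn3 hc5
  linarith

/-- THE CODE LENGTH. -/
theorem QL_log {κ : ℝ} (hA : Tgt A κ) (G : SimpleGraph V) (d : ℕ) (c : V → Bool)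
    (hc : TPB.Prp G c) (q0 : Fin q) (δ ζ C1 c5 τF cp : ℝ) (hc5 : 0 ≤ c5) (Rp : Finset V)
    (o : Bool) (lam : V → Option (Ph A)) (σ : V → Fin q)
    (hσ : ∀ u v, G.Adj u v → 0 < A (σ u) (σ v))
    (hF2 : ∀ g ∈ comps (lkG G) (DF G d c lam σ), (#g : ℝ) ≤ 5 * ζ * #(NsO G lam g)) :
    Real.log (TPB.wt G c A σ) - Real.log (QL G d c q0 δ ζ C1 c5 τF cp Rp o lam σ) ≤
      Real.log (XiC G d c q0 δ ζ C1 c5 lam)
      + TT (A := A) ⟨G, d, c, δ, τF, cp, lam, Rp, o, DF G d c lam σ⟩ C1 c5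
          (deepP G d δ lam (DF G d c lam σ)) σ := by
  set X : Ctx V q A := ⟨G, d, c, δ, τF, cp, lam, Rp, o, DF G d c lam σ⟩ with hX
  have hD : X.D = DF X.G X.d X.c X.lam σ := rfl
  have hσX : ∀ u v, X.G.Adj u v → 0 < A (σ u) (σ v) := hσ
  have h1 := cl_gas_log hA X σ hD hσX ζ C1 c5 hc5 hF2
  have h2 := cl_KC_log hA X σ hD hσX
  have hgp : 0 < gas G d c δ ζ C1 c5 lam (DF G d c lam σ) σ :=
    Finset.prod_pos (cl_gas_pos hA X σ hD hσX ζ C1 c5 hF2)
  have hXi : 0 < XiC G d c q0 δ ζ C1 c5 lam :=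
    lt_of_lt_of_le zero_lt_one (one_le_XiC hA.nn G d c q0 δ ζ C1 c5 lam)
  have hKC : 0 < X.KC σ := cl_KC_pos hA X σ hD hσX
  have h3 : Real.log (QL G d c q0 δ ζ C1 c5 τF cp Rp o lam σ) =
      Real.log (gas G d c δ ζ C1 c5 lam (DF G d c lam σ) σ)
        - Real.log (XiC G d c q0 δ ζ C1 c5 lam) + Real.log (X.KC σ) := by
    unfold QL
    rw [Real.log_mul (div_pos hgp hXi).ne' hKC.ne', Real.log_div hgp.ne' hXi.ne']
  have h4 : Real.log (TPB.wt G c A σ) = ∑ e ∈ TPB.ed G c, Real.log (A (σ e.1) (σ e.2)) := by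
    unfold TPB.wt
    rw [Real.log_prod]
    intro e he
    unfold TPB.ed at he
    exact (hσ _ _ (mem_filter.1 he).2.1).ne'
  have hsub : deepP G d δ lam (DF G d c lam σ) ⊆ DF G d c lam σ := by
    intro x hx
    unfold deepP at hx
    obtain ⟨g, hg, hxg⟩ := mem_biUnion.1 hx
    exact comps_sub (mem_filter.1 hg).1 hxg
  have h5 := edge_use G c hc (DF G d c lam σ) (deepP G d δ lam (DF G d c lam σ)) Rp
    (Sol G d δ lam) o hsub (fun u v => Real.log (A (σ u) (σ v)))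
    (fun u v => by rw [hA.symm]) (fun u v huv => Real.log_nonpos (hA.nn _ _) (hA.le1 _ _))
  unfold TT
  unfold Ctx.rest Ctx.Rev Ctx.sol at h2
  unfold Ctx.rest
  simp only [hX] at h1 h2 h3 ⊢
  rw [h3, h4]
  linarith

end log

end LD
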