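import Mathlib

/-!
# MP_5dd92e_co, large degree theorem: the coding principle (section 1)
-/

set_option autoImplicit false

open Finset
open scoped Classical

namespace LD

/-- Jensen for the logarithm -/
theorem exp_sum_log_le {Ω : Type*} [Fintype Ω] (p : Ω → ℝ) (hp : ∀ r, 0 ≤ p r)
    (hp1 : ∑ r, p r = 1) (F : Ω → ℝ) (hF : ∀ r, 0 < F r) :
    Real.exp (∑ r, p r * Real.log (F r)) ≤ ∑ r, p r * F r := by
  have h := Real.geom_mean_le_arith_mean_weighted univ p F (fun r _ => hp r) hp1
    (fun r _ => (hF r).le)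
  refine le_trans (le_of_eq ?_) h
  rw [Real.exp_sum]
  refine Finset.prod_congr rfl fun r _ => ?_
  rw [Real.rpow_def_of_pos (hF r), mul_comm]

/-- The coding principle: `Q r` are sub-probability weights on the configurations, `r` is random and
independent of the configuration. -/
theorem coding {S Ω : Type*} [Fintype S] [Fintype Ω] (w : S → ℝ) (hw : ∀ s, 0 ≤ w s)
    (p : Ω → ℝ) (hp : ∀ r, 0 ≤ p r) (hp1 : ∑ r, p r = 1) (Q : Ω → S → ℝ)
    (hQ0 : ∀ r s, 0 ≤ Q r s) (hQ : ∀ r s, 0 < w s → 0 < Q r s) (hQ1 : ∀ r, ∑ s, Q r s ≤ 1)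
    (B : ℝ) (hB : ∀ s, 0 < w s → ∑ r, p r * (Real.log (w s) - Real.log (Q r s)) ≤ B) :
    ∑ s, w s ≤ Real.exp B := by
  have key : ∀ s, w s ≤ Real.exp B * ∑ r, p r * Q r s := by
    intro s
    rcases (hw s).eq_or_lt with h | h
    · rw [← h]
      exact mul_nonneg (Real.exp_pos _).le
        (Finset.sum_nonneg fun r _ => mul_nonneg (hp r) (hQ0 r s))
    · have h1 := exp_sum_log_le p hp hp1 (fun r => Q r s) (fun r => hQ r s h)
      have h2 := hB s h
      have h3 : ∑ r, p r * (Real.log (w s) - Real.log (Q r s)) =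
          Real.log (w s) - ∑ r, p r * Real.log (Q r s) := by
        simp only [mul_sub]
        rw [Finset.sum_sub_distrib, ← Finset.sum_mul, hp1, one_mul]
      rw [h3] at h2
      calc w s = Real.exp (Real.log (w s)) := (Real.exp_log h).symm
        _ ≤ Real.exp (B + ∑ r, p r * Real.log (Q r s)) := Real.exp_le_exp.mpr (by linarith)
        _ = Real.exp B * Real.exp (∑ r, p r * Real.log (Q r s)) := Real.exp_add _ _
        _ ≤ _ := mul_le_mul_of_nonneg_left h1 (Real.exp_pos _).le
  calc ∑ s, w s ≤ ∑ s, Real.exp B * ∑ r, p r * Q r s := Finset.sum_le_sum fun s _ => key s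
    _ = Real.exp B * ∑ r, p r * ∑ s, Q r s := by
      rw [← Finset.mul_sum, Finset.sum_comm]
      congr 1
      exact Finset.sum_congr rfl fun r _ => by rw [Finset.mul_sum]
    _ ≤ Real.exp B * ∑ r, p r * 1 := by
      refine mul_le_mul_of_nonneg_left ?_ (Real.exp_pos _).le
      exact Finset.sum_le_sum fun r _ => mul_le_mul_of_nonneg_left (hQ1 r) (hp r)
    _ = Real.exp B := by
      simp only [mul_one, hp1]

end LD
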