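import Pool.Agent.W_5dd92e_ld.Defs

/-!
# MP_5dd92e_co, large degree theorem: expectation over Bernoulli random subsets
-/

set_option autoImplicit false

open Finset
open scoped Classical

namespace LD

variable {V : Type*} [Fintype V]

theorem bw_nonneg {p : ℝ} (h0 : 0 ≤ p) (h1 : p ≤ 1) (R : Finset V) : 0 ≤ bw p R :=
  mul_nonneg (pow_nonneg h0 _) (pow_nonneg (by linarith) _)

/-- the product formula -/
theorem EB_prod (p : ℝ) (f g : V → ℝ) :
    EB p (fun R => ∏ x, if x ∈ R then f x else g x) = ∏ x, (p * f x + (1 - p) * g x) := by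
  rw [Finset.prod_add, Finset.powerset_univ]
  unfold EB bw
  refine Finset.sum_congr rfl fun R _ => ?_
  show _ * (∏ x, if x ∈ R then f x else g x) = _
  rw [Finset.prod_ite]
  have e1 : (univ : Finset V).filter (fun x => x ∈ R) = R := by ext x; simp
  have e2 : (univ : Finset V).filter (fun x => ¬ x ∈ R) = univ \ R := by ext x; simp
  have e3 : Rᶜ = univ \ R := by ext x; simp
  rw [e1, e2, e3, Finset.prod_mul_distrib, Finset.prod_mul_distrib, Finset.prod_const,
    Finset.prod_const]
  ring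

theorem EB_one (p : ℝ) : EB (V := V) p (fun _ => 1) = 1 := by
  have h := EB_prod (V := V) p (fun _ => 1) (fun _ => 1)
  simp only [ite_self, Finset.prod_const_one] at h
  rw [h]
  simp

theorem EB_add (p : ℝ) (F F' : Finset V → ℝ) :
    EB p (fun R => F R + F' R) = EB p F + EB p F' := by
  unfold EB
  rw [← Finset.sum_add_distrib]
  exact Finset.sum_congr rfl fun R _ => by ring

theorem EB_mul (p a : ℝ) (F : Finset V → ℝ) : EB p (fun R => a * F R) = a * EB p F := by
  unfold EB
  rw [Finset.mul_sum]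
  exact Finset.sum_congr rfl fun R _ => by ring

theorem EB_const (p a : ℝ) : EB (V := V) p (fun _ => a) = a := by
  have h := EB_mul (V := V) p a (fun _ => 1)
  rw [EB_one, mul_one] at h
  simpa using h

theorem EB_neg (p : ℝ) (F : Finset V → ℝ) : EB p (fun R => - F R) = - EB p F := by
  have h := EB_mul p (-1) F
  simpa using h

theorem EB_sub (p : ℝ) (F F' : Finset V → ℝ) :
    EB p (fun R => F R - F' R) = EB p F - EB p F' := by
  have h := EB_add p F (fun R => - F' R)
  rw [EB_neg] at h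
  simpa [sub_eq_add_neg] using h

theorem EB_sum {ι : Type*} (p : ℝ) (s : Finset ι) (F : ι → Finset V → ℝ) :
    EB p (fun R => ∑ i ∈ s, F i R) = ∑ i ∈ s, EB p (F i) := by
  unfold EB
  rw [Finset.sum_comm]
  exact Finset.sum_congr rfl fun R _ => by rw [Finset.mul_sum]

theorem EB_mono {p : ℝ} (h0 : 0 ≤ p) (h1 : p ≤ 1) (F F' : Finset V → ℝ) (h : ∀ R, F R ≤ F' R) :
    EB p F ≤ EB p F' :=
  Finset.sum_le_sum fun R _ => mul_le_mul_of_nonneg_left (h R) (bw_nonneg h0 h1 R)

theorem EB_nonneg {p : ℝ} (h0 : 0 ≤ p) (h1 : p ≤ 1) (F : Finset V → ℝ) (h : ∀ R, 0 ≤ F R) :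
    0 ≤ EB p F :=
  Finset.sum_nonneg fun R _ => mul_nonneg (bw_nonneg h0 h1 R) (h R)

/-- exponential moments -/
theorem EB_exp (p : ℝ) (a : V → ℝ) :
    EB p (fun R => Real.exp (∑ x ∈ R, a x)) = ∏ x, (1 + p * (Real.exp (a x) - 1)) := by
  have h := EB_prod (V := V) p (fun x => Real.exp (a x)) (fun _ => 1)
  have e : ∀ R : Finset V, Real.exp (∑ x ∈ R, a x) = ∏ x, if x ∈ R then Real.exp (a x) else 1 := by
    intro R
    rw [Real.exp_sum, Finset.prod_ite_mem]
    simp
  simp only [e]
  rw [h]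
  exact Finset.prod_congr rfl fun x _ => by ring

theorem EB_exp_le {p : ℝ} (h0 : 0 ≤ p) (h1 : p ≤ 1) (a : V → ℝ) :
    EB p (fun R => Real.exp (∑ x ∈ R, a x)) ≤ Real.exp (p * ∑ x, (Real.exp (a x) - 1)) := by
  rw [EB_exp, Finset.mul_sum, Real.exp_sum]
  refine Finset.prod_le_prod (fun x _ => ?_) (fun x _ => ?_)
  · have := Real.exp_pos (a x)
    nlinarith
  · have := Real.add_one_le_exp (p * (Real.exp (a x) - 1))
    linarith

/-- the same with an additional condition on a finite set `X` -/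
theorem EB_exp_inter_le {p : ℝ} (h0 : 0 ≤ p) (h1 : p ≤ 1) (X : Finset V) (a : V → ℝ) :
    EB p (fun R => Real.exp (∑ x ∈ X ∩ R, a x)) ≤
      Real.exp (p * ∑ x ∈ X, (Real.exp (a x) - 1)) := by
  have h := EB_exp_le h0 h1 (fun x => if x ∈ X then a x else 0)
  have e : ∀ R : Finset V, ∑ x ∈ R, (if x ∈ X then a x else 0) = ∑ x ∈ X ∩ R, a x := by
    intro R
    rw [Finset.sum_ite_mem, Finset.inter_comm]
  simp only [e] at h
  refine h.trans (le_of_eq ?_)
  congr 2
  rw [← Finset.sum_subset (Finset.subset_univ X)]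
  · exact Finset.sum_congr rfl fun x hx => by simp [hx]
  · intro x _ hx
    simp [hx]

/-- no point of `X` is in `R` -/
theorem EB_empty {p : ℝ} (h0 : 0 ≤ p) (h1 : p ≤ 1) (X : Finset V) :
    EB p (fun R => if Disjoint X R then (1 : ℝ) else 0) ≤ Real.exp (-(p * X.card)) := by
  have h := EB_prod (V := V) p (fun x => if x ∈ X then (0 : ℝ) else 1) (fun _ => 1)
  have e : ∀ R : Finset V, (∏ x, if x ∈ R then (if x ∈ X then (0 : ℝ) else 1) else 1) =
      if Disjoint X R then (1 : ℝ) else 0 := by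
    intro R
    by_cases hd : Disjoint X R
    · rw [if_pos hd]
      refine Finset.prod_eq_one fun x _ => ?_
      by_cases hx : x ∈ R
      · rw [if_pos hx, if_neg (fun h => Finset.disjoint_left.mp hd h hx)]
      · rw [if_neg hx]
    · rw [if_neg hd]
      rw [Finset.not_disjoint_iff] at hd
      obtain ⟨x, hx, hx'⟩ := hd
      exact Finset.prod_eq_zero (mem_univ x) (by simp [hx, hx'])
  simp only [e] at h
  rw [h]
  have e2 : ∀ x : V, p * (if x ∈ X then (0 : ℝ) else 1) + (1 - p) * 1 =
      if x ∈ X then 1 - p else 1 := by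
    intro x
    by_cases hx : x ∈ X <;> simp [hx]
  simp only [e2]
  rw [Finset.prod_ite_mem, Finset.univ_inter, Finset.prod_const]
  have h3 : 1 - p ≤ Real.exp (-p) := by
    have := Real.add_one_le_exp (-p)
    linarith
  calc (1 - p) ^ X.card ≤ Real.exp (-p) ^ X.card := pow_le_pow_left₀ (by linarith) h3 _
    _ = Real.exp (-(p * X.card)) := by
      rw [← Real.exp_nat_mul]
      congr 1
      ring

/-- linear functions -/
theorem EB_linear (p : ℝ) (g : V → ℝ) : EB p (fun R => ∑ x ∈ R, g x) = p * ∑ x, g x := by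
  have e1 : ∀ x : V, EB p (fun R => if x ∈ R then (1 : ℝ) else 0) = p := by
    intro x
    have h := EB_prod (V := V) p (fun _ => 1) (fun y => if y = x then (0 : ℝ) else 1)
    have e : ∀ R : Finset V, (∏ y, if y ∈ R then (1 : ℝ) else (if y = x then (0 : ℝ) else 1)) =
        if x ∈ R then (1 : ℝ) else 0 := by
      intro R
      by_cases hx : x ∈ R
      · rw [if_pos hx]
        refine Finset.prod_eq_one fun y _ => ?_
        by_cases hy : y ∈ R
        · rw [if_pos hy]
        · rw [if_neg hy, if_neg (fun h' => hy (by rw [h']; exact hx))]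
      · rw [if_neg hx]
        exact Finset.prod_eq_zero (mem_univ x) (by simp [hx])
    simp only [e] at h
    rw [h, Finset.prod_eq_single x]
    · simp
    · intro y _ hy
      simp [hy]
    · simp
  have e2 : ∀ R : Finset V, ∑ x ∈ R, g x = ∑ x, g x * (if x ∈ R then (1 : ℝ) else 0) := by
    intro R
    simp
  have e3 : EB p (fun R => ∑ x ∈ R, g x) =
      EB p (fun R => ∑ x ∈ (univ : Finset V), g x * (if x ∈ R then (1 : ℝ) else 0)) := by
    congr 1
    funext R
    exact e2 R
  rw [e3, EB_sum, Finset.mul_sum]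
  refine Finset.sum_congr rfl fun x _ => ?_
  rw [EB_mul, e1]
  ring

end LD
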