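import Pool.Agent.W_5dd92e_ld.Acc
import Pool.Agent.W_5dd92e_ld.CodeLog
import Pool.Agent.W_5dd92e_ld.Cls
import Pool.Agent.W_5dd92e_ld.F0
import Pool.Agent.W_5dd92e_ld.Coding
import Pool.Agent.W_5dd92e_ld.EBase

/-!
# MP_5dd92e_co, large degree theorem: assembly of the upper bound for fixed parameters
-/

set_option autoImplicit false

open Finset
open scoped Classical

namespace LD

section core
variable {V : Type*} [Fintype V] {q : ℕ} {A : Fin q → Fin q → ℝ}

theorem sum_bw (p : ℝ) : ∑ R : Finset V, bw p R = 1 := by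
  have h := EB_one (V := V) p
  unfold EB at h
  simpa using h

/-- every edge of a configuration with positive weight is positive -/
theorem wt_pos_edge {κ : ℝ} (hA : Tgt A κ) (G : SimpleGraph V) (c : V → Bool)
    (hc : TPB.Prp G c) (σ : V → Fin q) (h : 0 < TPB.wt G c A σ) :
    ∀ u v, G.Adj u v → 0 < A (σ u) (σ v) := by
  have key : ∀ u v, G.Adj u v → c u = true → 0 < A (σ u) (σ v) := by
    intro u v huv hu
    have hmem : (u, v) ∈ TPB.ed G c := by
      unfold TPB.ed
      rw [mem_filter]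
      exact ⟨mem_univ _, huv, hu⟩
    have hne : A (σ u) (σ v) ≠ 0 := by
      intro h0
      have : TPB.wt G c A σ = 0 := by
        unfold TPB.wt
        exact Finset.prod_eq_zero hmem h0
      rw [this] at h
      exact lt_irrefl _ h
    exact lt_of_le_of_ne (hA.nn _ _) (Ne.symm hne)
  intro u v huv
  by_cases hu : c u = true
  · exact key u v huv hu
  · have hv : c v = true := by
      have := hc u v huv
      revert hu this
      cases c u <;> cases c v <;> simp
    rw [hA.symm]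
    exact key v u huv.symm hv

/-- (F2) for the components of the defect set -/
theorem F2_lam (G : SimpleGraph V) (d : ℕ) (hd : 0 < d) (hreg : Rgl G d) (c : V → Bool)
    (ζ : ℝ) (hζ0 : 0 < ζ) (hζ1 : ζ ≤ 1 / 5) (σ : V → Fin q) (l lam : V → Option (Ph A))
    (hl : IsMin G (Wr c σ) ζ d l) (hlam : ∀ x P, lam x = some P → l x = some P)
    (g : Finset V) (hg : g ⊆ DF G d c lam σ) : (#g : ℝ) ≤ 5 * ζ * #(NsO G lam g) := by
  have hHH : ∀ x ∈ g, HH G l (KK lam) x = Hs G lam x := by
    intro x hx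
    have hxD := hg hx
    unfold DF at hxD
    obtain ⟨hK, P, hP, hw⟩ := Finset.mem_filter.mp hxD
    ext y
    rw [mem_HH, mem_Hs, mem_KK]
    constructor
    · rintro ⟨h1, h2, h3⟩
      refine ⟨h1, ?_⟩
      obtain ⟨Q, hQ⟩ := Option.ne_none_iff_exists'.mp h2
      rw [hQ, hP]
      rw [hlam y Q hQ, hlam x P hP] at h3
      exact h3
    · rintro ⟨h1, h2⟩
      rw [hP] at h2
      refine ⟨h1, by rw [h2]; simp, ?_⟩
      rw [hlam y P h2, hlam x P hP]
  have h := F2 G (Wr c σ) ζ d hd hreg hζ0 hζ1 l hl (KK lam) g ?_ ?_ ?_ ?_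
  · have e : (g.biUnion (HH G l (KK lam))) \ g = NsO G lam g := by
      unfold NsO
      congr 1
      exact Finset.biUnion_congr rfl hHH
    rw [e] at h
    exact h
  · intro x hx
    rw [mem_KK] at hx
    obtain ⟨Q, hQ⟩ := Option.ne_none_iff_exists'.mp hx
    rw [hlam x Q hQ]
    simp
  · intro x hx
    have hxD := hg hx
    unfold DF at hxD
    rw [mem_KK]
    exact (mem_Khi.mp (Finset.mem_filter.mp hxD).1).1
  · intro x hx
    rw [hHH x hx]
    have hxD := hg hx
    unfold DF at hxD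
    have := (mem_Khi.mp (Finset.mem_filter.mp hxD).1).2
    linarith
  · intro x hx P hP
    have hxD := hg hx
    unfold DF at hxD
    obtain ⟨_, Q, hQ, hw⟩ := Finset.mem_filter.mp hxD
    have h1 := hlam x Q hQ
    rw [hP] at h1
    have h2 : P = Q := Option.some_injective _ h1
    rw [h2]
    exact hw

/-- the deep part is separated from the rest -/
theorem deepP_sep (G : SimpleGraph V) (d : ℕ) (δ : ℝ) (lam : V → Option (Ph A))
    (D : Finset V) : deepP G d δ lam D ⊆ D ∧ deepP G d δ lam D ⊆ DD G d δ lam ∧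
    ∀ x ∈ deepP G d δ lam D, ∀ x' ∈ D \ deepP G d δ lam D,
      ¬ G.Adj x x' ∧ ∀ y, ¬ (G.Adj x y ∧ G.Adj y x') := by
  have hmem : ∀ x, x ∈ deepP G d δ lam D ↔
      ∃ g ∈ comps (lkG G) D, g ⊆ DD G d δ lam ∧ x ∈ g := by
    intro x
    unfold deepP
    simp only [mem_biUnion, mem_filter, id]
    constructor
    · rintro ⟨g, ⟨h1, h2⟩, h3⟩
      exact ⟨g, h1, h2, h3⟩
    · rintro ⟨g, h1, h2, h3⟩
      exact ⟨g, ⟨h1, h2⟩, h3⟩
  refine ⟨?_, ?_, ?_⟩
  · intro x hx
    obtain ⟨g, h1, _, h3⟩ := (hmem x).mp hx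
    exact comps_sub h1 h3
  · intro x hx
    obtain ⟨g, _, h2, h3⟩ := (hmem x).mp hx
    exact h2 h3
  · intro x hx x' hx'
    obtain ⟨g, h1, h2, h3⟩ := (hmem x).mp hx
    rw [mem_sdiff] at hx'
    have key : x' ∉ lkG G x := by
      intro h4
      exact hx'.2 ((hmem x').mpr ⟨g, h1, h2, comps_closed G h1 h3 hx'.1 h4⟩)
    rw [mem_lkG] at key
    push Not at key
    exact ⟨key.2.1, fun y hy => key.2.2 y hy.1 hy.2⟩

end core

end LD
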