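import Pool.Agent.W_5dd92e_ld.Geo
import Pool.Agent.W_5dd92e_ld.F0

/-!
# Section 2 of row 484: growth (G3) and the counts (C1), (C2)
-/

set_option autoImplicit false

open Finset
open scoped Classical

namespace LD

variable {V : Type*} [Fintype V] {L : Type*}

/-- the conclusion of (F3): a label of at least `(1 - ζ/4) d` neighbours is the label of the vertex -/
def F3P (G : SimpleGraph V) (ζ : ℝ) (d : ℕ) (l : V → Option L) : Prop :=
  ∀ (x : V) (Q : Option L), (1 - ζ / 4) * d ≤ #((nb G x).filter (fun y => l y = Q)) → l x = Q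

theorem IsMin.f3p {G : SimpleGraph V} {wr : L → V → Prop} {ζ : ℝ} {d : ℕ} (hd : 0 < d)
    (hreg : Rgl G d) (hζ0 : 0 < ζ) (hζ1 : ζ < 1) {l : V → Option L}
    (hl : IsMin G wr ζ d l) : F3P G ζ d l :=
  fun x Q h => F3 G wr ζ d hd hreg hζ0 hζ1 l hl x Q h

/-- a vertex whose label is not `Q` has many neighbours whose label is not `Q` -/
theorem F3P.many {G : SimpleGraph V} {ζ : ℝ} {d : ℕ} (hreg : Rgl G d) {l : V → Option L}
    (hl : F3P G ζ d l) (x : V) (Q : Option L) (hQ : l x ≠ Q) :
    ζ / 4 * d ≤ #((nb G x).filter (fun y => l y ≠ Q)) := by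
  by_contra h
  push Not at h
  apply hQ
  apply hl x Q
  have h3 : #((nb G x).filter (fun y => l y = Q)) + #((nb G x).filter (fun y => ¬ l y = Q)) = d := by
    rw [card_filter_add_card_filter_not]
    exact hreg x
  have b : (#((nb G x).filter (fun y => l y = Q)) : ℝ) +
      #((nb G x).filter (fun y => ¬ l y = Q)) = d := by exact_mod_cast h3
  have h' : (#((nb G x).filter (fun y => ¬ l y = Q)) : ℝ) < ζ / 4 * d := h
  linarith

/-- (G3): the vertices whose label is not `Q` grow exponentially. -/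
theorem G3 (G : SimpleGraph V) (ζ : ℝ) (d : ℕ) (hreg : Rgl G d) (hζd : 20 ≤ ζ * d) (J : ℕ)
    (hT : TreeTo G J) (l : V → Option L) (hl : F3P G ζ d l) (x : V) (Q : Option L) (hQ : l x ≠ Q)
    (j : ℕ) (hj : j ≤ J + 1) :
    (ζ * d / 5) ^ j ≤ #((Sp G j x).filter (fun y => l y ≠ Q)) := by
  have hpos : 0 < ζ * d / 5 := by linarith
  induction j with
  | zero =>
    rw [pow_zero, Sp_zero]
    have : ({x} : Finset V).filter (fun y => l y ≠ Q) = {x} := by
      ext y
      rw [mem_filter, mem_singleton]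
      exact ⟨fun h => h.1, fun h => ⟨h, h ▸ hQ⟩⟩
    rw [this, card_singleton]
    norm_num
  | succ j ih =>
    have ih := ih (by omega)
    set Y := (Sp G j x).filter (fun y => l y ≠ Q) with hY
    set Z := (Sp G (j + 1) x).filter (fun y => l y ≠ Q) with hZ
    have h := double_count G Y Z
    -- every vertex of Y has many neighbours in Z
    have h1 : ∀ y ∈ Y, ζ * d / 5 ≤ #((nb G y).filter (fun z => z ∈ Z)) := by
      intro y hy
      rw [hY, mem_filter] at hy
      have hm := hl.many hreg y Q hy.2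
      rcases Nat.eq_zero_or_pos j with h0 | h0
      · subst h0
        rw [Sp_zero, mem_singleton] at hy
        obtain ⟨rfl, hy2⟩ := hy
        have hsub : (nb G y).filter (fun z => l z ≠ Q) ⊆ (nb G y).filter (fun z => z ∈ Z) := by
          intro z hz
          rw [mem_filter] at hz ⊢
          refine ⟨hz.1, ?_⟩
          rw [hZ, mem_filter, zero_add, Sp_one]
          exact hz
        have hc : (#((nb G y).filter (fun z => l z ≠ Q)) : ℝ) ≤
            #((nb G y).filter (fun z => z ∈ Z)) := by exact_mod_cast card_le_card hsub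
        linarith
      · obtain ⟨i, rfl⟩ : ∃ i, j = i + 1 := ⟨j - 1, by omega⟩
        obtain ⟨t1, t2⟩ := hT x y i (by omega) hy.1
        have hsub : (nb G y).filter (fun z => l z ≠ Q) ⊆
            (nb G y).filter (fun z => z ∈ Z) ∪ (nb G y).filter (fun z => z ∈ Sp G i x) := by
          intro z hz
          rw [mem_filter] at hz
          rw [mem_union]
          rcases t2 z hz.1 with h5 | h5
          · exact Or.inr (mem_filter.mpr ⟨hz.1, h5⟩)
          · exact Or.inl (mem_filter.mpr ⟨hz.1, mem_filter.mpr ⟨h5, hz.2⟩⟩)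
        have hc := (card_le_card hsub).trans (card_union_le _ _)
        rw [t1] at hc
        have hc' : (#((nb G y).filter (fun z => l z ≠ Q)) : ℝ) ≤
            #((nb G y).filter (fun z => z ∈ Z)) + 1 := by exact_mod_cast hc
        linarith
    -- every vertex of Z has at most one neighbour in Y
    have h2 : ∀ z ∈ Z, #((nb G z).filter (fun y => y ∈ Y)) ≤ 1 := by
      intro z hz
      rw [hZ, mem_filter] at hz
      rw [← (hT x z j (by omega) hz.1).1]
      apply card_le_card
      intro y hy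
      rw [mem_filter] at hy ⊢
      rw [hY, mem_filter] at hy
      exact ⟨hy.1, hy.2.1⟩
    have h3 : ∑ z ∈ Z, #((nb G z).filter (fun y => y ∈ Y)) ≤ #Z := by
      refine (sum_le_card_nsmul _ _ 1 h2).trans ?_
      rw [smul_eq_mul, mul_one]
    have h4 : (ζ * d / 5) * #Y ≤ ∑ y ∈ Y, (#((nb G y).filter (fun z => z ∈ Z)) : ℝ) := by
      calc (ζ * d / 5) * #Y = ∑ y ∈ Y, (ζ * d / 5) := by rw [sum_const, nsmul_eq_mul]; ring
        _ ≤ _ := sum_le_sum h1
    have h5 : ∑ y ∈ Y, (#((nb G y).filter (fun z => z ∈ Z)) : ℝ) ≤ #Z := by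
      rw [← Nat.cast_sum, h]
      exact_mod_cast h3
    calc (ζ * d / 5) ^ (j + 1) = (ζ * d / 5) * (ζ * d / 5) ^ j := by ring
      _ ≤ (ζ * d / 5) * #Y := mul_le_mul_of_nonneg_left ih hpos.le
      _ ≤ #Z := h4.trans h5

/-- vertices which see `y` behind its neighbour `u` -/
theorem side_count (G : SimpleGraph V) (d : ℕ) (hd : Rgl G d) (u y : V)
    (huy : G.Adj u y) (r : ℕ) :
    #(univ.filter (fun x => u ∈ Sp G r x ∧ y ∈ Sp G (r + 1) x)) ≤ (d - 1) ^ r := by
  induction r with
  | zero =>
    rw [pow_zero]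
    refine (card_le_card (t := {u}) ?_).trans (by simp)
    intro x hx
    rw [mem_filter, Sp_zero, mem_singleton] at hx
    rw [mem_singleton]
    exact hx.2.1.symm
  | succ r ih =>
    set A := univ.filter (fun x => u ∈ Sp G r x ∧ y ∈ Sp G (r + 1) x) with hA
    have hsub : univ.filter (fun x => u ∈ Sp G (r + 1) x ∧ y ∈ Sp G (r + 2) x) ⊆
        A.biUnion (fun z => (nb G z).filter (fun x => u ∈ Sp G (r + 1) x ∧ y ∈ Sp G (r + 2) x)) := by
      intro x hx
      rw [mem_filter] at hx
      have hx1 : x ∈ Sp G (r + 1) u := Sp_symm.mp hx.2.1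
      obtain ⟨z, hz1, hz2⟩ := exists_pred hx1
      rw [mem_biUnion]
      refine ⟨z, ?_, ?_⟩
      · rw [hA, mem_filter]
        refine ⟨mem_univ _, Sp_symm.mp hz2, ?_⟩
        have h1 := mem_Sp.mp (Sp_symm.mp hz2)
        have h2 := mem_Sp.mp hx.2.2
        have hzy : G.Reachable z y := h1.1.trans huy.reachable
        rw [mem_Sp]
        refine ⟨hzy, ?_⟩
        have e1 := TPB.GeoB_aux1 G z x y hz1 hzy
        have e2 := TPB.GeoB_aux1 G u y z huy h1.1.symm
        rw [SimpleGraph.dist_comm (u := y), SimpleGraph.dist_comm (u := u)] at e2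
        omega
      · rw [mem_filter, mem_nb]
        exact ⟨hz1, hx.2⟩
    refine (card_le_card hsub).trans (card_biUnion_le.trans ?_)
    have hb : ∀ z ∈ A,
        #((nb G z).filter (fun x => u ∈ Sp G (r + 1) x ∧ y ∈ Sp G (r + 2) x)) ≤ d - 1 := by
      intro z hz
      rw [hA, mem_filter] at hz
      -- a neighbour of z which is excluded
      have : ∃ w, G.Adj z w ∧ ¬ (u ∈ Sp G (r + 1) w ∧ y ∈ Sp G (r + 2) w) := by
        rcases Nat.eq_zero_or_pos r with h0 | h0
        · subst h0
          rw [Sp_zero, mem_singleton] at hz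
          obtain ⟨_, rfl, _⟩ := hz
          refine ⟨y, huy, ?_⟩
          rintro ⟨_, h⟩
          have := (mem_Sp.mp h).2
          rw [SimpleGraph.dist_self] at this
          omega
        · obtain ⟨i, rfl⟩ : ∃ i, r = i + 1 := ⟨r - 1, by omega⟩
          obtain ⟨w, hw1, hw2⟩ := exists_pred (Sp_symm.mp hz.2.1)
          refine ⟨w, hw1.symm, ?_⟩
          rintro ⟨h, _⟩
          exact disjoint_left.mp (Sp_disj G i (i + 1 + 1) (by omega) u) hw2 (Sp_symm.mp h)
      obtain ⟨w, hw1, hw2⟩ := this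
      have hsub2 : (nb G z).filter (fun x => u ∈ Sp G (r + 1) x ∧ y ∈ Sp G (r + 2) x) ⊆
          (nb G z).erase w := by
        intro x hx
        rw [mem_filter] at hx
        rw [mem_erase]
        refine ⟨?_, hx.1⟩
        rintro rfl
        exact hw2 hx.2
      refine (card_le_card hsub2).trans ?_
      rw [card_erase_of_mem (mem_nb.mpr hw1), hd z]
    refine (sum_le_card_nsmul _ _ (d - 1) hb).trans ?_
    rw [smul_eq_mul, pow_succ]
    exact Nat.mul_le_mul_right _ ih

/-- pairs at distance `r` with different labels -/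
noncomputable def PD (G : SimpleGraph V) (l : V → Option L) (r : ℕ) : Finset (V × V) :=
  univ.filter (fun p => p.2 ∈ Sp G r p.1 ∧ l p.1 ≠ l p.2)

theorem PD_succ (G : SimpleGraph V) (d : ℕ) (hd : Rgl G d) (l : V → Option L) (r : ℕ) :
    #(PD G l (r + 2)) ≤ (d - 1) * #(PD G l (r + 1)) + (d - 1) ^ (r + 1) * #(Dis G l) := by
  have hsub : PD G l (r + 2) ⊆
      (PD G l (r + 1)).biUnion (fun p => ((nb G p.2).filter (fun y => y ∈ Sp G (r + 2) p.1)).image
        (fun y => (p.1, y))) ∪
      (Dis G l).biUnion (fun e => (univ.filter (fun x => e.1 ∈ Sp G (r + 1) x ∧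
        e.2 ∈ Sp G (r + 2) x)).image (fun x => (x, e.2))) := by
    rintro ⟨x, y⟩ hp
    rw [PD, mem_filter] at hp
    obtain ⟨_, h1, h2⟩ := hp
    simp only at h1 h2
    obtain ⟨z, hz1, hz2⟩ := exists_pred h1
    rw [mem_union, mem_biUnion, mem_biUnion]
    by_cases hxz : l x = l z
    · right
      refine ⟨(z, y), ?_, ?_⟩
      · rw [mem_Dis]
        exact ⟨hz1, fun h => h2 (hxz.trans h)⟩
      · rw [mem_image]
        exact ⟨x, by rw [mem_filter]; exact ⟨mem_univ _, hz2, h1⟩, rfl⟩
    · left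
      refine ⟨(x, z), ?_, ?_⟩
      · rw [PD, mem_filter]
        exact ⟨mem_univ _, hz2, hxz⟩
      · rw [mem_image]
        exact ⟨y, by rw [mem_filter, mem_nb]; exact ⟨hz1, h1⟩, rfl⟩
  refine (card_le_card hsub).trans ((card_union_le _ _).trans (Nat.add_le_add ?_ ?_))
  · refine card_biUnion_le.trans ?_
    refine (sum_le_card_nsmul _ _ (d - 1) fun p hp => ?_).trans ?_
    · refine card_image_le.trans ?_
      rw [PD, mem_filter] at hp
      exact card_child_le G d hd r p.1 p.2 hp.2.1
    · rw [smul_eq_mul, mul_comm]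
  · refine card_biUnion_le.trans ?_
    refine (sum_le_card_nsmul _ _ ((d - 1) ^ (r + 1)) fun e he => ?_).trans ?_
    · refine card_image_le.trans ?_
      rw [mem_Dis] at he
      exact side_count G d hd e.1 e.2 he.1 (r + 1)
    · rw [smul_eq_mul, mul_comm]

/-- (C1) -/
theorem C1 (G : SimpleGraph V) (d : ℕ) (hd : Rgl G d) (l : V → Option L) (r : ℕ) :
    #(PD G l (r + 1)) ≤ (r + 1) * (d - 1) ^ r * #(Dis G l) := by
  induction r with
  | zero =>
    rw [zero_add, pow_zero, one_mul, one_mul]
    apply card_le_card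
    intro p hp
    rw [PD, mem_filter, Sp_one, mem_nb] at hp
    rw [mem_Dis]
    exact hp.2
  | succ r ih =>
    refine (PD_succ G d hd l r).trans ?_
    calc (d - 1) * #(PD G l (r + 1)) + (d - 1) ^ (r + 1) * #(Dis G l)
        ≤ (d - 1) * ((r + 1) * (d - 1) ^ r * #(Dis G l)) + (d - 1) ^ (r + 1) * #(Dis G l) :=
          Nat.add_le_add_right (Nat.mul_le_mul_left _ ih) _
      _ = (r + 1 + 1) * (d - 1) ^ (r + 1) * #(Dis G l) := by ring

/-- the balls which are not monochromatic -/
noncomputable def NM (G : SimpleGraph V) (l : V → Option L) (j : ℕ) : Finset V :=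
  univ.filter (fun x => ∃ y ∈ Bl G j x, l y ≠ l x)

/-- (C2) -/
theorem C2 (G : SimpleGraph V) (d : ℕ) (hd : Rgl G d) (h2 : 2 ≤ d) (l : V → Option L) (j : ℕ) :
    #(NM G l j) ≤ d ^ j * #(Dis G l) := by
  have hkey : ∀ j : ℕ, (j + 1) * (d - 1) ^ j + d ^ j ≤ d ^ (j + 1) := by
    intro j
    obtain ⟨e, rfl⟩ : ∃ e, d = e + 1 := ⟨d - 1, by omega⟩
    rw [Nat.add_sub_cancel]
    have he : 1 ≤ e := by omega
    have h : ∀ j : ℕ, (j + 1) * e ^ j ≤ e * (e + 1) ^ j := by
      intro j
      induction j with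
      | zero => simpa using he
      | succ j ih =>
        have h3 : e ^ j * e ≤ e * (e + 1) ^ j := by
          rw [mul_comm]
          exact Nat.mul_le_mul_left _ (Nat.pow_le_pow_left (Nat.le_succ e) j)
        calc (j + 1 + 1) * e ^ (j + 1) = (j + 1) * e ^ j * e + e ^ j * e := by ring
          _ ≤ e * (e + 1) ^ j * e + e * (e + 1) ^ j :=
            Nat.add_le_add (Nat.mul_le_mul_right _ ih) h3
          _ = e * (e + 1) ^ (j + 1) := by ring
    have := h j
    calc (j + 1) * e ^ j + (e + 1) ^ j ≤ e * (e + 1) ^ j + (e + 1) ^ j :=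
          Nat.add_le_add_right this _
      _ = (e + 1) ^ (j + 1) := by ring
  induction j with
  | zero =>
    have : NM G l 0 = ∅ := by
      rw [NM, filter_eq_empty_iff]
      rintro x _ ⟨y, hy, hne⟩
      rw [Bl_zero, mem_singleton] at hy
      exact hne (by rw [hy])
    rw [this, card_empty]
    exact Nat.zero_le _
  | succ j ih =>
    have hsub : NM G l (j + 1) ⊆ NM G l j ∪ (PD G l (j + 1)).image (fun p => p.1) := by
      intro x hx
      rw [NM, mem_filter] at hx
      obtain ⟨_, y, hy, hne⟩ := hx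
      rw [Bl_succ, mem_union] at hy
      rw [mem_union, mem_image]
      rcases hy with hy | hy
      · left
        rw [NM, mem_filter]
        exact ⟨mem_univ _, y, hy, hne⟩
      · right
        refine ⟨(x, y), ?_, rfl⟩
        rw [PD, mem_filter]
        exact ⟨mem_univ _, hy, fun h => hne h.symm⟩
    refine (card_le_card hsub).trans ((card_union_le _ _).trans ?_)
    have h3 := card_image_le (s := PD G l (j + 1)) (f := fun p => p.1)
    have h4 := C1 G d hd l j
    calc #(NM G l j) + #((PD G l (j + 1)).image (fun p => p.1))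
        ≤ d ^ j * #(Dis G l) + (j + 1) * (d - 1) ^ j * #(Dis G l) :=
          Nat.add_le_add ih (h3.trans h4)
      _ = ((j + 1) * (d - 1) ^ j + d ^ j) * #(Dis G l) := by ring
      _ ≤ d ^ (j + 1) * #(Dis G l) := Nat.mul_le_mul_right _ (hkey j)

end LD
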