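import Pool.Agent.W_5dd92e_ld.Core
import Pool.Agent.W_5dd92e_ld.G3

/-!
# MP_5dd92e_co, large degree theorem: the upper bound for fixed parameters
-/

set_option autoImplicit false

open Finset
open scoped Classical

namespace LD

section coreU
variable {V : Type*} [Fintype V] {q : ℕ} {A : Fin q → Fin q → ℝ}

/-- The upper bound, from the label stage (`hPL ...`), the gas bound (`hPol`), the accounting inequality
(`hAcc`), the two expectations over `R+` (`hWW`, `hBad`) and two numerical conditions. -/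
theorem core_upper {κ : ℝ} (hA : Tgt A κ) (G : SimpleGraph V) (c : V → Bool)
    (hc : TPB.Prp G c) (d : ℕ) (hd : 0 < d) (hreg : Rgl G d) (q0 : Fin q)
    (C1 c5 cv CL ζ δ τF cp ε0 e3 t0 η Θ BL BS εL εP ρ : ℝ) (hc5 : 0 ≤ c5)
    (hζ0 : 0 < ζ) (hζ1 : ζ ≤ 1 / 5) (hδ : 0 < δ) (hcp : 0 ≤ cp) (he3 : 0 ≤ e3)
    (hCL : 0 ≤ CL) (ht0 : 0 ≤ t0) (ht1 : t0 ≤ 1) (hη0 : 0 ≤ η) (hη1 : η ≤ 1)
    (PL : Finset V → (V → Option (Ph A)) → ℝ)
    (lm : Finset V → (V → Option (Ph A)) → (V → Option (Ph A)))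
    (hPL0 : ∀ R τ, 0 ≤ PL R τ) (hPL1 : ∀ R, ∑ τ, PL R τ ≤ 1)
    (hlm : ∀ R l x P, lm R l x = some P → l x = some P)
    (hPLp : ∀ l, F3P G ζ d l → ∀ R, 0 < PL R (lm R l))
    (hPLc : ∀ l, F3P G ζ d l →
      EB η (fun R => -Real.log (PL R (lm R l))) ≤ BL * bb G d l + εL * (Fintype.card V : ℝ))
    (hPLs : ∀ l, F3P G ζ d l → EB η (fun R => (#(SS l (lm R l)) : ℝ)) ≤ BS * bb G d l)
    (hPol : ∀ lam l : V → Option (Ph A), (∀ x P, lam x = some P → l x = some P) →
      Real.log (XiC G d c q0 δ ζ C1 c5 lam) ≤ (Fintype.card V : ℝ) / 2 * Θ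
        + ((#(Soft G d δ lam) : ℝ) + bb G d l) / (d : ℝ) ^ 2 + εP * (Fintype.card V : ℝ))
    (hAcc : ∀ (lam l : V → Option (Ph A)) (Rp : Finset V) (σ : V → Fin q),
      (∀ u v, G.Adj u v → 0 < A (σ u) (σ v)) → IsMin G (Wr c σ) ζ d l →
      (∀ x P, lam x = some P → l x = some P) →
      (TT (A := A) ⟨G, d, c, δ, τF, cp, lam, Rp, true, DF G d c lam σ⟩ C1 c5
          (deepP G d δ lam (DF G d c lam σ)) σ
        + TT (A := A) ⟨G, d, c, δ, τF, cp, lam, Rp, false, DF G d c lam σ⟩ C1 c5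
          (deepP G d δ lam (DF G d c lam σ)) σ) / 2
      ≤ (Fintype.card V : ℝ) / 2 * Real.log (mm A)
        - cv * (ζ * ((Om l).card : ℝ) + bb G d l)
        + CL * ((1 / (d : ℝ) + cp) * ((WW G d δ lam l Rp).card : ℝ)
          + e3 * ((Soft G d δ lam).card : ℝ)
          + cp * d * ((Bad G d δ τF ε0 lam Rp σ).card : ℝ)))
    (eB : ℝ)
    (hWW : ∀ lam l : V → Option (Ph A), EB t0 (fun Rp => ((WW G d δ lam l Rp).card : ℝ)) ≤
      t0 * (2 * d * (#(Soft G d δ lam) : ℝ) + (#(Dis G l) : ℝ)))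
    (hBad : ∀ (lam : V → Option (Ph A)) (σ : V → Fin q),
      EB t0 (fun Rp => ((Bad G d δ τF ε0 lam Rp σ).card : ℝ)) ≤ eB * (#(Soft G d δ lam) : ℝ))
    (hρ : 1 / (d : ℝ) ^ 2 + CL * ((1 / (d : ℝ) + cp) * (t0 * (2 * d)) + e3 + cp * d * eB) ≤ ρ)
    (heB : 0 ≤ eB)
    (hN1 : ρ ≤ cv * ζ)
    (hN2 : BL + ρ * ((5 + 5 / δ) * BS + (8 + 10 / δ) + 1) ≤ cv) :
    TPB.ZB G c A ≤ Real.exp ((Fintype.card V : ℝ) / 2 * (Real.log (mm A) + Θ)
      + (εL + εP) * (Fintype.card V : ℝ)) := by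
  have hd' : (0 : ℝ) < d := by exact_mod_cast hd
  have hnn := hA.nn
  -- the minimisers
  have hex : ∀ σ : V → Fin q, ∃ l, IsMin G (Wr (A := A) c σ) ζ d l := fun σ => exists_min G _ ζ d
  choose ll hll using hex
  have hF3 : ∀ σ, F3P G ζ d (ll σ) := fun σ =>
    IsMin.f3p hd hreg hζ0 (by linarith) (hll σ)
  set lam : Finset V → (V → Fin q) → (V → Option (Ph A)) := fun R σ => lm R (ll σ) with hlamdef
  have hlam : ∀ R σ x P, lam R σ x = some P → ll σ x = some P := fun R σ x P h =>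
    hlm R (ll σ) x P h
  unfold TPB.ZB
  refine coding (TPB.wt G c A) (fun σ => ?_)
    (fun r : Finset V × Finset V × Bool => bw η r.1 * (bw t0 r.2.1 * (1 / 2))) ?_ ?_
    (fun r σ => PL r.1 (lam r.1 σ) * QL G d c q0 δ ζ C1 c5 τF cp r.2.1 r.2.2 (lam r.1 σ) σ)
    ?_ ?_ ?_ _ ?_
  · exact Finset.prod_nonneg fun e _ => hnn _ _
  · intro r
    exact mul_nonneg (bw_nonneg hη0 hη1 _) (mul_nonneg (bw_nonneg ht0 ht1 _) (by norm_num))
  · rw [Fintype.sum_prod_type]
    simp only [Fintype.sum_prod_type, Fintype.sum_bool]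
    have h1 : ∀ R : Finset V, ∑ R' : Finset V, (bw η R * (bw t0 R' * (1 / 2)) +
        bw η R * (bw t0 R' * (1 / 2))) = bw η R := by
      intro R
      have : ∀ R' : Finset V, (bw η R * (bw t0 R' * (1 / 2)) +
        bw η R * (bw t0 R' * (1 / 2))) = bw η R * bw t0 R' := fun R' => by ring
      simp only [this]
      rw [← Finset.mul_sum, sum_bw, mul_one]
    simp only [h1]
    exact sum_bw η
  · intro r σ
    exact mul_nonneg (hPL0 _ _) (QL_nonneg hnn _ _ _ _ _ _ _ _ _ _ _ _ _ _)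
  · intro r σ hσ
    have hpos := wt_pos_edge hA G c hc σ hσ
    refine mul_pos (hPLp _ (hF3 σ) _) (QL_pos hA G d c hc q0 δ ζ C1 c5 τF cp _ _ _ σ hpos ?_)
    intro g hg
    exact F2_lam G d hd hreg c ζ hζ0 hζ1 σ (ll σ) (lam r.1 σ) (hll σ) (hlam r.1 σ) g
      (comps_sub hg)
  · intro r
    calc ∑ σ, PL r.1 (lam r.1 σ) * QL G d c q0 δ ζ C1 c5 τF cp r.2.1 r.2.2 (lam r.1 σ) σ
        ≤ ∑ σ, ∑ τ, PL r.1 τ * QL G d c q0 δ ζ C1 c5 τF cp r.2.1 r.2.2 τ σ := by
          refine Finset.sum_le_sum fun σ _ => ?_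
          exact Finset.single_le_sum (f := fun τ => PL r.1 τ *
            QL G d c q0 δ ζ C1 c5 τF cp r.2.1 r.2.2 τ σ)
            (fun τ _ => mul_nonneg (hPL0 _ _) (QL_nonneg hnn _ _ _ _ _ _ _ _ _ _ _ _ _ _))
            (mem_univ (lam r.1 σ))
      _ = ∑ τ, PL r.1 τ * ∑ σ, QL G d c q0 δ ζ C1 c5 τF cp r.2.1 r.2.2 τ σ := by
          rw [Finset.sum_comm]
          exact Finset.sum_congr rfl fun τ _ => by rw [Finset.mul_sum]
      _ ≤ ∑ τ, PL r.1 τ * 1 := by
          refine Finset.sum_le_sum fun τ _ => mul_le_mul_of_nonneg_left ?_ (hPL0 _ _)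
          exact QL_sum hnn G d c hc q0 δ ζ C1 c5 τF cp _ _ τ
      _ ≤ 1 := by simpa using hPL1 r.1
  · intro σ hσ
    have hpos := wt_pos_edge hA G c hc σ hσ
    set l := ll σ with hl
    have hb0 : 0 ≤ bb G d l := by unfold bb; positivity
    have hDis : (#(Dis G l) : ℝ) = 2 * d * bb G d l := by
      unfold bb
      field_simp
    -- pointwise bound
    have hpt : ∀ (R Rp : Finset V) (o : Bool),
        Real.log (TPB.wt G c A σ) - Real.log (PL R (lam R σ) *
          QL G d c q0 δ ζ C1 c5 τF cp Rp o (lam R σ) σ) ≤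
        -Real.log (PL R (lam R σ)) + (Real.log (XiC G d c q0 δ ζ C1 c5 (lam R σ))
          + TT (A := A) ⟨G, d, c, δ, τF, cp, lam R σ, Rp, o, DF G d c (lam R σ) σ⟩ C1 c5
            (deepP G d δ (lam R σ) (DF G d c (lam R σ) σ)) σ) := by
      intro R Rp o
      have hF2 : ∀ g ∈ comps (lkG G) (DF G d c (lam R σ) σ),
          (#g : ℝ) ≤ 5 * ζ * #(NsO G (lam R σ) g) := fun g hg =>
        F2_lam G d hd hreg c ζ hζ0 hζ1 σ (ll σ) (lam R σ) (hll σ) (hlam R σ) g (comps_sub hg)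
      have h1 := QL_log hA G d c hc q0 δ ζ C1 c5 τF cp hc5 Rp o (lam R σ) σ hpos hF2
      have h2 := QL_pos hA G d c hc q0 δ ζ C1 c5 τF cp Rp o (lam R σ) σ hpos hF2
      have h3 := hPLp _ (hF3 σ) R
      rw [Real.log_mul h3.ne' h2.ne']
      linarith
    -- average over `o`
    have hav : ∀ (R Rp : Finset V),
        ((Real.log (TPB.wt G c A σ) - Real.log (PL R (lam R σ) *
          QL G d c q0 δ ζ C1 c5 τF cp Rp true (lam R σ) σ))
        + (Real.log (TPB.wt G c A σ) - Real.log (PL R (lam R σ) *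
          QL G d c q0 δ ζ C1 c5 τF cp Rp false (lam R σ) σ))) / 2 ≤
        (-Real.log (PL R (lam R σ)) + ((Fintype.card V : ℝ) / 2 * Θ
          + ((#(Soft G d δ (lam R σ)) : ℝ) + bb G d l) / (d : ℝ) ^ 2
          + εP * (Fintype.card V : ℝ))
          + ((Fintype.card V : ℝ) / 2 * Real.log (mm A)
            - cv * (ζ * ((Om l).card : ℝ) + bb G d l)
            + CL * e3 * (#(Soft G d δ (lam R σ)) : ℝ)))
        + (CL * (1 / (d : ℝ) + cp) * ((WW G d δ (lam R σ) l Rp).card : ℝ)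
          + CL * (cp * d) * ((Bad G d δ τF ε0 (lam R σ) Rp σ).card : ℝ)) := by
      intro R Rp
      have h1 := hpt R Rp true
      have h2 := hpt R Rp false
      have h3 := hAcc (lam R σ) l Rp σ hpos (hll σ) (hlam R σ)
      have h4 := hPol (lam R σ) l (hlam R σ)
      nlinarith [h1, h2, h3, h4]
    -- average over `Rp`
    have hav2 : ∀ R : Finset V, EB t0 (fun Rp =>
        ((Real.log (TPB.wt G c A σ) - Real.log (PL R (lam R σ) *
          QL G d c q0 δ ζ C1 c5 τF cp Rp true (lam R σ) σ))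
        + (Real.log (TPB.wt G c A σ) - Real.log (PL R (lam R σ) *
          QL G d c q0 δ ζ C1 c5 τF cp Rp false (lam R σ) σ))) / 2) ≤
        -Real.log (PL R (lam R σ)) + (ρ * (#(Soft G d δ (lam R σ)) : ℝ)
          + ((Fintype.card V : ℝ) / 2 * (Real.log (mm A) + Θ) + εP * (Fintype.card V : ℝ)
            - cv * (ζ * ((Om l).card : ℝ) + bb G d l) + ρ * bb G d l)) := by
      intro R
      refine (EB_mono ht0 ht1 _ _ (hav R)).trans ?_
      rw [EB_add, EB_const, EB_add, EB_mul, EB_mul]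
      have h1 := hWW (lam R σ) l
      have h2 := hBad (lam R σ) σ
      rw [hDis] at h1
      have h3 := mul_le_mul_of_nonneg_left h1
        (mul_nonneg hCL (add_nonneg (one_div_nonneg.mpr hd'.le) hcp))
      have h4 := mul_le_mul_of_nonneg_left h2 (mul_nonneg hCL (mul_nonneg hcp hd'.le))
      have hS : (0 : ℝ) ≤ (#(Soft G d δ (lam R σ)) : ℝ) := Nat.cast_nonneg _
      have h5 := mul_le_mul_of_nonneg_right hρ (add_nonneg hS hb0)
      have h6 : 0 ≤ CL * e3 * bb G d l := by positivity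
      have h7 : 0 ≤ CL * (cp * d) * eB * bb G d l := by positivity
      have h8 : ((#(Soft G d δ (lam R σ)) : ℝ) + bb G d l) / (d : ℝ) ^ 2 =
          1 / (d : ℝ) ^ 2 * ((#(Soft G d δ (lam R σ)) : ℝ) + bb G d l) := by ring
      rw [h8]
      nlinarith [h3, h4, h5, h6, h7]
    -- average over `R`
    have hav3 : EB η (fun R => EB t0 (fun Rp =>
        ((Real.log (TPB.wt G c A σ) - Real.log (PL R (lam R σ) *
          QL G d c q0 δ ζ C1 c5 τF cp Rp true (lam R σ) σ))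
        + (Real.log (TPB.wt G c A σ) - Real.log (PL R (lam R σ) *
          QL G d c q0 δ ζ C1 c5 τF cp Rp false (lam R σ) σ))) / 2)) ≤
        (Fintype.card V : ℝ) / 2 * (Real.log (mm A) + Θ) + (εL + εP) * (Fintype.card V : ℝ) := by
      have hρ0 : 0 ≤ ρ := by
        refine le_trans ?_ hρ
        positivity
      have hsoft : ∀ R : Finset V, (#(Soft G d δ (lam R σ)) : ℝ) ≤
          (5 + 5 / δ) * (#(SS l (lm R l)) : ℝ) +
            ((#(Om l) : ℝ) + (8 + 10 / δ) * bb G d l) := by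
        intro R
        have := card_Soft G d hd hreg δ hδ l (lam R σ) (hlam R σ)
        unfold bb
        linarith
      refine (EB_mono hη0 hη1 _ _ hav2).trans ?_
      rw [EB_add, EB_add, EB_const, EB_mul]
      have h1 := hPLc l (hF3 σ)
      have h2 := EB_mono hη0 hη1 _ _ hsoft
      rw [EB_add, EB_const, EB_mul] at h2
      have h3 := hPLs l (hF3 σ)
      have h4 : (0 : ℝ) ≤ 5 + 5 / δ := by positivity
      have h5 := mul_le_mul_of_nonneg_left h3 h4
      have h6 : EB η (fun R => (#(Soft G d δ (lam R σ)) : ℝ)) ≤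
          (#(Om l) : ℝ) + ((5 + 5 / δ) * BS + (8 + 10 / δ)) * bb G d l := by
        nlinarith [h2, h5]
      have h7 := mul_le_mul_of_nonneg_left h6 hρ0
      have hOm : (0 : ℝ) ≤ (#(Om l) : ℝ) := Nat.cast_nonneg _
      have h8 := mul_le_mul_of_nonneg_right hN1 hOm
      have h9 := mul_le_mul_of_nonneg_right hN2 hb0
      nlinarith [h1, h7, h8, h9]
    refine le_trans (le_of_eq ?_) hav3
    rw [Fintype.sum_prod_type]
    unfold EB
    refine Finset.sum_congr rfl fun R _ => ?_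
    rw [Fintype.sum_prod_type, Finset.mul_sum]
    refine Finset.sum_congr rfl fun Rp _ => ?_
    rw [Fintype.sum_bool]
    ring

end coreU

end LD
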