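import Mathlib

/-!
# MP_5dd92e_co, large degree theorem (proofs row 484), section 2: the field

`l : V → Option L` is a label field (`none` is the label `*`), `wr P y` means that the colour of `y` is not
allowed in phase `P`.  `Sens`, `Om`, `Dis` (ordered disagreeing adjacent pairs), the energy `JJ`.
-/

set_option autoImplicit false

open Finset
open scoped Classical

namespace LD

variable {V : Type*} [Fintype V] {L : Type*}

/-- neighbours -/
noncomputable def nb (G : SimpleGraph V) (x : V) : Finset V := univ.filter (fun y => G.Adj x y)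

/-- regular of degree `d` -/
def Rgl (G : SimpleGraph V) (d : ℕ) : Prop := ∀ x, #(nb G x) = d

/-- sensing vertices -/
noncomputable def Sens (G : SimpleGraph V) (wr : L → V → Prop) (l : V → Option L) : Finset V :=
  univ.filter (fun x => ∃ P, l x = some P ∧ ∃ y, G.Adj x y ∧ wr P y)

/-- vertices with label `*` -/
noncomputable def Om (l : V → Option L) : Finset V := univ.filter (fun x => l x = none)

/-- ordered disagreeing adjacent pairs -/
noncomputable def Dis (G : SimpleGraph V) (l : V → Option L) : Finset (V × V) :=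
  univ.filter (fun p => G.Adj p.1 p.2 ∧ l p.1 ≠ l p.2)

/-- the energy -/
noncomputable def JJ (G : SimpleGraph V) (wr : L → V → Prop) (ζ : ℝ) (d : ℕ)
    (l : V → Option L) : ℝ :=
  (#(Sens G wr l) : ℝ) + ζ * #(Om l) + (1 + ζ) / (2 * d) * #(Dis G l)

/-- minimisers of the energy -/
def IsMin (G : SimpleGraph V) (wr : L → V → Prop) (ζ : ℝ) (d : ℕ) (l : V → Option L) : Prop :=
  ∀ l' : V → Option L, JJ G wr ζ d l ≤ JJ G wr ζ d l'

theorem exists_min [Finite L] (G : SimpleGraph V) (wr : L → V → Prop) (ζ : ℝ) (d : ℕ) :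
    ∃ l, IsMin G wr ζ d l := by
  obtain ⟨l, hl⟩ := Finite.exists_min (JJ G wr ζ d)
  exact ⟨l, hl⟩

/-- ordered adjacent pairs in `X` -/
noncomputable def EE (G : SimpleGraph V) (X : Finset V) : Finset (V × V) :=
  univ.filter (fun p => G.Adj p.1 p.2 ∧ p.1 ∈ X ∧ p.2 ∈ X)

/-- disagreeing pairs which leave `X` -/
noncomputable def Cut (G : SimpleGraph V) (X : Finset V) (l : V → Option L) : Finset (V × V) :=
  univ.filter (fun p => G.Adj p.1 p.2 ∧ p.1 ∈ X ∧ p.2 ∉ X ∧ l p.1 ≠ l p.2)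

/-- give the label `Q` to the vertices of `X` -/
noncomputable def rel (l : V → Option L) (X : Finset V) (Q : Option L) : V → Option L :=
  fun x => if x ∈ X then Q else l x

/-- the sphere of radius `j` about `x` -/
noncomputable def Sp (G : SimpleGraph V) (j : ℕ) (x : V) : Finset V :=
  univ.filter (fun y => G.Reachable x y ∧ G.dist x y = j)

/-- the ball of radius `j` about `x` -/
noncomputable def Bl (G : SimpleGraph V) (j : ℕ) (x : V) : Finset V :=
  univ.filter (fun y => G.Reachable x y ∧ G.dist x y ≤ j)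

/-- tree like up to distance `J + 1`: a vertex at distance `j + 1 ≤ J + 1` has exactly one neighbour at
distance `j`, the others are at distance `j + 2`. -/
def TreeTo (G : SimpleGraph V) (J : ℕ) : Prop :=
  ∀ x y : V, ∀ j ≤ J, y ∈ Sp G (j + 1) x →
    #((nb G y).filter (fun z => z ∈ Sp G j x)) = 1 ∧
      ∀ z ∈ nb G y, z ∈ Sp G j x ∨ z ∈ Sp G (j + 2) x

theorem mem_nb {G : SimpleGraph V} {x y : V} : y ∈ nb G x ↔ G.Adj x y := by
  simp [nb]

theorem mem_Sens {G : SimpleGraph V} {wr : L → V → Prop} {l : V → Option L} {x : V} :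
    x ∈ Sens G wr l ↔ ∃ P, l x = some P ∧ ∃ y, G.Adj x y ∧ wr P y := by
  simp [Sens]

theorem mem_Om {l : V → Option L} {x : V} : x ∈ Om l ↔ l x = none := by
  simp [Om]

theorem mem_Dis {G : SimpleGraph V} {l : V → Option L} {p : V × V} :
    p ∈ Dis G l ↔ G.Adj p.1 p.2 ∧ l p.1 ≠ l p.2 := by
  simp [Dis]

theorem mem_EE {G : SimpleGraph V} {X : Finset V} {p : V × V} :
    p ∈ EE G X ↔ G.Adj p.1 p.2 ∧ p.1 ∈ X ∧ p.2 ∈ X := by
  simp [EE]

theorem mem_Cut {G : SimpleGraph V} {X : Finset V} {l : V → Option L} {p : V × V} :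
    p ∈ Cut G X l ↔ G.Adj p.1 p.2 ∧ p.1 ∈ X ∧ p.2 ∉ X ∧ l p.1 ≠ l p.2 := by
  simp [Cut]

/-- the number of pairs with first component in `X` -/
theorem card_fst (G : SimpleGraph V) (d : ℕ) (hd : Rgl G d) (X : Finset V) :
    #((univ : Finset (V × V)).filter (fun p => G.Adj p.1 p.2 ∧ p.1 ∈ X)) = d * #X := by
  rw [card_filter, Fintype.sum_prod_type]
  have h : ∀ x : V, (∑ y : V, if G.Adj x y ∧ x ∈ X then 1 else 0) = if x ∈ X then d else 0 := by
    intro x
    by_cases hx : x ∈ X
    · rw [if_pos hx, ← hd x, nb, card_filter]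
      exact sum_congr rfl fun y _ => by simp [hx]
    · rw [if_neg hx]
      exact sum_eq_zero fun y _ => by simp [hx]
  rw [sum_congr rfl (fun x _ => h x), ← sum_filter, sum_const, smul_eq_mul, mul_comm]
  congr 2
  ext x
  simp

/-- the number of all pairs which leave `X` -/
theorem card_leave (G : SimpleGraph V) (d : ℕ) (hd : Rgl G d) (X : Finset V) :
    #((univ : Finset (V × V)).filter (fun p => G.Adj p.1 p.2 ∧ p.1 ∈ X ∧ p.2 ∉ X)) + #(EE G X) =
      d * #X := by
  rw [← card_fst G d hd X, ← card_union_of_disjoint]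
  · congr 1
    ext p
    simp only [mem_union, mem_filter, mem_univ, true_and, mem_EE]
    tauto
  · rw [disjoint_left]
    intro p hp hp'
    simp only [mem_filter, mem_univ, true_and, mem_EE] at hp hp'
    exact hp.2.2 hp'.2.2

theorem cut_le (G : SimpleGraph V) (d : ℕ) (hd : Rgl G d) (X : Finset V) (l : V → Option L) :
    #(Cut G X l) + #(EE G X) ≤ d * #X := by
  rw [← card_leave G d hd X]
  refine Nat.add_le_add_right (card_le_card ?_) _
  intro p hp
  rw [mem_Cut] at hp
  simp only [mem_filter, mem_univ, true_and]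
  exact ⟨hp.1, hp.2.1, hp.2.2.1⟩

/-- the number of pairs which leave `X`, in both orders -/
theorem cut_swap (G : SimpleGraph V) (X : Finset V) (l : V → Option L) :
    #((univ : Finset (V × V)).filter
      (fun p => G.Adj p.1 p.2 ∧ p.1 ∉ X ∧ p.2 ∈ X ∧ l p.1 ≠ l p.2)) = #(Cut G X l) := by
  refine card_bij (fun p _ => (p.2, p.1)) ?_ ?_ ?_
  · intro p hp
    simp only [mem_filter, mem_univ, true_and] at hp
    rw [mem_Cut]
    exact ⟨hp.1.symm, hp.2.2.1, hp.2.1, fun h => hp.2.2.2 h.symm⟩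
  · rintro ⟨a, b⟩ _ ⟨c, e⟩ _ h
    simp only [Prod.mk.injEq] at h
    exact Prod.ext h.2 h.1
  · intro p hp
    rw [mem_Cut] at hp
    refine ⟨(p.2, p.1), ?_, rfl⟩
    simp only [mem_filter, mem_univ, true_and]
    exact ⟨hp.1.symm, hp.2.2.1, hp.2.1, fun h => hp.2.2.2 h.symm⟩

theorem dis_split (G : SimpleGraph V) (X : Finset V) (l : V → Option L) :
    #(Dis G l) = 2 * #(Cut G X l) +
      #((univ : Finset (V × V)).filter
        (fun p => G.Adj p.1 p.2 ∧ p.1 ∈ X ∧ p.2 ∈ X ∧ l p.1 ≠ l p.2)) +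
      #((univ : Finset (V × V)).filter
        (fun p => G.Adj p.1 p.2 ∧ p.1 ∉ X ∧ p.2 ∉ X ∧ l p.1 ≠ l p.2)) := by
  have h1 : #(Dis G l) = #((Dis G l).filter (fun p => p.1 ∈ X)) +
      #((Dis G l).filter (fun p => ¬ p.1 ∈ X)) :=
    (card_filter_add_card_filter_not _).symm
  have h2 : #((Dis G l).filter (fun p => p.1 ∈ X)) =
      #(((Dis G l).filter (fun p => p.1 ∈ X)).filter (fun p => p.2 ∈ X)) +
      #(((Dis G l).filter (fun p => p.1 ∈ X)).filter (fun p => ¬ p.2 ∈ X)) :=
    (card_filter_add_card_filter_not _).symm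
  have h3 : #((Dis G l).filter (fun p => ¬ p.1 ∈ X)) =
      #(((Dis G l).filter (fun p => ¬ p.1 ∈ X)).filter (fun p => p.2 ∈ X)) +
      #(((Dis G l).filter (fun p => ¬ p.1 ∈ X)).filter (fun p => ¬ p.2 ∈ X)) :=
    (card_filter_add_card_filter_not _).symm
  have e1 : ((Dis G l).filter (fun p => p.1 ∈ X)).filter (fun p => p.2 ∈ X) =
      (univ : Finset (V × V)).filter
        (fun p => G.Adj p.1 p.2 ∧ p.1 ∈ X ∧ p.2 ∈ X ∧ l p.1 ≠ l p.2) := by
    ext p; simp only [Dis, mem_filter, mem_univ, true_and]; tauto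
  have e2 : ((Dis G l).filter (fun p => p.1 ∈ X)).filter (fun p => ¬ p.2 ∈ X) = Cut G X l := by
    ext p; simp only [Dis, Cut, mem_filter, mem_univ, true_and]; tauto
  have e3 : ((Dis G l).filter (fun p => ¬ p.1 ∈ X)).filter (fun p => p.2 ∈ X) =
      (univ : Finset (V × V)).filter
        (fun p => G.Adj p.1 p.2 ∧ p.1 ∉ X ∧ p.2 ∈ X ∧ l p.1 ≠ l p.2) := by
    ext p; simp only [Dis, mem_filter, mem_univ, true_and]; tauto
  have e4 : ((Dis G l).filter (fun p => ¬ p.1 ∈ X)).filter (fun p => ¬ p.2 ∈ X) =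
      (univ : Finset (V × V)).filter
        (fun p => G.Adj p.1 p.2 ∧ p.1 ∉ X ∧ p.2 ∉ X ∧ l p.1 ≠ l p.2) := by
    ext p; simp only [Dis, mem_filter, mem_univ, true_and]; tauto
  rw [e1, e2] at h2
  rw [e3, e4, cut_swap] at h3
  omega

theorem dis_rel (G : SimpleGraph V) (X : Finset V) (l : V → Option L) (Q : Option L) :
    #(Dis G (rel l X Q)) + 2 * #(Cut G X l) ≤ #(Dis G l) + 2 * #(Cut G X (rel l X Q)) := by
  rw [dis_split G X l, dis_split G X (rel l X Q)]
  have h1 : (univ : Finset (V × V)).filter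
      (fun p => G.Adj p.1 p.2 ∧ p.1 ∈ X ∧ p.2 ∈ X ∧ rel l X Q p.1 ≠ rel l X Q p.2) = ∅ := by
    rw [filter_eq_empty_iff]
    rintro p _ ⟨_, h2, h3, h4⟩
    apply h4
    simp [rel, h2, h3]
  have h2 : (univ : Finset (V × V)).filter
      (fun p => G.Adj p.1 p.2 ∧ p.1 ∉ X ∧ p.2 ∉ X ∧ rel l X Q p.1 ≠ rel l X Q p.2) =
      (univ : Finset (V × V)).filter
      (fun p => G.Adj p.1 p.2 ∧ p.1 ∉ X ∧ p.2 ∉ X ∧ l p.1 ≠ l p.2) := by
    apply filter_congr
    rintro p _
    constructor
    · rintro ⟨h1, h2, h3, h4⟩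
      refine ⟨h1, h2, h3, ?_⟩
      simpa [rel, h2, h3] using h4
    · rintro ⟨h1, h2, h3, h4⟩
      refine ⟨h1, h2, h3, ?_⟩
      simpa [rel, h2, h3] using h4
  rw [h1, h2, card_empty]
  omega

theorem sens_rel (G : SimpleGraph V) (wr : L → V → Prop) (X : Finset V) (l : V → Option L)
    (Q : Option L) : #(Sens G wr (rel l X Q)) ≤ #(Sens G wr l) + #X := by
  refine le_trans (card_le_card (t := Sens G wr l ∪ X) ?_) (card_union_le _ _)
  intro x hx
  rw [mem_Sens] at hx
  rw [mem_union, mem_Sens]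
  by_cases h : x ∈ X
  · exact Or.inr h
  · left
    simpa [rel, h] using hx

theorem sens_none (G : SimpleGraph V) (wr : L → V → Prop) (X : Finset V) (l : V → Option L) :
    #(Sens G wr (rel l X none)) + #(Sens G wr l ∩ X) ≤ #(Sens G wr l) := by
  rw [← card_union_of_disjoint]
  · apply card_le_card
    intro x hx
    rw [mem_union] at hx
    rcases hx with hx | hx
    · rw [mem_Sens] at hx ⊢
      by_cases h : x ∈ X
      · obtain ⟨P, h1, _⟩ := hx
        simp [rel, h] at h1
      · simpa [rel, h] using hx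
    · exact (mem_inter.mp hx).1
  · rw [disjoint_left]
    intro x hx hx'
    rw [mem_Sens] at hx
    obtain ⟨P, h1, _⟩ := hx
    simp [rel, (mem_inter.mp hx').2] at h1

theorem om_rel (X : Finset V) (l : V → Option L) (P : L) : #(Om (rel l X (some P))) ≤ #(Om l) := by
  apply card_le_card
  intro x hx
  rw [mem_Om] at hx ⊢
  by_cases h : x ∈ X
  · simp [rel, h] at hx
  · simpa [rel, h] using hx

theorem om_none (X : Finset V) (l : V → Option L) : #(Om (rel l X none)) ≤ #(Om l) + #X := by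
  refine le_trans (card_le_card (t := Om l ∪ X) ?_) (card_union_le _ _)
  intro x hx
  rw [mem_Om] at hx
  rw [mem_union, mem_Om]
  by_cases h : x ∈ X
  · exact Or.inr h
  · left
    simpa [rel, h] using hx

/-- relabelling a set: the energy inequality of a minimiser -/
theorem rel_ineq (G : SimpleGraph V) (wr : L → V → Prop) (ζ : ℝ) (d : ℕ) (hd : 0 < d)
    (hζ0 : 0 ≤ ζ) (hζ1 : ζ ≤ 1) (l : V → Option L) (hl : IsMin G wr ζ d l) (X : Finset V)
    (Q : Option L) :
    (1 + ζ) / d * #(Cut G X l) ≤ (#X : ℝ) + (1 + ζ) / d * #(Cut G X (rel l X Q)) := by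
  have hd' : (0 : ℝ) < d := by exact_mod_cast hd
  have h0 := hl (rel l X Q)
  have h1 : ((#(Dis G (rel l X Q)) : ℝ)) + 2 * #(Cut G X l) ≤
      #(Dis G l) + 2 * #(Cut G X (rel l X Q)) := by exact_mod_cast dis_rel G X l Q
  have h2 : (#(Sens G wr (rel l X Q)) : ℝ) + ζ * #(Om (rel l X Q)) ≤
      #(Sens G wr l) + ζ * #(Om l) + #X := by
    cases Q with
    | none =>
      have a1 : (#(Sens G wr (rel l X none)) : ℝ) ≤ #(Sens G wr l) := by
        have := sens_none G wr X l
        exact_mod_cast (by omega : #(Sens G wr (rel l X none)) ≤ #(Sens G wr l))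
      have a2 : (#(Om (rel l X none)) : ℝ) ≤ #(Om l) + #X := by exact_mod_cast om_none X l
      have a3 : (0 : ℝ) ≤ #X := Nat.cast_nonneg _
      have a4 := mul_le_mul_of_nonneg_left a2 hζ0
      have a5 := mul_le_mul_of_nonneg_right hζ1 a3
      nlinarith
    | some P =>
      have a1 : (#(Sens G wr (rel l X (some P))) : ℝ) ≤ #(Sens G wr l) + #X := by
        exact_mod_cast sens_rel G wr X l (some P)
      have a2 : (#(Om (rel l X (some P))) : ℝ) ≤ #(Om l) := by exact_mod_cast om_rel X l P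
      have a4 := mul_le_mul_of_nonneg_left a2 hζ0
      linarith
  unfold JJ at h0
  have hc : (0 : ℝ) ≤ (1 + ζ) / (2 * d) := by positivity
  have h3 := mul_le_mul_of_nonneg_left h1 hc
  have h4 : (1 + ζ) / (2 * d) * (2 * #(Cut G X l) : ℝ) = (1 + ζ) / d * #(Cut G X l) := by
    field_simp
  have h5 : (1 + ζ) / (2 * d) * (2 * #(Cut G X (rel l X Q)) : ℝ) =
      (1 + ζ) / d * #(Cut G X (rel l X Q)) := by
    field_simp
  rw [mul_add, mul_add, h4, h5] at h3
  linarith

end LD
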