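import Mathlib
import Pool.Agent.W_5dd92e_h55.Defs
import Pool.Agent.W_5dd92e_ld.Fld

/-!
# MP_5dd92e_co, large degree theorem: definitions

Paper proof: proofs row 484.  `nb`, `Rgl`, `Sens`, `Om`, `Dis`, `JJ`, `IsMin`, `Sp`, `Bl`, `TreeTo` are in `Fld.lean`
(helper32).  `TPB.Prp G c`: `c : V → Bool` is a proper
2-colouring, `TPB.ed G c`: edges directed from the side `c = true`, `TPB.wt G c A σ`, `TPB.ZB G c A`.
Labels are elements of `Option Lam` (`none` is the label star).
-/

set_option autoImplicit false

open Finset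
open scoped Classical

namespace LD

section prob
variable {V : Type*} [Fintype V]

/-- probability of the set `R` for the Bernoulli(p) random subset of `V` -/
noncomputable def bw (p : ℝ) (R : Finset V) : ℝ := p ^ R.card * (1 - p) ^ (Rᶜ).card

/-- expectation of `F R`, `R` a Bernoulli(p) random subset of `V` -/
noncomputable def EB (p : ℝ) (F : Finset V → ℝ) : ℝ := ∑ R : Finset V, bw p R * F R

/-- `b = |∂ l| / d` -/
noncomputable def bb {L : Type*} (G : SimpleGraph V) (d : ℕ) (l : V → Option L) : ℝ :=
  ((Dis G l).card : ℝ) / (2 * d)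

end prob

/-! ### Classes, from the partial label `lam` (`lam x = some P`: `x` is in `K` with phase `P`) -/

section classes
variable {V : Type*} [Fintype V] {Lam : Type*}

/-- the neighbours with the same phase -/
noncomputable def Hs (G : SimpleGraph V) (lam : V → Option Lam) (x : V) : Finset V :=
  (nb G x).filter (fun y => lam y = lam x)

/-- `K` -/
noncomputable def KK (lam : V → Option Lam) : Finset V := univ.filter (fun x => lam x ≠ none)

/-- `Khi`: vertices of `K` with at least `3d/4` neighbours in `K` of the same phase -/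
noncomputable def Khi (G : SimpleGraph V) (d : ℕ) (lam : V → Option Lam) : Finset V :=
  (KK lam).filter (fun x => 3 * (d : ℝ) / 4 ≤ ((Hs G lam x).card : ℝ))

/-- `Sol`: vertices of `Khi` with at least `(1-δ)d` neighbours in `Khi` of the same phase -/
noncomputable def Sol (G : SimpleGraph V) (d : ℕ) (δ : ℝ) (lam : V → Option Lam) : Finset V :=
  (Khi G d lam).filter (fun x => (1 - δ) * (d : ℝ) ≤ ((Hs G lam x ∩ Khi G d lam).card : ℝ))

/-- `Soft` is the complement of `Sol` -/
noncomputable def Soft (G : SimpleGraph V) (d : ℕ) (δ : ℝ) (lam : V → Option Lam) : Finset V :=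
  (Sol G d δ lam)ᶜ

/-- `Dp`: vertices of `Sol` all whose neighbours are in `Sol` with the same phase -/
noncomputable def Dp (G : SimpleGraph V) (d : ℕ) (δ : ℝ) (lam : V → Option Lam) : Finset V :=
  (Sol G d δ lam).filter (fun x => ∀ y, G.Adj x y → y ∈ Sol G d δ lam ∧ lam y = lam x)

/-- `DD`: vertices of `Dp` all whose neighbours are in `Dp` -/
noncomputable def DD (G : SimpleGraph V) (d : ℕ) (δ : ℝ) (lam : V → Option Lam) : Finset V :=
  (Dp G d δ lam).filter (fun x => ∀ y, G.Adj x y → y ∈ Dp G d δ lam)

end classes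

/-! ### The target -/

section target
variable {q : ℕ}

/-- normalised targets: symmetric, entries in `[0, 1]`, some entry is `1`, and every entry is `1` or at most
`1 - κ` -/
structure Tgt (A : Fin q → Fin q → ℝ) (κ : ℝ) : Prop where
  symm : ∀ i j, A i j = A j i
  nn : ∀ i j, 0 ≤ A i j
  le1 : ∀ i j, A i j ≤ 1
  one : ∃ i j, A i j = 1
  kpos : 0 < κ
  kle : κ ≤ 1
  gap : ∀ i j, A i j ≠ 1 → A i j ≤ 1 - κ

/-- `S x T` is a biclique of the graph of entries equal to `1` -/
def Bic (A : Fin q → Fin q → ℝ) (S T : Finset (Fin q)) : Prop := ∀ i ∈ S, ∀ j ∈ T, A i j = 1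

/-- the colours compatible with all colours of `F` -/
noncomputable def perp (A : Fin q → Fin q → ℝ) (F : Finset (Fin q)) : Finset (Fin q) :=
  univ.filter (fun i => ∀ j ∈ F, A i j = 1)

/-- the maximum of `|S| |T|` over the bicliques -/
noncomputable def mm (A : Fin q → Fin q → ℝ) : ℕ :=
  (univ.filter (fun p : Finset (Fin q) × Finset (Fin q) => Bic A p.1 p.2)).sup
    (fun p => p.1.card * p.2.card)

/-- the phases -/
def Ph (A : Fin q → Fin q → ℝ) : Type :=
  {p : Finset (Fin q) × Finset (Fin q) // Bic A p.1 p.2 ∧ p.1.card * p.2.card = mm A}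

noncomputable instance (A : Fin q → Fin q → ℝ) : Fintype (Ph A) := by
  unfold Ph; infer_instance

noncomputable instance (A : Fin q → Fin q → ℝ) : DecidableEq (Ph A) := Classical.decEq _

/-- the pattern of phase `P` at the vertex `x` -/
noncomputable def pat {A : Fin q → Fin q → ℝ} {V : Type*} (c : V → Bool) (P : Ph A) (x : V) :
    Finset (Fin q) := if c x = true then P.1.1 else P.1.2

/-- the pattern of phase `P` at the neighbours of `x` -/
noncomputable def patN {A : Fin q → Fin q → ℝ} {V : Type*} (c : V → Bool) (P : Ph A) (x : V) :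
    Finset (Fin q) := if c x = true then P.1.2 else P.1.1

/-- the colour of `y` is wrong for phase `P` -/
def Wr {A : Fin q → Fin q → ℝ} {V : Type*} (c : V → Bool) (σ : V → Fin q) (P : Ph A) (y : V) :
    Prop := σ y ∉ pat c P y

end target

end LD
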