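import Mathlib

/-! # MP_5dd92e_co, large degree theorem: estimates for large `d` -/

set_option autoImplicit false

open Filter

namespace LD

theorem ev_log (M : ℝ) : ∃ d0 : ℕ, ∀ d : ℕ, d0 ≤ d → M ≤ Real.log d := by
  have h : Tendsto (fun d : ℕ => Real.log (d : ℝ)) atTop atTop :=
    Real.tendsto_log_atTop.comp tendsto_natCast_atTop_atTop
  exact eventually_atTop.mp (h.eventually_ge_atTop M)

theorem ev_pow (k : ℕ) (ε : ℝ) (hε : 0 < ε) :
    ∃ d0 : ℕ, ∀ d : ℕ, d0 ≤ d → (Real.log d) ^ k ≤ ε * d := by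
  have h1 : (fun x : ℝ => Real.log x ^ k) =o[atTop] id := Real.isLittleO_pow_log_id_atTop
  have h2 := h1.def hε
  have h3 : ∀ᶠ d : ℕ in atTop, ‖Real.log (d : ℝ) ^ k‖ ≤ ε * ‖id (d : ℝ)‖ :=
    tendsto_natCast_atTop_atTop.eventually h2
  obtain ⟨d0, hd0⟩ := eventually_atTop.mp h3
  refine ⟨d0, fun d hd => ?_⟩
  have h4 := hd0 d hd
  have h5 : ‖id (d : ℝ)‖ = d := by
    rw [id, Real.norm_eq_abs, abs_of_nonneg (Nat.cast_nonneg d)]
  rw [h5, Real.norm_eq_abs] at h4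
  exact (le_abs_self _).trans h4

theorem ev_nat (M : ℝ) : ∃ d0 : ℕ, ∀ d : ℕ, d0 ≤ d → M ≤ d := by
  obtain ⟨n, hn⟩ := exists_nat_ge M
  exact ⟨n, fun d hd => hn.trans (by exact_mod_cast hd)⟩

end LD
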