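import Pool.Agent.W_5dd92e_ld.Fld
import Pool.Agent.W_5dd92e_h55.GeoB

/-!
# Spheres in regular graphs, trees from large girth
-/

set_option autoImplicit false

open Finset
open scoped Classical

namespace LD

variable {V : Type*} [Fintype V]

theorem mem_Sp {G : SimpleGraph V} {j : ℕ} {x y : V} :
    y ∈ Sp G j x ↔ G.Reachable x y ∧ G.dist x y = j := by
  simp [Sp]

theorem mem_Bl {G : SimpleGraph V} {j : ℕ} {x y : V} :
    y ∈ Bl G j x ↔ G.Reachable x y ∧ G.dist x y ≤ j := by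
  simp [Bl]

theorem Sp_symm {G : SimpleGraph V} {j : ℕ} {x y : V} : y ∈ Sp G j x ↔ x ∈ Sp G j y := by
  rw [mem_Sp, mem_Sp, SimpleGraph.dist_comm, SimpleGraph.reachable_comm]

theorem Bl_symm {G : SimpleGraph V} {j : ℕ} {x y : V} : y ∈ Bl G j x ↔ x ∈ Bl G j y := by
  rw [mem_Bl, mem_Bl, SimpleGraph.dist_comm, SimpleGraph.reachable_comm]

theorem Sp_zero (G : SimpleGraph V) (x : V) : Sp G 0 x = {x} := by
  ext y
  rw [mem_Sp, mem_singleton]
  constructor
  · rintro ⟨h1, h2⟩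
    exact (h1.dist_eq_zero_iff.mp h2).symm
  · rintro rfl
    exact ⟨SimpleGraph.Reachable.refl _, SimpleGraph.dist_self⟩

theorem Sp_one (G : SimpleGraph V) (x : V) : Sp G 1 x = nb G x := by
  ext y
  rw [mem_Sp, mem_nb, SimpleGraph.dist_eq_one_iff_adj]
  exact ⟨fun h => h.2, fun h => ⟨h.reachable, h⟩⟩

theorem Sp_sub_Bl (G : SimpleGraph V) (j : ℕ) (x : V) : Sp G j x ⊆ Bl G j x := by
  intro y hy
  rw [mem_Sp] at hy
  rw [mem_Bl]
  exact ⟨hy.1, hy.2.le⟩

theorem Sp_disj (G : SimpleGraph V) (i j : ℕ) (hij : i ≠ j) (x : V) :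
    Disjoint (Sp G i x) (Sp G j x) := by
  rw [disjoint_left]
  intro y h1 h2
  exact hij ((mem_Sp.mp h1).2.symm.trans (mem_Sp.mp h2).2)

theorem Bl_zero (G : SimpleGraph V) (x : V) : Bl G 0 x = {x} := by
  rw [← Sp_zero G x]
  ext y
  rw [mem_Bl, mem_Sp, Nat.le_zero]

theorem Bl_succ (G : SimpleGraph V) (j : ℕ) (x : V) : Bl G (j + 1) x = Bl G j x ∪ Sp G (j + 1) x := by
  ext y
  rw [mem_union, mem_Bl, mem_Bl, mem_Sp]
  constructor
  · rintro ⟨h1, h2⟩
    rcases Nat.lt_or_ge j (G.dist x y) with h | h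
    · exact Or.inr ⟨h1, by omega⟩
    · exact Or.inl ⟨h1, h⟩
  · rintro (⟨h1, h2⟩ | ⟨h1, h2⟩)
    · exact ⟨h1, by omega⟩
    · exact ⟨h1, by omega⟩

/-- a vertex at distance `j + 1` has a neighbour at distance `j` -/
theorem exists_pred {G : SimpleGraph V} {j : ℕ} {x y : V} (hy : y ∈ Sp G (j + 1) x) :
    ∃ z, G.Adj z y ∧ z ∈ Sp G j x := by
  rw [mem_Sp] at hy
  have hne : y ≠ x := by
    rintro rfl
    rw [SimpleGraph.dist_self] at hy
    omega
  obtain ⟨z, h1, h2, h3⟩ := TPB.GeoB_aux2 G y x hy.1.symm hne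
  refine ⟨z, h1.symm, ?_⟩
  rw [mem_Sp, SimpleGraph.dist_comm]
  rw [SimpleGraph.dist_comm (u := y)] at h3
  exact ⟨h2.symm, by omega⟩

/-- trees from large girth -/
theorem treeTo_of_girth (G : SimpleGraph V) (c : V → Bool) (hc : ∀ u v, G.Adj u v → c u ≠ c v)
    (J : ℕ) (hg : ((2 * (J + 1) + 1 : ℕ) : ℕ∞) ≤ G.egirth) : TreeTo G J := by
  intro x y j hj hy
  have hy' := mem_Sp.mp hy
  constructor
  · rw [card_eq_one]
    obtain ⟨z, hz1, hz2⟩ := exists_pred hy
    refine ⟨z, ?_⟩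
    ext w
    rw [mem_filter, mem_nb, mem_singleton]
    have e1 : G.dist y x = j + 1 := by rw [SimpleGraph.dist_comm]; exact hy'.2
    constructor
    · rintro ⟨h1, h2⟩
      have h2' := (mem_Sp.mp h2).2
      have hz2' := (mem_Sp.mp hz2).2
      rw [SimpleGraph.dist_comm] at h2' hz2'
      exact TPB.uniq_pred G (J + 1) hg y x w z hy'.1.symm (by omega) h1 hz1.symm
        (by omega) (by omega)
    · rintro rfl
      exact ⟨hz1.symm, hz2⟩
  · intro z hz
    rw [mem_nb] at hz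
    have h1 := TPB.dist_step G c hc y z x hz hy'.1.symm
    have e1 : G.dist y x = j + 1 := by rw [SimpleGraph.dist_comm]; exact hy'.2
    rw [e1] at h1
    have hr : G.Reachable x z := hy'.1.trans hz.reachable
    rw [mem_Sp, mem_Sp, SimpleGraph.dist_comm]
    rcases h1 with h1 | h1
    · exact Or.inr ⟨hr, h1⟩
    · exact Or.inl ⟨hr, by omega⟩

/-- double counting of adjacent pairs between two sets -/
theorem double_count (G : SimpleGraph V) (P Q : Finset V) :
    ∑ y ∈ P, #((nb G y).filter (fun z => z ∈ Q)) = ∑ z ∈ Q, #((nb G z).filter (fun y => y ∈ P)) := by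
  have h := sum_card_bipartiteAbove_eq_sum_card_bipartiteBelow (s := P) (t := Q) (fun a b => G.Adj a b)
  have h1 : ∀ y, (nb G y).filter (fun z => z ∈ Q) = Q.bipartiteAbove (fun a b => G.Adj a b) y := by
    intro y
    ext z
    simp only [bipartiteAbove, mem_filter, mem_nb]
    tauto
  have h2 : ∀ z, (nb G z).filter (fun y => y ∈ P) = P.bipartiteBelow (fun a b => G.Adj a b) z := by
    intro z
    ext y
    simp only [bipartiteBelow, mem_filter, mem_nb]
    rw [G.adj_comm]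
    tauto
  simp_rw [h1, h2]
  exact h

/-- at most `d - 1` neighbours of a vertex at distance `j + 1` are farther away -/
theorem card_child_le (G : SimpleGraph V) (d : ℕ) (hd : Rgl G d) (j : ℕ) (x y : V)
    (hy : y ∈ Sp G (j + 1) x) : #((nb G y).filter (fun z => z ∈ Sp G (j + 2) x)) ≤ d - 1 := by
  obtain ⟨z, hz1, hz2⟩ := exists_pred hy
  have h : (nb G y).filter (fun z => z ∈ Sp G (j + 2) x) ⊆ (nb G y).erase z := by
    intro w hw
    rw [mem_filter] at hw
    rw [mem_erase]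
    refine ⟨?_, hw.1⟩
    rintro rfl
    exact disjoint_left.mp (Sp_disj G j (j + 2) (by omega) x) hz2 hw.2
  refine (card_le_card h).trans ?_
  rw [card_erase_of_mem (mem_nb.mpr hz1.symm), hd y]

/-- exactly `d - 1` neighbours of a vertex at distance `j + 1` are farther away -/
theorem card_child (G : SimpleGraph V) (d : ℕ) (hd : Rgl G d) (J : ℕ) (hT : TreeTo G J) (j : ℕ)
    (hj : j ≤ J) (x y : V) (hy : y ∈ Sp G (j + 1) x) :
    #((nb G y).filter (fun z => z ∈ Sp G (j + 2) x)) = d - 1 := by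
  obtain ⟨h1, h2⟩ := hT x y j hj hy
  have h3 : (nb G y).filter (fun z => ¬ z ∈ Sp G j x) =
      (nb G y).filter (fun z => z ∈ Sp G (j + 2) x) := by
    ext z
    rw [mem_filter, mem_filter]
    constructor
    · rintro ⟨a, b⟩
      exact ⟨a, (h2 z a).resolve_left b⟩
    · rintro ⟨a, b⟩
      refine ⟨a, fun h => ?_⟩
      exact disjoint_left.mp (Sp_disj G j (j + 2) (by omega) x) h b
  rw [← h3]
  have h4 := card_filter_add_card_filter_not (s := nb G y) (fun z => z ∈ Sp G j x)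
  rw [h1, hd y] at h4
  omega

/-- the spheres grow at most by the factor `d - 1` -/
theorem card_Sp_succ_le (G : SimpleGraph V) (d : ℕ) (hd : Rgl G d) (j : ℕ) (x : V) :
    #(Sp G (j + 2) x) ≤ (d - 1) * #(Sp G (j + 1) x) := by
  have h := double_count G (Sp G (j + 1) x) (Sp G (j + 2) x)
  have h1 : ∑ y ∈ Sp G (j + 1) x, #((nb G y).filter (fun z => z ∈ Sp G (j + 2) x)) ≤
      (d - 1) * #(Sp G (j + 1) x) := by
    refine (sum_le_card_nsmul _ _ (d - 1) fun y hy => card_child_le G d hd j x y hy).trans ?_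
    rw [smul_eq_mul, mul_comm]
  have h2 : #(Sp G (j + 2) x) ≤
      ∑ z ∈ Sp G (j + 2) x, #((nb G z).filter (fun y => y ∈ Sp G (j + 1) x)) := by
    rw [card_eq_sum_ones]
    refine sum_le_sum fun z hz => ?_
    obtain ⟨w, hw1, hw2⟩ := exists_pred hz
    rw [Nat.one_le_iff_ne_zero, card_ne_zero]
    exact ⟨w, mem_filter.mpr ⟨mem_nb.mpr hw1.symm, hw2⟩⟩
  rw [← h] at h2
  exact h2.trans h1

theorem card_Sp_le (G : SimpleGraph V) (d : ℕ) (hd : Rgl G d) (j : ℕ) (x : V) :
    #(Sp G (j + 1) x) ≤ d * (d - 1) ^ j := by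
  induction j with
  | zero => rw [zero_add, Sp_one, hd x, pow_zero, mul_one]
  | succ j ih =>
    refine (card_Sp_succ_le G d hd j x).trans ?_
    calc (d - 1) * #(Sp G (j + 1) x) ≤ (d - 1) * (d * (d - 1) ^ j) := Nat.mul_le_mul_left _ ih
      _ = d * (d - 1) ^ (j + 1) := by ring

theorem card_Sp_le_pow (G : SimpleGraph V) (d : ℕ) (hd : Rgl G d) (j : ℕ) (x : V) :
    #(Sp G j x) ≤ d ^ j := by
  cases j with
  | zero => rw [Sp_zero, card_singleton, pow_zero]
  | succ j =>
    refine (card_Sp_le G d hd j x).trans ?_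
    rw [pow_succ, mul_comm]
    exact Nat.mul_le_mul_right _ (Nat.pow_le_pow_left (Nat.sub_le _ _) _)

theorem card_Bl_le (G : SimpleGraph V) (d : ℕ) (hd : Rgl G d) (h2 : 2 ≤ d) (j : ℕ) (x : V) :
    #(Bl G j x) ≤ 2 * d ^ j := by
  induction j with
  | zero => rw [Bl_zero, card_singleton]; simp
  | succ j ih =>
    rw [Bl_succ]
    refine (card_union_le _ _).trans ?_
    have h := card_Sp_le_pow G d hd (j + 1) x
    have h3 : 2 * d ^ j ≤ d ^ (j + 1) := by
      rw [pow_succ, mul_comm]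
      exact Nat.mul_le_mul_left _ h2
    omega

/-- exact size of the spheres in a tree -/
theorem card_Sp (G : SimpleGraph V) (d : ℕ) (hd : Rgl G d) (J : ℕ) (hT : TreeTo G J) (j : ℕ)
    (hj : j ≤ J) (x : V) : #(Sp G (j + 1) x) = d * (d - 1) ^ j := by
  induction j with
  | zero => rw [zero_add, Sp_one, hd x, pow_zero, mul_one]
  | succ j ih =>
    have ih := ih (by omega)
    have h := double_count G (Sp G (j + 1) x) (Sp G (j + 2) x)
    have h1 : ∑ y ∈ Sp G (j + 1) x, #((nb G y).filter (fun z => z ∈ Sp G (j + 2) x)) =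
        (d - 1) * #(Sp G (j + 1) x) := by
      rw [sum_congr rfl (fun y hy => card_child G d hd J hT j (by omega) x y hy), sum_const,
        smul_eq_mul, mul_comm]
    have h2 : ∑ z ∈ Sp G (j + 2) x, #((nb G z).filter (fun y => y ∈ Sp G (j + 1) x)) =
        #(Sp G (j + 2) x) := by
      rw [card_eq_sum_ones]
      exact sum_congr rfl fun z hz => (hT x z (j + 1) (by omega) hz).1
    rw [h1, h2] at h
    rw [← h, ih]
    ring

end LD
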