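import Pool.Agent.W_5dd92e_ld.Defs
import Pool.Agent.W_5dd92e_ld.Geo
import Pool.Agent.W_5dd92e_h55.Final

/-!
# MP_5dd92e_co, large degree theorem: from normalised targets to the limit
-/

set_option autoImplicit false

open Finset Filter Topology
open scoped Classical

namespace LD

universe u

/-- the statement for normalised targets -/
def MainStmt : Prop :=
  ∀ (q : ℕ) (A : Fin q → Fin q → ℝ) (κ : ℝ), Tgt A κ →
    ∃ d0 : ℕ, ∀ d : ℕ, d0 ≤ d → ∃ Lam : ℝ, ∀ ε : ℝ, 0 < ε → ∃ J : ℕ,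
      ∀ (V : Type u) [Fintype V] (G : SimpleGraph V) (c : V → Bool), TPB.Prp G c → Rgl G d →
        TreeTo G J → |Real.log (TPB.ZB G c A) - Lam * (Fintype.card V : ℝ)| ≤
          ε * (Fintype.card V : ℝ)

theorem rgl_iff {V : Type*} [Fintype V] (G : SimpleGraph V) (d : ℕ) : Rgl G d ↔ TPB.Rgl G d :=
  Iff.rfl

/-- finitely many positive numbers have a positive lower bound -/
theorem exists_gap {ι : Type*} [Finite ι] (f : ι → ℝ) (hf : ∀ i, 0 < f i) :
    ∃ κ : ℝ, 0 < κ ∧ κ ≤ 1 ∧ ∀ i, κ ≤ f i := by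
  rcases isEmpty_or_nonempty ι with h | h
  · exact ⟨1, one_pos, le_refl _, fun i => h.elim i⟩
  · obtain ⟨i, hi⟩ := Finite.exists_min f
    exact ⟨min 1 (f i), lt_min one_pos (hf i), min_le_left _ _,
      fun j => (min_le_right _ _).trans (hi j)⟩

/-- normalisation of a target with a positive entry -/
theorem exists_tgt {q : ℕ} (A : Fin q → Fin q → ℝ) (hs : ∀ i j, A i j = A j i)
    (h0 : ∀ i j, 0 ≤ A i j) (hp : ∃ i j, 0 < A i j) :
    ∃ (M κ : ℝ), 0 < M ∧ Tgt (fun i j => A i j / M) κ := by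
  obtain ⟨k, l, hkl⟩ := hp
  have : Nonempty (Fin q × Fin q) := ⟨(k, l)⟩
  obtain ⟨⟨a, b⟩, hab⟩ := Finite.exists_max (fun p : Fin q × Fin q => A p.1 p.2)
  have hM : 0 < A a b := lt_of_lt_of_le hkl (hab (k, l))
  obtain ⟨κ, h1, h2, h3⟩ := exists_gap (fun p : Fin q × Fin q =>
    if A p.1 p.2 / A a b = 1 then (1 : ℝ) else 1 - A p.1 p.2 / A a b) (by
      rintro ⟨i, j⟩
      simp only
      split_ifs with h
      · exact one_pos
      · have h4 : A i j / A a b ≤ 1 := (div_le_one hM).mpr (hab (i, j))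
        have h5 : A i j / A a b < 1 := lt_of_le_of_ne h4 h
        linarith)
  refine ⟨A a b, κ, hM, ?_⟩
  constructor
  · intro i j
    rw [hs i j]
  · intro i j
    exact div_nonneg (h0 i j) hM.le
  · intro i j
    exact (div_le_one hM).mpr (hab (i, j))
  · exact ⟨a, b, div_self hM.ne'⟩
  · exact h1
  · exact h2
  · intro i j hij
    have h4 := h3 (i, j)
    simp only at h4
    rw [if_neg hij] at h4
    linarith

/-- the partition function of a normalised target is at least one -/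
theorem one_le_ZB {V : Type*} [Fintype V] {q : ℕ} (G : SimpleGraph V) (c : V → Bool)
    (hc : TPB.Prp G c) (A : Fin q → Fin q → ℝ) (κ : ℝ) (hA : Tgt A κ) : 1 ≤ TPB.ZB G c A := by
  obtain ⟨i, j, hij⟩ := hA.one
  have h : ∀ σ, 0 ≤ TPB.wt G c A σ := fun σ => Finset.prod_nonneg fun e _ => hA.nn _ _
  unfold TPB.ZB
  refine le_trans ?_ (Finset.single_le_sum (fun σ _ => h σ)
    (mem_univ (fun v => if c v = true then i else j)))
  unfold TPB.wt
  rw [Finset.prod_eq_one]
  intro e he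
  unfold TPB.ed at he
  rw [mem_filter] at he
  have h1 : c e.1 = true := he.2.2
  have h2 : c e.2 ≠ true := by
    intro h3
    exact hc e.1 e.2 he.2.1 (h1.trans h3.symm)
  show A (if c e.1 = true then i else j) (if c e.2 = true then i else j) = 1
  rw [if_pos h1, if_neg h2]
  exact hij

theorem ZB_scale {V : Type*} [Fintype V] {q : ℕ} (G : SimpleGraph V) (c : V → Bool)
    (A : Fin q → Fin q → ℝ) (M : ℝ) (hM : 0 < M) :
    TPB.ZB G c A = M ^ (TPB.ed G c).card * TPB.ZB G c (fun i j => A i j / M) := by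
  unfold TPB.ZB TPB.wt
  rw [Finset.mul_sum]
  refine Finset.sum_congr rfl fun σ _ => ?_
  rw [← Finset.prod_const, ← Finset.prod_mul_distrib]
  refine Finset.prod_congr rfl fun e _ => ?_
  field_simp

/-- THE LARGE DEGREE THEOREM, deduced from the normalised statement -/
theorem fin_thm (hmain : MainStmt.{u}) (q : ℕ) (A : Matrix (Fin q) (Fin q) ℝ) (hA : A.IsSymm)
    (h0 : ∀ i j, 0 ≤ A i j) :
    ∃ d0 : ℕ, ∀ d : ℕ, d0 ≤ d → ∃ Lim : ℝ,
      ∀ (V : ℕ → Type u) [∀ n, Fintype (V n)] [∀ n, Nonempty (V n)]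
        (G : ∀ n, SimpleGraph (V n)), (∀ n, (G n).IsRegularOfDegree d) →
        (∀ n, (G n).IsBipartite) → Tendsto (fun n => (G n).egirth) atTop (𝓝 ⊤) →
        Tendsto (fun n => TPB.Zpart (G n) A hA ^ (1 / (Fintype.card (V n) : ℝ))) atTop
          (𝓝 Lim) := by
  by_cases hz : ∃ k l, 0 < A k l
  · obtain ⟨M, κ, hM, hT⟩ := exists_tgt A (fun i j => (hA.apply i j).symm) h0 hz
    obtain ⟨d0, hd0⟩ := hmain q _ κ hT
    refine ⟨d0, fun d hd => ?_⟩
    obtain ⟨Lam, hLam⟩ := hd0 d hd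
    refine ⟨Real.exp ((d : ℝ) / 2 * Real.log M + Lam), ?_⟩
    intro V _ _ G hreg hbip hgirth
    choose c hc using fun n => TPB.exists_col (G n) (hbip n)
    have hR : ∀ n, Rgl (G n) d := fun n => TPB.rgl_of (G n) d (hreg n)
    have hn : ∀ n, (0 : ℝ) < Fintype.card (V n) := fun n => by exact_mod_cast Fintype.card_pos
    have hcard : ∀ n, ((TPB.ed (G n) (c n)).card : ℝ) = d * (Fintype.card (V n) : ℝ) / 2 := by
      intro n
      have := TPB.two_card_ed (G n) (c n) (hc n) d (hR n)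
      linarith
    set Z' : ℕ → ℝ := fun n => TPB.ZB (G n) (c n) (fun i j => A i j / M) with hZ'
    have hZ1 : ∀ n, 1 ≤ Z' n := fun n => one_le_ZB (G n) (c n) (hc n) _ κ hT
    have hZ : ∀ n, TPB.Zpart (G n) A hA ^ (1 / (Fintype.card (V n) : ℝ)) =
        Real.exp ((d : ℝ) / 2 * Real.log M + Real.log (Z' n) / (Fintype.card (V n) : ℝ)) := by
      intro n
      have h1 : 0 < Z' n := lt_of_lt_of_le one_pos (hZ1 n)
      have h2 : 0 < M ^ (TPB.ed (G n) (c n)).card := pow_pos hM _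
      rw [TPB.Zpart_eq (G n) (c n) (hc n) A hA, ZB_scale (G n) (c n) A M hM,
        Real.rpow_def_of_pos (mul_pos h2 h1)]
      congr 1
      rw [Real.log_mul h2.ne' h1.ne', Real.log_pow, hcard n]
      have h3 := (hn n).ne'
      field_simp
    simp only [hZ]
    refine (Real.continuous_exp.tendsto _).comp (tendsto_const_nhds.add ?_)
    rw [Metric.tendsto_atTop]
    intro ε hε
    obtain ⟨J, hJ⟩ := hLam (ε / 2) (by linarith)
    have hev : ∀ᶠ n in atTop, ((2 * (J + 1) + 1 : ℕ) : ℕ∞) ≤ (G n).egirth := by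
      have h1 : ∀ᶠ x in 𝓝 (⊤ : ℕ∞), ((2 * (J + 1) + 1 : ℕ) : ℕ∞) < x :=
        lt_mem_nhds (ENat.natCast_lt_top _)
      exact (hgirth.eventually h1).mono fun n h => h.le
    obtain ⟨n0, hn0⟩ := eventually_atTop.mp hev
    refine ⟨n0, fun n hnn => ?_⟩
    have h1 := hJ (V n) (G n) (c n) (hc n) (hR n)
      (treeTo_of_girth (G n) (c n) (hc n) J (hn0 n hnn))
    have h1' : |Real.log (Z' n) - Lam * (Fintype.card (V n) : ℝ)| ≤
        ε / 2 * (Fintype.card (V n) : ℝ) := h1
    rw [Real.dist_eq]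
    have h2 := hn n
    have h3 : Real.log (Z' n) / (Fintype.card (V n) : ℝ) - Lam =
        (Real.log (Z' n) - Lam * (Fintype.card (V n) : ℝ)) / (Fintype.card (V n) : ℝ) := by
      field_simp
    rw [h3, abs_div, abs_of_pos h2, div_lt_iff₀ h2]
    refine lt_of_le_of_lt h1' ?_
    nlinarith
  · push Not at hz
    have hA0 : ∀ i j, A i j = 0 := fun i j => le_antisymm (hz i j) (h0 i j)
    refine ⟨1, fun d hd => ⟨0, ?_⟩⟩
    intro V _ _ G hreg hbip hgirth
    choose c hc using fun n => TPB.exists_col (G n) (hbip n)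
    have hR : ∀ n, Rgl (G n) d := fun n => TPB.rgl_of (G n) d (hreg n)
    have hn : ∀ n, (0 : ℝ) < Fintype.card (V n) := fun n => by exact_mod_cast Fintype.card_pos
    have hd' : (0 : ℝ) < d := by exact_mod_cast hd
    have hZ : ∀ n, TPB.Zpart (G n) A hA = 0 := by
      intro n
      rw [TPB.Zpart_eq (G n) (c n) (hc n) A hA]
      unfold TPB.ZB TPB.wt
      refine Finset.sum_eq_zero fun σ _ => ?_
      have hpos : 0 < (TPB.ed (G n) (c n)).card := by
        have h1 := TPB.two_card_ed (G n) (c n) (hc n) d (hR n)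
        have h2 := hn n
        have h3 : (0 : ℝ) < ((TPB.ed (G n) (c n)).card : ℝ) := by
          have : 0 < (d : ℝ) * (Fintype.card (V n) : ℝ) := by positivity
          linarith
        exact_mod_cast h3
      obtain ⟨e, he⟩ := Finset.card_pos.mp hpos
      exact Finset.prod_eq_zero he (hA0 _ _)
    refine tendsto_const_nhds.congr fun n => ?_
    rw [hZ n, Real.zero_rpow]
    have := hn n
    positivity

end LD
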