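import Mathlib

/-!
# Abstract polymer gas

`lk x`: closed link neighbourhood of `x`.  `Fam lk U`: families of pairwise compatible nonempty
subsets of `U`.  `Xi lk W U`: partition function.
-/

set_option autoImplicit false

namespace LD

open Finset
open scoped Classical

variable {α : Type*}

/-- Link neighbourhood of a set. -/
noncomputable def nbS (lk : α → Finset α) (g : Finset α) : Finset α := g.biUnion lk

/-- Symmetric reflexive link structure. -/
structure LkOk (lk : α → Finset α) : Prop where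
  refl : ∀ x, x ∈ lk x
  symm : ∀ x y, y ∈ lk x → x ∈ lk y

/-- Families of pairwise compatible nonempty subsets of `U`. -/
noncomputable def Fam (lk : α → Finset α) (U : Finset α) : Finset (Finset (Finset α)) :=
  U.powerset.powerset.filter (fun F => (∀ g ∈ F, g.Nonempty) ∧
    ∀ g ∈ F, ∀ g' ∈ F, g ≠ g' → Disjoint (nbS lk g) g')

/-- Partition function of the gas. -/
noncomputable def Xi (lk : α → Finset α) (W : Finset α → ℝ) (U : Finset α) : ℝ :=
  ∑ F ∈ Fam lk U, ∏ g ∈ F, W g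

lemma mem_Fam {lk : α → Finset α} {U : Finset α} {F : Finset (Finset α)} :
    F ∈ Fam lk U ↔ (∀ g ∈ F, g ⊆ U) ∧ (∀ g ∈ F, g.Nonempty) ∧
      ∀ g ∈ F, ∀ g' ∈ F, g ≠ g' → Disjoint (nbS lk g) g' := by
  unfold Fam
  rw [mem_filter, mem_powerset]
  constructor
  · rintro ⟨h1, h2, h3⟩
    exact ⟨fun g hg => mem_powerset.1 (h1 hg), h2, h3⟩
  · rintro ⟨h1, h2, h3⟩
    exact ⟨fun g hg => mem_powerset.2 (h1 g hg), h2, h3⟩

lemma mem_nbS {lk : α → Finset α} {g : Finset α} {y : α} :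
    y ∈ nbS lk g ↔ ∃ x ∈ g, y ∈ lk x := by
  unfold nbS; rw [mem_biUnion]

lemma subset_nbS {lk : α → Finset α} (hlk : LkOk lk) (g : Finset α) : g ⊆ nbS lk g :=
  fun x hx => mem_nbS.2 ⟨x, hx, hlk.refl x⟩

lemma disj_symm {lk : α → Finset α} (hlk : LkOk lk) {g g' : Finset α}
    (h : Disjoint (nbS lk g) g') : Disjoint (nbS lk g') g := by
  rw [Finset.disjoint_left] at h ⊢
  intro x hx hxg
  obtain ⟨y, hy, hxy⟩ := mem_nbS.1 hx
  exact h (mem_nbS.2 ⟨x, hxg, hlk.symm y x hxy⟩) hy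

lemma Fam_mono {lk : α → Finset α} {U U' : Finset α} (h : U ⊆ U') : Fam lk U ⊆ Fam lk U' := by
  intro F hF
  rw [mem_Fam] at hF ⊢
  exact ⟨fun g hg => (hF.1 g hg).trans h, hF.2⟩

/-- The families containing a fixed set `g₀`. -/
lemma sum_Fam_mem {lk : α → Finset α} (hlk : LkOk lk) (W : Finset α → ℝ) {U g₀ : Finset α}
    (h0 : g₀ ⊆ U) (hn : g₀.Nonempty) :
    ∑ F ∈ (Fam lk U).filter (fun F => g₀ ∈ F), ∏ g ∈ F, W g =
      W g₀ * Xi lk W (U \ nbS lk g₀) := by
  unfold Xi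
  rw [mul_sum]
  refine Finset.sum_bij' (fun F _ => F.erase g₀) (fun F _ => insert g₀ F) ?_ ?_ ?_ ?_ ?_
  · intro F hF
    obtain ⟨hF, hg⟩ := mem_filter.1 hF
    obtain ⟨h1, h2, h3⟩ := mem_Fam.1 hF
    rw [mem_Fam]
    refine ⟨fun g hg' => ?_, fun g hg' => h2 g (mem_of_mem_erase hg'),
      fun g hg' g' hg'' hne => h3 g (mem_of_mem_erase hg') g' (mem_of_mem_erase hg'') hne⟩
    intro x hx
    rw [mem_sdiff]
    refine ⟨h1 g (mem_of_mem_erase hg') hx, fun hx' => ?_⟩
    exact Finset.disjoint_left.1 (h3 g₀ hg g (mem_of_mem_erase hg') (ne_of_mem_erase hg').symm)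
      hx' hx
  · intro F hF
    obtain ⟨h1, h2, h3⟩ := mem_Fam.1 hF
    rw [mem_filter, mem_Fam]
    have hd : ∀ g ∈ F, Disjoint (nbS lk g₀) g := by
      intro g hg
      rw [Finset.disjoint_left]
      intro x hx hxg
      exact (mem_sdiff.1 (h1 g hg hxg)).2 hx
    refine ⟨⟨?_, ?_, ?_⟩, mem_insert_self _ _⟩
    · intro g hg
      rcases mem_insert.1 hg with rfl | hg
      · exact h0
      · exact (h1 g hg).trans sdiff_subset
    · intro g hg
      rcases mem_insert.1 hg with rfl | hg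
      · exact hn
      · exact h2 g hg
    · intro g hg g' hg' hne
      rcases mem_insert.1 hg with e | hg
      · rcases mem_insert.1 hg' with e' | hg'
        · exact absurd (e.trans e'.symm) hne
        · rw [e]; exact hd g' hg'
      · rcases mem_insert.1 hg' with e' | hg'
        · rw [e']; exact disj_symm hlk (hd g hg)
        · exact h3 g hg g' hg' hne
  · intro F hF
    exact insert_erase (mem_filter.1 hF).2
  · intro F hF
    obtain ⟨h1, h2, h3⟩ := mem_Fam.1 hF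
    refine erase_insert (fun hg => ?_)
    obtain ⟨x, hx⟩ := hn
    exact (mem_sdiff.1 (h1 g₀ hg hx)).2 (subset_nbS hlk g₀ hx)
  · intro F hF
    exact (mul_prod_erase F W (mem_filter.1 hF).2).symm

lemma Xi_empty (lk : α → Finset α) (W : Finset α → ℝ) : Xi lk W ∅ = 1 := by
  unfold Xi
  have : Fam lk (∅ : Finset α) = {∅} := by
    ext F
    rw [mem_Fam, mem_singleton]
    constructor
    · rintro ⟨h1, h2, -⟩
      rw [Finset.eq_empty_iff_forall_notMem]
      intro g hg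
      obtain ⟨x, hx⟩ := h2 g hg
      exact absurd (h1 g hg hx) (by simp)
    · rintro rfl
      simp
  rw [this]; simp

/-- Recursion at a vertex. -/
lemma Xi_rec {lk : α → Finset α} (hlk : LkOk lk) (W : Finset α → ℝ) (U : Finset α) (x : α) :
    Xi lk W U = Xi lk W (U.erase x) +
      ∑ g ∈ U.powerset.filter (fun g => x ∈ g), W g * Xi lk W (U \ nbS lk g) := by
  have hsplit : Xi lk W U = ∑ F ∈ (Fam lk U).filter (fun F => ∀ g ∈ F, x ∉ g), ∏ g ∈ F, W g +
      ∑ F ∈ (Fam lk U).filter (fun F => ¬ ∀ g ∈ F, x ∉ g), ∏ g ∈ F, W g := by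
    unfold Xi
    exact (sum_filter_add_sum_filter_not _ _ _).symm
  rw [hsplit]
  congr 1
  · unfold Xi
    refine Finset.sum_congr ?_ (fun _ _ => rfl)
    ext F
    rw [mem_filter, mem_Fam, mem_Fam]
    constructor
    · rintro ⟨⟨h1, h2, h3⟩, h4⟩
      exact ⟨fun g hg y hy => mem_erase.2 ⟨fun h => h4 g hg (h ▸ hy), h1 g hg hy⟩, h2, h3⟩
    · rintro ⟨h1, h2, h3⟩
      exact ⟨⟨fun g hg => (h1 g hg).trans (erase_subset _ _), h2, h3⟩,
        fun g hg hxg => (mem_erase.1 (h1 g hg hxg)).1 rfl⟩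
  · have : ∀ g ∈ U.powerset.filter (fun g => x ∈ g), W g * Xi lk W (U \ nbS lk g) =
        ∑ F ∈ (Fam lk U).filter (fun F => g ∈ F), ∏ g ∈ F, W g := by
      intro g hg
      obtain ⟨hg, hxg⟩ := mem_filter.1 hg
      exact (sum_Fam_mem hlk W (mem_powerset.1 hg) ⟨x, hxg⟩).symm
    rw [Finset.sum_congr rfl this]
    rw [← Finset.sum_biUnion]
    · refine Finset.sum_congr ?_ (fun _ _ => rfl)
      ext F
      rw [mem_filter, mem_biUnion]
      constructor
      · rintro ⟨hF, h⟩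
        push Not at h
        obtain ⟨g, hg, hxg⟩ := h
        refine ⟨g, mem_filter.2 ⟨mem_powerset.2 ((mem_Fam.1 hF).1 g hg), hxg⟩,
          mem_filter.2 ⟨hF, hg⟩⟩
      · rintro ⟨g, hg, hF⟩
        obtain ⟨hF, hgF⟩ := mem_filter.1 hF
        exact ⟨hF, fun h => h g hgF (mem_filter.1 hg).2⟩
    · intro g hg g' hg' hne
      simp only [Function.onFun]
      rw [Finset.disjoint_left]
      intro F hF hF'
      obtain ⟨hF, hgF⟩ := mem_filter.1 hF
      obtain ⟨-, hgF'⟩ := mem_filter.1 hF'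
      have hg := mem_filter.1 (mem_coe.1 hg)
      have hg' := mem_filter.1 (mem_coe.1 hg')
      exact Finset.disjoint_left.1 ((mem_Fam.1 hF).2.2 g hgF g' hgF' hne)
        (subset_nbS hlk g hg.2) hg'.2

lemma Xi_nonneg {lk : α → Finset α} {W : Finset α → ℝ} (hW : ∀ g, 0 ≤ W g) (U : Finset α) :
    0 ≤ Xi lk W U :=
  Finset.sum_nonneg (fun _ _ => Finset.prod_nonneg (fun g _ => hW g))

lemma Xi_mono {lk : α → Finset α} {W : Finset α → ℝ} (hW : ∀ g, 0 ≤ W g) {U U' : Finset α}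
    (h : U ⊆ U') : Xi lk W U ≤ Xi lk W U' :=
  Finset.sum_le_sum_of_subset_of_nonneg (Fam_mono h)
    (fun _ _ _ => Finset.prod_nonneg (fun g _ => hW g))

lemma one_le_Xi {lk : α → Finset α} {W : Finset α → ℝ} (hW : ∀ g, 0 ≤ W g) (U : Finset α) :
    1 ≤ Xi lk W U := by
  rw [← Xi_empty lk W]
  exact Xi_mono hW (empty_subset _)

lemma Xi_pos {lk : α → Finset α} {W : Finset α → ℝ} (hW : ∀ g, 0 ≤ W g) (U : Finset α) :
    0 < Xi lk W U := lt_of_lt_of_le one_pos (one_le_Xi hW U)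

lemma Xi_congr {lk : α → Finset α} {W W' : Finset α → ℝ} {U : Finset α}
    (h : ∀ g, g ⊆ U → g.Nonempty → W g = W' g) : Xi lk W U = Xi lk W' U := by
  unfold Xi
  refine Finset.sum_congr rfl (fun F hF => Finset.prod_congr rfl (fun g hg => ?_))
  exact h g ((mem_Fam.1 hF).1 g hg) ((mem_Fam.1 hF).2.1 g hg)

lemma Xi_le_Xi {lk : α → Finset α} {W W' : Finset α → ℝ} {U : Finset α}
    (h0 : ∀ g, 0 ≤ W g) (h : ∀ g, g ⊆ U → g.Nonempty → W g ≤ W' g) :
    Xi lk W U ≤ Xi lk W' U := by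
  unfold Xi
  refine Finset.sum_le_sum (fun F hF => Finset.prod_le_prod (fun g _ => h0 g) (fun g hg => ?_))
  exact h g ((mem_Fam.1 hF).1 g hg) ((mem_Fam.1 hF).2.1 g hg)

end LD
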