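import Pool.Agent.W_5dd92e_ld.GasA

/-!
# Abstract polymer gas: product bounds
-/

set_option autoImplicit false

namespace LD

open Finset
open scoped Classical

variable {α : Type*}

lemma prod_add_ge {ι : Type*} (I : Finset ι) (a b : ι → ℝ) (ha : ∀ i, 0 ≤ a i)
    (hb : ∀ i, 0 ≤ b i) :
    ∏ i ∈ I, a i + ∑ i ∈ I, b i * ∏ j ∈ I.erase i, a j ≤ ∏ i ∈ I, (a i + b i) := by
  induction I using Finset.induction_on with
  | empty => simp
  | insert k I hk ih =>
    rw [prod_insert hk, prod_insert hk, sum_insert hk, erase_insert hk]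
    have e : ∀ i ∈ I, b i * ∏ j ∈ (insert k I).erase i, a j =
        a k * (b i * ∏ j ∈ I.erase i, a j) := by
      intro i hi
      have hne : k ≠ i := fun h => hk (h ▸ hi)
      rw [erase_insert_of_ne hne, prod_insert (fun h => hk (mem_of_mem_erase h))]
      ring
    rw [sum_congr rfl e, ← mul_sum]
    have h1 : 0 ≤ ∑ i ∈ I, b i * ∏ j ∈ I.erase i, a j :=
      sum_nonneg (fun i _ => mul_nonneg (hb i) (prod_nonneg (fun j _ => ha j)))
    calc a k * ∏ i ∈ I, a i + (b k * ∏ j ∈ I, a j + a k * ∑ i ∈ I, b i * ∏ j ∈ I.erase i, a j)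
        ≤ (a k + b k) * (∏ i ∈ I, a i + ∑ i ∈ I, b i * ∏ j ∈ I.erase i, a j) := by
          nlinarith [mul_nonneg (hb k) h1]
      _ ≤ (a k + b k) * ∏ i ∈ I, (a i + b i) :=
          mul_le_mul_of_nonneg_left ih (add_nonneg (ha k) (hb k))

lemma sdiff_nbS_subset {lk : α → Finset α} (hlk : LkOk lk) {U g : Finset α} {x : α}
    (hx : x ∈ g) : U \ nbS lk g ⊆ U.erase x := by
  intro y hy
  rw [mem_sdiff] at hy
  exact mem_erase.2 ⟨fun h => hy.2 (h ▸ subset_nbS hlk g hx), hy.1⟩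

/-- The partition function of a sum of weights is at most the product. -/
lemma Xi_sum_le_prod {lk : α → Finset α} (hlk : LkOk lk) {ι : Type*} (I : Finset ι)
    (W : Finset α → ℝ) (Wi : ι → Finset α → ℝ) (h0 : ∀ g, 0 ≤ W g) (hi : ∀ i g, 0 ≤ Wi i g)
    (U : Finset α) (h : ∀ g, g ⊆ U → g.Nonempty → W g ≤ ∑ i ∈ I, Wi i g) :
    Xi lk W U ≤ ∏ i ∈ I, Xi lk (Wi i) U := by
  induction hn : #U using Nat.strong_induction_on generalizing U with
  | _ n ih =>
    subst hn
    rcases U.eq_empty_or_nonempty with rfl | ⟨x, hx⟩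
    · simp [Xi_empty]
    rw [Xi_rec hlk W U x]
    have hlt : ∀ g, x ∈ g → #(U \ nbS lk g) < #U := fun g hg =>
      lt_of_le_of_lt (card_le_card (sdiff_nbS_subset hlk hg)) (card_erase_lt_of_mem hx)
    have e1 := ih _ (card_erase_lt_of_mem hx) (U.erase x)
      (fun g hg hne => h g (hg.trans (erase_subset _ _)) hne) rfl
    set a : ι → ℝ := fun i => Xi lk (Wi i) (U.erase x)
    set b : ι → ℝ := fun i => ∑ g ∈ U.powerset.filter (fun g => x ∈ g),
      Wi i g * Xi lk (Wi i) (U \ nbS lk g)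
    have hb : ∀ i, 0 ≤ b i := fun i =>
      sum_nonneg (fun g _ => mul_nonneg (hi i g) (Xi_nonneg (hi i) _))
    have ha : ∀ i, 0 ≤ a i := fun i => Xi_nonneg (hi i) _
    have e2 : ∑ g ∈ U.powerset.filter (fun g => x ∈ g), W g * Xi lk W (U \ nbS lk g) ≤
        ∑ i ∈ I, b i * ∏ j ∈ I.erase i, a j := by
      have : ∑ i ∈ I, b i * ∏ j ∈ I.erase i, a j =
          ∑ g ∈ U.powerset.filter (fun g => x ∈ g), ∑ i ∈ I,
            Wi i g * Xi lk (Wi i) (U \ nbS lk g) * ∏ j ∈ I.erase i, a j := by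
        rw [sum_comm]
        exact sum_congr rfl (fun i _ => by rw [sum_mul])
      rw [this]
      refine sum_le_sum (fun g hg => ?_)
      obtain ⟨hgU, hxg⟩ := mem_filter.1 hg
      have hgU := mem_powerset.1 hgU
      have e3 := ih _ (hlt g hxg) (U \ nbS lk g)
        (fun g' hg' hne => h g' (hg'.trans sdiff_subset) hne) rfl
      calc W g * Xi lk W (U \ nbS lk g)
          ≤ (∑ i ∈ I, Wi i g) * ∏ i ∈ I, Xi lk (Wi i) (U \ nbS lk g) :=
            mul_le_mul (h g hgU ⟨x, hxg⟩) e3 (Xi_nonneg h0 _) (sum_nonneg (fun i _ => hi i g))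
        _ = ∑ i ∈ I, Wi i g * Xi lk (Wi i) (U \ nbS lk g) *
              ∏ j ∈ I.erase i, Xi lk (Wi j) (U \ nbS lk g) := by
            rw [sum_mul]
            refine sum_congr rfl (fun i hi' => ?_)
            rw [← mul_prod_erase I _ hi', mul_assoc]
        _ ≤ _ := by
            refine sum_le_sum (fun i _ => ?_)
            refine mul_le_mul_of_nonneg_left ?_ (mul_nonneg (hi i g) (Xi_nonneg (hi i) _))
            exact prod_le_prod (fun j _ => Xi_nonneg (hi j) _)
              (fun j _ => Xi_mono (hi j) (sdiff_nbS_subset hlk hxg))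
    calc _ ≤ ∏ i ∈ I, a i + ∑ i ∈ I, b i * ∏ j ∈ I.erase i, a j := add_le_add e1 e2
      _ ≤ ∏ i ∈ I, (a i + b i) := prod_add_ge I a b ha hb
      _ = _ := prod_congr rfl (fun i _ => (Xi_rec hlk (Wi i) U x).symm)

lemma Xi_zero {lk : α → Finset α} {W : Finset α → ℝ} {U : Finset α}
    (h : ∀ g, g ⊆ U → g.Nonempty → W g = 0) : Xi lk W U = 1 := by
  unfold Xi
  have h0 : (∅ : Finset (Finset α)) ∈ Fam lk U := by rw [mem_Fam]; simp
  rw [← add_sum_erase _ _ h0, sum_eq_zero, prod_empty, add_zero]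
  intro F hF
  obtain ⟨hne, hF⟩ := mem_erase.1 hF
  obtain ⟨g, hg⟩ := Finset.nonempty_iff_ne_empty.2 hne
  exact prod_eq_zero hg (h g ((mem_Fam.1 hF).1 g hg) ((mem_Fam.1 hF).2.1 g hg))

/-- If every polymer meets `B` and the polymers through a vertex have total weight at most `δ`. -/
lemma Xi_le_pow_cover {lk : α → Finset α} (hlk : LkOk lk) {W : Finset α → ℝ}
    (h0 : ∀ g, 0 ≤ W g) (B : Finset α) (δ : ℝ) (U : Finset α)
    (hB : ∀ g, g ⊆ U → g.Nonempty → W g ≠ 0 → ∃ x ∈ g, x ∈ B)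
    (hδ : ∀ x ∈ B, ∀ U' ⊆ U, ∑ g ∈ U'.powerset.filter (fun g => x ∈ g), W g ≤ δ) :
    Xi lk W U ≤ (1 + δ) ^ #(U ∩ B) := by
  induction hn : #U using Nat.strong_induction_on generalizing U with
  | _ n ih =>
    subst hn
    rcases (U ∩ B).eq_empty_or_nonempty with he | ⟨x, hx⟩
    · rw [he, card_empty, pow_zero, Xi_zero]
      intro g hg hne
      by_contra hW
      obtain ⟨x, hxg, hxB⟩ := hB g hg hne hW
      have : x ∈ U ∩ B := mem_inter.2 ⟨hg hxg, hxB⟩
      rw [he] at this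
      exact absurd this (notMem_empty x)
    · obtain ⟨hxU, hxB⟩ := mem_inter.1 hx
      have hcard : #(U ∩ B) = #(U.erase x ∩ B) + 1 := by
        rw [erase_inter, card_erase_of_mem hx]
        have := card_pos.2 ⟨x, hx⟩
        omega
      have hs := hδ x hxB U subset_rfl
      have hs0 : 0 ≤ δ := le_trans (sum_nonneg (fun g _ => h0 g)) hs
      rw [Xi_rec hlk W U x, hcard, pow_succ]
      have e1 := ih _ (card_erase_lt_of_mem hxU) (U.erase x)
        (fun g hg hne => hB g (hg.trans (erase_subset _ _)) hne)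
        (fun y hy U' hU' => hδ y hy U' (hU'.trans (erase_subset _ _))) rfl
      have e2 : ∑ g ∈ U.powerset.filter (fun g => x ∈ g), W g * Xi lk W (U \ nbS lk g) ≤
          δ * Xi lk W (U.erase x) := by
        calc _ ≤ ∑ g ∈ U.powerset.filter (fun g => x ∈ g), W g * Xi lk W (U.erase x) :=
              sum_le_sum (fun g hg => mul_le_mul_of_nonneg_left
                (Xi_mono h0 (sdiff_nbS_subset hlk (mem_filter.1 hg).2)) (h0 g))
          _ = (∑ g ∈ U.powerset.filter (fun g => x ∈ g), W g) * Xi lk W (U.erase x) := by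
              rw [sum_mul]
          _ ≤ _ := mul_le_mul_of_nonneg_right hs (Xi_nonneg h0 _)
      calc _ ≤ Xi lk W (U.erase x) + δ * Xi lk W (U.erase x) := by linarith
        _ = Xi lk W (U.erase x) * (1 + δ) := by ring
        _ ≤ _ := mul_le_mul_of_nonneg_right e1 (by linarith)

/-- The ratio of removing one vertex. -/
noncomputable def Rt (lk : α → Finset α) (W : Finset α → ℝ) (x : α) (U : Finset α) : ℝ :=
  Xi lk W U / Xi lk W (U.erase x)

lemma one_le_Rt {lk : α → Finset α} {W : Finset α → ℝ} (h0 : ∀ g, 0 ≤ W g) (x : α)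
    (U : Finset α) : 1 ≤ Rt lk W x U := by
  unfold Rt
  rw [one_le_div (Xi_pos h0 _)]
  exact Xi_mono h0 (erase_subset _ _)

lemma Rt_eq {lk : α → Finset α} (hlk : LkOk lk) {W : Finset α → ℝ} (h0 : ∀ g, 0 ≤ W g) (x : α)
    (U : Finset α) : Rt lk W x U = 1 + ∑ g ∈ U.powerset.filter (fun g => x ∈ g),
      W g * (Xi lk W (U \ nbS lk g) / Xi lk W (U.erase x)) := by
  unfold Rt
  have := (Xi_pos (lk := lk) h0 (U.erase x)).ne'
  rw [Xi_rec hlk W U x, add_div, div_self this, sum_div]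
  congr 1
  exact sum_congr rfl (fun g _ => by rw [mul_div_assoc])

lemma Rt_le {lk : α → Finset α} (hlk : LkOk lk) {W : Finset α → ℝ} (h0 : ∀ g, 0 ≤ W g) (x : α)
    (U : Finset α) : Rt lk W x U ≤ 1 + ∑ g ∈ U.powerset.filter (fun g => x ∈ g), W g := by
  rw [Rt_eq hlk h0]
  gcongr with g hg
  have hp := Xi_pos (lk := lk) h0 (U.erase x)
  calc W g * (Xi lk W (U \ nbS lk g) / Xi lk W (U.erase x)) ≤ W g * 1 := by
        refine mul_le_mul_of_nonneg_left ?_ (h0 g)
        rw [div_le_one hp]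
        exact Xi_mono h0 (sdiff_nbS_subset hlk (mem_filter.1 hg).2)
    _ = W g := mul_one _

end LD
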