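import Pool.Agent.W_5dd92e_ld.GasC

/-!
# Locality of the ratios of the gas
-/

set_option autoImplicit false

namespace LD

open Finset
open scoped Classical

variable {α : Type*}

/-- link balls -/
noncomputable def Bk (lk : α → Finset α) : ℕ → α → Finset α
  | 0, x => {x}
  | k + 1, x => (Bk lk k x).biUnion lk

lemma Bk_zero (lk : α → Finset α) (x : α) : Bk lk 0 x = {x} := rfl

lemma Bk_succ (lk : α → Finset α) (k : ℕ) (x : α) : Bk lk (k + 1) x = (Bk lk k x).biUnion lk :=
  rfl

lemma Bk_sub_succ {lk : α → Finset α} (hlk : LkOk lk) (k : ℕ) (x : α) :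
    Bk lk k x ⊆ Bk lk (k + 1) x := by
  rw [Bk_succ]
  exact fun y hy => mem_biUnion.2 ⟨y, hy, hlk.refl y⟩

lemma Bk_mono {lk : α → Finset α} (hlk : LkOk lk) {k k' : ℕ} (h : k ≤ k') (x : α) :
    Bk lk k x ⊆ Bk lk k' x := by
  induction k' with
  | zero => rw [Nat.le_zero.1 h]
  | succ k' ih =>
    rcases Nat.lt_or_ge k (k' + 1) with h1 | h1
    · exact (ih (by omega)).trans (Bk_sub_succ hlk k' x)
    · rw [le_antisymm h h1]

lemma self_mem_Bk {lk : α → Finset α} (hlk : LkOk lk) (k : ℕ) (x : α) : x ∈ Bk lk k x :=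
  Bk_mono hlk (Nat.zero_le k) x (by rw [Bk_zero]; exact mem_singleton_self x)

lemma Bk_trans {lk : α → Finset α} {a b : ℕ} {x y : α} (hy : y ∈ Bk lk a x) :
    Bk lk b y ⊆ Bk lk (a + b) x := by
  induction b with
  | zero =>
    rw [Bk_zero, add_zero]
    intro z hz
    rw [mem_singleton.1 hz]; exact hy
  | succ b ih =>
    rw [← add_assoc, Bk_succ, Bk_succ]
    intro z hz
    obtain ⟨w, hw, hz⟩ := mem_biUnion.1 hz
    exact mem_biUnion.2 ⟨w, ih hw, hz⟩

/-- Hypotheses on the weights. -/
structure Good (lk : α → Finset α) (W : Finset α → ℝ) (κ δ : ℝ) : Prop where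
  lkok : LkOk lk
  nn : ∀ g, 0 ≤ W g
  ball : ∀ g x, x ∈ g → W g ≠ 0 → nbS lk g ⊆ Bk lk (#g) x
  sm : ∀ (x : α) (U : Finset α), ∑ g ∈ U.powerset.filter (fun g => x ∈ g),
    W g * (#(nbS lk g) : ℝ) * κ ^ (#g) ≤ δ
  kap : 1 ≤ κ
  dl : δ ≤ 1

lemma Good.dl0 {lk : α → Finset α} {W : Finset α → ℝ} {κ δ : ℝ} (h : Good lk W κ δ) (x : α) :
    0 ≤ δ := by
  refine le_trans ?_ (h.sm x ∅)
  exact sum_nonneg (fun g _ => mul_nonneg (mul_nonneg (h.nn g) (Nat.cast_nonneg _))
    (pow_nonneg (by linarith [h.kap]) _))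

lemma Rt_pos {lk : α → Finset α} {W : Finset α → ℝ} (h0 : ∀ g, 0 ≤ W g) (x : α)
    (U : Finset α) : 0 < Rt lk W x U := lt_of_lt_of_le one_pos (one_le_Rt h0 x U)

lemma Rt_notMem {lk : α → Finset α} {W : Finset α → ℝ} (h0 : ∀ g, 0 ≤ W g) {x : α}
    {U : Finset α} (hx : x ∉ U) : Rt lk W x U = 1 := by
  unfold Rt
  rw [erase_eq_of_notMem hx, div_self (Xi_pos h0 U).ne']

lemma log_Xi_erase {lk : α → Finset α} {W : Finset α → ℝ} (h0 : ∀ g, 0 ≤ W g) (x : α)
    (U : Finset α) : Real.log (Xi lk W U) - Real.log (Xi lk W (U.erase x)) =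
      Real.log (Rt lk W x U) := by
  unfold Rt
  rw [Real.log_div (Xi_pos h0 U).ne' (Xi_pos h0 _).ne']

/-- removing a set, one vertex after the other -/
lemma log_diff_sdiff {lk : α → Finset α} {W : Finset α → ℝ} (h0 : ∀ g, 0 ≤ W g) (ε : ℝ)
    (U U' Y : Finset α)
    (h : ∀ y ∈ Y, ∀ Y' : Finset α, |Real.log (Rt lk W y (U \ Y')) -
      Real.log (Rt lk W y (U' \ Y'))| ≤ ε) :
    |(Real.log (Xi lk W U) - Real.log (Xi lk W (U \ Y))) -
      (Real.log (Xi lk W U') - Real.log (Xi lk W (U' \ Y)))| ≤ #Y * ε := by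
  induction Y using Finset.induction_on with
  | empty => simp
  | insert y Y hy ih =>
    have h1 := ih (fun y' hy' => h y' (mem_insert_of_mem hy'))
    have h2 := h y (mem_insert_self y Y) Y
    have e : ∀ T : Finset α, T \ insert y Y = (T \ Y).erase y := by
      intro T; ext z; simp only [mem_sdiff, mem_insert, mem_erase]; tauto
    have h3 := log_Xi_erase (lk := lk) h0 y (U \ Y)
    have h4 := log_Xi_erase (lk := lk) h0 y (U' \ Y)
    rw [card_insert_of_notMem hy, e, e]
    push_cast
    rw [abs_le] at h1 h2 ⊢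
    constructor <;> linarith [h1.1, h1.2, h2.1, h2.2]

lemma abs_exp_neg_sub {a b : ℝ} (ha : 0 ≤ a) (hb : 0 ≤ b) :
    |Real.exp (-a) - Real.exp (-b)| ≤ |a - b| := by
  have key : ∀ a b : ℝ, 0 ≤ a → a ≤ b → Real.exp (-a) - Real.exp (-b) ≤ b - a := by
    intro a b ha hab
    have h1 : Real.exp (-b) = Real.exp (-a) * Real.exp (a - b) := by
      rw [← Real.exp_add]; congr 1; ring
    have h2 := Real.add_one_le_exp (a - b)
    have h3 : Real.exp (-a) ≤ 1 := by
      rw [← Real.exp_zero]; exact Real.exp_le_exp.2 (by linarith)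
    have h4 := Real.exp_pos (-a)
    rw [h1]
    nlinarith
  rcases le_total a b with hab | hab
  · have h1 := key a b ha hab
    have h2 : Real.exp (-b) ≤ Real.exp (-a) := Real.exp_le_exp.2 (by linarith)
    rw [abs_of_nonneg (by linarith), abs_sub_comm, abs_of_nonneg (by linarith)]
    exact h1
  · have h1 := key b a hb hab
    have h2 : Real.exp (-a) ≤ Real.exp (-b) := Real.exp_le_exp.2 (by linarith)
    rw [abs_sub_comm, abs_of_nonneg (by linarith), abs_of_nonneg (by linarith)]
    exact h1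

lemma abs_log_sub_le {a b : ℝ} (ha : 1 ≤ a) (hb : 1 ≤ b) :
    |Real.log a - Real.log b| ≤ |a - b| := by
  have key : ∀ a b : ℝ, 1 ≤ a → a ≤ b → Real.log b - Real.log a ≤ b - a := by
    intro a b ha hab
    have ha0 : 0 < a := by linarith
    have hb0 : 0 < b := by linarith
    rw [← Real.log_div (by linarith) (by linarith)]
    have h1 := Real.log_le_sub_one_of_pos (x := b / a) (div_pos hb0 ha0)
    have h2 : b / a - 1 = (b - a) / a := by field_simp
    have h3 : (b - a) / a ≤ b - a := div_le_self (by linarith) ha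
    linarith
  rcases le_total a b with hab | hab
  · have h1 := key a b ha hab
    have h2 : Real.log a ≤ Real.log b := Real.log_le_log (by linarith) hab
    rw [abs_sub_comm, abs_of_nonneg (by linarith), abs_sub_comm, abs_of_nonneg (by linarith)]
    exact h1
  · have h1 := key b a hb hab
    have h2 : Real.log b ≤ Real.log a := Real.log_le_log (by linarith) hab
    rw [abs_of_nonneg (by linarith), abs_of_nonneg (by linarith)]
    exact h1

/-- the ratio of the numerator term -/
noncomputable def qq (lk : α → Finset α) (W : Finset α → ℝ) (x : α) (U g : Finset α) : ℝ :=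
  if g ⊆ U then Xi lk W (U \ nbS lk g) / Xi lk W (U.erase x) else 0

lemma qq_nonneg {lk : α → Finset α} {W : Finset α → ℝ} (h0 : ∀ g, 0 ≤ W g) (x : α)
    (U g : Finset α) : 0 ≤ qq lk W x U g := by
  unfold qq
  split_ifs
  · exact div_nonneg (Xi_nonneg h0 _) (Xi_nonneg h0 _)
  · exact le_rfl

lemma qq_le_one {lk : α → Finset α} (hlk : LkOk lk) {W : Finset α → ℝ} (h0 : ∀ g, 0 ≤ W g)
    {x : α} {U g : Finset α} (hx : x ∈ g) : qq lk W x U g ≤ 1 := by
  unfold qq
  split_ifs
  · rw [div_le_one (Xi_pos h0 _)]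
    exact Xi_mono h0 (sdiff_nbS_subset hlk hx)
  · exact zero_le_one

lemma Rt_eq_qq {lk : α → Finset α} (hlk : LkOk lk) {W : Finset α → ℝ} (h0 : ∀ g, 0 ≤ W g)
    (x : α) {U T : Finset α} (hT : U ⊆ T) : Rt lk W x U =
      1 + ∑ g ∈ T.powerset.filter (fun g => x ∈ g), W g * qq lk W x U g := by
  rw [Rt_eq hlk h0]
  congr 1
  have hsub : U.powerset.filter (fun g => x ∈ g) ⊆ T.powerset.filter (fun g => x ∈ g) := by
    intro g hg
    obtain ⟨h1, h2⟩ := mem_filter.1 hg
    exact mem_filter.2 ⟨mem_powerset.2 ((mem_powerset.1 h1).trans hT), h2⟩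
  rw [← sum_subset hsub]
  · refine sum_congr rfl (fun g hg => ?_)
    unfold qq
    rw [if_pos (mem_powerset.1 (mem_filter.1 hg).1)]
  · intro g hg hg'
    unfold qq
    rw [if_neg, mul_zero]
    intro h
    exact hg' (mem_filter.2 ⟨mem_powerset.2 h, (mem_filter.1 hg).2⟩)

theorem Rt_local {lk : α → Finset α} {W : Finset α → ℝ} {κ δ : ℝ} (H : Good lk W κ δ)
    (U U' : Finset α) (x : α) (k : ℕ) (h : ∀ y ∈ Bk lk k x, y ∈ U ↔ y ∈ U') :
    |Real.log (Rt lk W x U) - Real.log (Rt lk W x U')| ≤ δ / κ ^ k := by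
  induction hn : #U + #U' using Nat.strong_induction_on generalizing U U' x k with
  | _ n ih =>
    subst hn
    have hδ0 := H.dl0 x
    have hκ0 : 0 < κ := by linarith [H.kap]
    by_cases hx : x ∈ U
    swap
    · have hx' : x ∉ U' := fun h' => hx ((h x (self_mem_Bk H.lkok k x)).2 h')
      rw [Rt_notMem H.nn hx, Rt_notMem H.nn hx', sub_self, abs_zero]
      positivity
    have hx' : x ∈ U' := (h x (self_mem_Bk H.lkok k x)).1 hx
    refine (abs_log_sub_le (one_le_Rt H.nn x U) (one_le_Rt H.nn x U')).trans ?_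
    set T := U ∪ U' with hT
    rw [Rt_eq_qq H.lkok H.nn x (T := T) subset_union_left,
      Rt_eq_qq H.lkok H.nn x (T := T) subset_union_right, add_sub_add_left_eq_sub,
      ← sum_sub_distrib]
    refine (abs_sum_le_sum_abs _ _).trans ?_
    have hsm : (∑ g ∈ T.powerset.filter (fun g => x ∈ g),
        W g * (#(nbS lk g) : ℝ) * κ ^ (#g)) / κ ^ k ≤ δ / κ ^ k := by
      gcongr
      exact H.sm x T
    refine le_trans ?_ hsm
    rw [sum_div]
    refine sum_le_sum (fun g hg => ?_)
    have hxg := (mem_filter.1 hg).2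
    rw [← mul_sub, abs_mul, abs_of_nonneg (H.nn g), mul_assoc, mul_div_assoc]
    rcases eq_or_ne (W g) 0 with hW | hW
    · rw [hW]; simp
    refine mul_le_mul_of_nonneg_left ?_ (H.nn g)
    have hball := H.ball g x hxg hW
    have hcard1 : (1 : ℝ) ≤ #(nbS lk g) := by
      exact_mod_cast card_pos.2 ⟨x, subset_nbS H.lkok g hxg⟩
    rcases Nat.lt_or_ge k (#g) with hk | hk
    · -- large polymers
      have h1 : |qq lk W x U g - qq lk W x U' g| ≤ 1 := by
        have a1 := qq_nonneg (lk := lk) H.nn x U g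
        have a2 := qq_nonneg (lk := lk) H.nn x U' g
        have a3 := qq_le_one (U := U) H.lkok H.nn hxg
        have a4 := qq_le_one (U := U') H.lkok H.nn hxg
        rw [abs_le]; constructor <;> linarith
      refine h1.trans ?_
      rw [one_le_div (by positivity)]
      calc κ ^ k ≤ κ ^ (#g) := pow_le_pow_right₀ H.kap hk.le
        _ = 1 * κ ^ (#g) := (one_mul _).symm
        _ ≤ _ := mul_le_mul_of_nonneg_right hcard1 (by positivity)
    · -- small polymers
      have hballk : nbS lk g ⊆ Bk lk k x := hball.trans (Bk_mono H.lkok hk x)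
      have hgk : g ⊆ Bk lk k x := (subset_nbS H.lkok g).trans hballk
      have hiff : g ⊆ U ↔ g ⊆ U' := by
        constructor
        · intro hs y hy; exact (h y (hgk hy)).1 (hs hy)
        · intro hs y hy; exact (h y (hgk hy)).2 (hs hy)
      by_cases hgU : g ⊆ U
      swap
      · unfold qq
        rw [if_neg hgU, if_neg (fun h' => hgU (hiff.2 h')), sub_zero, abs_zero]
        positivity
      have hgU' := hiff.1 hgU
      have e1 : ∀ S : Finset α, S \ nbS lk g = (S.erase x) \ nbS lk g := by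
        intro S; ext z
        simp only [mem_sdiff, mem_erase]
        constructor
        · rintro ⟨a, b⟩
          exact ⟨⟨fun hz => b (hz ▸ subset_nbS H.lkok g hxg), a⟩, b⟩
        · rintro ⟨⟨_, a⟩, b⟩; exact ⟨a, b⟩
      have e2 : ∀ S : Finset α, g ⊆ S → qq lk W x S g = Real.exp (-(Real.log (Xi lk W (S.erase x)) -
          Real.log (Xi lk W ((S.erase x) \ nbS lk g)))) := by
        intro S hS
        unfold qq
        rw [if_pos hS, e1 S, neg_sub, Real.exp_sub, Real.exp_log (Xi_pos H.nn _),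
          Real.exp_log (Xi_pos H.nn _)]
      have e3 : ∀ S : Finset α, 0 ≤ Real.log (Xi lk W (S.erase x)) -
          Real.log (Xi lk W ((S.erase x) \ nbS lk g)) := by
        intro S
        have := Real.log_le_log (Xi_pos H.nn _) (Xi_mono (lk := lk) H.nn
          (sdiff_subset : (S.erase x) \ nbS lk g ⊆ S.erase x))
        linarith
      rw [e2 U hgU, e2 U' hgU']
      refine (abs_exp_neg_sub (e3 U) (e3 U')).trans ?_
      have e4 := log_diff_sdiff (lk := lk) H.nn (δ / κ ^ (k - #g)) (U.erase x) (U'.erase x)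
        (nbS lk g) (by
          intro y hy Y'
          have c1 : #(U.erase x \ Y') ≤ #(U.erase x) := card_le_card sdiff_subset
          have c2 : #(U'.erase x \ Y') ≤ #(U'.erase x) := card_le_card sdiff_subset
          have c3 := card_erase_lt_of_mem hx
          have c4 := card_erase_lt_of_mem hx'
          refine ih _ (by omega) _ _ y (k - #g) ?_ rfl
          intro z hz
          have hz' : z ∈ Bk lk k x := by
            have := Bk_trans (lk := lk) (b := k - #g) (hball hy) hz
            rwa [Nat.add_sub_cancel' hk] at this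
          have := h z hz'
          simp only [mem_sdiff, mem_erase]
          tauto)
      refine e4.trans ?_
      rw [mul_div_assoc]
      refine mul_le_mul_of_nonneg_left ?_ (Nat.cast_nonneg _)
      rw [div_le_div_iff₀ (by positivity) (by positivity)]
      calc δ * κ ^ k ≤ 1 * κ ^ k := mul_le_mul_of_nonneg_right H.dl (by positivity)
        _ = κ ^ (#g) * κ ^ (k - #g) := by rw [one_mul, ← pow_add, Nat.add_sub_cancel' hk]

end LD
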