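import Pool.Agent.W_5dd92e_ld.GasD

/-!
# The free energy as a sum of local terms
-/

set_option autoImplicit false

namespace LD

open Finset MeasureTheory
open scoped Classical

variable {α : Type*}

/-- Weights with activity `z`. -/
noncomputable def Wz (W : Finset α → ℝ) (z : ℝ) (g : Finset α) : ℝ := z ^ #g * W g

lemma Wz_nonneg {W : Finset α → ℝ} (h0 : ∀ g, 0 ≤ W g) {z : ℝ} (hz : 0 ≤ z) (g : Finset α) :
    0 ≤ Wz W z g := mul_nonneg (pow_nonneg hz _) (h0 g)

lemma Wz_one (W : Finset α → ℝ) : Wz W 1 = W := by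
  funext g; unfold Wz; simp

lemma Xi_Wz_zero (lk : α → Finset α) (W : Finset α → ℝ) (U : Finset α) :
    Xi lk (Wz W 0) U = 1 := by
  refine Xi_zero (fun g _ hg => ?_)
  unfold Wz
  rw [zero_pow (card_pos.2 hg).ne', zero_mul]

/-- The size of a family. -/
noncomputable def szF (F : Finset (Finset α)) : ℕ := ∑ g ∈ F, #g

lemma prod_Wz (W : Finset α → ℝ) (z : ℝ) (F : Finset (Finset α)) :
    ∏ g ∈ F, Wz W z g = z ^ szF F * ∏ g ∈ F, W g := by
  unfold Wz szF
  rw [prod_mul_distrib, prod_pow_eq_pow_sum]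

lemma Xi_Wz_eq (lk : α → Finset α) (W : Finset α → ℝ) (z : ℝ) (U : Finset α) :
    Xi lk (Wz W z) U = ∑ F ∈ Fam lk U, z ^ szF F * ∏ g ∈ F, W g := by
  unfold Xi
  exact sum_congr rfl (fun F _ => prod_Wz W z F)

lemma Xi_Wz_continuous (lk : α → Finset α) (W : Finset α → ℝ) (U : Finset α) :
    Continuous (fun z => Xi lk (Wz W z) U) := by
  have : (fun z => Xi lk (Wz W z) U) = fun z => ∑ F ∈ Fam lk U, z ^ szF F * ∏ g ∈ F, W g := by
    funext z; exact Xi_Wz_eq lk W z U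
  rw [this]
  fun_prop

/-- The local density at activity `z`. -/
noncomputable def pcn (lk : α → Finset α) (W : Finset α → ℝ) (U : Finset α) (x : α) (z : ℝ) : ℝ :=
  ∑ g ∈ U.powerset.filter (fun g => x ∈ g), z ^ (#g - 1) * W g * Xi lk (Wz W z) (U \ nbS lk g)

noncomputable def pc (lk : α → Finset α) (W : Finset α → ℝ) (U : Finset α) (x : α) (z : ℝ) : ℝ :=
  pcn lk W U x z / Xi lk (Wz W z) U

lemma pcn_continuous (lk : α → Finset α) (W : Finset α → ℝ) (U : Finset α) (x : α) :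
    Continuous (pcn lk W U x) := by
  unfold pcn
  refine continuous_finsetSum _ (fun g _ => ?_)
  exact ((continuous_pow _).mul continuous_const).mul (Xi_Wz_continuous lk W _)

lemma pc_continuousOn {lk : α → Finset α} {W : Finset α → ℝ} (h0 : ∀ g, 0 ≤ W g)
    (U : Finset α) (x : α) : ContinuousOn (pc lk W U x) (Set.Icc 0 1) := by
  unfold pc
  refine ContinuousOn.div (pcn_continuous lk W U x).continuousOn
    (Xi_Wz_continuous lk W U).continuousOn (fun z hz => ?_)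
  exact (Xi_pos (Wz_nonneg h0 hz.1) U).ne'

lemma mul_pcn {lk : α → Finset α} (hlk : LkOk lk) (W : Finset α → ℝ) (U : Finset α) (x : α)
    (z : ℝ) : z * pcn lk W U x z = Xi lk (Wz W z) U - Xi lk (Wz W z) (U.erase x) := by
  rw [Xi_rec hlk (Wz W z) U x, add_sub_cancel_left]
  unfold pcn
  rw [mul_sum]
  refine sum_congr rfl (fun g hg => ?_)
  have hxg := (mem_filter.1 hg).2
  have hc : #g = (#g - 1) + 1 := by
    have := card_pos.2 ⟨x, hxg⟩; omega
  have : z ^ #g = z * z ^ (#g - 1) := by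
    conv_lhs => rw [hc, pow_succ]
    ring
  unfold Wz
  rw [this]
  ring

lemma szF_eq {lk : α → Finset α} (hlk : LkOk lk) {U : Finset α} {F : Finset (Finset α)}
    (hF : F ∈ Fam lk U) : (szF F : ℝ) = ∑ x ∈ U, if x ∈ F.biUnion id then (1 : ℝ) else 0 := by
  obtain ⟨h1, h2, h3⟩ := mem_Fam.1 hF
  have hsz : szF F = #(F.biUnion id) := by
    unfold szF
    rw [card_biUnion]
    · rfl
    · intro g hg g' hg' hne
      refine Finset.disjoint_of_subset_left ?_ (h3 g hg g' hg' hne)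
      exact subset_nbS hlk g
  rw [← sum_filter, sum_const, nsmul_eq_mul, mul_one, hsz]
  congr 2
  ext y
  rw [mem_filter]
  constructor
  · intro hy
    refine ⟨?_, hy⟩
    obtain ⟨g, hg, hyg⟩ := mem_biUnion.1 hy
    exact h1 g hg hyg
  · exact fun hy => hy.2

lemma hasDerivAt_Xi {lk : α → Finset α} (hlk : LkOk lk) (W : Finset α → ℝ) (U : Finset α)
    {z : ℝ} (hz : 0 < z) :
    HasDerivAt (fun z => Xi lk (Wz W z) U) (∑ x ∈ U, pcn lk W U x z) z := by
  have e0 : (fun z => Xi lk (Wz W z) U) = fun z => ∑ F ∈ Fam lk U, z ^ szF F * ∏ g ∈ F, W g := by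
    funext z; exact Xi_Wz_eq lk W z U
  rw [e0]
  have e1 : HasDerivAt (fun z : ℝ => ∑ F ∈ Fam lk U, z ^ szF F * ∏ g ∈ F, W g)
      (∑ F ∈ Fam lk U, ((szF F : ℝ) * z ^ (szF F - 1)) * ∏ g ∈ F, W g) z := by
    refine HasDerivAt.fun_sum (fun F _ => ?_)
    exact (hasDerivAt_pow (szF F) z).mul_const _
  convert e1 using 1
  have hmul : z * ∑ x ∈ U, pcn lk W U x z =
      z * ∑ F ∈ Fam lk U, ((szF F : ℝ) * z ^ (szF F - 1)) * ∏ g ∈ F, W g := by
    rw [mul_sum, mul_sum]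
    have e2 : ∀ F ∈ Fam lk U, z * (((szF F : ℝ) * z ^ (szF F - 1)) * ∏ g ∈ F, W g) =
        ∑ x ∈ U, if x ∈ F.biUnion id then ∏ g ∈ F, Wz W z g else 0 := by
      intro F hF
      have e3 : z * ((szF F : ℝ) * z ^ (szF F - 1)) = (szF F : ℝ) * z ^ szF F := by
        rcases Nat.eq_zero_or_pos (szF F) with h | h
        · rw [h]; simp
        · have : z ^ szF F = z * z ^ (szF F - 1) := by
            conv_lhs => rw [show szF F = (szF F - 1) + 1 by omega, pow_succ]
            ring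
          rw [this]; ring
      rw [← mul_assoc, e3, prod_Wz, szF_eq hlk hF, sum_mul, sum_mul]
      refine sum_congr rfl (fun x _ => ?_)
      split_ifs
      · ring
      · ring
    rw [sum_congr rfl e2, sum_comm]
    refine sum_congr rfl (fun x hx => ?_)
    rw [mul_pcn hlk, Xi_rec hlk (Wz W z) U x, add_sub_cancel_left, ← sum_filter]
    -- families containing x
    have : ∀ g ∈ U.powerset.filter (fun g => x ∈ g), Wz W z g * Xi lk (Wz W z) (U \ nbS lk g) =
        ∑ F ∈ (Fam lk U).filter (fun F => g ∈ F), ∏ g ∈ F, Wz W z g := by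
      intro g hg
      obtain ⟨hg, hxg⟩ := mem_filter.1 hg
      exact (sum_Fam_mem hlk (Wz W z) (mem_powerset.1 hg) ⟨x, hxg⟩).symm
    rw [Finset.sum_congr rfl this, ← Finset.sum_biUnion]
    · refine Finset.sum_congr ?_ (fun _ _ => rfl)
      ext F
      rw [mem_filter, mem_biUnion]
      constructor
      · rintro ⟨g, hg, hF⟩
        obtain ⟨hF, hgF⟩ := mem_filter.1 hF
        exact ⟨hF, mem_biUnion.2 ⟨g, hgF, (mem_filter.1 hg).2⟩⟩
      · rintro ⟨hF, h⟩
        obtain ⟨g, hg, hxg⟩ := mem_biUnion.1 h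
        exact ⟨g, mem_filter.2 ⟨mem_powerset.2 ((mem_Fam.1 hF).1 g hg), hxg⟩,
          mem_filter.2 ⟨hF, hg⟩⟩
    · intro g hg g' hg' hne
      simp only [Function.onFun]
      rw [Finset.disjoint_left]
      intro F hF hF'
      obtain ⟨hF, hgF⟩ := mem_filter.1 hF
      obtain ⟨-, hgF'⟩ := mem_filter.1 hF'
      have hg := mem_filter.1 (mem_coe.1 hg)
      have hg' := mem_filter.1 (mem_coe.1 hg')
      exact Finset.disjoint_left.1 ((mem_Fam.1 hF).2.2 g hgF g' hgF' hne)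
        (subset_nbS hlk g hg.2) hg'.2
  exact mul_left_cancel₀ hz.ne' hmul

/-- The local free energy. -/
noncomputable def phi (lk : α → Finset α) (W : Finset α → ℝ) (U : Finset α) (x : α) : ℝ :=
  ∫ z in (0:ℝ)..1, pc lk W U x z

lemma pc_integrable {lk : α → Finset α} {W : Finset α → ℝ} (h0 : ∀ g, 0 ≤ W g)
    (U : Finset α) (x : α) : IntervalIntegrable (pc lk W U x) volume 0 1 := by
  refine ContinuousOn.intervalIntegrable ?_
  rw [Set.uIcc_of_le zero_le_one]
  exact pc_continuousOn h0 U x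

theorem log_Xi_eq {lk : α → Finset α} (hlk : LkOk lk) {W : Finset α → ℝ} (h0 : ∀ g, 0 ≤ W g)
    (U : Finset α) : Real.log (Xi lk W U) = ∑ x ∈ U, phi lk W U x := by
  unfold phi
  rw [← intervalIntegral.integral_finsetSum (fun x _ => pc_integrable h0 U x)]
  have h1 : ∫ z in (0:ℝ)..1, ∑ x ∈ U, pc lk W U x z =
      Real.log (Xi lk (Wz W 1) U) - Real.log (Xi lk (Wz W 0) U) := by
    refine intervalIntegral.integral_eq_sub_of_hasDerivAt_of_le
      (f := fun z => Real.log (Xi lk (Wz W z) U)) zero_le_one ?_ ?_ ?_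
    · refine ContinuousOn.log (Xi_Wz_continuous lk W U).continuousOn (fun z hz => ?_)
      exact (Xi_pos (Wz_nonneg h0 hz.1) U).ne'
    · intro z hz
      have h2 := (hasDerivAt_Xi hlk W U hz.1).log (Xi_pos (Wz_nonneg h0 hz.1.le) U).ne'
      have h3 : ∑ x ∈ U, pc lk W U x z = (∑ x ∈ U, pcn lk W U x z) / Xi lk (Wz W z) U := by
        unfold pc
        rw [sum_div]
      rw [h3]
      exact h2
    · have : (fun z => ∑ x ∈ U, pc lk W U x z) = ∑ x ∈ U, pc lk W U x := by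
        funext z; simp
      rw [this]
      exact IntervalIntegrable.sum _ (fun x _ => pc_integrable h0 U x)
  rw [h1, Wz_one, Xi_Wz_zero, Real.log_one, sub_zero]

lemma Good.scale {lk : α → Finset α} {W : Finset α → ℝ} {κ δ : ℝ} (H : Good lk W κ δ)
    {z : ℝ} (hz : 0 ≤ z) (hz1 : z ≤ 1) : Good lk (Wz W z) κ (z * δ) := by
  have hκ : 0 ≤ κ := by linarith [H.kap]
  refine ⟨H.lkok, Wz_nonneg H.nn hz, ?_, ?_, H.kap, ?_⟩
  · intro g x hx hW
    refine H.ball g x hx (fun h => hW ?_)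
    unfold Wz; rw [h, mul_zero]
  · intro x U
    refine le_trans ?_ (mul_le_mul_of_nonneg_left (H.sm x U) hz)
    rw [mul_sum]
    refine sum_le_sum (fun g hg => ?_)
    have hxg := (mem_filter.1 hg).2
    have hc : 1 ≤ #g := card_pos.2 ⟨x, hxg⟩
    have h1 : z ^ #g ≤ z := by
      calc z ^ #g ≤ z ^ 1 := pow_le_pow_of_le_one hz hz1 hc
        _ = z := pow_one z
    unfold Wz
    calc z ^ #g * W g * (#(nbS lk g) : ℝ) * κ ^ #g
        = z ^ #g * (W g * (#(nbS lk g) : ℝ) * κ ^ #g) := by ring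
      _ ≤ z * (W g * (#(nbS lk g) : ℝ) * κ ^ #g) := by
          refine mul_le_mul_of_nonneg_right h1 ?_
          exact mul_nonneg (mul_nonneg (H.nn g) (Nat.cast_nonneg _)) (pow_nonneg hκ _)
  · rcases isEmpty_or_nonempty α with hα | ⟨⟨x⟩⟩
    · by_cases hδ : 0 ≤ δ
      · calc z * δ ≤ 1 * δ := mul_le_mul_of_nonneg_right hz1 hδ
          _ ≤ 1 := by rw [one_mul]; exact H.dl
      · push Not at hδ
        nlinarith
    · calc z * δ ≤ 1 * δ := mul_le_mul_of_nonneg_right hz1 (H.dl0 x)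
        _ ≤ 1 := by rw [one_mul]; exact H.dl

lemma pc_eq {lk : α → Finset α} (hlk : LkOk lk) {W : Finset α → ℝ} (h0 : ∀ g, 0 ≤ W g)
    (U : Finset α) (x : α) {z : ℝ} (hz : 0 < z) :
    z * pc lk W U x z = 1 - Real.exp (-Real.log (Rt lk (Wz W z) x U)) := by
  have hW := Wz_nonneg h0 hz.le
  have h1 := Xi_pos (lk := lk) hW U
  have h2 := Xi_pos (lk := lk) hW (U.erase x)
  unfold pc
  rw [Real.exp_neg, Real.exp_log (Rt_pos hW x U), ← mul_div_assoc, mul_pcn hlk]
  unfold Rt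
  field_simp

lemma pc_nonneg {lk : α → Finset α} {W : Finset α → ℝ} (h0 : ∀ g, 0 ≤ W g)
    (U : Finset α) (x : α) {z : ℝ} (hz : 0 ≤ z) : 0 ≤ pc lk W U x z := by
  have hW := Wz_nonneg h0 hz
  unfold pc pcn
  refine div_nonneg (sum_nonneg (fun g _ => ?_)) (Xi_nonneg hW U)
  exact mul_nonneg (mul_nonneg (pow_nonneg hz _) (h0 g)) (Xi_nonneg hW _)

lemma pc_le {lk : α → Finset α} {W : Finset α → ℝ} {κ δ : ℝ} (H : Good lk W κ δ)
    (U : Finset α) (x : α) {z : ℝ} (hz : 0 ≤ z) (hz1 : z ≤ 1) : pc lk W U x z ≤ δ := by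
  have hW := Wz_nonneg H.nn hz
  have hκ : 0 ≤ κ := by linarith [H.kap]
  unfold pc pcn
  rw [div_le_iff₀ (Xi_pos hW U)]
  refine le_trans ?_ (mul_le_mul_of_nonneg_right (H.sm x U) (Xi_nonneg (lk := lk) hW U))
  rw [sum_mul]
  refine sum_le_sum (fun g hg => ?_)
  have hxg := (mem_filter.1 hg).2
  have h1 : z ^ (#g - 1) ≤ 1 := pow_le_one₀ hz hz1
  have h2 : (1 : ℝ) ≤ #(nbS lk g) := by
    exact_mod_cast card_pos.2 ⟨x, subset_nbS H.lkok g hxg⟩
  have h3 : (1 : ℝ) ≤ κ ^ #g := one_le_pow₀ H.kap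
  have h4 : (1 : ℝ) ≤ #(nbS lk g) * κ ^ #g := one_le_mul_of_one_le_of_one_le h2 h3
  calc z ^ (#g - 1) * W g * Xi lk (Wz W z) (U \ nbS lk g)
      ≤ (1 * W g) * Xi lk (Wz W z) U :=
        mul_le_mul (mul_le_mul_of_nonneg_right h1 (H.nn g)) (Xi_mono hW sdiff_subset)
          (Xi_nonneg hW _) (by rw [one_mul]; exact H.nn g)
    _ ≤ (W g * (#(nbS lk g) : ℝ) * κ ^ #g) * Xi lk (Wz W z) U := by
        refine mul_le_mul_of_nonneg_right ?_ (Xi_nonneg hW _)
        rw [one_mul, mul_assoc]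
        exact le_mul_of_one_le_right (H.nn g) h4

lemma pc_local {lk : α → Finset α} {W : Finset α → ℝ} {κ δ : ℝ} (H : Good lk W κ δ)
    (U U' : Finset α) (x : α) (k : ℕ) (h : ∀ y ∈ Bk lk k x, y ∈ U ↔ y ∈ U')
    {z : ℝ} (hz : 0 < z) (hz1 : z ≤ 1) :
    |pc lk W U x z - pc lk W U' x z| ≤ δ / κ ^ k := by
  have Hz := H.scale hz.le hz1
  have hκ : 0 < κ := by linarith [H.kap]
  have h1 := Rt_local Hz U U' x k h
  have e1 := pc_eq H.lkok H.nn U x hz
  have e2 := pc_eq H.lkok H.nn U' x hz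
  have hl : ∀ S : Finset α, 0 ≤ Real.log (Rt lk (Wz W z) x S) := fun S =>
    Real.log_nonneg (one_le_Rt Hz.nn x S)
  have h2 : |z * (pc lk W U x z - pc lk W U' x z)| ≤ z * δ / κ ^ k := by
    rw [mul_sub, e1, e2, sub_sub_sub_cancel_left, abs_sub_comm]
    exact (abs_exp_neg_sub (hl U) (hl U')).trans h1
  rw [abs_mul, abs_of_pos hz, mul_div_assoc] at h2
  exact le_of_mul_le_mul_left h2 hz

lemma phi_nonneg {lk : α → Finset α} {W : Finset α → ℝ} (h0 : ∀ g, 0 ≤ W g)
    (U : Finset α) (x : α) : 0 ≤ phi lk W U x := by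
  unfold phi
  exact intervalIntegral.integral_nonneg zero_le_one (fun z hz => pc_nonneg h0 U x hz.1)

lemma phi_le {lk : α → Finset α} {W : Finset α → ℝ} {κ δ : ℝ} (H : Good lk W κ δ)
    (U : Finset α) (x : α) : phi lk W U x ≤ δ := by
  unfold phi
  have h1 := intervalIntegral.integral_mono_on (μ := volume) (a := (0:ℝ)) (b := 1) zero_le_one
    (pc_integrable H.nn U x) (intervalIntegrable_const (c := δ))
    (fun z hz => pc_le H U x hz.1 hz.2)
  simpa using h1

theorem phi_local {lk : α → Finset α} {W : Finset α → ℝ} {κ δ : ℝ} (H : Good lk W κ δ)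
    (U U' : Finset α) (x : α) (k : ℕ) (h : ∀ y ∈ Bk lk k x, y ∈ U ↔ y ∈ U') :
    |phi lk W U x - phi lk W U' x| ≤ δ / κ ^ k := by
  unfold phi
  rw [← intervalIntegral.integral_sub (pc_integrable H.nn U x) (pc_integrable H.nn U' x)]
  have h1 := intervalIntegral.norm_integral_le_of_norm_le_const (a := (0:ℝ)) (b := 1)
    (f := fun z => pc lk W U x z - pc lk W U' x z) (C := δ / κ ^ k) (by
      intro z hz
      rw [Set.uIoc_of_le zero_le_one] at hz
      exact pc_local H U U' x k h hz.1 hz.2)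
  simpa using h1

end LD
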