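import Pool.Agent.W_5dd92e_ld.GasP

/-!
# Restriction of the gas, coloured sums
-/

set_option autoImplicit false

namespace LD

open Finset
open scoped Classical

section restrict
variable {α : Type*}

/-- weights supported on the subsets of `A` -/
lemma Xi_restrict (lk : α → Finset α) (W : Finset α → ℝ) (A U : Finset α) :
    Xi lk (fun g => if g ⊆ A then W g else 0) U = Xi lk W (U ∩ A) := by
  unfold Xi
  have h1 : ∀ F : Finset (Finset α), (∏ g ∈ F, if g ⊆ A then W g else 0) =
      if ∀ g ∈ F, g ⊆ A then ∏ g ∈ F, W g else 0 := by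
    intro F
    split_ifs with h
    · exact prod_congr rfl (fun g hg => if_pos (h g hg))
    · push Not at h
      obtain ⟨g, hg, hgA⟩ := h
      exact prod_eq_zero hg (if_neg hgA)
  rw [sum_congr rfl (fun F _ => h1 F), ← sum_filter]
  refine sum_congr ?_ (fun _ _ => rfl)
  ext F
  rw [mem_filter, mem_Fam, mem_Fam]
  constructor
  · rintro ⟨⟨a, b⟩, h⟩
    exact ⟨fun g hg => subset_inter (a g hg) (h g hg), b⟩
  · rintro ⟨a, b⟩
    exact ⟨⟨fun g hg => (a g hg).trans inter_subset_left, b⟩,
      fun g hg => (a g hg).trans inter_subset_right⟩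

end restrict

section colours
variable {V C : Type*} [Fintype V]

/-- coloured sums over a disjoint union -/
lemma sum_Colr_union (pt : V → Finset C) (q0 : C) {g D : Finset V} (hd : Disjoint g D)
    (f1 f2 : (V → C) → ℝ) (h1 : ∀ s s', (∀ x ∈ g, s x = s' x) → f1 s = f1 s')
    (h2 : ∀ s s', (∀ x ∈ D, s x = s' x) → f2 s = f2 s') :
    ∑ s ∈ Colr pt q0 (g ∪ D), f1 s * f2 s =
      (∑ s ∈ Colr pt q0 g, f1 s) * ∑ s ∈ Colr pt q0 D, f2 s := by
  rw [sum_mul_sum, ← sum_product']
  have hdl := Finset.disjoint_left.1 hd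
  refine Finset.sum_bij' (fun s _ => ((fun x => if x ∈ g then s x else q0),
    (fun x => if x ∈ D then s x else q0)))
    (fun p _ => fun x => if x ∈ g then p.1 x else p.2 x) ?_ ?_ ?_ ?_ ?_
  · intro s hs
    obtain ⟨a, b⟩ := mem_Colr.1 hs
    rw [mem_product, mem_Colr, mem_Colr]
    refine ⟨⟨fun x hx => ?_, fun x hx => if_neg hx⟩, ⟨fun x hx => ?_, fun x hx => if_neg hx⟩⟩
    · show (if x ∈ g then s x else q0) ∈ pt x
      rw [if_pos hx]; exact a x (mem_union_left _ hx)
    · show (if x ∈ D then s x else q0) ∈ pt x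
      rw [if_pos hx]; exact a x (mem_union_right _ hx)
  · intro p hp
    rw [mem_product, mem_Colr, mem_Colr] at hp
    obtain ⟨⟨a, b⟩, ⟨a', b'⟩⟩ := hp
    rw [mem_Colr]
    refine ⟨fun x hx => ?_, fun x hx => ?_⟩
    · by_cases hg : x ∈ g
      · show (if x ∈ g then p.1 x else p.2 x) ∈ pt x
        rw [if_pos hg]; exact a x hg
      · show (if x ∈ g then p.1 x else p.2 x) ∈ pt x
        rw [if_neg hg]
        rcases mem_union.1 hx with h | h
        · exact absurd h hg
        · exact a' x h
    · show (if x ∈ g then p.1 x else p.2 x) = q0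
      rw [if_neg (fun h => hx (mem_union_left _ h))]
      exact b' x (fun h => hx (mem_union_right _ h))
  · intro s hs
    obtain ⟨a, b⟩ := mem_Colr.1 hs
    funext x
    show (if x ∈ g then (if x ∈ g then s x else q0) else (if x ∈ D then s x else q0)) = s x
    by_cases hg : x ∈ g
    · rw [if_pos hg, if_pos hg]
    · rw [if_neg hg]
      by_cases hD : x ∈ D
      · rw [if_pos hD]
      · rw [if_neg hD]
        exact (b x (fun h => (mem_union.1 h).elim hg hD)).symm
  · intro p hp
    rw [mem_product, mem_Colr, mem_Colr] at hp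
    obtain ⟨⟨a, b⟩, ⟨a', b'⟩⟩ := hp
    refine Prod.ext ?_ ?_
    · funext x
      show (if x ∈ g then (if x ∈ g then p.1 x else p.2 x) else q0) = p.1 x
      by_cases hg : x ∈ g
      · rw [if_pos hg, if_pos hg]
      · rw [if_neg hg]; exact (b x hg).symm
    · funext x
      show (if x ∈ D then (if x ∈ g then p.1 x else p.2 x) else q0) = p.2 x
      by_cases hD : x ∈ D
      · rw [if_pos hD, if_neg (fun h => hdl h hD)]
      · rw [if_neg hD]; exact (b' x hD).symm
  · intro s hs
    show f1 s * f2 s = f1 (fun x => if x ∈ g then s x else q0) *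
      f2 (fun x => if x ∈ D then s x else q0)
    rw [h1 s (fun x => if x ∈ g then s x else q0) (fun x hx => by rw [if_pos hx]),
      h2 s (fun x => if x ∈ D then s x else q0) (fun x hx => by rw [if_pos hx])]

/-- product of coloured weights -/
lemma prod_Wc (pt : V → Finset C) (q0 : C) {w1 : Finset V → (V → C) → ℝ} (hw : Lcl w1)
    (F : Finset (Finset V)) (hF : ∀ g ∈ F, ∀ g' ∈ F, g ≠ g' → Disjoint g g') :
    ∏ g ∈ F, Wc pt q0 w1 g = ∑ s ∈ Colr pt q0 (F.biUnion id), ∏ g ∈ F, w1 g s := by
  induction F using Finset.induction_on with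
  | empty =>
    rw [prod_empty, biUnion_empty]
    have h2 : Colr pt q0 (∅ : Finset V) = {fun _ => q0} := by
      ext s
      rw [mem_Colr, mem_singleton]
      constructor
      · rintro ⟨_, h⟩
        funext x
        exact h x (by simp)
      · rintro rfl
        exact ⟨by simp, fun _ _ => rfl⟩
    rw [h2, sum_singleton, prod_empty]
  | insert g F hg ih =>
    have ih' := ih (fun a ha b hb => hF a (mem_insert_of_mem ha) b (mem_insert_of_mem hb))
    have hdis : Disjoint g (F.biUnion id) := by
      rw [disjoint_biUnion_right]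
      intro g' hg'
      exact hF g (mem_insert_self _ _) g' (mem_insert_of_mem hg') (fun h => hg (h ▸ hg'))
    rw [prod_insert hg, ih', biUnion_insert]
    show Wc pt q0 w1 g * _ = ∑ s ∈ Colr pt q0 (g ∪ F.biUnion id), _
    rw [sum_congr rfl (fun s _ => prod_insert hg)]
    rw [sum_Colr_union pt q0 hdis (fun s => w1 g s) (fun s => ∏ g ∈ F, w1 g s)
      (fun s s' h => hw g s s' h)
      (fun s s' h => prod_congr rfl (fun g' hg' => hw g' s s'
        (fun x hx => h x (mem_biUnion.2 ⟨g', hg', hx⟩))))]
    rfl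

/-- the coloured sum over all sets is the partition function -/
theorem sum_Colr_comps {lk : V → Finset V} (hlk : LkOk lk) (pt : V → Finset C) (q0 : C)
    {w1 : Finset V → (V → C) → ℝ} (hw : Lcl w1) :
    ∑ D : Finset V, ∑ s ∈ Colr pt q0 D, ∏ g ∈ comps lk D, w1 g s =
      Xi lk (fun g => if Linked lk g then Wc pt q0 w1 g else 0) univ := by
  rw [← sum_comps_eq hlk _ univ (fun g _ _ h => if_neg h), powerset_univ]
  refine sum_congr rfl (fun D _ => ?_)
  have h1 := prod_Wc pt q0 hw (comps lk D) (by
    intro g hg g' hg' hne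
    exact Finset.disjoint_of_subset_left (subset_nbS hlk g) (comps_disj hlk hg hg' hne))
  rw [biUnion_comps] at h1
  rw [← h1]
  exact prod_congr rfl (fun g hg => (if_pos (comps_linked hlk hg)).symm)

end colours

end LD
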