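import Pool.Agent.W_5dd92e_ld.GasP
import Pool.Agent.W_5dd92e_ld.GasD

/-!
# Smallness of the polymer weights of a phase

`wP_nonneg`, `linked_walk` (a linked set is covered by a short walk), `linked_ball`, the number of linked sets
of a given size, `wP_le` and the sum `wP_small`.
-/

set_option autoImplicit false

namespace LD

open Finset
open scoped Classical

/-! ### Linked sets and walks -/

section walks

variable {α : Type*}

/-- the walks with `n` steps which start at `x` -/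
noncomputable def Wks (lk : α → Finset α) : ℕ → α → Finset (List α)
  | 0, x => {[x]}
  | n + 1, x => (lk x).biUnion fun y => (Wks lk n y).image fun w => x :: w

theorem card_Wks_le {lk : α → Finset α} {Δ : ℕ} (h : ∀ x, #(lk x) ≤ Δ) (n : ℕ) (x : α) :
    #(Wks lk n x) ≤ Δ ^ n := by
  induction n generalizing x with
  | zero => simp [Wks]
  | succ n ih =>
    rw [Wks]
    refine card_biUnion_le.trans ?_
    calc ∑ y ∈ lk x, #((Wks lk n y).image fun w => x :: w) ≤ ∑ _y ∈ lk x, Δ ^ n :=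
          sum_le_sum fun y _ => card_image_le.trans (ih y)
      _ = #(lk x) * Δ ^ n := by rw [sum_const, smul_eq_mul]
      _ ≤ Δ * Δ ^ n := Nat.mul_le_mul_right _ (h x)
      _ = Δ ^ (n + 1) := by rw [pow_succ, mul_comm]

theorem cons_mem_Wks {lk : α → Finset α} {n : ℕ} {x y : α} {w : List α} (hy : y ∈ lk x)
    (hw : w ∈ Wks lk n y) : x :: w ∈ Wks lk (n + 1) x := by
  rw [Wks, mem_biUnion]
  exact ⟨y, hy, mem_image.2 ⟨w, hw, rfl⟩⟩

theorem Wks_head {lk : α → Finset α} {n : ℕ} {x : α} {w : List α} (hw : w ∈ Wks lk n x) :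
    ∃ w', w = x :: w' := by
  cases n with
  | zero =>
    rw [Wks, mem_singleton] at hw
    exact ⟨[], hw⟩
  | succ n =>
    rw [Wks, mem_biUnion] at hw
    obtain ⟨y, _, hw⟩ := hw
    obtain ⟨w', _, rfl⟩ := mem_image.1 hw
    exact ⟨w', rfl⟩

/-- a detour `a, b, a` in a walk -/
theorem Wks_detour {lk : α → Finset α} (hlk : LkOk lk) {a b : α} (hab : b ∈ lk a) :
    ∀ (n : ℕ) (x : α) (w : List α), w ∈ Wks lk n x → a ∈ w →
      ∃ w' ∈ Wks lk (n + 2) x, w'.toFinset = insert b w.toFinset := by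
  intro n
  induction n with
  | zero =>
    intro x w hw ha
    rw [Wks, mem_singleton] at hw
    subst hw
    rw [List.mem_singleton] at ha
    subst ha
    refine ⟨[a, b, a], ?_, ?_⟩
    · refine cons_mem_Wks hab (cons_mem_Wks (hlk.symm _ _ hab) ?_)
      rw [Wks, mem_singleton]
    · ext z
      simp only [List.mem_toFinset, List.mem_cons, mem_insert, List.not_mem_nil, or_false]
      tauto
  | succ n ih =>
    intro x w hw ha
    have hw0 := hw
    rw [Wks, mem_biUnion] at hw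
    obtain ⟨y, hy, hw⟩ := hw
    obtain ⟨w1, hw1, rfl⟩ := mem_image.1 hw
    by_cases hax : a = x
    · subst hax
      refine ⟨a :: b :: a :: w1, ?_, ?_⟩
      · exact cons_mem_Wks hab (cons_mem_Wks (hlk.symm _ _ hab) hw0)
      · ext z
        simp only [List.mem_toFinset, List.mem_cons, mem_insert]
        tauto
    · have ha1 : a ∈ w1 := by
        rcases List.mem_cons.1 ha with h | h
        · exact absurd h hax
        · exact h
      obtain ⟨w', hw', he⟩ := ih y w1 hw1 ha1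
      refine ⟨x :: w', cons_mem_Wks hy hw', ?_⟩
      rw [List.toFinset_cons, List.toFinset_cons, he, Finset.insert_comm]

theorem gs_Bk_step {lk : α → Finset α} {k : ℕ} {x a b : α} (ha : a ∈ Bk lk k x)
    (hb : b ∈ lk a) : b ∈ Bk lk (k + 1) x := by
  rw [Bk_succ, mem_biUnion]
  exact ⟨a, ha, hb⟩

/-- a linked set is covered by a walk inside the balls -/
theorem linked_walk_aux {lk : α → Finset α} (hlk : LkOk lk) {g : Finset α} (hg : Linked lk g)
    {x : α} (hx : x ∈ g) (n : ℕ) (hn : n + 1 ≤ #g) :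
    ∃ w ∈ Wks lk (2 * n) x, w.toFinset ⊆ g ∧ #w.toFinset = n + 1 ∧
      w.toFinset ⊆ Bk lk n x := by
  induction n with
  | zero =>
    refine ⟨[x], by simp [Wks], ?_, ?_, ?_⟩
    · simpa using hx
    · simp
    · simp [Bk_zero]
  | succ n ih =>
    obtain ⟨w, hw, hwg, hwc, hwB⟩ := ih (by omega)
    have hlt : #w.toFinset < #g := by omega
    have hxw : x ∈ w.toFinset := by
      obtain ⟨w', rfl⟩ := Wks_head hw
      simp
    obtain ⟨y, hyg, hyw⟩ : ∃ y ∈ g, y ∉ w.toFinset := by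
      by_contra hcon
      push Not at hcon
      exact absurd (card_le_card (show g ⊆ w.toFinset from fun y hy => hcon y hy)) (by omega)
    have hstep : ∀ z, lkR lk g x z → z ∉ w.toFinset →
        ∃ a b, a ∈ w.toFinset ∧ b ∉ w.toFinset ∧ b ∈ g ∧ b ∈ lk a := by
      intro z hz
      induction hz with
      | refl => intro h; exact absurd hxw h
      | tail h1 h2 ih2 =>
        rename_i u v
        intro hv
        by_cases hu : u ∈ w.toFinset
        · exact ⟨u, v, hu, hv, h2.2.1, h2.2.2⟩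
        · exact ih2 hu
    obtain ⟨a, b, ha, hb, hbg, hab⟩ := hstep y (hg x hx y hyg) hyw
    obtain ⟨w', hw', he⟩ := Wks_detour hlk hab (2 * n) x w hw (List.mem_toFinset.1 ha)
    refine ⟨w', hw', ?_, ?_, ?_⟩
    · rw [he]
      exact insert_subset hbg hwg
    · rw [he, card_insert_of_notMem hb, hwc]
    · rw [he]
      refine insert_subset (gs_Bk_step (hwB ha) hab) ?_
      exact hwB.trans (Bk_mono hlk (Nat.le_succ n) x)

/-- a linked set is the set of the vertices of a walk with `2 (|g| - 1)` steps -/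
theorem linked_walk {lk : α → Finset α} (hlk : LkOk lk) {g : Finset α} (hg : Linked lk g)
    {x : α} (hx : x ∈ g) : ∃ w ∈ Wks lk (2 * (#g - 1)) x, w.toFinset = g := by
  have h1 : 1 ≤ #g := card_pos.2 ⟨x, hx⟩
  obtain ⟨w, hw, hwg, hwc, _⟩ := linked_walk_aux hlk hg hx (#g - 1) (by omega)
  exact ⟨w, hw, eq_of_subset_of_card_le hwg (by omega)⟩

/-- a linked set is contained in a ball -/
theorem linked_ball {lk : α → Finset α} (hlk : LkOk lk) {g : Finset α} (hg : Linked lk g)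
    {x : α} (hx : x ∈ g) : g ⊆ Bk lk (#g - 1) x := by
  have h1 : 1 ≤ #g := card_pos.2 ⟨x, hx⟩
  obtain ⟨w, hw, hwg, hwc, hwB⟩ := linked_walk_aux hlk hg hx (#g - 1) (by omega)
  have he : w.toFinset = g := eq_of_subset_of_card_le hwg (by omega)
  intro y hy
  rw [← he] at hy
  exact hwB hy

theorem linked_nbS_ball {lk : α → Finset α} (hlk : LkOk lk) {g : Finset α} (hg : Linked lk g)
    {x : α} (hx : x ∈ g) : nbS lk g ⊆ Bk lk #g x := by
  intro y hy
  obtain ⟨z, hz, hyz⟩ := mem_nbS.1 hy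
  have h1 : 1 ≤ #g := card_pos.2 ⟨x, hx⟩
  have h2 := gs_Bk_step (linked_ball hlk hg hx hz) hyz
  rwa [show #g - 1 + 1 = #g by omega] at h2

/-- the number of the linked sets of size `k` which contain `x` -/
theorem card_linked_le {lk : α → Finset α} (hlk : LkOk lk) {Δ : ℕ} (h : ∀ x, #(lk x) ≤ Δ)
    (x : α) (S : Finset (Finset α)) (k : ℕ) (hS : ∀ g ∈ S, x ∈ g ∧ Linked lk g ∧ #g = k) :
    #S ≤ Δ ^ (2 * (k - 1)) := by
  have hsub : S ⊆ (Wks lk (2 * (k - 1)) x).image List.toFinset := by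
    intro g hg
    obtain ⟨h1, h2, h3⟩ := hS g hg
    obtain ⟨w, hw, he⟩ := linked_walk hlk h2 h1
    rw [h3] at hw
    exact mem_image.2 ⟨w, hw, he⟩
  exact (card_le_card hsub).trans (card_image_le.trans (card_Wks_le h _ _))

/-- the weighted number of the linked sets which contain `x` -/
theorem sum_linked_le {lk : α → Finset α} (hlk : LkOk lk) {Δ : ℕ} (h : ∀ x, #(lk x) ≤ Δ)
    (x : α) (S : Finset (Finset α)) (hS : ∀ g ∈ S, x ∈ g ∧ Linked lk g) {t : ℝ} (ht0 : 0 ≤ t)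
    (ht : (Δ : ℝ) ^ 2 * t ≤ 1 / 2) : ∑ g ∈ S, t ^ #g ≤ 2 * t := by
  obtain ⟨n, hn⟩ : ∃ n : ℕ, ∀ g ∈ S, #g < n + 1 :=
    ⟨S.sup card, fun g hg => Nat.lt_succ_of_le (le_sup (f := card) hg)⟩
  have h1 : ∑ g ∈ S, t ^ #g = ∑ k ∈ range (n + 1), ∑ g ∈ S.filter (fun g => #g = k), t ^ #g :=
    (sum_fiberwise_of_maps_to (fun g hg => mem_range.2 (hn g hg)) _).symm
  rw [h1]
  have h2 : ∀ k ∈ range (n + 1), ∑ g ∈ S.filter (fun g => #g = k), t ^ #g ≤
      if k = 0 then 0 else t * (1 / 2) ^ (k - 1) := by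
    intro k _
    split_ifs with hk
    · have he : S.filter (fun g => #g = k) = ∅ := by
        rw [filter_eq_empty_iff]
        intro g hg hgk
        rw [hk, card_eq_zero] at hgk
        have := (hS g hg).1
        rw [hgk] at this
        exact notMem_empty _ this
      rw [he, sum_empty]
    · have h3 : ∑ g ∈ S.filter (fun g => #g = k), t ^ #g =
          #(S.filter (fun g => #g = k)) * t ^ k := by
        rw [← nsmul_eq_mul, ← sum_const]
        exact sum_congr rfl fun g hg => by rw [(mem_filter.1 hg).2]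
      rw [h3]
      have h4 : (#(S.filter (fun g => #g = k)) : ℝ) ≤ (Δ : ℝ) ^ (2 * (k - 1)) := by
        exact_mod_cast card_linked_le hlk h x (S.filter (fun g => #g = k)) k (fun g hg =>
          ⟨(hS g (mem_filter.1 hg).1).1, (hS g (mem_filter.1 hg).1).2, (mem_filter.1 hg).2⟩)
      refine (mul_le_mul_of_nonneg_right h4 (pow_nonneg ht0 _)).trans ?_
      obtain ⟨m, rfl⟩ : ∃ m, k = m + 1 := ⟨k - 1, by omega⟩
      rw [Nat.add_sub_cancel, pow_succ t m, pow_mul]
      calc ((Δ : ℝ) ^ 2) ^ m * (t ^ m * t) = t * ((Δ : ℝ) ^ 2 * t) ^ m := by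
            rw [mul_pow]
            ring
        _ ≤ t * (1 / 2) ^ m :=
            mul_le_mul_of_nonneg_left (pow_le_pow_left₀ (by positivity) ht m) ht0
  refine (sum_le_sum h2).trans ?_
  rw [sum_range_succ']
  simp only [if_true, add_zero, Nat.add_eq_zero_iff, one_ne_zero, and_false, if_false,
    Nat.add_sub_cancel]
  rw [← mul_sum, mul_comm 2 t]
  refine mul_le_mul_of_nonneg_left ?_ ht0
  have h5 := geom_sum_eq (show (1 / 2 : ℝ) ≠ 1 by norm_num) n
  rw [h5]
  have h6 : (0 : ℝ) ≤ (1 / 2) ^ n := by positivity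
  rw [div_le_iff_of_neg (by norm_num)]
  linarith

end walks

/-! ### The bound of the weight -/

section weight

variable {V : Type*} [Fintype V] {q : ℕ}

theorem gs_card_lkG_le {G : SimpleGraph V} {d : ℕ} (hd : ∀ x, #(nb G x) ≤ d) (x : V) :
    #(lkG G x) ≤ (d + 1) ^ 2 := by
  have hsub : lkG G x ⊆ insert x (nb G x ∪ (nb G x).biUnion (nb G)) := by
    intro y hy
    rw [mem_lkG] at hy
    rw [mem_insert, mem_union, mem_biUnion]
    rcases hy with h | h | ⟨z, h1, h2⟩
    · exact Or.inl h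
    · exact Or.inr (Or.inl (mem_nb.2 h))
    · exact Or.inr (Or.inr ⟨z, mem_nb.2 h1, mem_nb.2 h2⟩)
  have h1 : #((nb G x).biUnion (nb G)) ≤ d * d := by
    refine card_biUnion_le.trans ?_
    calc ∑ y ∈ nb G x, #(nb G y) ≤ ∑ _y ∈ nb G x, d := sum_le_sum fun y _ => hd y
      _ = #(nb G x) * d := by rw [sum_const, smul_eq_mul]
      _ ≤ d * d := Nat.mul_le_mul_right _ (hd x)
  have h2 := card_le_card hsub
  have h3 := card_insert_le x (nb G x ∪ (nb G x).biUnion (nb G))
  have h4 := card_union_le (nb G x) ((nb G x).biUnion (nb G))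
  have h5 := hd x
  nlinarith

theorem gs_card_nbS_le {G : SimpleGraph V} {d : ℕ} (hd : ∀ x, #(nb G x) ≤ d) (g : Finset V) :
    #(nbS (lkG G) g) ≤ #g * (d + 1) ^ 2 := by
  unfold nbS
  refine card_biUnion_le.trans ?_
  calc ∑ y ∈ g, #(lkG G y) ≤ ∑ _y ∈ g, (d + 1) ^ 2 := sum_le_sum fun y _ => gs_card_lkG_le hd y
    _ = #g * (d + 1) ^ 2 := by rw [sum_const, smul_eq_mul]

theorem gs_le_mm {A : Fin q → Fin q → ℝ} {S T : Finset (Fin q)} (h : Bic A S T) :
    #S * #T ≤ mm A := by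
  unfold mm
  exact le_sup (f := fun p : Finset (Fin q) × Finset (Fin q) => #p.1 * #p.2)
    (mem_filter.2 ⟨mem_univ (S, T), h⟩)

theorem gs_mm_pos {A : Fin q → Fin q → ℝ} {κ : ℝ} (hA : Tgt A κ) : 1 ≤ mm A := by
  obtain ⟨i, j, hij⟩ := hA.one
  have h : Bic A {i} {j} := by
    intro a ha b hb
    rw [mem_singleton] at ha hb
    rw [ha, hb, hij]
  simpa using gs_le_mm h

omit [Fintype V] in
theorem gs_pat_pos {A : Fin q → Fin q → ℝ} {κ : ℝ} (hA : Tgt A κ) (c : V → Bool) (P : Ph A)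
    (x : V) : 0 < #(pat c P x) := by
  have h1 := gs_mm_pos hA
  have h2 := P.2.2
  have h3 : 0 < #P.1.1 * #P.1.2 := by omega
  unfold pat
  split_ifs
  · exact Nat.pos_of_mul_pos_right h3
  · exact Nat.pos_of_mul_pos_left h3

omit [Fintype V] in
/-- maximality of the bicliques of the phases -/
theorem gs_pat_max {A : Fin q → Fin q → ℝ} {κ : ℝ} (hA : Tgt A κ) (c : V → Bool) (P : Ph A)
    {x y : V} (hxy : c x ≠ c y) {a : Fin q} (ha : a ∉ pat c P x) :
    ∃ t ∈ pat c P y, A a t ≤ 1 - κ := by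
  by_contra hcon
  push Not at hcon
  have h1 : ∀ t ∈ pat c P y, A a t = 1 := by
    intro t ht
    by_contra h
    exact absurd (hA.gap a t h) (not_le.2 (hcon t ht))
  have hx := gs_pat_pos hA c P x
  have hy := gs_pat_pos hA c P y
  have hB := P.2.1
  have hm := P.2.2
  rcases hcx : c x with _ | _
  · have hcy : c y = true := by
      rcases hcy : c y with _ | _
      · exact absurd (hcx.trans hcy.symm) hxy
      · rfl
    have ex : pat c P x = P.1.2 := by simp [pat, hcx]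
    have ey : pat c P y = P.1.1 := by simp [pat, hcy]
    rw [ex] at ha hx
    rw [ey] at h1 hy
    have h2 : Bic A P.1.1 (insert a P.1.2) := by
      intro i hi j hj
      rcases mem_insert.1 hj with rfl | hj
      · rw [hA.symm]
        exact h1 i hi
      · exact hB i hi j hj
    have h3 := gs_le_mm h2
    rw [card_insert_of_notMem ha] at h3
    nlinarith [hm]
  · have hcy : c y = false := by
      rcases hcy : c y with _ | _
      · rfl
      · exact absurd (hcx.trans hcy.symm) hxy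
    have ex : pat c P x = P.1.1 := by simp [pat, hcx]
    have ey : pat c P y = P.1.2 := by simp [pat, hcy]
    rw [ex] at ha hx
    rw [ey] at h1 hy
    have h2 : Bic A (insert a P.1.1) P.1.2 := by
      intro i hi j hj
      rcases mem_insert.1 hi with rfl | hi
      · exact h1 j hj
      · exact hB i hi j hj
    have h3 := gs_le_mm h2
    rw [card_insert_of_notMem ha] at h3
    nlinarith [hm]

theorem gs_prod_nonneg {A : Fin q → Fin q → ℝ} {κ : ℝ} (hA : Tgt A κ) {ι : Type*} (s : Finset ι)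
    (f g : ι → Fin q) : 0 ≤ ∏ x ∈ s, A (f x) (g x) := prod_nonneg fun _ _ => hA.nn _ _

theorem gs_prod_le_one {A : Fin q → Fin q → ℝ} {κ : ℝ} (hA : Tgt A κ) {ι : Type*} (s : Finset ι)
    (f g : ι → Fin q) : ∏ x ∈ s, A (f x) (g x) ≤ 1 :=
  prod_le_one (fun _ _ => hA.nn _ _) fun _ _ => hA.le1 _ _

theorem gs_rr_nonneg {A : Fin q → Fin q → ℝ} {κ : ℝ} (hA : Tgt A κ) (G : SimpleGraph V)
    (c : V → Bool) (P : Ph A) (g : Finset V) (s : V → Fin q) (y : V) : 0 ≤ rr G c P g s y :=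
  div_nonneg (sum_nonneg fun t _ => gs_prod_nonneg hA _ s fun _ => t) (Nat.cast_nonneg _)

theorem gs_rr_le_one {A : Fin q → Fin q → ℝ} {κ : ℝ} (hA : Tgt A κ) (G : SimpleGraph V)
    (c : V → Bool) (P : Ph A) (g : Finset V) (s : V → Fin q) (y : V) : rr G c P g s y ≤ 1 := by
  unfold rr
  rw [div_le_one (by exact_mod_cast gs_pat_pos hA c P y)]
  calc ∑ t ∈ pat c P y, ∏ x ∈ nb G y ∩ g, A (s x) t ≤ ∑ _t ∈ pat c P y, (1 : ℝ) :=
        sum_le_sum fun t _ => gs_prod_le_one hA _ s fun _ => t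
    _ = #(pat c P y) := by simp

/-- a vertex with a wrong neighbour -/
theorem gs_rr_le {A : Fin q → Fin q → ℝ} {κ : ℝ} (hA : Tgt A κ) {G : SimpleGraph V} {c : V → Bool}
    (hc : TPB.Prp G c) (P : Ph A) {g : Finset V} {s : V → Fin q}
    (hs : ∀ x ∈ g, s x ∉ pat c P x) {y : V} (hy : y ∈ Nout G g) :
    rr G c P g s y ≤ 1 - κ / q := by
  obtain ⟨⟨x, hx, hxy⟩, hyg⟩ := mem_Nout.1 hy
  obtain ⟨t0, ht0, hA0⟩ := gs_pat_max hA c P (hc x y hxy) (hs x hx)
  have hp : (0 : ℝ) < #(pat c P y) := by exact_mod_cast gs_pat_pos hA c P y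
  have hq : (#(pat c P y) : ℝ) ≤ q := by
    have := card_le_univ (pat c P y)
    rw [Fintype.card_fin] at this
    exact_mod_cast this
  have h1 : ∏ z ∈ nb G y ∩ g, A (s z) t0 ≤ 1 - κ := by
    have hxm : x ∈ nb G y ∩ g := mem_inter.2 ⟨mem_nb.2 hxy.symm, hx⟩
    rw [← mul_prod_erase _ _ hxm]
    have h2 : ∏ z ∈ (nb G y ∩ g).erase x, A (s z) t0 ≤ 1 := gs_prod_le_one hA _ s fun _ => t0
    have h3 := hA.nn (s x) t0
    calc A (s x) t0 * ∏ z ∈ (nb G y ∩ g).erase x, A (s z) t0 ≤ A (s x) t0 * 1 :=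
          mul_le_mul_of_nonneg_left h2 h3
      _ ≤ 1 - κ := by rw [mul_one]; exact hA0
  have h4 : ∑ t ∈ pat c P y, ∏ z ∈ nb G y ∩ g, A (s z) t ≤ #(pat c P y) - κ := by
    rw [← add_sum_erase _ _ ht0]
    have h5 : ∑ t ∈ (pat c P y).erase t0, ∏ z ∈ nb G y ∩ g, A (s z) t ≤
        ∑ _t ∈ (pat c P y).erase t0, (1 : ℝ) :=
      sum_le_sum fun t _ => gs_prod_le_one hA _ s fun _ => t
    rw [sum_const, nsmul_eq_mul, mul_one, card_erase_of_mem ht0] at h5
    have h6 : ((#(pat c P y) - 1 : ℕ) : ℝ) = #(pat c P y) - 1 := by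
      rw [Nat.cast_sub (gs_pat_pos hA c P y)]
      simp
    rw [h6] at h5
    linarith
  unfold rr
  rw [div_le_iff₀ hp]
  have h7 : κ / q * #(pat c P y) ≤ κ := by
    rw [div_mul_eq_mul_div, div_le_iff₀ (lt_of_lt_of_le hp hq)]
    exact mul_le_mul_of_nonneg_left hq hA.kpos.le
  linarith

theorem gs_w1P_nonneg {A : Fin q → Fin q → ℝ} {κ : ℝ} (hA : Tgt A κ) (G : SimpleGraph V)
    (c : V → Bool) (P : Ph A) (g : Finset V) (s : V → Fin q) : 0 ≤ w1P G c P g s :=
  mul_nonneg (mul_nonneg (prod_nonneg fun _ _ => inv_nonneg.2 (Nat.cast_nonneg _))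
    (prod_nonneg fun _ _ => prod_nonneg fun _ _ => hA.nn _ _))
    (prod_nonneg fun _ _ => gs_rr_nonneg hA G c P g s _)

/-- nonnegativity of the weights -/
theorem wP_nonneg {A : Fin q → Fin q → ℝ} {κ : ℝ} (hA : Tgt A κ) (G : SimpleGraph V)
    (c : V → Bool) (q0 : Fin q) (ζ : ℝ) (P : Ph A) (g : Finset V) : 0 ≤ wP G c q0 ζ P g := by
  unfold wP
  split_ifs
  · exact sum_nonneg fun s _ => gs_w1P_nonneg hA G c P g s
  · exact le_refl _

/-- a polymer lies in a ball -/
theorem wP_ball {A : Fin q → Fin q → ℝ} {G : SimpleGraph V} {c : V → Bool} {q0 : Fin q} {ζ : ℝ}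
    {P : Ph A} {g : Finset V} {x : V} (h : wP G c q0 ζ P g ≠ 0) (hx : x ∈ g) :
    nbS (lkG G) g ⊆ Bk (lkG G) #g x := by
  have h1 : Linked (lkG G) g := by
    by_contra hcon
    apply h
    unfold wP
    rw [if_neg fun h2 => hcon h2.1]
  exact linked_nbS_ball (lkG_ok G) h1 hx

theorem gs_w1P_le {A : Fin q → Fin q → ℝ} {κ : ℝ} (hA : Tgt A κ) {G : SimpleGraph V} {c : V → Bool}
    (hc : TPB.Prp G c) (P : Ph A) {g : Finset V} {s : V → Fin q}
    (hs : ∀ x ∈ g, s x ∉ pat c P x) :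
    w1P G c P g s ≤ Real.exp (-(κ / q * #(Nout G g))) := by
  have h1 : ∏ x ∈ g, ((#(pat c P x) : ℝ))⁻¹ ≤ 1 := by
    refine prod_le_one (fun _ _ => inv_nonneg.2 (Nat.cast_nonneg _)) fun x _ => ?_
    refine inv_le_one_of_one_le₀ ?_
    exact_mod_cast gs_pat_pos hA c P x
  have h2 : ∏ x ∈ g.filter (fun x => c x = true), ∏ y ∈ nb G x ∩ g, A (s x) (s y) ≤ 1 :=
    prod_le_one (fun _ _ => prod_nonneg fun _ _ => hA.nn _ _) fun _ _ =>
      prod_le_one (fun _ _ => hA.nn _ _) fun _ _ => hA.le1 _ _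
  have h3 : ∏ y ∈ Nout G g, rr G c P g s y ≤ (1 - κ / q) ^ #(Nout G g) := by
    rw [← prod_const]
    exact prod_le_prod (fun y _ => gs_rr_nonneg hA G c P g s y) fun y hy => gs_rr_le hA hc P hs hy
  have h4 : (1 - κ / q) ^ #(Nout G g) ≤ Real.exp (-(κ / q * #(Nout G g))) := by
    have h5 : 0 ≤ 1 - κ / q := by
      by_cases hq : (q : ℝ) = 0
      · rw [hq, div_zero]
        norm_num
      · have hq1 : (1 : ℝ) ≤ q := by
          have : q ≠ 0 := fun h => hq (by exact_mod_cast h)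
          exact_mod_cast Nat.one_le_iff_ne_zero.2 this
        have : κ / q ≤ 1 := by
          rw [div_le_one (by linarith)]
          exact hA.kle.trans hq1
        linarith
    have h6 : 1 - κ / q ≤ Real.exp (-(κ / q)) := by
      have := Real.add_one_le_exp (-(κ / q))
      linarith
    refine (pow_le_pow_left₀ h5 h6 _).trans (le_of_eq ?_)
    rw [← Real.exp_nat_mul]
    congr 1
    ring
  have h7 : 0 ≤ ∏ x ∈ g.filter (fun x => c x = true), ∏ y ∈ nb G x ∩ g, A (s x) (s y) :=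
    prod_nonneg fun _ _ => prod_nonneg fun _ _ => hA.nn _ _
  have h8 : 0 ≤ ∏ y ∈ Nout G g, rr G c P g s y := prod_nonneg fun _ _ => gs_rr_nonneg hA G c P g s _
  have h9 : (∏ x ∈ g, ((#(pat c P x) : ℝ))⁻¹) *
      (∏ x ∈ g.filter (fun x => c x = true), ∏ y ∈ nb G x ∩ g, A (s x) (s y)) ≤ 1 := by
    calc _ ≤ 1 * 1 := mul_le_mul h1 h2 h7 zero_le_one
      _ = 1 := one_mul 1
  unfold w1P
  calc _ ≤ 1 * ∏ y ∈ Nout G g, rr G c P g s y := mul_le_mul_of_nonneg_right h9 h8
    _ = ∏ y ∈ Nout G g, rr G c P g s y := one_mul _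
    _ ≤ _ := h3.trans h4

theorem gs_card_Colr_le (pt : V → Finset (Fin q)) (q0 : Fin q) (g : Finset V) :
    #(Colr pt q0 g) ≤ q ^ #g := by
  unfold Colr
  rw [Fintype.card_piFinset]
  have h1 : ∏ x, #(if x ∈ g then pt x else {q0}) = ∏ x ∈ g, #(pt x) := by
    rw [← prod_subset (subset_univ g)]
    · exact prod_congr rfl fun x hx => by rw [if_pos hx]
    · intro x _ hx
      rw [if_neg hx, card_singleton]
  rw [h1, ← prod_const]
  refine prod_le_prod' fun x _ => ?_
  have := card_le_univ (pt x)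
  rwa [Fintype.card_fin] at this

/-- the bound of the weight of a polymer -/
theorem wP_le {A : Fin q → Fin q → ℝ} {κ : ℝ} (hA : Tgt A κ) {G : SimpleGraph V} {c : V → Bool}
    (hc : TPB.Prp G c) (P : Ph A) (q0 : Fin q) {ζ : ℝ} (hζ : 0 < ζ) (g : Finset V) :
    wP G c q0 ζ P g ≤ ((q : ℝ) * Real.exp (-(κ / (5 * q * ζ)))) ^ #g := by
  have hq : 0 < (q : ℝ) := by
    have : 0 < q := Nat.lt_of_le_of_lt (Nat.zero_le _) q0.isLt
    exact_mod_cast this
  unfold wP
  split_ifs with h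
  · have h1 : ∀ s ∈ Colr (fun x => (pat c P x)ᶜ) q0 g, w1P G c P g s ≤
        Real.exp (-(κ / q * #(Nout G g))) := by
      intro s hs
      refine gs_w1P_le hA hc P fun x hx => ?_
      have := (mem_Colr.1 hs).1 x hx
      rwa [mem_compl] at this
    have h2 : Wc (fun x => (pat c P x)ᶜ) q0 (w1P G c P) g ≤
        (q : ℝ) ^ #g * Real.exp (-(κ / q * #(Nout G g))) := by
      unfold Wc
      refine (sum_le_sum h1).trans ?_
      rw [sum_const, nsmul_eq_mul]
      refine mul_le_mul_of_nonneg_right ?_ (Real.exp_pos _).le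
      exact_mod_cast gs_card_Colr_le (fun x => (pat c P x)ᶜ) q0 g
    refine h2.trans ?_
    rw [mul_pow, ← Real.exp_nat_mul]
    refine mul_le_mul_of_nonneg_left (Real.exp_le_exp.2 ?_) (pow_nonneg hq.le _)
    have h3 : (#g : ℝ) ≤ 5 * ζ * #(Nout G g) := h.2
    have h4 : (#g : ℝ) * (κ / (5 * q * ζ)) ≤ κ / q * #(Nout G g) := by
      rw [mul_div_assoc', div_mul_eq_mul_div, div_le_div_iff₀ (by positivity) hq]
      have h5 := mul_le_mul_of_nonneg_left h3 (mul_pos hA.kpos hq).le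
      nlinarith
    have h6 : (#g : ℝ) * -(κ / (5 * q * ζ)) = -((#g : ℝ) * (κ / (5 * q * ζ))) := by ring
    rw [h6]
    exact neg_le_neg h4
  · exact pow_nonneg (mul_nonneg hq.le (Real.exp_pos _).le) _

theorem wP_le_pow {A : Fin q → Fin q → ℝ} {κ : ℝ} (hA : Tgt A κ) {G : SimpleGraph V}
    {c : V → Bool} (hc : TPB.Prp G c) (P : Ph A) (q0 : Fin q) {d : ℕ} (hd : 2 ≤ d) {cz : ℝ}
    (hz0 : 0 < cz) (hz1 : cz ≤ κ / (100 * q)) (g : Finset V) :
    wP G c q0 (cz / Real.log d) P g ≤ ((q : ℝ) / (d : ℝ) ^ 20) ^ #g := by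
  have hq : 0 < (q : ℝ) := by
    have : 0 < q := Nat.lt_of_le_of_lt (Nat.zero_le _) q0.isLt
    exact_mod_cast this
  have hd' : (2 : ℝ) ≤ d := by exact_mod_cast hd
  have hL : 0 < Real.log d := Real.log_pos (by linarith)
  have hζ : 0 < cz / Real.log d := div_pos hz0 hL
  refine (wP_le hA hc P q0 hζ g).trans (pow_le_pow_left₀ (by positivity) ?_ _)
  rw [div_eq_mul_inv]
  refine mul_le_mul_of_nonneg_left ?_ hq.le
  have h1 : 20 * Real.log d ≤ κ / (5 * q * (cz / Real.log d)) := by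
    rw [le_div_iff₀ (by positivity)]
    have h2 : 20 * Real.log d * (5 * q * (cz / Real.log d)) = 100 * q * cz := by
      field_simp
      ring
    rw [h2]
    rw [le_div_iff₀ (by positivity)] at hz1
    linarith
  have h3 : Real.exp (-(20 * Real.log d)) = ((d : ℝ) ^ 20)⁻¹ := by
    rw [Real.exp_neg, show (20 : ℝ) * Real.log d = ((20 : ℕ) : ℝ) * Real.log d by norm_num,
      Real.exp_nat_mul, Real.exp_log (by linarith)]
  rw [← h3]
  exact Real.exp_le_exp.2 (neg_le_neg h1)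

/-- **smallness of the weights**: the hypotheses `Good` hold with `κ = (d+1)^4`, `δ = 1/(2 d^12)` -/
theorem wP_good {A : Fin q → Fin q → ℝ} {κ : ℝ} (hA : Tgt A κ) {G : SimpleGraph V}
    {c : V → Bool} (hc : TPB.Prp G c) (P : Ph A) (q0 : Fin q) {d : ℕ} (hd : 4096 * q ≤ d)
    (hG : ∀ x, #(nb G x) ≤ d) {cz : ℝ} (hz0 : 0 < cz) (hz1 : cz ≤ κ / (100 * q)) :
    Good (lkG G) (wP G c q0 (cz / Real.log d) P) (((d : ℝ) + 1) ^ 4) (1 / (2 * (d : ℝ) ^ 12)) := by
  have hq1 : 1 ≤ q := Nat.succ_le_of_lt (Nat.lt_of_le_of_lt (Nat.zero_le _) q0.isLt)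
  have hq : (1 : ℝ) ≤ q := by exact_mod_cast hq1
  have hdq : 4096 * (q : ℝ) ≤ d := by exact_mod_cast hd
  have hd2 : 2 ≤ d := by omega
  have hd' : (4096 : ℝ) ≤ d := by linarith
  have hdp : (0 : ℝ) < d := by linarith
  have hd1 : (d : ℝ) + 1 ≤ 2 * d := by linarith
  refine ⟨lkG_ok G, fun g => wP_nonneg hA G c q0 _ P g, fun g x hx hw => wP_ball hw hx, ?_, ?_, ?_⟩
  · intro x U
    set t : ℝ := 2 * q * ((d : ℝ) + 1) ^ 6 / (d : ℝ) ^ 20 with ht
    have ht0 : 0 ≤ t := by positivity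
    set S : Finset (Finset V) := (U.powerset.filter (fun g => x ∈ g)).filter
      (fun g => Linked (lkG G) g) with hS
    have h1 : ∑ g ∈ U.powerset.filter (fun g => x ∈ g), wP G c q0 (cz / Real.log d) P g *
        (#(nbS (lkG G) g) : ℝ) * (((d : ℝ) + 1) ^ 4) ^ (#g) ≤ ∑ g ∈ S, t ^ #g := by
      have h0 : ∑ g ∈ S, t ^ #g = ∑ g ∈ U.powerset.filter (fun g => x ∈ g),
          if Linked (lkG G) g then t ^ #g else 0 := by
        rw [hS, sum_filter]
      rw [h0]
      refine sum_le_sum fun g _ => ?_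
      split_ifs with hl
      · have h2 : (#(nbS (lkG G) g) : ℝ) ≤ 2 ^ #g * (((d : ℝ) + 1) ^ 2) ^ #g := by
          rcases Nat.eq_zero_or_pos (#g) with h0 | h0
          · rw [card_eq_zero] at h0
            subst h0
            simp [nbS]
          · have h3 : (#(nbS (lkG G) g) : ℝ) ≤ #g * ((d : ℝ) + 1) ^ 2 := by
              exact_mod_cast gs_card_nbS_le hG g
            refine h3.trans ?_
            have h4 : (#g : ℝ) ≤ 2 ^ #g := by exact_mod_cast (Nat.lt_two_pow_self (n := #g)).le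
            have h5 : ((d : ℝ) + 1) ^ 2 ≤ (((d : ℝ) + 1) ^ 2) ^ #g :=
              le_self_pow₀ (by nlinarith) (by omega)
            exact mul_le_mul h4 h5 (by positivity) (by positivity)
        have h6 := wP_le_pow hA hc P q0 hd2 hz0 hz1 g
        have h7 := wP_nonneg hA G c q0 (cz / Real.log d) P g
        calc wP G c q0 (cz / Real.log d) P g * (#(nbS (lkG G) g) : ℝ) *
              (((d : ℝ) + 1) ^ 4) ^ (#g)
            ≤ ((q : ℝ) / (d : ℝ) ^ 20) ^ #g * (2 ^ #g * (((d : ℝ) + 1) ^ 2) ^ #g) *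
              (((d : ℝ) + 1) ^ 4) ^ (#g) := by
              refine mul_le_mul_of_nonneg_right (mul_le_mul h6 h2 (Nat.cast_nonneg _)
                (by positivity)) (by positivity)
          _ = t ^ #g := by
              rw [← mul_pow, ← mul_pow, ← mul_pow, ht]
              congr 1
              ring
      · have h2 : wP G c q0 (cz / Real.log d) P g = 0 := by
          unfold wP
          rw [if_neg fun h => hl h.1]
        rw [h2, zero_mul, zero_mul]
    refine h1.trans ?_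
    have h8 : ∑ g ∈ S, t ^ #g ≤ 2 * t := by
      refine sum_linked_le (lkG_ok G) (Δ := (d + 1) ^ 2) (gs_card_lkG_le hG) x S
        (fun g hg => ⟨(mem_filter.1 (mem_filter.1 hg).1).2, (mem_filter.1 hg).2⟩) ht0 ?_
      have h9 : ((((d + 1) ^ 2 : ℕ) : ℝ)) ^ 2 * t = 2 * q * ((d : ℝ) + 1) ^ 10 / (d : ℝ) ^ 20 := by
        push_cast
        rw [ht]
        ring
      rw [h9, div_le_iff₀ (by positivity)]
      have h10 : ((d : ℝ) + 1) ^ 10 ≤ (2 * d) ^ 10 := pow_le_pow_left₀ (by positivity) hd1 _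
      have h11 : 4096 * (q : ℝ) ≤ (d : ℝ) ^ 10 := hdq.trans (le_self_pow₀ (by linarith) (by norm_num))
      calc 2 * q * ((d : ℝ) + 1) ^ 10 ≤ 2 * q * (2 * d) ^ 10 :=
            mul_le_mul_of_nonneg_left h10 (by positivity)
        _ = 1 / 2 * ((4096 * q) * (d : ℝ) ^ 10) := by ring
        _ ≤ 1 / 2 * ((d : ℝ) ^ 10 * (d : ℝ) ^ 10) := by
            refine mul_le_mul_of_nonneg_left (mul_le_mul_of_nonneg_right h11 (by positivity))
              (by norm_num)
        _ = 1 / 2 * (d : ℝ) ^ 20 := by ring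
    refine h8.trans ?_
    rw [ht, le_div_iff₀ (by positivity)]
    have h12 : ((d : ℝ) + 1) ^ 6 ≤ (2 * d) ^ 6 := pow_le_pow_left₀ (by positivity) hd1 _
    have h13 : 512 * (q : ℝ) ≤ (d : ℝ) ^ 2 := by nlinarith
    have h14 : 2 * (2 * q * ((d : ℝ) + 1) ^ 6 / (d : ℝ) ^ 20) * (2 * (d : ℝ) ^ 12) =
        8 * q * ((d : ℝ) + 1) ^ 6 / (d : ℝ) ^ 8 := by
      field_simp
      ring
    rw [h14, div_le_one (by positivity)]
    calc 8 * q * ((d : ℝ) + 1) ^ 6 ≤ 8 * q * (2 * d) ^ 6 :=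
          mul_le_mul_of_nonneg_left h12 (by positivity)
      _ = 512 * q * (d : ℝ) ^ 6 := by ring
      _ ≤ (d : ℝ) ^ 2 * (d : ℝ) ^ 6 := mul_le_mul_of_nonneg_right h13 (by positivity)
      _ = (d : ℝ) ^ 8 := by ring
  · exact one_le_pow₀ (by linarith)
  · rw [div_le_one (by positivity)]
    have : (1 : ℝ) ≤ (d : ℝ) ^ 12 := one_le_pow₀ (by linarith)
    linarith

end weight

end LD
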