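import Pool.Agent.W_5dd92e_ld.Fld

/-!
# MP_5dd92e_co, large degree theorem: the canonical tree

Words over `Fin d` (last letter first); the first letter is arbitrary, all later letters are different
from `d - 1`.  `Tr.phi G x` maps words to vertices: the `a`-th child of `phi t`.  `TV d K`, `TG d K`: the tree of depth
`K`; `TE G x : TV d K → V`: the embedding onto the ball of radius `K`.
-/

set_option autoImplicit false
set_option linter.unusedSectionVars false

open Finset
open scoped Classical

namespace LD
namespace Tr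

/-- admissible words -/
def Ok {d : ℕ} : List (Fin d) → Prop
  | [] => True
  | [_] => True
  | a :: b :: s => Ok (b :: s) ∧ (a : ℕ) + 1 < d

/-- adjacency of words -/
def TA {d : ℕ} (w w' : List (Fin d)) : Prop := (∃ a, w' = a :: w) ∨ ∃ a, w = a :: w'

variable {V : Type*} [Fintype V] {d : ℕ}

/-- enumeration of a finite set -/
noncomputable def en (x : V) (F : Finset V) (i : ℕ) : V :=
  if h : i < #F then (F.equivFin.symm ⟨i, h⟩ : V) else x

theorem en_mem (x : V) (F : Finset V) (i : ℕ) (h : i < #F) : en x F i ∈ F := by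
  rw [en, dif_pos h]
  exact (F.equivFin.symm ⟨i, h⟩).2

theorem en_inj (x : V) (F : Finset V) (i j : ℕ) (hi : i < #F) (hj : j < #F)
    (h : en x F i = en x F j) : i = j := by
  rw [en, en, dif_pos hi, dif_pos hj] at h
  have := F.equivFin.symm.injective (Subtype.ext h)
  simpa using this

theorem en_surj (x : V) (F : Finset V) (y : V) (hy : y ∈ F) : ∃ i, i < #F ∧ en x F i = y := by
  refine ⟨(F.equivFin ⟨y, hy⟩ : ℕ), (F.equivFin ⟨y, hy⟩).2, ?_⟩
  rw [en, dif_pos (F.equivFin ⟨y, hy⟩).2]
  simp

/-- the vertex of a word -/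
noncomputable def phi (G : SimpleGraph V) (x : V) : List (Fin d) → V
  | [] => x
  | [a] => en x (nb G x) a
  | a :: b :: s => en x ((nb G (phi G x (b :: s))).erase (phi G x s)) a

/-- the children of a vertex -/
noncomputable def ch (G : SimpleGraph V) (x : V) : List (Fin d) → Finset V
  | [] => nb G x
  | b :: s => (nb G (phi G x (b :: s))).erase (phi G x s)

@[simp] theorem phi_nil (G : SimpleGraph V) (x : V) : phi G x ([] : List (Fin d)) = x := rfl

theorem phi_cons (G : SimpleGraph V) (x : V) (a : Fin d) (t : List (Fin d)) :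
    phi G x (a :: t) = en x (ch G x t) a := by
  cases t <;> rfl

theorem Ok.tail {a : Fin d} {t : List (Fin d)} (h : Ok (a :: t)) : Ok t := by
  cases t with
  | nil => trivial
  | cons b s => exact h.1

theorem ch_sub (G : SimpleGraph V) (x : V) (t : List (Fin d)) : ch G x t ⊆ nb G (phi G x t) := by
  cases t with
  | nil => exact Subset.refl _
  | cons b s => exact erase_subset _ _

theorem mem_Sp {G : SimpleGraph V} {j : ℕ} {x y : V} :
    y ∈ Sp G j x ↔ G.Reachable x y ∧ G.dist x y = j := by simp [Sp]

theorem Sp_inj {G : SimpleGraph V} {i j : ℕ} {x y : V} (hi : y ∈ Sp G i x) (hj : y ∈ Sp G j x) :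
    i = j := by
  rw [mem_Sp] at hi hj
  exact hi.2.symm.trans hj.2

theorem Sp_zero {G : SimpleGraph V} {x y : V} : y ∈ Sp G 0 x ↔ y = x := by
  rw [mem_Sp]
  constructor
  · rintro ⟨h1, h2⟩
    exact (h1.dist_eq_zero_iff.1 h2).symm
  · rintro rfl
    exact ⟨SimpleGraph.Reachable.refl _, SimpleGraph.dist_self⟩

theorem Sp_one {G : SimpleGraph V} {x y : V} : y ∈ Sp G 1 x ↔ G.Adj x y := by
  rw [mem_Sp]
  constructor
  · rintro ⟨_, h2⟩
    exact SimpleGraph.dist_eq_one_iff_adj.1 h2
  · intro h
    exact ⟨h.reachable, SimpleGraph.dist_eq_one_iff_adj.2 h⟩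

/-- main facts about `phi`, words of length at most `J + 2` -/
theorem phi_mem {G : SimpleGraph V} (hd : Rgl G d) {J : ℕ} (hT : TreeTo G J) (x : V) :
    ∀ w : List (Fin d), Ok w → w.length ≤ J + 2 →
      phi G x w ∈ Sp G w.length x ∧
        (∀ a t, w = a :: t → phi G x w ∈ nb G (phi G x t) ∧ phi G x t ∈ Sp G t.length x) := by
  intro w
  induction w with
  | nil =>
    intro _ _
    exact ⟨Sp_zero.2 rfl, fun a t h => by simp at h⟩
  | cons a t ih =>
    intro hok hlen
    have hlt : t.length ≤ J + 2 := by simp at hlen; omega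
    obtain ⟨h1, h2⟩ := ih hok.tail hlt
    cases t with
    | nil =>
      have hm : phi G x [a] ∈ nb G x := by
        refine en_mem _ _ _ ?_
        rw [hd x]; exact a.2
      refine ⟨?_, ?_⟩
      · show phi G x [a] ∈ Sp G 1 x
        rw [Sp_one]; exact mem_nb.1 hm
      · intro a' t' h
        simp only [List.cons.injEq] at h
        obtain ⟨_, rfl⟩ := h
        exact ⟨hm, h1⟩
    | cons b s =>
      obtain ⟨hp, hSs⟩ := h2 b s rfl
      have hp' : phi G x s ∈ nb G (phi G x (b :: s)) := by
        rw [mem_nb] at hp ⊢; exact hp.symm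
      have hcard : #(ch G x (b :: s)) = d - 1 := by
        show #((nb G (phi G x (b :: s))).erase (phi G x s)) = d - 1
        rw [card_erase_of_mem hp', hd]
      have hm : phi G x (a :: b :: s) ∈ ch G x (b :: s) := by
        rw [phi_cons]
        refine en_mem _ _ _ ?_
        rw [hcard]
        have := hok.2
        omega
      have hm' : phi G x (a :: b :: s) ∈ nb G (phi G x (b :: s)) := ch_sub _ _ _ hm
      have hne : phi G x (a :: b :: s) ≠ phi G x s := by
        have : phi G x (a :: b :: s) ∈ (nb G (phi G x (b :: s))).erase (phi G x s) := hm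
        exact (mem_erase.1 this).1
      refine ⟨?_, ?_⟩
      · have hs : s.length ≤ J := by simp at hlen; omega
        have hT' := hT x (phi G x (b :: s)) s.length hs h1
        rcases hT'.2 _ hm' with h | h
        · exfalso
          rw [card_eq_one] at hT'
          obtain ⟨z, hz⟩ := hT'.1
          have e1 : phi G x s ∈ (nb G (phi G x (b :: s))).filter (fun z => z ∈ Sp G s.length x) :=
            mem_filter.2 ⟨hp', hSs⟩
          have e2 : phi G x (a :: b :: s) ∈
              (nb G (phi G x (b :: s))).filter (fun z => z ∈ Sp G s.length x) :=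
            mem_filter.2 ⟨hm', h⟩
          rw [hz, mem_singleton] at e1 e2
          exact hne (e2.trans e1.symm)
        · exact h
      · intro a' t' h
        simp only [List.cons.injEq] at h
        obtain ⟨_, rfl⟩ := h
        exact ⟨hm', h1⟩

/-- unique predecessor -/
theorem pred_unique {G : SimpleGraph V} {J : ℕ} (hT : TreeTo G J) {x y z z' : V} {k : ℕ}
    (hk : k ≤ J) (hy : y ∈ Sp G (k + 1) x) (hz : z ∈ nb G y) (hz' : z' ∈ nb G y)
    (h : z ∈ Sp G k x) (h' : z' ∈ Sp G k x) : z = z' := by
  have h1 := (hT x y k hk hy).1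
  rw [card_eq_one] at h1
  obtain ⟨u, hu⟩ := h1
  have e1 : z ∈ (nb G y).filter (fun z => z ∈ Sp G k x) := mem_filter.2 ⟨hz, h⟩
  have e2 : z' ∈ (nb G y).filter (fun z => z ∈ Sp G k x) := mem_filter.2 ⟨hz', h'⟩
  rw [hu, mem_singleton] at e1 e2
  exact e1.trans e2.symm

theorem card_ch {G : SimpleGraph V} (hd : Rgl G d) {J : ℕ} (hT : TreeTo G J) (x : V)
    (t : List (Fin d)) (ht : Ok t) (hl : t.length ≤ J + 1) :
    #(ch G x t) = if t = [] then d else d - 1 := by
  cases t with
  | nil => simp [ch, hd x]
  | cons b s =>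
    have hp := ((phi_mem hd hT x (b :: s) ht (by omega)).2 b s rfl).1
    have hp' : phi G x s ∈ nb G (phi G x (b :: s)) := by
      rw [mem_nb] at hp ⊢; exact hp.symm
    show #((nb G (phi G x (b :: s))).erase (phi G x s)) = _
    rw [card_erase_of_mem hp', hd]
    simp

theorem ok_lt {a : Fin d} {t : List (Fin d)} (h : Ok (a :: t)) :
    (a : ℕ) < if t = [] then d else d - 1 := by
  cases t with
  | nil => simp
  | cons b s =>
    have := h.2
    simp only [reduceCtorEq, if_false]
    omega

theorem phi_inj {G : SimpleGraph V} (hd : Rgl G d) {J : ℕ} (hT : TreeTo G J) (x : V) :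
    ∀ w w' : List (Fin d), Ok w → Ok w' → w.length ≤ J + 1 → w'.length ≤ J + 1 →
      phi G x w = phi G x w' → w = w' := by
  intro w
  induction w with
  | nil =>
    intro w' _ hw' _ hl' h
    have h1 := (phi_mem hd hT x w' hw' (by omega)).1
    rw [← h] at h1
    have h2 : phi G x ([] : List (Fin d)) ∈ Sp G 0 x := Sp_zero.2 rfl
    have := Sp_inj h1 h2
    exact (List.length_eq_zero_iff.1 this).symm
  | cons a t ih =>
    intro w' hw hw' hl hl' h
    have h1 := (phi_mem hd hT x w' hw' (by omega)).1
    have h0 := (phi_mem hd hT x (a :: t) hw (by omega)).1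
    rw [← h] at h1
    have hlen := Sp_inj h0 h1
    cases w' with
    | nil => simp at hlen
    | cons a' t' =>
      have hlen' : t.length = t'.length := by simpa using hlen
      have hl1 : t.length ≤ J := by simp at hl; omega
      have g := (phi_mem hd hT x (a :: t) hw (by omega)).2 a t rfl
      have g' := (phi_mem hd hT x (a' :: t') hw' (by omega)).2 a' t' rfl
      have e : phi G x t = phi G x t' := by
        refine pred_unique hT (k := t.length) hl1 (y := phi G x (a :: t)) h0 ?_ ?_ g.2 ?_
        · have := g.1; rw [mem_nb] at this ⊢; exact this.symm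
        · have := g'.1; rw [← h] at this; rw [mem_nb] at this ⊢; exact this.symm
        · rw [hlen']; exact g'.2
      have ett : t = t' := ih t' hw.tail hw'.tail (by omega) (by omega) e
      subst ett
      rw [phi_cons, phi_cons] at h
      have hc := card_ch hd hT x t hw.tail (by omega)
      have := en_inj x (ch G x t) a a' (by rw [hc]; exact ok_lt hw) (by rw [hc]; exact ok_lt hw') h
      rw [Fin.ext this]

theorem phi_surj {G : SimpleGraph V} (hd : Rgl G d) {J : ℕ} (hT : TreeTo G J) (x : V) :
    ∀ k, k ≤ J + 1 → ∀ y ∈ Sp G k x, ∃ w : List (Fin d), Ok w ∧ w.length = k ∧ phi G x w = y := by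
  intro k
  induction k with
  | zero =>
    intro _ y hy
    exact ⟨[], trivial, rfl, (Sp_zero.1 hy).symm⟩
  | succ k ih =>
    intro hk y hy
    have h1 := (hT x y k (by omega) hy).1
    rw [card_eq_one] at h1
    obtain ⟨z, hz⟩ := h1
    have hzm : z ∈ (nb G y).filter (fun z => z ∈ Sp G k x) := by rw [hz]; exact mem_singleton_self _
    obtain ⟨hz1, hz2⟩ := mem_filter.1 hzm
    obtain ⟨t, ht, hlt, rfl⟩ := ih (by omega) z hz2
    have hym : y ∈ ch G x t := by
      have hyn : y ∈ nb G (phi G x t) := by rw [mem_nb] at hz1 ⊢; exact hz1.symm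
      cases t with
      | nil => exact hyn
      | cons b s =>
        refine mem_erase.2 ⟨?_, hyn⟩
        rintro rfl
        have hs := ((phi_mem hd hT x (b :: s) ht (by omega)).2 b s rfl).2
        have := Sp_inj hs hy
        simp at hlt
        omega
    obtain ⟨i, hi, hiy⟩ := en_surj x _ y hym
    have hc := card_ch hd hT x t ht (by omega)
    have hid : i < d := by
      rw [hc] at hi
      split_ifs at hi <;> omega
    refine ⟨⟨i, hid⟩ :: t, ?_, by simp [hlt], ?_⟩
    · cases t with
      | nil => trivial
      | cons b s =>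
        refine ⟨ht, ?_⟩
        rw [hc] at hi
        simp only [reduceCtorEq, if_false] at hi
        show i + 1 < d
        omega
    · rw [phi_cons]; exact hiy

theorem adj_cons {G : SimpleGraph V} (hd : Rgl G d) {J : ℕ} (hT : TreeTo G J) (x : V)
    (a : Fin d) (t : List (Fin d)) (h : Ok (a :: t)) (hl : (a :: t).length ≤ J + 2) :
    G.Adj (phi G x t) (phi G x (a :: t)) :=
  mem_nb.1 ((phi_mem hd hT x (a :: t) h hl).2 a t rfl).1

theorem phi_adj {G : SimpleGraph V} (hd : Rgl G d) {J : ℕ} (hT : TreeTo G J) (x : V)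
    (w w' : List (Fin d)) (hw : Ok w) (hw' : Ok w') (hl : w.length ≤ J + 1)
    (hl' : w'.length ≤ J + 1) : G.Adj (phi G x w) (phi G x w') ↔ TA w w' := by
  constructor
  · intro h
    have key : ∀ w w' : List (Fin d), Ok w → Ok w' → w'.length ≤ J + 1 →
        w'.length = w.length + 1 → G.Adj (phi G x w) (phi G x w') → ∃ a, w' = a :: w := by
      intro w w' hw hw' hl' hlen h
      cases w' with
      | nil => simp at hlen
      | cons a t =>
        have hlen' : t.length = w.length := by simpa using hlen
        have g := (phi_mem hd hT x (a :: t) hw' (by omega)).2 a t rfl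
        have e : phi G x t = phi G x w := by
          have hwS := (phi_mem hd hT x w hw (by omega)).1
          refine pred_unique hT (k := w.length) (by omega) (y := phi G x (a :: t)) ?_ ?_ ?_ ?_ hwS
          · have := (phi_mem hd hT x (a :: t) hw' (by omega)).1
            rw [hlen] at this
            exact this
          · have := g.1; rw [mem_nb] at this ⊢; exact this.symm
          · rw [mem_nb]; exact h.symm
          · rw [← hlen']; exact g.2
        refine ⟨a, ?_⟩
        rw [phi_inj hd hT x t w hw'.tail hw (by omega) (by omega) e]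
    have hS := (phi_mem hd hT x w hw (by omega)).1
    have hS' := (phi_mem hd hT x w' hw' (by omega)).1
    rcases Nat.lt_trichotomy w.length w'.length with hlt | heq | hgt
    · left
      obtain ⟨k, hk⟩ : ∃ k, w'.length = k + 1 := ⟨w'.length - 1, by omega⟩
      rw [hk] at hS'
      have hh := (hT x (phi G x w') k (by omega) hS').2 (phi G x w) (mem_nb.2 h.symm)
      refine key w w' hw hw' hl' ?_ h
      rcases hh with hh | hh
      · have := Sp_inj hh hS; omega
      · have := Sp_inj hh hS; omega
    · exfalso
      cases hwl : w.length with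
      | zero =>
        have e1 : w = [] := List.length_eq_zero_iff.1 hwl
        have e2 : w' = [] := List.length_eq_zero_iff.1 (by omega)
        subst e1; subst e2
        exact G.loopless.irrefl _ h
      | succ k =>
        rw [hwl] at hS
        have hh := (hT x (phi G x w) k (by omega) hS).2 (phi G x w') (mem_nb.2 h)
        rcases hh with hh | hh
        · have := Sp_inj hh hS'; omega
        · have := Sp_inj hh hS'; omega
    · right
      obtain ⟨k, hk⟩ : ∃ k, w.length = k + 1 := ⟨w.length - 1, by omega⟩
      rw [hk] at hS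
      have hh := (hT x (phi G x w) k (by omega) hS).2 (phi G x w') (mem_nb.2 h)
      refine key w' w hw' hw hl ?_ h.symm
      rcases hh with hh | hh
      · have := Sp_inj hh hS'; omega
      · have := Sp_inj hh hS'; omega
  · rintro (⟨a, rfl⟩ | ⟨a, rfl⟩)
    · exact adj_cons hd hT x a w hw' (by omega)
    · exact (adj_cons hd hT x a w' hw (by omega)).symm

/-- the neighbours of `phi w` are the images of the neighbouring words -/
theorem nb_phi {G : SimpleGraph V} (hd : Rgl G d) {J : ℕ} (hT : TreeTo G J) (x : V)
    (w : List (Fin d)) (hw : Ok w) (hl : w.length ≤ J) (y : V) :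
    y ∈ nb G (phi G x w) ↔ ∃ w', Ok w' ∧ TA w w' ∧ phi G x w' = y := by
  constructor
  · intro hy
    have hS := (phi_mem hd hT x w hw (by omega)).1
    have hyS : ∃ k, k ≤ J + 1 ∧ y ∈ Sp G k x := by
      cases hwl : w.length with
      | zero =>
        have e1 : w = [] := List.length_eq_zero_iff.1 hwl
        subst e1
        exact ⟨1, by omega, Sp_one.2 (mem_nb.1 hy)⟩
      | succ k =>
        rw [hwl] at hS
        rcases (hT x (phi G x w) k (by omega) hS).2 y hy with hh | hh
        · exact ⟨k, by omega, hh⟩
        · exact ⟨k + 2, by omega, hh⟩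
    obtain ⟨k, hk, hyk⟩ := hyS
    obtain ⟨w', hw', hlw', rfl⟩ := phi_surj hd hT x k hk y hyk
    exact ⟨w', hw', (phi_adj hd hT x w w' hw hw' (by omega) (by omega)).1 (mem_nb.1 hy), rfl⟩
  · rintro ⟨w', hw', hta, rfl⟩
    rw [mem_nb]
    rcases hta with ⟨a, rfl⟩ | ⟨a, rfl⟩
    · exact adj_cons hd hT x a w hw' (by simp; omega)
    · exact (adj_cons hd hT x a w' hw (by omega)).symm

/-- sides alternate -/
theorem side_phi {G : SimpleGraph V} (hd : Rgl G d) {J : ℕ} (hT : TreeTo G J) (c : V → Bool)
    (hc : ∀ u v, G.Adj u v → c u ≠ c v) (x : V) :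
    ∀ w : List (Fin d), Ok w → w.length ≤ J + 2 →
      c (phi G x w) = if Even w.length then c x else !(c x) := by
  intro w
  induction w with
  | nil => intro _ _; simp
  | cons a t ih =>
    intro hw hl
    have h1 := ih hw.tail (by simp at hl; omega)
    have h2 := hc _ _ (adj_cons hd hT x a t hw hl)
    by_cases he : Even t.length
    · rw [if_pos he] at h1
      have he' : ¬ Even (a :: t).length := by
        rw [List.length_cons, Nat.even_add_one]; simpa using he
      rw [if_neg he']
      rw [h1] at h2
      revert h2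
      cases c x <;> cases c (phi G x (a :: t)) <;> simp
    · rw [if_neg he] at h1
      have he' : Even (a :: t).length := by
        rw [List.length_cons, Nat.even_add_one]; exact he
      rw [if_pos he']
      rw [h1] at h2
      revert h2
      cases c x <;> cases c (phi G x (a :: t)) <;> simp

end Tr

/-! ### The finite tree -/

/-- the vertices of the canonical tree: admissible words of length at most `K` -/
def TV (d K : ℕ) : Type := {w : List (Fin d) // Tr.Ok w ∧ w.length ≤ K}

noncomputable instance (d K : ℕ) : Fintype (TV d K) := by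
  have : Finite {w : List (Fin d) | w.length ≤ K} := List.finite_length_le (Fin d) K
  have h2 : Finite {w : List (Fin d) // Tr.Ok w ∧ w.length ≤ K} :=
    Finite.of_injective (fun w => (⟨w.1, w.2.2⟩ : {w : List (Fin d) | w.length ≤ K}))
      (fun a b h => by
        apply Subtype.ext
        simpa using h)
  exact Fintype.ofFinite {w : List (Fin d) // Tr.Ok w ∧ w.length ≤ K}

noncomputable instance (d K : ℕ) : DecidableEq (TV d K) := Classical.decEq _

/-- the canonical tree -/
def TG (d K : ℕ) : SimpleGraph (TV d K) where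
  Adj w w' := Tr.TA w.1 w'.1
  symm := by
    refine ⟨fun w w' h => ?_⟩
    rcases h with h | h
    · exact Or.inr h
    · exact Or.inl h
  loopless := by
    refine ⟨fun w h => ?_⟩
    rcases h with ⟨a, h⟩ | ⟨a, h⟩ <;> exact absurd (congrArg List.length h) (by simp)

/-- the root -/
def TR (d K : ℕ) : TV d K := ⟨[], trivial, Nat.zero_le _⟩

/-- the depth of a vertex -/
def TL {d K : ℕ} (w : TV d K) : ℕ := w.1.length

/-- the side of a vertex of the tree, the root has side `s` -/
def TS (d K : ℕ) (s : Bool) (w : TV d K) : Bool := if Even w.1.length then s else !s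

theorem TS_proper (d K : ℕ) (s : Bool) (w w' : TV d K) (h : (TG d K).Adj w w') :
    TS d K s w ≠ TS d K s w' := by
  have key : ∀ (a : Fin d) (t : List (Fin d)), (if Even t.length then s else !s) ≠
      (if Even (a :: t).length then s else !s) := by
    intro a t
    by_cases he : Even t.length
    · have he' : ¬ Even (a :: t).length := by
        rw [List.length_cons, Nat.even_add_one]; simpa using he
      rw [if_pos he, if_neg he']
      cases s <;> simp
    · have he' : Even (a :: t).length := by
        rw [List.length_cons, Nat.even_add_one]; exact he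
      rw [if_neg he, if_pos he']
      cases s <;> simp
  rcases h with ⟨a, h⟩ | ⟨a, h⟩
  · unfold TS; rw [h]; exact key a w.1
  · unfold TS; rw [h]; exact (key a w'.1).symm

section emb
variable {V : Type*} [Fintype V] {d K J : ℕ}

/-- the embedding of the tree into the ball -/
noncomputable def TE (G : SimpleGraph V) (x : V) (w : TV d K) : V := Tr.phi G x w.1

theorem TE_root (G : SimpleGraph V) (x : V) : TE G x (TR d K) = x := rfl

theorem TE_inj {G : SimpleGraph V} (hd : Rgl G d) (hT : TreeTo G J) (hK : K ≤ J + 1) (x : V) :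
    Function.Injective (TE (d := d) (K := K) G x) := fun w w' h =>
  Subtype.ext (Tr.phi_inj hd hT x w.1 w'.1 w.2.1 w'.2.1 (w.2.2.trans hK) (w'.2.2.trans hK) h)

theorem TE_adj {G : SimpleGraph V} (hd : Rgl G d) (hT : TreeTo G J) (hK : K ≤ J + 1) (x : V)
    (w w' : TV d K) : G.Adj (TE G x w) (TE G x w') ↔ (TG d K).Adj w w' :=
  Tr.phi_adj hd hT x w.1 w'.1 w.2.1 w'.2.1 (w.2.2.trans hK) (w'.2.2.trans hK)

theorem TE_side {G : SimpleGraph V} (hd : Rgl G d) (hT : TreeTo G J) (hK : K ≤ J + 1) (c : V → Bool)
    (hc : ∀ u v, G.Adj u v → c u ≠ c v) (x : V) (w : TV d K) :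
    c (TE G x w) = TS d K (c x) w :=
  Tr.side_phi hd hT c hc x w.1 w.2.1 (w.2.2.trans (by omega))

theorem TE_nb {G : SimpleGraph V} (hd : Rgl G d) (hT : TreeTo G J) (hK : K ≤ J + 1) (x : V)
    (w : TV d K) (hw : TL w < K) :
    nb G (TE G x w) = (nb (TG d K) w).image (TE G x) := by
  ext y
  rw [mem_image]
  have hl : w.1.length < K := hw
  constructor
  · intro hy
    obtain ⟨w', hw', hta, hy'⟩ := (Tr.nb_phi hd hT x w.1 w.2.1 (by omega) y).1 hy
    have hlen : w'.length ≤ K := by
      rcases hta with ⟨a, h⟩ | ⟨a, h⟩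
      · rw [h]; simp; omega
      · have := congrArg List.length h; simp at this; omega
    exact ⟨⟨w', hw', hlen⟩, mem_nb.2 hta, hy'⟩
  · rintro ⟨w', hw', rfl⟩
    rw [mem_nb] at hw' ⊢
    exact (TE_adj hd hT hK x w w').2 hw'

theorem TE_card_nb {G : SimpleGraph V} (hd : Rgl G d) (hT : TreeTo G J) (hK : K ≤ J + 1) (x : V)
    (w : TV d K) (hw : TL w < K) : #(nb (TG d K) w) = d := by
  have h := hd (TE G x w)
  rw [TE_nb hd hT hK x w hw, card_image_of_injective _ (TE_inj hd hT hK x)] at h
  exact h

/-- neighbours in the tree have depth at most one more -/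
theorem TL_adj {w w' : TV d K} (h : (TG d K).Adj w w') : TL w' ≤ TL w + 1 := by
  rcases h with ⟨a, h⟩ | ⟨a, h⟩
  · unfold TL; rw [h]; simp
  · unfold TL; rw [h]; simp; omega

/-- every vertex at distance at most `K` of `x` is in the image -/
theorem TE_surj {G : SimpleGraph V} (hd : Rgl G d) (hT : TreeTo G J) (hK : K ≤ J + 1) (x y : V)
    (hy : y ∈ Bl G K x) : ∃ w : TV d K, TE G x w = y ∧ TL w = G.dist x y := by
  have h : G.Reachable x y ∧ G.dist x y ≤ K := by simpa [Bl] using hy
  obtain ⟨w, hw, hl, he⟩ := Tr.phi_surj hd hT x (G.dist x y) (h.2.trans hK) y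
    (Tr.mem_Sp.2 ⟨h.1, rfl⟩)
  exact ⟨⟨w, hw, by rw [hl]; exact h.2⟩, he, hl⟩

theorem TE_mem_Sp {G : SimpleGraph V} (hd : Rgl G d) (hT : TreeTo G J) (hK : K ≤ J + 1) (x : V)
    (w : TV d K) : TE G x w ∈ Sp G (TL w) x :=
  (Tr.phi_mem hd hT x w.1 w.2.1 (w.2.2.trans (by omega))).1

end emb

end LD
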