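import Pool.Agent.W_5dd92e_ld.GasP
import Pool.Agent.W_5dd92e_ld.GasT

/-!
# Transport of the polymer weights along local isomorphisms

`LocI H G e I`: the injection `e : T → V` preserves the full neighbourhoods of the vertices of `I`.
For `U ⊆ I` all polymer weights and partition functions inside `U` are preserved.
-/

set_option autoImplicit false
set_option linter.unusedSectionVars false

namespace LD

open Finset
open scoped Classical

section xi
variable {T V : Type*}

/-- transport of an abstract partition function -/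
theorem Xi_image {lk : V → Finset V} {lk' : T → Finset T} {W : Finset V → ℝ} {W' : Finset T → ℝ}
    {e : T → V} (he : Function.Injective e) (U : Finset T)
    (hlk : ∀ x ∈ U, ∀ y ∈ U, (e y ∈ lk (e x) ↔ y ∈ lk' x))
    (hW : ∀ g ⊆ U, W (g.image e) = W' g) : Xi lk W (U.image e) = Xi lk' W' U := by
  unfold Xi
  symm
  refine Finset.sum_bij (fun F _ => F.image (fun g => g.image e)) ?_ ?_ ?_ ?_
  · intro F hF
    obtain ⟨h1, h2, h3⟩ := mem_Fam.1 hF
    rw [mem_Fam]
    refine ⟨?_, ?_, ?_⟩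
    · intro g hg
      obtain ⟨g', hg', rfl⟩ := mem_image.1 hg
      exact image_subset_image (h1 g' hg')
    · intro g hg
      obtain ⟨g', hg', rfl⟩ := mem_image.1 hg
      exact (h2 g' hg').image e
    · intro g hg g1 hg1 hne
      obtain ⟨g', hg', rfl⟩ := mem_image.1 hg
      obtain ⟨g1', hg1', rfl⟩ := mem_image.1 hg1
      have hne' : g' ≠ g1' := fun h => hne (by rw [h])
      have hd := h3 g' hg' g1' hg1' hne'
      rw [Finset.disjoint_left] at hd ⊢
      intro v hv hv'
      obtain ⟨y, hy, rfl⟩ := mem_image.1 hv'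
      obtain ⟨u, hu, hyu⟩ := mem_nbS.1 hv
      obtain ⟨x, hx, rfl⟩ := mem_image.1 hu
      refine hd (a := y) (mem_nbS.2 ⟨x, hx, ?_⟩) hy
      exact (hlk x (h1 g' hg' hx) y (h1 g1' hg1' hy)).1 hyu
  · intro F _ F' _ h
    exact Finset.image_injective (Finset.image_injective he) h
  · intro F hF
    obtain ⟨h1, h2, h3⟩ := mem_Fam.1 hF
    have hpre : ∀ g ∈ F, (U.filter (fun x => e x ∈ g)).image e = g := by
      intro g hg
      ext v
      rw [mem_image]
      constructor
      · rintro ⟨x, hx, rfl⟩; exact (mem_filter.1 hx).2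
      · intro hv
        obtain ⟨x, hx, rfl⟩ := mem_image.1 (h1 g hg hv)
        exact ⟨x, mem_filter.2 ⟨hx, hv⟩, rfl⟩
    refine ⟨F.image (fun g => U.filter (fun x => e x ∈ g)), ?_, ?_⟩
    · rw [mem_Fam]
      refine ⟨?_, ?_, ?_⟩
      · intro g hg
        obtain ⟨g', _, rfl⟩ := mem_image.1 hg
        exact filter_subset _ _
      · intro g hg
        obtain ⟨g', hg', rfl⟩ := mem_image.1 hg
        have := h2 g' hg'
        rw [← hpre g' hg'] at this
        exact Finset.image_nonempty.1 this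
      · intro g hg g1 hg1 hne
        obtain ⟨g', hg', rfl⟩ := mem_image.1 hg
        obtain ⟨g1', hg1', rfl⟩ := mem_image.1 hg1
        have hne' : g' ≠ g1' := fun h => hne (by rw [h])
        have hd := h3 g' hg' g1' hg1' hne'
        rw [Finset.disjoint_left] at hd ⊢
        intro y hy hy'
        obtain ⟨x, hx, hyx⟩ := mem_nbS.1 hy
        obtain ⟨hxU, hxg⟩ := mem_filter.1 hx
        obtain ⟨hyU, hyg⟩ := mem_filter.1 hy'
        exact hd (mem_nbS.2 ⟨e x, hxg, (hlk x hxU y hyU).2 hyx⟩) hyg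
    · rw [image_image]
      have : F.image ((fun g : Finset T => g.image e) ∘ fun g => U.filter (fun x => e x ∈ g)) =
          F.image id := by
        refine image_congr ?_
        intro g hg
        exact hpre g (mem_coe.1 hg)
      rw [this, image_id]
  · intro F hF
    obtain ⟨h1, _, _⟩ := mem_Fam.1 hF
    rw [prod_image (fun a _ b _ h => Finset.image_injective he h)]
    exact prod_congr rfl fun g hg => (hW g (h1 g hg)).symm

end xi

section loc
variable {T V : Type*} [Fintype T] [Fintype V]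

/-- `e` maps `H` into `G`, full neighbourhoods are preserved at the vertices of `I` -/
structure LocI (H : SimpleGraph T) (G : SimpleGraph V) (e : T → V) (I : Finset T) : Prop where
  inj : Function.Injective e
  nbI : ∀ w ∈ I, nb G (e w) = (nb H w).image e

variable {H : SimpleGraph T} {G : SimpleGraph V} {e : T → V} {I : Finset T}

theorem LocI.adj (h : LocI H G e I) {w w' : T} (hw : w ∈ I) :
    G.Adj (e w) (e w') ↔ H.Adj w w' := by
  rw [← mem_nb, h.nbI w hw, mem_image]
  constructor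
  · rintro ⟨z, hz, hzz⟩
    rw [h.inj hzz] at hz
    exact mem_nb.1 hz
  · intro h'
    exact ⟨w', mem_nb.2 h', rfl⟩

theorem LocI.adj' (h : LocI H G e I) {w w' : T} (hw' : w' ∈ I) :
    G.Adj (e w) (e w') ↔ H.Adj w w' := by
  rw [G.adj_comm, H.adj_comm]
  exact h.adj hw'

theorem LocI.lk (h : LocI H G e I) {x y : T} (hx : x ∈ I) (hy : y ∈ I) :
    e y ∈ lkG G (e x) ↔ y ∈ lkG H x := by
  rw [mem_lkG, mem_lkG]
  refine or_congr h.inj.eq_iff (or_congr (h.adj hx) ?_)
  constructor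
  · rintro ⟨z, h1, h2⟩
    have hz : z ∈ nb G (e x) := mem_nb.2 h1
    rw [h.nbI x hx, mem_image] at hz
    obtain ⟨z', hz', rfl⟩ := hz
    exact ⟨z', mem_nb.1 hz', (h.adj' hy).1 h2⟩
  · rintro ⟨z, h1, h2⟩
    exact ⟨e z, (h.adj hx).2 h1, (h.adj' hy).2 h2⟩

/-- the full link neighbourhood is preserved one step inside `I` -/
theorem LocI.lk_image (h : LocI H G e I) {x : T} (hx : x ∈ I) (hN : ∀ z, H.Adj x z → z ∈ I) :
    lkG G (e x) = (lkG H x).image e := by
  ext v
  rw [mem_image, mem_lkG]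
  constructor
  · rintro (rfl | h1 | ⟨z, h1, h2⟩)
    · exact ⟨x, mem_lkG.2 (Or.inl rfl), rfl⟩
    · have hz : v ∈ nb G (e x) := mem_nb.2 h1
      rw [h.nbI x hx, mem_image] at hz
      obtain ⟨z', hz', rfl⟩ := hz
      exact ⟨z', mem_lkG.2 (Or.inr (Or.inl (mem_nb.1 hz'))), rfl⟩
    · have hz : z ∈ nb G (e x) := mem_nb.2 h1
      rw [h.nbI x hx, mem_image] at hz
      obtain ⟨z', hz', rfl⟩ := hz
      have hv : v ∈ nb G (e z') := mem_nb.2 h2
      rw [h.nbI z' (hN z' (mem_nb.1 hz')), mem_image] at hv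
      obtain ⟨v', hv', rfl⟩ := hv
      exact ⟨v', mem_lkG.2 (Or.inr (Or.inr ⟨z', mem_nb.1 hz', mem_nb.1 hv'⟩)), rfl⟩
  · rintro ⟨y, hy, rfl⟩
    rw [mem_lkG] at hy
    rcases hy with rfl | h1 | ⟨z, h1, h2⟩
    · exact Or.inl rfl
    · exact Or.inr (Or.inl ((h.adj hx).2 h1))
    · exact Or.inr (Or.inr ⟨e z, (h.adj hx).2 h1, (h.adj (hN z h1)).2 h2⟩)

theorem LocI.nout (h : LocI H G e I) {g : Finset T} (hg : g ⊆ I) :
    Nout G (g.image e) = (Nout H g).image e := by
  ext v
  constructor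
  · intro hv0
    obtain ⟨⟨x, hx, hxv⟩, hv⟩ := mem_Nout.1 hv0
    obtain ⟨x', hx', rfl⟩ := mem_image.1 hx
    have hz : v ∈ nb G (e x') := mem_nb.2 hxv
    rw [h.nbI x' (hg hx'), mem_image] at hz
    obtain ⟨z', hz', rfl⟩ := hz
    exact mem_image.2 ⟨z', mem_Nout.2 ⟨⟨x', hx', mem_nb.1 hz'⟩,
      fun hzg => hv (mem_image_of_mem e hzg)⟩, rfl⟩
  · intro hv0
    obtain ⟨y, hy, rfl⟩ := mem_image.1 hv0
    obtain ⟨⟨x, hx, hxy⟩, hyg⟩ := mem_Nout.1 hy
    refine mem_Nout.2 ⟨⟨e x, mem_image_of_mem e hx, (h.adj (hg hx)).2 hxy⟩, fun hy' => ?_⟩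
    obtain ⟨y', hy', hyy⟩ := mem_image.1 hy'
    rw [h.inj hyy] at hy'
    exact hyg hy'

theorem LocI.nb_inter (h : LocI H G e I) {g : Finset T} (hg : g ⊆ I) (y : T) :
    nb G (e y) ∩ g.image e = (nb H y ∩ g).image e := by
  ext v
  rw [mem_inter, mem_image, mem_image]
  constructor
  · rintro ⟨h1, ⟨x, hx, rfl⟩⟩
    exact ⟨x, mem_inter.2 ⟨mem_nb.2 ((h.adj' (hg hx)).1 (mem_nb.1 h1)), hx⟩, rfl⟩
  · rintro ⟨x, hx, rfl⟩
    obtain ⟨h1, h2⟩ := mem_inter.1 hx
    exact ⟨mem_nb.2 ((h.adj' (hg h2)).2 (mem_nb.1 h1)), ⟨x, h2, rfl⟩⟩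

theorem LocI.alw (h : LocI H G e I) {g : Finset T} (hg : g ⊆ I) (ζ : ℝ) :
    Alw G ζ (g.image e) ↔ Alw H ζ g := by
  unfold Alw
  rw [h.nout hg, card_image_of_injective _ h.inj, card_image_of_injective _ h.inj]

theorem LocI.linked (h : LocI H G e I) {g : Finset T} (hg : g ⊆ I) :
    Linked (lkG G) (g.image e) ↔ Linked (lkG H) g := by
  have key : ∀ x ∈ g, ∀ v, lkR (lkG G) (g.image e) (e x) v → ∃ y ∈ g, e y = v ∧ lkR (lkG H) g x y := by
    intro x hx v hv
    induction hv with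
    | refl => exact ⟨x, hx, rfl, Relation.ReflTransGen.refl⟩
    | tail h1 h2 ih =>
      obtain ⟨y, hy, rfl, hxy⟩ := ih
      obtain ⟨_, h3, h4⟩ := h2
      obtain ⟨z, hz, rfl⟩ := mem_image.1 h3
      exact ⟨z, hz, rfl, hxy.tail ⟨hy, hz, (h.lk (hg hy) (hg hz)).1 h4⟩⟩
  constructor
  · intro hL x hx y hy
    obtain ⟨y', _, he, hxy⟩ := key x hx (e y)
      (hL (e x) (mem_image_of_mem e hx) (e y) (mem_image_of_mem e hy))
    rw [h.inj he] at hxy
    exact hxy
  · intro hL v hv u hu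
    obtain ⟨x, hx, rfl⟩ := mem_image.1 hv
    obtain ⟨y, hy, rfl⟩ := mem_image.1 hu
    have hxy := hL x hx y hy
    clear hu hy hv
    induction hxy with
    | refl => exact Relation.ReflTransGen.refl
    | tail h1 h2 ih =>
      exact ih.tail
        ⟨mem_image_of_mem e h2.1, mem_image_of_mem e h2.2.1, (h.lk (hg h2.1) (hg h2.2.1)).2 h2.2.2⟩

end loc

section phase
variable {T V : Type*} [Fintype T] [Fintype V] {q : ℕ}
variable {H : SimpleGraph T} {G : SimpleGraph V} {e : T → V} {I : Finset T}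

theorem LocI.rr_eq (h : LocI H G e I) (c : V → Bool) {A : Fin q → Fin q → ℝ} (P : Ph A)
    {g : Finset T} (hg : g ⊆ I) (s : V → Fin q) (y : T) :
    rr G c P (g.image e) s (e y) = rr H (fun w => c (e w)) P g (fun w => s (e w)) y := by
  unfold rr
  rw [h.nb_inter hg]
  have hp : pat c P (e y) = pat (fun w => c (e w)) P y := rfl
  rw [hp]
  congr 1
  refine sum_congr rfl fun t _ => ?_
  rw [prod_image (fun a _ b _ hab => h.inj hab)]

theorem LocI.w1P_eq (h : LocI H G e I) (c : V → Bool) {A : Fin q → Fin q → ℝ} (P : Ph A)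
    {g : Finset T} (hg : g ⊆ I) (s : V → Fin q) :
    w1P G c P (g.image e) s = w1P H (fun w => c (e w)) P g (fun w => s (e w)) := by
  unfold w1P
  rw [prod_image (fun a _ b _ hab => h.inj hab), h.nout hg,
    prod_image (fun a _ b _ hab => h.inj hab), filter_image,
    prod_image (fun a _ b _ hab => h.inj hab)]
  congr 1
  · congr 1
    refine prod_congr rfl fun x _ => ?_
    rw [h.nb_inter hg, prod_image (fun a _ b _ hab => h.inj hab)]
  · exact prod_congr rfl fun y _ => h.rr_eq c P hg s y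

theorem LocI.Wc_eq (h : LocI H G e I) {C : Type*} (pt : V → Finset C) (q0 : C)
    (w1 : Finset V → (V → C) → ℝ) (w1' : Finset T → (T → C) → ℝ) (g : Finset T)
    (hw : ∀ s : V → C, w1 (g.image e) s = w1' g (fun w => s (e w))) :
    Wc pt q0 w1 (g.image e) = Wc (fun w => pt (e w)) q0 w1' g := by
  unfold Wc
  refine Finset.sum_bij (fun s _ => fun w => s (e w)) ?_ ?_ ?_ ?_
  · intro s hs
    rw [mem_Colr] at hs ⊢
    refine ⟨fun x hx => hs.1 (e x) (mem_image_of_mem e hx), fun x hx => hs.2 (e x) fun hx' => ?_⟩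
    obtain ⟨x', hx', hxx⟩ := mem_image.1 hx'
    rw [h.inj hxx] at hx'
    exact hx hx'
  · intro s hs s' hs' hss
    rw [mem_Colr] at hs hs'
    funext v
    by_cases hv : v ∈ g.image e
    · obtain ⟨x, _, rfl⟩ := mem_image.1 hv
      exact congrFun hss x
    · rw [hs.2 v hv, hs'.2 v hv]
  · intro t ht
    rw [mem_Colr] at ht
    refine ⟨fun v => if hv : ∃ x ∈ g, e x = v then t hv.choose else q0, ?_, ?_⟩
    · rw [mem_Colr]
      constructor
      · intro v hv
        have hv' : ∃ x ∈ g, e x = v := by simpa [mem_image] using hv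
        rw [dif_pos hv']
        have hc := hv'.choose_spec
        have h3 : t hv'.choose ∈ pt (e hv'.choose) := ht.1 _ hc.1
        rwa [hc.2] at h3
      · intro v hv
        have hv' : ¬ ∃ x ∈ g, e x = v := by simpa [mem_image] using hv
        rw [dif_neg hv']
    · funext w
      by_cases hw' : w ∈ g
      · have hv' : ∃ x ∈ g, e x = e w := ⟨w, hw', rfl⟩
        show (if hv : ∃ x ∈ g, e x = e w then t hv.choose else q0) = t w
        rw [dif_pos hv', h.inj hv'.choose_spec.2]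
      · have hv' : ¬ ∃ x ∈ g, e x = e w := by
          rintro ⟨x, hx, hxe⟩
          rw [h.inj hxe] at hx
          exact hw' hx
        show (if hv : ∃ x ∈ g, e x = e w then t hv.choose else q0) = t w
        rw [dif_neg hv', ht.2 w hw']
  · intro s _
    exact hw s

theorem LocI.wP_eq (h : LocI H G e I) (c : V → Bool) {A : Fin q → Fin q → ℝ} (q0 : Fin q) (ζ : ℝ)
    (P : Ph A) {g : Finset T} (hg : g ⊆ I) :
    wP G c q0 ζ P (g.image e) = wP H (fun w => c (e w)) q0 ζ P g := by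
  unfold wP
  have h1 : (Linked (lkG G) (g.image e) ∧ Alw G ζ (g.image e)) ↔ (Linked (lkG H) g ∧ Alw H ζ g) :=
    and_congr (h.linked hg) (h.alw hg ζ)
  by_cases hc : Linked (lkG H) g ∧ Alw H ζ g
  · rw [if_pos hc, if_pos (h1.2 hc)]
    exact h.Wc_eq (fun x => (pat c P x)ᶜ) q0 (w1P G c P) (w1P H (fun w => c (e w)) P) g
      (fun s => h.w1P_eq c P hg s)
  · rw [if_neg hc, if_neg (fun h' => hc (h1.1 h'))]

theorem LocI.XiP_eq (h : LocI H G e I) (c : V → Bool) {A : Fin q → Fin q → ℝ} (q0 : Fin q) (ζ : ℝ)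
    (P : Ph A) {U : Finset T} (hU : U ⊆ I) :
    XiP G c q0 ζ P (U.image e) = XiP H (fun w => c (e w)) q0 ζ P U := by
  unfold XiP
  exact Xi_image h.inj U (fun x hx y hy => h.lk (hU hx) (hU hy))
    (fun g hg => h.wP_eq c q0 ζ P (hg.trans hU))

end phase

section tree
variable {V : Type*} [Fintype V] {d K J : ℕ}

/-- the vertices of the tree of depth less than `K` -/
noncomputable def TI (d K : ℕ) : Finset (TV d K) := univ.filter (fun w => TL w < K)

theorem mem_TI {w : TV d K} : w ∈ TI d K ↔ TL w < K := by simp [TI]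

theorem TE_LocI {G : SimpleGraph V} (hd : Rgl G d) (hT : TreeTo G J) (hK : K ≤ J + 1) (x : V) :
    LocI (TG d K) G (TE G x) (TI d K) where
  inj := TE_inj hd hT hK x
  nbI := fun w hw => TE_nb hd hT hK x w (mem_TI.1 hw)

end tree

end LD
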