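import Pool.Agent.W_5dd92e_ld.GasE
import Pool.Agent.W_5dd92e_ld.GasU

/-!
# MP_5dd92e_co, large degree theorem: link balls and the canonical tree
-/

set_option autoImplicit false

namespace LD

open Finset
open scoped Classical

section bk
variable {α : Type*} {lk : α → Finset α}

theorem mem_Bk_succ' {k : ℕ} {x y : α} :
    y ∈ Bk lk (k + 1) x ↔ ∃ z ∈ lk x, y ∈ Bk lk k z := by
  induction k generalizing y with
  | zero => simp [Bk]
  | succ k ih =>
    constructor
    · intro h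
      obtain ⟨u, hu, hy⟩ := mem_biUnion.1 h
      obtain ⟨z, hz, hu⟩ := ih.1 hu
      exact ⟨z, hz, mem_biUnion.2 ⟨u, hu, hy⟩⟩
    · rintro ⟨z, hz, hy⟩
      obtain ⟨u, hu, hy⟩ := mem_biUnion.1 hy
      exact mem_biUnion.2 ⟨u, ih.2 ⟨z, hz, hu⟩, hy⟩

theorem Bk_symm (hlk : LkOk lk) {k : ℕ} {x y : α} (h : y ∈ Bk lk k x) : x ∈ Bk lk k y := by
  induction k generalizing x y with
  | zero =>
    rw [Bk_zero, mem_singleton] at h ⊢
    exact h.symm
  | succ k ih =>
    obtain ⟨u, hu, hy⟩ := mem_biUnion.1 h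
    exact mem_Bk_succ'.2 ⟨u, hlk.symm _ _ hy, ih hu⟩

theorem card_Bk {M : ℕ} (hM : ∀ x, #(lk x) ≤ M) (k : ℕ) (x : α) : #(Bk lk k x) ≤ M ^ k := by
  induction k with
  | zero => simp [Bk]
  | succ k ih =>
    calc #(Bk lk (k + 1) x) ≤ ∑ y ∈ Bk lk k x, #(lk y) := card_biUnion_le
      _ ≤ ∑ _y ∈ Bk lk k x, M := sum_le_sum fun y _ => hM y
      _ = #(Bk lk k x) * M := by rw [sum_const, smul_eq_mul]
      _ ≤ M ^ (k + 1) := by rw [pow_succ]; exact Nat.mul_le_mul_right M ih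

end bk

section bkG
variable {V : Type*} [Fintype V]

/-- the closed link neighbourhood has at most `(d+1)^2` vertices -/
theorem card_lkG_le {G : SimpleGraph V} {d : ℕ} (hd : ∀ x, #(nb G x) ≤ d) (x : V) :
    #(lkG G x) ≤ (d + 1) ^ 2 := by
  have hsub : lkG G x ⊆ (insert x (nb G x)).biUnion (fun z => insert z (nb G z)) := by
    intro y hy
    rw [mem_biUnion]
    rcases mem_lkG.1 hy with rfl | h | ⟨z, h1, h2⟩
    · exact ⟨y, mem_insert_self _ _, mem_insert_self _ _⟩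
    · exact ⟨x, mem_insert_self _ _, mem_insert_of_mem (mem_nb.2 h)⟩
    · exact ⟨z, mem_insert_of_mem (mem_nb.2 h1), mem_insert_of_mem (mem_nb.2 h2)⟩
  have h1 : ∀ z, #(insert z (nb G z)) ≤ d + 1 := fun z =>
    (card_insert_le _ _).trans (Nat.add_le_add_right (hd z) 1)
  calc #(lkG G x) ≤ #((insert x (nb G x)).biUnion (fun z => insert z (nb G z))) :=
        card_le_card hsub
    _ ≤ ∑ z ∈ insert x (nb G x), #(insert z (nb G z)) := card_biUnion_le
    _ ≤ ∑ _z ∈ insert x (nb G x), (d + 1) := sum_le_sum fun z _ => h1 z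
    _ = #(insert x (nb G x)) * (d + 1) := by rw [sum_const, smul_eq_mul]
    _ ≤ (d + 1) ^ 2 := by rw [pow_two]; exact Nat.mul_le_mul_right _ (h1 x)

theorem card_BkG {G : SimpleGraph V} {d : ℕ} (hd : ∀ x, #(nb G x) ≤ d) (k : ℕ) (x : V) :
    #(Bk (lkG G) k x) ≤ (d + 1) ^ (2 * k) := by
  rw [pow_mul]
  exact card_Bk (card_lkG_le hd) k x

/-- If the link ball leaves `U`, then it contains a vertex of `U` with a neighbour outside `U`. -/
theorem exists_bdry {G : SimpleGraph V} {U : Finset V} {k : ℕ} {x : V} (hx : x ∈ U)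
    (h : ¬ Bk (lkG G) k x ⊆ U) :
    ∃ y ∈ Bk (lkG G) k x, y ∈ U ∧ ¬ nb G y ⊆ U := by
  induction k with
  | zero =>
    exfalso
    apply h
    intro y hy
    have : y = x := by simpa [Bk] using hy
    rw [this]; exact hx
  | succ k ih =>
    by_cases hk : Bk (lkG G) k x ⊆ U
    · obtain ⟨y, hy, hyU⟩ := not_subset.1 h
      obtain ⟨z, hz, hyz⟩ := mem_biUnion.1 hy
      rcases mem_lkG.1 hyz with rfl | h1 | ⟨u, h1, h2⟩
      · exact absurd (hk hz) hyU
      · exact ⟨z, Bk_sub_succ (lkG_ok G) k x hz, hk hz, fun hs => hyU (hs (mem_nb.2 h1))⟩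
      · by_cases hu : u ∈ U
        · refine ⟨u, mem_biUnion.2 ⟨z, hz, mem_lkG.2 (Or.inr (Or.inl h1))⟩, hu, fun hs => hyU (hs (mem_nb.2 h2))⟩
        · exact ⟨z, Bk_sub_succ (lkG_ok G) k x hz, hk hz, fun hs => hu (hs (mem_nb.2 h1))⟩
    · obtain ⟨y, hy, hyU⟩ := ih hk
      exact ⟨y, Bk_sub_succ (lkG_ok G) k x hy, hyU⟩

/-- the vertices of `U` with a neighbour outside `U` -/
noncomputable def Bdy (G : SimpleGraph V) (U : Finset V) : Finset V :=
  U.filter (fun x => ¬ nb G x ⊆ U)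

/-- few vertices of `U` have a link ball which leaves `U` -/
theorem card_leaveG {G : SimpleGraph V} {d : ℕ} (hd : ∀ x, #(nb G x) ≤ d) (U : Finset V) (k : ℕ) :
    #(U.filter (fun x => ¬ Bk (lkG G) k x ⊆ U)) ≤ (d + 1) ^ (2 * k) * #(Bdy G U) := by
  have hsub : U.filter (fun x => ¬ Bk (lkG G) k x ⊆ U) ⊆
      (Bdy G U).biUnion (fun y => Bk (lkG G) k y) := by
    intro x hx
    obtain ⟨hxU, hx⟩ := mem_filter.1 hx
    obtain ⟨y, hy, hyU, hyn⟩ := exists_bdry hxU hx
    exact mem_biUnion.2 ⟨y, mem_filter.2 ⟨hyU, hyn⟩, Bk_symm (lkG_ok G) hy⟩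
  calc #(U.filter (fun x => ¬ Bk (lkG G) k x ⊆ U)) ≤ #((Bdy G U).biUnion (fun y => Bk (lkG G) k y)) :=
        card_le_card hsub
    _ ≤ ∑ y ∈ Bdy G U, #(Bk (lkG G) k y) := card_biUnion_le
    _ ≤ ∑ _y ∈ Bdy G U, (d + 1) ^ (2 * k) := sum_le_sum fun y _ => card_BkG hd k y
    _ = (d + 1) ^ (2 * k) * #(Bdy G U) := by rw [sum_const, smul_eq_mul, mul_comm]

end bkG

/-! ### Local isomorphisms and link balls -/

section iso
variable {T V : Type*} [Fintype T] [Fintype V] {H : SimpleGraph T} {G : SimpleGraph V} {e : T → V}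
  {I : Finset T}

theorem LocI.Bk_image (h : LocI H G e I) {k : ℕ} {r : T}
    (hI : ∀ w, w ∈ Bk (lkG H) k r → w ∈ I) :
    Bk (lkG G) k (e r) = (Bk (lkG H) k r).image e := by
  induction k with
  | zero => simp [Bk]
  | succ k ih =>
    have hI' : ∀ w, w ∈ Bk (lkG H) k r → w ∈ I := fun w hw => hI w (Bk_sub_succ (lkG_ok H) k r hw)
    have ih' := ih hI'
    show (Bk (lkG G) k (e r)).biUnion (lkG G) = ((Bk (lkG H) k r).biUnion (lkG H)).image e
    rw [ih', image_biUnion, biUnion_image]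
    refine biUnion_congr rfl fun w hw => ?_
    refine h.lk_image (hI' w hw) fun z hz => hI z ?_
    exact mem_biUnion.2 ⟨w, hw, mem_lkG.2 (Or.inr (Or.inl hz))⟩

end iso

section treeballs
variable {V : Type*} [Fintype V] {d K J : ℕ}

theorem TL_Bk {k : ℕ} {w : TV d K} (hw : w ∈ Bk (lkG (TG d K)) k (TR d K)) : TL w ≤ 2 * k := by
  induction k generalizing w with
  | zero =>
    have : w = TR d K := by simpa [Bk] using hw
    rw [this]; simp [TL, TR]
  | succ k ih =>
    obtain ⟨z, hz, hw⟩ := mem_biUnion.1 hw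
    have h1 := ih hz
    rcases mem_lkG.1 hw with rfl | h | ⟨u, h2, h3⟩
    · omega
    · have := TL_adj h; omega
    · have := TL_adj h2; have := TL_adj h3; omega

/-- the link ball around `x` is the image of the link ball around the root -/
theorem TE_Bk {G : SimpleGraph V} (hd : Rgl G d) (hT : TreeTo G J) (hK : K ≤ J + 1) (x : V)
    {k : ℕ} (hk : 2 * k < K) :
    Bk (lkG G) k x = (Bk (lkG (TG d K)) k (TR d K)).image (TE G x) :=
  (TE_LocI hd hT hK x).Bk_image (r := TR d K)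
    (fun _ hw => mem_TI.2 (lt_of_le_of_lt (TL_Bk hw) hk))

/-- inclusion of the smaller tree -/
def TInc {d K K' : ℕ} (h : K ≤ K') (w : TV d K) : TV d K' := ⟨w.1, w.2.1, w.2.2.trans h⟩

theorem TInc_LocI {d K K' : ℕ} (h : K ≤ K') :
    LocI (TG d K) (TG d K') (TInc h) (TI d K) where
  inj := fun a b hab => Subtype.ext (congrArg (fun w : TV d K' => w.1) hab)
  nbI := fun w hw => by
    have hw' : w.1.length < K := mem_TI.1 hw
    ext y
    rw [mem_image, mem_nb]
    constructor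
    · intro hy
      have hy' : Tr.TA w.1 y.1 := hy
      have hlen : y.1.length ≤ K := by
        rcases hy' with ⟨a, h⟩ | ⟨a, h⟩
        · rw [h]; simp; omega
        · have := congrArg List.length h; simp at this; omega
      exact ⟨⟨y.1, y.2.1, hlen⟩, mem_nb.2 hy', rfl⟩
    · rintro ⟨w', hw', rfl⟩
      have h1 : (TG d K).Adj w w' := mem_nb.1 hw'
      exact h1

theorem TInc_Bk {d K K' : ℕ} (h : K ≤ K') {k : ℕ} (hk : 2 * k < K) :
    Bk (lkG (TG d K')) k (TR d K') = (Bk (lkG (TG d K)) k (TR d K)).image (TInc h) :=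
  (TInc_LocI h).Bk_image (r := TR d K)
    (fun _ hw => mem_TI.2 (lt_of_le_of_lt (TL_Bk hw) hk))

theorem TInc_side {d K K' : ℕ} (h : K ≤ K') (s : Bool) (w : TV d K) :
    TS d K' s (TInc h w) = TS d K s w := rfl

/-- degrees in the tree are at most `d` -/
theorem card_nb_TG (d K : ℕ) (w : TV d K) : #(nb (TG d K) w) ≤ d := by
  have hmain : #(nb (TG d K) w) ≤ #(range d) := by
    refine card_le_card_of_injOn (fun y => if y.1.length = w.1.length + 1 then
      (match y.1 with | a :: _ => a.val | [] => 0) else d - 1) ?_ ?_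
    · intro y hy
      have hy' : Tr.TA w.1 y.1 := mem_nb.1 hy
      rcases hy' with ⟨a, h⟩ | ⟨a, h⟩
      · have h1 : y.1.length = w.1.length + 1 := by rw [h]; simp
        simp only [h1, if_true]
        rw [h]
        simp
      · have h1 : y.1.length ≠ w.1.length + 1 := by
          have := congrArg List.length h
          simp only [List.length_cons] at this
          omega
        simp only [h1, if_false]
        have := a.2
        simp
        omega
    · intro y hy y' hy' hyy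
      have hy1 : Tr.TA w.1 y.1 := mem_nb.1 hy
      have hy2 : Tr.TA w.1 y'.1 := mem_nb.1 hy'
      rcases hy1 with ⟨a, h⟩ | ⟨a, h⟩
      · have h1 : y.1.length = w.1.length + 1 := by rw [h]; simp
        have hva : (match y.1 with | a :: _ => a.val | [] => 0) = a.val := by rw [h]
        rcases hy2 with ⟨a', h'⟩ | ⟨a', h'⟩
        · have h2 : y'.1.length = w.1.length + 1 := by rw [h']; simp
          have hva' : (match y'.1 with | a :: _ => a.val | [] => 0) = a'.val := by rw [h']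
          simp only [h1, h2, if_true] at hyy
          rw [hva, hva'] at hyy
          apply Subtype.ext
          rw [h, h', Fin.ext hyy]
        · have h2 : y'.1.length ≠ w.1.length + 1 := by
            have := congrArg List.length h'
            simp only [List.length_cons] at this
            omega
          simp only [h1, h2, if_true, if_false] at hyy
          rw [hva] at hyy
          exfalso
          have hok := y.2.1
          rw [h, h'] at hok
          have := hok.2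
          omega
      · have h1 : y.1.length ≠ w.1.length + 1 := by
          have := congrArg List.length h
          simp only [List.length_cons] at this
          omega
        rcases hy2 with ⟨a', h'⟩ | ⟨a', h'⟩
        · have h2 : y'.1.length = w.1.length + 1 := by rw [h']; simp
          have hva' : (match y'.1 with | a :: _ => a.val | [] => 0) = a'.val := by rw [h']
          simp only [h1, h2, if_true, if_false] at hyy
          rw [hva'] at hyy
          exfalso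
          have hok := y'.2.1
          rw [h', h] at hok
          have := hok.2
          omega
        · apply Subtype.ext
          have h3 : a :: y.1 = a' :: y'.1 := by rw [← h, ← h']
          exact (List.cons.inj h3).2
  simpa using hmain

end treeballs

/-! ### Transport of the local free energy -/

section phi
variable {T V : Type*}

theorem nbS_image {lk : V → Finset V} {lk' : T → Finset T} {e : T → V} {U : Finset T}
    (hlk : ∀ x ∈ U, ∀ y ∈ U, (e y ∈ lk (e x) ↔ y ∈ lk' x)) {g : Finset T} (hg : g ⊆ U) :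
    U.image e \ nbS lk (g.image e) = (U \ nbS lk' g).image e := by
  ext v
  rw [mem_sdiff, mem_image, mem_image]
  constructor
  · rintro ⟨⟨y, hy, rfl⟩, h⟩
    refine ⟨y, mem_sdiff.2 ⟨hy, fun h' => h ?_⟩, rfl⟩
    obtain ⟨x, hx, hxy⟩ := mem_nbS.1 h'
    exact mem_nbS.2 ⟨e x, mem_image_of_mem e hx, (hlk x (hg hx) y hy).2 hxy⟩
  · rintro ⟨y, hy, rfl⟩
    obtain ⟨hy, hn⟩ := mem_sdiff.1 hy
    refine ⟨⟨y, hy, rfl⟩, fun h => hn ?_⟩
    obtain ⟨u, hu, hyu⟩ := mem_nbS.1 h
    obtain ⟨x, hx, rfl⟩ := mem_image.1 hu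
    exact mem_nbS.2 ⟨x, hx, (hlk x (hg hx) y hy).1 hyu⟩

theorem phi_image {lk : V → Finset V} {lk' : T → Finset T} {W : Finset V → ℝ} {W' : Finset T → ℝ}
    {e : T → V} (he : Function.Injective e) (U : Finset T)
    (hlk : ∀ x ∈ U, ∀ y ∈ U, (e y ∈ lk (e x) ↔ y ∈ lk' x))
    (hW : ∀ g ⊆ U, W (g.image e) = W' g) (x : T) :
    phi lk W (U.image e) (e x) = phi lk' W' U x := by
  have hXi : ∀ z, ∀ U' ⊆ U, Xi lk (Wz W z) (U'.image e) = Xi lk' (Wz W' z) U' := by
    intro z U' hU'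
    refine Xi_image he U' (fun x hx y hy => hlk x (hU' hx) y (hU' hy)) fun g hg => ?_
    unfold Wz
    rw [card_image_of_injective _ he, hW g (hg.trans hU')]
  unfold phi
  congr 1
  funext z
  unfold pc
  rw [hXi z U Subset.rfl]
  congr 1
  unfold pcn
  symm
  refine Finset.sum_bij (fun g _ => g.image e) ?_ ?_ ?_ ?_
  · intro g hg
    obtain ⟨h1, h2⟩ := mem_filter.1 hg
    exact mem_filter.2 ⟨mem_powerset.2 (image_subset_image (mem_powerset.1 h1)),
      mem_image_of_mem e h2⟩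
  · intro g _ g' _ h
    exact Finset.image_injective he h
  · intro g hg
    obtain ⟨h1, h2⟩ := mem_filter.1 hg
    obtain ⟨g', hg', rfl⟩ := subset_image_iff.1 (mem_powerset.1 h1)
    refine ⟨g', mem_filter.2 ⟨mem_powerset.2 hg', ?_⟩, rfl⟩
    obtain ⟨x', hx', hxx⟩ := mem_image.1 h2
    rwa [he hxx] at hx'
  · intro g hg
    obtain ⟨h1, h2⟩ := mem_filter.1 hg
    have hgU := mem_powerset.1 h1
    rw [nbS_image hlk hgU, hXi z _ sdiff_subset, hW g hgU, card_image_of_injective _ he]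

end phi

section phase
variable {T V : Type*} [Fintype T] [Fintype V] {q : ℕ}
variable {H : SimpleGraph T} {G : SimpleGraph V} {e : T → V} {I : Finset T}

theorem LocI.phi_eq (h : LocI H G e I) (c : V → Bool) {A : Fin q → Fin q → ℝ} (q0 : Fin q) (ζ : ℝ)
    (P : Ph A) {U : Finset T} (hU : U ⊆ I) (x : T) :
    phi (lkG G) (wP G c q0 ζ P) (U.image e) (e x) =
      phi (lkG H) (wP H (fun w => c (e w)) q0 ζ P) U x :=
  phi_image h.inj U (fun _ hx _ hy => h.lk (hU hx) (hU hy))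
    (fun _ hg => h.wP_eq c q0 ζ P (hg.trans hU)) x

end phase

/-! ### The local free energy of the canonical tree -/

section thk
variable {q : ℕ}

/-- the local free energy at the root of the tree, in the link ball of radius `k`; `s` is the side of the root -/
noncomputable def thk (d : ℕ) {A : Fin q → Fin q → ℝ} (q0 : Fin q) (ζ : ℝ) (P : Ph A) (s : Bool)
    (k : ℕ) : ℝ :=
  phi (lkG (TG d (2 * k + 1))) (wP (TG d (2 * k + 1)) (TS d (2 * k + 1) s) q0 ζ P)
    (Bk (lkG (TG d (2 * k + 1))) k (TR d (2 * k + 1))) (TR d (2 * k + 1))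

/-- the local free energy of every vertex of `G` in its link ball is that of the canonical tree -/
theorem phi_Bk_eq {V : Type*} [Fintype V] {d J : ℕ} {G : SimpleGraph V} (hd : Rgl G d)
    (hT : TreeTo G J) (c : V → Bool) (hc : ∀ u v, G.Adj u v → c u ≠ c v)
    {A : Fin q → Fin q → ℝ} (q0 : Fin q) (ζ : ℝ) (P : Ph A) {k : ℕ} (hk : 2 * k ≤ J) (x : V) :
    phi (lkG G) (wP G c q0 ζ P) (Bk (lkG G) k x) x = thk d q0 ζ P (c x) k := by
  have hK : 2 * k + 1 ≤ J + 1 := by omega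
  have h := TE_LocI hd hT hK x
  rw [TE_Bk hd hT hK x (k := k) (by omega)]
  have h2 : (fun w => c (TE G x w)) = TS d (2 * k + 1) (c x) := by
    funext w
    exact TE_side hd hT hK c hc x w
  have h3 := h.phi_eq c q0 ζ P (U := Bk (lkG (TG d (2 * k + 1))) k (TR d (2 * k + 1)))
    (fun w hw => mem_TI.2 (lt_of_le_of_lt (TL_Bk hw) (by omega))) (TR d (2 * k + 1))
  rw [TE_root, h2] at h3
  exact h3

/-- the same in a larger tree -/
theorem phi_TG_eq {d K : ℕ} {A : Fin q → Fin q → ℝ} (q0 : Fin q) (ζ : ℝ) (P : Ph A) (s : Bool)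
    {k : ℕ} (hk : 2 * k < K) :
    phi (lkG (TG d K)) (wP (TG d K) (TS d K s) q0 ζ P) (Bk (lkG (TG d K)) k (TR d K)) (TR d K) =
      thk d q0 ζ P s k := by
  have hK : 2 * k + 1 ≤ K := by omega
  have h := TInc_LocI (d := d) hK
  rw [TInc_Bk hK (k := k) (by omega)]
  have h3 := h.phi_eq (TS d K s) q0 ζ P (U := Bk (lkG (TG d (2 * k + 1))) k (TR d (2 * k + 1)))
    (fun w hw => mem_TI.2 (lt_of_le_of_lt (TL_Bk hw) (by omega))) (TR d (2 * k + 1))
  exact h3

/-- Cauchy property of `thk` -/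
theorem thk_cauchy {d : ℕ} {A : Fin q → Fin q → ℝ} {q0 : Fin q} {ζ : ℝ} {P : Ph A} {s : Bool}
    {κ δ : ℝ} {k k' : ℕ} (hkk : k ≤ k')
    (H : Good (lkG (TG d (2 * k' + 1))) (wP (TG d (2 * k' + 1)) (TS d (2 * k' + 1) s) q0 ζ P) κ δ) :
    |thk d q0 ζ P s k - thk d q0 ζ P s k'| ≤ δ / κ ^ k := by
  rw [← phi_TG_eq q0 ζ P s (k := k) (K := 2 * k' + 1) (by omega)]
  unfold thk
  refine phi_local H _ _ _ k fun y hy => ?_
  exact ⟨fun _ => Bk_mono H.lkok hkk _ hy, fun _ => hy⟩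

/-- the local free energy of the infinite tree, `s` is the side of the root -/
noncomputable def thl (d : ℕ) {A : Fin q → Fin q → ℝ} (q0 : Fin q) (ζ : ℝ) (P : Ph A)
    (s : Bool) : ℝ :=
  if h : ∃ a, Filter.Tendsto (fun k => thk d q0 ζ P s k) Filter.atTop (nhds a) then h.choose else 0

theorem thl_spec {d : ℕ} {A : Fin q → Fin q → ℝ} {q0 : Fin q} {ζ : ℝ} {P : Ph A} {s : Bool}
    {κ δ : ℝ} (hκ : 1 < κ)
    (H : ∀ K, Good (lkG (TG d K)) (wP (TG d K) (TS d K s) q0 ζ P) κ δ) :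
    Filter.Tendsto (fun k => thk d q0 ζ P s k) Filter.atTop (nhds (thl d q0 ζ P s)) ∧
      ∀ k, |thk d q0 ζ P s k - thl d q0 ζ P s| ≤ δ / κ ^ k := by
  have hc : CauchySeq (fun k => thk d q0 ζ P s k) := by
    refine cauchySeq_of_le_tendsto_0 (fun k => 2 * (δ / κ ^ k)) ?_ ?_
    · intro n m N hn hm
      rw [Real.dist_eq]
      have h1 := thk_cauchy hn (H (2 * n + 1))
      have h2 := thk_cauchy hm (H (2 * m + 1))
      rw [abs_le] at h1 h2 ⊢
      constructor <;> linarith [h1.1, h1.2, h2.1, h2.2]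
    · have h1 : Filter.Tendsto (fun k : ℕ => 2 * (δ * (κ⁻¹) ^ k)) Filter.atTop (nhds (2 * (δ * 0))) :=
        ((tendsto_pow_atTop_nhds_zero_of_lt_one (by positivity)
          (inv_lt_one_of_one_lt₀ hκ)).const_mul δ).const_mul 2
      simp only [mul_zero] at h1
      refine h1.congr fun k => ?_
      rw [inv_pow, div_eq_mul_inv]
  have hex : ∃ a, Filter.Tendsto (fun k => thk d q0 ζ P s k) Filter.atTop (nhds a) :=
    cauchySeq_tendsto_of_complete hc
  have ht : Filter.Tendsto (fun k => thk d q0 ζ P s k) Filter.atTop (nhds (thl d q0 ζ P s)) := by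
    unfold thl
    rw [dif_pos hex]
    exact hex.choose_spec
  refine ⟨ht, fun k => ?_⟩
  have h3 : Filter.Tendsto (fun k' => |thk d q0 ζ P s k - thk d q0 ζ P s k'|) Filter.atTop
      (nhds |thk d q0 ζ P s k - thl d q0 ζ P s|) := (ht.const_sub _).abs
  refine le_of_tendsto h3 ?_
  filter_upwards [Filter.eventually_ge_atTop k] with k' hk'
  exact thk_cauchy hk' (H (2 * k' + 1))

end thk

/-! ### Summation of the local errors -/

section summ
variable {V : Type*} [Fintype V]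

theorem phi_sum {G : SimpleGraph V} {d : ℕ} (hd : ∀ x, #(nb G x) ≤ d) {W : Finset V → ℝ} {κ δ : ℝ}
    (H : Good (lkG G) W κ δ) (hδ : 0 ≤ δ) (hκ : 2 * ((d : ℝ) + 1) ^ 2 ≤ κ) (U : Finset V) (k : ℕ) :
    |∑ x ∈ U, phi (lkG G) W U x - ∑ x ∈ U, phi (lkG G) W (Bk (lkG G) k x) x| ≤
      δ / κ ^ k * #U + 2 * δ * ((d : ℝ) + 1) ^ 2 * #(Bdy G U) := by
  have hκ0 : 0 < κ := lt_of_lt_of_le (by positivity) hκ
  have hterm : ∀ x ∈ U, |phi (lkG G) W U x - phi (lkG G) W (Bk (lkG G) k x) x| ≤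
      δ / κ ^ k + ∑ i ∈ range k, if ¬ Bk (lkG G) (i + 1) x ⊆ U then δ / κ ^ i else 0 := by
    intro x hx
    have hnn : 0 ≤ ∑ i ∈ range k, if ¬ Bk (lkG G) (i + 1) x ⊆ U then δ / κ ^ i else 0 :=
      sum_nonneg fun i _ => by split_ifs <;> positivity
    by_cases hk : Bk (lkG G) k x ⊆ U
    · have := phi_local H U (Bk (lkG G) k x) x k (fun y hy => ⟨fun _ => hy, fun _ => hk hy⟩)
      linarith
    · have hex : ∃ j, ¬ Bk (lkG G) j x ⊆ U := ⟨k, hk⟩
      set j := Nat.find hex with hj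
      have hj1 : ¬ Bk (lkG G) j x ⊆ U := Nat.find_spec hex
      have hj0 : j ≠ 0 := by
        intro h0
        rw [h0, Bk_zero] at hj1
        exact hj1 (singleton_subset_iff.2 hx)
      have hjk : j ≤ k := Nat.find_min' hex hk
      obtain ⟨i, hi⟩ := Nat.exists_eq_succ_of_ne_zero hj0
      have hi1 : Bk (lkG G) i x ⊆ U := by
        by_contra hcon
        have := Nat.find_min' hex hcon
        omega
      have h1 := phi_local H U (Bk (lkG G) k x) x i
        (fun y hy => ⟨fun _ => Bk_mono H.lkok (by omega) x hy, fun _ => hi1 hy⟩)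
      have h2 : δ / κ ^ i ≤ ∑ i ∈ range k, if ¬ Bk (lkG G) (i + 1) x ⊆ U then δ / κ ^ i else 0 := by
        have h3 := single_le_sum (f := fun i => if ¬ Bk (lkG G) (i + 1) x ⊆ U then δ / κ ^ i else 0)
          (s := range k) (fun i _ => by
            show 0 ≤ if ¬ Bk (lkG G) (i + 1) x ⊆ U then δ / κ ^ i else 0
            split_ifs <;> positivity) (mem_range.2 (show i < k by omega))
        have h4 : ¬ Bk (lkG G) (i + 1) x ⊆ U := by rw [hi] at hj1; exact hj1
        simp only [h4, not_false_eq_true, if_true] at h3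
        exact h3
      have h5 : 0 ≤ δ / κ ^ k := by positivity
      linarith
  have hsum : |∑ x ∈ U, phi (lkG G) W U x - ∑ x ∈ U, phi (lkG G) W (Bk (lkG G) k x) x| ≤
      ∑ x ∈ U, (δ / κ ^ k + ∑ i ∈ range k, if ¬ Bk (lkG G) (i + 1) x ⊆ U then δ / κ ^ i else 0) := by
    rw [← sum_sub_distrib]
    exact (abs_sum_le_sum_abs _ _).trans (sum_le_sum hterm)
  refine hsum.trans ?_
  rw [sum_add_distrib, sum_const, nsmul_eq_mul, mul_comm (#U : ℝ) _, sum_comm]
  gcongr
  have hi : ∀ i ∈ range k, (∑ x ∈ U, if ¬ Bk (lkG G) (i + 1) x ⊆ U then δ / κ ^ i else 0) ≤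
      δ * ((d : ℝ) + 1) ^ 2 * #(Bdy G U) * (1 / 2) ^ i := by
    intro i _
    rw [← sum_filter, sum_const, nsmul_eq_mul]
    have h1 : (#(U.filter (fun x => ¬ Bk (lkG G) (i + 1) x ⊆ U)) : ℝ) ≤
        ((d : ℝ) + 1) ^ (2 * (i + 1)) * #(Bdy G U) := by
      have := card_leaveG hd U (i + 1)
      exact_mod_cast this
    have h2 : 0 ≤ δ / κ ^ i := by positivity
    calc (#(U.filter (fun x => ¬ Bk (lkG G) (i + 1) x ⊆ U)) : ℝ) * (δ / κ ^ i) ≤
          ((d : ℝ) + 1) ^ (2 * (i + 1)) * #(Bdy G U) * (δ / κ ^ i) :=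
          mul_le_mul_of_nonneg_right h1 h2
      _ = δ * ((d : ℝ) + 1) ^ 2 * #(Bdy G U) * ((((d : ℝ) + 1) ^ 2) ^ i / κ ^ i) := by
          rw [mul_add, pow_add, pow_mul]; ring
      _ ≤ δ * ((d : ℝ) + 1) ^ 2 * #(Bdy G U) * (1 / 2) ^ i := by
          refine mul_le_mul_of_nonneg_left ?_ (by positivity)
          rw [← div_pow]
          refine pow_le_pow_left₀ (by positivity) ?_ i
          rw [div_le_div_iff₀ hκ0 (by norm_num)]
          linarith
  refine (sum_le_sum hi).trans ?_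
  rw [← mul_sum]
  have hg : ∑ i ∈ range k, (1 / 2 : ℝ) ^ i ≤ 2 := by
    have := geom_sum_eq (show (1 / 2 : ℝ) ≠ 1 by norm_num) k
    rw [this, div_le_iff_of_neg (by norm_num)]
    have : (0 : ℝ) ≤ (1 / 2) ^ k := by positivity
    linarith
  calc δ * ((d : ℝ) + 1) ^ 2 * #(Bdy G U) * ∑ i ∈ range k, (1 / 2 : ℝ) ^ i ≤
        δ * ((d : ℝ) + 1) ^ 2 * #(Bdy G U) * 2 := mul_le_mul_of_nonneg_left hg (by positivity)
    _ = _ := by ring

/-- the free energy of `U` in terms of the constants of the canonical tree -/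
theorem log_Xi_thk {q : ℕ} {d J : ℕ} {G : SimpleGraph V} (hd : Rgl G d)
    (hT : TreeTo G J) (c : V → Bool) (hc : ∀ u v, G.Adj u v → c u ≠ c v)
    {A : Fin q → Fin q → ℝ} (q0 : Fin q) (ζ : ℝ) (P : Ph A) {κ δ : ℝ}
    (H : Good (lkG G) (wP G c q0 ζ P) κ δ) (hδ : 0 ≤ δ) (hκ : 2 * ((d : ℝ) + 1) ^ 2 ≤ κ)
    (U : Finset V) {k : ℕ} (hk : 2 * k ≤ J) :
    |Real.log (XiP G c q0 ζ P U) - ∑ x ∈ U, thk d q0 ζ P (c x) k| ≤
      δ / κ ^ k * #U + 2 * δ * ((d : ℝ) + 1) ^ 2 * #(Bdy G U) := by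
  unfold XiP
  rw [log_Xi_eq H.lkok H.nn U]
  have h := phi_sum (fun x => (hd x).le) H hδ hκ U k
  have h2 : ∑ x ∈ U, phi (lkG G) (wP G c q0 ζ P) (Bk (lkG G) k x) x =
      ∑ x ∈ U, thk d q0 ζ P (c x) k :=
    sum_congr rfl fun x _ => phi_Bk_eq hd hT c hc q0 ζ P hk x
  rw [h2] at h
  exact h

/-- (PL1) the free energy of `U` in terms of the constants of the infinite tree -/
theorem log_Xi_thl {q : ℕ} {d J : ℕ} {G : SimpleGraph V} (hd : Rgl G d)
    (hT : TreeTo G J) (c : V → Bool) (hc : ∀ u v, G.Adj u v → c u ≠ c v)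
    {A : Fin q → Fin q → ℝ} (q0 : Fin q) (ζ : ℝ) (P : Ph A) {κ δ : ℝ}
    (H : Good (lkG G) (wP G c q0 ζ P) κ δ)
    (HT : ∀ s K, Good (lkG (TG d K)) (wP (TG d K) (TS d K s) q0 ζ P) κ δ)
    (hδ : 0 ≤ δ) (hκ : 2 * ((d : ℝ) + 1) ^ 2 ≤ κ)
    (U : Finset V) {k : ℕ} (hk : 2 * k ≤ J) :
    |Real.log (XiP G c q0 ζ P U) - ∑ x ∈ U, thl d q0 ζ P (c x)| ≤
      2 * (δ / κ ^ k) * #U + 2 * δ * ((d : ℝ) + 1) ^ 2 * #(Bdy G U) := by
  have hκ1 : 1 < κ := lt_of_lt_of_le (by nlinarith [(Nat.cast_nonneg d : (0 : ℝ) ≤ d)]) hκ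
  have h1 := log_Xi_thk hd hT c hc q0 ζ P H hδ hκ U hk
  have h2 : |∑ x ∈ U, thk d q0 ζ P (c x) k - ∑ x ∈ U, thl d q0 ζ P (c x)| ≤ δ / κ ^ k * #U := by
    rw [← sum_sub_distrib]
    refine (abs_sum_le_sum_abs _ _).trans ?_
    calc ∑ x ∈ U, |thk d q0 ζ P (c x) k - thl d q0 ζ P (c x)| ≤ ∑ _x ∈ U, δ / κ ^ k :=
          sum_le_sum fun x _ => (thl_spec hκ1 (HT (c x))).2 k
      _ = δ / κ ^ k * #U := by rw [sum_const, nsmul_eq_mul, mul_comm]
  have h3 := abs_sub_le (Real.log (XiP G c q0 ζ P U)) (∑ x ∈ U, thk d q0 ζ P (c x) k)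
    (∑ x ∈ U, thl d q0 ζ P (c x))
  linarith

end summ

end LD
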