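import Pool.Agent.W_5dd92e_ld.GasH
import Pool.Agent.W_5dd92e_ld.GasS
import Pool.Agent.W_5dd92e_ld.GasV

/-!
# The polymer part: upper bound of the gas stage
-/

set_option autoImplicit false
set_option linter.unusedSectionVars false

namespace LD

open Finset
open scoped Classical

/-- the free energy constant -/
noncomputable def Thet {q : ℕ} (A : Fin q → Fin q → ℝ) (d : ℕ) (q0 : Fin q) (ζ : ℝ) : ℝ :=
  ⨆ P : Ph A, (thl d q0 ζ P true + thl d q0 ζ P false)

section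
variable {q : ℕ} {A : Fin q → Fin q → ℝ}

lemma Ph_nonempty : Nonempty (Ph A) := by
  have hne : (univ.filter (fun p : Finset (Fin q) × Finset (Fin q) => Bic A p.1 p.2)).Nonempty :=
    ⟨(∅, ∅), mem_filter.2 ⟨mem_univ _, fun i hi => absurd hi (notMem_empty i)⟩⟩
  obtain ⟨p, hp, he⟩ := exists_mem_eq_sup _ hne (fun p => #p.1 * #p.2)
  exact ⟨⟨p, (mem_filter.1 hp).2, he.symm⟩⟩

lemma le_Thet (d : ℕ) (q0 : Fin q) (ζ : ℝ) (P : Ph A) :
    thl d q0 ζ P true + thl d q0 ζ P false ≤ Thet A d q0 ζ := by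
  unfold Thet
  exact le_ciSup (f := fun P : Ph A => thl d q0 ζ P true + thl d q0 ζ P false)
    (Set.finite_range _).bddAbove P

lemma exists_Thet (d : ℕ) (q0 : Fin q) (ζ : ℝ) :
    ∃ P : Ph A, thl d q0 ζ P true + thl d q0 ζ P false = Thet A d q0 ζ := by
  haveI := Ph_nonempty (A := A)
  exact exists_eq_ciSup_of_finite (f := fun P : Ph A => thl d q0 ζ P true + thl d q0 ζ P false)

end

section sums
variable {V : Type*} [Fintype V]

lemma Bdy_eq (G : SimpleGraph V) (U : Finset V) :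
    Bdy G U = U.filter (fun x => ∃ y, G.Adj x y ∧ y ∉ U) := by
  ext x
  unfold Bdy
  rw [mem_filter, mem_filter, Finset.not_subset]
  simp only [mem_nb]

/-- sum of a function of the side -/
lemma sum_side (c : V → Bool) (U : Finset V) (f : Bool → ℝ) :
    ∑ x ∈ U, f (c x) = f true * #(U.filter (fun x => c x = true)) +
      f false * #(U.filter (fun x => c x ≠ true)) := by
  rw [← sum_filter_add_sum_filter_not U (fun x => c x = true)]
  congr 1
  · rw [sum_congr rfl (g := fun _ => f true) (fun x hx => by rw [(mem_filter.1 hx).2]), sum_const,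
      nsmul_eq_mul, mul_comm]
  · rw [sum_congr rfl (g := fun _ => f false) (fun x hx => by
      have := (mem_filter.1 hx).2
      rw [Bool.not_eq_true] at this
      rw [this]), sum_const, nsmul_eq_mul, mul_comm]

lemma abs_sides (G : SimpleGraph V) (c : V → Bool) (hc : ∀ u v, G.Adj u v → c u ≠ c v) {d : ℕ}
    (hd0 : 0 < d) (hd : Rgl G d) (U : Finset V) :
    |(#(U.filter (fun x => c x = true)) : ℝ) - #(U.filter (fun x => c x ≠ true))| ≤
      #(Bdy G U) := by
  have h1 := imbalance G c hc d hd0 hd U true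
  have h2 := imbalance G c hc d hd0 hd U false
  rw [← Bdy_eq] at h1 h2
  have e1 : U.filter (fun x => c x = false) = U.filter (fun x => c x ≠ true) := by
    ext x; simp
  have e2 : U.filter (fun x => c x ≠ false) = U.filter (fun x => c x = true) := by
    ext x; simp
  rw [e1, e2] at h2
  have h1' : (#(U.filter (fun x => c x = true)) : ℝ) ≤ #(U.filter (fun x => c x ≠ true)) +
    #(Bdy G U) := by exact_mod_cast h1
  have h2' : (#(U.filter (fun x => c x ≠ true)) : ℝ) ≤ #(U.filter (fun x => c x = true)) +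
    #(Bdy G U) := by exact_mod_cast h2
  rw [abs_le]
  constructor <;> linarith

lemma card_sides (c : V → Bool) (U : Finset V) :
    (#(U.filter (fun x => c x = true)) : ℝ) + #(U.filter (fun x => c x ≠ true)) = #U := by
  exact_mod_cast card_filter_add_card_filter_not (s := U) (fun x => c x = true)

lemma sum_side_le (G : SimpleGraph V) (c : V → Bool) (hc : ∀ u v, G.Adj u v → c u ≠ c v) {d : ℕ}
    (hd0 : 0 < d) (hd : Rgl G d) (U : Finset V) (f : Bool → ℝ) {η : ℝ}
    (hf : ∀ s, 0 ≤ f s ∧ f s ≤ η) :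
    |∑ x ∈ U, f (c x) - (f true + f false) * (#U / 2)| ≤ η / 2 * #(Bdy G U) := by
  rw [sum_side, ← card_sides c U]
  have h1 := abs_sides G c hc hd0 hd U
  have h2 : f true * #(U.filter (fun x => c x = true)) +
      f false * #(U.filter (fun x => c x ≠ true)) - (f true + f false) *
        (((#(U.filter (fun x => c x = true)) : ℝ) + #(U.filter (fun x => c x ≠ true))) / 2) =
      (f true - f false) / 2 * ((#(U.filter (fun x => c x = true)) : ℝ) -
        #(U.filter (fun x => c x ≠ true))) := by ring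
  rw [h2, abs_mul]
  refine mul_le_mul ?_ h1 (abs_nonneg _) ?_
  · rw [abs_le]
    have a := hf true
    have b := hf false
    constructor <;> linarith [a.1, a.2, b.1, b.2]
  · linarith [(hf true).1, (hf true).2]

end sums

section bounds
variable {q : ℕ} {A : Fin q → Fin q → ℝ} {κ : ℝ}

lemma good_TG (hA : Tgt A κ) (P : Ph A) (q0 : Fin q) {d : ℕ} (hd : 4096 * q ≤ d)
    {cz : ℝ} (hz0 : 0 < cz) (hz1 : cz ≤ κ / (100 * q)) (s : Bool) (K : ℕ) :
    Good (lkG (TG d K)) (wP (TG d K) (TS d K s) q0 (cz / Real.log d) P) (((d : ℝ) + 1) ^ 4)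
      (1 / (2 * (d : ℝ) ^ 12)) :=
  wP_good hA (fun u v h => TS_proper d K s u v h) P q0 hd (card_nb_TG d K) hz0 hz1

lemma one_lt_kap {d : ℕ} (hd : 0 < d) : 1 < ((d : ℝ) + 1) ^ 4 := by
  have h1 : (1 : ℝ) ≤ d := by exact_mod_cast hd
  exact one_lt_pow₀ (by linarith) (by norm_num)

lemma thk_bounds (hA : Tgt A κ) (P : Ph A) (q0 : Fin q) {d : ℕ} (hd : 4096 * q ≤ d)
    {cz : ℝ} (hz0 : 0 < cz) (hz1 : cz ≤ κ / (100 * q)) (s : Bool) (k : ℕ) :
    0 ≤ thk d q0 (cz / Real.log d) P s k ∧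
      thk d q0 (cz / Real.log d) P s k ≤ 1 / (2 * (d : ℝ) ^ 12) := by
  have H := good_TG hA P q0 hd hz0 hz1 s (2 * k + 1)
  unfold thk
  exact ⟨phi_nonneg H.nn _ _, phi_le H _ _⟩

lemma thl_bounds (hA : Tgt A κ) (P : Ph A) (q0 : Fin q) {d : ℕ} (hd : 4096 * q ≤ d)
    {cz : ℝ} (hz0 : 0 < cz) (hz1 : cz ≤ κ / (100 * q)) (s : Bool) :
    0 ≤ thl d q0 (cz / Real.log d) P s ∧
      thl d q0 (cz / Real.log d) P s ≤ 1 / (2 * (d : ℝ) ^ 12) := by
  have hq1 : 1 ≤ q := Nat.succ_le_of_lt (Nat.lt_of_le_of_lt (Nat.zero_le _) q0.isLt)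
  have h := (thl_spec (d := d) (q0 := q0) (ζ := cz / Real.log d) (P := P) (s := s)
    (one_lt_kap (d := d) (by omega)) (fun K => good_TG hA P q0 hd hz0 hz1 s K)).1
  exact ⟨ge_of_tendsto' h (fun k => (thk_bounds hA P q0 hd hz0 hz1 s k).1),
    le_of_tendsto' h (fun k => (thk_bounds hA P q0 hd hz0 hz1 s k).2)⟩

end bounds

section wn
variable {V : Type*} [Fintype V] {q : ℕ} {A : Fin q → Fin q → ℝ}

lemma Wn_le (G : SimpleGraph V) (d : ℕ) (δ ζ C1 c5 : ℝ) (hζ : 0 < ζ) (hc5 : 0 ≤ c5)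
    (lam : V → Option (Ph A)) (g : Finset V) (hl : Linked (lkG G) g) :
    Wn G d δ ζ C1 c5 lam g ≤ ((q : ℝ) * Real.exp (C1 - c5 / (5 * ζ))) ^ #g := by
  unfold Wn
  split_ifs with h
  · rw [mul_pow, ← Real.exp_nat_mul]
    refine mul_le_mul_of_nonneg_left (Real.exp_le_exp.2 ?_) (by positivity)
    have h1 := h.2.2
    have h2 : (#g : ℝ) / (5 * ζ) ≤ #(NsO G lam g) := by
      rw [div_le_iff₀ (by positivity)]
      linarith
    have h3 := mul_le_mul_of_nonneg_left h2 hc5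
    have h4 : c5 * ((#g : ℝ) / (5 * ζ)) = #g * (c5 / (5 * ζ)) := by ring
    rw [mul_sub]
    nlinarith
  · positivity

lemma Wn_sum_le (G : SimpleGraph V) (d : ℕ) (hG : ∀ x, #(nb G x) ≤ d) (δ ζ C1 c5 : ℝ)
    (hζ : 0 < ζ) (hc5 : 0 ≤ c5) (lam : V → Option (Ph A))
    (ht : ((d : ℝ) + 1) ^ 4 * ((q : ℝ) * Real.exp (C1 - c5 / (5 * ζ))) ≤ 1 / 2)
    (x : V) (U : Finset V) :
    ∑ g ∈ U.powerset.filter (fun g => x ∈ g), Wn G d δ ζ C1 c5 lam g ≤
      2 * ((q : ℝ) * Real.exp (C1 - c5 / (5 * ζ))) := by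
  set t : ℝ := (q : ℝ) * Real.exp (C1 - c5 / (5 * ζ)) with htd
  have h1 : ∑ g ∈ U.powerset.filter (fun g => x ∈ g), Wn G d δ ζ C1 c5 lam g =
      ∑ g ∈ U.powerset.filter (fun g => x ∈ g ∧ Linked (lkG G) g), Wn G d δ ζ C1 c5 lam g := by
    symm
    refine sum_subset ?_ ?_
    · intro g hg
      obtain ⟨a, b⟩ := mem_filter.1 hg
      exact mem_filter.2 ⟨a, b.1⟩
    · intro g hg hg'
      obtain ⟨a, b⟩ := mem_filter.1 hg
      unfold Wn
      rw [if_neg]
      intro h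
      exact hg' (mem_filter.2 ⟨a, b, h.1⟩)
  rw [h1]
  refine (sum_le_sum (fun g hg => Wn_le G d δ ζ C1 c5 hζ hc5 lam g
    (mem_filter.1 hg).2.2)).trans ?_
  refine sum_linked_le (lkG_ok G) (Δ := (d + 1) ^ 2) (fun x => card_lkG_le hG x) x _
    (fun g hg => (mem_filter.1 hg).2) (by positivity) ?_
  push_cast
  rw [← pow_mul]
  exact ht

end wn

end LD
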