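import Pool.Agent.W_5dd92e_ld.GasK

/-!
# The polymer part: the upper bound with all errors
-/

set_option autoImplicit false
set_option linter.unusedSectionVars false

namespace LD

open Finset
open scoped Classical

lemma t_small {q d : ℕ} {C1 c5 cz : ℝ} (hq : 1 ≤ q) (hz0 : 0 < cz) (hz2 : cz ≤ c5 / 60)
    (hd : 4096 * q ≤ d) (hd2 : 2 * (q : ℝ) * Real.exp C1 ≤ d) :
    (q : ℝ) * Real.exp (C1 - c5 / (5 * (cz / Real.log d))) ≤ 1 / (2 * (d : ℝ) ^ 9) := by
  have hd4 : 4096 ≤ d := by nlinarith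
  have hd' : (4096 : ℝ) ≤ d := by exact_mod_cast hd4
  have hd0 : (0 : ℝ) < d := by linarith
  have hL : 0 < Real.log d := Real.log_pos (by linarith)
  have h1 : 12 * Real.log d ≤ c5 / (5 * (cz / Real.log d)) := by
    rw [le_div_iff₀ (by positivity)]
    have h2 : 12 * Real.log d * (5 * (cz / Real.log d)) = 60 * cz := by
      field_simp
      ring
    rw [h2]
    linarith
  have h3 : Real.exp (C1 - c5 / (5 * (cz / Real.log d))) ≤ Real.exp C1 / (d : ℝ) ^ 12 := by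
    rw [Real.exp_sub]
    refine div_le_div_of_nonneg_left (Real.exp_pos _).le (by positivity) ?_
    calc (d : ℝ) ^ 12 = Real.exp (12 * Real.log d) := by
          rw [show (12 : ℝ) * Real.log d = ((12 : ℕ) : ℝ) * Real.log d by norm_num,
            Real.exp_nat_mul, Real.exp_log hd0]
      _ ≤ _ := Real.exp_le_exp.2 h1
  have h4 : (q : ℝ) * Real.exp C1 ≤ d / 2 := by linarith
  calc (q : ℝ) * Real.exp (C1 - c5 / (5 * (cz / Real.log d)))
      ≤ q * (Real.exp C1 / (d : ℝ) ^ 12) := mul_le_mul_of_nonneg_left h3 (Nat.cast_nonneg _)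
    _ = (q * Real.exp C1) / (d : ℝ) ^ 12 := by ring
    _ ≤ (d / 2) / (d : ℝ) ^ 12 := div_le_div_of_nonneg_right h4 (by positivity)
    _ = 1 / (2 * (d : ℝ) ^ 11) := by field_simp
    _ ≤ 1 / (2 * (d : ℝ) ^ 9) := by
        refine one_div_le_one_div_of_le (by positivity) ?_
        have : (d : ℝ) ^ 9 ≤ (d : ℝ) ^ 11 := pow_le_pow_right₀ (by linarith) (by norm_num)
        linarith

section
variable {V : Type*} [Fintype V] {q : ℕ} {A : Fin q → Fin q → ℝ} {κ : ℝ}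

lemma sum_UU_le (G : SimpleGraph V) (d : ℕ) (δ : ℝ) (lam : V → Option (Ph A)) :
    ∑ P : Ph A, (#(UU G d δ lam P) : ℝ) ≤ Fintype.card V := by
  have h1 : ∑ P : Ph A, #(UU G d δ lam P) ≤ Fintype.card V := by
    rw [← card_biUnion]
    · exact card_le_univ _
    · intro P _ P' _ hne
      show Disjoint (UU G d δ lam P) (UU G d δ lam P')
      rw [Finset.disjoint_left]
      intro x hx hx'
      have a := (mem_UU.1 hx).2
      have b := (mem_UU.1 hx').2
      rw [a] at b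
      exact hne (Option.some_injective _ b)
  exact_mod_cast h1

/-- one phase -/
lemma log_XiP_le (hA : Tgt A κ) (P : Ph A) (q0 : Fin q) {cz : ℝ} (hz0 : 0 < cz)
    (hz1 : cz ≤ κ / (100 * q)) {d J k : ℕ} (hd : 4096 * q ≤ d) (hk : 2 * k ≤ J)
    (G : SimpleGraph V) (c : V → Bool) (hc : TPB.Prp G c) (hr : Rgl G d) (hT : TreeTo G J)
    (U : Finset V) :
    |Real.log (XiP G c q0 (cz / Real.log d) P U) -
      (thl d q0 (cz / Real.log d) P true + thl d q0 (cz / Real.log d) P false) * (#U / 2)| ≤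
      1 / (d : ℝ) ^ 12 / (((d : ℝ) + 1) ^ 4) ^ k * #U +
        5 / (d : ℝ) ^ 10 * #(Bdy G U) := by
  have hq1 : 1 ≤ q := Nat.succ_le_of_lt (Nat.lt_of_le_of_lt (Nat.zero_le _) q0.isLt)
  have hd4 : 4096 ≤ d := by nlinarith
  have hd' : (4096 : ℝ) ≤ d := by exact_mod_cast hd4
  have hd0 : (0 : ℝ) < d := by linarith
  have H := wP_good hA hc P q0 hd (fun x => (hr x).le) hz0 hz1
  have HT := fun s K => good_TG hA P q0 hd hz0 hz1 s K
  have h1 := log_Xi_thl hr hT c hc q0 (cz / Real.log d) P H HT (by positivity) (by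
    have : 2 ≤ ((d : ℝ) + 1) ^ 2 := by nlinarith
    calc 2 * ((d : ℝ) + 1) ^ 2 ≤ ((d : ℝ) + 1) ^ 2 * ((d : ℝ) + 1) ^ 2 :=
          mul_le_mul_of_nonneg_right this (by positivity)
      _ = ((d : ℝ) + 1) ^ 4 := by ring) U hk
  have h2 := sum_side_le G c hc (d := d) (by omega) hr U
    (fun s => thl d q0 (cz / Real.log d) P s)
    (fun s => thl_bounds hA P q0 hd hz0 hz1 s)
  have e1 : 2 * (1 / (2 * (d : ℝ) ^ 12) / (((d : ℝ) + 1) ^ 4) ^ k) =
      1 / (d : ℝ) ^ 12 / (((d : ℝ) + 1) ^ 4) ^ k := by field_simp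
  rw [e1] at h1
  have h3 : 2 * (1 / (2 * (d : ℝ) ^ 12)) * ((d : ℝ) + 1) ^ 2 + 1 / (2 * (d : ℝ) ^ 12) / 2 ≤
      5 / (d : ℝ) ^ 10 := by
    have a1 : ((d : ℝ) + 1) ^ 2 ≤ 4 * (d : ℝ) ^ 2 := by nlinarith
    have a2 : (1 : ℝ) ≤ (d : ℝ) ^ 2 := by nlinarith
    calc 2 * (1 / (2 * (d : ℝ) ^ 12)) * ((d : ℝ) + 1) ^ 2 + 1 / (2 * (d : ℝ) ^ 12) / 2
        = (((d : ℝ) + 1) ^ 2 + 1 / 4) / (d : ℝ) ^ 12 := by field_simp; ring
      _ ≤ (5 * (d : ℝ) ^ 2) / (d : ℝ) ^ 12 := by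
          refine div_le_div_of_nonneg_right ?_ (by positivity)
          linarith
      _ = 5 / (d : ℝ) ^ 10 := by field_simp
  have h4 := mul_le_mul_of_nonneg_right h3 (Nat.cast_nonneg (α := ℝ) #(Bdy G U))
  rw [add_mul] at h4
  rw [abs_le] at h1 h2 ⊢
  constructor <;> linarith [h1.1, h1.2, h2.1, h2.2]

/-- the upper bound of the partition function of the gas stage -/
theorem pol_upper (hA : Tgt A κ) (q0 : Fin q) {C1 c5 cz : ℝ} (hz0 : 0 < cz)
    (hz1 : cz ≤ κ / (100 * q)) (hz2 : cz ≤ c5 / 60) {d J k : ℕ} (hd : 4096 * q ≤ d)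
    (hd2 : 2 * (q : ℝ) * Real.exp C1 ≤ d) (hk : 2 * k ≤ J)
    (G : SimpleGraph V) (c : V → Bool) (hc : TPB.Prp G c) (hr : Rgl G d) (hT : TreeTo G J)
    (δ : ℝ) (lam l : V → Option (Ph A)) (hl : ∀ x P, lam x = some P → l x = some P) :
    Real.log (XiC G d c q0 δ (cz / Real.log d) C1 c5 lam) ≤
      (Fintype.card V : ℝ) / 2 * Thet A d q0 (cz / Real.log d) +
        1 / (d : ℝ) ^ 2 * (#(Soft G d δ lam) + bb G d l) +
        1 / (d : ℝ) ^ 12 / (((d : ℝ) + 1) ^ 4) ^ k * Fintype.card V := by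
  have hq1 : 1 ≤ q := Nat.succ_le_of_lt (Nat.lt_of_le_of_lt (Nat.zero_le _) q0.isLt)
  have hd4 : 4096 ≤ d := by nlinarith
  have hd' : (4096 : ℝ) ≤ d := by exact_mod_cast hd4
  have hd0 : (0 : ℝ) < d := by linarith
  have hd12 : (d : ℝ) + 1 ≤ 2 * d := by linarith
  have hL : 0 < Real.log d := Real.log_pos (by linarith)
  have hc5 : 0 < c5 := by linarith
  set ζ : ℝ := cz / Real.log d with hζ
  have hζ0 : 0 < ζ := div_pos hz0 hL
  set t : ℝ := (q : ℝ) * Real.exp (C1 - c5 / (5 * ζ)) with ht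
  have ht1 : t ≤ 1 / (2 * (d : ℝ) ^ 9) := t_small hq1 hz0 hz2 hd hd2
  have ht0 : 0 ≤ t := by positivity
  have ht2 : ((d : ℝ) + 1) ^ 4 * t ≤ 1 / 2 := by
    calc ((d : ℝ) + 1) ^ 4 * t ≤ (2 * d) ^ 4 * (1 / (2 * (d : ℝ) ^ 9)) :=
          mul_le_mul (pow_le_pow_left₀ (by linarith) hd12 4) ht1 ht0 (by positivity)
      _ = 8 / (d : ℝ) ^ 5 := by field_simp; ring
      _ ≤ 1 / 2 := by
          rw [div_le_div_iff₀ (by positivity) (by norm_num)]
          have : (4096 : ℝ) ^ 5 ≤ (d : ℝ) ^ 5 := pow_le_pow_left₀ (by norm_num) hd' 5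
          nlinarith
  have hW := fun x U => Wn_sum_le G d (fun x => (hr x).le) δ ζ C1 c5 hζ0 hc5.le lam ht2 x U
  have h1 := XiC_le hA.nn G d c q0 δ ζ C1 c5 (2 * t) lam hW
  set n := #(univ.filter (fun x => x ∉ DD G d δ lam)) with hn
  have hXpos : ∀ P : Ph A, 0 < XiP G c q0 ζ P (UU G d δ lam P) := fun P =>
    Xi_pos (fun g => wP_nonneg hA G c q0 ζ P g) _
  have h2 : Real.log (XiC G d c q0 δ ζ C1 c5 lam) ≤
      (∑ P : Ph A, Real.log (XiP G c q0 ζ P (UU G d δ lam P))) + n * (2 * t) := by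
    have hX := lt_of_lt_of_le zero_lt_one (one_le_XiC hA.nn G d c q0 δ ζ C1 c5 lam)
    refine (Real.log_le_log hX h1).trans ?_
    have hp : 0 < ∏ P : Ph A, XiP G c q0 ζ P (UU G d δ lam P) :=
      prod_pos (fun P _ => hXpos P)
    rw [Real.log_mul hp.ne' (by positivity), Real.log_prod (fun P _ => (hXpos P).ne'),
      Real.log_pow]
    refine add_le_add le_rfl ?_
    refine mul_le_mul_of_nonneg_left ?_ (Nat.cast_nonneg _)
    have := Real.log_le_sub_one_of_pos (x := 1 + 2 * t) (by linarith)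
    linarith
  -- the phases
  set Θ := Thet A d q0 ζ with hΘ
  set e1 : ℝ := 1 / (d : ℝ) ^ 12 / (((d : ℝ) + 1) ^ 4) ^ k with he1
  have he10 : 0 ≤ e1 := by positivity
  have hΘ0 : 0 ≤ Θ := by
    obtain ⟨P, hP⟩ := exists_Thet (A := A) d q0 ζ
    rw [hΘ, ← hP]
    have a := (thl_bounds hA P q0 hd hz0 hz1 true).1
    have b := (thl_bounds hA P q0 hd hz0 hz1 false).1
    linarith
  have h3 : ∀ P : Ph A, Real.log (XiP G c q0 ζ P (UU G d δ lam P)) ≤
      (Θ / 2 + e1) * #(UU G d δ lam P) + 5 / (d : ℝ) ^ 10 * #(Bdy G (UU G d δ lam P)) := by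
    intro P
    have a := log_XiP_le hA P q0 hz0 hz1 hd hk G c hc hr hT (UU G d δ lam P)
    have b := le_Thet d q0 ζ P
    have b' := mul_le_mul_of_nonneg_right b
      (show (0 : ℝ) ≤ (#(UU G d δ lam P) : ℝ) / 2 by positivity)
    rw [abs_le] at a
    have a2 := a.2
    rw [add_mul]
    linarith
  have h4 : (∑ P : Ph A, Real.log (XiP G c q0 ζ P (UU G d δ lam P))) ≤
      (Θ / 2 + e1) * Fintype.card V + 5 / (d : ℝ) ^ 10 * (d * n) := by
    refine (sum_le_sum (fun P _ => h3 P)).trans ?_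
    rw [sum_add_distrib, ← mul_sum, ← mul_sum]
    refine add_le_add ?_ ?_
    · exact mul_le_mul_of_nonneg_left (sum_UU_le G d δ lam) (by linarith)
    · refine mul_le_mul_of_nonneg_left ?_ (by positivity)
      have h5 := card_UU_bdry G d hr δ lam
      rw [sum_congr rfl (fun P _ => by rw [← Bdy_eq])] at h5
      exact_mod_cast h5
  have h6 : (n : ℝ) ≤ (d + 1) * ((d + 1) * #(Soft G d δ lam) + #(Dis G l)) := by
    have := card_not_DD G d hr δ l lam hl
    rw [← hn] at this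
    exact_mod_cast this
  have h7 : (#(Dis G l) : ℝ) = 2 * d * bb G d l := by
    unfold bb
    field_simp
  have hbb : 0 ≤ bb G d l := by unfold bb; positivity
  have hS : (0 : ℝ) ≤ #(Soft G d δ lam) := Nat.cast_nonneg _
  have h8 : (n : ℝ) ≤ 4 * (d : ℝ) ^ 2 * (#(Soft G d δ lam) + bb G d l) := by
    rw [h7] at h6
    refine h6.trans ?_
    have a1 : ((d : ℝ) + 1) * (d + 1) ≤ 4 * (d : ℝ) ^ 2 := by nlinarith
    have a2 : ((d : ℝ) + 1) * (2 * d) ≤ 4 * (d : ℝ) ^ 2 := by nlinarith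
    have a3 := mul_le_mul_of_nonneg_right a1 hS
    have a4 := mul_le_mul_of_nonneg_right a2 hbb
    calc ((d : ℝ) + 1) * ((d + 1) * #(Soft G d δ lam) + 2 * d * bb G d l)
        = ((d : ℝ) + 1) * (d + 1) * #(Soft G d δ lam) + ((d : ℝ) + 1) * (2 * d) * bb G d l := by
          ring
      _ ≤ 4 * (d : ℝ) ^ 2 * #(Soft G d δ lam) + 4 * (d : ℝ) ^ 2 * bb G d l := add_le_add a3 a4
      _ = _ := by ring
  have h9 : 5 / (d : ℝ) ^ 10 * (d * n) + n * (2 * t) ≤
      1 / (d : ℝ) ^ 2 * (#(Soft G d δ lam) + bb G d l) := by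
    have hn0 : (0 : ℝ) ≤ n := Nat.cast_nonneg _
    calc 5 / (d : ℝ) ^ 10 * (d * n) + n * (2 * t)
        ≤ 5 / (d : ℝ) ^ 10 * (d * n) + n * (1 / (d : ℝ) ^ 9) := by
          refine add_le_add le_rfl (mul_le_mul_of_nonneg_left ?_ hn0)
          have : 2 * (1 / (2 * (d : ℝ) ^ 9)) = 1 / (d : ℝ) ^ 9 := by field_simp
          linarith
      _ = 6 / (d : ℝ) ^ 9 * n := by field_simp; ring
      _ ≤ 6 / (d : ℝ) ^ 9 * (4 * (d : ℝ) ^ 2 * (#(Soft G d δ lam) + bb G d l)) :=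
          mul_le_mul_of_nonneg_left h8 (by positivity)
      _ = 24 / (d : ℝ) ^ 7 * (#(Soft G d δ lam) + bb G d l) := by field_simp; ring
      _ ≤ _ := by
          refine mul_le_mul_of_nonneg_right ?_ (by positivity)
          rw [div_le_div_iff₀ (by positivity) (by positivity)]
          have : (4096 : ℝ) ^ 5 ≤ (d : ℝ) ^ 5 := pow_le_pow_left₀ (by norm_num) hd' 5
          calc 24 * (d : ℝ) ^ 2 ≤ (d : ℝ) ^ 5 * (d : ℝ) ^ 2 :=
                mul_le_mul_of_nonneg_right (by linarith) (by positivity)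
            _ = 1 * (d : ℝ) ^ 7 := by ring
  calc Real.log (XiC G d c q0 δ ζ C1 c5 lam)
      ≤ (Θ / 2 + e1) * Fintype.card V + 5 / (d : ℝ) ^ 10 * (d * n) + n * (2 * t) := by
        linarith
    _ ≤ (Θ / 2 + e1) * Fintype.card V +
        1 / (d : ℝ) ^ 2 * (#(Soft G d δ lam) + bb G d l) := by linarith
    _ = _ := by ring

end

end LD
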