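import Pool.Agent.W_5dd92e_ld.EBase

/-!
# Label stage: Jensen and three Chernoff bounds
-/

set_option autoImplicit false

open Finset
open scoped Classical

namespace LD

variable {V : Type*} [Fintype V]

private theorem LsC_sum_bw (p : ℝ) : ∑ R : Finset V, bw p R = 1 := by
  have h := EB_one (V := V) p
  simpa [EB] using h

/-- Jensen -/
theorem EB_jensen {p : ℝ} (h0 : 0 ≤ p) (h1 : p ≤ 1) {f : Finset V → ℝ} (h : ∀ R, 0 < f R) :
    0 < EB p f ∧ -Real.log (EB p f) ≤ EB p (fun R => -Real.log (f R)) := by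
  constructor
  · have h2 : ∃ R ∈ (univ : Finset (Finset V)), 0 < bw p R * f R := by
      by_contra hcon
      push Not at hcon
      have h3 : ∀ R : Finset V, bw p R = 0 := by
        intro R
        have h4 := hcon R (mem_univ R)
        have h5 := bw_nonneg h0 h1 R
        by_contra h6
        have h7 : 0 < bw p R := lt_of_le_of_ne h5 (Ne.symm h6)
        exact absurd h4 (not_le.2 (mul_pos h7 (h R)))
      have h8 := LsC_sum_bw (V := V) p
      simp only [h3, sum_const_zero] at h8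
      exact zero_ne_one h8
    exact sum_pos' (fun R _ => mul_nonneg (bw_nonneg h0 h1 R) (h R).le) h2
  · have hc : ConcaveOn ℝ (Set.Ioi 0) Real.log := strictConcaveOn_log_Ioi.concaveOn
    have h2 := hc.le_map_sum (t := (univ : Finset (Finset V))) (w := fun R => bw p R) (p := f)
      (fun R _ => bw_nonneg h0 h1 R) (LsC_sum_bw p) (fun R _ => h R)
    simp only [smul_eq_mul] at h2
    have h3 : EB p (fun R => -Real.log (f R)) = -EB p (fun R => Real.log (f R)) := EB_neg _ _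
    rw [h3]
    exact neg_le_neg h2

private theorem LsC_exp {p : ℝ} (h0 : 0 ≤ p) (h1 : p ≤ 1) (A B : Finset V) (hd : Disjoint A B)
    (s t : ℝ) (P : Finset V → Prop) [DecidablePred P]
    (hP : ∀ R, P R → 0 ≤ s * ((A ∩ R).card : ℝ) + t * ((B ∩ R).card : ℝ)) :
    EB p (fun R => if P R then (1 : ℝ) else 0) ≤
      Real.exp (p * ((A.card : ℝ) * (Real.exp s - 1) + (B.card : ℝ) * (Real.exp t - 1))) := by
  have h2 := EB_exp_inter_le h0 h1 (A ∪ B) (fun x => if x ∈ A then s else t)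
  have e1 : ∀ R : Finset V, ∑ x ∈ (A ∪ B) ∩ R, (if x ∈ A then s else t) =
      s * ((A ∩ R).card : ℝ) + t * ((B ∩ R).card : ℝ) := by
    intro R
    have hd' : Disjoint (A ∩ R) (B ∩ R) := disjoint_of_subset_left inter_subset_left
      (disjoint_of_subset_right inter_subset_left hd)
    rw [union_inter_distrib_right, sum_union hd']
    congr 1
    · rw [sum_congr rfl (fun x hx => if_pos (mem_inter.1 hx).1), sum_const, nsmul_eq_mul, mul_comm]
    · rw [sum_congr rfl (fun x hx => if_neg fun hxA =>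
        (disjoint_left.1 hd hxA) (mem_inter.1 hx).1), sum_const, nsmul_eq_mul, mul_comm]
  have e2 : ∑ x ∈ A ∪ B, (Real.exp (if x ∈ A then s else t) - 1) =
      (A.card : ℝ) * (Real.exp s - 1) + (B.card : ℝ) * (Real.exp t - 1) := by
    rw [sum_union hd]
    congr 1
    · rw [sum_congr rfl (g := fun _ => Real.exp s - 1) (fun x hx => by rw [if_pos hx]), sum_const,
        nsmul_eq_mul]
    · rw [sum_congr rfl (g := fun _ => Real.exp t - 1) (fun x hx => by
        rw [if_neg fun hxA => (disjoint_left.1 hd hxA) hx]), sum_const, nsmul_eq_mul]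
  rw [e2] at h2
  refine le_trans (EB_mono h0 h1 _ _ fun R => ?_) h2
  rw [e1]
  split_ifs with hR
  · exact Real.one_le_exp (hP R hR)
  · exact (Real.exp_pos _).le

/-- majority: `A` wrong, `B` right, at least seven times as many right vertices as wrong ones.
Proof: the indicator is at most `exp (∑ x ∈ (A ∪ B) ∩ R, g x)` with `g = log 2` on `A`, `-log 2` on `B`;
`EB_exp_inter_le` gives `exp (p (|A| - |B| / 2))`, and `|A| - |B|/2 ≤ -(|A| + |B|)/4` if `7|A| ≤ |B|`. -/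
theorem cher_maj {p : ℝ} (h0 : 0 ≤ p) (h1 : p ≤ 1) (A B : Finset V) (hd : Disjoint A B)
    (hc : 7 * A.card ≤ B.card) :
    EB p (fun R => if (B ∩ R).card ≤ (A ∩ R).card then 1 else 0) ≤
      Real.exp (-(p * ((A.card : ℝ) + B.card) / 4)) := by
  have hl : 0 < Real.log 2 := Real.log_pos (by norm_num)
  have e1 : Real.exp (Real.log 2) = 2 := Real.exp_log (by norm_num)
  have e2 : Real.exp (-Real.log 2) = 1 / 2 := by
    rw [Real.exp_neg, e1]
    norm_num
  have h2 := LsC_exp h0 h1 A B hd (Real.log 2) (-Real.log 2)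
    (fun R => (B ∩ R).card ≤ (A ∩ R).card) (fun R hR => by
      have h3 : ((B ∩ R).card : ℝ) ≤ (A ∩ R).card := by exact_mod_cast hR
      nlinarith)
  rw [e1, e2] at h2
  refine h2.trans (Real.exp_le_exp.2 ?_)
  have h4 : 7 * (A.card : ℝ) ≤ B.card := by exact_mod_cast hc
  have h5 : 0 ≤ p * A.card := mul_nonneg h0 (Nat.cast_nonneg _)
  have h6 := mul_le_mul_of_nonneg_left h4 h0
  nlinarith

/-- a proportion at least `ζ / 4` of `A`, but at most `ζ / 16` is seen.
Proof: indicator `≤ exp ((ζ/16) (|A ∩ R| + |B ∩ R|) - |A ∩ R|)`; `g = -(1 - ζ/16)` on `A`, `ζ/16` on `B`. -/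
theorem cher_few {p ζ : ℝ} (h0 : 0 ≤ p) (h1 : p ≤ 1) (hz : 0 ≤ ζ) (hz1 : ζ ≤ 1) (A B : Finset V)
    (hd : Disjoint A B) (hc : ζ / 4 * ((A.card : ℝ) + B.card) ≤ A.card) :
    EB p (fun R => if ((A ∩ R).card : ℝ) ≤ ζ / 16 * (((A ∩ R).card : ℝ) + (B ∩ R).card) then 1 else 0) ≤
      Real.exp (-(p * ζ * ((A.card : ℝ) + B.card) / 16)) := by
  have h2 := LsC_exp h0 h1 A B hd (ζ / 16 - 1) (ζ / 16)
    (fun R => ((A ∩ R).card : ℝ) ≤ ζ / 16 * (((A ∩ R).card : ℝ) + (B ∩ R).card)) (fun R hR => by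
      nlinarith)
  refine h2.trans (Real.exp_le_exp.2 ?_)
  have h4 : Real.exp (ζ / 16) - 1 ≤ 17 / 16 * (ζ / 16) := by
    have hb : |ζ / 16| ≤ 1 := by rw [abs_le]; constructor <;> linarith
    have hq2 := (abs_le.1 (Real.abs_exp_sub_one_sub_id_le hb)).2
    nlinarith
  have h5 : Real.exp (ζ / 16 - 1) ≤ 0.45 := by
    have h6 : Real.exp (ζ / 16 - 1) ≤ Real.exp (-(15 / 16)) := by
      refine Real.exp_le_exp.2 ?_
      linarith
    have h7 : 1 + (15 / 16 : ℝ) + (15 / 16) ^ 2 / 2 ≤ Real.exp (15 / 16) :=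
      Real.quadratic_le_exp_of_nonneg (by norm_num)
    have h8 : Real.exp (-(15 / 16 : ℝ)) ≤ 0.45 := by
      rw [Real.exp_neg, inv_le_comm₀ (Real.exp_pos _) (by norm_num)]
      refine le_trans ?_ h7
      norm_num
    exact h6.trans h8
  have hA : (0 : ℝ) ≤ A.card := Nat.cast_nonneg _
  have hB : (0 : ℝ) ≤ B.card := Nat.cast_nonneg _
  have h9 : (A.card : ℝ) * (Real.exp (ζ / 16 - 1) - 1) ≤ A.card * (-0.55) :=
    mul_le_mul_of_nonneg_left (by linarith) hA
  have h10 : (B.card : ℝ) * (Real.exp (ζ / 16) - 1) ≤ B.card * (17 / 16 * (ζ / 16)) :=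
    mul_le_mul_of_nonneg_left h4 hB
  have h11 : 0 ≤ ζ * (A.card : ℝ) := mul_nonneg hz hA
  have h12 : 0 ≤ ζ * (B.card : ℝ) := mul_nonneg hz hB
  have h13 : (A.card : ℝ) * (Real.exp (ζ / 16 - 1) - 1) + B.card * (Real.exp (ζ / 16) - 1) ≤
      -(ζ * ((A.card : ℝ) + B.card) / 16) := by
    nlinarith
  have h14 := mul_le_mul_of_nonneg_left h13 h0
  refine h14.trans (le_of_eq ?_)
  ring

/-- a proportion at most `ζ / 64` of `A`, but more than `ζ / 16` is seen.
Proof: indicator `≤ exp (|A ∩ R| - (ζ/16) (|A ∩ R| + |B ∩ R|))`. -/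
theorem cher_many {p ζ : ℝ} (h0 : 0 ≤ p) (h1 : p ≤ 1) (hz : 0 ≤ ζ) (hz1 : ζ ≤ 1) (A B : Finset V)
    (hd : Disjoint A B) (hc : (A.card : ℝ) ≤ ζ / 64 * ((A.card : ℝ) + B.card)) :
    EB p (fun R => if ζ / 16 * (((A ∩ R).card : ℝ) + (B ∩ R).card) < ((A ∩ R).card : ℝ) then 1 else 0) ≤
      Real.exp (-(p * ζ * ((A.card : ℝ) + B.card) / 32)) := by
  have h2 := LsC_exp h0 h1 A B hd (1 - ζ / 16) (-(ζ / 16))
    (fun R => ζ / 16 * (((A ∩ R).card : ℝ) + (B ∩ R).card) < ((A ∩ R).card : ℝ)) (fun R hR => by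
      nlinarith)
  refine h2.trans (Real.exp_le_exp.2 ?_)
  have h4 : Real.exp (-(ζ / 16)) - 1 ≤ -(31 / 32 * (ζ / 16)) := by
    have hz2 : 0 ≤ ζ / 16 := by linarith
    have h7 : 1 + (ζ / 16) ≤ Real.exp (ζ / 16) := by
      have := Real.add_one_le_exp (ζ / 16)
      linarith
    have h8 : Real.exp (-(ζ / 16)) ≤ 1 - 31 / 32 * (ζ / 16) := by
      have hq : Real.exp (-(ζ / 16)) ≤ 1 / (1 + ζ / 16 + (ζ / 16) ^ 2 / 2) := by
        rw [Real.exp_neg, ← one_div]
        exact one_div_le_one_div_of_le (by positivity)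
          (Real.quadratic_le_exp_of_nonneg hz2)
      refine hq.trans ?_
      rw [div_le_iff₀ (by positivity)]
      have h9 : ζ / 16 ≤ 1 / 16 := by linarith
      nlinarith [mul_nonneg hz2 hz2, mul_nonneg (mul_nonneg hz2 hz2) hz2,
        mul_nonneg (mul_nonneg hz2 hz2) (sub_nonneg.2 h9), mul_nonneg hz2 (sub_nonneg.2 h9)]
    linarith
  have h5 : Real.exp (1 - ζ / 16) - 1 ≤ 1.7183 := by
    have h6 : Real.exp (1 - ζ / 16) ≤ Real.exp 1 := Real.exp_le_exp.2 (by linarith)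
    have h7 := Real.exp_one_lt_d9
    linarith
  have hA : (0 : ℝ) ≤ A.card := Nat.cast_nonneg _
  have hB : (0 : ℝ) ≤ B.card := Nat.cast_nonneg _
  have h9 : (A.card : ℝ) * (Real.exp (1 - ζ / 16) - 1) ≤ A.card * 1.7183 :=
    mul_le_mul_of_nonneg_left h5 hA
  have h10 : (B.card : ℝ) * (Real.exp (-(ζ / 16)) - 1) ≤ B.card * (-(31 / 32 * (ζ / 16))) :=
    mul_le_mul_of_nonneg_left h4 hB
  have h11 : 0 ≤ ζ * (A.card : ℝ) := mul_nonneg hz hA
  have h12 : 0 ≤ ζ * (B.card : ℝ) := mul_nonneg hz hB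
  have h15 : ζ * (A.card : ℝ) ≤ A.card := by nlinarith
  have h16 : ζ * (A.card : ℝ) ≤ 1 / 64 * (ζ * A.card + ζ * B.card) := by
    have := mul_le_mul_of_nonneg_left hc hz
    nlinarith
  have h13 : (A.card : ℝ) * (Real.exp (1 - ζ / 16) - 1) + B.card * (Real.exp (-(ζ / 16)) - 1) ≤
      -(ζ * ((A.card : ℝ) + B.card) / 32) := by
    nlinarith
  have h14 := mul_le_mul_of_nonneg_left h13 h0
  refine h14.trans (le_of_eq ?_)
  ring

end LD
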