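import Pool.Agent.W_5dd92e_ld.LsC

/-!
# Label stage: product kernels and the recursion of priors
-/

set_option autoImplicit false

open Finset
open scoped Classical

namespace LD

variable {V : Type*} [Fintype V] {Lam : Type*} [Fintype Lam]

/-- restriction of a label field to `R` -/
noncomputable def rst (R : Finset V) (l : V → Option Lam) : V → Option Lam :=
  fun x => if x ∈ R then l x else none

/-- product kernel on `R` -/
noncomputable def ker (g : V → Option Lam → ℝ) (R : Finset V) (τ : V → Option Lam) : ℝ :=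
  ∏ x, if x ∈ R then g x (τ x) else (if τ x = none then 1 else 0)

theorem ker_nonneg (g : V → Option Lam → ℝ) (hg : ∀ x Q, 0 ≤ g x Q) (R : Finset V)
    (τ : V → Option Lam) : 0 ≤ ker g R τ := by
  refine Finset.prod_nonneg fun x _ => ?_
  split_ifs
  · exact hg _ _
  · exact zero_le_one
  · exact le_rfl

theorem ker_sum_le (g : V → Option Lam → ℝ) (hg : ∀ x Q, 0 ≤ g x Q) (h1 : ∀ x, ∑ Q, g x Q ≤ 1)
    (R : Finset V) : ∑ τ : V → Option Lam, ker g R τ ≤ 1 := by
  have h2 := Finset.prod_univ_sum (fun _ : V => (univ : Finset (Option Lam)))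
    (fun x Q => if x ∈ R then g x Q else (if Q = none then (1 : ℝ) else 0))
  rw [Fintype.piFinset_univ] at h2
  unfold ker
  rw [← h2]
  refine Finset.prod_le_one (fun x _ => Finset.sum_nonneg fun Q _ => ?_) fun x _ => ?_
  · split_ifs
    · exact hg _ _
    · exact zero_le_one
    · exact le_rfl
  · by_cases hx : x ∈ R
    · simp only [hx, if_true]
      exact h1 x
    · simp [hx]

theorem ker_rst (g : V → Option Lam → ℝ) (R : Finset V) (l : V → Option Lam) :
    ker g R (rst R l) = ∏ x ∈ R, g x (l x) := by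
  have h : ∀ x, (if x ∈ R then g x (rst R l x) else (if rst R l x = none then (1 : ℝ) else 0)) =
      if x ∈ R then g x (l x) else 1 := by
    intro x
    by_cases hx : x ∈ R
    · simp [hx, rst]
    · simp [hx, rst]
  unfold ker
  rw [Finset.prod_congr rfl fun x _ => h x, Finset.prod_ite_mem, Finset.univ_inter]

/-- prediction kernel: `pr` is the predicted label, `e` the failure probability -/
noncomputable def pk (N : ℕ) (e : ℝ) (pr Q : Option Lam) : ℝ :=
  if Q = pr then 1 - e else e / (N + 1)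

theorem pk_pos (N : ℕ) {e : ℝ} (h0 : 0 < e) (h1 : e < 1) (pr Q : Option Lam) : 0 < pk N e pr Q := by
  unfold pk
  split_ifs
  · linarith
  · positivity

theorem pk_sum_le {e : ℝ} (h0 : 0 ≤ e) (h1 : e ≤ 1) (pr : Option Lam) :
    ∑ Q : Option Lam, pk (Fintype.card Lam) e pr Q ≤ 1 := by
  have hN : (0 : ℝ) < (Fintype.card Lam : ℝ) + 1 := by positivity
  have h2 : ∀ Q : Option Lam, pk (Fintype.card Lam) e pr Q ≤
      (if Q = pr then 1 - e else 0) + e / ((Fintype.card Lam : ℝ) + 1) := by
    intro Q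
    unfold pk
    have h3 : 0 ≤ e / ((Fintype.card Lam : ℝ) + 1) := by positivity
    split_ifs
    · linarith
    · linarith
  refine (Finset.sum_le_sum fun Q _ => h2 Q).trans ?_
  rw [Finset.sum_add_distrib, Finset.sum_ite_eq', if_pos (mem_univ _), Finset.sum_const,
    Finset.card_univ, Fintype.card_option, nsmul_eq_mul]
  push_cast
  rw [mul_div_cancel₀ _ hN.ne']
  linarith

theorem pk_cost (N : ℕ) {e : ℝ} (h0 : 0 < e) (h1 : e ≤ 1 / 2) (pr Q : Option Lam) :
    -Real.log (pk N e pr Q) ≤
      2 * e + (if pr ≠ Q then Real.log (N + 1) - Real.log e else 0) := by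
  unfold pk
  by_cases hQ : Q = pr
  · rw [if_pos hQ, if_neg (by simp [hQ])]
    have h2 : (0 : ℝ) < 1 - e := by linarith
    have h3 := Real.one_sub_inv_le_log_of_pos h2
    have h4 : (1 - e)⁻¹ ≤ 1 + 2 * e := by
      rw [inv_le_comm₀ h2 (by linarith), inv_le_iff_one_le_mul₀ (by linarith)]
      nlinarith
    linarith
  · rw [if_neg hQ, if_pos (Ne.symm hQ), Real.log_div h0.ne' (by positivity)]
    linarith

/-- the priors: `pri ρ kap m i R` is a sub-probability on the labels on `R` at level `i`, using `m` further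
levels -/
noncomputable def pri (ρ : ℕ → ℝ) (kap : ℕ → Finset V → (V → Option Lam) → V → Option Lam → ℝ) :
    ℕ → ℕ → Finset V → (V → Option Lam) → ℝ
  | 0, _, R, τ => ker (fun _ _ => 1 / ((Fintype.card Lam : ℝ) + 1)) R τ
  | m + 1, i, R, τ => EB (ρ (i + 1)) (fun R' => ∑ τ' : V → Option Lam,
      pri ρ kap m (i + 1) R' τ' * ker (kap i R' τ') R τ)

/-- the conditions on the kernels -/
structure KapOK (ρ : ℕ → ℝ) (kap : ℕ → Finset V → (V → Option Lam) → V → Option Lam → ℝ) : Prop where
  r0 : ∀ i, 0 ≤ ρ i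
  r1 : ∀ i, ρ i ≤ 1
  pos : ∀ i R' τ' x Q, 0 < kap i R' τ' x Q
  sum : ∀ i R' τ' x, ∑ Q, kap i R' τ' x Q ≤ 1

/-- the last stage: labels outside the set `SS R τ0` -/
noncomputable def PLg (P : Finset V → (V → Option Lam) → ℝ) (SS : Finset V → (V → Option Lam) → Finset V)
    (kf : Finset V → (V → Option Lam) → V → Option Lam → ℝ) (R : Finset V) (τ : V → Option Lam) : ℝ :=
  ∑ τ0 : V → Option Lam, P R τ0 * ker (kf R τ0) (SS R τ0)ᶜ τ

end LD
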