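import Pool.Agent.W_5dd92e_ld.LsP

/-!
# Label stage: the predictor of the last stage (deterministic part)
-/

set_option autoImplicit false

open Finset
open scoped Classical

namespace LD

variable {V : Type*} [Fintype V] {Lam : Type*} [Fintype Lam]

/-- the vertices whose label is not coded -/
noncomputable def SSf (G : SimpleGraph V) (ζ : ℝ) (R : Finset V) (τ : V → Option Lam) : Finset V :=
  univ.filter (fun x => Two G τ R x 1 ∧ ∀ Q, ζ / 16 * ((nb G x ∩ R).card : ℝ) <
    (((nb G x ∩ R).filter (fun y => τ y ≠ Q)).card : ℝ))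

/-- the predictor of the last stage -/
noncomputable def prf (G : SimpleGraph V) (J : ℕ) (ζ : ℝ) (τ : V → Option Lam) (R : Finset V) (x : V) :
    Option Lam :=
  if rad G J 1 τ R x = 1 then
    (if h : ∃ Q, (((nb G x ∩ R).filter (fun y => τ y ≠ Q)).card : ℝ) ≤ ζ / 16 * ((nb G x ∩ R).card : ℝ)
      then h.choose else none)
  else una G τ R x (rad G J 1 τ R x - 1)

/-- the event that too few vertices without label `Q` are seen next to `x` -/
def Few (G : SimpleGraph V) (ζ : ℝ) (l : V → Option Lam) (x : V) (Q : Option Lam) (R : Finset V) : Prop :=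
  ((((nb G x).filter (fun y => l y ≠ Q)) ∩ R).card : ℝ) ≤
      ζ / 16 * (((((nb G x).filter (fun y => l y ≠ Q)) ∩ R).card : ℝ) +
        (((nb G x).filter (fun y => l y = Q)) ∩ R).card)

omit [Fintype Lam] in
private theorem P2_filt (G : SimpleGraph V) (τ l : V → Option Lam) (R : Finset V)
    (h : ∀ y ∈ R, τ y = l y) (x : V) (Q : Option Lam) :
    (nb G x ∩ R).filter (fun y => τ y ≠ Q) = ((nb G x).filter (fun y => l y ≠ Q)) ∩ R := by
  ext y
  simp only [mem_filter, mem_inter]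
  constructor
  · rintro ⟨⟨h1, h2⟩, h3⟩
    rw [h y h2] at h3
    exact ⟨⟨h1, h3⟩, h2⟩
  · rintro ⟨⟨h1, h3⟩, h2⟩
    rw [← h y h2] at h3
    exact ⟨⟨h1, h2⟩, h3⟩

omit [Fintype Lam] in
private theorem P2_card (G : SimpleGraph V) (l : V → Option Lam) (R : Finset V) (x : V) (Q : Option Lam) :
    ((nb G x ∩ R).card : ℝ) = ((((nb G x).filter (fun y => l y ≠ Q)) ∩ R).card : ℝ) +
        (((nb G x).filter (fun y => l y = Q)) ∩ R).card := by
  have h1 : nb G x ∩ R = (((nb G x).filter (fun y => l y ≠ Q)) ∩ R) ∪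
      (((nb G x).filter (fun y => l y = Q)) ∩ R) := by
    ext y
    simp only [mem_union, mem_filter, mem_inter]
    tauto
  have h2 : Disjoint (((nb G x).filter (fun y => l y ≠ Q)) ∩ R)
      (((nb G x).filter (fun y => l y = Q)) ∩ R) := by
    rw [disjoint_left]
    intro y h3 h4
    simp only [mem_filter, mem_inter] at h3 h4
    exact h3.1.2 h4.1.2
  rw [h1, card_union_of_disjoint h2]
  push_cast
  rfl

/-- an error at radius `1` outside `SSf` -/
theorem err_prf (G : SimpleGraph V) (J : ℕ) (hJ : 1 < J) (ζ : ℝ) (τ l : V → Option Lam) (R : Finset V)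
    (h : ∀ y ∈ R, τ y = l y) (x : V) (hx : x ∉ SSf G ζ R τ) (hr : rad G J 1 τ R x = 1)
    (he : prf G J ζ τ R x ≠ l x) :
    ∃ Q, Q ≠ l x ∧ Few G ζ l x Q R := by
  have h1 : Two G τ R x 1 := by
    have h2 := two_rad G J 1 τ R x (by rw [hr]; exact hJ)
    rwa [hr] at h2
  have h2 : ∃ Q, (((nb G x ∩ R).filter (fun y => τ y ≠ Q)).card : ℝ) ≤
      ζ / 16 * ((nb G x ∩ R).card : ℝ) := by
    by_contra hcon
    push Not at hcon
    exact hx (mem_filter.2 ⟨mem_univ _, h1, hcon⟩)
  have h3 : prf G J ζ τ R x = h2.choose := by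
    rw [prf, if_pos hr, dif_pos h2]
  have h4 := h2.choose_spec
  rw [← h3] at h4
  refine ⟨prf G J ζ τ R x, he, ?_⟩
  rw [P2_filt G τ l R h x, P2_card G l R x (prf G J ζ τ R x)] at h4
  exact h4

/-- `SSf` -/
theorem mem_SSf (G : SimpleGraph V) (ζ : ℝ) (τ l : V → Option Lam) (R : Finset V)
    (h : ∀ y ∈ R, τ y = l y) (x : V) (hx : x ∈ SSf G ζ R τ) : x ∈ NM G l 1 ∧
    ζ / 16 * (((((nb G x).filter (fun y => l y ≠ l x)) ∩ R).card : ℝ) +
        (((nb G x).filter (fun y => l y = l x)) ∩ R).card) <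
      ((((nb G x).filter (fun y => l y ≠ l x)) ∩ R).card : ℝ) := by
  have h1 := (mem_filter.1 hx).2
  refine ⟨two_NM G τ l R h x 1 h1.1, ?_⟩
  have h2 := h1.2 (l x)
  rw [P2_filt G τ l R h x, P2_card G l R x (l x)] at h2
  exact h2

end LD
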