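import Pool.Agent.W_5dd92e_ld.LsC
import Pool.Agent.W_5dd92e_ld.LsK
import Pool.Agent.W_5dd92e_ld.LsP2

/-!
# Label stage: probabilities in the last stage
-/

set_option autoImplicit false

open Finset
open scoped Classical

namespace LD

variable {V : Type*} [Fintype V] {Lam : Type*} [Fintype Lam]

/-- `cher_few` and `F3P.many` -/
theorem prob_few (G : SimpleGraph V) {d : ℕ} {ζ p : ℝ} (h0 : 0 ≤ p) (h1 : p ≤ 1) (hz : 0 ≤ ζ)
    (hz1 : ζ ≤ 1) (hreg : Rgl G d) (l : V → Option Lam) (h3 : F3P G ζ d l) (x : V) (A : ℝ) (hA : 0 ≤ A) :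
    EB p (fun R => ∑ Q ∈ univ.filter (fun Q : Option Lam => Q ≠ l x), if Few G ζ l x Q R then A else 0) ≤
      ((Fintype.card Lam : ℝ) + 1) * Real.exp (-(p * ζ * d / 16)) * A := by
  have hreg' : ∀ Q : Option Lam, (((nb G x).filter (fun y => l y ≠ Q)).card : ℝ) +
      (((nb G x).filter (fun y => l y = Q)).card : ℝ) = d := by
    intro Q
    have h3 := card_filter_add_card_filter_not (s := nb G x) (fun y => l y = Q)
    rw [hreg x] at h3
    have h4 : (((nb G x).filter (fun y => l y = Q)).card : ℝ) +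
      (((nb G x).filter (fun y => ¬ l y = Q)).card : ℝ) = d := by exact_mod_cast h3
    rw [add_comm]
    exact h4
  have hone : ∀ Q : Option Lam, Q ≠ l x →
      EB p (fun R => if Few G ζ l x Q R then A else 0) ≤ Real.exp (-(p * ζ * d / 16)) * A := by
    intro Q hQ
    have h4 := h3.many hreg x Q (fun h => hQ h.symm)
    have h5 := cher_few h0 h1 hz hz1 ((nb G x).filter (fun y => l y ≠ Q))
      ((nb G x).filter (fun y => l y = Q))
      (disjoint_left.2 fun y hy hy' => (mem_filter.1 hy).2 (mem_filter.1 hy').2)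
      (by rw [hreg' Q]; exact h4)
    rw [hreg' Q] at h5
    have h6 : EB p (fun R => if Few G ζ l x Q R then A else 0) =
        A * EB p (fun R => if Few G ζ l x Q R then (1 : ℝ) else 0) := by
      rw [← EB_mul]
      congr 1
      funext R
      split_ifs <;> simp
    rw [h6, mul_comm]
    refine mul_le_mul_of_nonneg_right ?_ hA
    refine le_trans (le_of_eq ?_) h5
    congr 1
  rw [EB_sum]
  refine (sum_le_card_nsmul _ _ _ fun Q hQ => hone Q (mem_filter.1 hQ).2).trans ?_
  rw [nsmul_eq_mul]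
  have h7 : ((univ.filter (fun Q : Option Lam => Q ≠ l x)).card : ℝ) ≤ (Fintype.card Lam : ℝ) + 1 := by
    have h8 : (univ.filter (fun Q : Option Lam => Q ≠ l x)).card ≤ Fintype.card Lam + 1 := by
      refine (card_le_univ _).trans (le_of_eq ?_)
      exact Fintype.card_option
    exact_mod_cast h8
  rw [mul_assoc ((Fintype.card Lam : ℝ) + 1)]
  exact mul_le_mul_of_nonneg_right h7 (mul_nonneg (Real.exp_pos _).le hA)

/-- the number of the vertices whose label is not coded: at most `64 |Dis| / (ζ d)` vertices have more than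
`(ζ / 64) d` disagreeing neighbours; for the others use `mem_SSf` and `cher_many` -/
theorem ss_sum (G : SimpleGraph V) {d : ℕ} {ζ p : ℝ} (h0 : 0 ≤ p) (h1 : p ≤ 1) (hd : 2 ≤ d)
    (hreg : Rgl G d) (hz0 : 0 < ζ) (hz1 : ζ ≤ 1) (l : V → Option Lam) :
    EB p (fun R => ((SSf G ζ R (rst R l)).card : ℝ)) ≤
      ((Dis G l).card : ℝ) * (64 / (ζ * d) + (d : ℝ) * Real.exp (-(p * ζ * d / 32))) := by
  have hd0 : (0 : ℝ) < d := by
    have : 0 < d := by omega
    exact_mod_cast this
  have hz : 0 ≤ ζ := hz0.le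
  have hreg' : ∀ x : V, (((nb G x).filter (fun y => l y ≠ l x)).card : ℝ) +
      (((nb G x).filter (fun y => l y = l x)).card : ℝ) = d := by
    intro x
    have h3 := card_filter_add_card_filter_not (s := nb G x) (fun y => l y = l x)
    rw [hreg x] at h3
    have h4 : (((nb G x).filter (fun y => l y = l x)).card : ℝ) +
      (((nb G x).filter (fun y => ¬ l y = l x)).card : ℝ) = d := by exact_mod_cast h3
    rw [add_comm]
    exact h4
  -- the number of the disagreements
  have hdis : ∑ x : V, ((nb G x).filter (fun y => l y ≠ l x)).card = (Dis G l).card := by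
    have e : Dis G l = (univ.sigma (fun x : V => (nb G x).filter (fun y => l y ≠ l x))).image
        (fun q => (q.1, q.2)) := by
      ext ⟨a, b⟩
      rw [mem_Dis]
      simp only [mem_image, mem_sigma, mem_univ, true_and, mem_filter, mem_nb, Sigma.exists,
        Prod.mk.injEq]
      constructor
      · rintro ⟨h1, h2⟩
        exact ⟨a, b, ⟨h1, fun h => h2 h.symm⟩, rfl, rfl⟩
      · rintro ⟨a', b', ⟨h1, h2⟩, rfl, rfl⟩
        exact ⟨h1, fun h => h2 h.symm⟩
    rw [e, card_image_of_injective, card_sigma]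
    rintro ⟨a, b⟩ ⟨a', b'⟩ h
    simp only [Prod.mk.injEq] at h
    obtain ⟨rfl, rfl⟩ := h
    rfl
  set Bad : Finset V := univ.filter (fun x => ζ / 64 * d <
    (((nb G x).filter (fun y => l y ≠ l x)).card : ℝ)) with hBad
  have hbad : (Bad.card : ℝ) ≤ ((Dis G l).card : ℝ) * (64 / (ζ * d)) := by
    have h5 : (Bad.card : ℝ) * (ζ / 64 * d) ≤ ((Dis G l).card : ℝ) := by
      calc (Bad.card : ℝ) * (ζ / 64 * d) = ∑ x ∈ Bad, ζ / 64 * d := by
            rw [sum_const, nsmul_eq_mul]
        _ ≤ ∑ x ∈ Bad, (((nb G x).filter (fun y => l y ≠ l x)).card : ℝ) :=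
            sum_le_sum fun x hx => (mem_filter.1 hx).2.le
        _ ≤ ∑ x : V, (((nb G x).filter (fun y => l y ≠ l x)).card : ℝ) :=
            sum_le_sum_of_subset_of_nonneg (subset_univ _) fun x _ _ => Nat.cast_nonneg _
        _ = ((Dis G l).card : ℝ) := by rw [← hdis]; push_cast; rfl
    have hzd : 0 < ζ * d := mul_pos hz0 hd0
    rw [mul_div_assoc', le_div_iff₀ hzd]
    linarith
  have hNM : ((NM G l 1).card : ℝ) ≤ ((Dis G l).card : ℝ) * d := by
    have h6 := C2 G d hreg hd l 1
    rw [pow_one, mul_comm] at h6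
    exact_mod_cast h6
  -- pointwise bound
  have hpt : ∀ R : Finset V, ((SSf G ζ R (rst R l)).card : ℝ) ≤
      (Bad.card : ℝ) + ∑ x ∈ (NM G l 1).filter (fun x => x ∉ Bad),
        (if ζ / 16 * (((((nb G x).filter (fun y => l y ≠ l x)) ∩ R).card : ℝ) +
          (((nb G x).filter (fun y => l y = l x)) ∩ R).card) <
        ((((nb G x).filter (fun y => l y ≠ l x)) ∩ R).card : ℝ) then (1 : ℝ) else 0) := by
    intro R
    have hsub : SSf G ζ R (rst R l) ⊆ Bad ∪ ((NM G l 1).filter (fun x => x ∉ Bad)).filter (fun x =>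
        ζ / 16 * (((((nb G x).filter (fun y => l y ≠ l x)) ∩ R).card : ℝ) +
          (((nb G x).filter (fun y => l y = l x)) ∩ R).card) <
        ((((nb G x).filter (fun y => l y ≠ l x)) ∩ R).card : ℝ)) := by
      intro x hx
      have h7 := mem_SSf G ζ (rst R l) l R (fun y hy => by simp [rst, hy]) x hx
      rw [mem_union]
      by_cases hb : x ∈ Bad
      · exact Or.inl hb
      · refine Or.inr (mem_filter.2 ⟨mem_filter.2 ⟨h7.1, hb⟩, h7.2⟩)
    have h8 := (card_le_card hsub).trans (card_union_le _ _)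
    have h9 : ((SSf G ζ R (rst R l)).card : ℝ) ≤ (Bad.card : ℝ) +
        ((((NM G l 1).filter (fun x => x ∉ Bad)).filter (fun x =>
        ζ / 16 * (((((nb G x).filter (fun y => l y ≠ l x)) ∩ R).card : ℝ) +
          (((nb G x).filter (fun y => l y = l x)) ∩ R).card) <
        ((((nb G x).filter (fun y => l y ≠ l x)) ∩ R).card : ℝ))).card : ℝ) := by
      exact_mod_cast h8
    refine h9.trans (le_of_eq ?_)
    rw [sum_ite, sum_const_zero, add_zero, sum_const, nsmul_eq_mul, mul_one]
  refine (EB_mono h0 h1 _ _ hpt).trans ?_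
  rw [EB_add, EB_const, EB_sum, mul_add]
  refine add_le_add hbad ?_
  have hone : ∀ x ∈ (NM G l 1).filter (fun x => x ∉ Bad),
      EB p (fun R => if ζ / 16 * (((((nb G x).filter (fun y => l y ≠ l x)) ∩ R).card : ℝ) +
          (((nb G x).filter (fun y => l y = l x)) ∩ R).card) <
        ((((nb G x).filter (fun y => l y ≠ l x)) ∩ R).card : ℝ) then (1 : ℝ) else 0) ≤
      Real.exp (-(p * ζ * d / 32)) := by
    intro x hx
    have hb := (mem_filter.1 hx).2
    rw [hBad, mem_filter] at hb
    push Not at hb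
    have hb' := hb (mem_univ x)
    have h5 := cher_many h0 h1 hz hz1 ((nb G x).filter (fun y => l y ≠ l x))
      ((nb G x).filter (fun y => l y = l x))
      (disjoint_left.2 fun y hy hy' => (mem_filter.1 hy).2 (mem_filter.1 hy').2)
      (by rw [hreg' x]; exact hb')
    rw [hreg' x] at h5
    exact h5
  refine (sum_le_card_nsmul _ _ _ hone).trans ?_
  rw [nsmul_eq_mul]
  have h10 : (((NM G l 1).filter (fun x => x ∉ Bad)).card : ℝ) ≤ ((NM G l 1).card : ℝ) := by
    exact_mod_cast card_le_card (filter_subset _ _)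
  rw [← mul_assoc]
  exact mul_le_mul_of_nonneg_right (h10.trans hNM) (Real.exp_pos _).le

end LD
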