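import Pool.Agent.W_5dd92e_ld.G3
import Pool.Agent.W_5dd92e_ld.EBase

/-!
# Label stage: the predictor (deterministic part)

`τ` is the known label field, only used on `R`.
-/

set_option autoImplicit false

open Finset
open scoped Classical

namespace LD

variable {V : Type*} [Fintype V] {Lam : Type*} [Fintype Lam]

/-- two different labels are seen in the ball of radius `j` -/
def Two (G : SimpleGraph V) (τ : V → Option Lam) (R : Finset V) (x : V) (j : ℕ) : Prop :=
  ∃ y z, y ∈ Bl G j x ∧ z ∈ Bl G j x ∧ y ∈ R ∧ z ∈ R ∧ τ y ≠ τ z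

/-- the least radius `j ≥ r` at which two labels are seen, capped at `J` -/
noncomputable def rad (G : SimpleGraph V) (J r : ℕ) (τ : V → Option Lam) (R : Finset V) (x : V) : ℕ :=
  if h : ∃ j, r ≤ j ∧ j < J ∧ Two G τ R x j then Nat.find h else J

/-- the unanimous label in the ball of radius `j` -/
noncomputable def una (G : SimpleGraph V) (τ : V → Option Lam) (R : Finset V) (x : V) (j : ℕ) :
    Option Lam :=
  if h : ∃ Q, ∀ y ∈ Bl G j x, y ∈ R → τ y = Q then h.choose else none

/-- vertices of the sphere with a label different from that of `x` -/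
noncomputable def Wg (G : SimpleGraph V) (l : V → Option Lam) (j : ℕ) (x : V) : Finset V :=
  (Sp G j x).filter (fun y => l y ≠ l x)

/-- number of revealed vertices with label `Q` on the sphere of radius `r` -/
noncomputable def cnt (G : SimpleGraph V) (τ : V → Option Lam) (R : Finset V) (x : V) (r : ℕ)
    (Q : Option Lam) : ℕ := ((Sp G r x ∩ R).filter (fun y => τ y = Q)).card

theorem exists_plur (G : SimpleGraph V) (τ : V → Option Lam) (R : Finset V) (x : V) (r : ℕ) :
    ∃ Q, ∀ Q', cnt G τ R x r Q' ≤ cnt G τ R x r Q := by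
  obtain ⟨Q, _, hQ⟩ := (Finset.univ : Finset (Option Lam)).exists_max_image
    (fun Q => cnt G τ R x r Q) ⟨none, mem_univ _⟩
  exact ⟨Q, fun Q' => hQ Q' (mem_univ _)⟩

/-- the plurality label on the sphere of radius `r` -/
noncomputable def plur (G : SimpleGraph V) (τ : V → Option Lam) (R : Finset V) (x : V) (r : ℕ) :
    Option Lam := (exists_plur G τ R x r).choose

/-- the predictor -/
noncomputable def prd (G : SimpleGraph V) (J r : ℕ) (τ : V → Option Lam) (R : Finset V) (x : V) :
    Option Lam :=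
  if rad G J r τ R x = r then plur G τ R x r else una G τ R x (rad G J r τ R x - 1)

theorem rad_le (G : SimpleGraph V) (J r : ℕ) (τ : V → Option Lam) (R : Finset V) (x : V) :
    rad G J r τ R x ≤ J := by
  unfold rad
  split_ifs with h
  · exact (Nat.find_spec h).2.1.le
  · exact le_rfl

theorem le_rad (G : SimpleGraph V) {J r : ℕ} (h : r ≤ J) (τ : V → Option Lam) (R : Finset V) (x : V) :
    r ≤ rad G J r τ R x := by
  unfold rad
  split_ifs with h'
  · exact (Nat.find_spec h').1
  · exact h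

theorem two_rad (G : SimpleGraph V) (J r : ℕ) (τ : V → Option Lam) (R : Finset V) (x : V)
    (h : rad G J r τ R x < J) : Two G τ R x (rad G J r τ R x) := by
  by_cases h' : ∃ j, r ≤ j ∧ j < J ∧ Two G τ R x j
  · have h1 : rad G J r τ R x = Nat.find h' := dif_pos h'
    rw [h1]
    exact (Nat.find_spec h').2.2
  · have h1 : rad G J r τ R x = J := dif_neg h'
    omega

theorem not_two (G : SimpleGraph V) (J r : ℕ) (τ : V → Option Lam) (R : Finset V) (x : V) (j : ℕ)
    (h1 : r ≤ j) (h2 : j < rad G J r τ R x) : ¬ Two G τ R x j := by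
  intro ht
  have hJ := rad_le G J r τ R x
  have h' : ∃ j, r ≤ j ∧ j < J ∧ Two G τ R x j := ⟨j, h1, lt_of_lt_of_le h2 hJ, ht⟩
  have h3 : rad G J r τ R x = Nat.find h' := dif_pos h'
  rw [h3] at h2
  exact Nat.find_min h' h2 ⟨h1, lt_of_lt_of_le h2 (h3 ▸ hJ), ht⟩

theorem two_NM (G : SimpleGraph V) (τ l : V → Option Lam) (R : Finset V) (h : ∀ y ∈ R, τ y = l y) (x : V)
    (j : ℕ) (h2 : Two G τ R x j) : x ∈ NM G l j := by
  obtain ⟨y, z, hy, hz, hyR, hzR, hyz⟩ := h2
  rw [NM, mem_filter]
  refine ⟨mem_univ _, ?_⟩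
  rw [h y hyR, h z hzR] at hyz
  by_cases h1 : l y = l x
  · exact ⟨z, hz, fun h2 => hyz (h1.trans h2.symm)⟩
  · exact ⟨y, hy, h1⟩

/-- an error at radius `r`: at least as many wrong as right vertices are revealed on the sphere -/
theorem err_plur (G : SimpleGraph V) (τ l : V → Option Lam) (R : Finset V) (h : ∀ y ∈ R, τ y = l y)
    (x : V) (r : ℕ) (he : plur G τ R x r ≠ l x) :
    (((Sp G r x).filter (fun y => l y = l x)) ∩ R).card ≤ (Wg G l r x ∩ R).card := by
  have hp : cnt G τ R x r (l x) ≤ cnt G τ R x r (plur G τ R x r) :=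
    (exists_plur G τ R x r).choose_spec (l x)
  have h1 : (((Sp G r x).filter (fun y => l y = l x)) ∩ R).card ≤ cnt G τ R x r (l x) := by
    refine card_le_card fun y hy => ?_
    rw [mem_inter, mem_filter] at hy
    rw [mem_filter, mem_inter]
    exact ⟨⟨hy.1.1, hy.2⟩, (h y hy.2).trans hy.1.2⟩
  have h2 : cnt G τ R x r (plur G τ R x r) ≤ (Wg G l r x ∩ R).card := by
    refine card_le_card fun y hy => ?_
    rw [mem_filter, mem_inter] at hy
    rw [mem_inter, Wg, mem_filter]
    refine ⟨⟨hy.1.1, fun h3 => he ?_⟩, hy.1.2⟩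
    rw [← h3, ← h y hy.1.2, hy.2]
  exact h1.trans (hp.trans h2)

/-- an error of the unanimous label: for some `Q ≠ l x` the vertices without label `Q` on the sphere of radius
`j` are not revealed -/
theorem err_una (G : SimpleGraph V) (τ l : V → Option Lam) (R : Finset V) (h : ∀ y ∈ R, τ y = l y)
    (x : V) (j : ℕ) (h2 : ¬ Two G τ R x j) (he : una G τ R x j ≠ l x) :
    ∃ Q, Q ≠ l x ∧ Disjoint ((Sp G j x).filter (fun y => l y ≠ Q)) R := by
  have hQ : ∃ Q, ∀ y ∈ Bl G j x, y ∈ R → τ y = Q := by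
    by_cases h3 : ∃ y ∈ Bl G j x, y ∈ R
    · obtain ⟨y, hy, hyR⟩ := h3
      refine ⟨τ y, fun z hz hzR => ?_⟩
      by_contra h4
      exact h2 ⟨z, y, hz, hy, hzR, hyR, h4⟩
    · exact ⟨none, fun y hy hyR => absurd ⟨y, hy, hyR⟩ h3⟩
  have h1 : una G τ R x j = hQ.choose := dif_pos hQ
  refine ⟨una G τ R x j, he, ?_⟩
  rw [disjoint_left]
  intro y hy hyR
  rw [mem_filter] at hy
  apply hy.2
  rw [h1, ← h y hyR]
  exact hQ.choose_spec y (Sp_sub_Bl G j x hy.1) hyR

end LD
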