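import Pool.Agent.W_5dd92e_ld.LsC
import Pool.Agent.W_5dd92e_ld.LsP

/-!
# Label stage: probabilities of the errors of one stage
-/

set_option autoImplicit false

open Finset
open scoped Classical

namespace LD

variable {V : Type*} [Fintype V] {Lam : Type*} [Fintype Lam]

private theorem LsS2_EB_if {p : ℝ} (P : Finset V → Prop) [DecidablePred P] (A : ℝ) :
    EB p (fun R => if P R then A else 0) = A * EB p (fun R => if P R then (1 : ℝ) else 0) := by
  rw [← EB_mul]
  congr 1
  funext R
  split_ifs <;> simp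

/-- probability that a far set is not hit (`EB_empty` and `G3`) -/
theorem prob_far (G : SimpleGraph V) {d J : ℕ} {ζ p : ℝ} (h0 : 0 ≤ p) (h1 : p ≤ 1) (hreg : Rgl G d)
    (hT : TreeTo G J) (hz : 20 ≤ ζ * d) (l : V → Option Lam) (h3 : F3P G ζ d l) (x : V) (j : ℕ)
    (hj : j ≤ J) (A : ℝ) (hA : 0 ≤ A) :
    EB p (fun R => ∑ Q ∈ univ.filter (fun Q : Option Lam => Q ≠ l x),
      if Disjoint ((Sp G j x).filter (fun y => l y ≠ Q)) R then A else 0) ≤
      ((Fintype.card Lam : ℝ) + 1) * Real.exp (-(p * (ζ * d / 5) ^ j)) * A := by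
  rw [EB_sum p (univ.filter (fun Q : Option Lam => Q ≠ l x))
    (fun Q R => if Disjoint ((Sp G j x).filter (fun y => l y ≠ Q)) R then A else 0)]
  have hb : ∀ Q ∈ univ.filter (fun Q : Option Lam => Q ≠ l x),
      EB p (fun R => if Disjoint ((Sp G j x).filter (fun y => l y ≠ Q)) R then A else 0) ≤
        A * Real.exp (-(p * (ζ * d / 5) ^ j)) := by
    intro Q hQ
    rw [mem_filter] at hQ
    rw [LsS2_EB_if]
    refine mul_le_mul_of_nonneg_left ?_ hA
    refine (EB_empty h0 h1 _).trans (Real.exp_le_exp.2 ?_)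
    have h4 := G3 G ζ d hreg hz J hT l h3 x Q (fun h => hQ.2 h.symm) j (by omega)
    have h5 := mul_le_mul_of_nonneg_left h4 h0
    linarith
  refine (sum_le_sum hb).trans ?_
  rw [sum_const, nsmul_eq_mul]
  have h4 : ((univ.filter (fun Q : Option Lam => Q ≠ l x)).card : ℝ) ≤ (Fintype.card Lam : ℝ) + 1 := by
    have h5 := card_filter_le (univ : Finset (Option Lam)) (fun Q : Option Lam => Q ≠ l x)
    rw [card_univ, Fintype.card_option] at h5
    exact_mod_cast h5
  have h6 : 0 ≤ A * Real.exp (-(p * (ζ * d / 5) ^ j)) := mul_nonneg hA (Real.exp_pos _).le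
  calc _ ≤ ((Fintype.card Lam : ℝ) + 1) * (A * Real.exp (-(p * (ζ * d / 5) ^ j))) :=
        mul_le_mul_of_nonneg_right h4 h6
    _ = _ := by ring

private theorem LsS2_sum_Wg (G : SimpleGraph V) (l : V → Option Lam) (j : ℕ) :
    ∑ x, (Wg G l j x).card = (PD G l j).card := by
  have h : PD G l j = univ.biUnion (fun x => (Wg G l j x).image (fun y => (x, y))) := by
    ext ⟨x, y⟩
    simp only [PD, Wg, mem_filter, mem_univ, true_and, mem_biUnion, mem_image, Prod.mk.injEq]
    constructor
    · rintro ⟨h1, h2⟩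
      exact ⟨x, y, ⟨h1, fun h => h2 h.symm⟩, rfl, rfl⟩
    · rintro ⟨x', y', ⟨h1, h2⟩, rfl, rfl⟩
      exact ⟨h1, fun h => h2 h.symm⟩
  rw [h, card_biUnion]
  · refine sum_congr rfl fun x _ => ?_
    rw [card_image_of_injective]
    intro y y' hy
    exact (Prod.mk.inj hy).2
  · intro x _ x' _ hx
    show Disjoint _ _
    rw [disjoint_left]
    rintro ⟨u, v⟩ h1 h2
    rw [mem_image] at h1 h2
    obtain ⟨_, _, e1⟩ := h1
    obtain ⟨_, _, e2⟩ := h2
    apply hx
    rw [(Prod.mk.inj e1).1, (Prod.mk.inj e2).1]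

/-- errors of the plurality, summed over `x` (`cher_maj` if `7 |wrong| ≤ |right|`; the other vertices are counted
with `C1`) -/
theorem sum_plur (G : SimpleGraph V) {d J r : ℕ} {p : ℝ} (h0 : 0 ≤ p) (h1 : p ≤ 1) (hd : 2 ≤ d)
    (hreg : Rgl G d) (hT : TreeTo G J) (hr : r ≤ J) (l : V → Option Lam) (A : ℝ) (hA : 0 ≤ A) :
    ∑ x, EB p (fun R => if x ∈ NM G l (r + 1) ∧
        (((Sp G (r + 1) x).filter (fun y => l y = l x)) ∩ R).card ≤ (Wg G l (r + 1) x ∩ R).card
        then A else 0) ≤
      ((Dis G l).card : ℝ) * ((8 * ((r : ℝ) + 1) / d +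
        (d : ℝ) ^ (r + 1) * Real.exp (-(p * ((d : ℝ) * ((d : ℝ) - 1) ^ r) / 4))) * A) := by
  have hd0 : (0 : ℝ) < d := by
    have : 0 < d := by omega
    exact_mod_cast this
  have hd1 : (0 : ℝ) < (d : ℝ) - 1 := by
    have : (2 : ℝ) ≤ d := by exact_mod_cast hd
    linarith
  set D : ℝ := (d : ℝ) * ((d : ℝ) - 1) ^ r with hD
  have hD0 : 0 < D := mul_pos hd0 (pow_pos hd1 r)
  set E : ℝ := Real.exp (-(p * D / 4)) with hE
  have hE0 : 0 < E := Real.exp_pos _
  have hcard : ∀ x, ((Wg G l (r + 1) x).card : ℝ) +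
      (((Sp G (r + 1) x).filter (fun y => l y = l x)).card : ℝ) = D := by
    intro x
    have h2 : ((Sp G (r + 1) x).filter (fun y => l y = l x)).card +
        ((Sp G (r + 1) x).filter (fun y => ¬ l y = l x)).card = (Sp G (r + 1) x).card :=
      card_filter_add_card_filter_not _
    rw [card_Sp G d hreg J hT r hr x] at h2
    have h3 : ((d * (d - 1) ^ r : ℕ) : ℝ) = D := by
      rw [hD]
      push_cast [Nat.cast_sub (by omega : 1 ≤ d)]
      ring
    have h4 : Wg G l (r + 1) x = (Sp G (r + 1) x).filter (fun y => ¬ l y = l x) := rfl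
    rw [h4, ← h3, ← h2]
    push_cast
    ring
  have hpt : ∀ x, EB p (fun R => if x ∈ NM G l (r + 1) ∧
        (((Sp G (r + 1) x).filter (fun y => l y = l x)) ∩ R).card ≤ (Wg G l (r + 1) x ∩ R).card
        then A else 0) ≤
      A * (8 / D * ((Wg G l (r + 1) x).card : ℝ)) + (if x ∈ NM G l (r + 1) then A * E else 0) := by
    intro x
    have hW : 0 ≤ A * (8 / D * ((Wg G l (r + 1) x).card : ℝ)) := by positivity
    by_cases hx : x ∈ NM G l (r + 1)
    · rw [if_pos hx]
      by_cases hc : 7 * (Wg G l (r + 1) x).card ≤ ((Sp G (r + 1) x).filter (fun y => l y = l x)).card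
      · have hdis : Disjoint (Wg G l (r + 1) x) ((Sp G (r + 1) x).filter (fun y => l y = l x)) := by
          rw [disjoint_left]
          intro y hy hy'
          rw [Wg, mem_filter] at hy
          rw [mem_filter] at hy'
          exact hy.2 hy'.2
        have h2 := cher_maj h0 h1 _ _ hdis hc
        rw [hcard x] at h2
        have h3 : EB p (fun R => if x ∈ NM G l (r + 1) ∧
            (((Sp G (r + 1) x).filter (fun y => l y = l x)) ∩ R).card ≤ (Wg G l (r + 1) x ∩ R).card
            then A else 0) = A * EB p (fun R => if (((Sp G (r + 1) x).filter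
              (fun y => l y = l x)) ∩ R).card ≤ (Wg G l (r + 1) x ∩ R).card then (1 : ℝ) else 0) := by
          rw [← LsS2_EB_if]
          congr 1
          funext R
          simp only [hx, true_and]
        rw [h3]
        have h4 := mul_le_mul_of_nonneg_left h2 hA
        linarith
      · have h2 : EB p (fun R => if x ∈ NM G l (r + 1) ∧
            (((Sp G (r + 1) x).filter (fun y => l y = l x)) ∩ R).card ≤ (Wg G l (r + 1) x ∩ R).card
            then A else 0) ≤ A := by
          refine (EB_mono h0 h1 _ (fun _ => A) fun R => ?_).trans (le_of_eq (EB_const p A))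
          split_ifs
          · exact le_rfl
          · exact hA
        have h3 : D ≤ 8 * ((Wg G l (r + 1) x).card : ℝ) := by
          rw [← hcard x]
          have h4 : (((Sp G (r + 1) x).filter (fun y => l y = l x)).card : ℝ) <
              7 * ((Wg G l (r + 1) x).card : ℝ) := by exact_mod_cast not_le.1 hc
          linarith
        have h5 : 1 ≤ 8 / D * ((Wg G l (r + 1) x).card : ℝ) := by
          rw [div_mul_eq_mul_div, le_div_iff₀ hD0]
          linarith
        have h6 := mul_le_mul_of_nonneg_left h5 hA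
        have h7 : 0 ≤ A * E := mul_nonneg hA hE0.le
        linarith
    · rw [if_neg hx, add_zero]
      refine le_trans (le_of_eq ?_) hW
      simp only [hx, false_and, if_false]
      exact EB_const p 0
  refine (sum_le_sum fun x _ => hpt x).trans ?_
  rw [sum_add_distrib, ← mul_sum, ← mul_sum, ← sum_filter, sum_const, nsmul_eq_mul]
  have hN : (univ.filter (fun x => x ∈ NM G l (r + 1))) = NM G l (r + 1) := by
    ext x
    simp
  rw [hN, ← Nat.cast_sum, LsS2_sum_Wg]
  have hC1 : ((PD G l (r + 1)).card : ℝ) ≤ ((r : ℝ) + 1) * ((d : ℝ) - 1) ^ r * (Dis G l).card := by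
    have h2 := C1 G d hreg l r
    have h3 : (((r + 1) * (d - 1) ^ r * (Dis G l).card : ℕ) : ℝ) =
        ((r : ℝ) + 1) * ((d : ℝ) - 1) ^ r * (Dis G l).card := by
      push_cast [Nat.cast_sub (by omega : 1 ≤ d)]
      ring
    rw [← h3]
    exact_mod_cast h2
  have hC2 : ((NM G l (r + 1)).card : ℝ) ≤ (d : ℝ) ^ (r + 1) * (Dis G l).card := by
    have h2 := C2 G d hreg hd l (r + 1)
    exact_mod_cast h2
  have h8 : 0 ≤ A * (8 / D) := by positivity
  have h9 : A * (8 / D * ((PD G l (r + 1)).card : ℝ)) ≤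
      ((Dis G l).card : ℝ) * (8 * ((r : ℝ) + 1) / d * A) := by
    have h10 := mul_le_mul_of_nonneg_left hC1 h8
    have h11 : A * (8 / D) * (((r : ℝ) + 1) * ((d : ℝ) - 1) ^ r * (Dis G l).card) =
        ((Dis G l).card : ℝ) * (8 * ((r : ℝ) + 1) / d * A) := by
      rw [hD]
      have h12 : ((d : ℝ) - 1) ^ r ≠ 0 := (pow_pos hd1 r).ne'
      field_simp
    linarith
  have h10 : ((NM G l (r + 1)).card : ℝ) * (A * E) ≤
      ((Dis G l).card : ℝ) * ((d : ℝ) ^ (r + 1) * E * A) := by
    have h11 := mul_le_mul_of_nonneg_right hC2 (mul_nonneg hA hE0.le)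
    linarith
  calc _ ≤ ((Dis G l).card : ℝ) * (8 * ((r : ℝ) + 1) / d * A) +
        ((Dis G l).card : ℝ) * ((d : ℝ) ^ (r + 1) * E * A) := add_le_add h9 h10
    _ = _ := by ring

end LD
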