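import Pool.Agent.W_5dd92e_ld.LsS1
import Pool.Agent.W_5dd92e_ld.LsS2

/-!
# Label stage: cost of one stage
-/

set_option autoImplicit false

open Finset
open scoped Classical

namespace LD

variable {V : Type*} [Fintype V] {Lam : Type*} [Fintype Lam]

/-- the coefficient of the number of disagreeing pairs in the cost of a stage -/
noncomputable def Bst (N d : ℕ) (ζ p : ℝ) (r J : ℕ) : ℝ :=
  (∑ j ∈ Ico r J, 2 * ee d j * (d : ℝ) ^ j)
  + (8 * (r : ℝ) / d + (d : ℝ) ^ r * Real.exp (-(p * ((d : ℝ) * ((d : ℝ) - 1) ^ (r - 1)) / 4))) * AA N d r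
  + ∑ j ∈ Ico (r + 1) J, (d : ℝ) ^ j * (((N : ℝ) + 1) * Real.exp (-(p * (ζ * d / 5) ^ (j - 1))) * AA N d j)

/-- the cost per vertex -/
noncomputable def Est (N d : ℕ) (ζ p : ℝ) (J : ℕ) : ℝ :=
  2 * ee d J + ((N : ℝ) + 1) * Real.exp (-(p * (ζ * d / 5) ^ (J - 1))) * AA N d J

private theorem LsS_sum_ite (s : Finset V) (t : ℝ) :
    ∑ x, (if x ∈ s then t else 0) = (s.card : ℝ) * t := by
  rw [← sum_filter, sum_const, nsmul_eq_mul]
  congr 3
  ext x
  simp

private theorem LsS_EB5 (p : ℝ) (f1 f2 f3 f4 f5 : Finset V → ℝ) :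
    EB p (fun R => f1 R + f2 R + f3 R + f4 R + f5 R) = EB p f1 + EB p f2 + EB p f3 + EB p f4 + EB p f5 := by
  rw [EB_add, EB_add, EB_add, EB_add]

/-- the cost of a stage -/
theorem stage_sum (G : SimpleGraph V) {d J r : ℕ} {ζ p : ℝ} (h0 : 0 ≤ p) (h1 : p ≤ 1) (hd : 2 ≤ d)
    (hreg : Rgl G d) (hT : TreeTo G J) (hz : 20 ≤ ζ * d) (l : V → Option Lam) (h3 : F3P G ζ d l)
    (hr : 1 ≤ r) (hJ : r < J) :
    EB p (fun R => ∑ x, -Real.log (kst G d J r R (rst R l) x (l x))) ≤
      (Fintype.card V : ℝ) * Est (Fintype.card Lam) d ζ p J +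
      ((Dis G l).card : ℝ) * Bst (Fintype.card Lam) d ζ p r J := by
  set N : ℕ := Fintype.card Lam with hN
  have hdis : (0 : ℝ) ≤ ((Dis G l).card : ℝ) := Nat.cast_nonneg _
  -- expectation of the pointwise bound
  have step1 : ∀ x, EB p (fun R => -Real.log (kst G d J r R (rst R l) x (l x))) ≤
      2 * ee d J + (∑ j ∈ Ico r J, if x ∈ NM G l j then 2 * ee d j else 0)
      + EB p (fun R => if x ∈ NM G l r ∧
          (((Sp G r x).filter (fun y => l y = l x)) ∩ R).card ≤ (Wg G l r x ∩ R).card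
          then AA N d r else 0)
      + (∑ j ∈ Ico (r + 1) J, EB p (fun R => if x ∈ NM G l j then
          (∑ Q ∈ univ.filter (fun Q : Option Lam => Q ≠ l x),
            if Disjoint ((Sp G (j - 1) x).filter (fun y => l y ≠ Q)) R then AA N d j else 0)
          else 0))
      + EB p (fun R => ∑ Q ∈ univ.filter (fun Q : Option Lam => Q ≠ l x),
          if Disjoint ((Sp G (J - 1) x).filter (fun y => l y ≠ Q)) R then AA N d J else 0) := by
    intro x
    have h2 := EB_mono h0 h1 (fun R => -Real.log (kst G d J r R (rst R l) x (l x))) _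
      (fun R => stage_pt G hd hr hJ (rst R l) l R (fun y hy => by rw [rst, if_pos hy]) x)
    refine h2.trans (le_of_eq ?_)
    rw [LsS_EB5, EB_const, EB_const, EB_sum]
  have step2 : EB p (fun R => ∑ x, -Real.log (kst G d J r R (rst R l) x (l x))) =
      ∑ x, EB p (fun R => -Real.log (kst G d J r R (rst R l) x (l x))) := EB_sum _ _ _
  rw [step2]
  refine (sum_le_sum fun x _ => step1 x).trans ?_
  rw [sum_add_distrib, sum_add_distrib, sum_add_distrib, sum_add_distrib]
  -- the five terms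
  have t1 : ∑ _x : V, 2 * ee d J = (Fintype.card V : ℝ) * (2 * ee d J) := by
    rw [sum_const, nsmul_eq_mul, card_univ]
  have hC2 : ∀ j, ((NM G l j).card : ℝ) ≤ (d : ℝ) ^ j * (Dis G l).card := by
    intro j
    have h2 := C2 G d hreg hd l j
    exact_mod_cast h2
  have t2 : ∑ x, (∑ j ∈ Ico r J, if x ∈ NM G l j then 2 * ee d j else 0) ≤
      ((Dis G l).card : ℝ) * ∑ j ∈ Ico r J, 2 * ee d j * (d : ℝ) ^ j := by
    rw [sum_comm, mul_sum]
    refine sum_le_sum fun j _ => ?_
    rw [LsS_sum_ite]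
    have h4 : 0 ≤ 2 * ee d j := mul_nonneg (by norm_num) (ee_pos hd j).le
    have h5 := mul_le_mul_of_nonneg_right (hC2 j) h4
    linarith
  have t3 : ∑ x, EB p (fun R => if x ∈ NM G l r ∧
          (((Sp G r x).filter (fun y => l y = l x)) ∩ R).card ≤ (Wg G l r x ∩ R).card
          then AA N d r else 0) ≤
      ((Dis G l).card : ℝ) * ((8 * (r : ℝ) / d + (d : ℝ) ^ r *
        Real.exp (-(p * ((d : ℝ) * ((d : ℝ) - 1) ^ (r - 1)) / 4))) * AA N d r) := by
    obtain ⟨s, rfl⟩ : ∃ s, r = s + 1 := ⟨r - 1, by omega⟩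
    have h4 := sum_plur G h0 h1 hd hreg hT (r := s) (by omega) l (AA N d (s + 1)) (AA_nonneg hd N (s + 1))
    rw [Nat.add_sub_cancel]
    push_cast
    exact h4
  have hX : ∀ j, 0 ≤ ((N : ℝ) + 1) * Real.exp (-(p * (ζ * d / 5) ^ (j - 1))) * AA N d j := by
    intro j
    refine mul_nonneg (mul_nonneg ?_ (Real.exp_pos _).le) (AA_nonneg hd N j)
    have : (0 : ℝ) ≤ (N : ℝ) := Nat.cast_nonneg _
    linarith
  have t4 : ∑ x, (∑ j ∈ Ico (r + 1) J, EB p (fun R => if x ∈ NM G l j then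
          (∑ Q ∈ univ.filter (fun Q : Option Lam => Q ≠ l x),
            if Disjoint ((Sp G (j - 1) x).filter (fun y => l y ≠ Q)) R then AA N d j else 0)
          else 0)) ≤
      ((Dis G l).card : ℝ) * ∑ j ∈ Ico (r + 1) J, (d : ℝ) ^ j *
        (((N : ℝ) + 1) * Real.exp (-(p * (ζ * d / 5) ^ (j - 1))) * AA N d j) := by
    rw [sum_comm, mul_sum]
    refine sum_le_sum fun j hj => ?_
    rw [mem_Ico] at hj
    have h4 : ∀ x, EB p (fun R => if x ∈ NM G l j then
          (∑ Q ∈ univ.filter (fun Q : Option Lam => Q ≠ l x),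
            if Disjoint ((Sp G (j - 1) x).filter (fun y => l y ≠ Q)) R then AA N d j else 0)
          else 0) ≤ if x ∈ NM G l j then
            ((N : ℝ) + 1) * Real.exp (-(p * (ζ * d / 5) ^ (j - 1))) * AA N d j else 0 := by
      intro x
      by_cases hx : x ∈ NM G l j
      · simp only [hx, if_true]
        exact prob_far G h0 h1 hreg hT hz l h3 x (j - 1) (by omega) (AA N d j) (AA_nonneg hd N j)
      · simp only [hx, if_false]
        exact (EB_const p 0).le
    refine (sum_le_sum fun x _ => h4 x).trans ?_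
    rw [LsS_sum_ite]
    have h5 := mul_le_mul_of_nonneg_right (hC2 j) (hX j)
    linarith
  have t5 : ∑ x, EB p (fun R => ∑ Q ∈ univ.filter (fun Q : Option Lam => Q ≠ l x),
          if Disjoint ((Sp G (J - 1) x).filter (fun y => l y ≠ Q)) R then AA N d J else 0) ≤
      (Fintype.card V : ℝ) * (((N : ℝ) + 1) * Real.exp (-(p * (ζ * d / 5) ^ (J - 1))) * AA N d J) := by
    refine (sum_le_sum fun x _ => prob_far G h0 h1 hreg hT hz l h3 x (J - 1) (by omega) (AA N d J)
      (AA_nonneg hd N J)).trans (le_of_eq ?_)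
    rw [sum_const, nsmul_eq_mul, card_univ]
  rw [Est, Bst]
  rw [t1]
  have hfin := add_le_add (add_le_add (add_le_add t2 t3) t4) t5
  linarith

end LD
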