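import Pool.Agent.W_5dd92e_ld.LsF1
import Pool.Agent.W_5dd92e_ld.LsF2
import Pool.Agent.W_5dd92e_ld.LsS

/-!
# Label stage: the last stage
-/

set_option autoImplicit false

open Finset
open scoped Classical

namespace LD

variable {V : Type*} [Fintype V] {Lam : Type*} [Fintype Lam]

/-- the coefficient of the number of disagreeing pairs in the cost of the last stage -/
noncomputable def Bfi (N d : ℕ) (ζ p : ℝ) (J : ℕ) : ℝ :=
  (∑ j ∈ Ico 1 J, 2 * ee d j * (d : ℝ) ^ j)
  + (d : ℝ) * (((N : ℝ) + 1) * Real.exp (-(p * ζ * d / 16)) * AA N d 1)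
  + ∑ j ∈ Ico 2 J, (d : ℝ) ^ j * (((N : ℝ) + 1) * Real.exp (-(p * (ζ * d / 5) ^ (j - 1))) * AA N d j)

/-- the pointwise bound of `fin_pt` -/
private noncomputable def LsF_a (G : SimpleGraph V) (d J : ℕ) (l : V → Option Lam) (x : V) : ℝ :=
  ∑ j ∈ Ico 1 J, if x ∈ NM G l j then 2 * ee d j else 0

private noncomputable def LsF_b (G : SimpleGraph V) (d : ℕ) (ζ : ℝ) (l : V → Option Lam) (x : V)
    (R : Finset V) : ℝ :=
  if x ∈ NM G l 1 then (∑ Q ∈ univ.filter (fun Q : Option Lam => Q ≠ l x),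
            if Few G ζ l x Q R then AA (Fintype.card Lam) d 1 else 0) else 0

private noncomputable def LsF_c (G : SimpleGraph V) (d : ℕ) (l : V → Option Lam) (x : V) (j : ℕ)
    (R : Finset V) : ℝ :=
  if x ∈ NM G l j then
          (∑ Q ∈ univ.filter (fun Q : Option Lam => Q ≠ l x),
            if Disjoint ((Sp G (j - 1) x).filter (fun y => l y ≠ Q)) R then AA (Fintype.card Lam) d j else 0)
          else 0

private noncomputable def LsF_e (G : SimpleGraph V) (d J : ℕ) (l : V → Option Lam) (x : V)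
    (R : Finset V) : ℝ :=
  ∑ Q ∈ univ.filter (fun Q : Option Lam => Q ≠ l x),
          if Disjoint ((Sp G (J - 1) x).filter (fun y => l y ≠ Q)) R then AA (Fintype.card Lam) d J else 0

private theorem LsF_nm (G : SimpleGraph V) {d : ℕ} (hd : 2 ≤ d) (hreg : Rgl G d)
    (l : V → Option Lam) (j : ℕ) {K : ℝ} (hK : 0 ≤ K) :
    ∑ x, (if x ∈ NM G l j then K else 0) ≤ ((Dis G l).card : ℝ) * ((d : ℝ) ^ j * K) := by
  have h := C2 G d hreg hd l j
  have h' : ((NM G l j).card : ℝ) ≤ (d : ℝ) ^ j * ((Dis G l).card : ℝ) := by exact_mod_cast h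
  rw [← Finset.sum_filter, Finset.sum_const, nsmul_eq_mul]
  have e : (univ.filter (fun x => x ∈ NM G l j)) = NM G l j := by
    ext x; simp
  rw [e]
  calc ((NM G l j).card : ℝ) * K ≤ ((d : ℝ) ^ j * ((Dis G l).card : ℝ)) * K :=
        mul_le_mul_of_nonneg_right h' hK
    _ = _ := by ring

private theorem LsF_a_nonneg (G : SimpleGraph V) {d : ℕ} (hd : 2 ≤ d) (J : ℕ) (l : V → Option Lam)
    (x : V) : 0 ≤ LsF_a G d J l x := by
  unfold LsF_a
  refine Finset.sum_nonneg fun j _ => ?_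
  have := ee_pos hd j
  split_ifs
  · linarith
  · exact le_refl _

private theorem LsF_b_nonneg (G : SimpleGraph V) {d : ℕ} (hd : 2 ≤ d) (ζ : ℝ) (l : V → Option Lam)
    (x : V) (R : Finset V) : 0 ≤ LsF_b G d ζ l x R := by
  unfold LsF_b
  have := AA_nonneg hd (Fintype.card Lam) 1
  split_ifs
  · refine Finset.sum_nonneg fun Q _ => ?_
    split_ifs
    · exact this
    · exact le_refl _
  · exact le_refl _

private theorem LsF_c_nonneg (G : SimpleGraph V) {d : ℕ} (hd : 2 ≤ d) (l : V → Option Lam)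
    (x : V) (j : ℕ) (R : Finset V) : 0 ≤ LsF_c G d l x j R := by
  unfold LsF_c
  have := AA_nonneg hd (Fintype.card Lam) j
  split_ifs
  · refine Finset.sum_nonneg fun Q _ => ?_
    split_ifs
    · exact this
    · exact le_refl _
  · exact le_refl _

private theorem LsF_e_nonneg (G : SimpleGraph V) {d : ℕ} (hd : 2 ≤ d) (J : ℕ) (l : V → Option Lam)
    (x : V) (R : Finset V) : 0 ≤ LsF_e G d J l x R := by
  unfold LsF_e
  have := AA_nonneg hd (Fintype.card Lam) J
  refine Finset.sum_nonneg fun Q _ => ?_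
  split_ifs
  · exact this
  · exact le_refl _

/-- the cost of the last stage -/
theorem fin_sum (G : SimpleGraph V) {d J : ℕ} {ζ p : ℝ} (h0 : 0 ≤ p) (h1 : p ≤ 1) (hd : 2 ≤ d)
    (hreg : Rgl G d) (hT : TreeTo G J) (hz : 20 ≤ ζ * d) (hz0 : 0 ≤ ζ) (hz1 : ζ ≤ 1)
    (l : V → Option Lam) (h3 : F3P G ζ d l) (hJ : 1 < J) :
    EB p (fun R => ∑ x ∈ (SSf G ζ R (rst R l))ᶜ, -Real.log (kfi G d J ζ R (rst R l) x (l x))) ≤
      (Fintype.card V : ℝ) * Est (Fintype.card Lam) d ζ p J +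
      ((Dis G l).card : ℝ) * Bfi (Fintype.card Lam) d ζ p J := by
  set N := Fintype.card Lam with hN
  have hA := fun j => AA_nonneg hd N j
  have key : ∀ R : Finset V,
      ∑ x ∈ (SSf G ζ R (rst R l))ᶜ, -Real.log (kfi G d J ζ R (rst R l) x (l x)) ≤
        ∑ x, (2 * ee d J + LsF_a G d J l x + LsF_b G d ζ l x R + (∑ j ∈ Ico 2 J, LsF_c G d l x j R)
          + LsF_e G d J l x R) := by
    intro R
    have hR : ∀ y ∈ R, rst R l y = l y := by
      intro y hy
      unfold rst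
      rw [if_pos hy]
    have h1 : ∑ x ∈ (SSf G ζ R (rst R l))ᶜ, -Real.log (kfi G d J ζ R (rst R l) x (l x)) ≤
        ∑ x ∈ (SSf G ζ R (rst R l))ᶜ, (2 * ee d J + LsF_a G d J l x + LsF_b G d ζ l x R
          + (∑ j ∈ Ico 2 J, LsF_c G d l x j R) + LsF_e G d J l x R) := by
      refine Finset.sum_le_sum fun x hx => ?_
      have hx' : x ∉ SSf G ζ R (rst R l) := by rwa [Finset.mem_compl] at hx
      exact fin_pt G hd hJ ζ (rst R l) l R hR x hx'
    refine h1.trans ?_
    refine Finset.sum_le_univ_sum_of_nonneg fun x => ?_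
    have q1 := ee_pos hd J
    have q2 := LsF_a_nonneg G hd J l x
    have q3 := LsF_b_nonneg G hd ζ l x R
    have q4 : 0 ≤ ∑ j ∈ Ico 2 J, LsF_c G d l x j R :=
      Finset.sum_nonneg fun j _ => LsF_c_nonneg G hd l x j R
    have q5 := LsF_e_nonneg G hd J l x R
    linarith
  refine (EB_mono h0 h1 _ _ key).trans ?_
  rw [EB_sum]
  have hx : ∀ x : V, EB p (fun R => 2 * ee d J + LsF_a G d J l x + LsF_b G d ζ l x R
        + (∑ j ∈ Ico 2 J, LsF_c G d l x j R) + LsF_e G d J l x R) ≤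
      2 * ee d J + (∑ j ∈ Ico 1 J, if x ∈ NM G l j then 2 * ee d j else 0)
      + (if x ∈ NM G l 1 then ((N : ℝ) + 1) * Real.exp (-(p * ζ * d / 16)) * AA N d 1 else 0)
      + (∑ j ∈ Ico 2 J, if x ∈ NM G l j then
          ((N : ℝ) + 1) * Real.exp (-(p * (ζ * d / 5) ^ (j - 1))) * AA N d j else 0)
      + ((N : ℝ) + 1) * Real.exp (-(p * (ζ * d / 5) ^ (J - 1))) * AA N d J := by
    intro x
    have e1 : EB p (fun R => 2 * ee d J + LsF_a G d J l x + LsF_b G d ζ l x R
        + (∑ j ∈ Ico 2 J, LsF_c G d l x j R) + LsF_e G d J l x R) =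
        2 * ee d J + LsF_a G d J l x + EB p (fun R => LsF_b G d ζ l x R)
        + (∑ j ∈ Ico 2 J, EB p (fun R => LsF_c G d l x j R)) + EB p (fun R => LsF_e G d J l x R) := by
      rw [EB_add p (fun R => 2 * ee d J + LsF_a G d J l x + LsF_b G d ζ l x R
        + (∑ j ∈ Ico 2 J, LsF_c G d l x j R)) (fun R => LsF_e G d J l x R),
        EB_add p (fun R => 2 * ee d J + LsF_a G d J l x + LsF_b G d ζ l x R)
          (fun R => ∑ j ∈ Ico 2 J, LsF_c G d l x j R),
        EB_add p (fun _ => 2 * ee d J + LsF_a G d J l x) (fun R => LsF_b G d ζ l x R),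
        EB_const, EB_sum]
    rw [e1]
    have b1 : EB p (fun R => LsF_b G d ζ l x R) ≤
        (if x ∈ NM G l 1 then ((N : ℝ) + 1) * Real.exp (-(p * ζ * d / 16)) * AA N d 1 else 0) := by
      unfold LsF_b
      by_cases hm : x ∈ NM G l 1
      · simp only [hm, if_true]
        exact prob_few G h0 h1 hz0 hz1 hreg l h3 x _ (hA 1)
      · simp only [hm, if_false]
        rw [EB_const]
    have b2 : ∀ j ∈ Ico 2 J, EB p (fun R => LsF_c G d l x j R) ≤
        (if x ∈ NM G l j then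
          ((N : ℝ) + 1) * Real.exp (-(p * (ζ * d / 5) ^ (j - 1))) * AA N d j else 0) := by
      intro j hj
      rw [Finset.mem_Ico] at hj
      unfold LsF_c
      by_cases hm : x ∈ NM G l j
      · simp only [hm, if_true]
        exact prob_far G h0 h1 hreg hT hz l h3 x (j - 1) (by omega) _ (hA j)
      · simp only [hm, if_false]
        rw [EB_const]
    have b3 : EB p (fun R => LsF_e G d J l x R) ≤
        ((N : ℝ) + 1) * Real.exp (-(p * (ζ * d / 5) ^ (J - 1))) * AA N d J := by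
      unfold LsF_e
      exact prob_far G h0 h1 hreg hT hz l h3 x (J - 1) (by omega) _ (hA J)
    have b2' := Finset.sum_le_sum b2
    have b0 : LsF_a G d J l x = ∑ j ∈ Ico 1 J, (if x ∈ NM G l j then 2 * ee d j else 0) := rfl
    rw [b0]
    linarith
  refine (Finset.sum_le_sum fun x _ => hx x).trans ?_
  rw [Finset.sum_add_distrib, Finset.sum_add_distrib, Finset.sum_add_distrib,
    Finset.sum_add_distrib]
  have s1 : ∑ x : V, ∑ j ∈ Ico 1 J, (if x ∈ NM G l j then 2 * ee d j else 0) ≤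
      ((Dis G l).card : ℝ) * (∑ j ∈ Ico 1 J, 2 * ee d j * (d : ℝ) ^ j) := by
    rw [Finset.sum_comm, Finset.mul_sum]
    refine Finset.sum_le_sum fun j _ => ?_
    have hp := ee_pos hd j
    refine (LsF_nm G hd hreg l j (by linarith : (0 : ℝ) ≤ 2 * ee d j)).trans (le_of_eq ?_)
    ring
  have hE : ∀ y : ℝ, 0 ≤ ((N : ℝ) + 1) * Real.exp y := fun y => by positivity
  have s2 : ∑ x : V, (if x ∈ NM G l 1 then
      ((N : ℝ) + 1) * Real.exp (-(p * ζ * d / 16)) * AA N d 1 else 0) ≤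
      ((Dis G l).card : ℝ) * ((d : ℝ) * (((N : ℝ) + 1) * Real.exp (-(p * ζ * d / 16)) * AA N d 1)) := by
    refine (LsF_nm G hd hreg l 1 (mul_nonneg (hE _) (hA 1))).trans (le_of_eq ?_)
    rw [pow_one]
  have s3 : ∑ x : V, ∑ j ∈ Ico 2 J, (if x ∈ NM G l j then
      ((N : ℝ) + 1) * Real.exp (-(p * (ζ * d / 5) ^ (j - 1))) * AA N d j else 0) ≤
      ((Dis G l).card : ℝ) * (∑ j ∈ Ico 2 J, (d : ℝ) ^ j *
        (((N : ℝ) + 1) * Real.exp (-(p * (ζ * d / 5) ^ (j - 1))) * AA N d j)) := by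
    rw [Finset.sum_comm, Finset.mul_sum]
    refine Finset.sum_le_sum fun j _ => ?_
    exact LsF_nm G hd hreg l j (mul_nonneg (hE _) (hA j))
  have s4 : ∀ c : ℝ, ∑ _x : V, c = (Fintype.card V : ℝ) * c := by
    intro c
    rw [Finset.sum_const, nsmul_eq_mul, Finset.card_univ]
  rw [s4, s4]
  unfold Est Bfi
  rw [mul_add ((Dis G l).card : ℝ), mul_add ((Dis G l).card : ℝ), mul_add (Fintype.card V : ℝ)]
  linarith

end LD
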