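import Pool.Agent.W_5dd92e_ld.LsS1
import Pool.Agent.W_5dd92e_ld.LsP2

/-!
# Label stage: pointwise cost of the last stage
-/

set_option autoImplicit false

open Finset
open scoped Classical

namespace LD

variable {V : Type*} [Fintype V] {Lam : Type*} [Fintype Lam]

/-- the kernel of the last stage -/
noncomputable def kfi (G : SimpleGraph V) (d J : ℕ) (ζ : ℝ) (R : Finset V) (τ : V → Option Lam) (x : V)
    (Q : Option Lam) : ℝ :=
  pk (Fintype.card Lam) (ee d (rad G J 1 τ R x)) (prf G J ζ τ R x) Q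

theorem kfi_pos (G : SimpleGraph V) {d : ℕ} (hd : 2 ≤ d) (J : ℕ) (ζ : ℝ) (R : Finset V)
    (τ : V → Option Lam) (x : V) (Q : Option Lam) : 0 < kfi G d J ζ R τ x Q := by
  have h := ee_le hd (rad G J 1 τ R x)
  exact pk_pos _ (ee_pos hd _) (by linarith) _ _

theorem kfi_sum (G : SimpleGraph V) {d : ℕ} (hd : 2 ≤ d) (J : ℕ) (ζ : ℝ) (R : Finset V)
    (τ : V → Option Lam) (x : V) : ∑ Q, kfi G d J ζ R τ x Q ≤ 1 := by
  have h := ee_le hd (rad G J 1 τ R x)
  exact pk_sum_le (ee_pos hd _).le (by linarith) _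

private theorem one_nonneg {q : Option Lam} (P : Option Lam → Prop) [DecidablePred P] (c : ℝ)
    (hc : 0 ≤ c) :
    0 ≤ ∑ Q ∈ univ.filter (fun Q : Option Lam => Q ≠ q), if P Q then c else 0 := by
  refine Finset.sum_nonneg fun Q _ => ?_
  split_ifs <;> linarith

private theorem one_ge {q : Option Lam} (P : Option Lam → Prop) [DecidablePred P] (c : ℝ)
    (hc : 0 ≤ c) (h : ∃ Q, Q ≠ q ∧ P Q) :
    c ≤ ∑ Q ∈ univ.filter (fun Q : Option Lam => Q ≠ q), if P Q then c else 0 := by
  obtain ⟨Q, hQ1, hQ2⟩ := h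
  have h1 : (if P Q then c else 0) ≤
      ∑ Q ∈ univ.filter (fun Q : Option Lam => Q ≠ q), if P Q then c else 0 := by
    refine Finset.single_le_sum (f := fun Q => if P Q then c else 0) (fun Q _ => ?_)
      (by simpa using hQ1)
    split_ifs <;> linarith
  rwa [if_pos hQ2] at h1

/-- pointwise bound, as `stage_pt`; errors at radius `1` by `err_prf` -/
theorem fin_pt (G : SimpleGraph V) {d J : ℕ} (hd : 2 ≤ d) (hJ : 1 < J) (ζ : ℝ)
    (τ l : V → Option Lam) (R : Finset V) (h : ∀ y ∈ R, τ y = l y) (x : V) (hx : x ∉ SSf G ζ R τ) :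
    -Real.log (kfi G d J ζ R τ x (l x)) ≤
      2 * ee d J + (∑ j ∈ Ico 1 J, if x ∈ NM G l j then 2 * ee d j else 0)
      + (if x ∈ NM G l 1 then (∑ Q ∈ univ.filter (fun Q : Option Lam => Q ≠ l x),
            if Few G ζ l x Q R then AA (Fintype.card Lam) d 1 else 0) else 0)
      + (∑ j ∈ Ico 2 J, if x ∈ NM G l j then
          (∑ Q ∈ univ.filter (fun Q : Option Lam => Q ≠ l x),
            if Disjoint ((Sp G (j - 1) x).filter (fun y => l y ≠ Q)) R then AA (Fintype.card Lam) d j else 0)
          else 0)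
      + ∑ Q ∈ univ.filter (fun Q : Option Lam => Q ≠ l x),
          if Disjoint ((Sp G (J - 1) x).filter (fun y => l y ≠ Q)) R then AA (Fintype.card Lam) d J else 0 := by
  have hAA : ∀ j, 0 ≤ AA (Fintype.card Lam) d j := fun j => AA_nonneg hd _ _
  have hee : ∀ j, 0 < ee d j := fun j => ee_pos hd j
  set T2 : ℝ := ∑ j ∈ Ico 1 J, if x ∈ NM G l j then 2 * ee d j else 0 with hT2
  set T3 : ℝ := if x ∈ NM G l 1 then (∑ Q ∈ univ.filter (fun Q : Option Lam => Q ≠ l x),
            if Few G ζ l x Q R then AA (Fintype.card Lam) d 1 else 0) else 0 with hT3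
  set T4 : ℝ := ∑ j ∈ Ico 2 J, if x ∈ NM G l j then
          (∑ Q ∈ univ.filter (fun Q : Option Lam => Q ≠ l x),
            if Disjoint ((Sp G (j - 1) x).filter (fun y => l y ≠ Q)) R then AA (Fintype.card Lam) d j else 0)
          else 0 with hT4
  set T5 : ℝ := ∑ Q ∈ univ.filter (fun Q : Option Lam => Q ≠ l x),
          if Disjoint ((Sp G (J - 1) x).filter (fun y => l y ≠ Q)) R then AA (Fintype.card Lam) d J else 0
    with hT5
  have hT2n : 0 ≤ T2 := by
    refine Finset.sum_nonneg fun j _ => ?_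
    have := hee j
    split_ifs <;> linarith
  have hT3n : 0 ≤ T3 := by
    rw [hT3]
    split_ifs
    · exact one_nonneg _ _ (hAA 1)
    · exact le_rfl
  have hT4n : 0 ≤ T4 := by
    refine Finset.sum_nonneg fun j _ => ?_
    split_ifs
    · exact one_nonneg _ _ (hAA j)
    · exact le_rfl
  have hT5n : 0 ≤ T5 := one_nonneg _ _ (hAA J)
  have hr1 : 1 ≤ rad G J 1 τ R x := le_rad G (by omega) τ R x
  have hrJ : rad G J 1 τ R x ≤ J := rad_le G J 1 τ R x
  have hle := ee_le hd (rad G J 1 τ R x)
  have hcost : -Real.log (kfi G d J ζ R τ x (l x)) ≤ 2 * ee d (rad G J 1 τ R x) +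
      (if prf G J ζ τ R x ≠ l x then AA (Fintype.card Lam) d (rad G J 1 τ R x) else 0) := by
    rw [AA_eq hd]
    exact pk_cost _ (hee _) (by linarith) _ _
  have hA : 2 * ee d (rad G J 1 τ R x) ≤ 2 * ee d J + T2 := by
    rcases hrJ.eq_or_lt with h1 | h1
    · rw [h1]; linarith
    · have h2 : x ∈ NM G l (rad G J 1 τ R x) := two_NM G τ l R h x _ (two_rad G J 1 τ R x h1)
      have h3 : (if x ∈ NM G l (rad G J 1 τ R x) then 2 * ee d (rad G J 1 τ R x) else 0) ≤ T2 := by
        refine Finset.single_le_sum (f := fun j => if x ∈ NM G l j then 2 * ee d j else 0)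
          (fun j _ => ?_) (Finset.mem_Ico.2 ⟨hr1, h1⟩)
        have := hee j
        split_ifs <;> linarith
      rw [if_pos h2] at h3
      have := hee J
      linarith
  have hB : (if prf G J ζ τ R x ≠ l x then AA (Fintype.card Lam) d (rad G J 1 τ R x) else 0) ≤
      T3 + T4 + T5 := by
    by_cases he : prf G J ζ τ R x ≠ l x
    · rw [if_pos he]
      by_cases h1 : rad G J 1 τ R x = 1
      · have h2 : x ∈ NM G l 1 := by
          have := two_NM G τ l R h x _ (two_rad G J 1 τ R x (by omega))
          rwa [h1] at this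
        have h3 : AA (Fintype.card Lam) d 1 ≤ T3 := by
          rw [hT3, if_pos h2]
          exact one_ge _ _ (hAA 1) (err_prf G J hJ ζ τ l R h x hx h1 he)
        rw [h1]
        linarith
      · have h2 : prf G J ζ τ R x = una G τ R x (rad G J 1 τ R x - 1) := by
          unfold prf
          rw [if_neg h1]
        rw [h2] at he
        have h3 : ¬ Two G τ R x (rad G J 1 τ R x - 1) :=
          not_two G J 1 τ R x _ (by omega) (by omega)
        have h4 := err_una G τ l R h x _ h3 he
        rcases hrJ.eq_or_lt with h5 | h5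
        · rw [h5] at h4 ⊢
          have h6 : AA (Fintype.card Lam) d J ≤ T5 := one_ge _ _ (hAA J) h4
          linarith
        · have h6 : x ∈ NM G l (rad G J 1 τ R x) := two_NM G τ l R h x _ (two_rad G J 1 τ R x h5)
          have h7 : (if x ∈ NM G l (rad G J 1 τ R x) then
              (∑ Q ∈ univ.filter (fun Q : Option Lam => Q ≠ l x),
                if Disjoint ((Sp G (rad G J 1 τ R x - 1) x).filter (fun y => l y ≠ Q)) R then
                  AA (Fintype.card Lam) d (rad G J 1 τ R x) else 0) else 0) ≤ T4 := by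
            refine Finset.single_le_sum (f := fun j => if x ∈ NM G l j then
              (∑ Q ∈ univ.filter (fun Q : Option Lam => Q ≠ l x),
                if Disjoint ((Sp G (j - 1) x).filter (fun y => l y ≠ Q)) R then
                  AA (Fintype.card Lam) d j else 0) else 0)
              (fun j _ => ?_) (Finset.mem_Ico.2 ⟨by omega, h5⟩)
            split_ifs
            · exact one_nonneg _ _ (hAA j)
            · exact le_rfl
          rw [if_pos h6] at h7
          have h8 := one_ge _ _ (hAA (rad G J 1 τ R x)) h4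
          linarith
    · rw [if_neg he]
      linarith
  linarith

end LD
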