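import Pool.Agent.W_5dd92e_ld.LsS
import Pool.Agent.W_5dd92e_ld.LsN0

/-!
# Label stage: numerics of a stage
-/

set_option autoImplicit false

open Finset
open scoped Classical

namespace LD

/-- a finite geometric sum -/
theorem n1_geom (s : Finset ℕ) : ∑ j ∈ s, (3 / 4 : ℝ) ^ j ≤ 4 := by
  have h := Summable.sum_le_tsum s (fun j _ => by positivity)
    (summable_geometric_of_lt_one (by norm_num : (0 : ℝ) ≤ 3 / 4) (by norm_num))
  rw [tsum_geometric_of_lt_one (by norm_num) (by norm_num)] at h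
  refine h.trans (le_of_eq (by norm_num))

theorem n1_lin (j : ℕ) : (j : ℝ) + 1 ≤ 2 * (3 / 2 : ℝ) ^ j := by
  have key : (j : ℝ) + 2 ≤ 2 * (3 / 2 : ℝ) ^ j := by
    induction j with
    | zero => norm_num
    | succ j ih =>
      push_cast
      rw [pow_succ]
      have h : (0 : ℝ) ≤ j := Nat.cast_nonneg j
      linarith
  linarith

theorem n1_two (i : ℕ) : 2 * (i : ℝ) + 5 ≤ 5 * (2 : ℝ) ^ i := by
  induction i with
  | zero => norm_num
  | succ i ih =>
    push_cast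
    rw [pow_succ]
    have h : (0 : ℝ) ≤ i := Nat.cast_nonneg i
    nlinarith

theorem n1_four (j : ℕ) : 2 * ((j : ℝ) + 3) + 1 ≤ (4 : ℝ) ^ (j + 2) := by
  induction j with
  | zero => norm_num
  | succ j ih =>
    push_cast
    rw [show j + 1 + 2 = (j + 2) + 1 by omega, pow_succ]
    have h : (0 : ℝ) ≤ j := Nat.cast_nonneg j
    nlinarith

/-- from an exponent to a power -/
theorem n1_exp {D E : ℝ} (hD : 0 < D) (j k : ℕ) (h : ((j : ℝ) + k) * Real.log D ≤ E) :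
    D ^ j * Real.exp (-E) ≤ (D⁻¹) ^ k := by
  have h1 : D ^ j = Real.exp ((j : ℝ) * Real.log D) := by
    rw [← Real.log_pow, Real.exp_log (by positivity)]
  have h2 : (D⁻¹) ^ k = Real.exp (-((k : ℝ) * Real.log D)) := by
    rw [inv_pow, Real.exp_neg, ← Real.log_pow, Real.exp_log (by positivity)]
  rw [h1, h2, ← Real.exp_add]
  refine Real.exp_le_exp.2 ?_
  linarith

/-- stage `i`, radius `2 i + 4`: the exponents are at least `d^(1 + (j-1)/4)` and `(d-1)^(i+3) / 4` -/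
theorem num_stage (N : ℕ) (cz : ℝ) (hcz : 0 < cz) : ∃ C : ℝ, ∃ d0 : ℕ, 0 < C ∧ ∀ d ≥ d0, ∀ i J : ℕ,
    Bst N d (cz / Real.log d) (rhoL d (i + 1)) (2 * i + 4) J ≤
      C * ((i : ℝ) + 1) ^ 2 * Real.log d / d := by
  have ha : 0 ≤ Real.log ((N : ℝ) + 1) := Real.log_nonneg (by
    have : (0 : ℝ) ≤ N := Nat.cast_nonneg N
    linarith)
  set a := Real.log ((N : ℝ) + 1) with hadef
  have hN : (0 : ℝ) ≤ N := Nat.cast_nonneg N
  -- the threshold
  obtain ⟨d1, hd1⟩ : ∃ d1 : ℕ, ∀ d ≥ d1, Real.log d ^ 2 ≤ (cz / 20) ^ 2 * d := by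
    have h1 := (Real.isLittleO_pow_log_id_atTop (n := 2)).bound (c := (cz / 20) ^ 2) (by positivity)
    have h2 := tendsto_natCast_atTop_atTop.eventually h1
    obtain ⟨d1, hd1⟩ := Filter.eventually_atTop.1 h2
    refine ⟨d1, fun d hd => ?_⟩
    have h3 := hd1 d hd
    simp only [id, Real.norm_eq_abs] at h3
    rw [abs_of_nonneg (by positivity), abs_of_nonneg (Nat.cast_nonneg d)] at h3
    exact h3
  refine ⟨8 + 33 * (a + 15) + 8 * (N + 1) * (a + 3), max d1 6, by positivity, ?_⟩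
  intro d hd i J
  have hdd1 : d1 ≤ d := (le_max_left _ _).trans hd
  have hd6 : 6 ≤ d := (le_max_right _ _).trans hd
  have hD6 : (6 : ℝ) ≤ d := by exact_mod_cast hd6
  have hlog := hd1 d hdd1
  set D : ℝ := (d : ℝ) with hDdef
  have hD0 : 0 < D := by linarith
  have hL1 : 1 ≤ Real.log D := by
    rw [Real.le_log_iff_exp_le hD0]
    have := Real.exp_one_lt_d9
    linarith
  set L := Real.log D with hL
  have hL0 : 0 < L := by linarith
  have hLD : L ≤ D - 1 := Real.log_le_sub_one_of_pos hD0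
  have hDinv : D⁻¹ ≤ 1 / 2 := by
    rw [inv_le_comm₀ hD0 (by norm_num)]
    linarith
  have hDinv0 : 0 < D⁻¹ := by positivity
  have hi : (0 : ℝ) ≤ i := Nat.cast_nonneg i
  have hAA : ∀ j : ℕ, AA N d j ≤ (a + 3 * j + 3) * L := by
    intro j
    unfold AA
    rw [← hadef, ← hL]
    nlinarith
  have hAA0 : ∀ j : ℕ, 0 ≤ AA N d j := by
    intro j
    unfold AA
    rw [← hadef, ← hL]
    positivity
  -- first sum
  have hs1 : (∑ j ∈ Ico (2 * i + 4) J, 2 * ee d j * D ^ j) ≤ 8 * L / D := by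
    have h1 : ∀ j ∈ Ico (2 * i + 4) J, 2 * ee d j * D ^ j ≤ 2 * D⁻¹ * (3 / 4 : ℝ) ^ j := by
      intro j _
      unfold ee
      rw [← hDdef]
      have h2 : (D⁻¹) ^ (3 * j + 3) * D ^ j = D⁻¹ * (D⁻¹) ^ j * (D⁻¹) ^ (j + 2) := by
        have h3 : (D⁻¹) ^ j * D ^ j = 1 := by
          rw [← mul_pow, inv_mul_cancel₀ hD0.ne', one_pow]
        calc (D⁻¹) ^ (3 * j + 3) * D ^ j
            = D⁻¹ * (D⁻¹) ^ j * (D⁻¹) ^ (j + 2) * ((D⁻¹) ^ j * D ^ j) := by ring
          _ = _ := by rw [h3, mul_one]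
      have h4 : (D⁻¹) ^ (j + 2) ≤ 1 := pow_le_one₀ hDinv0.le (by linarith)
      have h5 : (D⁻¹) ^ j ≤ (3 / 4 : ℝ) ^ j := pow_le_pow_left₀ hDinv0.le (by linarith) j
      calc 2 * (D⁻¹) ^ (3 * j + 3) * D ^ j = 2 * ((D⁻¹) ^ (3 * j + 3) * D ^ j) := by ring
        _ = 2 * (D⁻¹ * (D⁻¹) ^ j * (D⁻¹) ^ (j + 2)) := by rw [h2]
        _ ≤ 2 * (D⁻¹ * (D⁻¹) ^ j * 1) := by gcongr
        _ ≤ 2 * (D⁻¹ * (3 / 4 : ℝ) ^ j * 1) := by gcongr
        _ = _ := by ring
    refine (Finset.sum_le_sum h1).trans ?_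
    rw [← Finset.mul_sum]
    have h6 := n1_geom (Ico (2 * i + 4) J)
    calc 2 * D⁻¹ * ∑ j ∈ Ico (2 * i + 4) J, (3 / 4 : ℝ) ^ j ≤ 2 * D⁻¹ * 4 := by gcongr
      _ = 8 * 1 / D := by ring
      _ ≤ 8 * L / D := by gcongr
  -- second term
  have hs2 : (8 * ((2 * i + 4 : ℕ) : ℝ) / D + D ^ (2 * i + 4) *
      Real.exp (-(rhoL d (i + 1) * (D * (D - 1) ^ (2 * i + 4 - 1)) / 4))) * AA N d (2 * i + 4) ≤
      33 * (a + 15) * ((i : ℝ) + 1) ^ 2 * L / D := by
    have h1 : D ^ (2 * i + 4) *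
        Real.exp (-(rhoL d (i + 1) * (D * (D - 1) ^ (2 * i + 4 - 1)) / 4)) ≤ (D⁻¹) ^ 1 := by
      refine n1_exp hD0 _ 1 ?_
      rw [← hL]
      have hD1 : (0 : ℝ) < D - 1 := by linarith
      have e1 : rhoL d (i + 1) * (D * (D - 1) ^ (2 * i + 4 - 1)) / 4 =
          D * (D - 1) ^ (i + 2) / 4 := by
        change 1 / (D - 1) ^ (i + 1) * (D * (D - 1) ^ (2 * i + 4 - 1)) / 4 = _
        rw [show 2 * i + 4 - 1 = (i + 1) + (i + 2) by omega, pow_add (D - 1) (i + 1) (i + 2)]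
        field_simp
      rw [e1]
      have h2 : (2 : ℝ) ^ i ≤ (D - 1) ^ i := pow_le_pow_left₀ (by norm_num) (by linarith) i
      have h3 := n1_two i
      have h4 : 5 * L ≤ D * (D - 1) ^ 2 / 4 := by
        have h5 : (5 : ℝ) ≤ D - 1 := by linarith
        nlinarith
      push_cast
      calc (2 * (i : ℝ) + 4 + 1) * L = (2 * (i : ℝ) + 5) * L := by ring
        _ ≤ (5 * 2 ^ i) * L := by gcongr
        _ = (5 * L) * 2 ^ i := by ring
        _ ≤ (D * (D - 1) ^ 2 / 4) * (D - 1) ^ i := by gcongr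
        _ = D * (D - 1) ^ (i + 2) / 4 := by ring
    rw [pow_one] at h1
    have h2 : AA N d (2 * i + 4) ≤ (a + 15) * ((i : ℝ) + 1) * L := by
      refine (hAA _).trans ?_
      have h3 : a + 3 * ((2 * i + 4 : ℕ) : ℝ) + 3 ≤ (a + 15) * ((i : ℝ) + 1) := by
        push_cast
        nlinarith
      gcongr
    have h3 : 8 * ((2 * i + 4 : ℕ) : ℝ) / D + D ^ (2 * i + 4) *
        Real.exp (-(rhoL d (i + 1) * (D * (D - 1) ^ (2 * i + 4 - 1)) / 4)) ≤
        33 * ((i : ℝ) + 1) / D := by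
      have h4 : 8 * ((2 * i + 4 : ℕ) : ℝ) / D + D⁻¹ ≤ 33 * ((i : ℝ) + 1) / D := by
        rw [← one_div, ← add_div]
        push_cast
        gcongr
        linarith
      linarith
    calc _ ≤ 33 * ((i : ℝ) + 1) / D * ((a + 15) * ((i : ℝ) + 1) * L) := by
          refine mul_le_mul h3 h2 (hAA0 _) (by positivity)
      _ = _ := by ring
  -- third sum
  have hs3 : (∑ j ∈ Ico (2 * i + 4 + 1) J, D ^ j * (((N : ℝ) + 1) *
      Real.exp (-(rhoL d (i + 1) * (cz / L * D / 5) ^ (j - 1))) * AA N d j)) ≤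
      8 * (N + 1) * (a + 3) * L / D := by
    set y := cz / L * D / 5 with hy
    have hy0 : 0 < y := by positivity
    have hy2 : 16 * D ≤ y ^ 2 := by
      have e1 : y ^ 2 = (cz / 5) ^ 2 * D * D / L ^ 2 := by
        rw [hy]
        field_simp
      rw [e1, le_div_iff₀ (by positivity)]
      have h2 : 16 * L ^ 2 ≤ (cz / 5) ^ 2 * D := by
        have h3 : 16 * L ^ 2 ≤ 16 * ((cz / 20) ^ 2 * D) := by gcongr
        calc 16 * L ^ 2 ≤ 16 * ((cz / 20) ^ 2 * D) := h3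
          _ = (cz / 5) ^ 2 * D := by ring
      nlinarith
    have hy4 : 4 ≤ y := by nlinarith
    clear_value y
    have h1 : ∀ j ∈ Ico (2 * i + 4 + 1) J, D ^ j * (((N : ℝ) + 1) *
        Real.exp (-(rhoL d (i + 1) * y ^ (j - 1))) * AA N d j) ≤
        (2 * (N + 1) * (a + 3) * L * D⁻¹) * (3 / 4 : ℝ) ^ j := by
      intro j hj
      rw [mem_Ico] at hj
      obtain ⟨k, rfl⟩ : ∃ k, j = k + 3 := ⟨j - 3, by omega⟩
      have hk : 2 * (i + 1) ≤ k := by omega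
      have h2 : D ^ (k + 3) * Real.exp (-(rhoL d (i + 1) * y ^ (k + 3 - 1))) ≤
          (D⁻¹) ^ (k + 3 + 1) := by
        refine n1_exp hD0 _ _ ?_
        rw [← hL]
        have hD1 : (0 : ℝ) < D - 1 := by linarith
        have h3 : (D - 1) ^ (i + 1) ≤ (y ^ 2 / 16) ^ (i + 1) :=
          pow_le_pow_left₀ hD1.le (by linarith) _
        have h4 : y ^ 2 * 4 ^ k ≤ rhoL d (i + 1) * y ^ (k + 3 - 1) := by
          change y ^ 2 * 4 ^ k ≤ 1 / (D - 1) ^ (i + 1) * y ^ (k + 3 - 1)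
          rw [one_div, inv_mul_eq_div, le_div_iff₀ (by positivity)]
          obtain ⟨t, rfl⟩ : ∃ t, k = 2 * (i + 1) + t := ⟨k - 2 * (i + 1), by omega⟩
          have h5 : (4 : ℝ) ^ t ≤ y ^ t := pow_le_pow_left₀ (by norm_num) hy4 t
          calc y ^ 2 * 4 ^ (2 * (i + 1) + t) * (D - 1) ^ (i + 1)
              ≤ y ^ 2 * 4 ^ (2 * (i + 1) + t) * (y ^ 2 / 16) ^ (i + 1) := by gcongr
            _ = y ^ 2 * (y ^ 2) ^ (i + 1) * 4 ^ t := by
                have e4 : (4 : ℝ) ^ (2 * (i + 1) + t) = 16 ^ (i + 1) * 4 ^ t := by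
                  rw [pow_add, pow_mul]
                  norm_num
                rw [e4, div_pow]
                field_simp
            _ ≤ y ^ 2 * (y ^ 2) ^ (i + 1) * y ^ t := by gcongr
            _ = y ^ (2 * (i + 1) + t + 3 - 1) := by
                rw [show 2 * (i + 1) + t + 3 - 1 = 2 + 2 * (i + 1) + t by omega]
                ring
        refine le_trans ?_ h4
        have h5 := n1_four k
        push_cast
        calc ((k : ℝ) + 3 + ((k : ℝ) + 3 + 1)) * L = (2 * ((k : ℝ) + 3) + 1) * L := by ring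
          _ ≤ 4 ^ (k + 2) * L := by gcongr
          _ ≤ 4 ^ (k + 2) * D := by gcongr; linarith
          _ = 16 * D * 4 ^ k := by ring
          _ ≤ y ^ 2 * 4 ^ k := by gcongr
      have h6 : (D⁻¹) ^ (k + 3 + 1) ≤ D⁻¹ * (1 / 2) ^ (k + 3) := by
        rw [pow_succ, mul_comm]
        gcongr
      have h7 : AA N d (k + 3) ≤ (a + 3) * (2 * (3 / 2) ^ (k + 3)) * L := by
        refine (hAA _).trans ?_
        have h8 := n1_lin (k + 3)
        have h9 : a + 3 * ((k + 3 : ℕ) : ℝ) + 3 ≤ (a + 3) * (((k + 3 : ℕ) : ℝ) + 1) := by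
          have : (0 : ℝ) ≤ ((k + 3 : ℕ) : ℝ) := Nat.cast_nonneg _
          nlinarith
        have h10 : (a + 3) * (((k + 3 : ℕ) : ℝ) + 1) ≤ (a + 3) * (2 * (3 / 2) ^ (k + 3)) := by
          gcongr
        gcongr
        linarith
      calc D ^ (k + 3) * (((N : ℝ) + 1) *
            Real.exp (-(rhoL d (i + 1) * y ^ (k + 3 - 1))) * AA N d (k + 3))
          = ((N : ℝ) + 1) * (D ^ (k + 3) * Real.exp (-(rhoL d (i + 1) * y ^ (k + 3 - 1)))) *
              AA N d (k + 3) := by ring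
        _ ≤ ((N : ℝ) + 1) * (D⁻¹ * (1 / 2) ^ (k + 3)) *
              ((a + 3) * (2 * (3 / 2) ^ (k + 3)) * L) := by
            exact mul_le_mul (mul_le_mul_of_nonneg_left (h2.trans h6) (by positivity)) h7
              (hAA0 _) (by positivity)
        _ = (2 * (N + 1) * (a + 3) * L * D⁻¹) * ((1 / 2) ^ (k + 3) * (3 / 2) ^ (k + 3)) := by ring
        _ = (2 * (N + 1) * (a + 3) * L * D⁻¹) * (3 / 4 : ℝ) ^ (k + 3) := by
            rw [← mul_pow]
            norm_num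
    refine (Finset.sum_le_sum h1).trans ?_
    rw [← Finset.mul_sum]
    have h6 := n1_geom (Ico (2 * i + 4 + 1) J)
    calc (2 * (N + 1) * (a + 3) * L * D⁻¹) * ∑ j ∈ Ico (2 * i + 4 + 1) J, (3 / 4 : ℝ) ^ j
        ≤ (2 * (N + 1) * (a + 3) * L * D⁻¹) * 4 := by gcongr
      _ = _ := by ring
  unfold Bst
  have hs : (1 : ℝ) ≤ ((i : ℝ) + 1) ^ 2 := by nlinarith
  have hgen : ∀ X : ℝ, 0 ≤ X → X * L / D ≤ X * ((i : ℝ) + 1) ^ 2 * L / D := fun X hX =>
    div_le_div_of_nonneg_right (mul_le_mul_of_nonneg_right (le_mul_of_one_le_right hX hs) hL0.le)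
      hD0.le
  have h1 := hgen 8 (by norm_num)
  have h3 := hgen (8 * (N + 1) * (a + 3)) (by positivity)
  calc _ ≤ 8 * L / D + 33 * (a + 15) * ((i : ℝ) + 1) ^ 2 * L / D +
        8 * (N + 1) * (a + 3) * L / D := add_le_add (add_le_add hs1 hs2) hs3
    _ ≤ 8 * ((i : ℝ) + 1) ^ 2 * L / D + 33 * (a + 15) * ((i : ℝ) + 1) ^ 2 * L / D +
        8 * (N + 1) * (a + 3) * ((i : ℝ) + 1) ^ 2 * L / D := by linarith
    _ = _ := by ring

end LD
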