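import Pool.Agent.W_5dd92e_ld.LsK
import Pool.Agent.W_5dd92e_ld.LsP

/-!
# Label stage: pointwise cost of one stage
-/

set_option autoImplicit false

open Finset
open scoped Classical

namespace LD

/-- the failure probability at radius `j` -/
noncomputable def ee (d j : ℕ) : ℝ := ((d : ℝ)⁻¹) ^ (3 * j + 3)

/-- the price of an error at radius `j`: `log (N + 1) - log (ee d j)` -/
noncomputable def AA (N d j : ℕ) : ℝ := Real.log ((N : ℝ) + 1) + (3 * (j : ℝ) + 3) * Real.log d

theorem ee_pos {d : ℕ} (hd : 2 ≤ d) (j : ℕ) : 0 < ee d j := by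
  have h : (0 : ℝ) < d := by
    have : 0 < d := by omega
    exact_mod_cast this
  exact pow_pos (inv_pos.2 h) _

theorem ee_le {d : ℕ} (hd : 2 ≤ d) (j : ℕ) : ee d j ≤ 1 / 8 := by
  have h : (2 : ℝ) ≤ d := by exact_mod_cast hd
  have h0 : (0 : ℝ) ≤ (d : ℝ)⁻¹ := by positivity
  have h1 : (d : ℝ)⁻¹ ≤ 1 / 2 := by
    rw [inv_eq_one_div]
    exact one_div_le_one_div_of_le (by norm_num) h
  have h2 : ((d : ℝ)⁻¹) ^ (3 * j + 3) ≤ ((d : ℝ)⁻¹) ^ 3 :=
    pow_le_pow_of_le_one h0 (by linarith) (by omega)
  have h3 : ((d : ℝ)⁻¹) ^ 3 ≤ (1 / 2) ^ 3 := pow_le_pow_left₀ h0 h1 3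
  unfold ee
  refine h2.trans (h3.trans ?_)
  norm_num

theorem AA_eq {d : ℕ} (hd : 2 ≤ d) (N j : ℕ) : AA N d j = Real.log ((N : ℝ) + 1) - Real.log (ee d j) := by
  unfold AA ee
  rw [Real.log_pow, Real.log_inv]
  push_cast
  ring

theorem AA_nonneg {d : ℕ} (hd : 2 ≤ d) (N j : ℕ) : 0 ≤ AA N d j := by
  unfold AA
  have h1 : 0 ≤ Real.log ((N : ℝ) + 1) := Real.log_nonneg (by
    have : (0 : ℝ) ≤ N := Nat.cast_nonneg _
    linarith)
  have h2 : 0 ≤ Real.log (d : ℝ) := Real.log_nonneg (by
    have : (2 : ℝ) ≤ d := by exact_mod_cast hd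
    linarith)
  positivity

variable {V : Type*} [Fintype V] {Lam : Type*} [Fintype Lam]

/-- the kernel of a stage with typical radius `r` -/
noncomputable def kst (G : SimpleGraph V) (d J r : ℕ) (R : Finset V) (τ : V → Option Lam) (x : V)
    (Q : Option Lam) : ℝ :=
  pk (Fintype.card Lam) (ee d (rad G J r τ R x)) (prd G J r τ R x) Q

theorem kst_pos (G : SimpleGraph V) {d : ℕ} (hd : 2 ≤ d) (J r : ℕ) (R : Finset V) (τ : V → Option Lam)
    (x : V) (Q : Option Lam) : 0 < kst G d J r R τ x Q := by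
  exact pk_pos _ (ee_pos hd _) (by have := ee_le hd (rad G J r τ R x); linarith) _ _

theorem kst_sum (G : SimpleGraph V) {d : ℕ} (hd : 2 ≤ d) (J r : ℕ) (R : Finset V) (τ : V → Option Lam)
    (x : V) : ∑ Q, kst G d J r R τ x Q ≤ 1 := by
  exact pk_sum_le (ee_pos hd _).le (by have := ee_le hd (rad G J r τ R x); linarith) _

/-- pointwise bound of the cost: `rad = j < J` forces `x ∈ NM G l j`; an error with `rad = r` is an error of the
plurality, an error with `rad = j > r` an error of the unanimous label at radius `j - 1` -/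
theorem stage_pt (G : SimpleGraph V) {d J r : ℕ} (hd : 2 ≤ d) (hr : 1 ≤ r) (hJ : r < J)
    (τ l : V → Option Lam) (R : Finset V) (h : ∀ y ∈ R, τ y = l y) (x : V) :
    -Real.log (kst G d J r R τ x (l x)) ≤
      2 * ee d J + (∑ j ∈ Ico r J, if x ∈ NM G l j then 2 * ee d j else 0)
      + (if x ∈ NM G l r ∧ (((Sp G r x).filter (fun y => l y = l x)) ∩ R).card ≤ (Wg G l r x ∩ R).card
          then AA (Fintype.card Lam) d r else 0)
      + (∑ j ∈ Ico (r + 1) J, if x ∈ NM G l j then
          (∑ Q ∈ univ.filter (fun Q : Option Lam => Q ≠ l x),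
            if Disjoint ((Sp G (j - 1) x).filter (fun y => l y ≠ Q)) R then AA (Fintype.card Lam) d j else 0)
          else 0)
      + ∑ Q ∈ univ.filter (fun Q : Option Lam => Q ≠ l x),
          if Disjoint ((Sp G (J - 1) x).filter (fun y => l y ≠ Q)) R then AA (Fintype.card Lam) d J else 0 := by
  have hA := AA_nonneg hd (Fintype.card Lam)
  have hE : ∀ j, 0 ≤ 2 * ee d j := fun j => by
    have := ee_pos hd j
    linarith
  have T2 : ∀ j ∈ Ico r J, (0 : ℝ) ≤ (if x ∈ NM G l j then 2 * ee d j else 0) := by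
    intro j _
    split_ifs
    · exact hE j
    · exact le_rfl
  have T4a : ∀ j, ∀ Q ∈ univ.filter (fun Q : Option Lam => Q ≠ l x), (0 : ℝ) ≤
      (if Disjoint ((Sp G (j - 1) x).filter (fun y => l y ≠ Q)) R then AA (Fintype.card Lam) d j else 0) := by
    intro j Q _
    split_ifs
    · exact hA j
    · exact le_rfl
  have T4 : ∀ j ∈ Ico (r + 1) J, (0 : ℝ) ≤ (if x ∈ NM G l j then
          (∑ Q ∈ univ.filter (fun Q : Option Lam => Q ≠ l x),
            if Disjoint ((Sp G (j - 1) x).filter (fun y => l y ≠ Q)) R then AA (Fintype.card Lam) d j else 0)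
          else 0) := by
    intro j _
    split_ifs
    · exact sum_nonneg (T4a j)
    · exact le_rfl
  have S2 := sum_nonneg T2
  have S3 : (0 : ℝ) ≤ (if x ∈ NM G l r ∧ (((Sp G r x).filter (fun y => l y = l x)) ∩ R).card ≤
      (Wg G l r x ∩ R).card then AA (Fintype.card Lam) d r else 0) := by
    split_ifs
    · exact hA r
    · exact le_rfl
  have S4 := sum_nonneg T4
  have S5 := sum_nonneg (T4a J)
  have hc := pk_cost (Fintype.card Lam) (ee_pos hd (rad G J r τ R x))
    (by have := ee_le hd (rad G J r τ R x); linarith) (prd G J r τ R x) (l x)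
  rw [← AA_eq hd] at hc
  have hle := le_rad G hJ.le τ R x
  have hge := rad_le G J r τ R x
  -- an error of the unanimous label gives a term of the sum over the labels
  have key : ∀ j, rad G J r τ R x = j → r < j → prd G J r τ R x ≠ l x →
      AA (Fintype.card Lam) d j ≤ ∑ Q ∈ univ.filter (fun Q : Option Lam => Q ≠ l x),
          if Disjoint ((Sp G (j - 1) x).filter (fun y => l y ≠ Q)) R then AA (Fintype.card Lam) d j else 0 := by
    intro j hj hrj he
    have h1 : ¬ Two G τ R x (j - 1) := not_two G J r τ R x (j - 1) (by omega) (by omega)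
    have h2 : prd G J r τ R x = una G τ R x (j - 1) := by
      rw [prd, if_neg (by omega), hj]
    rw [h2] at he
    obtain ⟨Q, hQ, hQ2⟩ := err_una G τ l R h x (j - 1) h1 he
    refine le_trans ?_ (single_le_sum (T4a j) (mem_filter.2 ⟨mem_univ Q, hQ⟩))
    rw [if_pos hQ2]
  rcases eq_or_lt_of_le hge with hJ2 | hJ2
  · -- radius J
    unfold kst
    rw [hJ2] at hc ⊢
    by_cases he : prd G J r τ R x = l x
    · rw [if_neg (not_not.2 he)] at hc
      linarith
    · rw [if_pos he] at hc
      have h3 := key J hJ2 hJ he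
      linarith
  · have hnm : x ∈ NM G l (rad G J r τ R x) := two_NM G τ l R h x _ (two_rad G J r τ R x hJ2)
    have h2 : 2 * ee d (rad G J r τ R x) ≤ ∑ j ∈ Ico r J, if x ∈ NM G l j then 2 * ee d j else 0 := by
      refine le_trans ?_ (single_le_sum T2 (mem_Ico.2 ⟨hle, hJ2⟩))
      rw [if_pos hnm]
    have hEJ := hE J
    rcases eq_or_lt_of_le hle with hr2 | hr2
    · -- radius r
      by_cases he : prd G J r τ R x = l x
      · rw [if_neg (not_not.2 he)] at hc
        unfold kst
        linarith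
      · rw [if_pos he] at hc
        have he2 : plur G τ R x r ≠ l x := by
          have h4 : prd G J r τ R x = plur G τ R x r := by rw [prd, if_pos hr2.symm]
          rw [← h4]
          exact he
        have h5 := err_plur G τ l R h x r he2
        rw [← hr2] at hc h2 hnm
        rw [if_pos ⟨hnm, h5⟩]
        unfold kst
        rw [← hr2]
        linarith
    · by_cases he : prd G J r τ R x = l x
      · rw [if_neg (not_not.2 he)] at hc
        unfold kst
        linarith
      · rw [if_pos he] at hc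
        have h3 := key _ rfl hr2 he
        have h6 : AA (Fintype.card Lam) d (rad G J r τ R x) ≤ ∑ j ∈ Ico (r + 1) J, if x ∈ NM G l j then
          (∑ Q ∈ univ.filter (fun Q : Option Lam => Q ≠ l x),
            if Disjoint ((Sp G (j - 1) x).filter (fun y => l y ≠ Q)) R then AA (Fintype.card Lam) d j else 0)
          else 0 := by
          refine le_trans h3 (le_trans ?_ (single_le_sum T4 (mem_Ico.2 ⟨hr2, hJ2⟩)))
          rw [if_pos hnm]
        unfold kst
        linarith

end LD
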