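import Pool.Agent.W_5dd92e_ld.Acc
import Pool.Agent.W_5dd92e_ld.EBase
import Pool.Agent.W_5dd92e_ld.Cls

/-!
# MP_5dd92e_co, large degree theorem: the expected penalties
-/

set_option autoImplicit false

open Finset
open scoped Classical

namespace LD

variable {V : Type*} [Fintype V] {q : ℕ} {A : Fin q → Fin q → ℝ}

/-- the pairs of `WW` with first component `x` -/
noncomputable def WWx (G : SimpleGraph V) (d : ℕ) (δ : ℝ) (lam l : V → Option (Ph A)) (x : V) :
    Finset V :=
  (nb G x).filter (fun y => x ∈ Soft G d δ lam ∨ y ∈ Soft G d δ lam ∨ l x ≠ l y)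

theorem card_WW (G : SimpleGraph V) (d : ℕ) (δ : ℝ) (lam l : V → Option (Ph A)) (Rp : Finset V) :
    #(WW G d δ lam l Rp) = ∑ x ∈ Rp, #(WWx G d δ lam l x) := by
  have h : WW G d δ lam l Rp = Rp.biUnion (fun x => (WWx G d δ lam l x).image (fun y => (x, y))) := by
    ext ⟨x, y⟩
    simp only [WW, WWx, mem_filter, mem_univ, true_and, mem_biUnion, mem_image, Prod.mk.injEq,
      mem_nb]
    constructor
    · rintro ⟨h1, h2, h3⟩
      exact ⟨x, h1, y, ⟨h2, h3⟩, rfl, rfl⟩
    · rintro ⟨x', h1, y', ⟨h2, h3⟩, rfl, rfl⟩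
      exact ⟨h1, h2, h3⟩
  rw [h, card_biUnion]
  · refine sum_congr rfl fun x _ => ?_
    exact card_image_of_injective _ fun a b hab => (Prod.mk.inj hab).2
  · intro x _ x' _ hne
    refine disjoint_left.mpr ?_
    intro p hp hp'
    rw [mem_image] at hp hp'
    obtain ⟨y, _, rfl⟩ := hp
    obtain ⟨y', _, h2⟩ := hp'
    exact hne (Prod.mk.inj h2).1.symm

theorem sum_WWx (G : SimpleGraph V) (d : ℕ) (hreg : Rgl G d) (δ : ℝ)
    (lam l : V → Option (Ph A)) :
    ∑ x, #(WWx G d δ lam l x) ≤ 2 * d * #(Soft G d δ lam) + #(Dis G l) := by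
  have h1 : ∀ x, #(WWx G d δ lam l x) ≤ (if x ∈ Soft G d δ lam then d else 0) +
      (#((nb G x).filter (fun y => y ∈ Soft G d δ lam)) +
        #((nb G x).filter (fun y => (x, y) ∈ Dis G l))) := by
    intro x
    by_cases hx : x ∈ Soft G d δ lam
    · rw [if_pos hx]
      have h : #(WWx G d δ lam l x) ≤ d := by
        rw [← hreg x]
        exact card_le_card (filter_subset _ _)
      omega
    · rw [if_neg hx, zero_add]
      refine (card_le_card ?_).trans (card_union_le _ _)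
      intro y hy
      rw [WWx, mem_filter] at hy
      rw [mem_union, mem_filter, mem_filter, mem_Dis]
      rcases hy.2 with h2 | h2 | h2
      · exact absurd h2 hx
      · exact Or.inl ⟨hy.1, h2⟩
      · exact Or.inr ⟨hy.1, mem_nb.mp hy.1, h2⟩
  refine (sum_le_sum fun x _ => h1 x).trans ?_
  rw [sum_add_distrib, sum_add_distrib]
  have h2 : ∑ x, (if x ∈ Soft G d δ lam then d else 0) = d * #(Soft G d δ lam) := by
    rw [← sum_filter, sum_const, smul_eq_mul, mul_comm]
    congr 2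
    ext x
    simp
  have h3 : ∑ x, #((nb G x).filter (fun y => y ∈ Soft G d δ lam)) ≤ d * #(Soft G d δ lam) := by
    have h := sum_card_bipartiteAbove_eq_sum_card_bipartiteBelow (s := (univ : Finset V))
      (t := Soft G d δ lam) (fun a b => G.Adj a b)
    have e1 : ∀ x, (nb G x).filter (fun y => y ∈ Soft G d δ lam) =
        (Soft G d δ lam).bipartiteAbove (fun a b => G.Adj a b) x := by
      intro x
      ext y
      rw [mem_filter, mem_nb, mem_bipartiteAbove]
      tauto
    rw [sum_congr rfl (fun x _ => congrArg card (e1 x)), h]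
    refine (sum_le_card_nsmul _ _ d fun y _ => ?_).trans ?_
    · rw [← hreg y]
      apply card_le_card
      intro x hx
      rw [mem_bipartiteBelow] at hx
      exact mem_nb.mpr hx.2.symm
    · rw [smul_eq_mul, mul_comm]
  have h4 : ∑ x, #((nb G x).filter (fun y => (x, y) ∈ Dis G l)) = #(Dis G l) := by
    have e : Dis G l = (univ : Finset V).biUnion
        (fun x => ((nb G x).filter (fun y => (x, y) ∈ Dis G l)).image (fun y => (x, y))) := by
      ext ⟨x, y⟩
      rw [mem_biUnion]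
      constructor
      · intro h
        refine ⟨x, mem_univ _, mem_image.mpr ⟨y, mem_filter.mpr ⟨?_, h⟩, rfl⟩⟩
        exact mem_nb.mpr (mem_Dis.mp h).1
      · rintro ⟨x', _, h⟩
        rw [mem_image] at h
        obtain ⟨y', h2, h3⟩ := h
        rw [← h3]
        exact (mem_filter.mp h2).2
    conv_rhs => rw [e]
    rw [card_biUnion]
    · refine sum_congr rfl fun x _ => ?_
      exact (card_image_of_injective _ fun a b hab => (Prod.mk.inj hab).2).symm
    · intro x _ x' _ hne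
      refine disjoint_left.mpr ?_
      intro p hp hp'
      rw [mem_image] at hp hp'
      obtain ⟨y, _, rfl⟩ := hp
      obtain ⟨y', _, h2⟩ := hp'
      exact hne (Prod.mk.inj h2).1.symm
  rw [h2, h4]
  calc _ ≤ d * #(Soft G d δ lam) + (d * #(Soft G d δ lam) + #(Dis G l)) := by omega
    _ = _ := by ring

theorem WW_exp (G : SimpleGraph V) (d : ℕ) (hreg : Rgl G d) (δ : ℝ) (lam l : V → Option (Ph A))
    (t0 : ℝ) (h0 : 0 ≤ t0) :
    EB t0 (fun Rp => (#(WW G d δ lam l Rp) : ℝ)) ≤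
      t0 * (2 * d * #(Soft G d δ lam) + #(Dis G l)) := by
  have h1 : (fun Rp : Finset V => (#(WW G d δ lam l Rp) : ℝ)) =
      fun Rp => ∑ x ∈ Rp, (#(WWx G d δ lam l x) : ℝ) := by
    funext Rp
    rw [card_WW, Nat.cast_sum]
  rw [h1, EB_linear]
  refine mul_le_mul_of_nonneg_left ?_ h0
  rw [← Nat.cast_sum]
  exact_mod_cast sum_WWx G d hreg δ lam l

/-- lower tail of the number of points of `X` in a random set -/
theorem EB_tail {p : ℝ} (h0 : 0 ≤ p) (h1 : p ≤ 1) (X : Finset V) (τ : ℝ)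
    (hτ : 2 * τ ≤ p * #X) :
    EB p (fun R => if (#(X ∩ R) : ℝ) < τ then (1 : ℝ) else 0) ≤ Real.exp (-(τ / 4)) := by
  have e1 : ∀ R : Finset V, (if (#(X ∩ R) : ℝ) < τ then (1 : ℝ) else 0) ≤
      Real.exp τ * Real.exp (∑ x ∈ X ∩ R, (-1 : ℝ)) := by
    intro R
    rw [← Real.exp_add, sum_const, nsmul_eq_mul, mul_neg, mul_one]
    split_ifs with h
    · rw [← Real.exp_zero]
      exact Real.exp_le_exp.mpr (by linarith)
    · exact (Real.exp_pos _).le
  refine (EB_mono h0 h1 _ _ e1).trans ?_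
  rw [EB_mul]
  refine (mul_le_mul_of_nonneg_left (EB_exp_inter_le h0 h1 X (fun _ => -1))
    (Real.exp_pos _).le).trans ?_
  rw [← Real.exp_add, sum_const, nsmul_eq_mul]
  apply Real.exp_le_exp.mpr
  have he : Real.exp (-1) ≤ 3 / 8 := by
    rw [Real.exp_neg, inv_le_comm₀ (Real.exp_pos 1) (by norm_num)]
    have := Real.exp_one_gt_d9
    linarith
  have hX : 0 ≤ p * #X := mul_nonneg h0 (Nat.cast_nonneg _)
  have h2 : p * (#X * (Real.exp (-1) - 1)) ≤ p * #X * (-(5 / 8)) := by
    have : p * (#X * (Real.exp (-1) - 1)) = p * #X * (Real.exp (-1) - 1) := by ring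
    rw [this]
    exact mul_le_mul_of_nonneg_left (by linarith) hX
  linarith

theorem Bad_exp (G : SimpleGraph V) (d : ℕ) (δ τF ε0 : ℝ) (lam : V → Option (Ph A))
    (σ : V → Fin q) (t0 : ℝ) (h0 : 0 ≤ t0) (h1 : t0 ≤ 1) (hτ : 2 * τF ≤ ε0 * d * t0) :
    EB t0 (fun Rp => (#(Bad G d δ τF ε0 lam Rp σ) : ℝ)) ≤
      q * Real.exp (-(τF / 4)) * #(Soft G d δ lam) := by
  set X : V → Fin q → Finset V := fun y a => (nb G y).filter (fun x => σ x = a) with hX
  have e1 : ∀ Rp : Finset V, (#(Bad G d δ τF ε0 lam Rp σ) : ℝ) ≤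
      ∑ y ∈ Soft G d δ lam, ∑ a : Fin q, (if ε0 * d ≤ (#(X y a) : ℝ) ∧
        (#(X y a ∩ Rp) : ℝ) < τF then (1 : ℝ) else 0) := by
    intro Rp
    rw [Bad, card_filter, Nat.cast_sum]
    refine sum_le_sum fun y _ => ?_
    split_ifs with h
    · obtain ⟨a, ha1, ha2⟩ := h
      have h3 : (nb G y ∩ Rp).filter (fun x => σ x = a) = X y a ∩ Rp := by
        ext x
        simp only [hX, mem_filter, mem_inter]
        tauto
      rw [h3] at ha2
      refine le_trans ?_ (single_le_sum (f := fun a : Fin q => (if ε0 * d ≤ (#(X y a) : ℝ) ∧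
        (#(X y a ∩ Rp) : ℝ) < τF then (1 : ℝ) else 0)) (fun b _ => ?_) (mem_univ a))
      · rw [if_pos ⟨ha1, ha2⟩]
        norm_num
      · show (0 : ℝ) ≤ (if _ then (1 : ℝ) else 0)
        split_ifs <;> norm_num
    · rw [Nat.cast_zero]
      refine sum_nonneg fun a _ => ?_
      split_ifs <;> norm_num
  refine (EB_mono h0 h1 _ _ e1).trans ?_
  rw [EB_sum]
  have e2 : ∀ y ∈ Soft G d δ lam, EB t0 (fun Rp => ∑ a : Fin q, (if ε0 * d ≤ (#(X y a) : ℝ) ∧
        (#(X y a ∩ Rp) : ℝ) < τF then (1 : ℝ) else 0)) ≤ q * Real.exp (-(τF / 4)) := by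
    intro y _
    rw [EB_sum]
    have e3 : ∀ a ∈ (univ : Finset (Fin q)), EB t0 (fun Rp => (if ε0 * d ≤ (#(X y a) : ℝ) ∧
        (#(X y a ∩ Rp) : ℝ) < τF then (1 : ℝ) else 0)) ≤ Real.exp (-(τF / 4)) := by
      intro a _
      by_cases h : ε0 * d ≤ (#(X y a) : ℝ)
      · simp only [h, true_and]
        refine EB_tail h0 h1 (X y a) τF (hτ.trans ?_)
        rw [mul_comm t0]
        exact mul_le_mul_of_nonneg_right h h0
      · simp only [h, false_and, if_false]
        rw [EB_const]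
        exact (Real.exp_pos _).le
    refine (sum_le_sum e3).trans ?_
    rw [sum_const, nsmul_eq_mul, card_univ, Fintype.card_fin]
  refine (sum_le_sum e2).trans ?_
  rw [sum_const, nsmul_eq_mul]
  exact le_of_eq (by ring)

end LD
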