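import Pool.Agent.W_5dd92e_ld.Main
import Pool.Agent.W_5dd92e_ld.Pen
import Pool.Agent.W_5dd92e_ld.Fin

/-!
# MP_5dd92e_co, large degree theorem: the penalties in the form used in `Main`
-/

set_option autoImplicit false

open Finset
open scoped Classical

namespace LD

universe u

theorem pen_stmt : PenStmt.{u} := by
  intro V _ q A G d δ τF ε0 t0 hreg h0 h1 hτ
  exact ⟨fun lam l => WW_exp G d hreg δ lam l t0 h0,
    fun lam σ => Bad_exp G d δ τF ε0 lam σ t0 h0 h1 hτ⟩

/-- the normalised statement from the two remaining blocks -/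
theorem main_stmt (hLab : LabStmt.{u}) (hPol : PolStmt.{u}) : MainStmt.{u} := by
  intro q A κ hA
  obtain ⟨d0, h⟩ := main_norm.{u} hLab hPol pen_stmt.{u} q A κ hA
  refine ⟨d0, fun d hd => ?_⟩
  obtain ⟨Lam, hL⟩ := h d hd
  exact ⟨Lam, fun ε hε => hL ε hε⟩

end LD
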