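import Pool.Agent.W_5dd92e_ld.Ctx

/-!
# MP_5dd92e_co, large degree theorem: sequential products of conditional probabilities
-/

set_option autoImplicit false

open Finset
open scoped Classical

namespace LD

section seq
variable {V : Type*} [Fintype V] {C : Type*} [Fintype C]

/-- the configurations which agree with `τ` outside `W` -/
noncomputable def Ag (W : Finset V) (τ : V → C) : Finset (V → C) :=
  univ.filter (fun σ => ∀ x, x ∉ W → σ x = τ x)

theorem mem_Ag {W : Finset V} {τ σ : V → C} : σ ∈ Ag W τ ↔ ∀ x, x ∉ W → σ x = τ x := by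
  simp [Ag]

theorem sum_Ag (W : Finset V) (τ : V → C) (s : V) (hs : s ∈ W) (F : (V → C) → ℝ) :
    ∑ σ ∈ Ag W τ, F σ = ∑ σ ∈ Ag (W.erase s) τ, ∑ a, F (Function.update σ s a) := by
  rw [← Finset.sum_product']
  symm
  refine Finset.sum_bij' (fun (x : (V → C) × C) _ => Function.update x.1 s x.2)
    (fun σ _ => (Function.update σ s (τ s), σ s)) ?_ ?_ ?_ ?_ ?_
  · rintro ⟨σ, a⟩ h
    rw [mem_product, mem_Ag] at h
    rw [mem_Ag]
    intro x hx
    have hxs : x ≠ s := fun h' => hx (by rw [h']; exact hs)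
    simp only [Function.update_of_ne hxs]
    exact h.1 x (fun h' => hx (Finset.mem_of_mem_erase h'))
  · intro σ h
    rw [mem_Ag] at h
    rw [mem_product, mem_Ag]
    refine ⟨?_, mem_univ _⟩
    intro x hx
    by_cases hxs : x = s
    · rw [hxs]
      simp
    · simp only [Function.update_of_ne hxs]
      exact h x (fun h' => hx (Finset.mem_erase.mpr ⟨hxs, h'⟩))
  · rintro ⟨σ, a⟩ h
    rw [mem_product, mem_Ag] at h
    have h1 : σ s = τ s := h.1 s (by simp)
    simp only [Function.update_self, Function.update_idem, Prod.mk.injEq, and_true]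
    rw [← h1]
    exact Function.update_eq_self s σ
  · intro σ _
    simp
  · rintro ⟨σ, a⟩ _
    rfl

/-- sequential products of sub-probabilities have total mass at most one -/
theorem seq_sum (rank : V → ℕ) (k : V → (V → C) → C → ℝ) (hk0 : ∀ s σ a, 0 ≤ k s σ a)
    (hk1 : ∀ s σ, ∑ a, k s σ a ≤ 1)
    (U : Finset V)
    (hloc : ∀ s ∈ U, ∀ σ σ' a, (∀ y, rank y < rank s → σ y = σ' y) → k s σ a = k s σ' a)
    (W : Finset V) (hWU : W ⊆ U) (τ : V → C) : ∑ σ ∈ Ag W τ, ∏ s ∈ W, k s σ (σ s) ≤ 1 := by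
  induction h : W.card using Nat.strong_induction_on generalizing W with
  | _ n ih =>
    rcases W.eq_empty_or_nonempty with hW | hW
    · subst hW
      have : Ag (∅ : Finset V) τ = {τ} := by
        ext σ
        rw [mem_Ag, mem_singleton]
        constructor
        · intro h'
          funext x
          exact h' x (by simp)
        · rintro rfl x _
          rfl
      rw [this]
      simp
    · obtain ⟨s, hs, hmax⟩ := Finset.exists_max_image W rank hW
      rw [sum_Ag W τ s hs]
      have hcard : (W.erase s).card < n := by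
        rw [← h]
        exact Finset.card_erase_lt_of_mem hs
      refine le_trans (Finset.sum_le_sum fun σ hσ => ?_)
        (ih _ hcard (W.erase s) ((Finset.erase_subset _ _).trans hWU) rfl)
      have h1 : ∀ a, ∏ t ∈ W, k t (Function.update σ s a) ((Function.update σ s a) t) =
          k s σ a * ∏ t ∈ W.erase s, k t σ (σ t) := by
        intro a
        rw [← Finset.mul_prod_erase W _ hs]
        congr 1
        · rw [Function.update_self]
          refine hloc _ (hWU hs) _ _ _ fun y hy => ?_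
          rw [Function.update_of_ne]
          rintro rfl
          exact lt_irrefl _ hy
        · refine Finset.prod_congr rfl fun t ht => ?_
          have hts : t ≠ s := Finset.ne_of_mem_erase ht
          rw [Function.update_of_ne hts]
          refine hloc _ (hWU (Finset.mem_of_mem_erase ht)) _ _ _ fun y hy => ?_
          rw [Function.update_of_ne]
          rintro rfl
          exact absurd (hmax t (Finset.mem_of_mem_erase ht)) (by omega)
      rw [Finset.sum_congr rfl fun a _ => h1 a, ← Finset.sum_mul]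
      calc (∑ a, k s σ a) * ∏ t ∈ W.erase s, k t σ (σ t)
          ≤ 1 * ∏ t ∈ W.erase s, k t σ (σ t) :=
            mul_le_mul_of_nonneg_right (hk1 s σ) (Finset.prod_nonneg fun t _ => hk0 _ _ _)
        _ = _ := one_mul _

end seq

section kc
variable {V : Type*} [Fintype V] {q : ℕ} {A : Fin q → Fin q → ℝ}

namespace Ctx

theorem F_congr (X : Ctx V q A) (σ σ' : V → Fin q) (y : V) (h : ∀ x ∈ X.Rp, σ x = σ' x) :
    X.F σ y = X.F σ' y := by
  unfold Ctx.F
  refine Finset.filter_congr fun a _ => ?_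
  have : (nb X.G y ∩ X.Rp).filter (fun x => σ x = a) =
      (nb X.G y ∩ X.Rp).filter (fun x => σ' x = a) :=
    Finset.filter_congr fun x hx => by rw [h x (Finset.mem_inter.mp hx).2]
  rw [this]

theorem Phi_congr (X : Ctx V q A) (σ σ' : V → Fin q) (y : V) (h : ∀ x ∈ X.Rp, σ x = σ' x) :
    X.Phi σ y = X.Phi σ' y := by
  unfold Ctx.Phi
  rw [X.F_congr σ σ' y h]

theorem fw_congr (X : Ctx V q A) (σ σ' : V → Fin q) (s : V) (a : Fin q)
    (h : ∀ x ∈ X.Rp, σ x = σ' x) (h' : ∀ x ∈ X.Rev s, σ x = σ' x) :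
    X.fw σ s a = X.fw σ' s a := by
  have e1 : X.KN σ s a = X.KN σ' s a := by
    unfold Ctx.KN
    congr 1
    exact Finset.filter_congr fun y _ => by rw [X.Phi_congr σ σ' y h]
  have e2 : ∏ y ∈ X.Rev s, A (σ y) a = ∏ y ∈ X.Rev s, A (σ' y) a :=
    Finset.prod_congr rfl fun y hy => by rw [h' y hy]
  unfold Ctx.fw
  rw [e1, e2]

theorem fp_congr (X : Ctx V q A) (σ σ' : V → Fin q) (s : V) (a : Fin q)
    (h : ∀ x ∈ X.D, σ x = σ' x) : X.fp σ s a = X.fp σ' s a := by
  have e2 : ∏ x ∈ nb X.G s ∩ X.D, A (σ x) a = ∏ x ∈ nb X.G s ∩ X.D, A (σ' x) a :=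
    Finset.prod_congr rfl fun y hy => by rw [h y (Finset.mem_inter.mp hy).2]
  unfold Ctx.fp
  rw [e2]

/-- the order of the colour stages -/
noncomputable def rank (X : Ctx V q A) (x : V) : ℕ :=
  if x ∈ X.D then 0 else if x ∈ X.Rp then 1 else if X.c x = X.o then 2 else 3

theorem rank_D (X : Ctx V q A) {x : V} (h : x ∈ X.D) : X.rank x = 0 := by
  simp [Ctx.rank, h]

theorem rank_Rp (X : Ctx V q A) {x : V} (h : x ∈ X.Rp) : X.rank x ≤ 1 := by
  unfold Ctx.rank
  split_ifs <;> simp_all

theorem rank_o (X : Ctx V q A) {x : V} (h : X.c x = X.o) : X.rank x ≤ 2 := by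
  unfold Ctx.rank
  split_ifs <;> simp_all

theorem fp_nonneg (hA : ∀ i j, 0 ≤ A i j) (X : Ctx V q A) (σ : V → Fin q) (s : V) (a : Fin q) :
    0 ≤ X.fp σ s a := by
  unfold Ctx.fp
  split_ifs
  · exact Finset.prod_nonneg fun _ _ => hA _ _
  · exact le_refl _
  · exact zero_le_one

theorem fw_nonneg (hA : ∀ i j, 0 ≤ A i j) (X : Ctx V q A) (σ : V → Fin q) (s : V) (a : Fin q) :
    0 ≤ X.fw σ s a := by
  unfold Ctx.fw
  split_ifs
  · exact mul_nonneg (Finset.prod_nonneg fun _ _ => hA _ _) (Real.exp_pos _).le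
  · exact le_refl _

theorem KC_nonneg (hA : ∀ i j, 0 ≤ A i j) (X : Ctx V q A) (σ : V → Fin q) : 0 ≤ X.KC σ := by
  unfold Ctx.KC
  refine mul_nonneg (Finset.prod_nonneg fun s _ => ?_) (Finset.prod_nonneg fun s _ => ?_)
  · exact div_nonneg (fp_nonneg hA X σ s _) (Finset.sum_nonneg fun a _ => fp_nonneg hA X σ s a)
  · exact div_nonneg (fw_nonneg hA X σ s _) (Finset.sum_nonneg fun a _ => fw_nonneg hA X σ s a)

/-- the colour stages are a sub-probability, for given colours on `D` -/
theorem KC_sum (hA : ∀ i j, 0 ≤ A i j) (X : Ctx V q A) (hc : TPB.Prp X.G X.c) (τ : V → Fin q) :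
    ∑ σ ∈ Ag (univ \ X.D) τ, X.KC σ ≤ 1 := by
  have hsplit : univ \ X.D = (X.Rp \ X.D) ∪ X.rest := by
    ext x
    simp only [Ctx.rest, mem_sdiff, mem_univ, true_and, mem_union]
    tauto
  have hdisj : Disjoint (X.Rp \ X.D) X.rest := by
    rw [Finset.disjoint_left]
    intro x hx hx'
    simp only [Ctx.rest, mem_sdiff, mem_univ, true_and, mem_union] at hx hx'
    tauto
  have h0 : ∀ s σ a, 0 ≤ (if s ∈ X.Rp then X.fp σ s a / X.ZP σ s
      else X.fw σ s a / X.ZZ σ s) := by
    intro s σ a
    split_ifs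
    · exact div_nonneg (fp_nonneg hA X σ s _) (Finset.sum_nonneg fun a _ => fp_nonneg hA X σ s a)
    · exact div_nonneg (fw_nonneg hA X σ s _) (Finset.sum_nonneg fun a _ => fw_nonneg hA X σ s a)
  have h1 : ∀ s σ, ∑ a, (if s ∈ X.Rp then X.fp σ s a / X.ZP σ s
      else X.fw σ s a / X.ZZ σ s) ≤ 1 := by
    intro s σ
    split_ifs
    · rw [← Finset.sum_div]
      exact div_self_le_one _
    · rw [← Finset.sum_div]
      exact div_self_le_one _
  have h2 : ∀ s ∈ univ \ X.D, ∀ (σ σ' : V → Fin q) (a : Fin q),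
      (∀ y, X.rank y < X.rank s → σ y = σ' y) →
      (if s ∈ X.Rp then X.fp σ s a / X.ZP σ s else X.fw σ s a / X.ZZ σ s) =
      (if s ∈ X.Rp then X.fp σ' s a / X.ZP σ' s else X.fw σ' s a / X.ZZ σ' s) := by
    intro s hs σ σ' a hσ
    have hsD : s ∉ X.D := (mem_sdiff.mp hs).2
    by_cases hR : s ∈ X.Rp
    · rw [if_pos hR, if_pos hR]
      have hr : X.rank s = 1 := by simp [Ctx.rank, hsD, hR]
      have hD : ∀ x ∈ X.D, σ x = σ' x := fun x hx => hσ x (by rw [X.rank_D hx, hr]; omega)
      unfold Ctx.ZP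
      rw [X.fp_congr σ σ' s a hD, Finset.sum_congr rfl fun b _ => X.fp_congr σ σ' s b hD]
    · rw [if_neg hR, if_neg hR]
      have hr : 2 ≤ X.rank s := by
        unfold Ctx.rank
        rw [if_neg hsD, if_neg hR]
        split_ifs <;> omega
      have hRp : ∀ x ∈ X.Rp, σ x = σ' x := fun x hx =>
        hσ x (lt_of_le_of_lt (X.rank_Rp hx) (by omega))
      have hRev : ∀ x ∈ X.Rev s, σ x = σ' x := by
        intro x hx
        unfold Ctx.Rev at hx
        by_cases ho : X.c s = X.o
        · rw [if_pos ho, mem_inter, mem_union] at hx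
          rcases hx.2 with h' | h'
          · exact hσ x (by rw [X.rank_D h']; omega)
          · exact hRp x h'
        · rw [if_neg ho] at hx
          have hr3 : X.rank s = 3 := by
            unfold Ctx.rank
            rw [if_neg hsD, if_neg hR, if_neg ho]
          have hadj : X.G.Adj s x := by
            unfold nb at hx
            exact (mem_filter.mp hx).2
          have hcx : X.c x = X.o := by
            have h3 := hc s x hadj
            revert h3 ho
            cases X.c s <;> cases X.c x <;> cases X.o <;> simp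
          exact hσ x (lt_of_le_of_lt (X.rank_o hcx) (by omega))
      unfold Ctx.ZZ
      rw [X.fw_congr σ σ' s a hRp hRev, Finset.sum_congr rfl fun b _ =>
        X.fw_congr σ σ' s b hRp hRev]
  have h := seq_sum X.rank
    (fun s σ a => if s ∈ X.Rp then X.fp σ s a / X.ZP σ s else X.fw σ s a / X.ZZ σ s) h0 h1
    (univ \ X.D) h2 (univ \ X.D) (Finset.Subset.refl _) τ
  refine le_trans (le_of_eq (Finset.sum_congr rfl fun σ _ => ?_)) h
  unfold Ctx.KC
  rw [hsplit, Finset.prod_union hdisj]
  congr 1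
  · refine Finset.prod_congr rfl fun s hs => ?_
    simp only [mem_sdiff] at hs
    simp [hs.1]
  · refine Finset.prod_congr rfl fun s hs => ?_
    simp only [Ctx.rest, mem_sdiff, mem_univ, true_and, mem_union, not_or] at hs
    simp [hs.2]

end Ctx

end kc

end LD
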